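import Pool.Agent.H4G.Six.D2.Lev88

/-!
# A state of content 1 with maximal first area (helper88)

If `NF A a c z x` is not equivalent to a normal form with a larger `a`, then `A` is small and
`gcd (z, x)` is almost `z`, for all shears; so there is a large common divisor of `z, x, a c`.
-/

set_option autoImplicit false

namespace Pool.Agent.H4G.Six

open Pool.Agent.H4G

variable {N : ℤ} {J Z : ℕ} {A a c z x : ℤ}

/-- a residue in a window -/
theorem exists_res {m : ℤ} (hm : 0 < m) (t B : ℤ) : ∃ y : ℤ, B - m < y ∧ y ≤ B ∧ m ∣ y - t := by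
  refine ⟨B - (B - t) % m, ?_, ?_, ?_⟩
  · have := Int.emod_lt_of_pos (B - t) hm
    linarith
  · have := Int.emod_nonneg (B - t) hm.ne'
    linarith
  · refine ⟨(B - t) / m, ?_⟩
    have := Int.emod_add_mul_ediv (B - t) m
    linarith

/-- coprime case: the vector `(± 1, F)` -/
theorem vec_one (hc : 0 < c) (hz : 1 < z) (hcop : IsCoprime z x) :
    ∃ X F : ℤ, Vec c z x X F ∧ |X| = 1 ∧ c * z ≤ 2 * F := by
  obtain ⟨s, t, hst⟩ := hcop
  obtain ⟨y, h1, h2, k, hk⟩ := exists_res (m := z) (by linarith) t (z - 1)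
  have e1 : y * x + (s - k * x) * z = 1 := by linear_combination hst + x * hk
  have y0 : 0 < y := by
    have : 0 ≤ y := by omega
    rcases this.lt_or_eq with h | h
    · exact h
    · exfalso
      rw [← h, zero_mul, zero_add] at e1
      have : z ∣ 1 := ⟨s - k * x, by linarith⟩
      have := Int.le_of_dvd (by norm_num) this
      omega
  rcases le_total z (2 * y) with h | h
  · refine ⟨1, c * y, ⟨s - k * x, y, ⟨z, x, by linarith⟩, y0, by omega, e1.symm, rfl⟩,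
      by norm_num, ?_⟩
    have := mul_le_mul_of_nonneg_left h hc.le
    linarith
  · refine ⟨-1, c * (z - y), ⟨-(s - k * x) - x, z - y, ⟨-z, -x, by linarith⟩, by omega,
      by omega, by linarith, rfl⟩, by norm_num, ?_⟩
    have : z ≤ 2 * (z - y) := by omega
    have := mul_le_mul_of_nonneg_left this hc.le
    linarith

/-- powers of `J` -/
theorem Bg.pow_gap (hB : Bg N J Z) {i k : ℕ} (h : i < k) :
    (2 : ℤ) ^ 20 * (J : ℤ) ^ i ≤ (J : ℤ) ^ k := by
  have h0 := hB.J20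
  have h1 := hB.J1
  have h2 : (J : ℤ) ^ (i + 1) ≤ (J : ℤ) ^ k := pow_le_pow_right₀ h1 h
  have h3 : (J : ℤ) ^ (i + 1) = J * (J : ℤ) ^ i := by ring
  have h4 : (2 : ℤ) ^ 20 * (J : ℤ) ^ i ≤ J * (J : ℤ) ^ i :=
    mul_le_mul_of_nonneg_right h0 (by positivity)
  linarith

/-- **the coprime case** -/
theorem amax_cop (hB : Bg N J Z) (hA : 0 < A) (ha : 1 < a) (hc0 : 0 < c) (hz : 1 < z)
    (h3 : 3 ≤ c * z) (hN : A + a + c * z = N) (hcop : IsCoprime z x)
    (hp : ¬ Prog A a c z x) : c * z ≤ (J : ℤ) ^ 18 ∧ A ≤ (J : ℤ) ^ 20 := by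
  have hJ := hB.J1
  have hJ20 := hB.J20
  norm_num at hJ20
  obtain ⟨X, F, hv, hX, hF⟩ := vec_one (x := x) hc0 hz hcop
  have hX' : X ≠ 0 := by rintro rfl; simp at hX
  have hF0 := hv.F0 hc0
  have F2 : 2 ≤ F := by omega
  have h1 : F ≤ (A + 1) * J := by
    by_contra h
    refine hp (lev hB hA ha hc0 hN hv hX' (i1 := 1) (t1 := 0) le_rfl le_rfl hB.N1 ?_ ?_)
    · rw [hX]; simp only [mul_one, mul_zero, add_zero, one_mul]; linarith
    · simp only [mul_zero, zero_mul]; positivity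
  have h2 : A < (2 * J + 2) * (F + 1) := by
    by_contra h
    exact hp (room1 hB hA ha hc0 hN hv hX F2 (by linarith))
  have h3 : F ≤ (J : ℤ) ^ 17 := by
    by_contra h
    push Not at h
    have hQ : ∃ Q : ℕ, (Q : ℤ) + 1 = 4 * (J : ℤ) ^ 2 := by
      refine ⟨(4 * (J : ℤ) ^ 2 - 1).toNat, ?_⟩
      rw [Int.toNat_of_nonneg]
      · ring
      · nlinarith
    obtain ⟨Q, hQ⟩ := hQ
    have hJ2 : (J : ℤ) ≤ (J : ℤ) ^ 2 := by nlinarith
    refine hp (lev_dir hB hA ha hc0 hN (Q := Q) hv hX' ?_ ?_ ?_ ?_)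
    · by_contra h0
      have : Q = 0 := by omega
      rw [this] at hQ
      push_cast at hQ
      nlinarith
    · have g1 := hB.pow_gap (i := 2) (k := 3) (by norm_num)
      have g2 := hB.pw (n := 3) (by norm_num)
      norm_num at g1
      have g3 : 0 < (J : ℤ) ^ 2 := by positivity
      linarith
    · rw [hQ]
      have g1 : (F + 1) * J ≤ ((A + 1) * J + 1) * J :=
        mul_le_mul_of_nonneg_right (by linarith) (by linarith)
      have g2 : (J : ℤ) ^ 2 ≤ A * (J : ℤ) ^ 2 := by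
        have : 0 ≤ (A - 1) * (J : ℤ) ^ 2 := mul_nonneg (by linarith) (by positivity)
        linarith
      have e : ((A + 1) * J + 1) * J = A * (J : ℤ) ^ 2 + (J : ℤ) ^ 2 + J := by ring
      have g3 : 0 < (J : ℤ) ^ 2 := by positivity
      linarith
    · rw [hX, hQ]
      -- `W ≤ 3 J (F + 1)`
      have g1 : A + 1 + F ≤ 3 * J * (F + 1) := by nlinarith
      have g2 : (Q : ℤ) ≤ 4 * (J : ℤ) ^ 2 := by linarith
      have g3 : J * (Q : ℤ) * 1 * (A + 1 + F) ≤ J * (4 * (J : ℤ) ^ 2) * 1 * (3 * J * (F + 1)) := by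
        refine mul_le_mul ?_ g1 (by linarith) (by positivity)
        refine mul_le_mul_of_nonneg_right ?_ (by norm_num)
        exact mul_le_mul_of_nonneg_left g2 (by linarith)
      have g4 : J * (Q : ℤ) * 1 * (A + 1 + F) * (4 * (J : ℤ) ^ 2) ≤
          12 * (J : ℤ) ^ 4 * ((F + 1) * (4 * (J : ℤ) ^ 2)) := by
        have := mul_le_mul_of_nonneg_right g3 (by positivity : (0 : ℤ) ≤ 4 * (J : ℤ) ^ 2)
        calc _ ≤ _ := this
          _ = _ := by ring
      have g5 : J * (F * (F + 1)) ≤ (J : ℤ) ^ 2 * (F * (F + 1)) :=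
        mul_le_mul_of_nonneg_right hJ2 (by positivity)
      have g6 : 16 * (J : ℤ) ^ 4 < F := by
        have g7 := hB.pow_gap (i := 4) (k := 17) (by norm_num)
        norm_num at g7
        have : 0 < (J : ℤ) ^ 4 := by positivity
        linarith
      have g8 : 0 < (F + 1) * (4 * (J : ℤ) ^ 2) := by positivity
      have g9 := mul_lt_mul_of_pos_right g6 g8
      have e1 : F * (F + 1) * (4 * (J : ℤ) ^ 2) = F * ((F + 1) * (4 * (J : ℤ) ^ 2)) := by ring
      have e2 : (J : ℤ) ^ 2 * (F * (F + 1)) * 4 = F * ((F + 1) * (4 * (J : ℤ) ^ 2)) := by ring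
      rw [e1]
      nlinarith
  have g1 := hB.pow_gap (i := 17) (k := 18) (by norm_num)
  have g2 := hB.pow_gap (i := 18) (k := 20) (by norm_num)
  have e : (J : ℤ) * (J : ℤ) ^ 17 = (J : ℤ) ^ 18 := by ring
  norm_num at g1 g2
  have g3 : 0 < (J : ℤ) ^ 17 := by positivity
  constructor
  · linarith
  · have g4 : (2 * J + 2) * (F + 1) ≤ (2 * J + 2) * ((J : ℤ) ^ 17 + 1) :=
      mul_le_mul_of_nonneg_left (by linarith) (by linarith)
    have g5 : (2 * J + 2) * ((J : ℤ) ^ 17 + 1) = 2 * (J : ℤ) ^ 18 + 2 * (J : ℤ) ^ 17 + 2 * J + 2 := by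
      ring
    have g6 : (J : ℤ) ≤ (J : ℤ) ^ 17 := by
      have := pow_le_pow_right₀ hJ (show 1 ≤ 17 by norm_num)
      simpa using this
    have : 0 < (J : ℤ) ^ 18 := by positivity
    linarith


theorem amax_low (hB : Bg N J Z) {g F F0 : ℤ} (hA : 0 < A) (ha : 1 < a) (hc : 0 < c)
    (hN : A + a + c * z = N) (hg : 2 ≤ g) (hg6 : g < (J : ℤ) ^ 6) (hF0' : 0 < F0)
    (hv : Vec c z x g F) (hF2 : g * F0 ≤ 2 * F) (b1 : A ≤ J * (F0 + 1))
    (b2 : F ≤ (A + 1) * g * J) (h18 : (J : ℤ) ^ 18 < F0) : Prog A a c z x := by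
  have hJ := hB.J1
  have hJ20 := hB.J20
  norm_num at hJ20
  have hg' : |g| = g := abs_of_pos (by linarith)
  have hFpos := hv.F0 hc
  have p4 : 0 < (J : ℤ) ^ 4 := by positivity
  have p2 : 0 < (J : ℤ) ^ 2 := by positivity
  have hJ2 : (J : ℤ) ≤ (J : ℤ) ^ 2 := by
    have := mul_le_mul_of_nonneg_left hJ (by linarith : (0 : ℤ) ≤ J)
    rw [pow_two]; linarith
  have q2 : (J : ℤ) ^ 2 * 2 ≤ (J : ℤ) ^ 2 * g := mul_le_mul_of_nonneg_left hg p2.le
  have hQ : ∃ Q : ℕ, (Q : ℤ) + 1 = 8 * (J : ℤ) ^ 2 * g := by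
    refine ⟨(8 * (J : ℤ) ^ 2 * g - 1).toNat, ?_⟩
    rw [Int.toNat_of_nonneg]
    · ring
    · linarith
  obtain ⟨Q, hQ⟩ := hQ
  have hQ2 : 0 ≤ 8 * (J : ℤ) ^ 2 * g := by linarith
  refine lev_dir hB hA ha hc hN (Q := Q) hv (by linarith) ?_ ?_ ?_ ?_
  · by_contra h0
    have h0' : Q = 0 := by omega
    rw [h0'] at hQ
    push_cast at hQ
    linarith
  · have g1 : 8 * (J : ℤ) ^ 2 * g ≤ 8 * (J : ℤ) ^ 2 * (J : ℤ) ^ 6 :=
      mul_le_mul_of_nonneg_left hg6.le (by linarith)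
    have g2 := hB.pow_gap (i := 8) (k := 9) (by norm_num)
    have g3 := hB.pw (n := 9) (by norm_num)
    have e : (J : ℤ) ^ 2 * (J : ℤ) ^ 6 = (J : ℤ) ^ 8 := by ring
    norm_num at g2
    have g4 : 0 < (J : ℤ) ^ 8 := by positivity
    linarith
  · rw [hQ]
    have g1 : (F + 1) * J ≤ ((A + 1) * g * J + 1) * J :=
      mul_le_mul_of_nonneg_right (by linarith) (by linarith)
    have e : ((A + 1) * g * J + 1) * J =
        A * (g * (J : ℤ) ^ 2) + g * (J : ℤ) ^ 2 + J := by ring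
    have g2 : 0 < g * (J : ℤ) ^ 2 := by linarith
    have g3 : 1 * (g * (J : ℤ) ^ 2) ≤ A * (g * (J : ℤ) ^ 2) :=
      mul_le_mul_of_nonneg_right (by linarith) g2.le
    have e2 : A * (8 * (J : ℤ) ^ 2 * g) = 8 * (A * (g * (J : ℤ) ^ 2)) := by ring
    rw [e2]; linarith
  · rw [hg', hQ]
    have f1 : F0 ≤ F := by
      have := mul_le_mul_of_nonneg_right hg hF0'.le
      linarith
    have g1 : A + 1 + F ≤ 3 * J * (F + 1) := by
      have h1 : J * (F0 + 1) ≤ J * (F + 1) := mul_le_mul_of_nonneg_left (by linarith) (by linarith)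
      have h2 : 1 * (F + 1) ≤ J * (F + 1) := mul_le_mul_of_nonneg_right hJ (by linarith)
      have e : 3 * J * (F + 1) = 3 * (J * (F + 1)) := by ring
      rw [e]; linarith
    have g2 : (Q : ℤ) ≤ 8 * (J : ℤ) ^ 2 * g := by linarith
    have g3 : J * (Q : ℤ) * g * (A + 1 + F) ≤
        J * (8 * (J : ℤ) ^ 2 * g) * g * (3 * J * (F + 1)) := by
      refine mul_le_mul ?_ g1 (by linarith) (by positivity)
      refine mul_le_mul_of_nonneg_right ?_ (by linarith)
      exact mul_le_mul_of_nonneg_left g2 (by linarith)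
    have g4 : J * (Q : ℤ) * g * (A + 1 + F) * (8 * (J : ℤ) ^ 2 * g) ≤
        24 * (J : ℤ) ^ 4 * g ^ 2 * ((F + 1) * (8 * (J : ℤ) ^ 2 * g)) := by
      have := mul_le_mul_of_nonneg_right g3 hQ2
      calc _ ≤ _ := this
        _ = _ := by ring
    have g5 : J * (F * (F + 1)) ≤ (J : ℤ) ^ 2 * g * (F * (F + 1)) := by
      refine mul_le_mul_of_nonneg_right ?_ (by positivity)
      linarith
    have g6 : 48 * (J : ℤ) ^ 4 * g ^ 2 < F := by
      -- `2 F ≥ g F0 > g J^18`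
      have k1 : g * (J : ℤ) ^ 18 ≤ g * F0 := mul_le_mul_of_nonneg_left h18.le (by linarith)
      have k2 := hB.pow_gap (i := 10) (k := 18) (by norm_num)
      norm_num at k2
      have k3 : g * (1048576 * (J : ℤ) ^ 10) ≤ g * (J : ℤ) ^ 18 :=
        mul_le_mul_of_nonneg_left k2 (by linarith)
      have k4 : (J : ℤ) ^ 4 * (g * g) ≤ (J : ℤ) ^ 4 * (g * (J : ℤ) ^ 6) := by
        refine mul_le_mul_of_nonneg_left ?_ p4.le
        exact mul_le_mul_of_nonneg_left hg6.le (by linarith)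
      have k5 : (J : ℤ) ^ 4 * (g * (J : ℤ) ^ 6) = g * (J : ℤ) ^ 10 := by ring
      have k6 : 0 < g * (J : ℤ) ^ 10 := by positivity
      have k7 : 48 * (J : ℤ) ^ 4 * g ^ 2 = 48 * ((J : ℤ) ^ 4 * (g * g)) := by ring
      rw [k7]; linarith
    have g8 : 0 < (F + 1) * (8 * (J : ℤ) ^ 2 * g) := by positivity
    have g9 := mul_lt_mul_of_pos_right g6 g8
    have e1 : F * (F + 1) * (8 * (J : ℤ) ^ 2 * g) = F * ((F + 1) * (8 * (J : ℤ) ^ 2 * g)) := by
      ring
    have e2 : (J : ℤ) ^ 2 * g * (F * (F + 1)) * 8 = F * ((F + 1) * (8 * (J : ℤ) ^ 2 * g)) := by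
      ring
    rw [e1]
    have e3 : 48 * (J : ℤ) ^ 4 * g ^ 2 * ((F + 1) * (8 * (J : ℤ) ^ 2 * g)) =
      2 * (24 * (J : ℤ) ^ 4 * g ^ 2 * ((F + 1) * (8 * (J : ℤ) ^ 2 * g))) := by ring
    have g10 : 0 < F * ((F + 1) * (8 * (J : ℤ) ^ 2 * g)) := by positivity
    linarith

/-- the arithmetic of the directions of level `t` -/
theorem am_arith {j g A F0 t : ℤ} (hj : 1048576 ≤ j) (hA : 0 < A) (hF : 0 < F0)
    (h6 : j ^ 6 ≤ g) (b1 : A ≤ j * (F0 + 1)) (b3 : F0 ≤ 2 * j * (A + 1)) (h18 : j ^ 18 < F0)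
    (t0 : 1 ≤ t) (d4 : t * F0 ≤ A + F0) :
    g * j * t + t * (F0 + 1) * (1 + j * t) ≤ g * A := by
  have j0 : 0 ≤ j := by linarith
  have p2 : 1 ≤ j ^ 2 := one_le_pow₀ (by linarith)
  have p3 : 0 < j ^ 3 := by positivity
  have p4 : 0 < j ^ 4 := by positivity
  have w1 : j ≤ j ^ 18 := by
    have := pow_le_pow_right₀ (show 1 ≤ j by linarith) (show 1 ≤ 18 by norm_num)
    rwa [pow_one] at this
  have w2 : 1048576 * j ^ 3 ≤ j ^ 18 := by
    have h1 := pow_le_pow_right₀ (show 1 ≤ j by linarith) (show 4 ≤ 18 by norm_num)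
    have h2 := mul_le_mul_of_nonneg_right hj p3.le
    have e : j * j ^ 3 = j ^ 4 := by ring
    linarith
  have w3 : 1048576 * j ^ 4 ≤ g := by
    have h1 := pow_le_pow_right₀ (show 1 ≤ j by linarith) (show 5 ≤ 6 by norm_num)
    have h2 := mul_le_mul_of_nonneg_right hj p4.le
    have e : j * j ^ 4 = j ^ 5 := by ring
    linarith
  have t2 : t ≤ 2 * j := by
    by_contra h0
    have h1 : (j + 2) * F0 ≤ t * F0 := mul_le_mul_of_nonneg_right (by linarith) hF.le
    linarith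
  have A2 : 4 * j ^ 2 ≤ A := by
    by_contra h0
    have h1 : 2 * j * (A + 1) ≤ 2 * j * (4 * j ^ 2) :=
      mul_le_mul_of_nonneg_left (by linarith) (by linarith)
    have e : 2 * j * (4 * j ^ 2) = 8 * j ^ 3 := by ring
    linarith
  have jt : j * t ≤ j * (2 * j) := mul_le_mul_of_nonneg_left t2 j0
  have e2 : j * (2 * j) = 2 * j ^ 2 := by ring
  have k1 : F0 + 1 ≤ 6 * j * A := by
    have h1 : j * 1 ≤ j * A := mul_le_mul_of_nonneg_left (by linarith) j0
    linarith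
  have k2 : 1 + j * t ≤ 3 * j ^ 2 := by linarith
  have k3 : t * (F0 + 1) ≤ 2 * j * (6 * j * A) :=
    mul_le_mul t2 k1 (by linarith) (by linarith)
  have k4 : t * (F0 + 1) * (1 + j * t) ≤ 2 * j * (6 * j * A) * (3 * j ^ 2) :=
    mul_le_mul k3 k2 (by positivity) (by positivity)
  have e3 : 2 * j * (6 * j * A) * (3 * j ^ 2) = 36 * j ^ 4 * A := by ring
  have m2 : 72 * j ^ 4 ≤ g := by linarith
  have m3 : 72 * j ^ 4 * A ≤ g * A := mul_le_mul_of_nonneg_right m2 hA.le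
  have m4 : g * (j * t * 2) ≤ g * A :=
    mul_le_mul_of_nonneg_left (by linarith) (by linarith)
  have e4 : g * (j * t * 2) = g * j * t * 2 := by ring
  linarith

theorem amax_high (hB : Bg N J Z) {g z1 t0 : ℤ} (hA : 0 < A) (ha : 1 < a) (hc : 0 < c)
    (hz1 : 0 < z1) (hN : A + a + c * (g * z1) = N) (hg6 : (J : ℤ) ^ 6 ≤ g)
    (vg : ∀ y : ℤ, z1 ∣ y - t0 → 0 < y → y < g * z1 → Vec c (g * z1) x g (c * y))
    (b1 : A ≤ J * (c * z1 + 1)) (b3 : c * z1 ≤ 2 * J * (A + 1))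
    (h18 : (J : ℤ) ^ 18 < c * z1) : Prog A a c (g * z1) x := by
  have hJ := hB.J1
  have hJ20 := hB.J20
  norm_num at hJ20
  have g0 : 1 ≤ g := (one_le_pow₀ hJ).trans hg6
  have hg' : |g| = g := abs_of_pos (by linarith)
  obtain ⟨F0, hF0⟩ : ∃ F0, F0 = c * z1 := ⟨_, rfl⟩
  have hF0' : 0 < F0 := by rw [hF0]; positivity
  rw [← hF0] at b1 b3 h18
  obtain ⟨t1, ht1⟩ : ∃ t1, t1 = A / F0 + 1 := ⟨_, rfl⟩
  have d1 : F0 * (A / F0) ≤ A := Int.mul_ediv_self_le hF0'.ne'
  have d2 : A < F0 * (A / F0) + F0 := Int.lt_mul_ediv_self_add hF0'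
  have e1 : t1 * F0 = F0 * (A / F0) + F0 := by rw [ht1]; ring
  have d3 : A < t1 * F0 := by rw [e1]; exact d2
  have d4 : t1 * F0 ≤ A + F0 := by rw [e1]; linarith
  have t0' : 1 ≤ t1 := by
    have : 0 ≤ A / F0 := Int.ediv_nonneg hA.le hF0'.le
    rw [ht1]; linarith
  have m5 := am_arith (by exact_mod_cast hJ20) hA hF0' hg6 b1 b3 h18 t0' d4
  have jt0 : 0 ≤ (J : ℤ) * t1 := mul_nonneg (by linarith) (by linarith)
  have m6 : t1 * (F0 + 1) ≤ g * A := by
    have k1 : t1 * (F0 + 1) * 1 ≤ t1 * (F0 + 1) * (1 + J * t1) :=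
      mul_le_mul_of_nonneg_left (by linarith) (mul_nonneg (by linarith) (by linarith))
    have k2 : 0 ≤ g * J * t1 := by positivity
    linarith
  obtain ⟨D, hD⟩ : ∃ D, D = g * A / t1 := ⟨_, rfl⟩
  have D1 : t1 * D ≤ g * A := by rw [hD]; exact Int.mul_ediv_self_le (by linarith)
  have D2 : g * A < t1 * D + t1 := by rw [hD]; exact Int.lt_mul_ediv_self_add (by linarith)
  have D3 : F0 + 1 ≤ D := by
    rw [hD, Int.le_ediv_iff_mul_le (by linarith)]; linarith
  obtain ⟨B, hBdef⟩ : ∃ B, B = (D - 1) / c := ⟨_, rfl⟩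
  have B1 : c * B ≤ D - 1 := by rw [hBdef]; exact Int.mul_ediv_self_le hc.ne'
  have B2 : D - 1 < c * B + c := by rw [hBdef]; exact Int.lt_mul_ediv_self_add hc
  have B3 : z1 ≤ B := by
    rw [hBdef, Int.le_ediv_iff_mul_le hc]
    have e : z1 * c = F0 := by rw [hF0]; ring
    linarith
  obtain ⟨r, r1, r2, r3⟩ := exists_res hz1 t0 B
  have r0 : 0 < r := by linarith
  have F1 : c * r ≤ D - 1 := (mul_le_mul_of_nonneg_left r2 hc.le).trans B1
  have F2 : D ≤ c * r + F0 := by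
    have k1 : B + 1 ≤ r + z1 := by omega
    have k2 := mul_le_mul_of_nonneg_left k1 hc.le
    have e : c * (r + z1) = c * r + F0 := by rw [hF0]; ring
    have e2 : c * (B + 1) = c * B + c := by ring
    linarith
  have k0 : t1 * (c * r) + t1 ≤ g * A := by
    have k2 : t1 * (c * r) ≤ t1 * (D - 1) := mul_le_mul_of_nonneg_left F1 (by linarith)
    linarith
  have F3 : c * r < c * (g * z1) := by
    have e : c * (g * z1) = g * F0 := by rw [hF0]; ring
    rw [e]
    have k1 : t1 * (c * r) < t1 * (g * F0) := by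
      have k3 : g * A < g * (t1 * F0) := mul_lt_mul_of_pos_left d3 (by linarith)
      have e2 : g * (t1 * F0) = t1 * (g * F0) := by ring
      linarith
    exact lt_of_mul_lt_mul_left k1 (by linarith)
  have r4 : r < g * z1 := lt_of_mul_lt_mul_left F3 hc.le
  have hvr := vg r r3 r0 r4
  refine lev hB hA ha hc hN hvr (by linarith) (i1 := 1) (t1 := t1) le_rfl (by linarith)
    hB.N1 ?_ ?_
  · rw [hg', mul_one]
    -- multiply by `t1`
    have k1 : t1 * ((A + 1) * g * J) < t1 * ((1 + J * t1) * (c * r)) := by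
      have k2 : g * A - t1 * (F0 + 1) < t1 * (c * r) := by
        have : t1 * D ≤ t1 * (c * r + F0) := mul_le_mul_of_nonneg_left F2 (by linarith)
        linarith
      have k3 : (g * A - t1 * (F0 + 1)) * (1 + J * t1) < t1 * (c * r) * (1 + J * t1) :=
        mul_lt_mul_of_pos_right k2 (by linarith)
      have e1 : (g * A - t1 * (F0 + 1)) * (1 + J * t1) =
          g * A + g * A * J * t1 - t1 * (F0 + 1) * (1 + J * t1) := by ring
      have e2 : t1 * (c * r) * (1 + J * t1) = t1 * ((1 + J * t1) * (c * r)) := by ring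
      have e3 : t1 * ((A + 1) * g * J) = g * A * J * t1 + g * J * t1 := by ring
      linarith
    exact lt_of_mul_lt_mul_left k1 (by linarith)
  · rw [hg', mul_one]
    have k2 := mul_le_mul_of_nonneg_left k0 (by linarith : (0 : ℤ) ≤ J)
    have e : A * (1 + J * g) = A + J * (g * A) := by ring
    have e2 : J * t1 * (1 + c * r) = J * (t1 * (c * r) + t1) := by ring
    rw [e, e2]
    linarith

/-- **the case of a common divisor** `z = g z1`, `x = g x1` -/
theorem amax_g (hB : Bg N J Z) {g z1 x1 : ℤ} (hA : 0 < A) (ha : 1 < a) (hc : 0 < c)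
    (hz1 : 0 < z1) (hg : 2 ≤ g) (hN : A + a + c * (g * z1) = N) (hcop : IsCoprime z1 x1)
    (hp : ¬ Prog A a c (g * z1) (g * x1)) : c * z1 ≤ (J : ℤ) ^ 18 ∧ A ≤ (J : ℤ) ^ 20 := by
  have hJ := hB.J1
  have hF0' : 0 < c * z1 := by positivity
  have hz1g : z1 < g * z1 := lt_mul_of_one_lt_left hz1 (by linarith)
  -- the vertical vector
  have v0 : Vec c (g * z1) (g * x1) 0 (c * z1) :=
    ⟨-x1, z1, hcop.symm.neg_left, hz1, hz1g, by ring, rfl⟩
  have b1 : A ≤ J * (c * z1 + 1) := by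
    by_contra h
    exact hp (room0 hB hA ha hc hN v0 (by linarith))
  obtain ⟨s, t, hst⟩ := hcop
  have vg : ∀ y : ℤ, z1 ∣ y - t → 0 < y → y < g * z1 → Vec c (g * z1) (g * x1) g (c * y) := by
    rintro y ⟨k, hk⟩ h1 h2
    have e : y * x1 + (s - k * x1) * z1 = 1 := by linear_combination hst + x1 * hk
    exact ⟨s - k * x1, y, ⟨z1, x1, by linarith⟩, h1, h2, by linear_combination (-g) * e, rfl⟩
  have hg' : |g| = g := abs_of_pos (by linarith)
  -- the highest vector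
  obtain ⟨y, y1, y2, y3⟩ := exists_res hz1 t (g * z1 - 1)
  have y5 : g * z1 - z1 ≤ y := by omega
  have y0 : 0 < y := by linarith
  have hv := vg y y3 y0 (by linarith)
  have hFg : g * (c * z1) - c * z1 ≤ c * y := by
    have := mul_le_mul_of_nonneg_left y5 hc.le
    have e : c * (g * z1 - z1) = g * (c * z1) - c * z1 := by ring
    linarith
  have hF2 : g * (c * z1) ≤ 2 * (c * y) := by
    have := mul_le_mul_of_nonneg_right hg hF0'.le
    linarith
  have b2 : c * y ≤ (A + 1) * g * J := by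
    by_contra h
    refine hp (lev hB hA ha hc hN hv (by linarith) (i1 := 1) (t1 := 0) le_rfl le_rfl hB.N1 ?_ ?_)
    · rw [hg']; simp only [mul_one, mul_zero, add_zero, one_mul]; linarith
    · simp only [mul_zero, zero_mul]; positivity
  have b3 : c * z1 ≤ 2 * J * (A + 1) := by
    have h1 : g * (c * z1) ≤ g * (2 * J * (A + 1)) := by
      have e : g * (2 * J * (A + 1)) = 2 * ((A + 1) * g * J) := by ring
      rw [e]; linarith
    exact le_of_mul_le_mul_left h1 (by linarith)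
  have b4 : c * z1 ≤ (J : ℤ) ^ 18 := by
    by_contra h18
    push Not at h18
    rcases lt_or_ge g ((J : ℤ) ^ 6) with hg6 | hg6
    · exact hp (amax_low hB hA ha hc hN hg hg6 hF0' hv hF2 b1 b2 h18)
    · exact hp (amax_high hB hA ha hc hz1 hN hg6 vg b1 b3 h18)
  refine ⟨b4, ?_⟩
  have g1 := hB.pow_gap (i := 19) (k := 20) (by norm_num)
  norm_num at g1
  have g3 : J * (c * z1 + 1) ≤ J * ((J : ℤ) ^ 18 + 1) :=
    mul_le_mul_of_nonneg_left (by linarith) (by linarith)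
  have e : (J : ℤ) * ((J : ℤ) ^ 18 + 1) = (J : ℤ) ^ 19 + J := by ring
  have g6 : (J : ℤ) ≤ (J : ℤ) ^ 19 := by
    have := pow_le_pow_right₀ hJ (show 1 ≤ 19 by norm_num)
    simpa using this
  have g7 : 0 < (J : ℤ) ^ 19 := by positivity
  linarith

/-- **MAXIMAL FIRST AREA, one shear** -/
theorem amax (hB : Bg N J Z) (hA : 0 < A) (ha : 1 < a) (hc : 0 < c) (hz : 1 < z)
    (h3 : 3 ≤ c * z) (hN : A + a + c * z = N) (hp : ¬ Prog A a c z x) :
    c * z ≤ (Int.gcd z x : ℤ) * (J : ℤ) ^ 18 ∧ A ≤ (J : ℤ) ^ 20 := by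
  set g : ℤ := (Int.gcd z x : ℤ) with hg
  have hg0 : 0 < g := by
    have : Int.gcd z x ≠ 0 := by
      intro h
      have := (Int.gcd_eq_zero_iff.1 h).1
      omega
    omega
  obtain ⟨z1, hz1⟩ : g ∣ z := Int.gcd_dvd_left ..
  obtain ⟨x1, hx1⟩ : g ∣ x := Int.gcd_dvd_right ..
  have hcop : IsCoprime z1 x1 := by
    refine ⟨Int.gcdA z x, Int.gcdB z x, ?_⟩
    have h1 : g = z * Int.gcdA z x + x * Int.gcdB z x := by rw [hg, Int.gcd_eq_gcd_ab]
    have h2 : g * (Int.gcdA z x * z1 + Int.gcdB z x * x1) = g * 1 := by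
      rw [mul_one]
      linear_combination (-(Int.gcdA z x)) * hz1 - (Int.gcdB z x) * hx1 - h1
    exact mul_left_cancel₀ hg0.ne' h2
  have hz10 : 0 < z1 := by
    have h : 0 < g * z1 := by rw [← hz1]; linarith
    exact (pos_iff_pos_of_mul_pos h).1 hg0
  rcases (show g = 1 ∨ 2 ≤ g by omega) with h1 | h1
  · rw [h1, one_mul] at hz1 hx1
    rw [h1, one_mul]
    rw [← hz1, ← hx1] at hcop
    exact amax_cop hB hA ha hc hz h3 hN hcop hp
  · rw [hz1, hx1] at hp
    rw [hz1] at hN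
    obtain ⟨k1, k2⟩ := amax_g hB hA ha hc hz10 h1 hN hcop hp
    refine ⟨?_, k2⟩
    have e : c * z = g * (c * z1) := by rw [hz1]; ring
    rw [e]
    exact mul_le_mul_of_nonneg_left k1 hg0.le

end Pool.Agent.H4G.Six
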