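import Pool.Agent.H4G.Six.Can.Half
import Pool.Agent.H4G.Six.RoomSieve

/-!
# Centres, progressions of centres, tall handles (helper91)

A state `(u, v; L, M)` with bases `l, p` of `L` and `m, p'` of `M` in the windows. The centre is the
lattice `⟨u, x⟩`, `x = v + l + m`. A vector `z = i u + j x` with `z × l > 0`, `z × m > 0` and
`z × l + z × m < u × x` gives a new state, whose contents are `gcd (z × l, z × (p - u))` and
`gcd (z × m, z × (p' - u))`: linear forms in `z`.
-/

set_option autoImplicit false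

namespace Pool.Agent.H4G.Six

open Pool.Agent.H4G

variable {N : ℤ} {J Z : ℕ}

private theorem cr_comb91 (u x l : Z2) (i j : ℤ) : cr (i • u + j • x) l = i * cr u l + j * cr x l := by
  rw [cr_add_left, cr_smul_left, cr_smul_left]

/-- a common divisor of the coefficients divides both products -/
theorem cop_of_cont {u x l q : Z2} {i j : ℤ}
    (h : IsCoprime (cr (i • u + j • x) l) (cr (i • u + j • x) q)) : IsCoprime i j := by
  refine isCoprime_of_prime fun p hp h1 h2 => ?_
  refine not_dvd_of_isCoprime h hp ?_ ?_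
  · rw [cr_comb91]
    exact dvd_add (Dvd.dvd.mul_right (by assumption) _) (Dvd.dvd.mul_right (by assumption) _)
  · rw [cr_comb91]
    exact dvd_add (Dvd.dvd.mul_right (by assumption) _) (Dvd.dvd.mul_right (by assumption) _)

/-- **CENTRE**: the state over another vector of the centre -/
theorem SEq6.centre {L M : AddSubgroup Z2} {u v z l p m p' : Z2} {i j : ℤ} (h0 : 0 < cr u v)
    (hL : lat l p = L) (h1 : 0 < cr u l) (h2 : cr u l < cr p l)
    (hM : lat m p' = M) (h3 : 0 < cr u m) (h4 : cr u m < cr p' m)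
    (hij : IsCoprime i j) (hz : z = i • u + j • (v + l + m)) (g1 : 0 < cr z l) (g2 : 0 < cr z m)
    (g3 : cr z l + cr z m < cr u (v + l + m)) :
    ∃ z' : Z2, cr z z' = cr u (v + l + m) - cr z l - cr z m ∧
      SEq6 ⟨L, M, u, v⟩ ⟨lat l (p + (z - u)), lat m (p' + (z - u)), z, z'⟩ := by
  obtain ⟨β, α, hab⟩ := hij
  -- `i β + j α = 1`
  have e1 : cr z (-α • u + β • (v + l + m)) = cr u (v + l + m) := by
    have e : ∀ x : Z2, cr (i • u + j • x) (-α • u + β • x) = (β * i + α * j) * cr u x := by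
      intro x
      simp only [cr, Prod.fst_add, Prod.snd_add, Prod.smul_fst, Prod.smul_snd, smul_eq_mul]
      ring
    rw [hz, e, hab, one_mul]
  refine ⟨-α • u + β • (v + l + m) - l - m, ?_, ?_⟩
  · rw [cr_sub_right, cr_sub_right, e1]
  · refine SEq6.pencil h0 hL h1 h2 hM h3 h4 ?_ g1 g2 ?_
    · rw [cr_sub_right, cr_sub_right, e1]; linarith
    · rw [show -α • u + β • (v + l + m) - l - m + l + m = -α • u + β • (v + l + m) by abel]
      refine (closure_pair_eq (α := i) (β := j) (γ := -α) (δ := β) hz rfl (Or.inl ?_)).symm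
      linarith

/-- **EXIT TO CONTENTS ONE** -/
theorem exit_one {L M : AddSubgroup Z2} {u v z l p m p' : Z2} {i j : ℤ} (h0 : 0 < cr u v)
    (hL : lat l p = L) (h1 : 0 < cr u l) (h2 : cr u l < cr p l)
    (hM : lat m p' = M) (h3 : 0 < cr u m) (h4 : cr u m < cr p' m)
    (hz : z = i • u + j • (v + l + m)) (g1 : 0 < cr z l) (g2 : 0 < cr z m)
    (g3 : cr z l + cr z m < cr u (v + l + m))
    (cl : IsCoprime (cr z l) (cr z (p - u))) (cm : IsCoprime (cr z m) (cr z (p' - u))) :
    ∃ c : ℤ, SEq6 ⟨L, M, u, v⟩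
      (PG (cr u (v + l + m) - cr z l - cr z m) (cr p l - cr u l + cr z l)
        (cr p' m - cr u m + cr z m) c) := by
  have hij : IsCoprime i j := cop_of_cont (u := u) (x := v + l + m) (by rw [← hz]; exact cl)
  obtain ⟨z', e1, s⟩ := SEq6.centre h0 hL h1 h2 hM h3 h4 hij hz g1 g2 g3
  have e : ∀ w : Z2, cr z (w + (z - u)) = cr z (w - u) := by
    intro w
    rw [show w + (z - u) = (w - u) + z by abel, cr_add_right, cr_self, add_zero]
  obtain ⟨c, hc⟩ := gen2 (a := cr p l - cr u l + cr z l) (a1 := cr p' m - cr u m + cr z m)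
    s.ok' rfl rfl (by rw [cr_add_left, cr_sub_left]; ring) (by rw [cr_add_left, cr_sub_left]; ring)
    (by rw [e]; exact cl) (by rw [e]; exact cm)
  rw [e1] at hc
  exact ⟨c, s.trans hc⟩

/-- the relation between the products -/
private theorem cr_four91 (u v l m : Z2) :
    cr u l * cr v m = cr u m * cr v l + cr u v * cr l m := by
  simp only [cr]; ring

/-- **PROGRESSION**: `z₀ + t g`, `t` in a window of length `J`, all centres of the pair `l, m`;
no obstruction at the primes. Then one of them has both contents 1. -/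
theorem prog_one (hB : Bg N J Z) {L M : AddSubgroup Z2} {u v l p m p' z0 g : Z2} {i0 j0 i1 j1 : ℤ}
    (h0 : 0 < cr u v) (hL : lat l p = L) (h1 : 0 < cr u l) (h2 : cr u l < cr p l)
    (hM : lat m p' = M) (h3 : 0 < cr u m) (h4 : cr u m < cr p' m)
    (hN : cr u v + cr p l + cr p' m = N)
    (e0 : z0 = i0 • u + j0 • (v + l + m)) (e1 : g = i1 • u + j1 • (v + l + m))
    (hdet : i0 * j1 - i1 * j0 ≠ 0) (hdet' : |i0 * j1 - i1 * j0| ≤ 2 * N)
    (T0 : ℤ) (hc : ∀ t : ℤ, T0 ≤ t → t < T0 + J → 0 < cr (z0 + t • g) l ∧ 0 < cr (z0 + t • g) m ∧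
      cr (z0 + t • g) l + cr (z0 + t • g) m < cr u (v + l + m))
    (hloc : ∀ p0 : ℕ, p0.Prime →
      (2 < p0 ∧ ¬ ((p0 : ℤ) ∣ cr g l ∧ (p0 : ℤ) ∣ cr g (p - u) ∧ (p0 : ℤ) ∣ cr z0 l ∧
          (p0 : ℤ) ∣ cr z0 (p - u)) ∧
        ¬ ((p0 : ℤ) ∣ cr g m ∧ (p0 : ℤ) ∣ cr g (p' - u) ∧ (p0 : ℤ) ∣ cr z0 m ∧
          (p0 : ℤ) ∣ cr z0 (p' - u))) ∨
      ∃ t : ℤ, ¬ ((p0 : ℤ) ∣ cr (z0 + t • g) l ∧ (p0 : ℤ) ∣ cr (z0 + t • g) (p - u)) ∧
        ¬ ((p0 : ℤ) ∣ cr (z0 + t • g) m ∧ (p0 : ℤ) ∣ cr (z0 + t • g) (p' - u))) :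
    ∃ t : ℤ, T0 ≤ t ∧ t < T0 + J ∧ ∃ c : ℤ, SEq6 ⟨L, M, u, v⟩
      (PG (cr u (v + l + m) - cr (z0 + t • g) l - cr (z0 + t • g) m)
        (cr p l - cr u l + cr (z0 + t • g) l) (cr p' m - cr u m + cr (z0 + t • g) m) c) := by
  have hf : ∀ (t : ℤ) (w : Z2), cr (z0 + t • g) w = cr g w * t + cr z0 w := by
    intro t w; rw [cr_add_left, cr_smul_left]; ring
  have hq : ∀ w q : Z2, cr g w * cr z0 q - cr z0 w * cr g q = cr z0 g * cr q w := by
    intro w q; simp only [cr]; ring
  have hzg : cr z0 g = (i0 * j1 - i1 * j0) * cr u (v + l + m) := by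
    have e : ∀ x : Z2, cr (i0 • u + j0 • x) (i1 • u + j1 • x) =
        (i0 * j1 - i1 * j0) * cr u x := by
      intro x
      simp only [cr, Prod.fst_add, Prod.snd_add, Prod.smul_fst, Prod.smul_snd, smul_eq_mul]
      ring
    rw [e0, e1, e]
  have hWe : cr u (v + l + m) = cr u v + cr u l + cr u m := by rw [cr_add_right, cr_add_right]
  have hW : 0 < cr u (v + l + m) := by rw [hWe]; linarith
  have hWN : cr u (v + l + m) ≤ 2 * N := by rw [hWe]; linarith
  have hN1 := hB.N1
  have hzg0 : cr z0 g ≠ 0 := by rw [hzg]; exact mul_ne_zero hdet hW.ne'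
  have hzgN : |cr z0 g| ≤ (2 * N) ^ 2 := by
    rw [hzg, abs_mul, abs_of_pos hW, sq]
    exact mul_le_mul hdet' hWN hW.le (by linarith)
  -- the two resultants
  have k1 : ∀ w q : Z2, cr u w < cr q w → cr q w ≤ 2 * N → 0 < cr u w →
      cr z0 g * cr (q - u) w ≠ 0 ∧ |cr z0 g * cr (q - u) w| ≤ (2 * N) ^ 3 := by
    intro w q a1 a2 a3
    have b1 : 0 < cr (q - u) w := by rw [cr_sub_left]; linarith
    refine ⟨mul_ne_zero hzg0 b1.ne', ?_⟩
    rw [abs_mul, abs_of_pos b1, show (2 * N) ^ 3 = (2 * N) ^ 2 * (2 * N) by ring]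
    exact mul_le_mul hzgN (by rw [cr_sub_left]; linarith) b1.le (by positivity)
  obtain ⟨r1, r2⟩ := k1 l p h2 (by linarith) h1
  obtain ⟨r3, r4⟩ := k1 m p' h4 (by linarith) h3
  obtain ⟨D0, d1, d2, d3⟩ := exists_D0 (k := 2)
    ![cr z0 g * cr (p - u) l, cr z0 g * cr (p' - u) m]
    (by intro i; fin_cases i; exacts [r1, r3]) (B := (2 * N) ^ 3)
    (by intro i; fin_cases i; exacts [r2, r4])
  obtain ⟨t, t1, t2, t3⟩ := sievePair (k := 2) (e := 1) hB.cap d1
    (hB.le (n := 6) (by norm_num) (d2.trans (by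
      rw [show ((2 * N) ^ 3) ^ 2 = (2 * N) ^ 6 by ring])))
    (by norm_num) ![cr g l, cr g m] ![cr z0 l, cr z0 m] ![cr g (p - u), cr g (p' - u)]
    ![cr z0 (p - u), cr z0 (p' - u)]
    (by
      intro i
      have h5 := d3 i
      fin_cases i
      · simpa [hq] using h5
      · simpa [hq] using h5)
    (by
      intro p0 hp0 _
      rcases hloc p0 hp0 with ⟨c1, c2, c3⟩ | ⟨t, c1, c2⟩
      · left
        refine ⟨c1, fun i => ?_⟩
        fin_cases i
        · intro a1 a2 a3 a4; exact c2 ⟨a1, a2, a3, a4⟩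
        · intro a1 a2 a3 a4; exact c3 ⟨a1, a2, a3, a4⟩
      · right
        refine ⟨t, fun i => ?_⟩
        fin_cases i
        · intro a1 a2
          exact c1 ⟨by rw [hf]; exact a1, by rw [hf]; exact a2⟩
        · intro a1 a2
          exact c2 ⟨by rw [hf]; exact a1, by rw [hf]; exact a2⟩) T0
  rw [pow_one] at t2
  refine ⟨t, t1, t2, ?_⟩
  obtain ⟨g1, g2, g3⟩ := hc t t1 t2
  refine exit_one h0 hL h1 h2 hM h3 h4 (i := i0 + t * i1) (j := j0 + t * j1) ?_ g1 g2 g3 ?_ ?_
  · rw [e0, e1]; module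
  · have := t3 0
    rw [hf, hf]
    simpa using this
  · have := t3 1
    rw [hf, hf]
    simpa using this

/-- **(P2) A PROGRESSION THROUGH `u`**: the vectors `u + t g`, `g = i₁ u + j₁ x`, `0 ≤ t ≤ K`, are
centres if `g` points to the right side of `l` and `F₁ F₂` is large against `l × m`. -/
theorem tall_centres {u v l m g : Z2} {i1 j1 t K : ℤ} (h0 : 0 < cr u v) (h1 : 0 < cr u l)
    (h3 : 0 < cr u m) (hg : g = i1 • u + j1 • (v + l + m)) (ht : 0 ≤ t) (htK : t ≤ K)
    (hs : j1 * cr l m ≤ 0) (hd : i1 * cr u l + j1 * cr v l ≤ 0)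
    (hK : 2 * K * (-(i1 * cr u l + j1 * cr v l)) ≤ cr u l)
    (hF : 2 * K * (-(j1 * cr l m)) * (cr u v + cr u l) < cr u l * cr u m) :
    0 < cr (u + t • g) l ∧ 0 < cr (u + t • g) m ∧
      cr (u + t • g) l + cr (u + t • g) m < cr u (v + l + m) := by
  have r1 := cr_four91 u v l m
  have el : cr (u + t • g) l = cr u l + t * (i1 * cr u l + j1 * cr v l) - t * (j1 * cr l m) := by
    rw [hg, cr_add_left, cr_smul_left, cr_comb91]
    have : cr (v + l + m) l = cr v l - cr l m := by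
      rw [cr_add_left, cr_add_left, cr_self]; simp only [cr]; ring
    rw [this]; ring
  have em : cr (u + t • g) m = cr u m + t * (i1 * cr u m + j1 * cr v m) + t * (j1 * cr l m) := by
    rw [hg, cr_add_left, cr_smul_left, cr_comb91]
    have : cr (v + l + m) m = cr v m + cr l m := by
      rw [cr_add_left, cr_add_left, cr_self]; ring
    rw [this]; ring
  have hWe : cr u (v + l + m) = cr u v + cr u l + cr u m := by rw [cr_add_right, cr_add_right]
  set F1 := cr u l with hF1
  set F2 := cr u m with hF2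
  set A := cr u v with hA
  set r := cr l m with hr
  set y := cr v l with hy
  set w := cr v m with hw
  set δ := i1 * F1 + j1 * y with hδ
  -- `F₁ (i₁ F₂ + j₁ w) = F₂ δ + j₁ A r`
  have r2 : F1 * (i1 * F2 + j1 * w) = F2 * δ + A * (j1 * r) := by
    rw [hδ]; linear_combination j1 * r1
  have q1 : 0 ≤ t * (-(j1 * r)) := mul_nonneg ht (by linarith)
  have q2 : 0 ≤ t * (-δ) := mul_nonneg ht (by linarith)
  have q3 : 2 * (t * (-δ)) ≤ F1 := by
    have : t * (-δ) ≤ K * (-δ) := mul_le_mul_of_nonneg_right htK (by linarith)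
    linarith
  have q4 : 2 * (t * (-(j1 * r)) * (A + F1)) < F1 * F2 := by
    have : t * (-(j1 * r)) * (A + F1) ≤ K * (-(j1 * r)) * (A + F1) :=
      mul_le_mul_of_nonneg_right (mul_le_mul_of_nonneg_right htK (by linarith)) (by linarith)
    linarith
  refine ⟨by rw [el]; linarith, ?_, ?_⟩
  · rw [em]
    have : 0 < F1 * (F2 + t * (i1 * F2 + j1 * w) + t * (j1 * r)) := by
      have e : F1 * (F2 + t * (i1 * F2 + j1 * w) + t * (j1 * r)) =
          F1 * F2 - F2 * (t * (-δ)) - t * (-(j1 * r)) * (A + F1) := by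
        linear_combination t * r2
      rw [e]
      have q5 : F2 * (2 * (t * (-δ))) ≤ F2 * F1 := mul_le_mul_of_nonneg_left q3 h3.le
      linarith
    exact (mul_pos_iff_of_pos_left h1).1 this
  · rw [el, em, hWe]
    have : F1 * (t * (i1 * F2 + j1 * w) + t * δ) < F1 * A := by
      have e : F1 * (t * (i1 * F2 + j1 * w) + t * δ) =
          -(F1 + F2) * (t * (-δ)) - A * (t * (-(j1 * r))) := by
        linear_combination t * r2
      rw [e]
      have := mul_nonneg (by linarith : (0 : ℤ) ≤ F1 + F2) q2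
      have := mul_nonneg h0.le q1
      have := mul_pos h1 h0
      linarith
    have := lt_of_mul_lt_mul_left this h1.le
    linarith

/-- **(P2') MIRROR** -/
theorem tall_centres' {u v l m g : Z2} {i1 j1 t K : ℤ} (h0 : 0 < cr u v) (h1 : 0 < cr u l)
    (h3 : 0 < cr u m) (hg : g = i1 • u + j1 • (v + l + m)) (ht : 0 ≤ t) (htK : t ≤ K)
    (hs : 0 ≤ j1 * cr l m) (hd : i1 * cr u m + j1 * cr v m ≤ 0)
    (hK : 2 * K * (-(i1 * cr u m + j1 * cr v m)) ≤ cr u m)
    (hF : 2 * K * (j1 * cr l m) * (cr u v + cr u m) < cr u l * cr u m) :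
    0 < cr (u + t • g) l ∧ 0 < cr (u + t • g) m ∧
      cr (u + t • g) l + cr (u + t • g) m < cr u (v + l + m) := by
  have e : cr m l = -cr l m := by simp only [cr]; ring
  obtain ⟨a1, a2, a3⟩ := tall_centres (l := m) (m := l) (i1 := i1) (j1 := j1) (t := t) (K := K)
    (g := g) h0 h3 h1 (by rw [hg, add_right_comm]) ht htK (by rw [e]; linarith) hd hK
    (by
      rw [e, mul_comm (cr u m) (cr u l)]
      have e2 : 2 * K * (-(j1 * -cr l m)) = 2 * K * (j1 * cr l m) := by ring
      rw [e2]; exact hF)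
  rw [add_right_comm v m l] at a3
  exact ⟨a2, a1, by linarith⟩

/-- the products along the line `u + t g`, `g = i₁ u + j₁ x` -/
theorem line_products {u v l m g : Z2} {i1 j1 : ℤ} (hg : g = i1 • u + j1 • (v + l + m)) (t : ℤ) :
    cr (u + t • g) l = cr u l + t * cr g l ∧ cr (u + t • g) m = cr u m + t * cr g m ∧
    cr g l = (i1 * cr u l + j1 * cr v l) - j1 * cr l m ∧
    cr g m = (i1 * cr u m + j1 * cr v m) + j1 * cr l m ∧
    cr u l * (i1 * cr u m + j1 * cr v m) = cr u m * (i1 * cr u l + j1 * cr v l) +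
      cr u v * (j1 * cr l m) ∧
    cr u l * cr g m = cr u m * (i1 * cr u l + j1 * cr v l) + j1 * cr l m * (cr u v + cr u l) ∧
    cr u m * cr g l = cr u l * (i1 * cr u m + j1 * cr v m) - j1 * cr l m * (cr u v + cr u m) ∧
    cr u l * cr g m - cr u m * cr g l = j1 * cr l m * cr u (v + l + m) := by
  have r1 := cr_four91 u v l m
  have hWe : cr u (v + l + m) = cr u v + cr u l + cr u m := by rw [cr_add_right, cr_add_right]
  have el : cr g l = (i1 * cr u l + j1 * cr v l) - j1 * cr l m := by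
    rw [hg, cr_comb91]
    have : cr (v + l + m) l = cr v l - cr l m := by
      rw [cr_add_left, cr_add_left, cr_self]; simp only [cr]; ring
    rw [this]; ring
  have em : cr g m = (i1 * cr u m + j1 * cr v m) + j1 * cr l m := by
    rw [hg, cr_comb91]
    have : cr (v + l + m) m = cr v m + cr l m := by
      rw [cr_add_left, cr_add_left, cr_self]; ring
    rw [this]; ring
  refine ⟨by rw [cr_add_left, cr_smul_left], by rw [cr_add_left, cr_smul_left], el, em, ?_, ?_,
    ?_, ?_⟩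
  · linear_combination j1 * r1
  · rw [em]; linear_combination j1 * r1
  · rw [el]; linear_combination (-j1) * r1
  · rw [el, em, hWe]; linear_combination j1 * r1

end Pool.Agent.H4G.Six
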