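import Pool.Agent.H4G.Six.D2.Rows
import Pool.Agent.H4G.Six.D2.Tall

/-!
# Progressions of centres through `u` (interface of the escape step; helper41)

`APc O N u v l q m s g K`: a tree over `u`, a vector `g` with `⟨u, g⟩ = ⟨u, v + l + m⟩`, all
`u + t g`, `0 ≤ t ≤ K`, are centres, and the products `g × l`, `g × m` are not proportional to the
areas.
-/

set_option autoImplicit false

namespace Pool.Agent.H4G.Six

open Pool.Agent.H4G

variable {X : Type} {O : PO X} {N K : ℤ} {u v l q m s g : Z2}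

/-- a progression of centres through `u` -/
structure APc (O : PO X) (N : ℤ) (u v l q m s g : Z2) (K : ℤ) : Prop where
  tree : Has6 O (u, v, l, q, m, s)
  vol : vol6 (u, v, l, q, m, s) = N
  gx : ∃ i1 j1 : ℤ, (j1 = 1 ∨ j1 = -1) ∧ g = i1 • u + j1 • (v + l + m)
  cen : ∀ t : ℤ, 0 ≤ t → t ≤ K → Lg u v l m (u + t • g)
  ne : (cr u m + cr s m) * cr g l ≠ (cr u l + cr q l) * cr g m

/-- (P2) `g` on the side of `l`, `r = |l × m| > 0` or `δ < 0` -/
theorem APc.of_tall {i1 j1 : ℤ} (hT : Has6 O (u, v, l, q, m, s))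
    (hN : vol6 (u, v, l, q, m, s) = N) (hj : j1 = 1 ∨ j1 = -1)
    (hg : g = i1 • u + j1 • (v + l + m))
    (hs : j1 * cr l m ≤ 0) (hd : i1 * cr u l + j1 * cr v l ≤ 0)
    (hK : 2 * K * (-(i1 * cr u l + j1 * cr v l)) ≤ cr u l)
    (hF : 2 * K * (-(j1 * cr l m)) * (cr u v + cr u l) < cr u l * cr u m)
    (hne : (j1 * cr l m < 0 ∧ cr u l * (cr u m + cr s m) ≤ cr u m * (cr u l + cr q l)) ∨
      (cr l m = 0 ∧ i1 * cr u l + j1 * cr v l ≠ 0 ∧
        cr u l * (cr u m + cr s m) ≠ cr u m * (cr u l + cr q l))) :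
    APc O N u v l q m s g K := by
  obtain ⟨p1, p2, p3, p4, p5⟩ := hT.pos
  have hWe : cr u (v + l + m) = cr u v + cr u l + cr u m := by rw [cr_add_right, cr_add_right]
  refine ⟨hT, hN, ⟨i1, j1, hj, hg⟩, fun t t0 t1 => ?_, ?_⟩
  · obtain ⟨h1, h2, h3⟩ := tall_centres p1 p2 p3 hg t0 t1 hs hd hK hF
    exact ⟨h1, h2, by rw [hWe] at h3; exact h3⟩
  · obtain ⟨-, -, e1, -, -, e2, -⟩ := line_products hg 0
    intro he
    obtain ⟨δ, hδ⟩ : ∃ δ, δ = i1 * cr u l + j1 * cr v l := ⟨_, rfl⟩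
    rw [← hδ] at e1 e2 hd hne
    have key : δ * (cr u l * (cr u m + cr s m) - cr u m * (cr u l + cr q l)) +
        (-(j1 * cr l m)) * (cr u l * (cr u m + cr s m) +
          (cr u l + cr q l) * (cr u v + cr u l)) = 0 := by
      linear_combination cr u l * he - (cr u l * (cr u m + cr s m)) * e1 +
        (cr u l + cr q l) * e2
    rcases hne with ⟨h1, h2⟩ | ⟨h1, h2, h3⟩
    · have k1 : 0 ≤ δ * (cr u l * (cr u m + cr s m) - cr u m * (cr u l + cr q l)) :=
        mul_nonneg_of_nonpos_of_nonpos hd (by linarith)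
      have k2 : 0 < (-(j1 * cr l m)) * (cr u l * (cr u m + cr s m) +
          (cr u l + cr q l) * (cr u v + cr u l)) := by
        have : 0 < -(j1 * cr l m) := by linarith
        positivity
      linarith
    · rw [h1, mul_zero, neg_zero, zero_mul, add_zero] at key
      rcases mul_eq_zero.1 key with h4 | h4
      · exact h2 h4
      · exact h3 (by linarith)

/-- (P2') the mirror -/
theorem APc.of_tall' {i1 j1 : ℤ} (hT : Has6 O (u, v, l, q, m, s))
    (hN : vol6 (u, v, l, q, m, s) = N) (hj : j1 = 1 ∨ j1 = -1)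
    (hg : g = i1 • u + j1 • (v + l + m))
    (hs : 0 ≤ j1 * cr l m) (hd : i1 * cr u m + j1 * cr v m ≤ 0)
    (hK : 2 * K * (-(i1 * cr u m + j1 * cr v m)) ≤ cr u m)
    (hF : 2 * K * (j1 * cr l m) * (cr u v + cr u m) < cr u l * cr u m)
    (hne : (0 < j1 * cr l m ∧ cr u m * (cr u l + cr q l) ≤ cr u l * (cr u m + cr s m)) ∨
      (cr l m = 0 ∧ i1 * cr u m + j1 * cr v m ≠ 0 ∧
        cr u l * (cr u m + cr s m) ≠ cr u m * (cr u l + cr q l))) :
    APc O N u v l q m s g K := by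
  obtain ⟨p1, p2, p3, p4, p5⟩ := hT.pos
  have hWe : cr u (v + l + m) = cr u v + cr u l + cr u m := by rw [cr_add_right, cr_add_right]
  refine ⟨hT, hN, ⟨i1, j1, hj, hg⟩, fun t t0 t1 => ?_, ?_⟩
  · obtain ⟨h1, h2, h3⟩ := tall_centres' p1 p2 p3 hg t0 t1 hs hd hK hF
    exact ⟨h1, h2, by rw [hWe] at h3; exact h3⟩
  · obtain ⟨-, -, -, e1, -, -, e2, -⟩ := line_products hg 0
    intro he
    obtain ⟨δ, hδ⟩ : ∃ δ, δ = i1 * cr u m + j1 * cr v m := ⟨_, rfl⟩
    rw [← hδ] at e1 e2 hd hne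
    have key : δ * (cr u m * (cr u l + cr q l) - cr u l * (cr u m + cr s m)) +
        (j1 * cr l m) * (cr u m * (cr u l + cr q l) +
          (cr u m + cr s m) * (cr u v + cr u m)) = 0 := by
      linear_combination (-cr u m) * he - (cr u m * (cr u l + cr q l)) * e1 +
        (cr u m + cr s m) * e2
    rcases hne with ⟨h1, h2⟩ | ⟨h1, h2, h3⟩
    · have k1 : 0 ≤ δ * (cr u m * (cr u l + cr q l) - cr u l * (cr u m + cr s m)) :=
        mul_nonneg_of_nonpos_of_nonpos hd (by linarith)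
      have k2 : 0 < (j1 * cr l m) * (cr u m * (cr u l + cr q l) +
          (cr u m + cr s m) * (cr u v + cr u m)) := by positivity
      linarith
    · rw [h1, mul_zero, zero_mul, add_zero] at key
      rcases mul_eq_zero.1 key with h4 | h4
      · exact h2 h4
      · exact h3 (by linarith)

end Pool.Agent.H4G.Six
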