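import Pool.Agent.H4G.Six.RoomSieve

/-!
# A progression of coprime pairs with a small common divisor (helper66)

Along `(1 + t i, t j)` we find `t` in a window of length `4 J` with `1 + t i` prime to `j` such that
every common divisor of `X₀ + t dX`, `Y₀ + t dY` divides `2 X₀`, `2 Y₀`, `2 dX`, `2 dY`.
-/

set_option autoImplicit false

namespace Pool.Agent.H4G.Six

open Pool.Agent.H4G

theorem ap_gcd4_red {J X : ℕ} (hcap : Cap J X) {x y z w i j : ℤ}
    (hred : ∀ p : ℕ, p.Prime → (p : ℤ) ∣ x → (p : ℤ) ∣ y → (p : ℤ) ∣ z → ¬ (p : ℤ) ∣ w)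
    (hD : x * w - y * z ≠ 0) (hj : j ≠ 0) (hij : IsCoprime i j)
    (hX : |j| * |x * w - y * z| ≤ X) (t0 : ℤ) :
    ∃ t, t0 ≤ t ∧ t < t0 + 4 * J ∧ IsCoprime (1 + t * i) j ∧
      ∀ d : ℤ, d ∣ x + t * z → d ∣ y + t * w → d ∣ 2 := by
  classical
  -- the class modulo four
  obtain ⟨r, hr2, hr4⟩ : ∃ r : ℤ, 2 ∣ r ∧ ¬ (4 ∣ x + r * z ∧ 4 ∣ y + r * w) := by
    by_cases h0 : (4 : ℤ) ∣ x ∧ (4 : ℤ) ∣ y
    · refine ⟨2, dvd_refl 2, fun h => ?_⟩
      obtain ⟨a1, a2⟩ := h0
      obtain ⟨b1, b2⟩ := h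
      have c1 : (2 : ℤ) ∣ x := by omega
      have c2 : (2 : ℤ) ∣ y := by omega
      have c3 : (2 : ℤ) ∣ z := by omega
      have c4 : (2 : ℤ) ∣ w := by omega
      exact hred 2 Nat.prime_two (by exact_mod_cast c1) (by exact_mod_cast c2)
        (by exact_mod_cast c3) (by exact_mod_cast c4)
    · exact ⟨0, dvd_zero 2, by simpa using h0⟩
  have hD1 : 0 < |j| * |x * w - y * z| := mul_pos (abs_pos.2 hj) (abs_pos.2 hD)
  have two_of : ∀ p : ℕ, p.Prime → (p : ℤ) ∣ 4 → p = 2 := by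
    intro p hp h
    have h1 : p ∣ 4 := by exact_mod_cast h
    have h2 : p ∣ 2 ^ 2 := by simpa using h1
    exact (Nat.prime_dvd_prime_iff_eq hp Nat.prime_two).1 (hp.dvd_of_dvd_pow h2)
  have hcst : ∀ p : ℕ, p.Prime → (p : ℤ) ∣ z → (p : ℤ) ∣ w → (p : ℤ) ∣ x → ¬ (p : ℤ) ∣ y := by
    intro p hp h1 h2 h3 h4
    exact hred p hp h3 h4 h1 h2
  obtain ⟨t, t1, t2, t3, t4⟩ := sieveCls (k := 2) (e := 1) hcap
    (D := (|j| * |x * w - y * z|).natAbs) (by omega) (by omega) (by norm_num)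
    (fun p n => if n = 0 then (if (p : ℤ) ∣ j then i else 0)
      else (if (p : ℤ) ∣ 4 then 0 else prA p z x w y))
    (fun p n => if n = 0 then 1 else (if (p : ℤ) ∣ 4 then 1 else prB p z x w y))
    (m := 4) (by norm_num) r
    (fun p hp _ hp4 => Or.inl ⟨by
        have h2 : p ≠ 2 := by
          rintro rfl
          exact hp4 ⟨2, by norm_num⟩
        have := hp.two_le
        omega, fun n => by
        by_cases hn : n = 0
        · simp only [hn, if_true]
          intro _; exact prime_not_dvd_one hp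
        · simp only [hn, if_false, hp4]
          exact pr_dvd hp⟩)
    (fun p hp _ hp4 n => by
      have h2 := two_of p hp hp4
      subst h2
      by_cases hn : n = 0
      · simp only [hn, if_true]
        by_cases hpj : ((2 : ℕ) : ℤ) ∣ j
        · simp only [hpj, if_true]
          push_cast
          intro h
          have : (2 : ℤ) ∣ i * r := hr2.mul_left i
          omega
        · simp only [hpj, if_false]
          push_cast
          omega
      · simp only [hn, if_false]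
        have h4 : ((2 : ℕ) : ℤ) ∣ 4 := ⟨2, by norm_num⟩
        simp only [h4, if_true]
        push_cast
        omega) t0
  rw [pow_one] at t2
  have hDp : ∀ p : ℕ, (p : ℤ) ∣ j ∨ (p : ℤ) ∣ x * w - y * z →
      p ∣ (|j| * |x * w - y * z|).natAbs := by
    intro p h
    rw [← Int.natCast_dvd]
    rcases h with h | h
    · exact ((dvd_abs _ _).2 h).mul_right _
    · exact ((dvd_abs _ _).2 h).mul_left _
  refine ⟨t, t1, t2, ?_, ?_⟩
  · refine isCoprime_of_prime fun p hp h2 h1 => ?_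
    have h3 := t4 p hp (hDp p (Or.inl h2)) 0
    simp only [h2, if_true] at h3
    exact h3 (by rw [mul_comm]; rw [add_comm]; exact h1)
  · -- the common divisor
    have hg : ∀ p : ℕ, p.Prime → (p : ℤ) ∣ x + t * z → (p : ℤ) ∣ y + t * w → p = 2 := by
      intro p hp h1 h2
      by_contra hne
      have hp4 : ¬ (p : ℤ) ∣ 4 := fun h => hne (two_of p hp h)
      have h1' : (p : ℤ) ∣ z * t + x := by rw [mul_comm, add_comm]; exact h1
      have h2' : (p : ℤ) ∣ w * t + y := by rw [mul_comm, add_comm]; exact h2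
      have hres := pr_res h1' h2'
      have h3 := t4 p hp (hDp p (Or.inr (by
        have e : x * w - y * z = -(z * y - x * w) := by ring
        rw [e]; exact (dvd_neg).2 hres))) 1
      simp only [hp4, if_false, one_ne_zero] at h3
      exact h3 ((pr_iff hp (hcst p hp)).2 ⟨h1', h2'⟩)
    have hg4 : ¬ ((4 : ℤ) ∣ x + t * z ∧ (4 : ℤ) ∣ y + t * w) := by
      rintro ⟨h1, h2⟩
      apply hr4
      obtain ⟨k, hk⟩ := t3
      constructor
      · have e : x + r * z = (x + t * z) - 4 * (k * z) := by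
          rw [show t = r + 4 * k by linarith]; ring
        rw [e]; exact dvd_sub h1 (dvd_mul_right _ _)
      · have e : y + r * w = (y + t * w) - 4 * (k * w) := by
          rw [show t = r + 4 * k by linarith]; ring
        rw [e]; exact dvd_sub h2 (dvd_mul_right _ _)
    obtain ⟨g, hgd⟩ : ∃ g : ℕ, g = Int.gcd (x + t * z) (y + t * w) := ⟨_, rfl⟩
    have g1 : (g : ℤ) ∣ x + t * z := by rw [hgd]; exact Int.gcd_dvd_left _ _
    have g2 : (g : ℤ) ∣ y + t * w := by rw [hgd]; exact Int.gcd_dvd_right _ _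
    have g0 : g ≠ 0 := by
      rintro h0
      rw [h0] at g1 g2
      have e1 : x + t * z = 0 := by simpa using g1
      have e2 : y + t * w = 0 := by simpa using g2
      apply hD
      have : x * w - y * z = (x + t * z) * w - (y + t * w) * z := by ring
      rw [this, e1, e2]; ring
    have hpow := Nat.eq_prime_pow_of_unique_prime_dvd (n := g) (p := 2) g0
      (fun {d} hd hdg => hg d hd ((Int.natCast_dvd_natCast.2 hdg).trans g1)
        ((Int.natCast_dvd_natCast.2 hdg).trans g2))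
    have hgle : g ∣ 2 := by
      rcases Nat.lt_or_ge g.primeFactorsList.length 2 with h | h
      · rw [hpow]
        calc 2 ^ g.primeFactorsList.length ∣ 2 ^ 1 := pow_dvd_pow 2 (by omega)
          _ = 2 := by norm_num
      · exfalso
        have h4 : 4 ∣ g := by
          rw [hpow]
          calc 4 = 2 ^ 2 := by norm_num
            _ ∣ 2 ^ g.primeFactorsList.length := pow_dvd_pow 2 h
        have h4' : (4 : ℤ) ∣ (g : ℤ) := by exact_mod_cast h4
        exact hg4 ⟨h4'.trans g1, h4'.trans g2⟩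
    intro d h1 h2
    have h3 : d ∣ (g : ℤ) := by rw [hgd]; exact Int.dvd_coe_gcd h1 h2
    exact h3.trans (by exact_mod_cast hgle)

/-- A PROGRESSION OF COPRIME PAIRS with a small common divisor. -/
theorem ap_gcd4 {J X : ℕ} (hcap : Cap J X) {X0 Y0 dX dY i j : ℤ}
    (hD : X0 * dY - Y0 * dX ≠ 0) (hj : j ≠ 0) (hij : IsCoprime i j)
    (hX : |j| * |X0 * dY - Y0 * dX| ≤ X) (t0 : ℤ) :
    ∃ t, t0 ≤ t ∧ t < t0 + 4 * J ∧ IsCoprime (1 + t * i) j ∧
      ∀ d : ℤ, d ∣ X0 + t * dX → d ∣ Y0 + t * dY →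
        d ∣ 2 * X0 ∧ d ∣ 2 * Y0 ∧ d ∣ 2 * dX ∧ d ∣ 2 * dY := by
  obtain ⟨g, hg⟩ : ∃ g : ℤ, g = Int.gcd (Int.gcd X0 Y0 : ℤ) (Int.gcd dX dY : ℤ) := ⟨_, rfl⟩
  have g1 : g ∣ (Int.gcd X0 Y0 : ℤ) := by rw [hg]; exact Int.gcd_dvd_left _ _
  have g2 : g ∣ (Int.gcd dX dY : ℤ) := by rw [hg]; exact Int.gcd_dvd_right _ _
  obtain ⟨x, hx⟩ : g ∣ X0 := g1.trans (Int.gcd_dvd_left _ _)
  obtain ⟨y, hy⟩ : g ∣ Y0 := g1.trans (Int.gcd_dvd_right _ _)
  obtain ⟨z, hz⟩ : g ∣ dX := g2.trans (Int.gcd_dvd_left _ _)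
  obtain ⟨w, hw⟩ : g ∣ dY := g2.trans (Int.gcd_dvd_right _ _)
  have g0 : g ≠ 0 := by
    rintro h0
    apply hD
    rw [hx, hy, h0]
    ring
  have gpos : 0 < g := by
    have : 0 ≤ g := by rw [hg]; exact Int.natCast_nonneg _
    exact lt_of_le_of_ne this (Ne.symm g0)
  have gmax : ∀ d : ℤ, d ∣ X0 → d ∣ Y0 → d ∣ dX → d ∣ dY → d ∣ g := by
    intro d h1 h2 h3 h4
    rw [hg]
    exact Int.dvd_coe_gcd (Int.dvd_coe_gcd h1 h2) (Int.dvd_coe_gcd h3 h4)
  have eD : X0 * dY - Y0 * dX = g ^ 2 * (x * w - y * z) := by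
    rw [hx, hy, hz, hw]; ring
  have hD' : x * w - y * z ≠ 0 := by
    intro h0
    apply hD
    rw [eD, h0, mul_zero]
  have hle : |j| * |x * w - y * z| ≤ X := by
    have h1 : |X0 * dY - Y0 * dX| = g ^ 2 * |x * w - y * z| := by
      rw [eD, abs_mul, abs_of_pos (pow_pos gpos 2)]
    have h2 : 1 * |x * w - y * z| ≤ g ^ 2 * |x * w - y * z| := by
      refine mul_le_mul_of_nonneg_right ?_ (abs_nonneg _)
      exact one_le_pow₀ gpos
    have h3 : |j| * |x * w - y * z| ≤ |j| * |X0 * dY - Y0 * dX| :=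
      mul_le_mul_of_nonneg_left (by linarith) (abs_nonneg _)
    exact h3.trans hX
  obtain ⟨t, t1, t2, t3, t4⟩ := ap_gcd4_red hcap (fun p hp h1 h2 h3 h4 => by
      have h5 : g * p ∣ g := gmax _ (by rw [hx]; exact mul_dvd_mul_left g h1)
        (by rw [hy]; exact mul_dvd_mul_left g h2) (by rw [hz]; exact mul_dvd_mul_left g h3)
        (by rw [hw]; exact mul_dvd_mul_left g h4)
      have h6 : (p : ℤ) ∣ 1 := by
        have : g * p ∣ g * 1 := by rwa [mul_one]
        exact (mul_dvd_mul_iff_left g0).1 this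
      exact prime_not_dvd_one hp h6) hD' hj hij hle t0
  refine ⟨t, t1, t2, t3, fun d h1 h2 => ?_⟩
  have h3 : d ∣ 2 * g := by
    obtain ⟨i', j', hij'⟩ : ∃ i' j' : ℤ,
        i' * (x + t * z) + j' * (y + t * w) = Int.gcd (x + t * z) (y + t * w) := by
      refine ⟨Int.gcdA (x + t * z) (y + t * w), Int.gcdB (x + t * z) (y + t * w), ?_⟩
      rw [Int.gcd_eq_gcd_ab]; ring
    have h4 : (Int.gcd (x + t * z) (y + t * w) : ℤ) ∣ 2 :=
      t4 _ (Int.gcd_dvd_left _ _) (Int.gcd_dvd_right _ _)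
    obtain ⟨c, hc⟩ := h4
    have e3 : 2 * g = c * (i' * (X0 + t * dX) + j' * (Y0 + t * dY)) := by
      rw [hx, hy, hz, hw, hc, ← hij']
      ring
    rw [e3]
    exact (dvd_add (h1.mul_left _) (h2.mul_left _)).mul_left _
  have key : ∀ c : ℤ, g ∣ c → d ∣ 2 * c := fun c hc =>
    h3.trans (mul_dvd_mul_left 2 hc)
  exact ⟨key _ ⟨x, hx⟩, key _ ⟨y, hy⟩, key _ ⟨z, hz⟩, key _ ⟨w, hw⟩⟩

end Pool.Agent.H4G.Six
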