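import Pool.Agent.H4G.Six.Can.Sv

/-!
# Two sieves for the universal family (case (C) of D2): the numbers `e` and `α` (helper81)
-/

set_option autoImplicit false

namespace Pool.Agent.H4G.Six

open Pool.Agent.H4G

variable {N : ℤ} {J Z : ℕ}

private theorem loc2 {p : ℕ} (hp : p.Prime) (h2 : p ≠ 2) {C1 C2 : Prop} {α1 β1 α2 β2 : ℤ}
    (h1 : C1 → (p : ℤ) ∣ α1 → ¬ (p : ℤ) ∣ β1) (h2' : C2 → (p : ℤ) ∣ α2 → ¬ (p : ℤ) ∣ β2) :
    ∃ y : ℤ, (C1 → ¬ (p : ℤ) ∣ α1 * y + β1) ∧ (C2 → ¬ (p : ℤ) ∣ α2 * y + β2) := by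
  have k1 : ∃ r : ℤ, ∀ t : ℤ, ¬ (p : ℤ) ∣ t - r → C1 → ¬ (p : ℤ) ∣ α1 * t + β1 := by
    by_cases hC : C1
    · obtain ⟨r, hr⟩ := lin_class hp (α := β1) (β := α1) (h1 hC)
      exact ⟨r, fun t ht _ h => hr t ht (by rw [add_comm]; exact h)⟩
    · exact ⟨0, fun t _ h => absurd h hC⟩
  have k2 : ∃ r : ℤ, ∀ t : ℤ, ¬ (p : ℤ) ∣ t - r → C2 → ¬ (p : ℤ) ∣ α2 * t + β2 := by
    by_cases hC : C2
    · obtain ⟨r, hr⟩ := lin_class hp (α := β2) (β := α2) (h2' hC)
      exact ⟨r, fun t ht _ h => hr t ht (by rw [add_comm]; exact h)⟩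
    · exact ⟨0, fun t _ h => absurd h hC⟩
  obtain ⟨r1, hr1⟩ := k1
  obtain ⟨r2, hr2⟩ := k2
  obtain ⟨x, hx1, hx2⟩ := avoid2 hp h2 r1 r2
  exact ⟨x, hr1 x hx1, hr2 x hx2⟩

/-- **the sieve for `e`** -/
theorem univ_e (hB : Bg N J Z) {w h γ c A i0 η : ℤ} (h0 : 0 < h) (γ0 : 0 < γ) (c0 : 0 < c)
    (hi : i0 = 1 ∨ i0 = 2) (hZ : 2 * c * h * γ ≤ (2 * N) ^ 20) (lo : ℤ) :
    ∃ e : ℤ, lo ≤ e ∧ e < lo + (J : ℤ) ^ 2 ∧ IsCoprime e (2 * c * h * γ) ∧
      ∀ p : ℕ, p.Prime → ¬ (p : ℤ) ∣ 2 → (p : ℤ) ∣ c →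
        ((p : ℤ) ∣ h → ¬ (p : ℤ) ∣ A * e + i0) ∧
        ((p : ℤ) ∣ γ → ¬ (p : ℤ) ∣ h → ¬ (p : ℤ) ∣ (A + w * h * η) * e + i0) := by
  have hD : 0 < 2 * c * h * γ := by positivity
  have hi2 : ∀ p : ℕ, p.Prime → ¬ (p : ℤ) ∣ 2 → ¬ (p : ℤ) ∣ i0 := by
    intro p hp h2
    rcases hi with rfl | rfl
    · exact prime_not_dvd_one hp
    · exact h2
  obtain ⟨e, e1, e2, e3⟩ := sieveP (k := 3) (e := 2) hB.cap hD (hB.le (n := 20) le_rfl hZ)
    (by norm_num)
    (fun i x => if i = 0 then x ∣ 2 * c * h * γ else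
      if i = 1 then (¬ x ∣ 2 ∧ x ∣ c ∧ x ∣ h) else
        (¬ x ∣ 2 ∧ x ∣ c ∧ x ∣ γ ∧ ¬ x ∣ h))
    (fun i => if i = 0 then 1 else if i = 1 then A else A + w * h * η)
    (fun i => if i = 0 then 0 else i0)
    (by
      intro p _ i hi'
      fin_cases i
      · simpa using hi'
      · obtain ⟨_, h3, _⟩ : ¬ (p : ℤ) ∣ 2 ∧ (p : ℤ) ∣ c ∧ (p : ℤ) ∣ h := by simpa using hi'
        exact ((h3.mul_left 2).mul_right h).mul_right γ
      · obtain ⟨_, h3, _⟩ : ¬ (p : ℤ) ∣ 2 ∧ (p : ℤ) ∣ c ∧ (p : ℤ) ∣ γ ∧ ¬ (p : ℤ) ∣ h := by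
          simpa using hi'
        exact ((h3.mul_left 2).mul_right h).mul_right γ)
    (by
      intro p hp
      rcases two_or_odd hp with rfl | ⟨hp2, hpd⟩
      · refine ⟨1, fun i hi' => ?_⟩
        fin_cases i
        · simp
        · simp at hi'
        · simp at hi'
      · by_cases hh : (p : ℤ) ∣ h
        · obtain ⟨y, y1, y2⟩ := loc2 hp hp2 (C1 := True) (C2 := True) (α1 := 1) (β1 := 0)
            (α2 := A) (β2 := i0) (fun _ h => absurd h (prime_not_dvd_one hp))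
            (fun _ _ => hi2 p hp hpd)
          refine ⟨y, fun i hi' => ?_⟩
          fin_cases i
          · simpa using y1 trivial
          · simpa using y2 trivial
          · obtain ⟨_, _, _, h3⟩ : ¬ (p : ℤ) ∣ 2 ∧ (p : ℤ) ∣ c ∧ (p : ℤ) ∣ γ ∧ ¬ (p : ℤ) ∣ h := by
              simpa using hi'
            exact absurd hh h3
        · obtain ⟨y, y1, y2⟩ := loc2 hp hp2 (C1 := True) (C2 := True) (α1 := 1) (β1 := 0)
            (α2 := A + w * h * η) (β2 := i0) (fun _ h => absurd h (prime_not_dvd_one hp))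
            (fun _ _ => hi2 p hp hpd)
          refine ⟨y, fun i hi' => ?_⟩
          fin_cases i
          · simpa using y1 trivial
          · obtain ⟨_, _, h3⟩ : ¬ (p : ℤ) ∣ 2 ∧ (p : ℤ) ∣ c ∧ (p : ℤ) ∣ h := by simpa using hi'
            exact absurd h3 hh
          · simpa using y2 trivial) lo
  refine ⟨e, e1, e2, isCoprime_of_prime fun p hp h4 h5 => ?_, fun p hp hp2 hpc => ⟨?_, ?_⟩⟩
  · have := e3 p hp 0 (by simpa using h4)
    simp at this
    exact this h5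
  · intro hph
    have := e3 p hp 1 (by simpa using ⟨hp2, hpc, hph⟩)
    simpa using this
  · intro hpg hph
    have := e3 p hp 2 (by simpa using ⟨hp2, hpc, hpg, hph⟩)
    simpa using this

/-- **the sieve for `α`** -/
theorem univ_al (hB : Bg N J Z) {w h γ e c k0 W0 A a G i0 c2 : ℤ} (hw : w = 1 ∨ w = 2)
    (h0 : 0 < h) (γ0 : 0 < γ) (c0 : 0 < c) (e0 : 0 < e)
    (he : IsCoprime e (2 * c * h * γ))
    (p2 : (2 : ℤ) ∣ γ * (w * h + e * c) → (2 : ℤ) ∣ W0 → ¬ (2 : ℤ) ∣ c2 + (w * a + G * e))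
    (hZ : 3 * e * (c * h) * (γ * (w * h + e * c)) ≤ (2 * N) ^ 20) (lo : ℤ) :
    ∃ α : ℤ, lo ≤ α ∧ α < lo + 2 * (J : ℤ) ^ 2 ∧ (2 : ℤ) ∣ α - c2 ∧ ∀ p : ℕ, p.Prime →
      ((p : ℤ) ∣ e → ¬ (p : ℤ) ∣ c * γ * α - (e * A + i0)) ∧
      (¬ (p : ℤ) ∣ 2 → ((p : ℤ) ∣ γ ∨ ((p : ℤ) ∣ c ∧ (p : ℤ) ∣ h)) → (p : ℤ) ∣ a - k0 →
        ¬ (p : ℤ) ∣ α + (w * a + G * e - w * W0)) ∧
      ((p : ℤ) ∣ γ * (w * h + e * c) → (p : ℤ) ∣ W0 → ¬ (p : ℤ) ∣ α + (w * a + G * e)) ∧
      (p = 3 → ¬ (p : ℤ) ∣ h → ¬ (p : ℤ) ∣ h * α + (c * i0 - h * w * A)) := by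
  have w0 : 0 < w := by rcases hw with rfl | rfl <;> norm_num
  have hD : 0 < 3 * e * (c * h) * (γ * (w * h + e * c)) := by positivity
  -- primes dividing e
  have hpe : ∀ p : ℕ, p.Prime → (p : ℤ) ∣ e → ¬ (p : ℤ) ∣ 2 ∧ ¬ (p : ℤ) ∣ c ∧ ¬ (p : ℤ) ∣ h ∧
      ¬ (p : ℤ) ∣ γ := by
    intro p hp hd
    refine ⟨fun h1 => ?_, fun h1 => ?_, fun h1 => ?_, fun h1 => ?_⟩
    · exact not_dvd_of_isCoprime he hp (((h1.mul_right c).mul_right h).mul_right γ) hd
    · exact not_dvd_of_isCoprime he hp (((h1.mul_left 2).mul_right h).mul_right γ) hd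
    · exact not_dvd_of_isCoprime he hp ((h1.mul_left (2 * c)).mul_right γ) hd
    · exact not_dvd_of_isCoprime he hp (h1.mul_left (2 * c * h)) hd
  obtain ⟨α, a1, a2, a3, a4⟩ := sieveQ (k := 4) (e := 2) hB.cap hD (hB.le (n := 20) le_rfl hZ)
    (by norm_num)
    (fun i x => if i = 0 then x ∣ e else
      if i = 1 then (¬ x ∣ 2 ∧ (x ∣ γ ∨ (x ∣ c ∧ x ∣ h)) ∧ x ∣ a - k0) else
      if i = 2 then (x ∣ γ * (w * h + e * c) ∧ x ∣ W0) else (x = 3 ∧ ¬ x ∣ h))
    (fun i => if i = 0 then c * γ else if i = 3 then h else 1)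
    (fun i => if i = 0 then -(e * A + i0) else
      if i = 1 then w * a + G * e - w * W0 else
      if i = 2 then w * a + G * e else c * i0 - h * w * A)
    (m := 2) (by norm_num) c2
    (by
      intro p _ i hi'
      fin_cases i
      · have h3 : (p : ℤ) ∣ e := by simpa using hi'
        exact ((h3.mul_left 3).mul_right _).mul_right _
      · obtain ⟨_, h3, _⟩ : ¬ (p : ℤ) ∣ 2 ∧ ((p : ℤ) ∣ γ ∨ ((p : ℤ) ∣ c ∧ (p : ℤ) ∣ h)) ∧
          (p : ℤ) ∣ a - k0 := by simpa using hi'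
        rcases h3 with h3 | ⟨h3, _⟩
        · exact (h3.mul_right _).mul_left _
        · exact ((h3.mul_right h).mul_left _).mul_right _
      · obtain ⟨h3, _⟩ : (p : ℤ) ∣ γ * (w * h + e * c) ∧ (p : ℤ) ∣ W0 := by simpa using hi'
        exact h3.mul_left _
      · obtain ⟨h3, _⟩ : (p : ℤ) = 3 ∧ ¬ (p : ℤ) ∣ h := by simpa using hi'
        rw [h3]
        exact (((dvd_refl (3 : ℤ)).mul_right e).mul_right _).mul_right _)
    (by
      intro p hp hpd
      have hp2 : p ≠ 2 := fun h => hpd (by rw [h]; norm_num)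
      by_cases hh : (p : ℤ) ∣ e
      · obtain ⟨q2, qc, qh, qg⟩ := hpe p hp hh
        have hp' := Nat.prime_iff_prime_int.1 hp
        obtain ⟨y, y1, y2⟩ := loc2 hp hp2 (C1 := True) (C2 := True) (α1 := c * γ)
          (β1 := -(e * A + i0)) (α2 := h) (β2 := c * i0 - h * w * A)
          (fun _ h => absurd h (by
            intro h4
            rcases hp'.dvd_or_dvd h4 with h4 | h4
            · exact qc h4
            · exact qg h4))
          (fun _ h => absurd h qh)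
        refine ⟨y, fun i hi' => ?_⟩
        fin_cases i
        · simpa using y1 trivial
        · obtain ⟨_, h3, _⟩ : ¬ (p : ℤ) ∣ 2 ∧ ((p : ℤ) ∣ γ ∨ ((p : ℤ) ∣ c ∧ (p : ℤ) ∣ h)) ∧
            (p : ℤ) ∣ a - k0 := by simpa using hi'
          rcases h3 with h3 | ⟨h3, _⟩
          · exact absurd h3 qg
          · exact absurd h3 qc
        · obtain ⟨h3, _⟩ : (p : ℤ) ∣ γ * (w * h + e * c) ∧ (p : ℤ) ∣ W0 := by simpa using hi'
          exfalso
          rcases hp'.dvd_or_dvd h3 with h3 | h3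
          · exact qg h3
          · have h5 : (p : ℤ) ∣ w * h := (dvd_add_left (hh.mul_right c)).1 h3
            rcases hp'.dvd_or_dvd h5 with h5 | h5
            · rcases hw with rfl | rfl
              · exact prime_not_dvd_one hp h5
              · exact q2 h5
            · exact qh h5
        · simpa using y2 trivial
      · obtain ⟨y, y1, y2⟩ := loc2 hp hp2 (C1 := True) (C2 := ¬ (p : ℤ) ∣ h) (α1 := 1)
          (β1 := w * a + G * e - w * W0) (α2 := h) (β2 := c * i0 - h * w * A)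
          (fun _ h => absurd h (prime_not_dvd_one hp)) (fun h h' => absurd h' h)
        refine ⟨y, fun i hi' => ?_⟩
        fin_cases i
        · have h3 : (p : ℤ) ∣ e := by simpa using hi'
          exact absurd h3 hh
        · simpa using y1 trivial
        · obtain ⟨_, h3⟩ : (p : ℤ) ∣ γ * (w * h + e * c) ∧ (p : ℤ) ∣ W0 := by simpa using hi'
          intro h6
          refine y1 trivial ?_
          have h7 : (p : ℤ) ∣ 1 * y + (w * a + G * e) := by simpa using h6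
          have e7 : 1 * y + (w * a + G * e - w * W0) = 1 * y + (w * a + G * e) - w * W0 := by
            ring
          rw [e7]
          exact dvd_sub h7 (h3.mul_left w)
        · obtain ⟨_, h3⟩ : (p : ℤ) = 3 ∧ ¬ (p : ℤ) ∣ h := by simpa using hi'
          simpa using y2 h3)
    (by
      intro p hp hpd i hi'
      have hp2 : p = 2 := by
        rcases two_or_odd hp with h | ⟨_, h⟩
        · exact h
        · exact absurd hpd h
      subst hp2
      fin_cases i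
      · have h3 : ((2 : ℕ) : ℤ) ∣ e := by simpa using hi'
        exact absurd (dvd_refl _) (hpe 2 hp h3).1
      · simp at hi'
      · obtain ⟨h3, h4⟩ : (2 : ℤ) ∣ γ * (w * h + e * c) ∧ (2 : ℤ) ∣ W0 := by simpa using hi'
        simpa using p2 h3 h4
      · simp at hi') lo
  refine ⟨α, a1, a2, a3, fun p hp => ⟨?_, ?_, ?_, ?_⟩⟩
  · intro h1
    have := a4 p hp 0 (by simpa using h1)
    simp only [Fin.isValue, if_true] at this
    rw [sub_eq_add_neg]; exact this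
  · intro h1 h2 h3
    have := a4 p hp 1 (by simpa using ⟨h1, h2, h3⟩)
    simpa using this
  · intro h1 h2
    have := a4 p hp 2 (by simpa using ⟨h1, h2⟩)
    simpa using this
  · intro h1 h2
    have := a4 p hp 3 (by
      have h3 : (p : ℤ) = 3 := by exact_mod_cast h1
      simpa using ⟨h3, h2⟩)
    simpa using this

end Pool.Agent.H4G.Six
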