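import Pool.Agent.H4G.Six.Can.Sv

/-!
# Sieves for the universal family (case (C) of D2): local lemmas and the number `n` (helper95)

Statements by helper97.
-/

set_option autoImplicit false

namespace Pool.Agent.H4G.Six

open Pool.Agent.H4G

variable {N : ℤ} {J Z : ℕ}

/-- the bad class of a linear condition -/
theorem uCls {p : ℕ} (hp : p.Prime) {C : Prop} {α β : ℤ}
    (h : C → (p : ℤ) ∣ α → ¬ (p : ℤ) ∣ β) :
    ∃ r : ℤ, ∀ t : ℤ, ¬ (p : ℤ) ∣ t - r → C → ¬ (p : ℤ) ∣ α * t + β := by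
  by_cases hC : C
  · obtain ⟨r, hr⟩ := lin_class hp (α := β) (β := α) (h hC)
    exact ⟨r, fun t ht _ h => hr t ht (by rw [add_comm]; exact h)⟩
  · exact ⟨0, fun t _ h => absurd h hC⟩

/-- two linear conditions modulo an odd prime -/
theorem uLoc2 {p : ℕ} (hp : p.Prime) (h2 : p ≠ 2) {C1 C2 : Prop} {α1 β1 α2 β2 : ℤ}
    (h1 : C1 → (p : ℤ) ∣ α1 → ¬ (p : ℤ) ∣ β1) (h2' : C2 → (p : ℤ) ∣ α2 → ¬ (p : ℤ) ∣ β2) :
    ∃ y : ℤ, (C1 → ¬ (p : ℤ) ∣ α1 * y + β1) ∧ (C2 → ¬ (p : ℤ) ∣ α2 * y + β2) := by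
  obtain ⟨r1, hr1⟩ := uCls hp h1
  obtain ⟨r2, hr2⟩ := uCls hp h2'
  obtain ⟨x, hx1, hx2⟩ := avoid2 hp h2 r1 r2
  exact ⟨x, hr1 x hx1, hr2 x hx2⟩

/-- three linear conditions modulo a prime `p ≥ 5` -/
theorem uLoc3 {p : ℕ} (hp : p.Prime) (h5 : 5 ≤ p) {C1 C2 C3 : Prop} {α1 β1 α2 β2 α3 β3 : ℤ}
    (h1 : C1 → (p : ℤ) ∣ α1 → ¬ (p : ℤ) ∣ β1) (h2 : C2 → (p : ℤ) ∣ α2 → ¬ (p : ℤ) ∣ β2)
    (h3 : C3 → (p : ℤ) ∣ α3 → ¬ (p : ℤ) ∣ β3) :
    ∃ y : ℤ, (C1 → ¬ (p : ℤ) ∣ α1 * y + β1) ∧ (C2 → ¬ (p : ℤ) ∣ α2 * y + β2) ∧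
      (C3 → ¬ (p : ℤ) ∣ α3 * y + β3) := by
  obtain ⟨r1, hr1⟩ := uCls hp h1
  obtain ⟨r2, hr2⟩ := uCls hp h2
  obtain ⟨r3, hr3⟩ := uCls hp h3
  obtain ⟨y, hy⟩ := loc_of_lt (p := p) ({r1, r2, r3} : Finset ℤ)
    (lt_of_le_of_lt Finset.card_le_three (by omega))
  exact ⟨y, hr1 y (hy r1 (by simp)), hr2 y (hy r2 (by simp)), hr3 y (hy r3 (by simp))⟩

/-- **the sieve for `n`** -/
theorem univ_n (hB : Bg N J Z) {w h γ e c G r k0 W0 P a ΩL ΩM : ℤ} (hw : w = 1 ∨ w = 2)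
    (h0 : 0 < h) (γ0 : 0 < γ) (c0 : 0 < c) (P0 : 0 < P) (L0 : 0 < ΩL)
    (M0 : 0 < ΩM) (hZ : ΩL * h * ΩM * (P * c) ≤ (2 * N) ^ 20)
    (he : IsCoprime e (2 * c * h * γ))
    (a3 : (3 : ℤ) ∣ ΩL → (3 : ℤ) ∣ h)
    (aM : ∀ p : ℕ, p.Prime → (p : ℤ) ∣ e → ¬ (p : ℤ) ∣ ΩM)
    (h2 : ∃ y : ℤ, ((2 : ℤ) ∣ ΩM → ¬ (2 : ℤ) ∣ γ → ¬ (2 : ℤ) ∣ e * γ * y + (r - G * γ)) ∧
      ((2 : ℤ) ∣ P * c → ¬ (2 : ℤ) ∣ γ * (w * h + e * c) →
        ¬ (2 : ℤ) ∣ γ * (w * h + e * c) * y + W0)) (n0 : ℤ) :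
    ∃ n : ℤ, n0 ≤ n ∧ n < n0 + (J : ℤ) ^ 2 ∧ ∀ p : ℕ, p.Prime →
      ((p : ℤ) ∣ ΩL → ¬ (p : ℤ) ∣ 2 * h * γ → ¬ (p : ℤ) ∣ w * h * γ * n + (k0 - a)) ∧
      ((p : ℤ) ∣ h → ¬ (p : ℤ) ∣ 2 * c * γ → (p : ℤ) ∣ a - k0 →
        ¬ (p : ℤ) ∣ (-(w * γ * (w * h + e * c))) * n + (P - w * W0)) ∧
      ((p : ℤ) ∣ ΩM → ¬ (p : ℤ) ∣ γ → ¬ (p : ℤ) ∣ e * γ * n + (r - G * γ)) ∧
      ((p : ℤ) ∣ P * c → ¬ (p : ℤ) ∣ γ * (w * h + e * c) →
        ¬ (p : ℤ) ∣ γ * (w * h + e * c) * n + W0) := by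
  have hD : 0 < ΩL * h * ΩM * (P * c) := by positivity
  obtain ⟨n, n1, n2, n3⟩ := sieveP (k := 4) (e := 2) hB.cap hD (hB.le (n := 20) le_rfl hZ)
    (by norm_num)
    (fun i x => if i = 0 then (x ∣ ΩL ∧ ¬ x ∣ 2 * h * γ) else
      if i = 1 then (x ∣ h ∧ ¬ x ∣ 2 * c * γ ∧ x ∣ a - k0) else
      if i = 2 then (x ∣ ΩM ∧ ¬ x ∣ γ) else (x ∣ P * c ∧ ¬ x ∣ γ * (w * h + e * c)))
    (fun i => if i = 0 then w * h * γ else if i = 1 then -(w * γ * (w * h + e * c)) else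
      if i = 2 then e * γ else γ * (w * h + e * c))
    (fun i => if i = 0 then k0 - a else if i = 1 then P - w * W0 else
      if i = 2 then r - G * γ else W0)
    (by
      intro p _ i hi'
      fin_cases i
      · obtain ⟨h3, _⟩ : (p : ℤ) ∣ ΩL ∧ ¬ (p : ℤ) ∣ 2 * h * γ := by simpa using hi'
        exact ((h3.mul_right h).mul_right ΩM).mul_right _
      · obtain ⟨h3, _⟩ : (p : ℤ) ∣ h ∧ ¬ (p : ℤ) ∣ 2 * c * γ ∧ (p : ℤ) ∣ a - k0 := by
          simpa using hi'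
        exact ((h3.mul_left ΩL).mul_right ΩM).mul_right _
      · obtain ⟨h3, _⟩ : (p : ℤ) ∣ ΩM ∧ ¬ (p : ℤ) ∣ γ := by simpa using hi'
        exact (h3.mul_left (ΩL * h)).mul_right _
      · obtain ⟨h3, _⟩ : (p : ℤ) ∣ P * c ∧ ¬ (p : ℤ) ∣ γ * (w * h + e * c) := by
          simpa using hi'
        exact h3.mul_left _)
    (by
      intro p hp
      have hp' := Nat.prime_iff_prime_int.1 hp
      rcases two_or_odd hp with rfl | ⟨hp2, hpd⟩
      · obtain ⟨y, y1, y2⟩ := h2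
        refine ⟨y, fun i hi' => ?_⟩
        fin_cases i
        · obtain ⟨_, h3⟩ : (2 : ℤ) ∣ ΩL ∧ ¬ (2 : ℤ) ∣ 2 * h * γ := by simpa using hi'
          exact absurd ((dvd_mul_right 2 h).mul_right γ) h3
        · obtain ⟨_, h3, _⟩ : (2 : ℤ) ∣ h ∧ ¬ (2 : ℤ) ∣ 2 * c * γ ∧ (2 : ℤ) ∣ a - k0 := by
            simpa using hi'
          exact absurd ((dvd_mul_right 2 c).mul_right γ) h3
        · obtain ⟨h3, h4⟩ : (2 : ℤ) ∣ ΩM ∧ ¬ (2 : ℤ) ∣ γ := by simpa using hi'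
          simpa using y1 h3 h4
        · obtain ⟨h3, h4⟩ : (2 : ℤ) ∣ P * c ∧ ¬ (2 : ℤ) ∣ γ * (w * h + e * c) := by
            simpa using hi'
          simpa using y2 h3 h4
      · have hpw : ¬ (p : ℤ) ∣ w := by
          rcases hw with rfl | rfl
          · exact prime_not_dvd_one hp
          · exact hpd
        -- the third form
        have c3 : ((p : ℤ) ∣ ΩM ∧ ¬ (p : ℤ) ∣ γ) → (p : ℤ) ∣ e * γ → ¬ (p : ℤ) ∣ r - G * γ := by
          rintro ⟨h3, h4⟩ h5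
          rcases hp'.dvd_or_dvd h5 with h5 | h5
          · exact absurd h3 (aM p hp h5)
          · exact absurd h5 h4
        have c4 : ((p : ℤ) ∣ P * c ∧ ¬ (p : ℤ) ∣ γ * (w * h + e * c)) →
            (p : ℤ) ∣ γ * (w * h + e * c) → ¬ (p : ℤ) ∣ W0 := fun h3 h4 => absurd h4 h3.2
        by_cases hh : (p : ℤ) ∣ h
        · have hpe : ¬ (p : ℤ) ∣ e := fun h3 =>
            not_dvd_of_isCoprime he hp ((hh.mul_left (2 * c)).mul_right γ) h3
          have hun : ¬ (p : ℤ) ∣ 2 * c * γ → ¬ (p : ℤ) ∣ γ * (w * h + e * c) := by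
            intro h3 h4
            rcases hp'.dvd_or_dvd h4 with h4 | h4
            · exact h3 (h4.mul_left _)
            · have h5 : (p : ℤ) ∣ e * c := (dvd_add_right (hh.mul_left w)).1 h4
              rcases hp'.dvd_or_dvd h5 with h5 | h5
              · exact hpe h5
              · exact h3 ((h5.mul_left 2).mul_right γ)
          have c2 : ((p : ℤ) ∣ h ∧ ¬ (p : ℤ) ∣ 2 * c * γ ∧ (p : ℤ) ∣ a - k0) →
              (p : ℤ) ∣ -(w * γ * (w * h + e * c)) → ¬ (p : ℤ) ∣ P - w * W0 := by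
            rintro ⟨_, h3, _⟩ h4
            exfalso
            rw [dvd_neg, mul_assoc] at h4
            rcases hp'.dvd_or_dvd h4 with h4 | h4
            · exact hpw h4
            · exact hun h3 h4
          have key : ∃ y : ℤ, (((p : ℤ) ∣ h ∧ ¬ (p : ℤ) ∣ 2 * c * γ ∧ (p : ℤ) ∣ a - k0) →
                ¬ (p : ℤ) ∣ (-(w * γ * (w * h + e * c))) * y + (P - w * W0)) ∧
              (((p : ℤ) ∣ ΩM ∧ ¬ (p : ℤ) ∣ γ) → ¬ (p : ℤ) ∣ e * γ * y + (r - G * γ)) ∧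
              (((p : ℤ) ∣ P * c ∧ ¬ (p : ℤ) ∣ γ * (w * h + e * c)) →
                ¬ (p : ℤ) ∣ γ * (w * h + e * c) * y + W0) := by
            by_cases h5 : 5 ≤ p
            · exact uLoc3 hp h5 c2 c3 c4
            · have hp3 : p = 3 := by
                have := hp.two_le
                interval_cases p
                · exact absurd rfl hp2
                · rfl
                · exact absurd hp (by norm_num)
              by_cases hA : ((p : ℤ) ∣ h ∧ ¬ (p : ℤ) ∣ 2 * c * γ ∧ (p : ℤ) ∣ a - k0) ∧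
                  ((p : ℤ) ∣ P * c ∧ ¬ (p : ℤ) ∣ γ * (w * h + e * c))
              · obtain ⟨⟨_, k1, _⟩, k2, k3⟩ := hA
                have kP : (p : ℤ) ∣ P := by
                  rcases hp'.dvd_or_dvd k2 with k2 | k2
                  · exact k2
                  · exact absurd ((k2.mul_left 2).mul_right γ) k1
                obtain ⟨y, y1, y2⟩ := uLoc2 hp hp2 c3 c4
                refine ⟨y, fun _ h6 => ?_, y1, y2⟩
                have e6 : (-(w * γ * (w * h + e * c))) * y + (P - w * W0) =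
                    P - w * (γ * (w * h + e * c) * y + W0) := by ring
                rw [e6] at h6
                have h7 : (p : ℤ) ∣ w * (γ * (w * h + e * c) * y + W0) :=
                  (dvd_sub_right kP).1 h6
                rcases hp'.dvd_or_dvd h7 with h7 | h7
                · exact hpw h7
                · exact y2 ⟨k2, k3⟩ h7
              · by_cases hA1 : (p : ℤ) ∣ h ∧ ¬ (p : ℤ) ∣ 2 * c * γ ∧ (p : ℤ) ∣ a - k0
                · obtain ⟨y, y1, y2⟩ := uLoc2 hp hp2 c2 c3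
                  exact ⟨y, y1, y2, fun h6 => absurd ⟨hA1, h6⟩ hA⟩
                · obtain ⟨y, y1, y2⟩ := uLoc2 hp hp2 c3 c4
                  exact ⟨y, fun h6 => absurd h6 hA1, y1, y2⟩
          obtain ⟨y, y1, y2, y3⟩ := key
          refine ⟨y, fun i hi' => ?_⟩
          fin_cases i
          · obtain ⟨_, h3⟩ : (p : ℤ) ∣ ΩL ∧ ¬ (p : ℤ) ∣ 2 * h * γ := by simpa using hi'
            exact absurd ((hh.mul_left 2).mul_right γ) h3
          · have h3 : (p : ℤ) ∣ h ∧ ¬ (p : ℤ) ∣ 2 * c * γ ∧ (p : ℤ) ∣ a - k0 := by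
              simpa using hi'
            simpa using y1 h3
          · have h3 : (p : ℤ) ∣ ΩM ∧ ¬ (p : ℤ) ∣ γ := by simpa using hi'
            simpa using y2 h3
          · have h3 : (p : ℤ) ∣ P * c ∧ ¬ (p : ℤ) ∣ γ * (w * h + e * c) := by
              simpa using hi'
            simpa using y3 h3
        · have c1 : ((p : ℤ) ∣ ΩL ∧ ¬ (p : ℤ) ∣ 2 * h * γ) → (p : ℤ) ∣ w * h * γ →
              ¬ (p : ℤ) ∣ k0 - a := by
            rintro ⟨_, h3⟩ h4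
            exfalso
            rcases hp'.dvd_or_dvd h4 with h4 | h4
            · rcases hp'.dvd_or_dvd h4 with h4 | h4
              · exact hpw h4
              · exact hh h4
            · exact h3 (h4.mul_left _)
          have key : ∃ y : ℤ, (((p : ℤ) ∣ ΩL ∧ ¬ (p : ℤ) ∣ 2 * h * γ) →
                ¬ (p : ℤ) ∣ w * h * γ * y + (k0 - a)) ∧
              (((p : ℤ) ∣ ΩM ∧ ¬ (p : ℤ) ∣ γ) → ¬ (p : ℤ) ∣ e * γ * y + (r - G * γ)) ∧
              (((p : ℤ) ∣ P * c ∧ ¬ (p : ℤ) ∣ γ * (w * h + e * c)) →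
                ¬ (p : ℤ) ∣ γ * (w * h + e * c) * y + W0) := by
            by_cases h5 : 5 ≤ p
            · exact uLoc3 hp h5 c1 c3 c4
            · have hp3 : p = 3 := by
                have := hp.two_le
                interval_cases p
                · exact absurd rfl hp2
                · rfl
                · exact absurd hp (by norm_num)
              obtain ⟨y, y1, y2⟩ := uLoc2 hp hp2 c3 c4
              refine ⟨y, fun h6 => ?_, y1, y2⟩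
              subst hp3
              exact absurd (a3 (by simpa using h6.1)) (by simpa using hh)
          obtain ⟨y, y1, y2, y3⟩ := key
          refine ⟨y, fun i hi' => ?_⟩
          fin_cases i
          · have h3 : (p : ℤ) ∣ ΩL ∧ ¬ (p : ℤ) ∣ 2 * h * γ := by simpa using hi'
            simpa using y1 h3
          · obtain ⟨h3, _⟩ : (p : ℤ) ∣ h ∧ ¬ (p : ℤ) ∣ 2 * c * γ ∧ (p : ℤ) ∣ a - k0 := by
              simpa using hi'
            exact absurd h3 hh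
          · have h3 : (p : ℤ) ∣ ΩM ∧ ¬ (p : ℤ) ∣ γ := by simpa using hi'
            simpa using y2 h3
          · have h3 : (p : ℤ) ∣ P * c ∧ ¬ (p : ℤ) ∣ γ * (w * h + e * c) := by
              simpa using hi'
            simpa using y3 h3) n0
  refine ⟨n, n1, n2, fun p hp => ⟨?_, ?_, ?_, ?_⟩⟩
  · intro h3 h4
    have := n3 p hp 0 (by simpa using ⟨h3, h4⟩)
    simpa using this
  · intro h3 h4 h5
    have := n3 p hp 1 (by simpa using ⟨h3, h4, h5⟩)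
    simpa using this
  · intro h3 h4
    have := n3 p hp 2 (by simpa using ⟨h3, h4⟩)
    simpa using this
  · intro h3 h4
    have := n3 p hp 3 (by simpa using ⟨h3, h4⟩)
    simpa using this

end Pool.Agent.H4G.Six
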