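import Pool.Agent.H4G.Six.D2.Fork88
import Pool.Agent.H4G.Six.D2.UnivLoc81
import Pool.Agent.H4G.Six.D2.UnivLoc95

/-!
# The universal family (case (C) of the area-maximal reduction, helper97)

The state is `NF A a c z x` with a large common divisor `G` of `z`, `x` and `a c`. After a shear
`z = G γ`, `x = G ξ` with `gcd(γ, ξ) = 1`, and `a c = G h`. The exit is along `l = (w a, k)`,
`m = (G e, c i)` with `e = i ξ + j γ`, `e k = w h i + i0`, and the new first vector is `(P, W)`,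
`P = α + w a + G e`, `W = A + k + c i`. There are three sieves: for `e`, for `α` and for `n`
(`i = r + e γ n`).
-/

set_option autoImplicit false

namespace Pool.Agent.H4G.Six

open Pool.Agent.H4G

variable {N : ℤ} {J Z : ℕ}

/-- **the exit of the universal family**: `l = (w a, k)`, `m = (G e, c i)` -/
theorem univ_exit {A a c z x w G h γ ξ i0 e i j k α P W : ℤ} (A0 : 0 < A) (a0 : 0 < a)
    (c0 : 0 < c)
    (hz : z = G * γ) (hx : x = G * ξ) (h0 : 0 < h) (e0 : 0 < e) (w0 : 0 < w)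
    (i00 : 0 ≤ i0) (hG : G * h = a * c) (G0 : 0 < G) (he : i * ξ + j * γ = e)
    (hk : e * k = w * h * i + i0)
    (hP : P = α + w * a + G * e) (hW : W = A + k + c * i) (cop1 : IsCoprime w k)
    (cop2 : IsCoprime j i) (i1 : 0 < i) (iz : i < z) (k0 : 0 < k) (ka : k < a) (hα : 0 < α - 1)
    (hY : 0 < α * (c * i) - G * (e * A + i0)) (hA1 : (α - 1) * (c * i) ≤ G * (e * A))
    (hA2 : (α - 1) * i0 < e * A)
    (cW : ∀ p : ℕ, p.Prime → (p : ℤ) ∣ P * c → ¬ (p : ℤ) ∣ W)
    (cM : ∀ p : ℕ, p.Prime → (p : ℤ) ∣ α * c * γ - e * A - i0 → ¬ (p : ℤ) ∣ γ →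
      ¬ (p : ℤ) ∣ z - i)
    (cL : ∀ p : ℕ, p.Prime → (p : ℤ) ∣ a - k → ¬ (p : ℤ) ∣ P - w * W)
    (heγ : IsCoprime e γ) :
    ∃ A' a' a1' ζ : ℤ, 0 < A' ∧ 1 < a' ∧ 1 < a1' ∧
      a1' = c * z - c * i + (α * (c * i) - G * (e * A + i0)) ∧ A' + a' + a1' = A + a + c * z ∧
      SEq6 (NF A a c z x) (PG A' a' a1' ζ) := by
  have hX : α * k - w * a * A + G * i0 = P * k - 1 * W * (w * a) := by
    rw [hP, hW]
    linear_combination (-G) * hk - w * i * hG
  have hY' : α * (c * i) - G * (e * A + i0) = P * (c * i) - 1 * W * (G * e) := by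
    rw [hP, hW]
    linear_combination G * hk + w * i * hG
  have X0 : 0 < α * k - w * a * A + G * i0 := by
    have e1 : c * e * (α * k - w * a * A + G * i0) = w * h * (α * (c * i) - G * (e * A + i0)) +
        w * h * G * i0 + α * c * i0 + e * c * G * i0 := by
      linear_combination c * α * hk + e * w * A * hG
    have h1 : 0 < w * h * (α * (c * i) - G * (e * A + i0)) := by positivity
    have h2 : 0 ≤ w * h * G * i0 := by positivity
    have h3 : 0 ≤ α * c * i0 := by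
      have : 0 < α := by linarith
      positivity
    have h4 : 0 ≤ e * c * G * i0 := by positivity
    have h5 : 0 < c * e * (α * k - w * a * A + G * i0) := by rw [e1]; linarith
    exact (pos_iff_pos_of_mul_pos h5).1 (by positivity)
  have hA' : (α - 1) * (k + c * i) < A * (1 + w * a + G * e) := by
    have e1 : c * (e * ((α - 1) * k)) = w * h * ((α - 1) * (c * i)) + c * ((α - 1) * i0) := by
      linear_combination c * (α - 1) * hk
    have h1 : w * h * ((α - 1) * (c * i)) ≤ w * h * (G * (e * A)) :=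
      mul_le_mul_of_nonneg_left hA1 (by positivity)
    have e2 : w * h * (G * (e * A)) = c * (e * (w * a * A)) := by
      linear_combination w * e * A * hG
    have h2 : c * ((α - 1) * i0) < c * (e * A) := mul_lt_mul_of_pos_left hA2 c0
    have h3 : c * (e * ((α - 1) * k)) < c * (e * (w * a * A + A)) := by
      rw [e1]
      calc _ < c * (e * (w * a * A)) + c * (e * A) := by rw [← e2]; linarith
        _ = _ := by ring
    have h4 : (α - 1) * k < w * a * A + A :=
      lt_of_mul_lt_mul_left (lt_of_mul_lt_mul_left h3 c0.le) e0.le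
    nlinarith
  have key := nf_exit11 (A := A) (a := a) (c := c) (z := z) (x1 := x) (x := w) (y := k) (w := j)
    (y' := i) (P := P) (k := 1) (W := W) (m1 := G * e) (F := c * i) (X := α * k - w * a * A + G * i0)
    (Y := α * (c * i) - G * (e * A + i0)) A0 c0 cop1 cop2 k0 ka i1 iz
    (by rw [hz, hx]; linear_combination (-G) * he) rfl hW isCoprime_one_right hX hY' X0 hY (by
      rw [hW]; nlinarith)
    (isCoprime_of_prime fun p hp h1 h2 => by
      rw [one_mul] at h1 h2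
      rcases (Nat.prime_iff_prime_int.1 hp).dvd_or_dvd h1 with h3 | h3
      · have h4 : (p : ℤ) ∣ P := by
          have := dvd_add h2 (h3.mul_left w)
          rwa [sub_add_cancel] at this
        exact cW p hp (h4.mul_right c) h3
      · exact cL p hp h3 h2)
    (isCoprime_of_prime fun p hp h1 h2 => by
      rw [one_mul] at h1 h2
      rcases (Nat.prime_iff_prime_int.1 hp).dvd_or_dvd h1 with h3 | h3
      · have h4 : (p : ℤ) ∣ P * c := by
          have := dvd_add h2 (h3.mul_right (x + j))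
          rwa [sub_add_cancel] at this
        exact cW p hp h4 h3
      · by_cases h5 : (p : ℤ) ∣ γ
        · have h6 : (p : ℤ) ∣ i := by
            have := dvd_sub (h5.mul_left G) h3
            rwa [hz, sub_sub_cancel] at this
          have h7 : (p : ℤ) ∣ e := by
            rw [← he]
            exact dvd_add (h6.mul_right _) (h5.mul_left _)
          exact not_dvd_of_isCoprime heγ hp h5 h7
        · refine cM p hp ?_ h5 h3
          have e1 : α * c * γ - e * A - i0 = γ * (P * c - W * (x + j)) +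
              (W * ξ - (w * h + e * c)) * (z - i) := by
            rw [hP, hW, hz, hx]
            linear_combination hk + w * γ * hG + (A + k + c * i) * he
          rw [e1]
          exact dvd_add (h2.mul_left _) (h3.mul_left _))
  obtain ⟨ζ, hζ⟩ := key
  have q1 : 0 < c * z - c * i := by
    have := mul_lt_mul_of_pos_left iz c0
    linarith
  refine ⟨_, _, _, ζ, ?_, ?_, ?_, rfl, ?_, hζ⟩
  · rw [hW]; nlinarith
  · linarith
  · linarith
  · rw [hW]; ring

/-- the cases of the universal family -/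
def UCase (w i0 A c h : ℤ) : Prop :=
  (w = 2 ∧ i0 = 1 ∧ (¬ (2 : ℤ) ∣ c ∨ (2 : ℤ) ∣ A)) ∨
  (w = 1 ∧ i0 = 1 ∧ (2 : ℤ) ∣ c ∧ ¬ (2 : ℤ) ∣ A ∧ ¬ (2 : ℤ) ∣ h) ∨
  (w = 1 ∧ (i0 = 0 ∨ i0 = 2) ∧ (2 : ℤ) ∣ c ∧ ¬ (2 : ℤ) ∣ A ∧ (2 : ℤ) ∣ h)

/-- parity -/
theorem univ_par {A a c h G γ ξ w i0 e r k0 j0 W0 : ℤ} (hC : UCase w i0 A c h)
    (ho : ¬ (2 : ℤ) ∣ e) (hG : G * h = a * c) (hk : e * k0 = w * h * r + i0)
    (he : r * ξ + j0 * γ = e) (hW : W0 = A + k0 + c * r) : ∃ c2 : ℤ,
      ((2 : ℤ) ∣ γ * (w * h + e * c) → (2 : ℤ) ∣ W0 → ¬ (2 : ℤ) ∣ c2 + (w * a + G * e)) ∧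
      ((2 : ℤ) ∣ c → (2 : ℤ) ∣ γ * (w * h + e * c) → ¬ (2 : ℤ) ∣ W0) ∧
      ((w = 2 ∧ ¬ (2 : ℤ) ∣ c2 + (w * a + G * e)) ∨ (w = 1 ∧ (2 : ℤ) ∣ c2 + (w * a + G * e))) ∧
      ∀ α : ℤ, (2 : ℤ) ∣ α - c2 → ∃ y : ℤ,
        ((2 : ℤ) ∣ α * c * γ - e * A - i0 → ¬ (2 : ℤ) ∣ γ → ¬ (2 : ℤ) ∣ e * γ * y + (r - G * γ)) ∧
        ((2 : ℤ) ∣ (α + w * a + G * e) * c → ¬ (2 : ℤ) ∣ γ * (w * h + e * c) →
          ¬ (2 : ℤ) ∣ γ * (w * h + e * c) * y + W0) := by
  have hG' : Even (G * h) ↔ Even (a * c) := by rw [hG]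
  have hk' : Even (e * k0) ↔ Even (w * h * r + i0) := by rw [hk]
  have he' : Even (r * ξ + j0 * γ) ↔ Even e := by rw [he]
  have n1 : ¬ Even (1 : ℤ) := by decide
  have n2 : Even (2 : ℤ) := by decide
  simp only [UCase, ← even_iff_two_dvd] at hC ho ⊢
  subst hW
  have hr : Even γ → ¬ Even r := by
    simp only [Int.even_add, Int.even_mul] at he'
    clear hC hG' hk'; tauto
  clear he' he hk hG
  have hy : ¬ Even γ → ¬ Even (e * γ * (r + G + 1) + (r - G * γ)) := by
    simp only [Int.even_add, Int.even_mul, Int.even_sub]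
    clear hC hG' hk' hr
    tauto
  rcases hC with ⟨rfl, rfl, h1⟩ | ⟨rfl, rfl, h1, h2, h3⟩ | ⟨rfl, h0, h1, h2, h3⟩
  · have hk0 : ¬ Even k0 := by
      simp only [Int.even_add, Int.even_mul] at hk'
      clear hr hy hG'; tauto
    have hP : ¬ Even (G + 1 + (2 * a + G * e)) := by
      simp only [Int.even_add, Int.even_mul]
      clear hr hy hG' hk'; tauto
    have hW : Even c → ¬ Even (A + k0 + c * r) := by
      simp only [Int.even_add, Int.even_mul]
      clear hr hy hG' hk'; tauto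
    refine ⟨G + 1, fun _ _ => hP, fun h _ => hW h, Or.inl ⟨rfl, hP⟩, fun α hα =>
      ⟨r + G + 1, fun _ h => hy h, fun h5 h6 => ?_⟩⟩
    exfalso
    rcases Int.even_mul.1 h5 with h7 | h7
    · apply hP
      have : G + 1 + (2 * a + G * e) = (α + 2 * a + G * e) - (α - (G + 1)) := by ring
      rw [this]
      exact h7.sub hα
    · apply h6
      exact ((n2.mul_right h).add (h7.mul_left e)).mul_left γ
  · have hG2 : Even G := by
      simp only [Int.even_mul] at hG'
      clear hr hy hk'; tauto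
    have hP : Even (a + (1 * a + G * e)) := by
      simp only [Int.even_add, Int.even_mul]
      clear hr hy hG' hk'; tauto
    have hkr : Even k0 ↔ ¬ Even r := by
      simp only [Int.even_add, Int.even_mul] at hk'
      clear hr hy hG'; tauto
    have hWr : Even (A + k0 + c * r) ↔ Even r := by
      simp only [Int.even_add, Int.even_mul]
      clear hr hy hG' hk'; tauto
    have hch : ¬ Even (1 * h + e * c) := by
      simp only [Int.even_add, Int.even_mul]
      clear hr hy hG' hk' hkr hWr; tauto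
    have hW0 : Even (γ * (1 * h + e * c)) → ¬ Even (A + k0 + c * r) := by
      intro h5 h6
      rcases Int.even_mul.1 h5 with h7 | h7
      · exact hr h7 (hWr.1 h6)
      · exact hch h7
    refine ⟨a, fun h5 h6 => absurd h6 (hW0 h5), fun _ h => hW0 h, Or.inr ⟨rfl, hP⟩, fun α hα =>
      ⟨r + G + 1, fun _ h => hy h, fun h5 h6 => ?_⟩⟩
    have hγ : ¬ Even (γ * (1 * h + e * c)) := h6
    rw [Int.even_add, Int.even_mul, hWr]
    have : Even (r + G + 1) ↔ ¬ Even r := by
      simp only [Int.even_add]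
      clear hr hy hG' hk' hkr hWr hα h5; tauto
    rw [this]
    clear hr hy hG' hk' hkr hWr hα h5 hW0 hP
    tauto
  · have hi0 : Even i0 := by rcases h0 with rfl | rfl <;> decide
    have hP : Even (a + G + (1 * a + G * e)) := by
      simp only [Int.even_add, Int.even_mul]
      clear hr hy hG' hk'; tauto
    have hk0 : Even k0 := by
      simp only [Int.even_add, Int.even_mul] at hk'
      clear hr hy hG'; tauto
    have hW : ¬ Even (A + k0 + c * r) := by
      simp only [Int.even_add, Int.even_mul]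
      clear hr hy hG' hk'; tauto
    refine ⟨a + G, fun _ h => absurd h hW, fun _ _ => hW, Or.inr ⟨rfl, hP⟩, fun α hα =>
      ⟨r + G + 1, fun _ h => hy h, fun h5 h6 => ?_⟩⟩
    exfalso
    apply h6
    exact (((even_iff_two_dvd.2 (even_iff_two_dvd.1 h3)).mul_left 1).add (h1.mul_left e)).mul_left γ

/-- the class of `i` modulo `e γ` -/
theorem univ_r {w h i0 e γ ξ η : ℤ} (h1 : IsCoprime e (w * h)) (h2 : IsCoprime e γ)
    (hη : γ ∣ ξ * η - 1) : ∃ r k0 j0 : ℤ, e * k0 = w * h * r + i0 ∧ r * ξ + j0 * γ = e ∧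
      γ ∣ r - e * η := by
  obtain ⟨t, v, hv⟩ := h1
  obtain ⟨g2, g1, hg⟩ := h2
  obtain ⟨s, hs⟩ := hη
  refine ⟨e * η * (g2 * e) + (-(i0 * v)) * (g1 * γ),
    w * h * η * e * g2 + i0 * (t + g2 - e * t * g2), g1 * (e * η + i0 * v) * ξ - e * s, ?_, ?_,
    -(g1 * (e * η + i0 * v)), ?_⟩
  · linear_combination (i0 * (1 - t * e)) * hg + (i0 * g1 * γ) * hv
  · linear_combination (e * η * ξ) * hg + e * hs
  · linear_combination (e * η) * hg


/-- the window of `n` -/
theorem univ_win {j A a c h G γ w i0 e α r n k : ℤ} (hJ : 2 ≤ j) (A0 : 0 < A) (c0 : 0 < c)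
    (γ0 : 0 < γ) (h0 : 0 < h) (a0 : 0 < a) (w0 : 0 < w) (e0 : 0 < e) (hi0 : 0 ≤ i0)
    (hcγ : c * γ ≤ j ^ 36) (hG : G * h = a * c) (hGJ : j ^ 1000 ≤ G) (haA : A ≤ a)
    (he5 : e ≤ j ^ 5) (L1 : 1 ≤ α - 1 - w * A) (L2 : e * A < (α - 1) * (c * γ))
    (L3 : (α - 1) * i0 < e * A) (L4 : α ≤ j ^ 30)
    (n1 : (G * (e * A + i0) + j ^ 155 - α * (c * r)) / (α * c * e * γ) + 1 ≤ n)
    (n2 : n ≤ (G * (e * A + i0) + j ^ 155 - α * (c * r)) / (α * c * e * γ) + j ^ 2)
    (hk : e * k = w * h * (r + e * γ * n) + i0) :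
    j ^ 155 ≤ α * (c * (r + e * γ * n)) - G * (e * A + i0) ∧
    (α - 1) * (c * (r + e * γ * n)) ≤ G * (e * A) ∧ 0 < r + e * γ * n ∧
    r + e * γ * n < G * γ ∧ 0 < k ∧ k < a := by
  have hJ1 : 1 ≤ j := by linarith
  have j0 : 0 < j := by linarith
  have G0 : 0 < G := lt_of_lt_of_le (by positivity) hGJ
  have wA0 : 0 < w * A := by positivity
  have α7 : 0 < α - 1 := by linarith
  have α0 : 0 < α := by linarith
  have hcγ0 : 0 < c * γ := by positivity
  set D : ℤ := α * c * e * γ with hD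
  have D0 : 0 < D := by positivity
  set T : ℤ := G * (e * A + i0) + j ^ 155 - α * (c * r) with hT
  have hTD1 : D * (T / D) ≤ T := Int.mul_ediv_self_le D0.ne'
  have hTD2 : T < D * (T / D + 1) := by
    have := Int.lt_mul_ediv_self_add (x := T) D0
    linarith only [this]
  have hαi : α * (c * (r + e * γ * n)) = α * (c * r) + D * n := by rw [hD]; ring
  have hDn1 : D * (T / D + 1) ≤ D * n := mul_le_mul_of_nonneg_left n1 D0.le
  have hDn2 : D * n ≤ D * (T / D + j ^ 2) := mul_le_mul_of_nonneg_left n2 D0.le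
  have hY155 : j ^ 155 ≤ α * (c * (r + e * γ * n)) - G * (e * A + i0) := by
    rw [hαi]; linarith only [hTD2, hDn1, hT]
  have hDj : D ≤ j ^ 71 := by
    calc D = α * (c * γ) * e := by rw [hD]; ring
      _ ≤ j ^ 30 * j ^ 36 * j ^ 5 := by gcongr
      _ = j ^ 71 := by ring
  have hA1 : (α - 1) * (c * (r + e * γ * n)) ≤ G * (e * A) := by
    have h1 : α * (c * (r + e * γ * n)) ≤ G * (e * A + i0) + (j ^ 155 + D * j ^ 2) := by
      rw [hαi]; linarith only [hTD1, hDn2, hT]
    have h2 : (α - 1) * (j ^ 155 + D * j ^ 2) ≤ G := by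
      calc (α - 1) * (j ^ 155 + D * j ^ 2) ≤ j ^ 30 * (j ^ 155 + j ^ 71 * j ^ 2) := by
            gcongr
            linarith only [L4]
        _ ≤ j ^ 30 * (j ^ 155 + j ^ 155) := by
            have : j ^ 71 * j ^ 2 ≤ j ^ 155 := by
              rw [← pow_add]; exact pow_le_pow_right₀ hJ1 (by norm_num)
            gcongr
        _ = 2 * j ^ 185 := by ring
        _ ≤ j * j ^ 185 := by gcongr
        _ = j ^ 186 := by ring
        _ ≤ j ^ 1000 := pow_le_pow_right₀ hJ1 (by norm_num)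
        _ ≤ G := hGJ
    have h3 : G * 1 ≤ G * (e * A - (α - 1) * i0) :=
      mul_le_mul_of_nonneg_left (by linarith only [L3]) G0.le
    have h4 : (α - 1) * (α * (c * (r + e * γ * n))) ≤
        (α - 1) * (G * (e * A + i0) + (j ^ 155 + D * j ^ 2)) :=
      mul_le_mul_of_nonneg_left h1 α7.le
    have h5 : α * ((α - 1) * (c * (r + e * γ * n))) ≤ α * (G * (e * A)) := by
      calc α * ((α - 1) * (c * (r + e * γ * n))) =
          (α - 1) * (α * (c * (r + e * γ * n))) := by ring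
        _ ≤ _ := h4
        _ = (α - 1) * (G * (e * A + i0)) + (α - 1) * (j ^ 155 + D * j ^ 2) := by ring
        _ ≤ (α - 1) * (G * (e * A + i0)) + G * (e * A - (α - 1) * i0) := by
            linarith only [h2, h3]
        _ = α * (G * (e * A)) := by ring
    exact le_of_mul_le_mul_left h5 α0
  have hY0 : 0 < α * (c * (r + e * γ * n)) - G * (e * A + i0) :=
    lt_of_lt_of_le (by positivity) hY155
  have hi1 : 0 < r + e * γ * n := by
    have h1 : 0 ≤ G * (e * A + i0) := by positivity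
    have h2 : 0 < α * c * (r + e * γ * n) := by
      have : α * c * (r + e * γ * n) = α * (c * (r + e * γ * n)) := by ring
      rw [this]; linarith only [h1, hY0]
    exact (pos_iff_pos_of_mul_pos h2).1 (by positivity)
  set i : ℤ := r + e * γ * n with hi'
  have hiz : i < G * γ := by
    have h2 : G * (e * A) < G * ((α - 1) * (c * γ)) := mul_lt_mul_of_pos_left L2 G0
    have h3 : (α - 1) * c * i < (α - 1) * c * (G * γ) := by
      calc (α - 1) * c * i = (α - 1) * (c * i) := by ring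
        _ ≤ G * (e * A) := hA1
        _ < G * ((α - 1) * (c * γ)) := h2
        _ = _ := by ring
    exact lt_of_mul_lt_mul_left h3 (by positivity)
  have hk0 : 0 < k := by
    have h1 : 0 < e * k := by
      rw [hk]
      positivity
    exact (pos_iff_pos_of_mul_pos h1).1 e0
  have hka : k < a := by
    have h1 : w * h * ((α - 1) * (c * i)) ≤ w * h * (G * (e * A)) :=
      mul_le_mul_of_nonneg_left hA1 (by positivity)
    have h2 : (α - 1) * i0 < e * a * (α - 1 - w * A) := by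
      calc (α - 1) * i0 < e * A := L3
        _ ≤ e * a * 1 := by rw [mul_one]; exact mul_le_mul_of_nonneg_left haA e0.le
        _ ≤ e * a * (α - 1 - w * A) := mul_le_mul_of_nonneg_left L1 (by positivity)
    have h3 : (α - 1) * c * e * k < (α - 1) * c * e * a := by
      calc (α - 1) * c * e * k = w * h * ((α - 1) * (c * i)) + c * ((α - 1) * i0) := by
            linear_combination (α - 1) * c * hk
        _ < w * h * (G * (e * A)) + c * (e * a * (α - 1 - w * A)) := by
            have := mul_lt_mul_of_pos_left h2 c0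
            linarith only [this, h1]
        _ = (α - 1) * c * e * a := by linear_combination (w * e * A) * hG
    exact lt_of_mul_lt_mul_left h3 (by positivity)
  exact ⟨hY155, hA1, hi1, hiz, hk0, hka⟩

/-- **the middle step**: `e` is given -/
theorem univ_mid (hB : Bg N J Z) {A a c h G γ ξ w i0 e η Lo : ℤ} (hC : UCase w i0 A c h)
    (A0 : 0 < A) (hAJ : A ≤ (J : ℤ) ^ 20) (hc2 : 2 ≤ c) (γ0 : 0 < γ) (h0 : 0 < h) (a0 : 0 < a)
    (hcγ : c * γ ≤ (J : ℤ) ^ 36) (hG : G * h = a * c) (hGJ : (J : ℤ) ^ 1000 ≤ G) (hGN : G ≤ N)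
    (haN : a ≤ N) (hhN : h ≤ N) (hN : A + a + c * (G * γ) = N)
    (hη : γ ∣ ξ * η - 1) (e0 : 0 < e) (he5 : e ≤ (J : ℤ) ^ 5) (he : IsCoprime e (2 * c * h * γ))
    (hi : IsCoprime e i0)
    (ec : ∀ p : ℕ, p.Prime → ¬ (p : ℤ) ∣ 2 → (p : ℤ) ∣ c →
        ((p : ℤ) ∣ h → ¬ (p : ℤ) ∣ A * e + i0) ∧
        ((p : ℤ) ∣ γ → ¬ (p : ℤ) ∣ h → ¬ (p : ℤ) ∣ (A + w * h * η) * e + i0))
    (L1 : w * A + 1 ≤ Lo) (L2 : e * A < Lo * (c * γ)) (L3 : (Lo + 2 * (J : ℤ) ^ 2) * i0 < e * A)
    (L4 : Lo + 2 * (J : ℤ) ^ 2 + 1 ≤ (J : ℤ) ^ 30) :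
    ∃ A' a' a1' ζ : ℤ, 0 < A' ∧ 1 < a' ∧ 1 < a1' ∧ (J : ℤ) ^ 155 ≤ a1' ∧ A' + a' + a1' = N ∧
      SEq6 (NF A a c (G * γ) (G * ξ)) (PG A' a' a1' ζ) := by
  have hJ := hB.J20
  have hJ1 := hB.J1
  have hN1 := hB.N1
  set j : ℤ := (J : ℤ) with hj
  have j0 : 0 < j := by linarith
  have c0 : 0 < c := by linarith
  have G0 : 0 < G := lt_of_lt_of_le (by positivity) hGJ
  -- the data of the case
  have hw : w = 1 ∨ w = 2 := by
    rcases hC with h | h | h
    · exact Or.inr h.1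
    · exact Or.inl h.1
    · exact Or.inl h.1
  have w0 : 0 < w := by rcases hw with rfl | rfl <;> norm_num
  have w2 : w ≤ 2 := by rcases hw with rfl | rfl <;> norm_num
  have hi0 : 0 ≤ i0 ∧ i0 ≤ 2 := by
    rcases hC with h | h | h
    · rw [h.2.1]; norm_num
    · rw [h.2.1]; norm_num
    · rcases h.2.1 with h | h <;> rw [h] <;> norm_num
  -- coprimality of `e`
  have he2 : IsCoprime e 2 := he.of_isCoprime_of_dvd_right ⟨c * h * γ, by ring⟩
  have hec : IsCoprime e c := he.of_isCoprime_of_dvd_right ⟨2 * h * γ, by ring⟩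
  have heh : IsCoprime e h := he.of_isCoprime_of_dvd_right ⟨2 * c * γ, by ring⟩
  have heγ : IsCoprime e γ := he.of_isCoprime_of_dvd_right ⟨2 * c * h, by ring⟩
  have hew : IsCoprime e w := by
    rcases hw with rfl | rfl
    · exact isCoprime_one_right
    · exact he2
  have heo : ¬ (2 : ℤ) ∣ e := fun h => by
    have h2 : IsUnit (2 : ℤ) := he2.isUnit_of_dvd' h (dvd_refl _)
    rcases Int.isUnit_iff.1 h2 with h3 | h3 <;> omega
  obtain ⟨r, k1, j1, hk1, hj1, hr⟩ := univ_r (i0 := i0) (hew.mul_right heh) heγ hη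
  set W0 : ℤ := A + k1 + c * r with hW0
  obtain ⟨c2, q1, q2, q3, q4⟩ := univ_par hC heo hG hk1 hj1 hW0
  -- `W0` at the primes of `c`
  have eW0 : e * W0 = A * e + i0 + r * (w * h + e * c) := by
    rw [hW0]; linear_combination hk1
  have star : ∀ p : ℕ, p.Prime → (p : ℤ) ∣ c → (p : ℤ) ∣ γ * (w * h + e * c) →
      ¬ (p : ℤ) ∣ W0 := by
    intro p hp hpc hpg hpW
    have hp' := Nat.prime_iff_prime_int.1 hp
    rcases two_or_odd hp with rfl | ⟨hp2, hp2'⟩
    · exact q2 hpc hpg hpW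
    · obtain ⟨f1, f2⟩ := ec p hp hp2' hpc
      have hcw : ∀ x : ℤ, (p : ℤ) ∣ w * x → (p : ℤ) ∣ x := by
        intro x hx
        rcases hw with rfl | rfl
        · rwa [one_mul] at hx
        · exact (hp'.dvd_or_dvd hx).resolve_left hp2'
      by_cases hph : (p : ℤ) ∣ h
      · refine f1 hph ?_
        have e1 : A * e + i0 = e * W0 - r * (w * h + e * c) := by rw [eW0]; ring
        rw [e1]
        exact dvd_sub (hpW.mul_left e)
          ((dvd_add (hph.mul_left w) (hpc.mul_left e)).mul_left r)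
      · have hpγ : (p : ℤ) ∣ γ := by
          rcases hp'.dvd_or_dvd hpg with h1 | h1
          · exact h1
          · exfalso
            exact hph (hcw _ ((dvd_add_left (hpc.mul_left e)).1 h1))
        refine f2 hpγ hph ?_
        have e1 : (A + w * h * η) * e + i0 = e * W0 - w * h * (r - e * η) - r * e * c := by
          rw [eW0]; ring
        rw [e1]
        exact dvd_sub (dvd_sub (hpW.mul_left e) ((hpγ.trans hr).mul_left _)) (hpc.mul_left _)
  -- sizes
  have hpw : ∀ n : ℕ, n ≤ 200 → j ^ n ≤ N := fun n hn => hB.pw hn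
  set M : ℤ := 2 * N with hM
  have hM2 : 2 ≤ M := by linarith
  have hM1 : 1 ≤ M := by linarith
  have hNM : N ≤ M := by linarith
  have hγc : γ ≤ c * γ := by nlinarith
  have hcc : c ≤ c * γ := by nlinarith
  have hcM : c ≤ M := by linarith [hpw 36 (by norm_num)]
  have hγM : γ ≤ M := by linarith [hpw 36 (by norm_num)]
  have heM : e ≤ M := by linarith [hpw 5 (by norm_num)]
  have hhM : h ≤ M := by linarith
  have haM : a ≤ M := by linarith
  have hGM : G ≤ M := by linarith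
  have hwM : w ≤ M := by linarith
  have hwh : w * h + e * c ≤ M ^ 3 := by
    calc w * h + e * c ≤ M * M + M * M := by gcongr
      _ = 2 * M ^ 2 := by ring
      _ ≤ M * M ^ 2 := by gcongr
      _ = M ^ 3 := by ring
  have hwh0 : 0 < w * h + e * c := by positivity
  -- the sieve for `α`
  obtain ⟨α, α1, α2, α3, α4⟩ := univ_al (hB := hB) (a := a) (k0 := k1) (W0 := W0) (A := A)
    (i0 := i0) hw h0 γ0 c0 e0 he q1 (by
      calc 3 * e * (c * h) * (γ * (w * h + e * c)) ≤ M ^ 2 * M * (M * M) * (M * M ^ 3) := by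
            gcongr
            nlinarith
        _ = M ^ 9 := by ring
        _ ≤ M ^ 20 := pow_le_pow_right₀ hM1 (by norm_num)) (Lo + 1)
  have α5 : α ≤ j ^ 30 := by linarith
  have α6 : α - 1 < Lo + 2 * j ^ 2 := by linarith
  have wA0 : 0 < w * A := by positivity
  have α7 : 0 < α - 1 := by linarith
  have α0 : 0 < α := by linarith
  have hA2 : (α - 1) * i0 < e * A :=
    lt_of_le_of_lt (mul_le_mul_of_nonneg_right α6.le hi0.1) L3
  have hαM : α ≤ M := by linarith [hpw 30 (by norm_num)]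
  set P : ℤ := α + w * a + G * e with hP
  set ΩL : ℤ := h * α + (c * i0 - h * w * A) with hΩL
  set ΩM : ℤ := α * c * γ - e * A - i0 with hΩM
  have P0 : 0 < P := by positivity
  have hL0 : 0 < ΩL := by
    have h1 : 0 < h * (α - w * A) := mul_pos h0 (by linarith only [α1, L1])
    have h2 : 0 ≤ c * i0 := mul_nonneg c0.le hi0.1
    have e1 : ΩL = h * (α - w * A) + c * i0 := by rw [hΩL]; ring
    rw [e1]; linarith only [h1, h2]
  have hcγ0 : 0 < c * γ := by positivity
  have hM0 : 0 < ΩM := by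
    have h1 : Lo * (c * γ) ≤ (α - 1) * (c * γ) :=
      mul_le_mul_of_nonneg_right (by linarith only [α1]) hcγ0.le
    have e1 : ΩM = (α - 1) * (c * γ) - e * A + (c * γ - i0) := by rw [hΩM]; ring
    rw [e1]
    have h2 : 2 ≤ c * γ := le_trans hc2 hcc
    linarith only [hi0.2, h1, h2, L2]
  have hjN : j ^ 155 ≤ G := (pow_le_pow_right₀ hJ1 (by norm_num)).trans hGJ
  have haA : A ≤ a := by
    have h1 : G ≤ a * c := by rw [← hG]; exact le_mul_of_one_le_right G0.le h0
    have h2 : a * c ≤ a * j ^ 36 := mul_le_mul_of_nonneg_left (hcc.trans hcγ) a0.le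
    have h3 : j ^ 20 * j ^ 36 ≤ G := by
      rw [← pow_add]; exact (pow_le_pow_right₀ hJ1 (by norm_num)).trans hGJ
    have h4 : A * j ^ 36 ≤ a * j ^ 36 := by
      calc A * j ^ 36 ≤ j ^ 20 * j ^ 36 := mul_le_mul_of_nonneg_right hAJ (by positivity)
        _ ≤ a * j ^ 36 := by linarith only [h1, h2, h3]
    exact le_of_mul_le_mul_right h4 (by positivity)
  set D : ℤ := α * c * e * γ with hD
  set T : ℤ := G * (e * A + i0) + j ^ 155 - α * (c * r) with hT
  have hZn : ΩL * h * ΩM * (P * c) ≤ M ^ 20 := by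
    have z1 : ΩL ≤ M ^ 3 := by
      have : 0 < h * w * A := by positivity
      calc ΩL ≤ h * α + c * i0 := by rw [hΩL]; linarith only [this]
        _ ≤ M * M + M * M :=
            add_le_add (mul_le_mul hhM hαM α0.le (h0.le.trans hhM))
              (mul_le_mul hcM (hi0.2.trans hM2) hi0.1 (c0.le.trans hcM))
        _ = 2 * M ^ 2 := by ring
        _ ≤ M * M ^ 2 := by gcongr
        _ = M ^ 3 := by ring
    have z2 : ΩM ≤ M ^ 3 := by
      have : 0 < e * A := by positivity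
      calc ΩM ≤ α * c * γ := by rw [hΩM]; linarith only [this, hi0.1]
        _ ≤ M * M * M := by gcongr
        _ = M ^ 3 := by ring
    have z3 : P ≤ M ^ 4 := by
      calc P ≤ M * M + M * M + M * M := by
            rw [hP]
            gcongr
            calc α ≤ M := hαM
              _ = M * 1 := by ring
              _ ≤ M * M := by gcongr
        _ = 3 * M ^ 2 := by ring
        _ ≤ M ^ 2 * M ^ 2 := by
            gcongr
            nlinarith only [hM2]
        _ = M ^ 4 := by ring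
    calc ΩL * h * ΩM * (P * c) ≤ M ^ 3 * M * M ^ 3 * (M ^ 4 * M) := by gcongr
      _ = M ^ 12 := by ring
      _ ≤ M ^ 20 := pow_le_pow_right₀ hM1 (by norm_num)
  obtain ⟨n, n1, n2, n3⟩ := univ_n (hB := hB) (G := G) (r := r) (k0 := k1) (W0 := W0) (P := P)
    (a := a) (ΩL := ΩL) (ΩM := ΩM) hw h0 γ0 c0 P0 hL0 hM0 hZn he (fun h3 => by
      by_contra h4
      exact (α4 3 Nat.prime_three).2.2.2 rfl h4 h3) (fun p hp hpe h5 => by
      refine (α4 p hp).1 hpe ?_
      have e1 : c * γ * α - (e * A + i0) = ΩM := by rw [hΩM]; ring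
      rw [e1]; exact h5) (q4 α α3) (T / D + 1)
  set k : ℤ := k1 + w * h * γ * n with hk'
  set jj : ℤ := j1 - e * ξ * n with hjj
  have hk : e * k = w * h * (r + e * γ * n) + i0 := by rw [hk']; linear_combination hk1
  have hje : (r + e * γ * n) * ξ + jj * γ = e := by rw [hjj]; linear_combination hj1
  obtain ⟨w1, w2', w3, w4, w5, w6⟩ := univ_win (j := j) (by linarith only [hJ]) A0 c0 γ0 h0 a0 w0 e0
    hi0.1 hcγ hG hGJ haA he5 (by linarith only [α1, L1])
    (lt_of_lt_of_le L2 (mul_le_mul_of_nonneg_right (by linarith only [α1]) hcγ0.le)) hA2 α5 n1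
    (by linarith only [n2]) hk
  set i : ℤ := r + e * γ * n with hi'
  set W : ℤ := A + k + c * i with hW
  have hWn : W = W0 + γ * (w * h + e * c) * n := by rw [hW, hW0, hk', hi']; ring
  have cW : ∀ p : ℕ, p.Prime → (p : ℤ) ∣ P * c → ¬ (p : ℤ) ∣ W := by
    intro p hp h1 h2
    have hp' := Nat.prime_iff_prime_int.1 hp
    by_cases h3 : (p : ℤ) ∣ γ * (w * h + e * c)
    · have h4 : (p : ℤ) ∣ W0 := by
        have : W0 = W - γ * (w * h + e * c) * n := by rw [hWn]; ring
        rw [this]; exact dvd_sub h2 (h3.mul_right n)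
      rcases hp'.dvd_or_dvd h1 with h5 | h5
      · refine (α4 p hp).2.2.1 h3 h4 ?_
        have : α + (w * a + G * e) = P := by rw [hP]; ring
        rw [this]; exact h5
      · exact star p hp h5 h3 h4
    · refine (n3 p hp).2.2.2 h1 h3 ?_
      have : γ * (w * h + e * c) * n + W0 = W := by rw [hWn]; ring
      rw [this]; exact h2
  have cM : ∀ p : ℕ, p.Prime → (p : ℤ) ∣ α * c * γ - e * A - i0 → ¬ (p : ℤ) ∣ γ →
      ¬ (p : ℤ) ∣ G * γ - i := by
    intro p hp h1 h2 h3
    refine (n3 p hp).2.2.1 h1 h2 ?_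
    have : e * γ * n + (r - G * γ) = -(G * γ - i) := by rw [hi']; ring
    rw [this]; exact h3.neg_right
  have eL : h * (P - w * W) = ΩL + (w * h + e * c) * (a - k) := by
    rw [hP, hW, hΩL]; linear_combination e * hG + c * hk
  have cL : ∀ p : ℕ, p.Prime → (p : ℤ) ∣ a - k → ¬ (p : ℤ) ∣ P - w * W := by
    intro p hp h1 h2
    have hp' := Nat.prime_iff_prime_int.1 hp
    rcases two_or_odd hp with rfl | ⟨hp2, hp2'⟩
    · rcases q3 with ⟨hw', h3⟩ | ⟨hw', h3⟩
      · apply h3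
        have e1 : c2 + (w * a + G * e) = (P - w * W) + w * W - (α - c2) := by rw [hP]; ring
        rw [e1]
        refine dvd_sub (dvd_add h2 ?_) α3
        rw [hw']; exact dvd_mul_right _ _
      · have h4 : (2 : ℤ) ∣ P := by
          have e1 : P = c2 + (w * a + G * e) + (α - c2) := by rw [hP]; ring
          rw [e1]; exact dvd_add h3 α3
        refine cW 2 hp (h4.mul_right c) ?_
        have e1 : W = P - (P - w * W) := by rw [hw']; ring
        rw [e1]; exact dvd_sub h4 h2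
    · have h3 : (p : ℤ) ∣ ΩL := by
        have e1 : ΩL = h * (P - w * W) - (w * h + e * c) * (a - k) := by rw [eL]; ring
        rw [e1]; exact dvd_sub (h2.mul_left h) (h1.mul_left _)
      by_cases h4 : (p : ℤ) ∣ γ ∨ ((p : ℤ) ∣ c ∧ (p : ℤ) ∣ h)
      · have h5 : (p : ℤ) ∣ w * h * γ * n := by
          rcases h4 with h4 | h4
          · exact (h4.mul_left (w * h)).mul_right n
          · exact ((h4.2.mul_left w).mul_right γ).mul_right n
        have h6 : (p : ℤ) ∣ γ * (w * h + e * c) * n := by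
          rcases h4 with h4 | h4
          · exact (h4.mul_right _).mul_right n
          · exact ((dvd_add (h4.2.mul_left w) (h4.1.mul_left e)).mul_left γ).mul_right n
        refine (α4 p hp).2.1 hp2' h4 ?_ ?_
        · have e1 : a - k1 = a - k + w * h * γ * n := by rw [hk']; ring
          rw [e1]; exact dvd_add h1 h5
        · have e1 : α + (w * a + G * e - w * W0) =
              (P - w * W) + w * (γ * (w * h + e * c) * n) := by rw [hP, hWn]; ring
          rw [e1]; exact dvd_add h2 (h6.mul_left w)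
      · push Not at h4
        obtain ⟨hγ, hch⟩ := h4
        by_cases h5 : (p : ℤ) ∣ h
        · have hc' : ¬ (p : ℤ) ∣ c := fun h => hch h h5
          refine (n3 p hp).2.1 h5 ?_ ?_ ?_
          · intro h6
            rcases hp'.dvd_or_dvd h6 with h7 | h7
            · rcases hp'.dvd_or_dvd h7 with h8 | h8
              · exact hp2' h8
              · exact hc' h8
            · exact hγ h7
          · have e1 : a - k1 = a - k + w * h * γ * n := by rw [hk']; ring
            rw [e1]; exact dvd_add h1 (((h5.mul_left w).mul_right γ).mul_right n)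
          · have e1 : -(w * γ * (w * h + e * c)) * n + (P - w * W0) = P - w * W := by
              rw [hWn]; ring
            rw [e1]; exact h2
        · refine (n3 p hp).1 h3 ?_ ?_
          · intro h6
            rcases hp'.dvd_or_dvd h6 with h7 | h7
            · rcases hp'.dvd_or_dvd h7 with h8 | h8
              · exact hp2' h8
              · exact h5 h8
            · exact hγ h7
          · have e1 : w * h * γ * n + (k1 - a) = -(a - k) := by rw [hk']; ring
            rw [e1]; exact h1.neg_right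
  have cop1 : IsCoprime w k := by
    rcases hC with ⟨rfl, rfl, -⟩ | ⟨rfl, -⟩ | ⟨rfl, -⟩
    · refine isCoprime_of_prime fun p hp h1 h2 => ?_
      have h3 : (p : ℤ) ∣ 1 := by
        have e1 : (1 : ℤ) = e * k - 2 * (h * i) := by rw [hk]; ring
        rw [e1]; exact dvd_sub (h1.mul_left e) (h2.mul_right _)
      exact prime_not_dvd_one hp h3
    · exact isCoprime_one_left
    · exact isCoprime_one_left
  have cop2 : IsCoprime jj i := by
    refine isCoprime_of_prime fun p hp h1 h2 => ?_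
    have h3 : (p : ℤ) ∣ e := by
      rw [← hje]; exact dvd_add (h1.mul_right _) (h2.mul_right _)
    have h4 : (p : ℤ) ∣ i0 := by
      have e1 : i0 = e * k - w * h * i := by rw [hk]; ring
      rw [e1]; exact dvd_sub (h3.mul_right _) (h1.mul_left _)
    exact not_dvd_of_isCoprime hi hp h4 h3
  obtain ⟨A', a', a1', ζ, r1, r2, r3, r4, r5, r6⟩ := univ_exit (x := G * ξ) A0 a0 c0 rfl rfl h0 e0
    w0 hi0.1 hG G0 hje hk hP hW cop1 cop2 w3 w4 w5 w6 α7
    (lt_of_lt_of_le (by positivity) w1) w2' hA2 cW cM cL heγ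
  refine ⟨A', a', a1', ζ, r1, r2, r3, ?_, ?_, r6⟩
  · rw [r4]
    have := mul_lt_mul_of_pos_left w4 c0
    linarith only [this, w1]
  · rw [r5, hN]

/-- **the cases with `i0 = 1, 2`** -/
theorem univ_case (hB : Bg N J Z) {A a c h G γ ξ w i0 : ℤ} (hC : UCase w i0 A c h)
    (hi : i0 = 1 ∨ i0 = 2) (hiγ : i0 + 1 ≤ c * γ)
    (A0 : 0 < A) (hAJ : A ≤ (J : ℤ) ^ 20) (hc2 : 2 ≤ c) (γ0 : 0 < γ) (h0 : 0 < h) (a0 : 0 < a)
    (hcγ : c * γ ≤ (J : ℤ) ^ 36) (hG : G * h = a * c) (hGJ : (J : ℤ) ^ 1000 ≤ G) (hGN : G ≤ N)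
    (haN : a ≤ N) (hhN : h ≤ N) (hN : A + a + c * (G * γ) = N) (hγξ : IsCoprime γ ξ) :
    ∃ A' a' a1' ζ : ℤ, 0 < A' ∧ 1 < a' ∧ 1 < a1' ∧ (J : ℤ) ^ 155 ≤ a1' ∧ A' + a' + a1' = N ∧
      SEq6 (NF A a c (G * γ) (G * ξ)) (PG A' a' a1' ζ) := by
  have hJ := hB.J20
  have hJ1 := hB.J1
  have hN1 := hB.N1
  have hp36 : (J : ℤ) ^ 36 ≤ N := hB.pw (by norm_num)
  obtain ⟨u, v, huv⟩ := hγξ
  have hη : γ ∣ ξ * v - 1 := ⟨-u, by linear_combination huv⟩
  have c0 : 0 < c := by linarith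
  have hγc : γ ≤ c * γ := by nlinarith
  have hcc : c ≤ c * γ := by nlinarith
  have hw2 : w = 1 ∨ w = 2 := by
    rcases hC with h | h | h
    · exact Or.inr h.1
    · exact Or.inl h.1
    · exact Or.inl h.1
  obtain ⟨e, e1, e2, e3, e4⟩ := univ_e (hB := hB) (w := w) (A := A) (η := v) h0 γ0 c0 hi (by
    have hM2 : 2 ≤ 2 * N := by linarith
    calc 2 * c * h * γ ≤ 2 * N * (2 * N) * (2 * N) * (2 * N) := by
          gcongr
          · linarith
          · linarith
          · linarith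
      _ = (2 * N) ^ 4 := by ring
      _ ≤ (2 * N) ^ 20 := pow_le_pow_right₀ (by linarith) (by norm_num)) ((J : ℤ) ^ 4)
  set j : ℤ := (J : ℤ) with hj
  have j0 : 0 < j := by linarith
  have e0 : 0 < e := lt_of_lt_of_le (by positivity) e1
  have he5 : e ≤ j ^ 5 := by
    have h1 : j ^ 2 ≤ j ^ 4 := pow_le_pow_right₀ hJ1 (by norm_num)
    have h2 : 2 * j ^ 4 ≤ j * j ^ 4 := mul_le_mul_of_nonneg_right (by linarith) (by positivity)
    have h3 : j * j ^ 4 = j ^ 5 := by ring
    linarith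
  have hei : IsCoprime e i0 := by
    rcases hi with rfl | rfl
    · exact isCoprime_one_right
    · exact e3.of_isCoprime_of_dvd_right ⟨c * h * γ, by ring⟩
  have hi0 : 0 < i0 ∧ i0 ≤ 2 := by rcases hi with rfl | rfl <;> norm_num
  have hw0 : 0 < w ∧ w ≤ 2 := by rcases hw2 with rfl | rfl <;> norm_num
  have hcγ0 : 0 < c * γ := by positivity
  have heA : j ^ 4 ≤ e * A := by
    calc j ^ 4 = j ^ 4 * 1 := by ring
      _ ≤ e * A := by gcongr; linarith
  have hA5 : e * A ≤ j ^ 25 := by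
    calc e * A ≤ j ^ 5 * j ^ 20 := by gcongr
      _ = j ^ 25 := by ring
  have hj2 : 2 ^ 20 * j ^ 2 ≤ j ^ 3 := by
    calc 2 ^ 20 * j ^ 2 ≤ j * j ^ 2 := by gcongr
      _ = j ^ 3 := by ring
  have hj3 : 2 ^ 20 * j ^ 3 ≤ j ^ 4 := by
    calc 2 ^ 20 * j ^ 3 ≤ j * j ^ 3 := by gcongr
      _ = j ^ 4 := by ring
  have hj22 : 1 ≤ j ^ 2 := one_le_pow₀ hJ1
  have hd1 : c * γ * (e * A / (c * γ)) ≤ e * A := Int.mul_ediv_self_le hcγ0.ne'
  have hd2 : e * A < c * γ * (e * A / (c * γ)) + c * γ := Int.lt_mul_ediv_self_add hcγ0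
  have hd0 : 0 ≤ e * A / (c * γ) := Int.ediv_nonneg (by positivity) hcγ0.le
  refine univ_mid hB hC A0 hAJ hc2 γ0 h0 a0 hcγ hG hGJ hGN haN hhN hN hη e0 he5 e3 hei e4
    (Lo := max (w * A + 1) (e * A / (c * γ) + 1)) (le_max_left _ _) ?_ ?_ ?_
  · have h1 : (e * A / (c * γ) + 1) * (c * γ) ≤
        max (w * A + 1) (e * A / (c * γ) + 1) * (c * γ) :=
      mul_le_mul_of_nonneg_right (le_max_right _ _) hcγ0.le
    nlinarith only [h1, hd2]
  · rcases max_choice (w * A + 1) (e * A / (c * γ) + 1) with h1 | h1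
    · rw [h1]
      have h2 : (w * A + 1 + 2 * j ^ 2) * i0 ≤ (2 * A + 1 + 2 * j ^ 2) * 2 := by
        have : w * A ≤ 2 * A := mul_le_mul_of_nonneg_right hw0.2 A0.le
        have h3 : 0 ≤ 2 * A + 1 + 2 * j ^ 2 := by positivity
        calc (w * A + 1 + 2 * j ^ 2) * i0 ≤ (2 * A + 1 + 2 * j ^ 2) * i0 :=
              mul_le_mul_of_nonneg_right (by linarith) hi0.1.le
          _ ≤ _ := mul_le_mul_of_nonneg_left hi0.2 h3
      have h4 : j ^ 4 * A ≤ e * A := mul_le_mul_of_nonneg_right e1 A0.le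
      nlinarith
    · rw [h1]
      have h2 : (e * A / (c * γ)) * (i0 + 1) ≤ e * A := by
        calc (e * A / (c * γ)) * (i0 + 1) ≤ (e * A / (c * γ)) * (c * γ) :=
              mul_le_mul_of_nonneg_left hiγ hd0
          _ ≤ e * A := by linarith
      have h3 : (1 + 2 * j ^ 2) * i0 * (i0 + 1) < e * A := by
        rcases hi with rfl | rfl
        · nlinarith
        · nlinarith
      have h4 : ((e * A / (c * γ)) * i0) * (i0 + 1) ≤ e * A * i0 := by
        calc ((e * A / (c * γ)) * i0) * (i0 + 1) = ((e * A / (c * γ)) * (i0 + 1)) * i0 := by ring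
          _ ≤ e * A * i0 := mul_le_mul_of_nonneg_right h2 hi0.1.le
      have h5 : ((e * A / (c * γ) + 1 + 2 * j ^ 2) * i0) * (i0 + 1) < e * A * (i0 + 1) := by
        nlinarith
      exact lt_of_mul_lt_mul_right h5 (by linarith)
  · have h1 : max (w * A + 1) (e * A / (c * γ) + 1) ≤ 2 * j ^ 25 + 1 := by
      apply max_le
      · have h2 : w * A ≤ 2 * j ^ 20 := by
          calc w * A ≤ 2 * A := mul_le_mul_of_nonneg_right hw0.2 A0.le
            _ ≤ 2 * j ^ 20 := by linarith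
        have h3 : j ^ 20 ≤ j ^ 25 := pow_le_pow_right₀ hJ1 (by norm_num)
        linarith
      · have h2 : e * A / (c * γ) ≤ e * A := Int.ediv_le_self _ (by positivity)
        have h3 : 0 ≤ j ^ 25 := by positivity
        linarith
    have h2 : j ^ 2 ≤ j ^ 25 := pow_le_pow_right₀ hJ1 (by norm_num)
    have h3 : 8 * j ^ 25 ≤ j ^ 30 := by
      calc 8 * j ^ 25 ≤ j * j ^ 25 := mul_le_mul_of_nonneg_right (by linarith) (by positivity)
        _ = j ^ 26 := by ring
        _ ≤ j ^ 30 := pow_le_pow_right₀ hJ1 (by norm_num)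
    linarith

/-- **CASE (C)**: a large common divisor `G` of `z`, `x` and `a c` -/
theorem univ11 (hB : Bg N J Z) (hJN : (J : ℤ) ^ 2000 ≤ N) {A a c z x G : ℤ} (A0 : 0 < A)
    (hAJ : A ≤ (J : ℤ) ^ 20) (a1 : 1 < a) (hc2 : 2 ≤ c) (hz : 1 < z) (G0 : 0 < G) (Gz : G ∣ z)
    (Gx : G ∣ x) (Gac : G ∣ a * c) (h1 : c * z ≤ G * (J : ℤ) ^ 36)
    (h2 : a * c ≤ G * (J : ℤ) ^ 250) (hN : A + a + c * z = N) :
    ∃ A' a' a1' ζ : ℤ, 0 < A' ∧ 1 < a' ∧ 1 < a1' ∧ (J : ℤ) ^ 155 ≤ a1' ∧ A' + a' + a1' = N ∧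
      SEq6 (NF A a c z x) (PG A' a' a1' ζ) := by
  have hJ := hB.J20
  have hJ1 := hB.J1
  have c0 : 0 < c := by linarith
  have hac : 0 < a * c := by positivity
  -- the full common divisor
  set G1 : ℤ := (Int.gcd (Int.gcd z x : ℤ) (a * c) : ℤ) with hG1
  have G10 : 0 < G1 := by
    have h3 : Int.gcd (Int.gcd z x : ℤ) (a * c) ≠ 0 := by
      intro h
      exact hac.ne' (Int.gcd_eq_zero_iff.1 h).2
    omega
  have G1z : G1 ∣ z := (Int.gcd_dvd_left ..).trans (Int.gcd_dvd_left ..)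
  have G1x : G1 ∣ x := (Int.gcd_dvd_left ..).trans (Int.gcd_dvd_right ..)
  have G1ac : G1 ∣ a * c := Int.gcd_dvd_right ..
  have hmax : ∀ d : ℤ, d ∣ z → d ∣ x → d ∣ a * c → d ∣ G1 := fun d d1 d2 d3 =>
    Int.dvd_coe_gcd (Int.dvd_coe_gcd d1 d2) d3
  have hGG : G ≤ G1 := Int.le_of_dvd G10 (hmax G Gz Gx Gac)
  set j : ℤ := (J : ℤ) with hj
  have j0 : 0 < j := by linarith
  have h1' : c * z ≤ G1 * j ^ 36 := h1.trans (mul_le_mul_of_nonneg_right hGG (by positivity))
  have h2' : a * c ≤ G1 * j ^ 250 := h2.trans (mul_le_mul_of_nonneg_right hGG (by positivity))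
  obtain ⟨γ, hγ⟩ := G1z
  obtain ⟨ξ0, hξ0⟩ := G1x
  obtain ⟨h, hh⟩ := G1ac
  have γ0 : 0 < γ := by
    have h3 : 0 < G1 * γ := by rw [← hγ]; linarith
    exact (pos_iff_pos_of_mul_pos h3).1 G10
  have h0 : 0 < h := by
    have h3 : 0 < G1 * h := by rw [← hh]; exact hac
    exact (pos_iff_pos_of_mul_pos h3).1 G10
  -- the shear
  obtain ⟨s, hs⟩ := exists_gcd_add (y := ξ0) (G := h) (F := γ) γ0.ne'
  set ξ : ℤ := ξ0 + s * h with hξ
  have hγξ : IsCoprime γ ξ := by
    refine isCoprime_of_prime fun p hp k1 k2 => ?_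
    obtain ⟨k3, k4⟩ := hs p k2 k1
    have k5 : G1 * (p : ℤ) ∣ G1 := hmax _ (by rw [hγ]; exact mul_dvd_mul_left _ k2)
      (by rw [hξ0]; exact mul_dvd_mul_left _ k3) (by rw [hh]; exact mul_dvd_mul_left _ k4)
    have k6 : G1 * (p : ℤ) ∣ G1 * 1 := by rwa [mul_one]
    exact prime_not_dvd_one hp ((mul_dvd_mul_iff_left G10.ne').1 k6)
  have hsh : SEq6 (NF A a c z x) (NF A a c (G1 * γ) (G1 * ξ)) := by
    have := NL.shear (A := A) (a := a) (m := (x, c)) (q := (z, 0)) (NF.ok A0 a1 c0 hz) s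
    simp only [mul_zero, add_zero] at this
    have e1 : G1 * ξ = x + s * a * c := by rw [hξ, hξ0]; linear_combination (-s) * hh
    rw [e1, ← hγ]
    exact this
  -- sizes
  have a0 : 0 < a := by linarith
  have hcγ : c * γ ≤ j ^ 36 := by
    have h3 : G1 * (c * γ) ≤ G1 * j ^ 36 := by
      calc G1 * (c * γ) = c * z := by rw [hγ]; ring
        _ ≤ _ := h1'
    exact le_of_mul_le_mul_left h3 G10
  have hhJ : h ≤ j ^ 250 := by
    have h3 : G1 * h ≤ G1 * j ^ 250 := by rw [← hh]; exact h2'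
    exact le_of_mul_le_mul_left h3 G10
  have hcz : 0 < c * z := by positivity
  have hzN : z ≤ N := by nlinarith
  have haN : a ≤ N := by linarith
  have hGN : G1 ≤ N := (Int.le_of_dvd (by linarith) ⟨γ, hγ⟩).trans hzN
  have hhN : h ≤ N := hhJ.trans ((pow_le_pow_right₀ hJ1 (by norm_num)).trans hJN)
  have hGJ : j ^ 1000 ≤ G1 := by
    by_contra h3
    push Not at h3
    have h4 : N ≤ j ^ 20 + G1 * j ^ 250 + G1 * j ^ 36 := by
      have : a ≤ a * c := le_mul_of_one_le_right a0.le (by linarith)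
      linarith
    have h5 : G1 * j ^ 250 ≤ j ^ 1000 * j ^ 250 := mul_le_mul_of_nonneg_right h3.le (by positivity)
    have h6 : G1 * j ^ 36 ≤ j ^ 1000 * j ^ 36 := mul_le_mul_of_nonneg_right h3.le (by positivity)
    have h7 : j ^ 1000 * j ^ 36 ≤ j ^ 1250 := by
      rw [← pow_add]; exact pow_le_pow_right₀ hJ1 (by norm_num)
    have h8 : j ^ 20 ≤ j ^ 1250 := pow_le_pow_right₀ hJ1 (by norm_num)
    have h9 : j ^ 1000 * j ^ 250 = j ^ 1250 := by ring
    have h10 : 4 * j ^ 1250 ≤ j * j ^ 1250 :=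
      mul_le_mul_of_nonneg_right (by linarith) (by positivity)
    have h11 : j * j ^ 1250 ≤ j ^ 2000 := by
      calc j * j ^ 1250 = j ^ 1251 := by ring
        _ ≤ j ^ 2000 := pow_le_pow_right₀ hJ1 (by norm_num)
    have h12 : 0 < j ^ 1250 := by positivity
    linarith
  have hN' : A + a + c * (G1 * γ) = N := by rw [← hγ]; exact hN
  have hN1 := hB.N1
  suffices hmain : ∃ A' a' a1' ζ : ℤ, 0 < A' ∧ 1 < a' ∧ 1 < a1' ∧ (J : ℤ) ^ 155 ≤ a1' ∧
      A' + a' + a1' = N ∧ SEq6 (NF A a c (G1 * γ) (G1 * ξ)) (PG A' a' a1' ζ) by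
    obtain ⟨A', a', a1', ζ, r1, r2, r3, r4, r5, r6⟩ := hmain
    exact ⟨A', a', a1', ζ, r1, r2, r3, r4, r5, hsh.trans r6⟩
  have hcγ2 : 2 ≤ c * γ := by nlinarith
  by_cases k1 : ¬ (2 : ℤ) ∣ c ∨ (2 : ℤ) ∣ A
  · exact univ_case hB (w := 2) (i0 := 1) (Or.inl ⟨rfl, rfl, k1⟩) (Or.inl rfl) (by linarith) A0
      hAJ hc2 γ0 h0 a0 hcγ hh.symm hGJ hGN haN hhN hN' hγξ
  · push Not at k1
    by_cases k2 : (2 : ℤ) ∣ h
    · by_cases k3 : 3 ≤ c * γ
      · exact univ_case hB (w := 1) (i0 := 2) (Or.inr (Or.inr ⟨rfl, Or.inr rfl, k1.1, k1.2, k2⟩))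
          (Or.inr rfl) (by linarith) A0 hAJ hc2 γ0 h0 a0 hcγ hh.symm hGJ hGN haN hhN hN' hγξ
      · -- `c = 2`, `γ = 1`
        have k4 : c = 2 := by nlinarith
        obtain ⟨u, v, huv⟩ := hγξ
        have hj2 : 1 ≤ j ^ 2 := one_le_pow₀ hJ1
        refine univ_mid hB (w := 1) (i0 := 0) (e := 1) (η := v) (Lo := A + 1)
          (Or.inr (Or.inr ⟨rfl, Or.inl rfl, k1.1, k1.2, k2⟩)) A0 hAJ hc2 γ0 h0 a0 hcγ hh.symm hGJ
          hGN haN hhN hN' ⟨-u, by linear_combination huv⟩ one_pos (one_le_pow₀ hJ1)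
          isCoprime_one_left isCoprime_one_left (fun p hp p2 pc => ?_) (by linarith)
          (by nlinarith) (by linarith) ?_
        · exact absurd (k4 ▸ pc) p2
        · have h8 : j ^ 2 ≤ j ^ 20 := pow_le_pow_right₀ hJ1 (by norm_num)
          have h9 : 8 * j ^ 20 ≤ j ^ 30 := by
            calc 8 * j ^ 20 ≤ j * j ^ 20 := mul_le_mul_of_nonneg_right (by linarith) (by positivity)
              _ = j ^ 21 := by ring
              _ ≤ j ^ 30 := pow_le_pow_right₀ hJ1 (by norm_num)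
          linarith
    · exact univ_case hB (w := 1) (i0 := 1) (Or.inr (Or.inl ⟨rfl, rfl, k1.1, k1.2, k2⟩))
        (Or.inl rfl) (by linarith) A0 hAJ hc2 γ0 h0 a0 hcγ hh.symm hGJ hGN haN hhN hN' hγξ

end Pool.Agent.H4G.Six
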