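import Pool.Agent.H4G.Six.D2.Big88

/-!
# Content 1 leads to contents (1,1), frame (helper88)

From the two end cases (`LongStmt`: the first torus is much larger; `CommStmt`: the commensurable
case) every normal form leads to contents (1,1) with a large torus or a small parallelogram.
-/

set_option autoImplicit false

namespace Pool.Agent.H4G.Six

open Pool.Agent.H4G

variable {N : ℤ} {J Z : ℕ} {A a c z x : ℤ}

/-- the state leads to contents (1,1) inside the range of `c11all` -/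
def Fin88 (N : ℤ) (J : ℕ) (S : St6) : Prop := ∃ A' a' a1' ζ : ℤ, 0 < A' ∧ 1 < a' ∧ 1 < a1' ∧
  A' + a' + a1' = N ∧ SEq6 S (PG A' a' a1' ζ) ∧
  (A' * (J : ℤ) ^ 24 ≤ N ∨ (J : ℤ) ^ 155 ≤ a' ∨ (J : ℤ) ^ 155 ≤ a1')

theorem Fin88.of {S S' : St6} (h : SEq6 S S') (h' : Fin88 N J S') : Fin88 N J S := by
  obtain ⟨A', a', a1', ζ, k1, k2, k3, k4, k5, k6⟩ := h'
  exact ⟨A', a', a1', ζ, k1, k2, k3, k4, h.trans k5, k6⟩

/-- a normal form with `c = 1` -/
theorem PG_eq_NF (A a a1 ζ : ℤ) : PG A a a1 ζ = NF A a 1 a1 ζ := by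
  have h1 : lat ((0, 1) : Z2) (a, 0) = Ld (0, 1) a := by
    rw [lat_eq_Ld isCoprime_one_right]
    congr 1
    simp [cr]
  have h2 : lat ((ζ, 1) : Z2) (a1, 0) = Ld (ζ, 1) a1 := by
    rw [lat_eq_Ld isCoprime_one_right]
    congr 1
    simp [cr]
  rw [NF, h1, h2]
  rfl

/-- the case where the first torus is much larger -/
def LongStmt (N : ℤ) (J T : ℕ) : Prop := ∀ A a c z x G : ℤ, 0 < A → A ≤ (J : ℤ) ^ 20 →
  2 ≤ c → 1 < z → 0 < G → G ∣ z → G ∣ x → G ∣ a * c → c * z ≤ G * (J : ℤ) ^ 36 →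
  (J : ℤ) ^ T * (c * z) ≤ a → A + a + c * z = N → Fin88 N J (NF A a c z x)

/-- the commensurable case -/
def CommStmt (N : ℤ) (J : ℕ) : Prop := ∀ A a c z x G : ℤ, 0 < A → A ≤ (J : ℤ) ^ 20 →
  1 < a → 2 ≤ c → 1 < z → 0 < G → G ∣ z → G ∣ x → G ∣ a * c → c * z ≤ G * (J : ℤ) ^ 36 →
  a * c ≤ G * (J : ℤ) ^ 250 → A + a + c * z = N → Fin88 N J (NF A a c z x)

/-- a state of content 1 with maximal first area -/
theorem b1_max (hB : Bg N J Z) {T : ℕ} (hT : T ≤ 150)
    (hl : LongStmt N J T) (hcm : CommStmt N J) (hA : 0 < A) (ha : 1 < a)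
    (hc : 0 < c) (hz : 1 < z) (h3 : 3 ≤ c * z) (hN : A + a + c * z = N)
    (hp : ¬ Prog A a c z x) : Fin88 N J (NF A a c z x) := by
  have hJ := hB.J1
  obtain ⟨G, g1, g2, g3, g4, g5, g6⟩ := amax_shear hB hA ha hc hz h3 hN hp
  rcases (show c = 1 ∨ 2 ≤ c by omega) with h1 | h1
  · subst h1
    refine ⟨A, a, z, x, hA, ha, hz, by linarith, ?_, Or.inl ?_⟩
    · rw [PG_eq_NF]
      exact (NF.ok hA ha one_pos hz).seq
    · have h4 : A * (J : ℤ) ^ 24 ≤ (J : ℤ) ^ 20 * (J : ℤ) ^ 24 :=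
        mul_le_mul_of_nonneg_right g6 (by positivity)
      have e : (J : ℤ) ^ 20 * (J : ℤ) ^ 24 = (J : ℤ) ^ 44 := by ring
      have := hB.pw (n := 44) (by norm_num)
      linarith
  · rcases le_or_gt ((J : ℤ) ^ T * (c * z)) a with h4 | h4
    · exact hl A a c z x G hA g6 h1 hz g1 g2 g3 g4 g5 h4 hN
    · refine hcm A a c z x G hA g6 ha h1 hz g1 g2 g3 g4 g5 ?_ hN
      -- `c ≤ J ^ 36`
      have hGz : G ≤ z := Int.le_of_dvd (by linarith) g2
      have hc36 : c ≤ (J : ℤ) ^ 36 := by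
        have h5 : G * c ≤ G * (J : ℤ) ^ 36 := by
          have h6 : c * G ≤ c * z := mul_le_mul_of_nonneg_left hGz hc.le
          linarith
        exact le_of_mul_le_mul_left h5 g1
      have h7 : a * c ≤ (J : ℤ) ^ T * (c * z) * c := mul_le_mul_of_nonneg_right h4.le hc.le
      have h8 : (J : ℤ) ^ T * (c * z) * c ≤ (J : ℤ) ^ T * (G * (J : ℤ) ^ 36) * (J : ℤ) ^ 36 := by
        refine mul_le_mul ?_ hc36 hc.le (by positivity)
        exact mul_le_mul_of_nonneg_left g5 (by positivity)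
      have e : (J : ℤ) ^ T * (G * (J : ℤ) ^ 36) * (J : ℤ) ^ 36 = G * (J : ℤ) ^ (T + 72) := by
        rw [pow_add]; ring
      have h9 : G * (J : ℤ) ^ (T + 72) ≤ G * (J : ℤ) ^ 250 :=
        mul_le_mul_of_nonneg_left (pow_le_pow_right₀ hJ (by omega)) g1.le
      linarith

/-- **CONTENT 1 LEADS TO CONTENTS (1,1)**, from the two end cases -/
theorem b1_of (hB : Bg N J Z) (hJ2 : (J : ℤ) ^ 2000 ≤ N) {T : ℕ} (hT : T ≤ 150)
    (hl : LongStmt N J T) (hcm : CommStmt N J) : ∀ n : ℕ, ∀ A a c z x : ℤ, 0 < A → 1 < a →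
    0 < c → 1 < z → A + a + c * z = N → (3 ≤ a ∨ 3 ≤ c * z) → N - a ≤ n →
    Fin88 N J (NF A a c z x) := by
  intro n
  induction n with
  | zero =>
    intro A a c z x hA ha hc hz hN _ hn
    have : 0 < c * z := by positivity
    push_cast at hn
    linarith
  | succ n ih =>
    intro A a c z x hA ha hc hz hN h3 hn
    push_cast at hn
    rcases lt_or_ge (c * z) 3 with h4 | h4
    · -- `c = 1`, `z = 2`
      have h5 : 3 ≤ a := by
        rcases h3 with h | h
        · exact h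
        · linarith
      have hc1 : c = 1 := by
        by_contra h
        have h6 : 2 ≤ c := by omega
        have : 2 * 2 ≤ c * z := mul_le_mul h6 (by linarith) (by norm_num) (by linarith)
        linarith
      subst hc1
      have hz2 : z = 2 := by linarith
      subst hz2
      have hpg : SEq6 (NF A a 1 2 x) (PG A a 2 x) := by
        rw [PG_eq_NF]
        exact (NF.ok hA ha one_pos hz).seq
      rcases le_or_gt ((J : ℤ) ^ 155) a with h6 | h6
      · exact ⟨A, a, 2, x, hA, ha, by norm_num, by linarith, hpg, Or.inr (Or.inl h6)⟩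
      · have hs : SEq6 (NF A a 1 2 x) (NF A 2 1 a (-x)) := by
          rw [← PG_eq_NF A 2 a (-x)]
          exact hpg.trans (PG.swap hA ha (by norm_num) (by rw [add_neg_cancel]; exact dvd_zero _))
        have hK : (2 : ℤ) ≤ (J : ℤ) ^ 155 := by linarith
        obtain ⟨A', a', c', z', x', k1, k2, k3, k4, k5, k6⟩ := big_step (x := -x) hB hJ2 hA
          (show (1 : ℤ) < 2 by norm_num) one_pos ha (by linarith) (by linarith) hK
          (by linarith)
        refine Fin88.of (hs.trans k6) ?_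
        exact ih A' a' c' z' x' k1 (by linarith) k3 k4 k5 (Or.inl (by linarith)) (by linarith)
    · by_cases hp : Prog A a c z x
      · obtain ⟨A', a', c', z', x', k1, k2, k3, k4, k5, k6⟩ := hp
        refine Fin88.of k6 ?_
        exact ih A' a' c' z' x' k1 (by linarith) k3 k4 (by rw [k5, hN]) (Or.inl (by linarith))
          (by linarith)
      · exact b1_max hB hT hl hcm hA ha hc hz h4 hN hp

/-- **CONTENT 1 LEADS TO CONTENTS (1,1)**, from the two end cases -/
theorem b1_of' (hB : Bg N J Z) (hJ2 : (J : ℤ) ^ 2000 ≤ N) {T : ℕ} (hT : T ≤ 150)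
    (hl : LongStmt N J T) (hcm : CommStmt N J) (hA : 0 < A) (ha : 1 < a) (hc : 0 < c)
    (hz : 1 < z) (hN : A + a + c * z = N) (h3 : 3 ≤ a ∨ 3 ≤ c * z) :
    Fin88 N J (NF A a c z x) :=
  b1_of hB hJ2 hT hl hcm (N - a).toNat A a c z x hA ha hc hz hN h3 (Int.self_le_toNat _)

end Pool.Agent.H4G.Six
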