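import Pool.Agent.H4G.Six.D2.GlueB1
import Pool.Agent.H4G.Six.D2.B1of88

/-!
# One content 1 leads to an end state, from the two end cases (helper2)
-/

set_option autoImplicit false

namespace Pool.Agent.H4G.Six

open Pool.Agent.H4G

theorem b111_of88 {N : ℤ} {J Z T : ℕ} (hB : Bg N J Z) (hJ : (J : ℤ) ^ 2000 ≤ N) (hT : T ≤ 150)
    (h1 : LongStmt N J T) (h2 : CommStmt N J) : B111 N J :=
  fun _ _ _ _ _ hA ha hc hz hN h3 => b1_of' hB hJ hT h1 h2 hA ha hc hz hN h3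

/-- **a tree with one content 1 leads to an end state** (from the two end cases) -/
theorem toEnd6_of_one88 {N : ℕ} {O : PO (Fin N)} {J Z T : ℕ} (hB : Bg (N : ℤ) J Z)
    (hJ : (J : ℤ) ^ 2000 ≤ N) (hT : T ≤ 150) (h1 : LongStmt N J T) (h2 : CommStmt N J)
    (hO : Odd6 O) {u v l q m s : Z2} (hc : Has6 O (u, v, l, q, m, s))
    (hN : vol6 (u, v, l, q, m, s) = N) (h : ct u l q = 1 ∨ ct u m s = 1)
    (h3 : 3 ≤ cr u l + cr q l ∨ 3 ≤ cr u m + cr s m) : ToEnd6 O :=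
  toEnd6_of_one hB (b111_of88 hB hJ hT h1 h2) hO hc hN h h3

end Pool.Agent.H4G.Six
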