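import Pool.Agent.H4G.Six.D2.LongStmt35
import Pool.Agent.H4G.Six.D2.Comm97
import Pool.Agent.H4G.Six.D2.GlueB1b

/-!
# Content 1 leads to contents (1,1): the theorem (helper88, helper35, helper97)
-/

set_option autoImplicit false

namespace Pool.Agent.H4G.Six

open Pool.Agent.H4G

variable {N : ℤ} {J Z : ℕ}

/-- **CONTENT 1 LEADS TO CONTENTS (1,1)** -/
theorem b1_11 (hB : Bg N J Z) (hJN : (J : ℤ) ^ 2000 ≤ N) {A a c z x : ℤ} (hA : 0 < A)
    (ha : 1 < a) (hc : 0 < c) (hz : 1 < z) (hN : A + a + c * z = N)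
    (h3 : 3 ≤ a ∨ 3 ≤ c * z) : Fin88 N J (NF A a c z x) :=
  b1_of' hB hJN (by norm_num) (longStmt hB hJN) (commStmt hB hJN) hA ha hc hz hN h3

/-- **a tree with one content 1 leads to an end state** -/
theorem toEnd6_of_one111 {N : ℕ} {O : PO (Fin N)} {J Z : ℕ} (hB : Bg (N : ℤ) J Z)
    (hJN : (J : ℤ) ^ 2000 ≤ N) (hO : Odd6 O) {u v l q m s : Z2}
    (hc : Has6 O (u, v, l, q, m, s)) (hN : vol6 (u, v, l, q, m, s) = N)
    (h : ct u l q = 1 ∨ ct u m s = 1)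
    (h3 : 3 ≤ cr u l + cr q l ∨ 3 ≤ cr u m + cr s m) : ToEnd6 O :=
  toEnd6_of_one88 hB hJN (T := 130) (by norm_num) (longStmt hB hJN) (commStmt hB hJN) hO hc hN
    h h3

end Pool.Agent.H4G.Six
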