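import Pool.Agent.H4G.Six.D2F
import Pool.Agent.H4G.Six.Can.C11
import Pool.Agent.H4G.Six.RoomEnd
import Pool.Agent.H4G.Six.NR.Frame
import Pool.Agent.H4G.Six.Anti6

/-!
# D2, content 1: the frame (helper2)

`B1 O N A a g F0 y u l`: the origami `O` has trees with `u × l = 1`, `v = A l`, `L = ⟨l, a u⟩`,
`M = ⟨F₀ l, g u + y l⟩` (area `g F₀`). `B1.exit`: all centres `z = X u + k W l`, `W = A + 1 + F`
over the slits `l` and `m = i u + F l`, with both contents.
-/

set_option autoImplicit false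

namespace Pool.Agent.H4G.Six

open Pool.Agent.H4G

variable {X : Type} {O : PO X} {N A a g F0 y : ℤ} {u v l q m s : Z2}

/-- the tree with content 1: `v = A l`, `q = (a - 1) u`, `M = ⟨F₀ l, g u + y l⟩` -/
structure B1 (O : PO X) (N A a g F0 y : ℤ) (u l : Z2) : Prop where
  one : cr u l = 1
  A0 : 0 < A
  a2 : 2 ≤ a
  g0 : 0 < g
  F00 : 0 < F0
  sum : A + a + g * F0 = N
  has : ∃ m s, Has6 O (u, A • l, l, (a - 1) • u, m, s) ∧
    lat m (u + s) = lat (F0 • l) (g • u + y • l)

/-- **the end form**: one tree with contents `(1, 1)` and `A J²⁴ ≤ N` -/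
def End11 (O : PO X) (N J : ℤ) : Prop :=
  ∃ u v l q m s, Has6 O (u, v, l, q, m, s) ∧ vol6 (u, v, l, q, m, s) = N ∧ ct u l q = 1 ∧
    ct u m s = 1 ∧ cr u v * J ^ 24 ≤ N

/-- products of combinations of `u` and `l` -/
theorem cr_ul (h : cr u l = 1) (x y x' y' : ℤ) :
    cr (x • u + y • l) (x' • u + y' • l) = x * y' - y * x' := by
  have h' : u.1 * l.2 - u.2 * l.1 = 1 := h
  simp only [cr, Prod.fst_add, Prod.snd_add, Prod.smul_fst, Prod.smul_snd, smul_eq_mul]
  linear_combination (x * y' - y * x') * h'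

theorem cr_ul_u (h : cr u l = 1) (x y : ℤ) : cr u (x • u + y • l) = y := by
  have := cr_ul h 1 0 x y
  simpa using this

theorem cr_ul_l (h : cr u l = 1) (x y : ℤ) : cr (x • u + y • l) l = x := by
  have := cr_ul h x y 0 1
  simpa using this

/-- coordinates -/
theorem coord_ul (h : cr u l = 1) (w : Z2) : w = (cr w l) • u + (cr u w) • l := by
  have h' : u.1 * l.2 - u.2 * l.1 = 1 := h
  ext <;> simp only [cr, Prod.fst_add, Prod.snd_add, Prod.smul_fst, Prod.smul_snd, smul_eq_mul]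
  · linear_combination (-w.1) * h'
  · linear_combination (-w.2) * h'

/-- **THE SLITS of `M`**: `(i u + F l, i' u + F' l)` a positive basis of `M`, `0 < F < g F₀`. -/
theorem B1.slit (h : B1 O N A a g F0 y u l) {i F i' F' : ℤ}
    (hM : lat (i • u + F • l) (i' • u + F' • l) = lat (F0 • l) (g • u + y • l))
    (hd : i' * F - i * F' = g * F0) (hF : 0 < F) (hF2 : F < g * F0) :
    Has6 O (u, A • l, l, (a - 1) • u, i • u + F • l, (i' - 1) • u + F' • l) := by
  obtain ⟨m, s, hT, hm⟩ := h.has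
  have p := hT.pos
  have e : u + ((i' - 1) • u + F' • l) = i' • u + F' • l := by module
  refine hT.change p.2.1 p.2.2.2.1 rfl ?_ ?_ (by rw [e, hM, hm])
  · rw [cr_ul_u h.one]; exact hF
  · rw [cr_ul h.one]
    linarith

/-- **THE EXIT** over `(l, i u + F l)`: the centre `z = X u + k W l`, `W = A + 1 + F`. -/
theorem B1.exit (h : B1 O N A a g F0 y u l) {i F i' F' : ℤ}
    (hM : lat (i • u + F • l) (i' • u + F' • l) = lat (F0 • l) (g • u + y • l))
    (hd : i' * F - i * F' = g * F0) (hF : 0 < F) (hF2 : F < g * F0) {P k W : ℤ}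
    (hW : W = A + 1 + F) (hPk : IsCoprime P k) (hP : 0 < P) (hY : 0 < P * F - k * W * i)
    (hA : P + (P * F - k * W * i) < W) :
    ∃ z v' m s, z = P • u + (k * W) • l ∧ m = i • u + F • l ∧ s = (i' - 1) • u + F' • l ∧
      Has6 O (z, v', l, (a - 1) • u, m, s) ∧ vol6 (z, v', l, (a - 1) • u, m, s) = N ∧
      cr z v' = W - P - (P * F - k * W * i) ∧
      cr z l = P ∧ cr z m = P * F - k * W * i ∧
      cr z l + cr ((a - 1) • u) l = P + (a - 1) ∧
      cr z m + cr s m = (P * F - k * W * i) + (g * F0 - F) ∧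
      ct z l ((a - 1) • u) = Int.gcd P (k * W * (a - 1)) ∧
      ct z m s = Int.gcd (P * F - k * W * i) (P * F' - k * W * (i' - 1)) := by
  have h1 := h.one
  have hT := h.slit hM hd hF hF2
  obtain ⟨m, hm⟩ : ∃ m, m = i • u + F • l := ⟨_, rfl⟩
  obtain ⟨s, hs⟩ : ∃ s, s = (i' - 1) • u + F' • l := ⟨_, rfl⟩
  obtain ⟨z, hz⟩ : ∃ z, z = P • u + (k * W) • l := ⟨_, rfl⟩
  rw [← hm, ← hs] at hT
  have uv : cr u (A • l) = A := by
    have := cr_ul_u h1 0 A
    rwa [zero_smul, zero_add] at this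
  have um : cr u m = F := by rw [hm]; exact cr_ul_u h1 _ _
  have zl : cr z l = P := by rw [hz]; exact cr_ul_l h1 _ _
  have zm : cr z m = P * F - k * W * i := by rw [hz, hm]; exact cr_ul h1 _ _ _ _
  have ql : cr ((a - 1) • u) l = a - 1 := by
    have := cr_ul_l h1 (a - 1) 0
    rwa [zero_smul, add_zero] at this
  have sm : cr s m = g * F0 - F := by
    rw [hs, hm, cr_ul h1]
    linarith
  have hz' : z = (P - k * i) • u + k • (A • l + l + m) := by
    rw [hz, hm, hW]
    module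
  have hc : IsCoprime (P - k * i) k := by
    have := hPk.add_mul_left_left (-i)
    have e : P + k * -i = P - k * i := by ring
    rwa [e] at this
  obtain ⟨v', c1, c2, c3, c4⟩ := hT.recenter hc hz' (by rw [zl]; exact hP) (by rw [zm]; exact hY)
    (by rw [zl, zm, uv, h1, um, ← hW]; exact hA)
  refine ⟨z, v', m, s, hz, hm, hs, c1, ?_, ?_, zl, zm, by rw [zl, ql], by rw [zm, sm], ?_, ?_⟩
  · rw [c4]
    simp only [vol6]
    rw [uv, h1, um, ql, sm]
    linarith [h.sum]
  · rw [c3, uv, h1, um, zl, zm, ← hW]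
  · unfold ct
    rw [zl]
    have e : cr z ((a - 1) • u) = -(k * W * (a - 1)) := by
      have := cr_ul h1 P (k * W) (a - 1) 0
      rw [zero_smul, add_zero] at this
      rw [hz, this]
      ring
    rw [e, Int.gcd_neg]
  · unfold ct
    rw [zm]
    have e : cr z s = P * F' - k * W * (i' - 1) := by
      rw [hz, hs, cr_ul h1]
    rw [e]

/-! ## Trees with content 1 -/

/-- a positive lattice in Hermite form over the basis `(u, l)` -/
theorem exists_hermite (h : cr u l = 1) {m p : Z2} (hp : 0 < cr p m) :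
    ∃ g F0 y : ℤ, 0 < g ∧ 0 < F0 ∧ g * F0 = cr p m ∧
      lat m p = lat (F0 • l) (g • u + y • l) ∧ (Int.gcd F0 y : ℤ) = Int.gcd (cr u m) (cr u p) := by
  obtain ⟨i, hi⟩ : ∃ i, i = cr m l := ⟨_, rfl⟩
  obtain ⟨F, hF⟩ : ∃ F, F = cr u m := ⟨_, rfl⟩
  obtain ⟨i', hi'⟩ : ∃ i', i' = cr p l := ⟨_, rfl⟩
  obtain ⟨F', hF'⟩ : ∃ F', F' = cr u p := ⟨_, rfl⟩
  have hm := coord_ul h m
  have hpp := coord_ul h p
  rw [← hi, ← hF] at hm
  rw [← hi', ← hF'] at hpp
  have hd : cr p m = i' * F - F' * i := by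
    rw [hm, hpp, cr_ul h]
  have hne : i ≠ 0 ∨ i' ≠ 0 := by
    by_contra hc
    push Not at hc
    rw [hd, hc.1, hc.2] at hp
    simp at hp
  have hgpos : 0 < Int.gcd i i' := by
    rcases hne with h0 | h0
    · exact Int.gcd_pos_of_ne_zero_left _ h0
    · exact Int.gcd_pos_of_ne_zero_right _ h0
  obtain ⟨g, hg⟩ : ∃ g : ℤ, g = Int.gcd i i' := ⟨_, rfl⟩
  have hg0 : 0 < g := by rw [hg]; exact_mod_cast hgpos
  obtain ⟨α, hα⟩ : g ∣ i := by rw [hg]; exact Int.gcd_dvd_left ..
  obtain ⟨β, hβ⟩ : g ∣ i' := by rw [hg]; exact Int.gcd_dvd_right ..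
  have hab : IsCoprime α β := by
    rw [Int.isCoprime_iff_gcd_eq_one]
    have e : Int.gcd (g * α) (g * β) = g.natAbs * Int.gcd α β := Int.gcd_mul_left ..
    rw [← hα, ← hβ] at e
    have e2 : g.natAbs = Int.gcd i i' := by rw [hg]; simp
    rw [e2] at e
    exact Nat.eq_of_mul_eq_mul_left hgpos (by rw [← e, mul_one])
  obtain ⟨x, x', hx⟩ := hab
  have hF0 : g * (β * F - α * F') = cr p m := by
    rw [hd, hα, hβ]; ring
  have hF00 : 0 < β * F - α * F' := by
    rw [← hF0] at hp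
    exact (mul_pos_iff_of_pos_left hg0).1 hp
  refine ⟨g, β * F - α * F', x * F + x' * F', hg0, hF00, hF0, ?_, ?_⟩
  · symm
    refine closure_pair_eq (α := β) (β := -α) (γ := x) (δ := x') ?_ ?_ (Or.inl ?_)
    · rw [hm, hpp, hα, hβ]
      module
    · rw [hm, hpp, hα, hβ]
      have : g • u = (g * (x * α + x' * β)) • u := by rw [hx, mul_one]
      rw [this]
      module
    · linarith
  · have := gcd_unimod (a := F) (b := F') (x := -α) (y := β) (x2 := x') (y2 := x)
      (a' := β * F - α * F') (b' := x * F + x' * F') (by linarith) (by ring) (by ring)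
    rw [this, hF, hF']

/-- **every tree with `ct u l q = 1` is in the frame** -/
theorem B1.of_tree (hT : Has6 O (u, v, l, q, m, s)) (hN : vol6 (u, v, l, q, m, s) = N)
    (hc : ct u l q = 1) : ∃ (g F0 y : ℤ) (l' : Z2),
      B1 O N (cr u v) (cr u l + cr q l) g F0 y u l' ∧ g * F0 = cr u m + cr s m ∧
      (Int.gcd F0 y : ℤ) = ct u m s := by
  obtain ⟨p1, p2, p3, p4, p5⟩ := hT.pos
  obtain ⟨l1, q1, m1, s1, h1, h2, k1, k2, e1, e2, e3, e4, e5, e6⟩ := hT.rows0 hN
  rw [hc] at e1
  obtain ⟨r1, r2, r3, r4, r5⟩ := h1.pos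
  -- `q1 = (a - 1) u`
  have hq1 : q1 = (cr u l + cr q l - 1) • u := by
    have := coord_ul e1 q1
    rw [e3, zero_smul, add_zero] at this
    rw [this]
    congr 1
    linarith
  -- `v = A l1 + j u`
  have hv : v = (cr v l1) • u + (cr u v) • l1 := coord_ul e1 v
  have h3 := h1.vk (-(cr v l1))
  have e7 : v + (-(cr v l1)) • u = (cr u v) • l1 := by
    nth_rewrite 1 [hv]
    module
  rw [e7, hq1] at h3
  have hp : 0 < cr (u + s1) m1 := by
    have : cr (u + s1) m1 = cr u m1 + cr s1 m1 := by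
      simp only [cr, Prod.fst_add, Prod.snd_add]; ring
    rw [this]; linarith
  obtain ⟨g, F0, y, g0, F00, ha, hl, hgcd⟩ := exists_hermite e1 hp
  have hpm : cr (u + s1) m1 = cr u m + cr s m := by
    rw [← e6]
    simp only [cr, Prod.fst_add, Prod.snd_add]; ring
  refine ⟨g, F0, y, l1, ⟨e1, p1, by linarith, g0, F00, ?_, m1, s1, h3, hl⟩, by rw [ha, hpm], ?_⟩
  · rw [ha, hpm, ← hN]
    simp only [vol6]; ring
  · rw [hgcd]
    have e8 : cr u (u + s1) = cr u s1 := by rw [cr_addr, cr_self', zero_add]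
    rw [e8]
    show ct u m1 s1 = ct u m s
    exact ct_congr k2

/-- contents `(1, 1)` -/
theorem B1.end11 (h : B1 O N A a g F0 y u l) {J : ℤ} (hc : IsCoprime F0 y)
    (hr : A * J ^ 24 ≤ N) : End11 O N J := by
  obtain ⟨m, s, hT, hm⟩ := h.has
  have h1 := h.one
  have p := hT.pos
  have uv : cr u (A • l) = A := by
    have := cr_ul_u h1 0 A
    rwa [zero_smul, zero_add] at this
  have ql : cr ((a - 1) • u) l = a - 1 := by
    have := cr_ul_l h1 (a - 1) 0
    rwa [zero_smul, add_zero] at this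
  obtain ⟨i, j, hij⟩ := hc
  refine ⟨_, _, _, _, _, _, hT, ?_, ?_, ?_, by rw [uv]; exact hr⟩
  · have e1 : cr u m + cr s m = cr (u + s) m := by
      simp only [cr, Prod.fst_add, Prod.snd_add]; ring
    have key : ∀ w w' x x' : Z2, lat w w' = lat x x' → cr x x' ∣ cr w w' := by
      intro w w' x x' hw
      have d1 : w ∈ lat x x' := by
        rw [← hw]; exact AddSubgroup.subset_closure (by simp)
      have d2 : w' ∈ lat x x' := by
        rw [← hw]; exact AddSubgroup.subset_closure (by simp)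
      obtain ⟨b1, b2, rfl⟩ := mem_lat_coords d1
      obtain ⟨b3, b4, rfl⟩ := mem_lat_coords d2
      refine ⟨b1 * b4 - b2 * b3, ?_⟩
      simp only [cr, Prod.fst_add, Prod.snd_add, Prod.smul_fst, Prod.smul_snd, smul_eq_mul]
      ring
    have e2 : cr (F0 • l) (g • u + y • l) = -(g * F0) := by
      have := cr_ul h1 0 F0 g y
      rw [zero_smul, zero_add] at this
      rw [this]; ring
    have e3 : cr (u + s) m = g * F0 := by
      have d1 := key _ _ _ _ hm
      have d2 := key _ _ _ _ hm.symm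
      rw [e2] at d1 d2
      rw [neg_dvd] at d1
      rw [dvd_neg] at d2
      have e4 : cr m (u + s) = -cr (u + s) m := by simp only [cr]; ring
      rw [e4, dvd_neg] at d1
      rw [e4, neg_dvd] at d2
      have p0 : 0 ≤ cr (u + s) m := by rw [← e1]; exact (add_pos p.2.2.1 p.2.2.2.2).le
      exact Int.dvd_antisymm p0 (mul_pos h.g0 h.F00).le d2 d1
    simp only [vol6]
    rw [uv, h1, ql]
    have := h.sum
    linarith
  · unfold ct
    rw [h1]
    simp
  · have d1 : ct u m s ∣ 1 := by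
      have hd : ∀ w ∈ lat m (u + s), ct u m s ∣ cr u w := by
        intro w hw
        obtain ⟨b1, b2, rfl⟩ := mem_lat_coords hw
        have e1 : cr u (b1 • m + b2 • (u + s)) = b1 * cr u m + b2 * cr u s := by
          simp only [cr, Prod.fst_add, Prod.snd_add, Prod.smul_fst, Prod.smul_snd, smul_eq_mul]
          ring
        rw [e1]
        exact dvd_add (Dvd.dvd.mul_left ct_dvd_left _) (Dvd.dvd.mul_left ct_dvd_right _)
      have f1 := hd (F0 • l) (by rw [hm]; exact AddSubgroup.subset_closure (by simp))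
      have f2 := hd (g • u + y • l) (by rw [hm]; exact AddSubgroup.subset_closure (by simp))
      rw [cr_ul_u h1] at f2
      have f3 : cr u (F0 • l) = F0 := by
        have := cr_ul_u h1 0 F0
        rwa [zero_smul, zero_add] at this
      rw [f3] at f1
      rw [← hij]
      exact dvd_add (f1.mul_left _) (f2.mul_left _)
    exact Int.eq_one_of_dvd_one (Int.natCast_nonneg _) d1


theorem lat_ne_of_odd [Finite X] (hO : Odd6 O) (hT : Has6 O (u, v, l, q, m, s))
    (hX : (Nat.card X : ℤ) = vol6 (u, v, l, q, m, s)) : lat l (u + q) ≠ lat m (u + s) := by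
  have h := Odd6.lat_ne hO hT hX
  exact h

/-- **contents `(1, 1)` and different lattices: a generic state** -/
theorem toE_of_11 {J Z : ℕ} (hB : Bg N J Z) (hA : 0 < cr u v)
    {p p' : Z2} (c1 : IsCoprime (cr u l) (cr u p)) (c2 : IsCoprime (cr u m) (cr u p'))
    (ha : 1 < cr p l) (ha' : 1 < cr p' m) (hN : cr u v + cr p l + cr p' m = N)
    (hr : cr u v * (J : ℤ) ^ 24 ≤ N) (hne : lat l p ≠ lat m p') :
    ToE N ⟨lat l p, lat m p', u, v⟩ := by
  obtain ⟨y, hy1, hy2, hy3⟩ := lat_of_content c1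
  obtain ⟨y', hy1', hy2', hy3'⟩ := lat_of_content c2
  obtain ⟨z, hz⟩ : ∃ z, z = -cr y y' := ⟨_, rfl⟩
  obtain ⟨a, ea⟩ : ∃ a, a = cr p l := ⟨_, rfl⟩
  obtain ⟨b, eb⟩ : ∃ b, b = cr p' m := ⟨_, rfl⟩
  have hu := cop_of_cr1' hy1
  -- differences of vectors of content 1
  have key : ∀ (b : ℤ) (x x0 w : Z2), cr u w = 1 → x ∈ Ld w b → x0 ∈ Ld w b →
      cr u x = 1 → cr u x0 = 1 → ∃ n : ℤ, x = x0 + (b * n) • u := by
    intro b x x0 w hw hx hx0 hx1 hx01
    have h3 : cr (x - x0) u = 0 := by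
      have h4 : cr (x - x0) u = -(cr u x - cr u x0) := by
        simp only [cr, Prod.fst_sub, Prod.snd_sub]; ring
      rw [h4, hx1, hx01]; ring
    obtain ⟨k, hk⟩ := par_prim hu h3
    have h5 : b ∣ cr (x - x0) w := (Ld w b).sub_mem hx hx0
    rw [hk, cr_smul_left, hw, mul_one] at h5
    obtain ⟨n, hn⟩ := h5
    exact ⟨n, by rw [← hn, ← hk]; abel⟩
  have hS := seq_PG (z := z) hA c1 c2 ha ha' (by
    intro x hx x' hx' e3 e4
    rw [hy3] at hx
    rw [hy3'] at hx'
    rw [hy3] at hy2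
    rw [hy3'] at hy2'
    obtain ⟨n, hn⟩ := key _ x y y hy1 hx hy2 e3 hy1
    obtain ⟨n', hn'⟩ := key _ x' y' y' hy1' hx' hy2' e4 hy1'
    have e5 : z + cr x x' = cr p l * (n * cr u y') + cr p' m * (n' * cr y u) := by
      rw [hn, hn', hz]
      simp only [cr_add_left, cr_add_right, cr_smul_left, cr_smul_right, cr_self]
      ring
    rw [e5]
    exact dvd_add ((Int.gcd_dvd_left ..).mul_right _) ((Int.gcd_dvd_right ..).mul_right _))
  have hP : ¬ (cr p l = cr p' m ∧ cr p l ∣ z) := by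
    rintro ⟨e1, e2⟩
    apply hne
    rw [hy3, hy3', ← e1]
    have e6 : cr (y' - y) u = 0 := by
      have h4 : cr (y' - y) u = -(cr u y' - cr u y) := by
        simp only [cr, Prod.fst_sub, Prod.snd_sub]; ring
      rw [h4, hy1, hy1']; ring
    obtain ⟨k, hk⟩ := par_prim hu e6
    have e0 : y' = y + k • u := by rw [← hk]; abel
    have e7 : cr p l ∣ k := by
      have : cr y y' = -k := by
        rw [e0]
        simp only [cr_add_right, cr_smul_right, cr_self]
        have : cr y u = -1 := by rw [cr_swap' u y, hy1]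
        rw [this]; ring
      rw [hz, this, neg_neg] at e2
      exact e2
    obtain ⟨n, hn⟩ := e7
    refine AddSubgroup.ext fun w => ?_
    have e8 : cr w y' = cr w y + cr p l * (n * cr w u) := by
      rw [e0, hn]
      simp only [cr_add_right, cr_smul_right]
      ring
    have e9 : cr p l ∣ cr w y ↔ cr p l ∣ cr w y' := by
      rw [e8]
      exact (dvd_add_left (Dvd.intro _ rfl)).symm
    exact e9
  exact ToE.of hS (c11 hB hA ha ha' hN hr hP)

/-- **the end form is a generic end state** -/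
theorem End11.toE [Finite X] {J Z : ℕ} (hB : Bg N J Z) (hO : Odd6 O)
    (hX : (Nat.card X : ℤ) = N) (h : End11 O N J) :
    ∃ u v l q m s, Has6 O (u, v, l, q, m, s) ∧ vol6 (u, v, l, q, m, s) = N ∧
      ToE N ⟨lat l (u + q), lat m (u + s), u, v⟩ := by
  obtain ⟨u, v, l, q, m, s, hT, hN, h1, h2, h3⟩ := h
  obtain ⟨p1, p2, p3, p4, p5⟩ := hT.pos
  have hne := lat_ne_of_odd hO hT (hX.trans hN.symm)
  have f1 : cr u (u + q) = cr u q := by rw [cr_addr, cr_self', zero_add]
  have f2 : cr u (u + s) = cr u s := by rw [cr_addr, cr_self', zero_add]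
  have c1 : IsCoprime (cr u l) (cr u (u + q)) := by
    rw [Int.isCoprime_iff_gcd_eq_one, f1]
    unfold ct at h1
    exact_mod_cast h1
  have c2 : IsCoprime (cr u m) (cr u (u + s)) := by
    rw [Int.isCoprime_iff_gcd_eq_one, f2]
    unfold ct at h2
    exact_mod_cast h2
  have a1 : cr (u + q) l = cr u l + cr q l := by
    simp only [cr, Prod.fst_add, Prod.snd_add]; ring
  have a2 : cr (u + s) m = cr u m + cr s m := by
    simp only [cr, Prod.fst_add, Prod.snd_add]; ring
  refine ⟨u, v, l, q, m, s, hT, hN, toE_of_11 hB p1 c1 c2 (by rw [a1]; linarith)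
    (by rw [a2]; linarith) ?_ h3 hne⟩
  rw [a1, a2, ← hN]
  simp only [vol6]
  ring


end Pool.Agent.H4G.Six
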