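import Pool.Agent.H4G.Six.D2.Shear88

/-!
# From small tori to a large torus in one exit (helper88)
-/

set_option autoImplicit false

namespace Pool.Agent.H4G.Six

open Pool.Agent.H4G

variable {N : ℤ} {J Z : ℕ} {A a c z x : ℤ}

/-- one exit of level 1, with the new first area -/
theorem step_of {X F P k : ℤ} (hA : 0 < A) (hc : 0 < c) (ha : 1 < a) (hv : Vec c z x X F)
    (hP : 1 < P) (Y0 : 0 < P * F - k * (A + 1 + F) * X)
    (XY : P + (P * F - k * (A + 1 + F) * X) < A + 1 + F)
    (cl : IsCoprime P (k * (A + 1 + F) * (a - 1))) :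
    ∃ A' c' z' x' : ℤ, 0 < A' ∧ 0 < c' ∧ 1 < z' ∧ A' + (a - 1 + P) + c' * z' = A + a + c * z ∧
      SEq6 (NF A a c z x) (NF A' (a - 1 + P) c' z' x') := by
  obtain ⟨w, y, h1, h2, h3, h4, h5⟩ := hv
  have hPk : IsCoprime P k := (cl.of_mul_right_left).of_mul_right_left
  obtain ⟨c', z', x1', k1, k2, k3, k4⟩ := nf_exit1 (x1 := x) (x := 0) (y := 1) (W := A + 1 + F)
    (X := P) (Y := P * F - k * (A + 1 + F) * X) hA hc isCoprime_one_right h1 (by norm_num) ha
    h2 h3 h4 h5 rfl hPk (by ring) rfl (by linarith) Y0 XY (by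
      have e : P - 0 * (k * (A + 1 + F)) = P := by ring
      rw [e]; exact cl)
  refine ⟨_, c', z', x1', ?_, k1, NF.z_gt k4.ok' k1 k2, ?_, k4⟩
  · linarith
  · rw [k3]; ring

/-- **ONE EXIT TO A LARGE TORUS** when both tori are small -/
theorem big_step (hB : Bg N J Z) (hJ2 : (J : ℤ) ^ 2000 ≤ N) (hA : 0 < A) (ha : 1 < a)
    (hc : 0 < c) (hz : 1 < z) (h3 : 3 ≤ c * z) (hN : A + a + c * z = N)
    (ha' : a ≤ (J : ℤ) ^ 155) (hcz : c * z ≤ (J : ℤ) ^ 155) :
    ∃ A' a' c' z' x' : ℤ, 0 < A' ∧ (J : ℤ) ^ 155 < a' ∧ 0 < c' ∧ 1 < z' ∧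
      A' + a' + c' * z' = N ∧ SEq6 (NF A a c z x) (NF A' a' c' z' x') := by
  have hJ := hB.J1
  set K : ℤ := (J : ℤ) ^ 155 with hK
  have hJK : (J : ℤ) ≤ K := by
    have := pow_le_pow_right₀ hJ (show 1 ≤ 155 by norm_num)
    rwa [pow_one] at this
  have hK3 : K * K * K * 16 ≤ N := by
    have h1 := pow_le_pow_right₀ hJ (show 466 ≤ 2000 by norm_num)
    have e : (J : ℤ) ^ 466 = J * (K * K * K) := by rw [hK]; ring
    have h2 : (16 : ℤ) * (K * K * K) ≤ J * (K * K * K) := by
      refine mul_le_mul_of_nonneg_right ?_ (by positivity)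
      have := hB.J20
      norm_num at this
      have h5 : (16 : ℕ) ≤ J := by omega
      exact_mod_cast h5
    linarith
  have hK1 : 16 ≤ K := by
    have := hB.J20
    norm_num at this
    have h5 : (16 : ℕ) ≤ J := by omega
    have h6 : (16 : ℤ) ≤ J := by exact_mod_cast h5
    linarith
  have K2 : K * 16 ≤ K * K := mul_le_mul_of_nonneg_left hK1 (by linarith)
  have K3 : K * K * 16 ≤ K * K * K := mul_le_mul_of_nonneg_left hK1 (by positivity)
  have hAN : K * K * K * 8 ≤ A := by linarith
  set g : ℤ := (Int.gcd z x : ℤ) with hg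
  have hg0 : 0 < g := by
    have : Int.gcd z x ≠ 0 := by
      intro h
      have := (Int.gcd_eq_zero_iff.1 h).1
      omega
    omega
  obtain ⟨z1, hz1⟩ : g ∣ z := Int.gcd_dvd_left ..
  obtain ⟨x1, hx1⟩ : g ∣ x := Int.gcd_dvd_right ..
  have hcop : IsCoprime z1 x1 := by
    refine ⟨Int.gcdA z x, Int.gcdB z x, ?_⟩
    have h1 : g = z * Int.gcdA z x + x * Int.gcdB z x := by rw [hg, Int.gcd_eq_gcd_ab]
    have h2 : g * (Int.gcdA z x * z1 + Int.gcdB z x * x1) = g * 1 := by
      rw [mul_one]
      linear_combination (-(Int.gcdA z x)) * hz1 - (Int.gcdB z x) * hx1 - h1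
    exact mul_left_cancel₀ hg0.ne' h2
  have hz10 : 0 < z1 := by
    have h : 0 < g * z1 := by rw [← hz1]; linarith
    exact (pos_iff_pos_of_mul_pos h).1 hg0
  rcases (show g = 1 ∨ 2 ≤ g by omega) with h1 | h1
  · -- the vector `(± 1, F)`
    rw [h1, one_mul] at hz1 hx1
    rw [← hz1, ← hx1] at hcop
    obtain ⟨X, F, hv, hX, hF⟩ := vec_one (x := x) hc hz hcop
    have hX' : X ≠ 0 := by rintro rfl; simp at hX
    have F2 : 2 ≤ F := by omega
    have hF1 := hv.F1 hc
    obtain ⟨W, hW⟩ : ∃ W, W = A + 1 + F := ⟨_, rfl⟩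
    have hW0 : 0 < W := by linarith
    obtain ⟨P, k1, k2, k3⟩ := sieve1 hB (D0 := 1 * W * (a - 1)) (α := 1) (β := 0)
      (mul_pos (mul_pos (by norm_num) hW0) (by linarith))
      (le_N3 hB (by norm_num) hW0.le (by linarith) hB.N1 (by linarith) (by linarith))
      (fun p hp _ => ⟨1, by rw [mul_one, add_zero]; exact prime_not_dvd_one hp⟩) (W / F + 1)
    rw [one_mul, add_zero] at k3
    have d1 : F * (W / F) ≤ W := Int.mul_ediv_self_le (by linarith)
    have d2 : W < F * (W / F) + F := Int.lt_mul_ediv_self_add (by linarith)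
    have hsign : IsCoprime P X.sign := by
      rcases lt_or_gt_of_ne hX' with h0 | h0
      · rw [Int.sign_eq_neg_one_of_neg h0]; exact isCoprime_one_right.neg_right
      · rw [Int.sign_eq_one_of_pos h0]; exact isCoprime_one_right
    have ekX : X.sign * W * X = W := by
      have : X.sign * X = 1 := by rw [Int.sign_mul_self_eq_abs, hX]
      linear_combination W * this
    have FK : F < K := by linarith
    have q1 : K ≤ W / F := by
      rw [Int.le_ediv_iff_mul_le (by linarith)]
      have : K * F ≤ K * K := mul_le_mul_of_nonneg_left FK.le (by linarith)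
      linarith
    obtain ⟨A', c', z', x', s1, s2, s3, s4, s5⟩ := step_of (X := X) (F := F) (P := P)
      (k := X.sign) (x := x) hA hc ha hv (by linarith) (by
        rw [← hW, ekX]
        have : F * (W / F + 1) ≤ F * P := mul_le_mul_of_nonneg_left k1 (by linarith)
        linarith) (by
        rw [← hW, ekX]
        have g1 : P ≤ W / F + J := by omega
        have g2 : P * (1 + F) ≤ (W / F + J) * (1 + F) :=
          mul_le_mul_of_nonneg_right g1 (by linarith)
        have g3 : 2 * (W / F) ≤ F * (W / F) := mul_le_mul_of_nonneg_right F2 (by linarith)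
        have g4 : (W / F + J) * (1 + F) = W / F + F * (W / F) + J * (1 + F) := by ring
        have g5 : (J : ℤ) * (1 + F) ≤ K * K :=
          mul_le_mul hJK (by linarith) (by linarith) (by linarith)
        have g6 : P * (1 + F) = P + P * F := by ring
        linarith) (by
        rw [← hW]
        have e : X.sign * W * (a - 1) = X.sign * (1 * W * (a - 1)) := by ring
        rw [e]
        exact hsign.mul_right k3)
    exact ⟨A', a - 1 + P, c', z', x', s1, by linarith, s2, s3, by rw [s4, hN], s5⟩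
  · -- the vertical vector
    have hz1g : z1 < z := by
      rw [hz1]; exact lt_mul_of_one_lt_left hz10 (by linarith)
    have v0 : Vec c z x 0 (c * z1) := by
      refine ⟨-x1, z1, hcop.symm.neg_left, hz10, hz1g, ?_, rfl⟩
      linear_combination (-z1) * hx1 + x1 * hz1
    have hF1 := v0.F1 hc
    have hF0 := v0.F0 hc
    obtain ⟨F, hF⟩ : ∃ F, F = c * z1 := ⟨_, rfl⟩
    rw [← hF] at v0 hF1 hF0
    obtain ⟨W, hW⟩ : ∃ W, W = A + 1 + F := ⟨_, rfl⟩
    have hW0 : 0 < W := by linarith
    obtain ⟨P, k1, k2, k3⟩ := sieve1 hB (D0 := 1 * W * (a - 1)) (α := 1) (β := 0)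
      (mul_pos (mul_pos (by norm_num) hW0) (by linarith))
      (le_N3 hB (by norm_num) hW0.le (by linarith) hB.N1 (by linarith) (by linarith))
      (fun p hp _ => ⟨1, by rw [mul_one, add_zero]; exact prime_not_dvd_one hp⟩) (K + 1)
    rw [one_mul, add_zero] at k3
    obtain ⟨A', c', z', x', s1, s2, s3, s4, s5⟩ := step_of (X := 0) (F := F) (P := P)
      (k := 1) (x := x) hA hc ha v0 (by linarith) (by
        rw [mul_zero, sub_zero]
        exact mul_pos (by linarith) hF0) (by
        rw [mul_zero, sub_zero, ← hW]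
        have g1 : P ≤ K + K := by linarith
        have g2 : P * (F + 1) ≤ (K + K) * K :=
          mul_le_mul g1 (by linarith) (by linarith) (by linarith)
        have g3 : P * (F + 1) = P + P * F := by ring
        linarith) (by rw [← hW]; exact k3)
    exact ⟨A', a - 1 + P, c', z', x', s1, by linarith, s2, s3, by rw [s4, hN], s5⟩

end Pool.Agent.H4G.Six
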