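import Pool.Agent.H4G.Six.RoomSieve

/-!
# Two contents along a progression (helper53)

Two pairs of linear forms in `t`. In every window of length `8 J` there is an odd `t` for which both
greatest common divisors are, up to a factor dividing `4`, the gcds of the coefficients.
-/

set_option autoImplicit false

namespace Pool.Agent.H4G.Six

open Pool.Agent.H4G

/-- the gcd of four integers -/
def gcd4 (a b c d : ℤ) : ℤ := Int.gcd (Int.gcd a b) (Int.gcd c d)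

theorem gcd4_dvd (a b c d : ℤ) : gcd4 a b c d ∣ a ∧ gcd4 a b c d ∣ b ∧ gcd4 a b c d ∣ c ∧
    gcd4 a b c d ∣ d := by
  have g1 : gcd4 a b c d ∣ (Int.gcd a b : ℤ) := Int.gcd_dvd_left _ _
  have g2 : gcd4 a b c d ∣ (Int.gcd c d : ℤ) := Int.gcd_dvd_right _ _
  exact ⟨g1.trans (Int.gcd_dvd_left _ _), g1.trans (Int.gcd_dvd_right _ _),
    g2.trans (Int.gcd_dvd_left _ _), g2.trans (Int.gcd_dvd_right _ _)⟩

theorem dvd_gcd4 {x a b c d : ℤ} (h1 : x ∣ a) (h2 : x ∣ b) (h3 : x ∣ c) (h4 : x ∣ d) :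
    x ∣ gcd4 a b c d :=
  Int.dvd_coe_gcd (Int.dvd_coe_gcd h1 h2) (Int.dvd_coe_gcd h3 h4)

/-- a pair of forms divided by its content -/
theorem norm_pair {X0 Y0 dX dY : ℤ} (hD : X0 * dY - Y0 * dX ≠ 0) : ∃ x y z w : ℤ,
    X0 = gcd4 X0 Y0 dX dY * x ∧ Y0 = gcd4 X0 Y0 dX dY * y ∧ dX = gcd4 X0 Y0 dX dY * z ∧
      dY = gcd4 X0 Y0 dX dY * w ∧ x * w - y * z ≠ 0 ∧
      |x * w - y * z| ≤ |X0 * dY - Y0 * dX| ∧
      ∀ p : ℕ, p.Prime → (p : ℤ) ∣ x → (p : ℤ) ∣ y → (p : ℤ) ∣ z → ¬ (p : ℤ) ∣ w := by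
  obtain ⟨g1, g2, g3, g4⟩ := gcd4_dvd X0 Y0 dX dY
  obtain ⟨g, hg⟩ : ∃ g, g = gcd4 X0 Y0 dX dY := ⟨_, rfl⟩
  rw [← hg] at g1 g2 g3 g4 ⊢
  obtain ⟨x, hx⟩ := g1
  obtain ⟨y, hy⟩ := g2
  obtain ⟨z, hz⟩ := g3
  obtain ⟨w, hw⟩ := g4
  have g0 : g ≠ 0 := by
    rintro h0
    apply hD
    rw [hx, hy, h0]
    ring
  have gpos : 0 < g := by
    have : 0 ≤ g := by rw [hg]; exact Int.natCast_nonneg _
    exact lt_of_le_of_ne this (Ne.symm g0)
  have eD : X0 * dY - Y0 * dX = g ^ 2 * (x * w - y * z) := by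
    rw [hx, hy, hz, hw]; ring
  refine ⟨x, y, z, w, hx, hy, hz, hw, ?_, ?_, ?_⟩
  · intro h0
    apply hD
    rw [eD, h0, mul_zero]
  · rw [eD, abs_mul, abs_of_pos (pow_pos gpos 2)]
    have : 1 * |x * w - y * z| ≤ g ^ 2 * |x * w - y * z| :=
      mul_le_mul_of_nonneg_right (one_le_pow₀ gpos) (abs_nonneg _)
    linarith
  · intro p hp h1 h2 h3 h4
    have h5 : g * p ∣ g := by
      have : g * p ∣ gcd4 X0 Y0 dX dY := dvd_gcd4 (by rw [hx]; exact mul_dvd_mul_left g h1)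
        (by rw [hy]; exact mul_dvd_mul_left g h2) (by rw [hz]; exact mul_dvd_mul_left g h3)
        (by rw [hw]; exact mul_dvd_mul_left g h4)
      rwa [← hg] at this
    have h6 : (p : ℤ) ∣ 1 := by
      have : g * p ∣ g * 1 := by rwa [mul_one]
      exact (mul_dvd_mul_iff_left g0).1 this
    exact prime_not_dvd_one hp h6

/-- the odd `t` with `8 ∣ x + t z, y + t w` are in one class mod `8` -/
theorem cls8 {x y z w : ℤ} (h : ¬ ((2 : ℤ) ∣ x ∧ (2 : ℤ) ∣ y ∧ (2 : ℤ) ∣ z ∧ (2 : ℤ) ∣ w)) :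
    ∃ r : ℤ, ∀ t : ℤ, (8 : ℤ) ∣ x + t * z → (8 : ℤ) ∣ y + t * w → (8 : ℤ) ∣ t - r := by
  by_cases h0 : ∃ t0 : ℤ, (8 : ℤ) ∣ x + t0 * z ∧ (8 : ℤ) ∣ y + t0 * w
  · obtain ⟨t0, k1, k2⟩ := h0
    refine ⟨t0, fun t j1 j2 => ?_⟩
    have e1 : (8 : ℤ) ∣ (t - t0) * z := by
      have := dvd_sub j1 k1
      have e : x + t * z - (x + t0 * z) = (t - t0) * z := by ring
      rwa [e] at this
    have e2 : (8 : ℤ) ∣ (t - t0) * w := by
      have := dvd_sub j2 k2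
      have e : y + t * w - (y + t0 * w) = (t - t0) * w := by ring
      rwa [e] at this
    have odd : ∀ a b : ℤ, ¬ (2 : ℤ) ∣ a → (8 : ℤ) ∣ b * a → (8 : ℤ) ∣ b := by
      intro a b ha hb
      have hc : IsCoprime (8 : ℤ) a := by
        have h2 : IsCoprime (2 : ℤ) a :=
          (Int.prime_two.coprime_iff_not_dvd).2 ha
        have : IsCoprime ((2 : ℤ) ^ 3) a := h2.pow_left
        norm_num at this
        exact this
      exact hc.dvd_of_dvd_mul_right hb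
    by_contra hcon
    have z2 : (2 : ℤ) ∣ z := by
      by_contra hz
      exact hcon (odd z _ hz e1)
    have w2 : (2 : ℤ) ∣ w := by
      by_contra hw
      exact hcon (odd w _ hw e2)
    have h82 : (2 : ℤ) ∣ 8 := ⟨4, by norm_num⟩
    have x2 : (2 : ℤ) ∣ x := (dvd_add_left (z2.mul_left t0)).1 (h82.trans k1)
    have y2 : (2 : ℤ) ∣ y := (dvd_add_left (w2.mul_left t0)).1 (h82.trans k2)
    exact h ⟨x2, y2, z2, w2⟩
  · push Not at h0
    exact ⟨0, fun t j1 j2 => absurd j2 (h0 t j1)⟩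

/-- an odd class mod `8` -/
theorem pick8 (r1 r2 : ℤ) : ∃ t : ℤ, 0 ≤ t ∧ t < 8 ∧ ¬ (2 : ℤ) ∣ t ∧ ¬ (8 : ℤ) ∣ t - r1 ∧
    ¬ (8 : ℤ) ∣ t - r2 := by
  by_contra hcon
  push Not at hcon
  have h1 := hcon 1 (by norm_num) (by norm_num) (by norm_num)
  have h3 := hcon 3 (by norm_num) (by norm_num) (by norm_num)
  have h5 := hcon 5 (by norm_num) (by norm_num) (by norm_num)
  omega

/-- the power of two -/
theorem two_part {f g : ℤ} (h : ¬ ((8 : ℤ) ∣ f ∧ (8 : ℤ) ∣ g)) : ∃ κ κ' f0 g0 : ℤ, κ * κ' = 8 ∧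
    κ ∣ 4 ∧ 0 < κ ∧ (2 : ℤ) ∣ κ' ∧ f = κ * f0 ∧ g = κ * g0 ∧ ¬ ((2 : ℤ) ∣ f0 ∧ (2 : ℤ) ∣ g0) := by
  by_cases h4 : (4 : ℤ) ∣ f ∧ (4 : ℤ) ∣ g
  · obtain ⟨⟨a, ha⟩, ⟨b, hb⟩⟩ := h4
    refine ⟨4, 2, a, b, by norm_num, dvd_refl _, by norm_num, dvd_refl _, ha, hb, ?_⟩
    rintro ⟨⟨x, hx⟩, ⟨y, hy⟩⟩
    exact h ⟨⟨x, by rw [ha, hx]; ring⟩, ⟨y, by rw [hb, hy]; ring⟩⟩
  by_cases h2 : (2 : ℤ) ∣ f ∧ (2 : ℤ) ∣ g
  · obtain ⟨⟨a, ha⟩, ⟨b, hb⟩⟩ := h2
    refine ⟨2, 4, a, b, by norm_num, ⟨2, by norm_num⟩, by norm_num, ⟨2, by norm_num⟩, ha, hb, ?_⟩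
    rintro ⟨⟨x, hx⟩, ⟨y, hy⟩⟩
    exact h4 ⟨⟨x, by rw [ha, hx]; ring⟩, ⟨y, by rw [hb, hy]; ring⟩⟩
  · exact ⟨1, 8, f, g, by norm_num, one_dvd _, by norm_num, ⟨4, by norm_num⟩, by ring, by ring, h2⟩

/-- **Two contents.** -/
theorem ap_gcd2 {J X : ℕ} (hcap : Cap J X) {X0 Y0 dX dY X1 Y1 eX eY : ℤ}
    (hD : X0 * dY - Y0 * dX ≠ 0) (hE : X1 * eY - Y1 * eX ≠ 0)
    (hX : 64 * |X0 * dY - Y0 * dX| * |X1 * eY - Y1 * eX| ≤ X) (t0 : ℤ) :
    ∃ t, 8 * t0 ≤ t ∧ t < 8 * t0 + 8 * J ∧ ¬ (2 : ℤ) ∣ t ∧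
      (∀ d : ℤ, d ∣ X0 + t * dX → d ∣ Y0 + t * dY → d ∣ 4 * gcd4 X0 Y0 dX dY) ∧
      (∀ d : ℤ, d ∣ X1 + t * eX → d ∣ Y1 + t * eY → d ∣ 4 * gcd4 X1 Y1 eX eY) := by
  obtain ⟨x, y, z, w, hx, hy, hz, hw, d0, dle, dp⟩ := norm_pair hD
  obtain ⟨x', y', z', w', hx', hy', hz', hw', d0', dle', dp'⟩ := norm_pair hE
  obtain ⟨r1, hr1⟩ := cls8 (x := x) (y := y) (z := z) (w := w) (by
    rintro ⟨a1, a2, a3, a4⟩
    exact dp 2 Nat.prime_two (by exact_mod_cast a1) (by exact_mod_cast a2) (by exact_mod_cast a3)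
      (by exact_mod_cast a4))
  obtain ⟨r2, hr2⟩ := cls8 (x := x') (y := y') (z := z') (w := w') (by
    rintro ⟨a1, a2, a3, a4⟩
    exact dp' 2 Nat.prime_two (by exact_mod_cast a1) (by exact_mod_cast a2) (by exact_mod_cast a3)
      (by exact_mod_cast a4))
  obtain ⟨t2, k0, k8, k2, k3, k4⟩ := pick8 r1 r2
  obtain ⟨κ, κ', f0, g0, e1, e2, e3, e4, e5, e6, e7⟩ :=
    two_part (f := x + t2 * z) (g := y + t2 * w) (fun h => k3 (hr1 t2 h.1 h.2))
  obtain ⟨l, l', f1, g1, n1, n2, n3, n4, n5, n6, n7⟩ :=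
    two_part (f := x' + t2 * z') (g := y' + t2 * w') (fun h => k4 (hr2 t2 h.1 h.2))
  have res : ∀ κ κ' f g x y z w : ℤ, κ * κ' = 8 → κ ≠ 0 → x + t2 * z = κ * f →
      y + t2 * w = κ * g → κ' * z * g - f * (κ' * w) ∣ 8 * (x * w - y * z) := by
    intro κ κ' f g x y z w h1 h0 h2 h3
    refine ⟨-κ * κ, ?_⟩
    have h4 : κ * (z * g - f * w) = -(x * w - y * z) := by
      linear_combination (-z) * h3 + w * h2
    calc 8 * (x * w - y * z) = -(κ * κ') * (κ * (z * g - f * w)) := by rw [h4, h1]; ring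
      _ = (κ' * z * g - f * (κ' * w)) * (-κ * κ) := by ring
  have s1 := res κ κ' f0 g0 x y z w e1 e3.ne' e5 e6
  have s2 := res l l' f1 g1 x' y' z' w' n1 n3.ne' n5 n6
  have odd : ∀ p : ℕ, p.Prime → p ≠ 2 → ∀ κ κ' : ℤ, κ * κ' = 8 → ∀ a : ℤ, (p : ℤ) ∣ κ' * a →
      (p : ℤ) ∣ a := by
    intro p hp hp2 κ κ' h a ha
    have hpp := Nat.prime_iff_prime_int.1 hp
    rcases hpp.dvd_or_dvd ha with h1 | h1
    · exfalso
      have h2 : (p : ℤ) ∣ (2 : ℤ) ^ 3 := by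
        have : (p : ℤ) ∣ κ * κ' := h1.mul_left _
        rw [h] at this
        norm_num
        exact this
      have h3 : (p : ℤ) ∣ 2 := hpp.dvd_of_dvd_pow h2
      have h4 : p ∣ 2 := by exact_mod_cast h3
      exact hp2 ((Nat.prime_dvd_prime_iff_eq hp Nat.prime_two).1 h4)
    · exact h1
  obtain ⟨t', t1, t3, t4⟩ := sievePair (k := 2) (e := 1) hcap
    (D0 := 64 * |x * w - y * z| * |x' * w' - y' * z'|)
    (mul_pos (mul_pos (by norm_num) (abs_pos.2 d0)) (abs_pos.2 d0'))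
    (by
      refine le_trans ?_ hX
      have a1 : 64 * |x * w - y * z| ≤ 64 * |X0 * dY - Y0 * dX| := by linarith
      exact mul_le_mul a1 dle' (abs_nonneg _) (by positivity)) (by norm_num)
    ![κ' * z, l' * z'] ![f0, f1] ![κ' * w, l' * w'] ![g0, g1]
    (by
      intro i
      fin_cases i
      · simp only [Fin.zero_eta, Fin.isValue, Matrix.cons_val_zero]
        refine s1.trans ?_
        refine ((dvd_abs (8 * (x * w - y * z)) _).2 (dvd_refl _)).trans ?_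
        rw [abs_mul, show |(8 : ℤ)| = 8 by norm_num]
        exact ⟨8 * |x' * w' - y' * z'|, by ring⟩
      · simp only [Fin.mk_one, Fin.isValue, Matrix.cons_val_one]
        refine s2.trans ?_
        refine ((dvd_abs (8 * (x' * w' - y' * z')) _).2 (dvd_refl _)).trans ?_
        rw [abs_mul, show |(8 : ℤ)| = 8 by norm_num]
        exact ⟨8 * |x * w - y * z|, by ring⟩)
    (by
      intro p hp _
      by_cases hp2 : p = 2
      · right
        refine ⟨0, fun i => ?_⟩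
        subst hp2
        fin_cases i
        · simp only [Fin.zero_eta, Fin.isValue, Matrix.cons_val_zero, mul_zero, zero_add,
            Nat.cast_ofNat]
          exact fun a1 a2 => e7 ⟨a1, a2⟩
        · simp only [Fin.mk_one, Fin.isValue, Matrix.cons_val_one, mul_zero, zero_add,
            Nat.cast_ofNat]
          exact fun a1 a2 => n7 ⟨a1, a2⟩
      · left
        refine ⟨by have := hp.two_le; omega, fun i => ?_⟩
        fin_cases i
        · simp only [Fin.zero_eta, Fin.isValue, Matrix.cons_val_zero]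
          intro a1 a2 a3 a4
          have b1 := odd p hp hp2 κ κ' e1 z a1
          have b2 := odd p hp hp2 κ κ' e1 w a2
          have b3 : (p : ℤ) ∣ x := by
            have : (p : ℤ) ∣ x + t2 * z := by rw [e5]; exact a3.mul_left _
            exact (dvd_add_left (b1.mul_left t2)).1 this
          have b4 : (p : ℤ) ∣ y := by
            have : (p : ℤ) ∣ y + t2 * w := by rw [e6]; exact a4.mul_left _
            exact (dvd_add_left (b2.mul_left t2)).1 this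
          exact dp p hp b3 b4 b1 b2
        · simp only [Fin.mk_one, Fin.isValue, Matrix.cons_val_one]
          intro a1 a2 a3 a4
          have b1 := odd p hp hp2 l l' n1 z' a1
          have b2 := odd p hp hp2 l l' n1 w' a2
          have b3 : (p : ℤ) ∣ x' := by
            have : (p : ℤ) ∣ x' + t2 * z' := by rw [n5]; exact a3.mul_left _
            exact (dvd_add_left (b1.mul_left t2)).1 this
          have b4 : (p : ℤ) ∣ y' := by
            have : (p : ℤ) ∣ y' + t2 * w' := by rw [n6]; exact a4.mul_left _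
            exact (dvd_add_left (b2.mul_left t2)).1 this
          exact dp' p hp b3 b4 b1 b2) t0
  rw [pow_one] at t3
  have fin : ∀ (κ κ' f g x y z w G A B dA dB : ℤ), κ * κ' = 8 → κ ∣ 4 → x + t2 * z = κ * f →
      y + t2 * w = κ * g → A = G * x → B = G * y → dA = G * z → dB = G * w →
      IsCoprime (κ' * z * t' + f) (κ' * w * t' + g) →
      ∀ d : ℤ, d ∣ A + (t2 + 8 * t') * dA → d ∣ B + (t2 + 8 * t') * dB → d ∣ 4 * G := by
    intro κ κ' f g x y z w G A B dA dB h1 h2 h3 h4 h5 h6 h7 h8 h9 d j1 j2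
    obtain ⟨i, j, hij⟩ := h9
    have c1 : A + (t2 + 8 * t') * dA = G * κ * (κ' * z * t' + f) := by
      rw [h5, h7]
      linear_combination G * h3 - G * z * t' * h1
    have c2 : B + (t2 + 8 * t') * dB = G * κ * (κ' * w * t' + g) := by
      rw [h6, h8]
      linear_combination G * h4 - G * w * t' * h1
    have c3 : d ∣ G * κ := by
      have e : G * κ = i * (A + (t2 + 8 * t') * dA) + j * (B + (t2 + 8 * t') * dB) := by
        rw [c1, c2]
        calc G * κ = G * κ * (i * (κ' * z * t' + f) + j * (κ' * w * t' + g)) := by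
              rw [hij, mul_one]
          _ = _ := by ring
      rw [e]
      exact dvd_add (j1.mul_left _) (j2.mul_left _)
    refine c3.trans ?_
    rw [mul_comm 4 G]
    exact mul_dvd_mul_left G h2
  refine ⟨t2 + 8 * t', by linarith, by linarith, ?_, ?_, ?_⟩
  · intro hd
    apply k2
    have : (2 : ℤ) ∣ 8 * t' := ⟨4 * t', by ring⟩
    exact (dvd_add_left this).1 hd
  · exact fin κ κ' f0 g0 x y z w _ X0 Y0 dX dY e1 e2 e5 e6 hx hy hz hw (by simpa using t4 0)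
  · exact fin l l' f1 g1 x' y' z' w' _ X1 Y1 eX eY n1 n2 n5 n6 hx' hy' hz' hw' (by simpa using t4 1)

end Pool.Agent.H4G.Six
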