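import Pool.Agent.H4G.Six.NR.Both
import Pool.Agent.H4G.Six.D2.Gcd53

/-!
# Both contents small: a double small state (row 6.3 of helper26's page, helper46)

A tree of volume `N` with both contents at most `N / B ^ 340` and one torus of area more than
`N / B ^ 6` gives a tree with `B ^ 4 A ≤ N` and contents dividing `4 b`, `4 b'`.
-/

set_option autoImplicit false

namespace Pool.Agent.H4G.Six

open Pool.Agent.H4G

variable {X : Type} {O : PO X} {N B : ℤ} {u v l q m s e p e' p' : Z2} {c a c' a' : ℤ}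

/-- **The negation of (STAR)**: two blocks of low level with nearly parallel slits. -/
theorem Lv.pair_aux (hL : Lv O N u v e p e' p' c a c' a') (hB : 10 ^ 6 ≤ B) (ha : N < B ^ 6 * a)
    (hc : B ^ 340 * c ≤ N) (hc' : B ^ 340 * c' ≤ N) :
    ∃ l q m s : Z2, Blk6 (lat e p) u l q ∧ Blk6 (lat e' p') u m s ∧
      2 * B ^ 6 * cr u l ≤ N ∧ 2 * B ^ 6 * cr u m ≤ N ∧
      (2 * |cr l m| ≤ cr u l ∨ 2 * |cr l m| ≤ cr u m) := by
  by_contra hcon
  have hstar : ∀ l q m s, Blk6 (lat e p) u l q → Blk6 (lat e' p') u m s →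
      2 * B ^ 6 * cr u l ≤ N → 2 * B ^ 6 * cr u m ≤ N →
      cr u l < 2 * |cr l m| ∧ cr u m < 2 * |cr l m| := by
    intro l q m s h1 h2 h3 h4
    by_contra hn
    apply hcon
    refine ⟨l, q, m, s, h1, h2, h3, h4, ?_⟩
    by_contra hn2
    push Not at hn2
    exact hn ⟨hn2.1, hn2.2⟩
  have B0 : 0 < B := by linarith
  obtain ⟨E, hE⟩ : ∃ E, E = B ^ 6 := ⟨_, rfl⟩
  rw [← hE] at ha
  have hsum := hL.sum
  have hA0 := hL.A0
  have c0 := hL.c0
  have c0' := hL.c0'
  have hca := hL.ca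
  have hca' := hL.ca'
  have a0 : 0 < a := by linarith
  have a0' : 0 < a' := by linarith
  have haN : a ≤ N := by linarith
  have haN' : a' ≤ N := by linarith
  have hB2 : (10 : ℤ) ^ 12 ≤ B ^ 2 := by
    calc (10 : ℤ) ^ 12 = (10 ^ 6) ^ 2 := by norm_num
      _ ≤ B ^ 2 := pow_le_pow_left₀ (by norm_num) hB 2
  have E0 : 0 < E := by rw [hE]; positivity
  -- powers of B
  have hpow : ∀ m n : ℕ, m ≤ n → B ^ m ≤ B ^ n := fun m n hmn =>
    pow_le_pow_right₀ (by linarith) hmn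
  have hE3 : 128 * E ^ 3 < B ^ 20 := by
    have e1 : 128 * E ^ 3 = 128 * B ^ 18 := by rw [hE]; ring
    have e2 : B ^ 20 = B ^ 2 * B ^ 18 := by ring
    rw [e1, e2]
    exact mul_lt_mul_of_pos_right (by linarith) (by positivity)
  have small : ∀ t x : ℤ, t ≤ B ^ 340 → 0 < x → B ^ 340 * x ≤ N → t * x ≤ N := by
    intro t x ht hx h1
    have := mul_le_mul_of_nonneg_right ht hx.le
    linarith
  have hE13 : 2 * E ≤ 128 * E ^ 3 := by
    have e4 : 128 * E ^ 3 = E * (128 * E ^ 2) := by ring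
    rw [e4, mul_comm 2 E]
    apply mul_le_mul_of_nonneg_left _ E0.le
    have : 0 < E ^ 2 := by positivity
    omega
  by_cases hA : 8 * (4 * E) ^ 2 * a' ≤ a
  · -- window Y = N / (2 E)
    obtain ⟨Y, hY⟩ : ∃ Y, Y = N / (2 * E) := ⟨_, rfl⟩
    have e1 : (2 * E) * Y + N % (2 * E) = N := by rw [hY]; exact Int.mul_ediv_add_emod N (2 * E)
    have e2 : 0 ≤ N % (2 * E) := Int.emod_nonneg _ (by linarith)
    have e3 : N % (2 * E) < 2 * E := Int.emod_lt_of_pos _ (by linarith)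
    have le_Y : ∀ x : ℤ, 0 < x → B ^ 340 * x ≤ N → x ≤ Y := by
      intro x hx h1
      rw [hY]
      refine (Int.le_ediv_iff_mul_le (by linarith)).2 ?_
      have h2 : 2 * E ≤ B ^ 340 := by
        have := hpow 20 340 (by norm_num)
        linarith
      have := small _ x h2 hx h1
      linarith
    have cY := le_Y c c0 hc
    have cY' := le_Y c' c0' hc'
    have Y1 : 1 ≤ Y := by linarith
    have h96 : 2 * B ^ 6 * Y ≤ N := by
      rw [← hE]
      linarith
    refine NRB.bothA (u := u) (l0 := e) (p := p) (m0 := e') (p' := p') (a := a) (b := c)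
      (a' := a') (b' := c') (Y := Y) (D := 4 * E) a0 hL.pe hL.ue c0 a0' hL.pe' hL.ue' hL.up' c0'
      cY cY' hca' ?_ ?_ ?_ hA
    · by_contra hcon
      push Not at hcon
      have h1 : E * a ≤ E * Y := mul_le_mul_of_nonneg_left hcon E0.le
      have h2 : 0 < E * Y := mul_pos E0 (by linarith)
      have h3 : (2 * E) * Y = 2 * (E * Y) := by ring
      linarith
    · have h1 : 2 * E * 1 ≤ 2 * E * Y := mul_le_mul_of_nonneg_left Y1 (by linarith)
      have h2 : 4 * E * Y = 2 * E * Y + 2 * E * Y := by ring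
      linarith
    · intro l m h1 h2 h3 h4 h5 h6 h7 h8
      obtain ⟨p1, g1, g2⟩ := h1
      obtain ⟨p2, k1, k2⟩ := h2
      refine hstar l (p1 - u) m (p2 - u) ⟨h3, ?_, ?_⟩ ⟨h5, ?_, ?_⟩ ?_ ?_
      · rw [cr_subl, g2]; linarith
      · rw [← g1]; congr 2; abel
      · rw [cr_subl, k2]; linarith
      · rw [← k1]; congr 2; abel
      · have : 2 * B ^ 6 * cr u l ≤ 2 * B ^ 6 * Y := mul_le_mul_of_nonneg_left h7 (by positivity)
        linarith
      · have : 2 * B ^ 6 * cr u m ≤ 2 * B ^ 6 * Y := mul_le_mul_of_nonneg_left h8 (by positivity)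
        linarith
  · push Not at hA
    have hKa : N ≤ 128 * E ^ 3 * a := by
      have h1 : 2 * E * a ≤ 128 * E ^ 3 * a := mul_le_mul_of_nonneg_right hE13 a0.le
      have h2 : 0 < E * a := mul_pos E0 a0
      have h3 : 2 * E * a = 2 * (E * a) := by ring
      linarith
    have hKa' : N ≤ 128 * E ^ 3 * a' := by
      have h1 : E * a ≤ E * (8 * (4 * E) ^ 2 * a') := mul_le_mul_of_nonneg_left hA.le E0.le
      have h2 : E * (8 * (4 * E) ^ 2 * a') = 128 * E ^ 3 * a' := by ring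
      linarith
    have hEpos : 0 < 128 * E ^ 3 := by positivity
    refine both_small (L := lat e p) (M := lat e' p') (u := u) (l0 := e) (p0 := p) (m0 := e')
      (ρ := p') (a := a) (a' := a') (b := c) (b' := c') (N := N) (K := B ^ 20) (K₁ := 128 * E ^ 3)
      (T := 2 * B ^ 6) (C := B ^ 340) (X := 192 * (4 * B ^ 20) ^ 5 * (128 * E ^ 3)) rfl hL.pe hL.ue
      (by rw [hL.up]; exact dvd_zero _) rfl hL.pe' hL.ue' hL.up' c0 c0' haN haN' ?_ ?_ ?_ hE3
      hKa hKa' hstar rfl ?_ hc hc'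
    · have : 0 < B ^ 6 := by positivity
      linarith
    · linarith
    · rw [← hE]
      linarith
    · have e1 : 128 * E ^ 3 = 128 * B ^ 18 := by rw [hE]; ring
      rw [e1]
      have e2 : 192 * (4 * B ^ 20) ^ 5 * (128 * B ^ 18) + 1 ≤
          10 ^ 8 * B ^ 118 := by
        have e3 : 192 * (4 * B ^ 20) ^ 5 * (128 * B ^ 18) =
            25165824 * B ^ 118 := by ring
        have e4 : 0 < B ^ 118 := by positivity
        rw [e3]
        linarith
      have e5 : 0 ≤ 192 * (4 * B ^ 20) ^ 5 * (128 * B ^ 18) + 1 := by positivity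
      have e6 : (192 * (4 * B ^ 20) ^ 5 * (128 * B ^ 18) + 1) ^ 2 ≤
          (10 ^ 8 * B ^ 118) ^ 2 := pow_le_pow_left₀ e5 e2 2
      have e7 : 16 * (4 * B ^ 20) ^ 4 *
          (192 * (4 * B ^ 20) ^ 5 * (128 * B ^ 18) + 1) ^ 2 * (128 * B ^ 18) ≤
          16 * (4 * B ^ 20) ^ 4 * (10 ^ 8 * B ^ 118) ^ 2 * (128 * B ^ 18) := by
        apply mul_le_mul_of_nonneg_right _ (by positivity)
        exact mul_le_mul_of_nonneg_left e6 (by positivity)
      refine e7.trans_lt ?_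
      have e8 : 16 * (4 * B ^ 20) ^ 4 * (10 ^ 8 * B ^ 118) ^ 2 * (128 * B ^ 18) =
          (16 * 256 * 10 ^ 16 * 128) * B ^ 334 := by ring
      rw [e8]
      have e9 : (16 * 256 * 10 ^ 16 * 128 : ℤ) < B ^ 6 := by
        calc (16 * 256 * 10 ^ 16 * 128 : ℤ) < (10 ^ 6) ^ 6 := by norm_num
          _ ≤ B ^ 6 := pow_le_pow_left₀ (by norm_num) hB 6
      have e10 : B ^ 340 = B ^ 6 * B ^ 334 := by ring
      rw [e10]
      exact mul_lt_mul_of_pos_right e9 (by positivity)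

theorem Lv.pair (hL : Lv O N u v e p e' p' c a c' a') (hB : 10 ^ 6 ≤ B)
    (ha : N < B ^ 6 * a ∨ N < B ^ 6 * a') (hc : B ^ 340 * c ≤ N) (hc' : B ^ 340 * c' ≤ N) :
    ∃ l q m s : Z2, Blk6 (lat e p) u l q ∧ Blk6 (lat e' p') u m s ∧
      2 * B ^ 6 * cr u l ≤ N ∧ 2 * B ^ 6 * cr u m ≤ N ∧
      (2 * |cr l m| ≤ cr u l ∨ 2 * |cr l m| ≤ cr u m) := by
  rcases ha with ha | ha
  · exact hL.pair_aux hB ha hc hc'
  · obtain ⟨l, q, m, s, h1, h2, h3, h4, h5⟩ := hL.swap.pair_aux hB ha hc' hc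
    have n1 : ∀ x y : Z2, lat (-x) (-y) = lat x y := fun x y =>
      closure_pair_eq (α := -1) (β := 0) (γ := 0) (δ := -1) (by module) (by module)
        (Or.inl (by norm_num))
    have k1 := h1.neg
    have k2 := h2.neg
    rw [neg_neg, n1] at k1 k2
    have x1 : cr u (-l) = cr (-u) l := by rw [cr_negl, cr_negr]
    have x2 : cr u (-m) = cr (-u) m := by rw [cr_negl, cr_negr]
    refine ⟨-m, -s, -l, -q, k2, k1, by rw [x2]; exact h4, by rw [x1]; exact h3, ?_⟩
    rw [x1, x2, cr_neg_neg, cr_swap' l m, abs_neg]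
    exact h5.symm

/-- **THE ROW OF A LOW PAIR**: a small `A` and no new factor beyond `4` in the contents -/
theorem TN.low_aux {J X' : ℕ} (hcap : Cap J X') (hX : 64 * N ^ 4 ≤ X')
    (hT : TN O N u v l q m s) (h1 : 2 * |cr l m| ≤ cr u m)
    (h2 : 16 * J * (cr u l + cr u m) < cr u v + cr u l + cr u m) :
    ∃ z v' : Z2, TN O N z v' l q m s ∧ cr z v' ≤ 8 * J * (cr u l + cr u m) ∧
      ct z l q ∣ 4 * ct u l q ∧ ct z m s ∣ 4 * ct u m s ∧
      cr z v' + cr z l + cr z m = cr u v + cr u l + cr u m := by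
  obtain ⟨p1, p2, p3, p4, p5⟩ := hT.pos
  have hsum := hT.sum
  have J0 : (0 : ℤ) ≤ J := Int.natCast_nonneg _
  obtain ⟨g, hg⟩ : ∃ g, g = cr u l + cr u m := ⟨_, rfl⟩
  have g0 : 0 < g := by linarith
  obtain ⟨W, hW⟩ : ∃ W, W = cr u v + cr u l + cr u m := ⟨_, rfl⟩
  rw [← hg, ← hW] at h2
  have h3 : 2 * ((8 * J : ℤ) * g) < W := by
    have e1 : 2 * ((8 * J : ℤ) * g) = 16 * J * g := by ring
    rw [e1]; exact h2
  have Jg : 0 ≤ (8 * J : ℤ) * g := by positivity
  have W0 : 0 < W := by linarith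
  obtain ⟨x, k, hx1, hx2, -⟩ := hT.has.ap_core (f := u) (i := 1) (j := 0) (κ := 1)
    (n := 8 * J) hT.vol isCoprime_one_left (by module) one_pos (by linarith)
    (by positivity) (by rw [← hg, ← hW]; linarith)
    (by
      rw [← hg, ← hW, one_mul]
      have e1 : 2 * (|cr l m| * W) ≤ cr u m * W := by
        have := mul_le_mul_of_nonneg_right h1 W0.le
        linarith
      have e2 : cr u m * W < 2 * ((W - 8 * J * g) * cr u m) := by
        have e3 : 0 < (W - 2 * (8 * J * g)) * cr u m := mul_pos (by linarith) p3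
        have e4 : 2 * ((W - 8 * J * g) * cr u m) =
          cr u m * W + (W - 2 * (8 * J * g)) * cr u m := by ring
        linarith
      linarith)
    (Or.inl p2)
  rw [one_mul, ← hW] at hx2
  -- the determinants
  have pl : ∀ y w : Z2, cr x y * cr u w - cr x w * cr u y = cr x u * cr y w := by
    intro y w
    simp only [cr]
    ring
  have hxu : |cr x u| = W := hx2
  have xu0 : cr x u ≠ 0 := by
    intro h0
    rw [h0, abs_zero] at hxu
    linarith
  have lq : |cr l q| = cr q l := by rw [cr_swap' q l, abs_neg, abs_of_pos p4]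
  have ms : |cr m s| = cr s m := by rw [cr_swap' s m, abs_neg, abs_of_pos p5]
  have lq0 : cr l q ≠ 0 := by
    intro h0
    rw [h0, abs_zero] at lq
    linarith
  have ms0 : cr m s ≠ 0 := by
    intro h0
    rw [h0, abs_zero] at ms
    linarith
  have WN : W ≤ N := by linarith
  have N0 : 0 ≤ N := by linarith
  obtain ⟨t, t1, t2, -, t4, t5⟩ := ap_gcd2 hcap (X0 := cr x l) (Y0 := cr x q) (dX := cr u l)
    (dY := cr u q) (X1 := cr x m) (Y1 := cr x s) (eX := cr u m) (eY := cr u s)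
    (by rw [pl]; exact mul_ne_zero xu0 lq0) (by rw [pl]; exact mul_ne_zero xu0 ms0)
    (by
      rw [pl, pl, abs_mul, abs_mul, hxu, lq, ms]
      have f1 : W * cr q l ≤ N * N := mul_le_mul WN (by linarith) p4.le N0
      have f2 : W * cr s m ≤ N * N := mul_le_mul WN (by linarith) p5.le N0
      have f3 : (W * cr q l) * (W * cr s m) ≤ (N * N) * (N * N) :=
        mul_le_mul f1 f2 (mul_nonneg W0.le p5.le) (mul_nonneg N0 N0)
      have f4 : 64 * (W * cr q l) * (W * cr s m) = 64 * ((W * cr q l) * (W * cr s m)) := by ring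
      have f5 : (N * N) * (N * N) = N ^ 4 := by ring
      rw [f4]
      linarith) 0
  obtain ⟨v', g1, g2, g3, g4⟩ := hx1 t (by linarith) (by linarith) isCoprime_one_left
  have crx : ∀ y : Z2, cr (x + t • u) y = cr x y + t * cr u y := by
    intro y
    simp only [cr, Prod.fst_add, Prod.snd_add, Prod.smul_fst, Prod.smul_snd, smul_eq_mul]
    ring
  obtain ⟨-, -, d3, d4⟩ := gcd4_dvd (cr x l) (cr x q) (cr u l) (cr u q)
  obtain ⟨-, -, d3', d4'⟩ := gcd4_dvd (cr x m) (cr x s) (cr u m) (cr u s)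
  refine ⟨x + t • u, v', ⟨g1, g2⟩, ?_, ?_, ?_, g4⟩
  · rw [← hg]
    rw [← hg] at g3
    exact g3
  · refine (t4 _ ?_ ?_).trans (mul_dvd_mul_left 4 (dvd_ct d3 d4))
    · rw [← crx]; exact ct_dvd_left
    · rw [← crx]; exact ct_dvd_right
  · refine (t5 _ ?_ ?_).trans (mul_dvd_mul_left 4 (dvd_ct d3' d4'))
    · rw [← crx]; exact ct_dvd_left
    · rw [← crx]; exact ct_dvd_right

theorem TN.low {J X' : ℕ} (hcap : Cap J X') (hX : 64 * N ^ 4 ≤ X')
    (hT : TN O N u v l q m s) (h1 : 2 * |cr l m| ≤ cr u l ∨ 2 * |cr l m| ≤ cr u m)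
    (h2 : 16 * J * (cr u l + cr u m) < cr u v + cr u l + cr u m) :
    ∃ z v' : Z2, TN O N z v' l q m s ∧ cr z v' ≤ 8 * J * (cr u l + cr u m) ∧
      ct z l q ∣ 4 * ct u l q ∧ ct z m s ∣ 4 * ct u m s ∧
      cr z v' + cr z l + cr z m = cr u v + cr u l + cr u m := by
  rcases h1 with h1 | h1
  · have h3 := hT.swap
    obtain ⟨z, v', k1, k2, k3, k4, k5⟩ := h3.low_aux hcap hX
      (by rw [cr_neg_neg, cr_neg_neg, cr_swap' l m, abs_neg]; exact h1)
      (by rw [cr_neg_neg, cr_neg_neg, cr_neg_neg, add_comm (cr u m) (cr u l)]; linarith)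
    have k6 := k1.swap
    rw [neg_neg, neg_neg, neg_neg, neg_neg] at k6
    rw [cr_neg_neg, cr_neg_neg] at k2
    rw [ct_neg] at k3 k4
    have k7 : ∀ x y : Z2, ct (-z) x y = ct z (-x) (-y) := by
      intro x y
      have := ct_neg z (-x) (-y)
      rwa [neg_neg, neg_neg] at this
    have k8 : ∀ x : Z2, cr (-z) x = cr z (-x) := by
      intro x
      rw [cr_negl, cr_negr]
    refine ⟨-z, -v', k6, ?_, ?_, ?_, ?_⟩
    · rw [cr_neg_neg]; linarith
    · rw [k7]; exact k4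
    · rw [k7]; exact k3
    · rw [cr_neg_neg, k8, k8]
      rw [cr_neg_neg, cr_neg_neg, cr_neg_neg] at k5
      linarith
  · exact hT.low_aux hcap hX h1 h2

/-- **BOTH CONTENTS SMALL: A DOUBLE SMALL STATE** -/
theorem TN.both_ds {J X' : ℕ} (hcap : Cap J X') (hX : 64 * N ^ 4 ≤ X') (hB : 10 ^ 6 ≤ B)
    (hJ : 8 * J ≤ B) (hT : TN O N u v l q m s)
    (ha : N < B ^ 6 * (cr u l + cr q l) ∨ N < B ^ 6 * (cr u m + cr s m))
    (hc : B ^ 340 * ct u l q ≤ N) (hc' : B ^ 340 * ct u m s ≤ N) :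
    ∃ z v' l' q' m' s' : Z2, TN O N z v' l' q' m' s' ∧ B ^ 4 * cr z v' ≤ N ∧
      ct z l' q' ∣ 4 * ct u l q ∧ ct z m' s' ∣ 4 * ct u m s := by
  by_cases hA : B ^ 4 * cr u v ≤ N
  · exact ⟨u, v, l, q, m, s, hT, hA, Dvd.intro_left 4 rfl, Dvd.intro_left 4 rfl⟩
  push Not at hA
  obtain ⟨e, p, e', p', hL, k1, k2⟩ := hT.lv
  obtain ⟨l1, q1, m1, s1, ⟨b1, b2, b3⟩, ⟨d1, d2, d3⟩, h3, h4, h5⟩ := hL.pair hB ha hc hc'
  obtain ⟨t1, -, -, t4, t5⟩ := hT.change b1 b2 (b3.trans k1) d1 d2 (d3.trans k2)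
  have B0 : 0 < B := by linarith
  have hB4 : 0 < B ^ 4 := by positivity
  -- `B ^ 6 (u × l + u × m) ≤ N`
  have h6 : B ^ 6 * (cr u l1 + cr u m1) ≤ N := by
    have e1 : 2 * (B ^ 6 * (cr u l1 + cr u m1)) = 2 * B ^ 6 * cr u l1 + 2 * B ^ 6 * cr u m1 := by
      ring
    linarith
  have g0 : 0 < cr u l1 + cr u m1 := by linarith
  have h7 : 16 * J * (cr u l1 + cr u m1) < cr u v := by
    have e1 : B ^ 4 * (16 * J * (cr u l1 + cr u m1)) ≤ B ^ 4 * (2 * B * (cr u l1 + cr u m1)) := by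
      apply mul_le_mul_of_nonneg_left _ hB4.le
      exact mul_le_mul_of_nonneg_right (by linarith) g0.le
    have e2 : B ^ 4 * (2 * B * (cr u l1 + cr u m1)) ≤ B ^ 6 * (cr u l1 + cr u m1) := by
      have e3 : B ^ 6 * (cr u l1 + cr u m1) = B ^ 4 * (B * B * (cr u l1 + cr u m1)) := by ring
      rw [e3]
      apply mul_le_mul_of_nonneg_left _ hB4.le
      apply mul_le_mul_of_nonneg_right _ g0.le
      exact mul_le_mul_of_nonneg_right (by linarith) B0.le
    have e4 : B ^ 4 * (16 * J * (cr u l1 + cr u m1)) < B ^ 4 * cr u v := by linarith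
    exact lt_of_mul_lt_mul_left e4 hB4.le
  obtain ⟨z, v', f1, f2, f3, f4, -⟩ := t1.low hcap hX h5 (by linarith)
  refine ⟨z, v', l1, q1, m1, s1, f1, ?_, by rw [← t4]; exact f3, by rw [← t5]; exact f4⟩
  have e1 : B ^ 4 * cr z v' ≤ B ^ 4 * (8 * J * (cr u l1 + cr u m1)) :=
    mul_le_mul_of_nonneg_left f2 hB4.le
  have e2 : B ^ 4 * (8 * J * (cr u l1 + cr u m1)) ≤ B ^ 6 * (cr u l1 + cr u m1) := by
    have e3 : B ^ 6 * (cr u l1 + cr u m1) = B ^ 4 * (B * B * (cr u l1 + cr u m1)) := by ring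
    rw [e3]
    apply mul_le_mul_of_nonneg_left _ hB4.le
    apply mul_le_mul_of_nonneg_right _ g0.le
    have : B * 1 ≤ B * B := mul_le_mul_of_nonneg_left (by linarith) B0.le
    linarith
  linarith

end Pool.Agent.H4G.Six
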