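import Pool.Agent.H4G.Six.D2F
import Pool.Agent.H4G.Six.RoomSieve

/-!
# Rows of centres (row (G4) of D2, helper69)

A tree `(u, v; l, q; m, s)`, `F₁ = u × l`, `F₂ = u × m`, `W = u × (v + l + m)`, `l × m = ε ρ`. For
`y = ε (v + l + m) + κ u` with `y × l = - R` the vector `z = α u + j y`, `0 ≤ j`, is the centre of an
exit iff `0 < α F₁ - j R` and `(α F₁ - j R) (F₁ + F₂) < W (F₁ - j ρ)`. By Dirichlet the centres contain
whole rows `n h + t g` for a basis `(h, g)` of `⟨u, v + l + m⟩`.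
-/

set_option autoImplicit false

namespace Pool.Agent.H4G.Six

open Pool.Agent.H4G

/-- Dirichlet -/
theorem dirichletZ (R F : ℤ) (hF : 0 < F) {K : ℤ} (hK : 0 < K) :
    ∃ p q : ℤ, 0 < q ∧ q ≤ K ∧ IsCoprime p q ∧ K * |q * R - p * F| ≤ F := by
  obtain ⟨p, q, h1, h2, h3⟩ := Real.exists_int_int_abs_mul_sub_le ((R : ℝ) / F) (n := K.toNat)
    (by omega)
  have hK' : ((K.toNat : ℕ) : ℤ) = K := Int.toNat_of_nonneg hK.le
  have hKr : ((K.toNat : ℕ) : ℝ) = (K : ℝ) := by exact_mod_cast congrArg (Int.cast (R := ℝ)) hK'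
  rw [hKr] at h3
  have hFr : (0 : ℝ) < F := by exact_mod_cast hF
  have hKr0 : (0 : ℝ) < K := by exact_mod_cast hK
  have h4 : K * |q * R - p * F| ≤ F := by
    have e : ((q : ℝ) * ((R : ℝ) / F) - p) * F = q * R - p * F := by
      field_simp
    have h5 : |(q : ℝ) * R - p * F| = |(q : ℝ) * ((R : ℝ) / F) - p| * F := by
      rw [← e, abs_mul, abs_of_pos hFr]
    have h6 : (K : ℝ) * |(q : ℝ) * R - p * F| ≤ F := by
      rw [h5]
      have h7 : (K : ℝ) * (1 / (K + 1)) ≤ 1 := by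
        rw [mul_one_div, div_le_one (by linarith)]
        linarith
      calc (K : ℝ) * (|(q : ℝ) * ((R : ℝ) / F) - p| * F)
          = (K * |(q : ℝ) * ((R : ℝ) / F) - p|) * F := by ring
        _ ≤ (K * (1 / (K + 1))) * F := by
            refine mul_le_mul_of_nonneg_right ?_ hFr.le
            exact mul_le_mul_of_nonneg_left h3 hKr0.le
        _ ≤ 1 * F := mul_le_mul_of_nonneg_right h7 hFr.le
        _ = F := one_mul _
    have h8 : (((K * |q * R - p * F| : ℤ)) : ℝ) ≤ ((F : ℤ) : ℝ) := by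
      push_cast
      exact h6
    exact_mod_cast h8
  have hqK : q ≤ K := by rw [← hK']; exact h2
  -- divide by the common divisor
  obtain ⟨d, hd⟩ : ∃ d : ℤ, d = Int.gcd p q := ⟨_, rfl⟩
  have dpos : 0 < d := by
    have h9 : 0 < Int.gcd p q := Int.gcd_pos_of_ne_zero_right _ h1.ne'
    rw [hd]; exact_mod_cast h9
  obtain ⟨p', hp'⟩ : d ∣ p := by rw [hd]; exact Int.gcd_dvd_left ..
  obtain ⟨q', hq'⟩ : d ∣ q := by rw [hd]; exact Int.gcd_dvd_right ..
  have q'pos : 0 < q' := by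
    rcases le_or_gt q' 0 with h | h
    · exfalso
      have : d * q' ≤ 0 := mul_nonpos_of_nonneg_of_nonpos dpos.le h
      linarith
    · exact h
  refine ⟨p', q', q'pos, ?_, ?_, ?_⟩
  · have : 1 * q' ≤ d * q' := mul_le_mul_of_nonneg_right dpos q'pos.le
    linarith
  · refine Int.isCoprime_iff_gcd_eq_one.2 ?_
    have h10 : Int.gcd (d * p') (d * q') = d.natAbs * Int.gcd p' q' := Int.gcd_mul_left ..
    rw [← hp', ← hq'] at h10
    have h11 : d.natAbs = Int.gcd p q := by rw [hd]; simp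
    have h12 : 0 < Int.gcd p q := Int.gcd_pos_of_ne_zero_right _ h1.ne'
    rw [h11] at h10
    exact Nat.eq_of_mul_eq_mul_left h12 (by rw [mul_one]; exact h10.symm)
  · have e : q * R - p * F = d * (q' * R - p' * F) := by rw [hp', hq']; ring
    rw [e, abs_mul, abs_of_pos dpos] at h4
    have h13 : 0 ≤ K * |q' * R - p' * F| := mul_nonneg hK.le (abs_nonneg _)
    have h14 : 1 * (K * |q' * R - p' * F|) ≤ d * (K * |q' * R - p' * F|) :=
      mul_le_mul_of_nonneg_right dpos h13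
    calc K * |q' * R - p' * F| = 1 * (K * |q' * R - p' * F|) := by ring
      _ ≤ d * (K * |q' * R - p' * F|) := h14
      _ = K * (d * |q' * R - p' * F|) := by ring
      _ ≤ F := h4

/-- the vectors of the row `n` of the best approximation `p / q` of `R / F₁` are centres -/
theorem row_core {F1 F2 W ρ R J K p q n α j : ℤ} (f1 : 0 < F1) (f2 : 0 < F2) (hW : F1 + F2 < W)
    (ρ0 : 0 ≤ ρ) (hK : K ^ 2 * ρ ≤ F1) (J1 : 1 ≤ J) (K8 : 8 * J ≤ K) (q0 : 0 < q) (qK : q ≤ K)
    (hE : K * |q * R - p * F1| ≤ F1) (c1 : J * q ≤ n * K)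
    (c2 : 2 * J * q ≤ (q - n) * K) (hn : α * q - j * p = n) (j0 : 0 ≤ j) (j1 : j < J * q) :
    0 < α * F1 - j * R ∧ (α * F1 - j * R) * (F1 + F2) < W * (F1 - j * ρ) := by
  have K0 : 0 < K := by linarith
  obtain ⟨E, hEe⟩ : ∃ E, E = q * R - p * F1 := ⟨_, rfl⟩
  rw [← hEe] at hE
  have key : q * (α * F1 - j * R) = n * F1 - j * E := by
    rw [hEe, ← hn]; ring
  have habs : K * |j * E| ≤ j * F1 := by
    rw [abs_mul, abs_of_nonneg j0]
    calc K * (j * |E|) = j * (K * |E|) := by ring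
      _ ≤ j * F1 := mul_le_mul_of_nonneg_left hE j0
  have hjF : j * F1 < J * q * F1 := mul_lt_mul_of_pos_right j1 f1
  have a1 : j * E ≤ |j * E| := le_abs_self _
  have a2 : -|j * E| ≤ j * E := neg_abs_le _
  -- lower bound
  have l1 : 0 < n * F1 - j * E := by
    have h1 : K * (j * E) ≤ K * |j * E| := mul_le_mul_of_nonneg_left a1 K0.le
    have h2 : J * q * F1 ≤ n * K * F1 := mul_le_mul_of_nonneg_right c1 f1.le
    have h3 : 0 < K * (n * F1 - j * E) := by nlinarith
    exact (mul_pos_iff_of_pos_left K0).1 h3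
  have l2 : 0 < α * F1 - j * R := by
    rw [← key] at l1
    exact (mul_pos_iff_of_pos_left q0).1 l1
  refine ⟨l2, ?_⟩
  -- `j ρ`
  have r1 : K * (q * (j * ρ)) ≤ J * q * F1 := by
    have h1 : q * q ≤ K * K := mul_le_mul qK qK q0.le K0.le
    have h2 : j * ρ ≤ J * q * ρ := mul_le_mul_of_nonneg_right j1.le ρ0
    have h3 : q * (j * ρ) ≤ q * (J * q * ρ) := mul_le_mul_of_nonneg_left h2 q0.le
    have h4 : K * (q * (J * q * ρ)) ≤ J * q * (K ^ 2 * ρ) := by
      have h5 : 0 ≤ J * q * ρ := by positivity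
      have h6 : K * q ≤ K * K := mul_le_mul_of_nonneg_left qK K0.le
      calc K * (q * (J * q * ρ)) = (K * q) * (J * q * ρ) := by ring
        _ ≤ (K * K) * (J * q * ρ) := mul_le_mul_of_nonneg_right h6 h5
        _ = J * q * (K ^ 2 * ρ) := by ring
    have h7 : J * q * (K ^ 2 * ρ) ≤ J * q * F1 :=
      mul_le_mul_of_nonneg_left hK (by positivity)
    calc K * (q * (j * ρ)) ≤ K * (q * (J * q * ρ)) := mul_le_mul_of_nonneg_left h3 K0.le
      _ ≤ J * q * (K ^ 2 * ρ) := h4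
      _ ≤ J * q * F1 := h7
  -- `n F₁ - j E ≤ q (F₁ - j ρ)`
  have u1 : n * F1 - j * E ≤ q * (F1 - j * ρ) := by
    have h1 : K * (-(j * E)) ≤ K * |j * E| :=
      mul_le_mul_of_nonneg_left (by linarith) K0.le
    have h2 : 2 * J * q * F1 ≤ (q - n) * K * F1 := mul_le_mul_of_nonneg_right c2 f1.le
    have h3 : 0 ≤ K * (q * (F1 - j * ρ) - (n * F1 - j * E)) := by nlinarith
    have h4 : 0 ≤ q * (F1 - j * ρ) - (n * F1 - j * E) := nonneg_of_mul_nonneg_right h3 K0
    linarith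
  have u2 : α * F1 - j * R ≤ F1 - j * ρ := by
    rw [← key] at u1
    exact le_of_mul_le_mul_left u1 q0
  calc (α * F1 - j * R) * (F1 + F2) ≤ (F1 - j * ρ) * (F1 + F2) :=
        mul_le_mul_of_nonneg_right u2 (by linarith)
    _ < (F1 - j * ρ) * W := mul_lt_mul_of_pos_left hW (by linarith)
    _ = W * (F1 - j * ρ) := by ring

/-- the row of `u` -/
theorem row_one {F1 F2 W ρ R J K α j : ℤ} (f1 : 0 < F1) (f2 : 0 < F2) (hW : F1 + F2 < W)
    (hRl : ρ ≤ R) (K8 : 8 * J ≤ K)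
    (hE : K * R ≤ F1) (hn : α = 1) (j0 : 0 ≤ j) (j1 : j < J) (ρ0 : 0 ≤ ρ) :
    0 < α * F1 - j * R ∧ (α * F1 - j * R) * (F1 + F2) < W * (F1 - j * ρ) := by
  subst hn
  have R0 : 0 ≤ R := le_trans ρ0 hRl
  have h1 : j * R ≤ J * R := mul_le_mul_of_nonneg_right j1.le R0
  have h2 : 8 * (J * R) ≤ F1 := by
    have : 8 * J * R ≤ K * R := mul_le_mul_of_nonneg_right K8 R0
    linarith
  have l2 : 0 < 1 * F1 - j * R := by
    have : 0 ≤ j * R := mul_nonneg j0 R0
    linarith
  refine ⟨l2, ?_⟩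
  have u2 : 1 * F1 - j * R ≤ F1 - j * ρ := by
    have : j * ρ ≤ j * R := mul_le_mul_of_nonneg_left hRl j0
    linarith
  calc (1 * F1 - j * R) * (F1 + F2) ≤ (F1 - j * ρ) * (F1 + F2) :=
        mul_le_mul_of_nonneg_right u2 (by linarith)
    _ < (F1 - j * ρ) * W := mul_lt_mul_of_pos_left hW (by linarith)
    _ = W * (F1 - j * ρ) := by ring

/-- the vector `z` is the centre of an exit of the tree with the windows `l`, `m` -/
def Lg (u v l m z : Z2) : Prop :=
  0 < cr z l ∧ 0 < cr z m ∧ cr z l + cr z m < cr u v + cr u l + cr u m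

/-- **EXACT LEGALITY** on the side `ε` -/
theorem Lg.of_row {u v l m y z : Z2} {ε κ ρ R α j : ℤ} (f1 : 0 < cr u l) (f2 : 0 < cr u m)
    (f0 : 0 < cr u v) (hε : ε = 1 ∨ ε = -1) (hρ : cr l m = ε * ρ) (ρ0 : 0 ≤ ρ)
    (hy : y = ε • (v + l + m) + κ • u) (hR : cr y l = -R) (hz : z = α • u + j • y) (j0 : 0 ≤ j)
    (h1 : 0 < α * cr u l - j * R)
    (h2 : (α * cr u l - j * R) * (cr u l + cr u m) <
      (cr u v + cr u l + cr u m) * (cr u l - j * ρ)) : Lg u v l m z := by
  obtain ⟨W, hW⟩ : ∃ W, W = cr u v + cr u l + cr u m := ⟨_, rfl⟩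
  have W0 : 0 < W := by rw [hW]; linarith
  have ee : ε * ε = 1 := by rcases hε with h | h <;> rw [h] <;> norm_num
  have eX : cr z l = α * cr u l - j * R := by
    have : cr z l = α * cr u l + j * cr y l := by
      rw [hz]
      simp only [cr, Prod.fst_add, Prod.snd_add, Prod.smul_fst, Prod.smul_snd, smul_eq_mul]
      ring
    rw [this, hR]; ring
  have eP : cr u l * cr y m = cr u m * cr y l + W * ρ := by
    have h3 : cr u l * cr y m - cr u m * cr y l = cr u y * cr l m := by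
      simp only [cr]; ring
    have h4 : cr u y = ε * W := by
      rw [hy, hW]
      simp only [cr, Prod.fst_add, Prod.snd_add, Prod.smul_fst, Prod.smul_snd, smul_eq_mul]
      ring
    rw [h4, hρ] at h3
    linear_combination h3 + W * ρ * ee
  have eY : cr u l * cr z m = cr u m * cr z l + j * (W * ρ) := by
    have h3 : cr z m = α * cr u m + j * cr y m := by
      rw [hz]
      simp only [cr, Prod.fst_add, Prod.snd_add, Prod.smul_fst, Prod.smul_snd, smul_eq_mul]
      ring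
    have h4 : cr z l = α * cr u l + j * cr y l := by
      rw [hz]
      simp only [cr, Prod.fst_add, Prod.snd_add, Prod.smul_fst, Prod.smul_snd, smul_eq_mul]
      ring
    rw [h3, h4]
    linear_combination j * eP
  rw [← hW] at h2
  have hX : 0 < cr z l := by rw [eX]; exact h1
  have hjW : 0 ≤ j * (W * ρ) := mul_nonneg j0 (mul_nonneg W0.le ρ0)
  refine ⟨hX, ?_, ?_⟩
  · have : 0 < cr u l * cr z m := by
      rw [eY]
      have := mul_pos f2 hX
      linarith
    exact (mul_pos_iff_of_pos_left f1).1 this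
  · rw [← hW]
    have h5 : cr u l * (cr z l + cr z m) < cr u l * W := by
      calc cr u l * (cr z l + cr z m) = cr z l * (cr u l + cr u m) + j * (W * ρ) := by
            rw [mul_add, eY]; ring
        _ < W * (cr u l - j * ρ) + j * (W * ρ) := by
            rw [eX]; linarith
        _ = cr u l * W := by ring
    exact lt_of_mul_lt_mul_left h5 f1.le

/-- the data of the rows of centres over `y = ε (v + l + m) + κ u`: `(h, g)` is a basis of
`⟨u, v + l + m⟩`, `q` is the denominator, every row `n` in the range contains `J` consecutive centres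
`n h + t g` -/
structure Rows (u v l m y : Z2) (J K : ℤ) (h g : Z2) (α j p q : ℤ) : Prop where
  hh : h = α • u + j • y
  hg : g = p • u + q • y
  det : α * q - j * p = 1
  q0 : 0 < q
  qK : q ≤ K
  one : q = 1 → p = 0
  app : K * |q * cr y l + p * cr u l| ≤ cr u l
  row : ∀ n : ℤ, 0 < n → ((q = 1 ∧ n = 1) ∨ (J * q ≤ n * K ∧ 2 * J * q ≤ (q - n) * K)) →
    ∃ t0 : ℤ, ∀ t : ℤ, t0 ≤ t → t < t0 + J → Lg u v l m (n • h + t • g)

/-- **(G4), the rows of centres** -/
theorem rows_exist {u v l m y : Z2} {ε κ ρ R J K : ℤ} (f0 : 0 < cr u v) (f1 : 0 < cr u l)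
    (f2 : 0 < cr u m) (hε : ε = 1 ∨ ε = -1) (hρ : cr l m = ε * ρ) (ρ0 : 0 ≤ ρ)
    (hy : y = ε • (v + l + m) + κ • u) (hR : cr y l = -R) (hRl : ρ ≤ R)
    (hRu : 4 * R ≤ 3 * cr u l) (J1 : 1 ≤ J) (K8 : 8 * J ≤ K) (hK : K ^ 2 * ρ ≤ cr u l) :
    ∃ h g α j p q, Rows u v l m y J K h g α j p q := by
  have K0 : 0 < K := by linarith
  obtain ⟨p, q, q0, qK, hpq, hE⟩ := dirichletZ R (cr u l) f1 K0
  have hone : q = 1 → p = 0 := by
    intro hq
    rw [hq, one_mul] at hE
    rcases lt_trichotomy p 0 with h | h | h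
    · exfalso
      have h1 : p * cr u l ≤ (-1) * cr u l := mul_le_mul_of_nonneg_right (by omega) f1.le
      have h2 : cr u l ≤ |R - p * cr u l| := by
        refine le_trans ?_ (le_abs_self _)
        linarith
      have h3 : K * cr u l ≤ K * |R - p * cr u l| := mul_le_mul_of_nonneg_left h2 K0.le
      have h4 : 8 * cr u l ≤ K * cr u l := mul_le_mul_of_nonneg_right (by linarith) f1.le
      linarith
    · exact h
    · exfalso
      have h1 : 1 * cr u l ≤ p * cr u l := mul_le_mul_of_nonneg_right (by omega) f1.le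
      have h2 : cr u l ≤ 4 * |R - p * cr u l| := by
        have h3 : p * cr u l - R ≤ |R - p * cr u l| := by
          rw [abs_sub_comm]; exact le_abs_self _
        linarith
      have h3 : K * cr u l ≤ K * (4 * |R - p * cr u l|) := mul_le_mul_of_nonneg_left h2 K0.le
      have h4 : 8 * cr u l ≤ K * cr u l := mul_le_mul_of_nonneg_right (by linarith) f1.le
      linarith
  obtain ⟨a, b, hab⟩ := hpq
  -- `b q - (-a) p = 1`
  refine ⟨b • u + (-a) • y, p • u + q • y, b, -a, p, q, rfl, rfl, by linarith, q0, qK, hone, ?_, ?_⟩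
  · rw [hR]
    have : q * -R + p * cr u l = -(q * R - p * cr u l) := by ring
    rw [this, abs_neg]
    exact hE
  intro n n0 hn
  refine ⟨-((n * -a) / q), fun t ht1 ht2 => ?_⟩
  obtain ⟨r, hr⟩ : ∃ r, r = (n * -a) % q := ⟨_, rfl⟩
  have r0 : 0 ≤ r := by rw [hr]; exact Int.emod_nonneg _ q0.ne'
  have r1 : r < q := by rw [hr]; exact Int.emod_lt_of_pos _ q0
  have hdiv : n * -a = q * ((n * -a) / q) + r := by rw [hr]; exact (Int.mul_ediv_add_emod _ _).symm
  obtain ⟨d, hd⟩ : ∃ d, d = (n * -a) / q := ⟨_, rfl⟩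
  rw [← hd] at ht1 ht2 hdiv
  have jt0 : 0 ≤ n * -a + t * q := by
    have : 0 ≤ (t + d) * q := mul_nonneg (by linarith) q0.le
    rw [hdiv]
    linarith
  have jt1 : n * -a + t * q < J * q := by
    have : (t + d) * q ≤ (J - 1) * q := mul_le_mul_of_nonneg_right (by linarith) q0.le
    rw [hdiv]
    linarith
  have hz : n • (b • u + (-a) • y) + t • (p • u + q • y) =
      (n * b + t * p) • u + (n * -a + t * q) • y := by module
  have hW : cr u l + cr u m < cr u v + cr u l + cr u m := by linarith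
  have hdet : (n * b + t * p) * q - (n * -a + t * q) * p = n := by
    linear_combination n * hab
  rcases hn with ⟨hq, hn⟩ | ⟨c1, c2⟩
  · have hp := hone hq
    have hE' : K * R ≤ cr u l := by
      rw [hq, hp, one_mul, zero_mul, sub_zero, abs_of_nonneg (le_trans ρ0 hRl)] at hE
      exact hE
    have hα : n * b + t * p = 1 := by
      rw [hq, hp] at hdet
      rw [hp]
      linarith
    obtain ⟨e1, e2⟩ := row_one (F1 := cr u l) (F2 := cr u m)
      (W := cr u v + cr u l + cr u m) (ρ := ρ) (R := R) (J := J) (K := K) (α := n * b + t * p)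
      (j := n * -a + t * q) f1 f2 hW hRl K8 hE' hα jt0
      (lt_of_lt_of_eq jt1 (by rw [hq, mul_one])) ρ0
    exact Lg.of_row f1 f2 f0 hε hρ ρ0 hy hR hz jt0 e1 e2
  · obtain ⟨e1, e2⟩ := row_core (W := cr u v + cr u l + cr u m) f1 f2 hW ρ0 hK J1 K8 q0 qK hE
      c1 c2 hdet jt0 jt1
    exact Lg.of_row f1 f2 f0 hε hρ ρ0 hy hR hz jt0 e1 e2

/-- an integer in a window which is coprime to `D` -/
theorem cop_window {J X : ℕ} (hcap : Cap J X) {D : ℤ} (hD : D ≠ 0) (hX : |D| ≤ X) (n0 : ℤ) :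
    ∃ n, n0 ≤ n ∧ n < n0 + J ∧ IsCoprime n D := by
  obtain ⟨z, h1, h2, h3⟩ := sievePair (k := 1) (e := 1) hcap (D0 := |D|) (abs_pos.2 hD) hX
    (by norm_num) (fun _ => 1) (fun _ => 0) (fun _ => 0) (fun _ => D)
    (fun _ => by rw [dvd_abs]; simp)
    (fun p hp _ => Or.inl ⟨hp.one_lt, fun _ h1 _ _ _ => prime_not_dvd_one hp h1⟩) n0
  rw [pow_one] at h2
  refine ⟨z, h1, h2, ?_⟩
  have := h3 0
  simpa using this

/-- a good row which is coprime to `D` -/
theorem good_row {J X : ℕ} (hcap : Cap J X) {K q D : ℤ} (hD : D ≠ 0) (hX : |D| ≤ X) (J1 : 1 ≤ J)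
    (hK : 16 * (J : ℤ) ^ 2 ≤ K) (q0 : 0 < q) (qK : q ≤ K) :
    ∃ n : ℤ, 0 < n ∧ n ≤ K ∧ IsCoprime n D ∧
      ((q = 1 ∧ n = 1) ∨ (J * q ≤ n * K ∧ 2 * J * q ≤ (q - n) * K)) := by
  have J1' : (1 : ℤ) ≤ J := by exact_mod_cast J1
  have K0 : 0 < K := by nlinarith
  by_cases h1 : q = 1
  · exact ⟨1, one_pos, by linarith, isCoprime_one_left, Or.inl ⟨h1, rfl⟩⟩
  have q2 : 2 ≤ q := by omega
  by_cases h2 : 2 * J * q ≤ K
  · refine ⟨1, one_pos, by linarith, isCoprime_one_left, Or.inr ⟨?_, ?_⟩⟩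
    · have : 0 < (J : ℤ) * q := by positivity
      linarith
    · have : 1 * K ≤ (q - 1) * K := mul_le_mul_of_nonneg_right (by linarith) K0.le
      linarith
  · push Not at h2
    have h3 : 8 * (J : ℤ) < q := by
      have : 2 * (J : ℤ) * (8 * J) < 2 * J * q := by nlinarith
      exact lt_of_mul_lt_mul_left this (by positivity)
    obtain ⟨n, n1, n2, n3⟩ := cop_window hcap hD hX ((q + 3) / 4)
    have n4 : q ≤ 4 * n := by omega
    have n5 : 4 * n ≤ 3 * q := by omega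
    refine ⟨n, by omega, by omega, n3, Or.inr ⟨?_, ?_⟩⟩
    · have h4 : q * K ≤ 4 * n * K := mul_le_mul_of_nonneg_right n4 K0.le
      have h5 : 4 * J ≤ K := by nlinarith
      have h6 : 4 * (J : ℤ) * q ≤ K * q := mul_le_mul_of_nonneg_right h5 q0.le
      linarith
    · have h4 : q * K ≤ 4 * (q - n) * K := mul_le_mul_of_nonneg_right (by linarith) K0.le
      have h5 : 8 * J ≤ K := by nlinarith
      have h6 : 8 * (J : ℤ) * q ≤ K * q := mul_le_mul_of_nonneg_right h5 q0.le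
      linarith

/-- an even good row `2 n'`, `n'` coprime to `D`, as soon as the denominator is at least 3 -/
theorem good_row2 {J X : ℕ} (hcap : Cap J X) {K q D : ℤ} (hD : D ≠ 0) (hX : |D| ≤ X) (J1 : 1 ≤ J)
    (hK : 16 * (J : ℤ) ^ 2 ≤ K) (q3 : 3 ≤ q) (qK : q ≤ K) :
    ∃ n : ℤ, 0 < n ∧ 2 * n ≤ K ∧ IsCoprime n D ∧
      (2 * J * q ≤ (2 * n) * K ∧ 2 * J * q ≤ (q - 2 * n) * K) := by
  have J1' : (1 : ℤ) ≤ J := by exact_mod_cast J1
  have K0 : 0 < K := by nlinarith
  have q0 : 0 < q := by linarith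
  by_cases h2 : 2 * J * q ≤ K
  · refine ⟨1, one_pos, by linarith, isCoprime_one_left, ?_, ?_⟩
    · have : 0 < (J : ℤ) * q := by positivity
      linarith
    · have : 1 * K ≤ (q - 2 * 1) * K := mul_le_mul_of_nonneg_right (by linarith) K0.le
      linarith
  · push Not at h2
    have h3 : 8 * (J : ℤ) < q := by
      have : 2 * (J : ℤ) * (8 * J) < 2 * J * q := by nlinarith
      exact lt_of_mul_lt_mul_left this (by positivity)
    obtain ⟨n, n1, n2, n3⟩ := cop_window hcap hD hX ((q + 7) / 8)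
    have n4 : q ≤ 8 * n := by omega
    have n5 : 4 * (2 * n) ≤ 3 * q := by omega
    refine ⟨n, by omega, by omega, n3, ?_, ?_⟩
    · have h4 : q * K ≤ 8 * n * K := mul_le_mul_of_nonneg_right n4 K0.le
      have h5 : 8 * J ≤ K := by nlinarith
      have h6 : 8 * (J : ℤ) * q ≤ K * q := mul_le_mul_of_nonneg_right h5 q0.le
      linarith
    · have h4 : q * K ≤ 4 * (q - 2 * n) * K := mul_le_mul_of_nonneg_right (by linarith) K0.le
      have h5 : 8 * J ≤ K := by nlinarith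
      have h6 : 8 * (J : ℤ) * q ≤ K * q := mul_le_mul_of_nonneg_right h5 q0.le
      linarith

/-- the sieve for two pairs of linear forms along a row `n h + t g` -/
theorem sieve_row {J X : ℕ} (hcap : Cap J X) {ph qh pg qg ph' qh' pg' qg' n : ℤ} (n0 : n ≠ 0)
    (hD : pg * qh - ph * qg ≠ 0) (hD' : pg' * qh' - ph' * qg' ≠ 0)
    (hX : |n * (pg * qh - ph * qg) * (n * (pg' * qh' - ph' * qg'))| ≤ X)
    (hp : ∀ r : ℕ, r.Prime → (r : ℤ) ∣ ph → (r : ℤ) ∣ qh → (r : ℤ) ∣ pg → ¬ (r : ℤ) ∣ qg)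
    (hp' : ∀ r : ℕ, r.Prime → (r : ℤ) ∣ ph' → (r : ℤ) ∣ qh' → (r : ℤ) ∣ pg' → ¬ (r : ℤ) ∣ qg')
    (hn : ∀ r : ℕ, r.Prime → (r : ℤ) ∣ n → ¬ ((r : ℤ) ∣ pg ∧ (r : ℤ) ∣ qg) ∧
      ¬ ((r : ℤ) ∣ pg' ∧ (r : ℤ) ∣ qg'))
    (h2 : ¬ (2 : ℤ) ∣ n → ∃ y : ℤ, ¬ ((2 : ℤ) ∣ pg * y + n * ph ∧ (2 : ℤ) ∣ qg * y + n * qh) ∧
      ¬ ((2 : ℤ) ∣ pg' * y + n * ph' ∧ (2 : ℤ) ∣ qg' * y + n * qh')) (t0 : ℤ) :
    ∃ t, t0 ≤ t ∧ t < t0 + J ∧ IsCoprime (pg * t + n * ph) (qg * t + n * qh) ∧
      IsCoprime (pg' * t + n * ph') (qg' * t + n * qh') := by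
  obtain ⟨t, t1, t2, t3⟩ := sievePair (k := 2) (e := 1) hcap
    (D0 := |n * (pg * qh - ph * qg) * (n * (pg' * qh' - ph' * qg'))|)
    (abs_pos.2 (mul_ne_zero (mul_ne_zero n0 hD) (mul_ne_zero n0 hD'))) hX (by norm_num)
    ![pg, pg'] ![n * ph, n * ph'] ![qg, qg'] ![n * qh, n * qh']
    (fun i => by
      rw [dvd_abs]
      fin_cases i
      · refine ⟨n * (pg' * qh' - ph' * qg'), ?_⟩
        simp only [Fin.zero_eta, Matrix.cons_val_zero]
        ring
      · refine ⟨n * (pg * qh - ph * qg), ?_⟩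
        simp only [Fin.mk_one, Matrix.cons_val_one, Matrix.cons_val_fin_one]
        ring)
    (fun p hpr hpD => by
      by_cases hpn : (p : ℤ) ∣ n
      · right
        refine ⟨1, fun i => ?_⟩
        obtain ⟨k1, k2⟩ := hn p hpr hpn
        fin_cases i
        · intro h1 h3
          simp only [Fin.zero_eta, Matrix.cons_val_zero, mul_one] at h1 h3
          exact k1 ⟨(dvd_add_left (hpn.mul_right _)).1 h1, (dvd_add_left (hpn.mul_right _)).1 h3⟩
        · intro h1 h3
          simp only [Fin.mk_one, Matrix.cons_val_one, Matrix.cons_val_fin_one, mul_one] at h1 h3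
          exact k2 ⟨(dvd_add_left (hpn.mul_right _)).1 h1, (dvd_add_left (hpn.mul_right _)).1 h3⟩
      · rcases hpr.eq_two_or_odd' with h3 | h3
        · right
          subst h3
          obtain ⟨y, y1, y2⟩ := h2 hpn
          refine ⟨y, fun i => ?_⟩
          fin_cases i
          · intro h4 h5
            exact y1 ⟨by simpa using h4, by simpa using h5⟩
          · intro h4 h5
            exact y2 ⟨by simpa using h4, by simpa using h5⟩
        · left
          have hp2 : 2 < p := by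
            have := hpr.two_le
            rcases h3 with ⟨k, hk⟩
            omega
          have hc : ∀ w : ℤ, (p : ℤ) ∣ n * w → (p : ℤ) ∣ w := fun w hw =>
            ((Nat.prime_iff_prime_int.1 hpr).dvd_or_dvd hw).resolve_left hpn
          refine ⟨hp2, fun i => ?_⟩
          fin_cases i
          · intro k1 k2 k3 k4
            simp only [Fin.zero_eta, Matrix.cons_val_zero] at k1 k2 k3 k4
            exact hp p hpr (hc _ k3) (hc _ k4) k1 k2
          · intro k1 k2 k3 k4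
            simp only [Fin.mk_one, Matrix.cons_val_one, Matrix.cons_val_fin_one] at k1 k2 k3 k4
            exact hp' p hpr (hc _ k3) (hc _ k4) k1 k2) t0
  rw [pow_one] at t2
  refine ⟨t, t1, t2, ?_, ?_⟩
  · have := t3 0
    simpa using this
  · have := t3 1
    simpa using this

/-- the data of a pair of forms `z ↦ (z × a, z × b)` on the lattice `⟨h, g⟩`, divided by their content
`G` -/
theorem forms_norm {h g a b : Z2} {G : ℤ} (G0 : 0 < G) (h1 : G ∣ cr h a) (h2 : G ∣ cr h b)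
    (h3 : G ∣ cr g a) (h4 : G ∣ cr g b)
    (hG : ∀ d : ℤ, d ∣ cr h a → d ∣ cr h b → d ∣ cr g a → d ∣ cr g b → d ∣ G) :
    ∃ ph qh pg qg : ℤ, cr h a = G * ph ∧ cr h b = G * qh ∧ cr g a = G * pg ∧ cr g b = G * qg ∧
      G ^ 2 * (pg * qh - ph * qg) = cr g h * cr a b ∧
      ∀ r : ℕ, r.Prime → (r : ℤ) ∣ ph → (r : ℤ) ∣ qh → (r : ℤ) ∣ pg → ¬ (r : ℤ) ∣ qg := by
  obtain ⟨ph, e1⟩ := h1
  obtain ⟨qh, e2⟩ := h2
  obtain ⟨pg, e3⟩ := h3
  obtain ⟨qg, e4⟩ := h4
  refine ⟨ph, qh, pg, qg, e1, e2, e3, e4, ?_, ?_⟩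
  · have h5 : cr g a * cr h b - cr h a * cr g b = cr g h * cr a b := by
      simp only [cr]; ring
    rw [e1, e2, e3, e4] at h5
    linear_combination h5
  · intro r hr k1 k2 k3 k4
    have h6 : G * r ∣ G * 1 := by
      rw [mul_one]
      refine hG _ ?_ ?_ ?_ ?_
      · rw [e1]; exact mul_dvd_mul_left _ k1
      · rw [e2]; exact mul_dvd_mul_left _ k2
      · rw [e3]; exact mul_dvd_mul_left _ k3
      · rw [e4]; exact mul_dvd_mul_left _ k4
    exact prime_not_dvd_one hr ((mul_dvd_mul_iff_left G0.ne').1 h6)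

/-- contents on the row -/
theorem ct_of_cop {h g a b z : Z2} {n t G ph qh pg qg : ℤ} (G0 : 0 < G) (e1 : cr h a = G * ph)
    (e2 : cr h b = G * qh) (e3 : cr g a = G * pg) (e4 : cr g b = G * qg)
    (hz : z = n • h + t • g) (hc : IsCoprime (pg * t + n * ph) (qg * t + n * qh)) :
    ct z a b = G := by
  have k1 : cr z a = G * (pg * t + n * ph) := by
    have : cr z a = n * cr h a + t * cr g a := by
      rw [hz]; simp only [cr, Prod.fst_add, Prod.snd_add, Prod.smul_fst, Prod.smul_snd,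
        smul_eq_mul]; ring
    rw [this, e1, e3]; ring
  have k2 : cr z b = G * (qg * t + n * qh) := by
    have : cr z b = n * cr h b + t * cr g b := by
      rw [hz]; simp only [cr, Prod.fst_add, Prod.snd_add, Prod.smul_fst, Prod.smul_snd,
        smul_eq_mul]; ring
    rw [this, e2, e4]; ring
  unfold ct
  rw [k1, k2, Int.gcd_mul_left, Int.isCoprime_iff_gcd_eq_one.1 hc, mul_one]
  exact Int.natAbs_of_nonneg G0.le

end Pool.Agent.H4G.Six
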