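import Pool.Agent.H4G.Six.D2.W0
import Pool.Agent.H4G.Six.D2.G4

/-!
# From a rich torus to rows of centres (D2, helper83)

`box_rows`: if `L = ⟨l, p⟩` is rich over the slit `m` then there is a two-dimensional box of slits
`l₁ = x la + y lb` of `L`, over each of which the centres of the configuration `(l₁, m)` contain whole
rows (`Rows` of helper69). Both regimes `A ≫ F₂` (rich over `w₀ = v + m + α u`) and `A ≲ F₂` (right
side of `m`, thin cone) are covered.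
-/

set_option autoImplicit false

namespace Pool.Agent.H4G.Six

open Pool.Agent.H4G

/-- rows of centres over the pair `(l₁, m)`; either the denominator is at least 3 or `A` is small and
`l₁` is in the thin cone around `m` -/
def RowsOver (u v m l1 : Z2) (J K K2 K3 : ℤ) : Prop :=
  ∃ ε κ R ρ : ℤ, ∃ h g : Z2, ∃ α j p q : ℤ, (ε = 1 ∨ ε = -1) ∧ cr l1 m = ε * ρ ∧ 0 < ρ ∧
    ρ ≤ R ∧ 4 * R ≤ 3 * cr u l1 ∧ cr (ε • (v + l1 + m) + κ • u) l1 = -R ∧
    Rows u v l1 m (ε • (v + l1 + m) + κ • u) J K h g α j p q ∧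
    (3 ≤ q ∨ (cr u v < 2 * K2 * cr u m ∧ K3 * |cr l1 m| ≤ cr u l1))

/-- the denominator is at least 3 -/
theorem Rows.three {u v l m y h g : Z2} {J K α j p q R : ℤ} (hr : Rows u v l m y J K h g α j p q)
    (f1 : 0 < cr u l) (hR : cr y l = -R) (h1 : cr u l ≤ 64 * R) (h2 : 4 * R ≤ cr u l)
    (hK : 65 ≤ K) : 3 ≤ q := by
  have happ := hr.app
  rw [hR] at happ
  have q0 := hr.q0
  by_contra hq
  have hq2 : q = 1 ∨ q = 2 := by omega
  have hR0 : 0 < R := by linarith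
  have K0 : 0 < K := by linarith
  rcases hq2 with h | h
  · have hp := hr.one h
    rw [h, hp] at happ
    have e : |1 * -R + 0 * cr u l| = R := by
      rw [zero_mul, add_zero, one_mul, abs_neg, abs_of_pos hR0]
    rw [e] at happ
    have : 65 * R ≤ K * R := mul_le_mul_of_nonneg_right hK hR0.le
    linarith
  · rw [h] at happ
    have key : cr u l ≤ 32 * |2 * -R + p * cr u l| := by
      rcases le_or_gt p 0 with hp | hp
      · have h3 : p * cr u l ≤ 0 := mul_nonpos_of_nonpos_of_nonneg hp f1.le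
        have h4 : -(2 * -R + p * cr u l) ≤ |2 * -R + p * cr u l| := neg_le_abs _
        linarith
      · have h3 : 1 * cr u l ≤ p * cr u l := mul_le_mul_of_nonneg_right hp f1.le
        have h4 : 2 * -R + p * cr u l ≤ |2 * -R + p * cr u l| := le_abs_self _
        linarith
    have h5 : 65 * |2 * -R + p * cr u l| ≤ K * |2 * -R + p * cr u l| :=
      mul_le_mul_of_nonneg_right hK (abs_nonneg _)
    linarith

/-- the regime `A ≫ F₂`: one slit -/
theorem rows_w0 {u v m l1 : Z2} {J K K2 K3 α : ℤ} (f0 : 0 < cr u v) (f2 : 0 < cr u m)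
    (J1 : 1 ≤ J) (K8 : 8 * J ≤ K) (K65 : 65 ≤ K) (hK2 : 128 ≤ K2) (hKK : 2 * K ^ 2 ≤ K2)
    (hA : 2 * K2 * cr u m ≤ cr u v) (a1 : 0 ≤ cr v m + α * cr u m)
    (a2 : K2 * (cr v m + α * cr u m) ≤ cr u v + K2 * cr u m) (f1 : 0 < cr u l1)
    (r1 : cr u l1 ≤ 64 * cr l1 (v + m + α • u)) (r2 : 4 * cr l1 (v + m + α • u) ≤ cr u l1) :
    RowsOver u v m l1 J K K2 K3 ∧ cr l1 (v + m + α • u) * cr u m ≤ cr l1 m * (cr u v + cr u m) := by
  obtain ⟨A, hAd⟩ : ∃ A, A = cr u v := ⟨_, rfl⟩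
  obtain ⟨F, hF⟩ : ∃ F, F = cr u m := ⟨_, rfl⟩
  obtain ⟨D, hD⟩ : ∃ D, D = cr v m := ⟨_, rfl⟩
  obtain ⟨F1, hF1⟩ : ∃ F1, F1 = cr u l1 := ⟨_, rfl⟩
  obtain ⟨R, hR⟩ : ∃ R, R = cr l1 (v + m + α • u) := ⟨_, rfl⟩
  obtain ⟨ρ, hρ⟩ : ∃ ρ, ρ = cr l1 m := ⟨_, rfl⟩
  have huw : cr u (v + m + α • u) = A + F := by
    rw [hAd, hF]
    simp only [cr, Prod.fst_add, Prod.snd_add, Prod.smul_fst, Prod.smul_snd, smul_eq_mul]
    ring
  have hwm : cr (v + m + α • u) m = D + α * F := by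
    rw [hD, hF]
    simp only [cr, Prod.fst_add, Prod.snd_add, Prod.smul_fst, Prod.smul_snd, smul_eq_mul]
    ring
  have hP := cr_plucker u (v + m + α • u) l1 m
  rw [huw, hwm, ← hF, ← hF1, ← hρ, cr_swap' l1, ← hR] at hP
  rw [← hR] at r1 r2 ⊢
  rw [← hF1] at r1 r2 f1
  rw [← hF, ← hD] at a1
  rw [← hF, ← hD, ← hAd] at a2
  rw [← hF] at f2
  rw [← hAd] at f0
  rw [← hF, ← hAd] at hA
  rw [← hF, ← hρ, ← hAd]
  have R0 : 0 < R := by linarith
  have AF : 0 < A + F := by linarith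
  have K20 : 0 < K2 := by linarith
  -- the size of `ρ`
  have s1 : R * F ≤ ρ * (A + F) := by
    have : 0 ≤ F1 * (D + α * F) := mul_nonneg f1.le a1
    linarith
  have ρ0 : 0 < ρ := by
    have h1 : 0 < R * F := mul_pos R0 f2
    have h2 : 0 < ρ * (A + F) := by linarith
    exact (mul_pos_iff_of_pos_right AF).1 h2
  have s2 : K2 * ρ ≤ 2 * F1 := by
    have h1 : F1 * (K2 * (D + α * F)) ≤ F1 * (A + K2 * F) :=
      mul_le_mul_of_nonneg_left a2 f1.le
    have h2 : F1 * (2 * (K2 * F)) ≤ F1 * A := mul_le_mul_of_nonneg_left (by linarith) f1.le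
    have h3 : 4 * R * (K2 * F) ≤ F1 * (K2 * F) :=
      mul_le_mul_of_nonneg_right r2 (by positivity)
    have h4 : (A + F) * (K2 * ρ) ≤ (A + F) * (2 * F1) := by
      have h5 : (A + F) * (K2 * ρ) = F1 * (K2 * (D + α * F)) + R * (K2 * F) := by
        linear_combination (-K2) * hP
      have h6 : 0 ≤ F1 * F := by positivity
      have h7 : 0 ≤ F1 * A := by positivity
      rw [h5]
      linarith
    exact le_of_mul_le_mul_left h4 AF
  have s3 : ρ ≤ R := by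
    have h1 : 128 * ρ ≤ K2 * ρ := mul_le_mul_of_nonneg_right hK2 ρ0.le
    linarith
  have s4 : K ^ 2 * ρ ≤ F1 := by
    have h1 : 2 * K ^ 2 * ρ ≤ K2 * ρ := mul_le_mul_of_nonneg_right hKK ρ0.le
    linarith
  have hy : cr ((1 : ℤ) • (v + l1 + m) + α • u) l1 = -R := by
    rw [hR]
    simp only [cr, Prod.fst_add, Prod.snd_add, Prod.smul_fst, Prod.smul_snd, smul_eq_mul]
    ring
  refine ⟨?_, s1⟩
  obtain ⟨h, g, α', j, p, q, hrows⟩ := rows_exist (u := u) (v := v) (l := l1) (m := m)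
    (y := (1 : ℤ) • (v + l1 + m) + α • u) (ε := 1) (κ := α) (ρ := ρ) (R := R) (J := J) (K := K)
    (by rw [← hAd]; exact f0) (by rw [← hF1]; exact f1) (by rw [← hF]; exact f2) (Or.inl rfl)
    (by rw [← hρ]; ring) ρ0.le rfl hy s3 (by rw [← hF1]; linarith) J1 K8
    (by rw [← hF1]; exact s4)
  exact ⟨1, α, R, ρ, h, g, α', j, p, q, Or.inl rfl, by rw [← hρ]; ring, ρ0, s3,
    by rw [← hF1]; linarith, hy, hrows,
    Or.inl (hrows.three (by rw [← hF1]; exact f1) hy (by rw [← hF1]; exact r1)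
      (by rw [← hF1]; exact r2) K65)⟩

/-- the regime `A ≲ F₂`: one slit on the right side of `m` -/
theorem rows_cone {u v m l1 : Z2} {J K K2 K3 ε δ κ : ℤ} (f0 : 0 < cr u v) (f2 : 0 < cr u m)
    (J1 : 1 ≤ J) (K8 : 8 * J ≤ K) (hK2 : 1 ≤ K2) (hK3 : 12 * K2 ≤ K3) (hKK : K ^ 2 ≤ K3)
    (hA : cr u v < 2 * K2 * cr u m) (hε : ε = 1 ∨ ε = -1)
    (hδ : ε * cr v m + κ * cr u m = -δ) (δ0 : 0 ≤ δ) (δ1 : 2 * δ ≤ cr u m) (f1 : 0 < cr u l1)
    (r0 : 0 < ε * cr l1 m) (r1 : K3 * (ε * cr l1 m) ≤ cr u l1) :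
    RowsOver u v m l1 J K K2 K3 := by
  obtain ⟨A, hAd⟩ : ∃ A, A = cr u v := ⟨_, rfl⟩
  obtain ⟨F, hF⟩ : ∃ F, F = cr u m := ⟨_, rfl⟩
  obtain ⟨D, hD⟩ : ∃ D, D = cr v m := ⟨_, rfl⟩
  obtain ⟨F1, hF1⟩ : ∃ F1, F1 = cr u l1 := ⟨_, rfl⟩
  obtain ⟨ρ, hρ⟩ : ∃ ρ, ρ = ε * cr l1 m := ⟨_, rfl⟩
  have ee : ε * ε = 1 := by rcases hε with h | h <;> rw [h] <;> norm_num
  have hlm : cr l1 m = ε * ρ := by rw [hρ]; linear_combination (-cr l1 m) * ee
  have habs : |cr l1 m| = ρ := by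
    rw [hlm, abs_mul]
    rcases hε with h | h <;> rw [h] <;> simp [abs_of_pos (by rw [hρ]; exact r0 : 0 < ρ)]
  rw [← hρ] at r0 r1
  rw [← hF1] at r1 f1
  obtain ⟨R, hR⟩ : ∃ R, R = -cr (ε • (v + l1 + m) + κ • u) l1 := ⟨_, rfl⟩
  have hyl : cr (ε • (v + l1 + m) + κ • u) l1 = ε * cr v l1 - ε * cr l1 m + κ * F1 := by
    rw [hF1]
    simp only [cr, Prod.fst_add, Prod.snd_add, Prod.smul_fst, Prod.smul_snd, smul_eq_mul]
    ring
  have hP := cr_plucker u v l1 m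
  rw [← hF1, ← hD, ← hF, ← hAd, hlm] at hP
  have hFR : F * R = ρ * (A + F) + F1 * δ := by
    rw [hR, hyl, hlm]
    rw [← hD, ← hF] at hδ
    linear_combination ε * hP + (-F1) * hδ + (ρ * F + A * ρ) * ee
  rw [← hF] at f2 hδ δ1
  rw [← hAd] at f0
  rw [← hF, ← hAd] at hA
  have K20 : 0 < K2 := by linarith
  have s1 : ρ ≤ R := by
    have h1 : F * ρ ≤ F * R := by
      rw [hFR]
      have h2 : 0 ≤ F1 * δ := mul_nonneg f1.le δ0
      have h3 : 0 ≤ ρ * A := mul_nonneg r0.le f0.le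
      linarith
    exact le_of_mul_le_mul_left h1 f2
  have s2 : 4 * R ≤ 3 * F1 := by
    have h1 : F * (4 * R) ≤ F * (3 * F1) := by
      have h2 : F1 * (2 * δ) ≤ F1 * F := mul_le_mul_of_nonneg_left δ1 f1.le
      have h3 : ρ * A ≤ ρ * (2 * K2 * F) := mul_le_mul_of_nonneg_left hA.le r0.le
      have h4 : 12 * K2 * ρ ≤ K3 * ρ := mul_le_mul_of_nonneg_right hK3 r0.le
      have h5 : F * (12 * K2 * ρ) ≤ F * F1 :=
        mul_le_mul_of_nonneg_left (h4.trans r1) f2.le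
      have h6 : F * ρ * 1 ≤ F * ρ * K2 := mul_le_mul_of_nonneg_left hK2 (by positivity)
      have h7 : F * (4 * R) = 4 * (ρ * A) + 4 * (F * ρ) + 2 * (F1 * (2 * δ)) := by
        linear_combination 4 * hFR
      rw [h7]
      linarith
    exact le_of_mul_le_mul_left h1 f2
  have s3 : K ^ 2 * ρ ≤ F1 := (mul_le_mul_of_nonneg_right hKK r0.le).trans r1
  have hy : cr (ε • (v + l1 + m) + κ • u) l1 = -R := by rw [hR]; ring
  obtain ⟨h, g, α', j, p, q, hrows⟩ := rows_exist (u := u) (v := v) (l := l1) (m := m)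
    (y := ε • (v + l1 + m) + κ • u) (ε := ε) (κ := κ) (ρ := ρ) (R := R) (J := J) (K := K)
    (by rw [← hAd]; exact f0) (by rw [← hF1]; exact f1) (by rw [← hF]; exact f2) hε
    hlm r0.le rfl hy s1 (by rw [← hF1]; exact s2) J1 K8 (by rw [← hF1]; exact s3)
  exact ⟨ε, κ, R, ρ, h, g, α', j, p, q, hε, hlm, r0, s1, by rw [← hF1]; exact s2, hy, hrows,
    Or.inr ⟨by rw [← hAd, ← hF]; exact hA, by rw [habs, ← hF1]; exact r1⟩⟩

/-- the right side of `m` -/
theorem exists_side (D F : ℤ) (hF : 0 < F) : ∃ ε δ κ : ℤ, (ε = 1 ∨ ε = -1) ∧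
    ε * D + κ * F = -δ ∧ 0 ≤ δ ∧ 2 * δ ≤ F := by
  have d1 := Int.emod_nonneg D hF.ne'
  have d2 := Int.emod_lt_of_pos D hF
  have d3 := Int.emod_add_mul_ediv D F
  rcases le_or_gt (2 * (D % F)) F with h | h
  · refine ⟨-1, D % F, D / F, Or.inr rfl, ?_, d1, h⟩
    linarith
  · refine ⟨1, F - D % F, -(D / F) - 1, Or.inl rfl, ?_, by linarith, by linarith⟩
    linarith

/-- the coefficients of the vectors of a box are at most the area -/
theorem box_coef {u w la lb : Z2} {x y a K : ℤ} (ha : 0 < a) (hw : 0 < cr u w)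
    (hdet : cr lb la = a) (hK : 4 ≤ K) (h1 : |cr u (x • la + y • lb)| ≤ a)
    (h2 : |cr (x • la + y • lb) w| ≤ a) (q1 : K * |cr u la| ≤ 2 * a) (q2 : K * |cr la w| ≤ 2 * a)
    (q3 : K * |cr u lb| ≤ 2 * a) (q4 : K * |cr lb w| ≤ 2 * a) : |x| ≤ a ∧ |y| ≤ a := by
  obtain ⟨l1, hl1⟩ : ∃ l1 : Z2, l1 = x • la + y • lb := ⟨_, rfl⟩
  rw [← hl1] at h1 h2
  have e1 : cr l1 lb = -(x * a) := by
    rw [hl1, ← hdet]
    simp only [cr, Prod.fst_add, Prod.snd_add, Prod.smul_fst, Prod.smul_snd, smul_eq_mul]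
    ring
  have e2 : cr l1 la = y * a := by
    rw [hl1, ← hdet]
    simp only [cr, Prod.fst_add, Prod.snd_add, Prod.smul_fst, Prod.smul_snd, smul_eq_mul]
    ring
  have key : ∀ b : Z2, K * |cr u b| ≤ 2 * a → K * |cr b w| ≤ 2 * a → |cr l1 b| ≤ a * a := by
    intro b k1 k2
    have hP : cr u w * cr l1 b = cr u b * cr l1 w - cr u l1 * cr b w := by
      simp only [cr]; ring
    have k3 : 4 * |cr u b| ≤ 2 * a := (mul_le_mul_of_nonneg_right hK (abs_nonneg _)).trans k1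
    have k4 : 4 * |cr b w| ≤ 2 * a := (mul_le_mul_of_nonneg_right hK (abs_nonneg _)).trans k2
    have k5 : |cr u w * cr l1 b| ≤ a * a := by
      rw [hP]
      calc |cr u b * cr l1 w - cr u l1 * cr b w|
          ≤ |cr u b * cr l1 w| + |cr u l1 * cr b w| := abs_sub _ _
        _ = |cr u b| * |cr l1 w| + |cr u l1| * |cr b w| := by rw [abs_mul, abs_mul]
        _ ≤ |cr u b| * a + a * |cr b w| :=
          add_le_add (mul_le_mul_of_nonneg_left h2 (abs_nonneg _))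
            (mul_le_mul_of_nonneg_right h1 (abs_nonneg _))
        _ ≤ a * a := by nlinarith
    rw [abs_mul, abs_of_pos hw] at k5
    have k6 : 1 * |cr l1 b| ≤ cr u w * |cr l1 b| := mul_le_mul_of_nonneg_right hw (abs_nonneg _)
    linarith
  constructor
  · have h3 := key lb q3 q4
    rw [e1, abs_neg, abs_mul, abs_of_pos ha] at h3
    exact le_of_mul_le_mul_right h3 ha
  · have h3 := key la q1 q2
    rw [e2, abs_mul, abs_of_pos ha] at h3
    exact le_of_mul_le_mul_right h3 ha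

/-- **RICH ⟹ A BOX OF SLITS WITH ROWS OF CENTRES** -/
theorem box_rows {u v m l p : Z2} {J K K1 K2 K3 Kw T T2 : ℤ} (f0 : 0 < cr u v) (f2 : 0 < cr u m)
    (ha : 0 < cr p l) (J1 : 1 ≤ J) (K8 : 8 * J ≤ K) (K65 : 65 ≤ K) (hK2 : 2 * K ^ 2 ≤ K2)
    (hK3 : 12 * K2 ≤ K3) (hT : 0 ≤ T) (hT2 : 1 ≤ T2) (hKw : 512 * T2 * (T + 1) ≤ Kw)
    (hK1 : 6 * Kw * K2 ≤ K1) (hK1' : 128 * K3 * T2 * (T + 1) ≤ K1)
    (hbig : 3 * Kw ^ 2 * (cr u v + cr u m) < cr p l) (hr : RichL (lat l p) u m K1) :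
    ∃ la lb : Z2, lat la lb = lat l p ∧ cr lb la = cr p l ∧
      ∃ x0 y0 : ℤ, ∀ x y : ℤ, x0 ≤ x → x ≤ x0 + T → y0 ≤ y → y ≤ y0 + T →
        0 < cr u (x • la + y • lb) ∧ T2 * cr u (x • la + y • lb) ≤ cr p l ∧
        cr p l ≤ 4 * T2 * cr u (x • la + y • lb) ∧
        RowsOver u v m (x • la + y • lb) J K K2 K3 ∧
        cr p l * cr u m ≤ 64 * K3 * T2 * (|cr (x • la + y • lb) m| * (cr u v + cr u m)) ∧
        |x| ≤ cr p l ∧ |y| ≤ cr p l := by
  have hKK : (65 : ℤ) ^ 2 ≤ K ^ 2 := pow_le_pow_left₀ (by norm_num) K65 2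
  have K2b : 128 ≤ K2 := by linarith
  have K20 : 0 < K2 := by linarith
  have K30 : 0 < K3 := by linarith
  have hT1 : 1 ≤ T + 1 := by linarith
  have T20 : 0 < T2 := by linarith
  have Kw4 : 4 ≤ Kw := by
    have h1 : 1 ≤ T2 * (T + 1) := by nlinarith
    linarith
  have Kw1 : 1 ≤ Kw := by linarith
  have AF : 0 < cr u v + cr u m := by linarith
  rcases le_or_gt (2 * K2 * cr u m) (cr u v) with hA | hA
  · obtain ⟨α, a1, a2, hr2⟩ := RichL.w0 f0 f2 ha Kw1 (by linarith) hK1 hA hbig hr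
    have hs : 0 < cr u (v + m + α • u) := by
      have : cr u (v + m + α • u) = cr u v + cr u m := by
        simp only [cr, Prod.fst_add, Prod.snd_add, Prod.smul_fst, Prod.smul_snd, smul_eq_mul]
        ring
      rw [this]; exact AF
    obtain ⟨la, lb, b1, b2, q1, q2, q3, q4, x0, y0, hbox⟩ := hr2.boxS (K1 := 4) (K2 := T2) (T := T)
      (ε := 1) hs ha hT (by norm_num) hT2 (Or.inl rfl) (by linarith)
    refine ⟨la, lb, b1, b2, x0, y0, fun x y hx1 hx2 hy1 hy2 => ?_⟩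
    obtain ⟨c1, c2, c3, c4⟩ := hbox x y hx1 hx2 hy1 hy2
    rw [one_mul] at c3 c4
    obtain ⟨F1, hF1⟩ : ∃ F1, F1 = cr u (x • la + y • lb) := ⟨_, rfl⟩
    obtain ⟨R, hR⟩ : ∃ R, R = cr (x • la + y • lb) (v + m + α • u) := ⟨_, rfl⟩
    have f1 : 0 < cr u (x • la + y • lb) := by
      have h1 : 0 < 4 * T2 * cr u (x • la + y • lb) := by linarith
      exact (mul_pos_iff_of_pos_left (by linarith)).1 h1
    have r1 : cr u (x • la + y • lb) ≤ 64 * cr (x • la + y • lb) (v + m + α • u) := by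
      have h1 : T2 * cr u (x • la + y • lb) ≤
          T2 * (64 * cr (x • la + y • lb) (v + m + α • u)) := by linarith
      exact le_of_mul_le_mul_left h1 T20
    obtain ⟨g1, g2⟩ := rows_w0 (K3 := K3) f0 f2 J1 K8 K65 K2b hK2 hA a1 a2 f1 r1 c4
    have hF1a : cr u (x • la + y • lb) ≤ cr p l := by
      have : 1 * cr u (x • la + y • lb) ≤ T2 * cr u (x • la + y • lb) :=
        mul_le_mul_of_nonneg_right hT2 f1.le
      linarith
    refine ⟨f1, c2, c1, g1, ?_, box_coef ha hs b2 Kw4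
      (by rw [abs_of_pos f1]; exact hF1a)
      (by rw [abs_of_nonneg (by linarith)]; linarith) q1 q2 q3 q4⟩
    have R0 : 0 < cr (x • la + y • lb) (v + m + α • u) := by linarith
    have ρ0 : 0 < cr (x • la + y • lb) m := by
      have h2 : 0 < cr (x • la + y • lb) m * (cr u v + cr u m) :=
        lt_of_lt_of_le (mul_pos R0 f2) g2
      exact (mul_pos_iff_of_pos_right AF).1 h2
    rw [abs_of_pos ρ0]
    have h3 : cr p l * cr u m ≤
        16 * 4 * T2 * cr (x • la + y • lb) (v + m + α • u) * cr u m :=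
      mul_le_mul_of_nonneg_right c3 f2.le
    have h4 : 64 * T2 * (cr (x • la + y • lb) (v + m + α • u) * cr u m) ≤
        64 * T2 * (cr (x • la + y • lb) m * (cr u v + cr u m)) :=
      mul_le_mul_of_nonneg_left g2 (by positivity)
    have h5 : 0 < 64 * T2 * (cr (x • la + y • lb) m * (cr u v + cr u m)) := by positivity
    have h6 : 1 * (64 * T2 * (cr (x • la + y • lb) m * (cr u v + cr u m))) ≤
        K3 * (64 * T2 * (cr (x • la + y • lb) m * (cr u v + cr u m))) :=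
      mul_le_mul_of_nonneg_right (by linarith) h5.le
    calc cr p l * cr u m ≤ 64 * T2 * (cr (x • la + y • lb) (v + m + α • u) * cr u m) := by
          linarith
      _ ≤ 64 * T2 * (cr (x • la + y • lb) m * (cr u v + cr u m)) := h4
      _ ≤ K3 * (64 * T2 * (cr (x • la + y • lb) m * (cr u v + cr u m))) := by linarith
      _ = 64 * K3 * T2 * (cr (x • la + y • lb) m * (cr u v + cr u m)) := by ring
  · obtain ⟨ε, δ, κ, hε, hδ, δ0, δ1⟩ := exists_side (cr v m) (cr u m) f2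
    obtain ⟨la, lb, b1, b2, q1, q2, q3, q4, x0, y0, hbox⟩ := hr.boxS (K1 := K3) (K2 := T2) (T := T)
      (ε := ε) f2 ha hT (by linarith) hT2 hε hK1'
    refine ⟨la, lb, b1, b2, x0, y0, fun x y hx1 hx2 hy1 hy2 => ?_⟩
    obtain ⟨c1, c2, c3, c4⟩ := hbox x y hx1 hx2 hy1 hy2
    have f1 : 0 < cr u (x • la + y • lb) := by
      have h1 : 0 < 4 * T2 * cr u (x • la + y • lb) := by linarith
      exact (mul_pos_iff_of_pos_left (by linarith)).1 h1
    have r0 : 0 < ε * cr (x • la + y • lb) m := by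
      have h1 : 0 < 16 * K3 * T2 * (ε * cr (x • la + y • lb) m) := by linarith
      exact (mul_pos_iff_of_pos_left (by positivity)).1 h1
    have hF1a : cr u (x • la + y • lb) ≤ cr p l := by
      have : 1 * cr u (x • la + y • lb) ≤ T2 * cr u (x • la + y • lb) :=
        mul_le_mul_of_nonneg_right hT2 f1.le
      linarith
    have hK1b : 4 ≤ K1 := by
      have h1 : 1 ≤ Kw * K2 := by nlinarith
      linarith
    have hρa : |cr (x • la + y • lb) m| ≤ cr p l := by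
      have h1 : |ε * cr (x • la + y • lb) m| = |cr (x • la + y • lb) m| := by
        rw [abs_mul]
        rcases hε with h | h <;> rw [h] <;> simp
      rw [← h1, abs_of_pos r0]
      have h2 : 1 * (ε * cr (x • la + y • lb) m) ≤ K3 * (ε * cr (x • la + y • lb) m) :=
        mul_le_mul_of_nonneg_right (by linarith) r0.le
      linarith
    refine ⟨f1, c2, c1, rows_cone f0 f2 J1 K8 (by linarith) hK3 (by linarith) hA hε hδ δ0 δ1
      f1 r0 c4, ?_, box_coef ha f2 b2 hK1b (by rw [abs_of_pos f1]; exact hF1a) hρa q1 q2 q3 q4⟩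
    have e : |cr (x • la + y • lb) m| = ε * cr (x • la + y • lb) m := by
      have h1 : |ε * cr (x • la + y • lb) m| = |cr (x • la + y • lb) m| := by
        rw [abs_mul]
        rcases hε with h | h <;> rw [h] <;> simp
      rw [← h1, abs_of_pos r0]
    rw [e]
    have h2 : cr p l * cr u m ≤ 16 * K3 * T2 * (ε * cr (x • la + y • lb) m) * cr u m :=
      mul_le_mul_of_nonneg_right c3 f2.le
    have h3 : 0 ≤ K3 * T2 * (ε * cr (x • la + y • lb) m) := by positivity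
    have h4 : 0 ≤ K3 * T2 * (ε * cr (x • la + y • lb) m) * cr u v := mul_nonneg h3 f0.le
    have h5 : 0 ≤ K3 * T2 * (ε * cr (x • la + y • lb) m) * cr u m := mul_nonneg h3 f2.le
    linarith

/-- the size of `ρ = |l₁ × m|` in the box: `M F₂ ≤ ρ` if the torus is large -/
theorem box_rho {a A F ρ c M : ℤ} (F0 : 0 < F) (AF : 0 < A + F) (hc : 0 < c)
    (h : a * F ≤ c * (ρ * (A + F))) (hbig : c * M * (A + F) ≤ a) : M * F ≤ ρ := by
  have h1 : c * M * (A + F) * F ≤ a * F := mul_le_mul_of_nonneg_right hbig F0.le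
  have h2 : c * (A + F) * (M * F) ≤ c * (A + F) * ρ := by linarith
  exact le_of_mul_le_mul_left h2 (mul_pos hc AF)

end Pool.Agent.H4G.Six
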