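import Pool.Agent.H4G.Six.RoomSieve

/-!
# Two-dimensional sieves (helper77, for the step (G5) of the room theorem)

`sieve2`: `k` affine forms in two variables which shall not vanish at the primes of `D`.
`sieve2p`: the same with coprime variables.
-/

set_option autoImplicit false

namespace Pool.Agent.H4G.Six

open Pool.Agent.H4G

/-- the first variable of the two-dimensional sieve -/
theorem sieve2x {k J X D e : ℕ} (hcap : Cap J X) (hD : D ≠ 0) (hX : D ≤ X) (hk : k ≤ 2 * e)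
    (α β γ : ℕ → Fin k → ℤ) (xp : ℕ → ℤ)
    (hloc : ∀ p : ℕ, p.Prime → p ∣ D → k < p →
      ∀ i, (p : ℤ) ∣ α p i → (p : ℤ) ∣ β p i → ¬ (p : ℤ) ∣ γ p i) (x0 : ℤ) :
    ∃ x, x0 ≤ x ∧ x < x0 + (J : ℤ) ^ e ∧
      (∀ p : ℕ, p.Prime → p ∣ D → p ≤ k → (p : ℤ) ∣ x - xp p) ∧
      ∀ p : ℕ, p.Prime → p ∣ D → k < p → ∀ i, (p : ℤ) ∣ β p i →
        ¬ (p : ℤ) ∣ α p i * x + γ p i := by
  classical
  obtain ⟨x, h1, h2, h3⟩ := sieveLin hcap hD hX hk
    (fun p i => if p ≤ k then (if (p : ℤ) ∣ (i : ℤ) + 1 then 0 else 1)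
      else (if (p : ℤ) ∣ β p i then α p i else 0))
    (fun p i => if p ≤ k then (if (p : ℤ) ∣ (i : ℤ) + 1 then 1 else -(xp p + (i + 1)))
      else (if (p : ℤ) ∣ β p i then γ p i else 1))
    (fun p hp hpD => by
      by_cases hpk : p ≤ k
      · right
        refine ⟨xp p, fun i => ?_⟩
        simp only [hpk, if_true]
        by_cases hi : (p : ℤ) ∣ (i : ℤ) + 1
        · simp only [hi, if_true, zero_mul, zero_add]
          exact prime_not_dvd_one hp
        · simp only [hi, if_false, one_mul]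
          intro hd
          apply hi
          have : xp p + -(xp p + ((i : ℤ) + 1)) = -((i : ℤ) + 1) := by ring
          rw [this, dvd_neg] at hd
          exact hd
      · left
        refine ⟨by omega, fun i h => ?_⟩
        simp only [hpk, if_false] at h ⊢
        by_cases hi : (p : ℤ) ∣ β p i
        · simp only [hi, if_true] at h ⊢
          exact hloc p hp hpD (by omega) i h hi
        · simp only [hi, if_false]
          exact prime_not_dvd_one hp) x0
  refine ⟨x, h1, h2, fun p hp hpD hpk => ?_, fun p hp hpD hpk i hi => ?_⟩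
  · by_contra hcon
    -- the class of `x - xp p` is excluded
    have hp0 : (0 : ℤ) < p := by exact_mod_cast hp.pos
    obtain ⟨r, hr⟩ : ∃ r, r = (x - xp p) % p := ⟨_, rfl⟩
    have r0 : 0 ≤ r := by rw [hr]; exact Int.emod_nonneg _ hp0.ne'
    have r1 : r < p := by rw [hr]; exact Int.emod_lt_of_pos _ hp0
    have hrd : (p : ℤ) ∣ (x - xp p) - r := by
      rw [hr]; exact Int.dvd_self_sub_emod
    have r2 : r ≠ 0 := by
      rintro h0
      rw [h0, sub_zero] at hrd
      exact hcon hrd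
    have hlt : (r - 1).toNat < k := by
      have : (p : ℤ) ≤ k := by exact_mod_cast hpk
      omega
    have h4 := h3 p hp hpD ⟨(r - 1).toNat, hlt⟩
    have e1 : (((⟨(r - 1).toNat, hlt⟩ : Fin k) : ℕ) : ℤ) + 1 = r := by
      simp only
      omega
    simp only [hpk, if_true] at h4
    rw [e1] at h4
    have e2 : ¬ (p : ℤ) ∣ r := by
      intro hd
      have := Int.le_of_dvd (by omega) hd
      omega
    simp only [e2, if_false, one_mul] at h4
    apply h4
    have : x + -(xp p + r) = x - xp p - r := by ring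
    rw [this]
    exact hrd
  · have h4 := h3 p hp hpD i
    have hpk' : ¬ p ≤ k := by omega
    simp only [hpk', if_false, hi, if_true] at h4
    exact h4

/-- **TWO-DIMENSIONAL SIEVE** -/
theorem sieve2 {k J X D e : ℕ} (hcap : Cap J X) (hD : D ≠ 0) (hX : D ≤ X) (hk : k ≤ 2 * e)
    (α β γ : ℕ → Fin k → ℤ)
    (hloc : ∀ p : ℕ, p.Prime → p ∣ D →
      (k < p ∧ ∀ i, (p : ℤ) ∣ α p i → (p : ℤ) ∣ β p i → ¬ (p : ℤ) ∣ γ p i) ∨
      ∃ x y : ℤ, ∀ i, ¬ (p : ℤ) ∣ α p i * x + β p i * y + γ p i) (x0 y0 : ℤ) :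
    ∃ x y, x0 ≤ x ∧ x < x0 + (J : ℤ) ^ e ∧ y0 ≤ y ∧ y < y0 + (J : ℤ) ^ e ∧
      ∀ p : ℕ, p.Prime → p ∣ D → ∀ i, ¬ (p : ℤ) ∣ α p i * x + β p i * y + γ p i := by
  classical
  have hcst : ∀ p : ℕ, p.Prime → p ∣ D →
      ∀ i, (p : ℤ) ∣ α p i → (p : ℤ) ∣ β p i → ¬ (p : ℤ) ∣ γ p i := by
    intro p hp hpD i h1 h2 h3
    rcases hloc p hp hpD with ⟨-, h⟩ | ⟨x, y, h⟩
    · exact h i h1 h2 h3
    · exact h i (dvd_add (dvd_add (h1.mul_right _) (h2.mul_right _)) h3)
  have hsol : ∀ p : ℕ, ∃ x y : ℤ, p.Prime → p ∣ D → p ≤ k →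
      ∀ i, ¬ (p : ℤ) ∣ α p i * x + β p i * y + γ p i := by
    intro p
    by_cases hc : p.Prime ∧ p ∣ D ∧ p ≤ k
    · rcases hloc p hc.1 hc.2.1 with ⟨h1, -⟩ | ⟨x, y, h⟩
      · exact absurd hc.2.2 (by omega)
      · exact ⟨x, y, fun _ _ _ => h⟩
    · exact ⟨0, 0, fun h1 h2 h3 => absurd ⟨h1, h2, h3⟩ hc⟩
  choose xp yp hxy using hsol
  obtain ⟨x, hx1, hx2, hx3, hx4⟩ := sieve2x hcap hD hX hk α β γ xp
    (fun p hp hpD _ => hcst p hp hpD) x0
  obtain ⟨y, hy1, hy2, hy3⟩ := sieveLin hcap hD hX hk β (fun p i => α p i * x + γ p i)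
    (fun p hp hpD => by
      by_cases hpk : p ≤ k
      · right
        refine ⟨yp p, fun i hd => hxy p hp hpD hpk i ?_⟩
        have e : α p i * xp p + β p i * yp p + γ p i =
            (β p i * yp p + (α p i * x + γ p i)) - α p i * (x - xp p) := by ring
        rw [e]
        exact dvd_sub hd ((hx3 p hp hpD hpk).mul_left _)
      · left
        exact ⟨by omega, fun i hi => hx4 p hp hpD (by omega) i hi⟩) y0
  refine ⟨x, y, hx1, hx2, hy1, hy2, fun p hp hpD i hd => hy3 p hp hpD i ?_⟩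
  have e : β p i * y + (α p i * x + γ p i) = α p i * x + β p i * y + γ p i := by ring
  rw [e]
  exact hd

/-- **TWO-DIMENSIONAL SIEVE with coprime variables** -/
theorem sieve2p {k J X D e : ℕ} (hcap : Cap J X) (hD : D ≠ 0) (hX : D ≤ X) (hk : k + 1 ≤ 2 * e)
    (α β γ : ℕ → Fin k → ℤ)
    (hloc : ∀ p : ℕ, p.Prime → p ∣ D →
      (k + 1 < p ∧ ∀ i, (p : ℤ) ∣ α p i → (p : ℤ) ∣ β p i → ¬ (p : ℤ) ∣ γ p i) ∨
      ∃ x y : ℤ, ¬ ((p : ℤ) ∣ x ∧ (p : ℤ) ∣ y) ∧
        ∀ i, ¬ (p : ℤ) ∣ α p i * x + β p i * y + γ p i) (x0 y0 : ℤ)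
    (hx0 : ∀ x, x0 ≤ x → x < x0 + (J : ℤ) ^ e → x ≠ 0 ∧ (D : ℤ) * |x| ≤ X) :
    ∃ x y, x0 ≤ x ∧ x < x0 + (J : ℤ) ^ e ∧ y0 ≤ y ∧ y < y0 + (J : ℤ) ^ e ∧ IsCoprime x y ∧
      ∀ p : ℕ, p.Prime → p ∣ D → ∀ i, ¬ (p : ℤ) ∣ α p i * x + β p i * y + γ p i := by
  classical
  have hcst : ∀ p : ℕ, p.Prime → p ∣ D →
      ∀ i, (p : ℤ) ∣ α p i → (p : ℤ) ∣ β p i → ¬ (p : ℤ) ∣ γ p i := by
    intro p hp hpD i h1 h2 h3
    rcases hloc p hp hpD with ⟨-, h⟩ | ⟨x, y, -, h⟩
    · exact h i h1 h2 h3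
    · exact h i (dvd_add (dvd_add (h1.mul_right _) (h2.mul_right _)) h3)
  have hsol : ∀ p : ℕ, ∃ x y : ℤ, p.Prime → p ∣ D → p ≤ k + 1 →
      ¬ ((p : ℤ) ∣ x ∧ (p : ℤ) ∣ y) ∧ ∀ i, ¬ (p : ℤ) ∣ α p i * x + β p i * y + γ p i := by
    intro p
    by_cases hc : p.Prime ∧ p ∣ D ∧ p ≤ k + 1
    · rcases hloc p hc.1 hc.2.1 with ⟨h1, -⟩ | ⟨x, y, h, h'⟩
      · exact absurd hc.2.2 (by omega)
      · exact ⟨x, y, fun _ _ _ => ⟨h, h'⟩⟩
    · exact ⟨0, 0, fun h1 h2 h3 => absurd ⟨h1, h2, h3⟩ hc⟩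
  choose xp yp hxy using hsol
  obtain ⟨x, hx1, hx2, hx3, hx4⟩ := sieve2x (k := k + 1) hcap hD hX hk
    (fun p => Fin.cons 0 (α p)) (fun p => Fin.cons 1 (β p)) (fun p => Fin.cons 0 (γ p)) xp
    (fun p hp hpD _ i => by
      refine Fin.cases ?_ (fun i => ?_) i
      · simp only [Fin.cons_zero]
        intro _ h
        exact absurd h (prime_not_dvd_one hp)
      · simp only [Fin.cons_succ]
        exact hcst p hp hpD i) x0
  have hx4' : ∀ p : ℕ, p.Prime → p ∣ D → k + 1 < p → ∀ i, (p : ℤ) ∣ β p i →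
      ¬ (p : ℤ) ∣ α p i * x + γ p i := by
    intro p hp hpD hpk i hi
    have := hx4 p hp hpD hpk i.succ
    simp only [Fin.cons_succ] at this
    exact this hi
  obtain ⟨hx5, hx6⟩ := hx0 x hx1 hx2
  have hE0 : D * x.natAbs ≠ 0 := by
    have := Int.natAbs_ne_zero.2 hx5
    positivity
  have hEX : D * x.natAbs ≤ X := by
    have : ((D * x.natAbs : ℕ) : ℤ) ≤ X := by
      push_cast
      exact hx6
    exact_mod_cast this
  obtain ⟨y, hy1, hy2, hy3⟩ := sieveLin (k := k + 1) hcap hE0 hEX hk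
    (fun p => Fin.cons (if (p : ℤ) ∣ x then 1 else 0) (fun i => if p ∣ D then β p i else 0))
    (fun p => Fin.cons (if (p : ℤ) ∣ x then 0 else 1)
      (fun i => if p ∣ D then α p i * x + γ p i else 1))
    (fun p hp hpE => by
      have n1 : ¬ (p : ℤ) ∣ 1 := prime_not_dvd_one hp
      by_cases hpk : p ≤ k + 1
      · right
        by_cases hpD : p ∣ D
        · refine ⟨yp p, fun i => ?_⟩
          refine Fin.cases ?_ (fun i => ?_) i
          · simp only [Fin.cons_zero]
            by_cases hpx : (p : ℤ) ∣ x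
            · simp only [hpx, if_true, one_mul, add_zero]
              intro hd
              refine (hxy p hp hpD hpk).1 ⟨?_, hd⟩
              have := dvd_sub hpx (hx3 p hp hpD hpk)
              rwa [sub_sub_cancel] at this
            · simp only [hpx, if_false, zero_mul, zero_add]
              exact n1
          · simp only [Fin.cons_succ, hpD, if_true]
            intro hd
            refine (hxy p hp hpD hpk).2 i ?_
            have e : α p i * xp p + β p i * yp p + γ p i =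
                (β p i * yp p + (α p i * x + γ p i)) - α p i * (x - xp p) := by ring
            rw [e]
            exact dvd_sub hd ((hx3 p hp hpD hpk).mul_left _)
        · refine ⟨1, fun i => ?_⟩
          refine Fin.cases ?_ (fun i => ?_) i
          · simp only [Fin.cons_zero]
            by_cases hpx : (p : ℤ) ∣ x
            · simp only [hpx, if_true, one_mul, add_zero]
              exact n1
            · simp only [hpx, if_false, zero_mul, zero_add]
              exact n1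
          · simp only [Fin.cons_succ, hpD, if_false, zero_mul, zero_add]
            exact n1
      · left
        refine ⟨by omega, fun i => ?_⟩
        refine Fin.cases ?_ (fun i => ?_) i
        · simp only [Fin.cons_zero]
          by_cases hpx : (p : ℤ) ∣ x
          · simp only [hpx, if_true]
            intro h
            exact absurd h n1
          · simp only [hpx, if_false]
            intro _
            exact n1
        · simp only [Fin.cons_succ]
          by_cases hpD : p ∣ D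
          · simp only [hpD, if_true]
            exact hx4' p hp hpD (by omega) i
          · simp only [hpD, if_false]
            intro _
            exact n1) y0
  refine ⟨x, y, hx1, hx2, hy1, hy2, isCoprime_of_prime fun p hp h2 h1 => ?_,
    fun p hp hpD i hd => ?_⟩
  · have hpE : p ∣ D * x.natAbs := (Int.natCast_dvd.1 h1).mul_left _
    have := hy3 p hp hpE 0
    simp only [Fin.cons_zero, h1, if_true, one_mul, add_zero] at this
    exact this h2
  · have hpE : p ∣ D * x.natAbs := hpD.mul_right _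
    have := hy3 p hp hpE i.succ
    simp only [Fin.cons_succ, hpD, if_true] at this
    apply this
    have e : β p i * y + (α p i * x + γ p i) = α p i * x + β p i * y + γ p i := by ring
    rw [e]
    exact hd

/-- **SIEVE ON A ROW** `z = n h + t g` of a lattice with basis `h`, `g`: two pairs of linear forms
and the primitivity of `z` -/
theorem row_sieve {J X D : ℕ} (hcap : Cap J X) (hD : D ≠ 0) {n : ℤ} (hn : n ≠ 0)
    (hX : (D : ℤ) * |n| ≤ X) {a1 b1 a2 b2 c1 d1 c2 d2 : ℤ}
    (hL : ∀ p : ℕ, p.Prime → (p : ℤ) ∣ a1 → (p : ℤ) ∣ b1 → (p : ℤ) ∣ a2 → ¬ (p : ℤ) ∣ b2)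
    (hM : ∀ p : ℕ, p.Prime → (p : ℤ) ∣ c1 → (p : ℤ) ∣ d1 → (p : ℤ) ∣ c2 → ¬ (p : ℤ) ∣ d2)
    (rL : a1 * b2 - a2 * b1 ∣ D) (rM : c1 * d2 - c2 * d1 ∣ D)
    (hnD : ∀ p : ℕ, p.Prime → p ∣ D → (p : ℤ) ∣ n → p = 2) {t2 : ℤ}
    (n2 : ¬ ((2 : ℤ) ∣ n ∧ (2 : ℤ) ∣ t2))
    (l2 : ¬ ((2 : ℤ) ∣ n * a1 + t2 * b1 ∧ (2 : ℤ) ∣ n * a2 + t2 * b2))
    (m2 : ¬ ((2 : ℤ) ∣ n * c1 + t2 * d1 ∧ (2 : ℤ) ∣ n * c2 + t2 * d2)) (t0 : ℤ) :
    ∃ t, t0 ≤ t ∧ t < t0 + J ∧ IsCoprime n t ∧ IsCoprime (n * a1 + t * b1) (n * a2 + t * b2) ∧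
      IsCoprime (n * c1 + t * d1) (n * c2 + t * d2) := by
  classical
  have hE0 : D * n.natAbs ≠ 0 := by
    have := Int.natAbs_ne_zero.2 hn
    positivity
  have hEX : D * n.natAbs ≤ X := by
    have : ((D * n.natAbs : ℕ) : ℤ) ≤ X := by
      push_cast
      exact hX
    exact_mod_cast this
  obtain ⟨t, h1, h2, h3⟩ := sieveLin (k := 2) (e := 1) hcap hE0 hEX (by norm_num)
    (fun p => ![if p = 2 then 1 else if p ∣ D then prA p b1 (n * a1) b2 (n * a2) else 1,
      if p = 2 then 0 else if p ∣ D then prA p d1 (n * c1) d2 (n * c2) else 0])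
    (fun p => ![if p = 2 then -(t2 + 1) else if p ∣ D then prB p b1 (n * a1) b2 (n * a2) else 0,
      if p = 2 then 1 else if p ∣ D then prB p d1 (n * c1) d2 (n * c2) else 1])
    (fun p hp hpE => by
      have n1 : ¬ (p : ℤ) ∣ 1 := prime_not_dvd_one hp
      by_cases hp2 : p = 2
      · right
        refine ⟨t2, fun i => ?_⟩
        fin_cases i
        · simp only [hp2, if_true, Fin.zero_eta, Fin.isValue, Matrix.cons_val_zero, one_mul]
          intro hd
          have e : t2 + -(t2 + 1) = -1 := by ring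
          rw [e, dvd_neg] at hd
          rw [hp2] at n1
          exact n1 hd
        · simp only [hp2, if_true, Fin.mk_one, Fin.isValue, Matrix.cons_val_one, zero_mul,
            zero_add]
          rw [hp2] at n1
          simpa using n1
      · left
        refine ⟨by have := hp.two_le; omega, fun i => ?_⟩
        fin_cases i
        · simp only [hp2, if_false, Fin.zero_eta, Fin.isValue, Matrix.cons_val_zero]
          by_cases hpD : p ∣ D
          · simp only [hpD, if_true]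
            exact pr_dvd hp
          · simp only [hpD, if_false]
            intro h
            exact absurd h n1
        · simp only [hp2, if_false, Fin.mk_one, Fin.isValue, Matrix.cons_val_one]
          by_cases hpD : p ∣ D
          · simp only [hpD, if_true]
            exact pr_dvd hp
          · simp only [hpD, if_false]
            intro _
            exact n1) t0
  rw [pow_one] at h2
  -- the class at `2`
  have t2' : (2 : ℤ) ∣ D * n → (2 : ℤ) ∣ t - t2 := by
    intro hd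
    have hpE : 2 ∣ D * n.natAbs := by
      have := Int.natAbs_dvd_natAbs.2 hd
      rw [Int.natAbs_mul] at this
      simpa using this
    have h4 := h3 2 Nat.prime_two hpE 0
    simp only [if_true, Fin.isValue, Matrix.cons_val_zero, one_mul] at h4
    have h5 : ¬ (2 : ℤ) ∣ t + -(t2 + 1) := by simpa using h4
    omega
  have hodd : ∀ p : ℕ, p.Prime → p ≠ 2 → p ∣ D → ¬ (p : ℤ) ∣ n →
      ¬ ((p : ℤ) ∣ n * a1 + t * b1 ∧ (p : ℤ) ∣ n * a2 + t * b2) ∧
      ¬ ((p : ℤ) ∣ n * c1 + t * d1 ∧ (p : ℤ) ∣ n * c2 + t * d2) := by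
    intro p hp hp2 hpD hpn
    have hpp := Nat.prime_iff_prime_int.1 hp
    constructor
    · rintro ⟨e1, e2⟩
      have h4 := h3 p hp (hpD.mul_right _) 0
      simp only [hp2, if_false, hpD, if_true, Fin.isValue, Matrix.cons_val_zero] at h4
      refine h4 ((pr_iff hp (fun q1 q2 q3 q4 => ?_)).2 ⟨?_, ?_⟩)
      · exact hL p hp ((hpp.dvd_or_dvd q3).resolve_left hpn) q1
          ((hpp.dvd_or_dvd q4).resolve_left hpn) q2
      · have e : b1 * t + n * a1 = n * a1 + t * b1 := by ring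
        rw [e]; exact e1
      · have e : b2 * t + n * a2 = n * a2 + t * b2 := by ring
        rw [e]; exact e2
    · rintro ⟨e1, e2⟩
      have h4 := h3 p hp (hpD.mul_right _) 1
      simp only [hp2, if_false, hpD, if_true, Fin.isValue, Matrix.cons_val_one] at h4
      refine h4 ((pr_iff hp (fun q1 q2 q3 q4 => ?_)).2 ⟨?_, ?_⟩)
      · exact hM p hp ((hpp.dvd_or_dvd q3).resolve_left hpn) q1
          ((hpp.dvd_or_dvd q4).resolve_left hpn) q2
      · have e : d1 * t + n * c1 = n * c1 + t * d1 := by ring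
        rw [e]; exact e1
      · have e : d2 * t + n * c2 = n * c2 + t * d2 := by ring
        rw [e]; exact e2
  have hnt : IsCoprime n t := by
    refine isCoprime_of_prime fun p hp e1 e2 => ?_
    by_cases hp2 : p = 2
    · rw [hp2] at e1 e2
      have e3 : (2 : ℤ) ∣ n := by simpa using e2
      have e4 : (2 : ℤ) ∣ t := by simpa using e1
      refine n2 ⟨e3, ?_⟩
      have := dvd_sub e4 (t2' (e3.mul_left _))
      rwa [sub_sub_cancel] at this
    · have hpD : ¬ p ∣ D := fun h => hp2 (hnD p hp h e2)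
      have hpE : p ∣ D * n.natAbs := (Int.natCast_dvd.1 e2).mul_left _
      have h4 := h3 p hp hpE 0
      simp only [hp2, if_false, hpD, Fin.isValue, Matrix.cons_val_zero, one_mul,
        add_zero] at h4
      exact h4 e1
  -- a common prime of a pair divides `D`
  have hpD : ∀ (p : ℕ), p.Prime → ∀ x1 y1 x2 y2 : ℤ, x1 * y2 - x2 * y1 ∣ D →
      (p : ℤ) ∣ n * x1 + t * y1 → (p : ℤ) ∣ n * x2 + t * y2 → p ∣ D := by
    intro p hp x1 y1 x2 y2 hr e1 e2
    have hpp := Nat.prime_iff_prime_int.1 hp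
    have e3 : (p : ℤ) ∣ n * (x1 * y2 - x2 * y1) := by
      have e : n * (x1 * y2 - x2 * y1) = y2 * (n * x1 + t * y1) - y1 * (n * x2 + t * y2) := by
        ring
      rw [e]; exact dvd_sub (e1.mul_left _) (e2.mul_left _)
    have e4 : (p : ℤ) ∣ t * (x1 * y2 - x2 * y1) := by
      have e : t * (x1 * y2 - x2 * y1) = x1 * (n * x2 + t * y2) - x2 * (n * x1 + t * y1) := by
        ring
      rw [e]; exact dvd_sub (e2.mul_left _) (e1.mul_left _)
    have e5 : (p : ℤ) ∣ x1 * y2 - x2 * y1 := by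
      obtain ⟨i, j, hij⟩ := hnt
      have e : x1 * y2 - x2 * y1 = i * (n * (x1 * y2 - x2 * y1)) +
          j * (t * (x1 * y2 - x2 * y1)) := by
        calc x1 * y2 - x2 * y1 = (i * n + j * t) * (x1 * y2 - x2 * y1) := by rw [hij, one_mul]
          _ = _ := by ring
      rw [e]; exact dvd_add (e3.mul_left _) (e4.mul_left _)
    exact_mod_cast e5.trans hr
  refine ⟨t, h1, h2, hnt, isCoprime_of_prime fun p hp e2 e1 => ?_,
    isCoprime_of_prime fun p hp e2 e1 => ?_⟩
  · have h4 := hpD p hp _ _ _ _ rL e1 e2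
    by_cases hp2 : p = 2
    · rw [hp2] at e1 e2 h4
      have h5 : (2 : ℤ) ∣ t - t2 := t2' (by
        have : (2 : ℤ) ∣ D := by exact_mod_cast h4
        exact this.mul_right _)
      refine l2 ⟨?_, ?_⟩
      · have e : n * a1 + t2 * b1 = (n * a1 + t * b1) - (t - t2) * b1 := by ring
        rw [e]; exact dvd_sub (by simpa using e1) (h5.mul_right _)
      · have e : n * a2 + t2 * b2 = (n * a2 + t * b2) - (t - t2) * b2 := by ring
        rw [e]; exact dvd_sub (by simpa using e2) (h5.mul_right _)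
    · exact (hodd p hp hp2 h4 fun h => hp2 (hnD p hp h4 h)).1 ⟨e1, e2⟩
  · have h4 := hpD p hp _ _ _ _ rM e1 e2
    by_cases hp2 : p = 2
    · rw [hp2] at e1 e2 h4
      have h5 : (2 : ℤ) ∣ t - t2 := t2' (by
        have : (2 : ℤ) ∣ D := by exact_mod_cast h4
        exact this.mul_right _)
      refine m2 ⟨?_, ?_⟩
      · have e : n * c1 + t2 * d1 = (n * c1 + t * d1) - (t - t2) * d1 := by ring
        rw [e]; exact dvd_sub (by simpa using e1) (h5.mul_right _)
      · have e : n * c2 + t2 * d2 = (n * c2 + t * d2) - (t - t2) * d2 := by ring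
        rw [e]; exact dvd_sub (by simpa using e2) (h5.mul_right _)
    · exact (hodd p hp hp2 h4 fun h => hp2 (hnD p hp h4 h)).2 ⟨e1, e2⟩

end Pool.Agent.H4G.Six
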