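import Pool.Agent.H4G.Six.Can.Sv

/-!
# The choice of the level of `m` in exit 2 (helper27's conditions; helper69)

`choose_level`: in every window of length `J` there is `d` and `e ∈ {1, 2}` such that no prime
divisor of `b` divides `A + e d`, and for every `k` coprime to `e d` the number
`(e d) v₀ - k a' A` is `e V` with `gcd (V, d) = 1`.
-/

set_option autoImplicit false

namespace Pool.Agent.H4G.Six

open Pool.Agent.H4G

theorem not_two_of {p : ℕ} (hp : p.Prime) (h2 : p ≠ 2) : ¬ (p : ℤ) ∣ 2 := by
  intro h
  have h1 : p ∣ 2 := by exact_mod_cast h
  exact h2 ((Nat.prime_dvd_prime_iff_eq hp Nat.prime_two).1 h1)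

theorem isCoprime_sub_of {d k w v0 : ℤ} (h1 : IsCoprime d k) (h2 : IsCoprime d w) :
    IsCoprime (d * v0 - k * w) d := by
  have h3 : IsCoprime d (k * w) := h1.mul_right h2
  obtain ⟨x, y, hxy⟩ := h3
  exact ⟨-y, x + y * v0, by linear_combination hxy⟩

theorem isCoprime_of_primes {a b : ℤ} (h : ∀ p : ℕ, p.Prime → (p : ℤ) ∣ b → ¬ (p : ℤ) ∣ a) :
    IsCoprime a b := isCoprime_of_prime h

/-- **the level of `m`** -/
theorem choose_level {J X : ℕ} (hcap : Cap J X) {A a' b v0 : ℤ} (hA : 0 < A) (ha' : 0 < a')
    (hb : 0 < b) (hX : b * (a' * A) ≤ X) (D0 : ℤ) :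
    ∃ d e : ℤ, (e = 1 ∨ e = 2) ∧ D0 ≤ d ∧ d < D0 + J ∧
      (∀ p : ℕ, p.Prime → (p : ℤ) ∣ b → ¬ (p : ℤ) ∣ A + e * d) ∧
      ∀ k : ℤ, IsCoprime (e * d) k → ∃ V : ℤ, (e * d) * v0 - k * (a' * A) = e * V ∧
        IsCoprime V d := by
  have hw : 0 < b * (a' * A) := by positivity
  by_cases hcf : (2 : ℤ) ∣ b ∧ ¬ (2 : ℤ) ∣ A ∧ (2 : ℤ) ∣ a'
  · obtain ⟨c1, c2, a1, ha1⟩ := hcf
    obtain ⟨d, h1, h2, h3⟩ := sieveP (k := 2) (e := 1) hcap hw hX (by norm_num)
      (fun i z => if i = 0 then z ∣ a' * A else z ∣ b ∧ z ≠ 2)
      (fun i => if i = 0 then 1 else 2) (fun i => if i = 0 then 0 else A)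
      (fun p _ i hi => by
        by_cases h0 : i = 0
        · simp only [h0, if_true] at hi
          exact hi.mul_left _
        · simp only [h0, if_false] at hi
          exact hi.1.mul_right _)
      (fun p hp => by
        rcases two_or_odd hp with h2 | ⟨h2, h2'⟩
        · refine ⟨1, fun i hi => ?_⟩
          by_cases h0 : i = 0
          · simp only [h0, if_true, one_mul, add_zero]
            exact prime_not_dvd_one hp
          · simp only [h0, if_false] at hi
            exact absurd (by rw [h2]; norm_num) hi.2
        · by_cases h5 : (p : ℤ) ∣ 2 + A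
          · refine ⟨2, fun i hi => ?_⟩
            by_cases h0 : i = 0
            · simp only [h0, if_true, one_mul, add_zero]
              exact h2'
            · simp only [h0, if_false]
              intro h6
              have h7 := dvd_sub h6 h5
              have : (2 : ℤ) * 2 + A - (2 + A) = 2 := by ring
              rw [this] at h7
              exact h2' h7
          · refine ⟨1, fun i hi => ?_⟩
            by_cases h0 : i = 0
            · simp only [h0, if_true, one_mul, add_zero]
              exact prime_not_dvd_one hp
            · simp only [h0, if_false, mul_one]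
              exact h5) D0
    rw [pow_one] at h2
    have hdw : IsCoprime d (a' * A) := isCoprime_of_prime fun p hp h4 h5 => by
      have := h3 p hp 0 (by simpa using h4)
      simp only [if_true, one_mul, add_zero] at this
      exact this h5
    refine ⟨d, 2, Or.inr rfl, h1, h2, fun p hp hpb h4 => ?_, fun k hk => ?_⟩
    · by_cases hp2 : p = 2
      · subst hp2
        apply c2
        have h5 : (2 : ℤ) ∣ A + 2 * d := by exact_mod_cast h4
        exact (dvd_add_left (dvd_mul_right _ _)).1 h5
      · have := h3 p hp 1 (by
          simp only [one_ne_zero, if_false]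
          exact ⟨hpb, by exact_mod_cast hp2⟩)
        simp only [one_ne_zero, if_false] at this
        apply this
        rw [add_comm]; exact h4
    · refine ⟨d * v0 - k * (a1 * A), by rw [ha1]; ring, ?_⟩
      refine isCoprime_sub_of (hk.of_mul_left_right) ?_
      have : IsCoprime d (2 * (a1 * A)) := by
        have e : a' * A = 2 * (a1 * A) := by rw [ha1]; ring
        rw [← e]; exact hdw
      exact this.of_mul_right_right
  · obtain ⟨d, h1, h2, h3⟩ := sieveP (k := 2) (e := 1) hcap hw hX (by norm_num)
      (fun i z => if i = 0 then z ∣ a' * A else z ∣ b)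
      (fun i => 1) (fun i => if i = 0 then 0 else A)
      (fun p _ i hi => by
        by_cases h0 : i = 0
        · simp only [h0, if_true] at hi
          exact hi.mul_left _
        · simp only [h0, if_false] at hi
          exact hi.mul_right _)
      (fun p hp => by
        rcases two_or_odd hp with h2 | ⟨h2, h2'⟩
        · subst h2
          by_cases h5 : (2 : ℤ) ∣ a' * A
          · refine ⟨1, fun i hi => ?_⟩
            by_cases h0 : i = 0
            · simp only [h0, if_true, one_mul, add_zero]
              exact prime_not_dvd_one hp
            · simp only [h0, if_false, one_mul] at hi ⊢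
              have hb2 : (2 : ℤ) ∣ b := by exact_mod_cast hi
              have hA2 : (2 : ℤ) ∣ A := by
                by_contra hc
                rcases Int.prime_two.dvd_or_dvd h5 with h6 | h6
                · exact hcf ⟨hb2, hc, h6⟩
                · exact hc h6
              intro h7
              have h8 : (2 : ℤ) ∣ 1 + A := by exact_mod_cast h7
              have h9 := (dvd_add_left hA2).1 h8
              norm_num at h9
          · refine ⟨A + 1, fun i hi => ?_⟩
            by_cases h0 : i = 0
            · simp only [h0, if_true] at hi
              exact absurd (by exact_mod_cast hi) h5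
            · simp only [h0, if_false, one_mul]
              intro h7
              have h8 : (2 : ℤ) ∣ A + 1 + A := by exact_mod_cast h7
              omega
        · by_cases h5 : (p : ℤ) ∣ 1 + A
          · refine ⟨2, fun i hi => ?_⟩
            by_cases h0 : i = 0
            · simp only [h0, if_true, one_mul, add_zero]
              exact h2'
            · simp only [h0, if_false, one_mul]
              intro h6
              have h7 := dvd_sub h6 h5
              have : (2 : ℤ) + A - (1 + A) = 1 := by ring
              rw [this] at h7
              exact prime_not_dvd_one hp h7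
          · refine ⟨1, fun i hi => ?_⟩
            by_cases h0 : i = 0
            · simp only [h0, if_true, one_mul, add_zero]
              exact prime_not_dvd_one hp
            · simp only [h0, if_false, one_mul]
              exact h5) D0
    rw [pow_one] at h2
    have hdw : IsCoprime d (a' * A) := isCoprime_of_prime fun p hp h4 h5 => by
      have := h3 p hp 0 (by simpa using h4)
      simp only [if_true, one_mul, add_zero] at this
      exact this h5
    refine ⟨d, 1, Or.inl rfl, h1, h2, fun p hp hpb h4 => ?_, fun k hk => ?_⟩
    · have := h3 p hp 1 (by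
        simp only [one_ne_zero, if_false]
        exact hpb)
      simp only [one_ne_zero, if_false, one_mul] at this
      apply this
      rw [one_mul] at h4
      rw [add_comm]; exact h4
    · rw [one_mul] at hk
      exact ⟨d * v0 - k * (a' * A), by ring, isCoprime_sub_of hk hdw⟩

end Pool.Agent.H4G.Six
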