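import Pool.Agent.H4G.Six.NR.Defs

/-!
# The descent of the content inside the roomy trees (helper2)

`Ro O N B J k`: trees with `B (J - 1) ^ k (A + c) ≤ J ^ k a'`. If from every such tree with `1 < c` a
tree of level `k + 1` with `2 c' ≤ c` is reached, then there is a tree with `c = 1` and
`B (A + 1) ≤ 2 a'`.
-/

set_option autoImplicit false

namespace Pool.Agent.H4G.Six

open Pool.Agent.H4G

variable {X : Type} {O : PO X} {N B J : ℤ} {u v l q m s : Z2}

/-- the torus `ℝ² / M` is large: `a' ≥ B (1 - 1/J) ^ k (A + c)` -/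
structure Ro (O : PO X) (N B J : ℤ) (k : ℕ) (u v l q m s : Z2) : Prop where
  has : Has6 O (u, v, l, q, m, s)
  vol : vol6 (u, v, l, q, m, s) = N
  big : B * (J - 1) ^ k * (cr u v + ct u l q) ≤ J ^ k * (cr u m + cr s m)

/-- one level down -/
theorem Ro.mono {k : ℕ} (h : Ro O N B J k u v l q m s) (hB : 0 ≤ B) (hJ : 1 ≤ J) :
    Ro O N B J (k + 1) u v l q m s := by
  refine ⟨h.has, h.vol, ?_⟩
  obtain ⟨p1, p2, p3, p4, p5⟩ := h.has.pos
  have c0 : 0 < ct u l q := ct_pos p2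
  have e1 : B * (J - 1) ^ (k + 1) * (cr u v + ct u l q) =
      (J - 1) * (B * (J - 1) ^ k * (cr u v + ct u l q)) := by ring
  have e2 : J ^ (k + 1) * (cr u m + cr s m) = J * (J ^ k * (cr u m + cr s m)) := by ring
  rw [e1, e2]
  have h1 : 0 ≤ B * (J - 1) ^ k * (cr u v + ct u l q) := by
    have : 0 ≤ J - 1 := by linarith
    positivity
  exact mul_le_mul (by linarith) h.big h1 (by linarith)

/-- **THE DESCENT** -/
theorem Ro.descent {K : ℕ} (hK : 0 < K) (hB : 0 ≤ B) (hJ : 2 * (K : ℤ) ≤ J) (hN : N < 2 ^ K)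
    (step : ∀ k : ℕ, k < K → ∀ u v l q m s : Z2, Ro O N B J k u v l q m s → 1 < ct u l q →
      ∃ u' v' l' q' m' s' : Z2, Ro O N B J (k + 1) u' v' l' q' m' s' ∧
        2 * ct u' l' q' ≤ ct u l q)
    (h0 : Ro O N B J 0 u v l q m s) :
    ∃ u' v' l' q' m' s' : Z2, Has6 O (u', v', l', q', m', s') ∧
      vol6 (u', v', l', q', m', s') = N ∧ ct u' l' q' = 1 ∧
      B * (cr u' v' + 1) ≤ 2 * (cr u' m' + cr s' m') := by
  -- after `k` steps the content is 1 or at most `N / 2 ^ k`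
  have hJ0 : 1 ≤ J := by
    have : (1:ℤ) ≤ (K : ℤ) := by exact_mod_cast hK
    linarith
  have key : ∀ k : ℕ, k ≤ K → ∃ u' v' l' q' m' s' : Z2, Ro O N B J k u' v' l' q' m' s' ∧
      (ct u' l' q' = 1 ∨ 2 ^ k * ct u' l' q' ≤ ct u l q) := by
    intro k
    induction k with
    | zero => exact fun _ => ⟨u, v, l, q, m, s, h0, Or.inr (by rw [pow_zero, one_mul])⟩
    | succ k ih =>
      intro hk
      obtain ⟨u1, v1, l1, q1, m1, s1, h1, h2⟩ := ih (by omega)
      have c0 : 0 < ct u1 l1 q1 := ct_pos h1.has.pos.2.1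
      by_cases hc : ct u1 l1 q1 = 1
      · exact ⟨u1, v1, l1, q1, m1, s1, h1.mono hB hJ0, Or.inl hc⟩
      · obtain ⟨u2, v2, l2, q2, m2, s2, h3, h4⟩ := step k (by omega) _ _ _ _ _ _ h1 (by omega)
        refine ⟨u2, v2, l2, q2, m2, s2, h3, Or.inr ?_⟩
        rcases h2 with h2 | h2
        · exact absurd h2 hc
        · have h5 : (2:ℤ) ^ k * (2 * ct u2 l2 q2) ≤ 2 ^ k * ct u1 l1 q1 :=
            mul_le_mul_of_nonneg_left h4 (by positivity)
          have e : (2:ℤ) ^ (k + 1) * ct u2 l2 q2 = 2 ^ k * (2 * ct u2 l2 q2) := by ring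
          linarith
  obtain ⟨u1, v1, l1, q1, m1, s1, h1, h2⟩ := key K le_rfl
  obtain ⟨p1, p2, p3, p4, p5⟩ := h0.has.pos
  have c0 : 0 < ct u1 l1 q1 := ct_pos h1.has.pos.2.1
  have hc : ct u1 l1 q1 = 1 := by
    rcases h2 with h2 | h2
    · exact h2
    · exfalso
      have h3 : ct u l q ≤ N := by
        have e1 : ct u l q ≤ cr u l := ct_le p2
        have e2 : cr u l ≤ N := by
          rw [← h0.vol]
          simp only [vol6]
          linarith
        exact e1.trans e2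
      have h4 : (2:ℤ) ^ K * 1 ≤ 2 ^ K * ct u1 l1 q1 :=
        mul_le_mul_of_nonneg_left c0 (by positivity)
      linarith
  refine ⟨u1, v1, l1, q1, m1, s1, h1.has, h1.vol, hc, ?_⟩
  have h3 := h1.big
  rw [hc] at h3
  -- `J ^ K ≤ 2 (J - 1) ^ K`
  have hbern : J ^ K ≤ 2 * (J - 1) ^ K := by
    -- `(J - 1) ^ K ≥ J ^ K - K J ^ (K - 1)`
    have h5 : ∀ n : ℕ, J ^ (n + 1) - (n + 1) * J ^ n ≤ (J - 1) ^ (n + 1) := by
      intro n
      induction n with
      | zero => simp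
      | succ n ih =>
        have g1 : (J - 1) * (J ^ (n + 1) - (n + 1) * J ^ n) ≤ (J - 1) * (J - 1) ^ (n + 1) :=
          mul_le_mul_of_nonneg_left ih (by linarith)
        have g2 : (J - 1) * (J ^ (n + 1) - (n + 1) * J ^ n) =
            J ^ (n + 1 + 1) - ((n : ℤ) + 1 + 1) * J ^ (n + 1) + (n + 1) * J ^ n := by ring
        have g3 : (0:ℤ) ≤ (n + 1) * J ^ n := by positivity
        have g4 : (J - 1) * (J - 1) ^ (n + 1) = (J - 1) ^ (n + 1 + 1) := by ring
        push_cast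
        linarith
    obtain ⟨n, rfl⟩ : ∃ n, K = n + 1 := ⟨K - 1, by omega⟩
    have h6 := h5 n
    have h7 : 2 * (((n : ℤ) + 1) * J ^ n) ≤ J ^ (n + 1) := by
      have g1 : 2 * ((n : ℤ) + 1) ≤ J := by
        push_cast at hJ
        linarith
      have g2 := mul_le_mul_of_nonneg_right g1 (by positivity : (0:ℤ) ≤ J ^ n)
      have e : J * J ^ n = J ^ (n + 1) := by ring
      linarith
    linarith
  have h8 : J ^ K * (B * (cr u1 v1 + 1)) ≤ J ^ K * (2 * (cr u1 m1 + cr s1 m1)) := by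
    have g0 : 0 ≤ B * (cr u1 v1 + 1) := mul_nonneg hB (by linarith [h1.has.pos.1])
    have g1 := mul_le_mul_of_nonneg_right hbern g0
    have g2 : 2 * (J - 1) ^ K * (B * (cr u1 v1 + 1)) = 2 * (B * (J - 1) ^ K * (cr u1 v1 + 1)) := by
      ring
    have g3 : J ^ K * (2 * (cr u1 m1 + cr s1 m1)) = 2 * (J ^ K * (cr u1 m1 + cr s1 m1)) := by ring
    linarith
  exact le_of_mul_le_mul_left h8 (by positivity)

end Pool.Agent.H4G.Six
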