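import Pool.Agent.H4G.Six.D2.Local14
import Pool.Agent.H4G.Six.D2.BoxSieve

/-!
# The choice of a row (D2, G5; typed by helper14)

`choose_row`: in a window `x, y` of length `J` over a basis `l_a, l_b` of a block there is a row
`l = x l_a + y l_b` which satisfies the conditions of `GL_one` and `GM_one` on `l`.
-/

set_option autoImplicit false

namespace Pool.Agent.H4G.Six

open Pool.Agent.H4G

variable {p : ℤ} {u la lb w : Z2}

/-- vectors in the line of `u`: one coordinate -/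
theorem pdvd_iff {i j : ℤ} (hij : i * u.1 + j * u.2 = 1) (hw : p ∣ cr u w) :
    PDvd p w ↔ p ∣ i * w.1 + j * w.2 := by
  constructor
  · rintro ⟨h1, h2⟩
    exact dvd_add (h1.mul_left _) (h2.mul_left _)
  · intro h
    have e1 : w.1 = (i * w.1 + j * w.2) * u.1 - j * cr u w := by
      simp only [cr]
      linear_combination (-w.1) * hij
    have e2 : w.2 = (i * w.1 + j * w.2) * u.2 + i * cr u w := by
      simp only [cr]
      linear_combination (-w.2) * hij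
    constructor
    · rw [e1]; exact dvd_sub (h.mul_right _) (hw.mul_left _)
    · rw [e2]; exact dvd_add (h.mul_right _) (hw.mul_left _)

/-- parity: a nonzero pair with a given value of an affine form modulo 2 -/
theorem two_loc (a b c : ℤ) (h : ¬ ((2 : ℤ) ∣ a ∧ (2 : ℤ) ∣ b)) : ∃ x y : ℤ,
    ¬ ((2 : ℤ) ∣ x ∧ (2 : ℤ) ∣ y) ∧ ¬ (2 : ℤ) ∣ a * x + b * y + c := by
  by_cases hc : (2 : ℤ) ∣ c
  · by_cases ha : (2 : ℤ) ∣ a
    · exact ⟨0, 1, by norm_num, fun h1 => h ⟨ha, by omega⟩⟩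
    · exact ⟨1, 0, by norm_num, fun h1 => ha (by omega)⟩
  · by_cases ha : (2 : ℤ) ∣ a
    · exact ⟨1, 0, by norm_num, fun h1 => hc (by omega)⟩
    · by_cases hb : (2 : ℤ) ∣ b
      · exact ⟨0, 1, by norm_num, fun h1 => hc (by omega)⟩
      · exact ⟨1, 1, by norm_num, fun h1 => hc (by omega)⟩

/-- **one affine form for every prime**: in a window of length `J` there are coprime `x, y` which
avoid it -/
theorem choose_form {J X : ℕ} {D : ℤ} (hcap : Cap J X) (hD : D ≠ 0) (α β γ : ℕ → ℤ)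
    (h : ∀ p : ℕ, p.Prime → (p : ℤ) ∣ D → ¬ ((p : ℤ) ∣ α p ∧ (p : ℤ) ∣ β p) ∨
      (p : ℤ) ∣ α p ∧ (p : ℤ) ∣ β p ∧ ¬ (p : ℤ) ∣ γ p) {x0 : ℤ} (hx0 : 0 < x0)
    (hX : |D| * (x0 + J) ≤ X) (y0 : ℤ) :
    ∃ x y, x0 ≤ x ∧ x < x0 + J ∧ y0 ≤ y ∧ y < y0 + J ∧ IsCoprime x y ∧
      ∀ p : ℕ, p.Prime → (p : ℤ) ∣ D → ¬ (p : ℤ) ∣ α p * x + β p * y + γ p := by
  have hD0 : 0 < |D| := abs_pos.2 hD
  have hDn : ((D.natAbs : ℕ) : ℤ) = |D| := Int.natCast_natAbs D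
  have hJ : (0 : ℤ) ≤ J := Int.natCast_nonneg J
  have hX1 : |D| * 1 ≤ X := le_trans (mul_le_mul_of_nonneg_left (by linarith) hD0.le) hX
  obtain ⟨x, y, h1, h2, h3, h4, h5, h6⟩ := sieve2p (k := 1) (e := 1) hcap (D := D.natAbs)
    (Int.natAbs_ne_zero.2 hD) (by omega) (by norm_num)
    (fun p _ => α p) (fun p _ => β p) (fun p _ => γ p) (fun p hp hpD => by
      have hpD' : (p : ℤ) ∣ D := Int.natCast_dvd.2 hpD
      by_cases hp2 : p = 2
      · right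
        subst hp2
        rcases h 2 hp hpD' with h7 | ⟨h7, h8, h9⟩
        · obtain ⟨x, y, e1, e2⟩ := two_loc (α 2) (β 2) (γ 2) (by exact_mod_cast h7)
          exact ⟨x, y, by exact_mod_cast e1, fun _ => by exact_mod_cast e2⟩
        · refine ⟨1, 1, by norm_num, fun _ h10 => h9 ?_⟩
          rw [mul_one, mul_one] at h10
          exact (dvd_add_right (dvd_add h7 h8)).1 h10
      · left
        refine ⟨lt_of_le_of_ne hp.two_le (Ne.symm hp2), fun _ h7 h8 h9 => ?_⟩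
        rcases h p hp hpD' with h10 | ⟨-, -, h10⟩
        · exact h10 ⟨h7, h8⟩
        · exact h10 h9) x0 y0 (by
      rw [pow_one]
      intro x h7 h8
      have h9 : |x| = x := abs_of_pos (by linarith)
      refine ⟨by linarith, ?_⟩
      rw [hDn, h9]
      exact (mul_le_mul_of_nonneg_left (by linarith) hD0.le).trans hX)
  rw [pow_one] at h2 h4
  exact ⟨x, y, h1, h2, h3, h4, h5, fun p hp hpD => h6 p hp (Int.natCast_dvd.1 hpD) 0⟩

/-- **the choice of a row** `l = x l_a + y l_b` of `L`, `u` primitive: `b` is the content of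
`u × L`, `b'` the content of `u × M` -/
theorem choose_row {J X : ℕ} (hcap : Cap J X) {A b b' : ℤ} (hu : IsCoprime u.1 u.2)
    (hb : b = Int.gcd (cr u la) (cr u lb)) (hb0 : b ≠ 0) (hb' : b' ≠ 0) {x0 : ℤ} (hx0 : 0 < x0)
    (hX : |b * b'| * (x0 + J) ≤ X) (y0 : ℤ) :
    ∃ x y, x0 ≤ x ∧ x < x0 + J ∧ y0 ≤ y ∧ y < y0 + J ∧ IsCoprime x y ∧
      (∀ p : ℕ, p.Prime → (p : ℤ) ∣ b' → ¬ (p : ℤ) ∣ b →
        ¬ (p : ℤ) ∣ A + cr u (x • la + y • lb)) ∧
      (∀ p : ℕ, p.Prime → (p : ℤ) ∣ b → PDvd p (x • la + y • lb) → PDvd p la ∧ PDvd p lb) := by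
  classical
  obtain ⟨i, j, hij⟩ := hu
  have hbl : b ∣ cr u la := by rw [hb]; exact Int.gcd_dvd_left _ _
  have hbr : b ∣ cr u lb := by rw [hb]; exact Int.gcd_dvd_right _ _
  obtain ⟨x, y, h1, h2, h3, h4, h5, h6⟩ := choose_form hcap (D := b * b') (mul_ne_zero hb0 hb')
    (fun p => if (p : ℤ) ∣ b then i * la.1 + j * la.2 else cr u la)
    (fun p => if (p : ℤ) ∣ b then i * lb.1 + j * lb.2 else cr u lb)
    (fun p => if (p : ℤ) ∣ b then (if PDvd p la ∧ PDvd p lb then 1 else 0) else A)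
    (fun p hp hpD => by
      by_cases hpb : (p : ℤ) ∣ b
      · simp only [hpb, if_true]
        have e1 := pdvd_iff (w := la) hij (hpb.trans hbl)
        have e2 := pdvd_iff (w := lb) hij (hpb.trans hbr)
        by_cases hP : PDvd p la ∧ PDvd p lb
        · simp only [hP, and_self, if_true]
          exact Or.inr ⟨e1.1 hP.1, e2.1 hP.2, prime_not_dvd_one hp⟩
        · left
          rintro ⟨h7, h8⟩
          exact hP ⟨e1.2 h7, e2.2 h8⟩
      · simp only [hpb, if_false]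
        left
        rintro ⟨h7, h8⟩
        exact hpb (by rw [hb]; exact Int.dvd_coe_gcd h7 h8)) hx0 hX y0
  refine ⟨x, y, h1, h2, h3, h4, h5, fun p hp hpb' hpb h7 => ?_, fun p hp hpb h7 => ?_⟩
  · have h8 := h6 p hp (hpb'.mul_left _)
    simp only [hpb, if_false] at h8
    apply h8
    have e : cr u (x • la + y • lb) = x * cr u la + y * cr u lb := by
      simp only [cr, Prod.fst_add, Prod.snd_add, Prod.smul_fst, Prod.smul_snd, smul_eq_mul]; ring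
    rw [e] at h7
    have e2 : cr u la * x + cr u lb * y + A = A + (x * cr u la + y * cr u lb) := by ring
    rw [e2]; exact h7
  · by_contra hP
    have h8 := h6 p hp (hpb.mul_right _)
    simp only [hpb, if_true, hP, if_false, add_zero] at h8
    apply h8
    have e0 : (p : ℤ) ∣ cr u (x • la + y • lb) := h7.right _
    have e3 := (pdvd_iff hij e0).1 h7
    have e : i * (x • la + y • lb).1 + j * (x • la + y • lb).2 =
        (i * la.1 + j * la.2) * x + (i * lb.1 + j * lb.2) * y := by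
      simp only [Prod.fst_add, Prod.snd_add, Prod.smul_fst, Prod.smul_snd, smul_eq_mul]; ring
    rw [e] at e3
    exact e3

/-- **the choice of a row**, `u` not primitive: `w + l ≠ 0` for the primes of `D` with `L ≠ 0` -/
theorem choose_row_u {J X : ℕ} (hcap : Cap J X) {D : ℤ} (hD : D ≠ 0) (w : Z2) {x0 : ℤ}
    (hx0 : 0 < x0) (hX : |D| * (x0 + J) ≤ X) (y0 : ℤ) :
    ∃ x y, x0 ≤ x ∧ x < x0 + J ∧ y0 ≤ y ∧ y < y0 + J ∧ IsCoprime x y ∧
      (∀ p : ℕ, p.Prime → (p : ℤ) ∣ D → ¬ (PDvd p w ∧ PDvd p la ∧ PDvd p lb) →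
        ¬ PDvd p (w + (x • la + y • lb))) := by
  classical
  obtain ⟨x, y, h1, h2, h3, h4, h5, h6⟩ := choose_form hcap (D := D) hD
    (fun p => if (p : ℤ) ∣ la.1 ∧ (p : ℤ) ∣ lb.1 ∧ ((p : ℤ) ∣ w.1 ∨ ¬ PDvd p la ∨ ¬ PDvd p lb)
      then la.2 else la.1)
    (fun p => if (p : ℤ) ∣ la.1 ∧ (p : ℤ) ∣ lb.1 ∧ ((p : ℤ) ∣ w.1 ∨ ¬ PDvd p la ∨ ¬ PDvd p lb)
      then lb.2 else lb.1)
    (fun p => if (p : ℤ) ∣ la.1 ∧ (p : ℤ) ∣ lb.1 ∧ ((p : ℤ) ∣ w.1 ∨ ¬ PDvd p la ∨ ¬ PDvd p lb)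
      then (if PDvd p w ∧ PDvd p la ∧ PDvd p lb then 1 else w.2) else w.1)
    (fun p hp hpD => by
      by_cases hP : (p : ℤ) ∣ la.1 ∧ (p : ℤ) ∣ lb.1 ∧
        ((p : ℤ) ∣ w.1 ∨ ¬ PDvd p la ∨ ¬ PDvd p lb)
      · simp only [hP, and_self, if_true]
        obtain ⟨g1, g2, g3⟩ := hP
        by_cases g4 : (p : ℤ) ∣ la.2 ∧ (p : ℤ) ∣ lb.2
        · right
          refine ⟨g4.1, g4.2, ?_⟩
          by_cases hQ : PDvd p w ∧ PDvd p la ∧ PDvd p lb
          · simp only [hQ, and_self, if_true]; exact prime_not_dvd_one hp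
          · simp only [hQ, if_false]
            intro h7
            rcases g3 with g3 | g3 | g3
            · exact hQ ⟨⟨g3, h7⟩, ⟨g1, g4.1⟩, ⟨g2, g4.2⟩⟩
            · exact g3 ⟨g1, g4.1⟩
            · exact g3 ⟨g2, g4.2⟩
        · exact Or.inl g4
      · simp only [hP, if_false]
        by_cases g1 : (p : ℤ) ∣ la.1 ∧ (p : ℤ) ∣ lb.1
        · right
          refine ⟨g1.1, g1.2, fun h7 => hP ⟨g1.1, g1.2, Or.inl h7⟩⟩
        · exact Or.inl g1) hx0 hX y0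
  refine ⟨x, y, h1, h2, h3, h4, h5, fun p hp hpD hn h7 => ?_⟩
  have h8 := h6 p hp hpD
  obtain ⟨g1, g2⟩ := h7
  have e1 : (w + (x • la + y • lb)).1 = la.1 * x + lb.1 * y + w.1 := by
    simp only [Prod.fst_add, Prod.smul_fst, smul_eq_mul]; ring
  have e2 : (w + (x • la + y • lb)).2 = la.2 * x + lb.2 * y + w.2 := by
    simp only [Prod.snd_add, Prod.smul_snd, smul_eq_mul]; ring
  rw [e1] at g1
  rw [e2] at g2
  by_cases hP : (p : ℤ) ∣ la.1 ∧ (p : ℤ) ∣ lb.1 ∧ ((p : ℤ) ∣ w.1 ∨ ¬ PDvd p la ∨ ¬ PDvd p lb)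
  · simp only [hP, hn, and_self, if_true, if_false] at h8
    exact h8 g2
  · simp only [hP, if_false] at h8
    exact h8 g1

/-! ## Windows anywhere: `x₀` is any integer, the window of `x` has length `2 J + 1` -/

/-- `choose_form` for any `x₀` -/
theorem choose_formZ {J X : ℕ} {D : ℤ} (hcap : Cap J X) (hD : D ≠ 0) (hDX : |D| ≤ X)
    (α β γ : ℕ → ℤ)
    (h : ∀ p : ℕ, p.Prime → (p : ℤ) ∣ D → ¬ ((p : ℤ) ∣ α p ∧ (p : ℤ) ∣ β p) ∨
      (p : ℤ) ∣ α p ∧ (p : ℤ) ∣ β p ∧ ¬ (p : ℤ) ∣ γ p) (x0 : ℤ)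
    (hX : ∀ x : ℤ, x0 ≤ x → x < x0 + (2 * J + 1) → |D| * |x| ≤ X) (y0 : ℤ) :
    ∃ x y, x0 ≤ x ∧ x < x0 + (2 * J + 1) ∧ y0 ≤ y ∧ y < y0 + J ∧ IsCoprime x y ∧
      ∀ p : ℕ, p.Prime → (p : ℤ) ∣ D → ¬ (p : ℤ) ∣ α p * x + β p * y + γ p := by
  have hD0 : 0 < |D| := abs_pos.2 hD
  have hDn : ((D.natAbs : ℕ) : ℤ) = |D| := Int.natCast_natAbs D
  have hJ : (0 : ℤ) ≤ J := Int.natCast_nonneg J
  -- a window without zero
  obtain ⟨x1, a1, a2, a3⟩ : ∃ x1 : ℤ, x0 ≤ x1 ∧ x1 + J ≤ x0 + (2 * J + 1) ∧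
      ∀ x : ℤ, x1 ≤ x → x < x1 + J → x ≠ 0 := by
    by_cases h1 : 0 < x0
    · exact ⟨x0, le_refl _, by linarith, fun x h2 _ h3 => by omega⟩
    · by_cases h2 : x0 + J ≤ 0
      · exact ⟨x0, le_refl _, by linarith, fun x _ h3 h4 => by omega⟩
      · exact ⟨1, by omega, by omega, fun x h3 _ h4 => by omega⟩
  obtain ⟨x, y, h1, h2, h3, h4, h5, h6⟩ := sieve2p (k := 1) (e := 1) hcap (D := D.natAbs)
    (Int.natAbs_ne_zero.2 hD) (by omega) (by norm_num)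
    (fun p _ => α p) (fun p _ => β p) (fun p _ => γ p) (fun p hp hpD => by
      have hpD' : (p : ℤ) ∣ D := Int.natCast_dvd.2 hpD
      by_cases hp2 : p = 2
      · right
        subst hp2
        rcases h 2 hp hpD' with h7 | ⟨h7, h8, h9⟩
        · obtain ⟨x, y, e1, e2⟩ := two_loc (α 2) (β 2) (γ 2) (by exact_mod_cast h7)
          exact ⟨x, y, by exact_mod_cast e1, fun _ => by exact_mod_cast e2⟩
        · refine ⟨1, 1, by norm_num, fun _ h10 => h9 ?_⟩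
          rw [mul_one, mul_one] at h10
          exact (dvd_add_right (dvd_add h7 h8)).1 h10
      · left
        refine ⟨lt_of_le_of_ne hp.two_le (Ne.symm hp2), fun _ h7 h8 h9 => ?_⟩
        rcases h p hp hpD' with h10 | ⟨-, -, h10⟩
        · exact h10 ⟨h7, h8⟩
        · exact h10 h9) x1 y0 (by
      rw [pow_one]
      intro x h7 h8
      refine ⟨a3 x h7 h8, ?_⟩
      rw [hDn]
      exact hX x (by linarith) (by linarith))
  rw [pow_one] at h2 h4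
  exact ⟨x, y, by linarith, by linarith, h3, h4, h5,
    fun p hp hpD => h6 p hp (Int.natCast_dvd.1 hpD) 0⟩

/-- `choose_row` for any `x₀` -/
theorem choose_rowZ {J X : ℕ} (hcap : Cap J X) {A b b' : ℤ} (hu : IsCoprime u.1 u.2)
    (hb : b = Int.gcd (cr u la) (cr u lb)) (hb0 : b ≠ 0) (hb' : b' ≠ 0) (hDX : |b * b'| ≤ X)
    (x0 : ℤ) (hX : ∀ x : ℤ, x0 ≤ x → x < x0 + (2 * J + 1) → |b * b'| * |x| ≤ X) (y0 : ℤ) :
    ∃ x y, x0 ≤ x ∧ x < x0 + (2 * J + 1) ∧ y0 ≤ y ∧ y < y0 + J ∧ IsCoprime x y ∧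
      (∀ p : ℕ, p.Prime → (p : ℤ) ∣ b' → ¬ (p : ℤ) ∣ b →
        ¬ (p : ℤ) ∣ A + cr u (x • la + y • lb)) ∧
      (∀ p : ℕ, p.Prime → (p : ℤ) ∣ b → PDvd p (x • la + y • lb) → PDvd p la ∧ PDvd p lb) := by
  classical
  obtain ⟨i, j, hij⟩ := hu
  have hbl : b ∣ cr u la := by rw [hb]; exact Int.gcd_dvd_left _ _
  have hbr : b ∣ cr u lb := by rw [hb]; exact Int.gcd_dvd_right _ _
  obtain ⟨x, y, h1, h2, h3, h4, h5, h6⟩ := choose_formZ hcap (D := b * b') (mul_ne_zero hb0 hb')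
    hDX
    (fun p => if (p : ℤ) ∣ b then i * la.1 + j * la.2 else cr u la)
    (fun p => if (p : ℤ) ∣ b then i * lb.1 + j * lb.2 else cr u lb)
    (fun p => if (p : ℤ) ∣ b then (if PDvd p la ∧ PDvd p lb then 1 else 0) else A)
    (fun p hp hpD => by
      by_cases hpb : (p : ℤ) ∣ b
      · simp only [hpb, if_true]
        have e1 := pdvd_iff (w := la) hij (hpb.trans hbl)
        have e2 := pdvd_iff (w := lb) hij (hpb.trans hbr)
        by_cases hP : PDvd p la ∧ PDvd p lb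
        · simp only [hP, and_self, if_true]
          exact Or.inr ⟨e1.1 hP.1, e2.1 hP.2, prime_not_dvd_one hp⟩
        · left
          rintro ⟨h7, h8⟩
          exact hP ⟨e1.2 h7, e2.2 h8⟩
      · simp only [hpb, if_false]
        left
        rintro ⟨h7, h8⟩
        exact hpb (by rw [hb]; exact Int.dvd_coe_gcd h7 h8)) x0 hX y0
  refine ⟨x, y, h1, h2, h3, h4, h5, fun p hp hpb' hpb h7 => ?_, fun p hp hpb h7 => ?_⟩
  · have h8 := h6 p hp (hpb'.mul_left _)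
    simp only [hpb, if_false] at h8
    apply h8
    have e : cr u (x • la + y • lb) = x * cr u la + y * cr u lb := by
      simp only [cr, Prod.fst_add, Prod.snd_add, Prod.smul_fst, Prod.smul_snd, smul_eq_mul]; ring
    rw [e] at h7
    have e2 : cr u la * x + cr u lb * y + A = A + (x * cr u la + y * cr u lb) := by ring
    rw [e2]; exact h7
  · by_contra hP
    have h8 := h6 p hp (hpb.mul_right _)
    simp only [hpb, if_true, hP, if_false, add_zero] at h8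
    apply h8
    have e0 : (p : ℤ) ∣ cr u (x • la + y • lb) := h7.right _
    have e3 := (pdvd_iff hij e0).1 h7
    have e : i * (x • la + y • lb).1 + j * (x • la + y • lb).2 =
        (i * la.1 + j * la.2) * x + (i * lb.1 + j * lb.2) * y := by
      simp only [Prod.fst_add, Prod.snd_add, Prod.smul_fst, Prod.smul_snd, smul_eq_mul]; ring
    rw [e] at e3
    exact e3

/-- `choose_row_u` for any `x₀` -/
theorem choose_row_uZ {J X : ℕ} (hcap : Cap J X) {D : ℤ} (hD : D ≠ 0) (hDX : |D| ≤ X) (w : Z2)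
    (x0 : ℤ) (hX : ∀ x : ℤ, x0 ≤ x → x < x0 + (2 * J + 1) → |D| * |x| ≤ X) (y0 : ℤ) :
    ∃ x y, x0 ≤ x ∧ x < x0 + (2 * J + 1) ∧ y0 ≤ y ∧ y < y0 + J ∧ IsCoprime x y ∧
      (∀ p : ℕ, p.Prime → (p : ℤ) ∣ D → ¬ (PDvd p w ∧ PDvd p la ∧ PDvd p lb) →
        ¬ PDvd p (w + (x • la + y • lb))) := by
  classical
  obtain ⟨x, y, h1, h2, h3, h4, h5, h6⟩ := choose_formZ hcap (D := D) hD hDX
    (fun p => if (p : ℤ) ∣ la.1 ∧ (p : ℤ) ∣ lb.1 ∧ ((p : ℤ) ∣ w.1 ∨ ¬ PDvd p la ∨ ¬ PDvd p lb)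
      then la.2 else la.1)
    (fun p => if (p : ℤ) ∣ la.1 ∧ (p : ℤ) ∣ lb.1 ∧ ((p : ℤ) ∣ w.1 ∨ ¬ PDvd p la ∨ ¬ PDvd p lb)
      then lb.2 else lb.1)
    (fun p => if (p : ℤ) ∣ la.1 ∧ (p : ℤ) ∣ lb.1 ∧ ((p : ℤ) ∣ w.1 ∨ ¬ PDvd p la ∨ ¬ PDvd p lb)
      then (if PDvd p w ∧ PDvd p la ∧ PDvd p lb then 1 else w.2) else w.1)
    (fun p hp hpD => by
      by_cases hP : (p : ℤ) ∣ la.1 ∧ (p : ℤ) ∣ lb.1 ∧
        ((p : ℤ) ∣ w.1 ∨ ¬ PDvd p la ∨ ¬ PDvd p lb)
      · simp only [hP, and_self, if_true]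
        obtain ⟨g1, g2, g3⟩ := hP
        by_cases g4 : (p : ℤ) ∣ la.2 ∧ (p : ℤ) ∣ lb.2
        · right
          refine ⟨g4.1, g4.2, ?_⟩
          by_cases hQ : PDvd p w ∧ PDvd p la ∧ PDvd p lb
          · simp only [hQ, and_self, if_true]; exact prime_not_dvd_one hp
          · simp only [hQ, if_false]
            intro h7
            rcases g3 with g3 | g3 | g3
            · exact hQ ⟨⟨g3, h7⟩, ⟨g1, g4.1⟩, ⟨g2, g4.2⟩⟩
            · exact g3 ⟨g1, g4.1⟩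
            · exact g3 ⟨g2, g4.2⟩
        · exact Or.inl g4
      · simp only [hP, if_false]
        by_cases g1 : (p : ℤ) ∣ la.1 ∧ (p : ℤ) ∣ lb.1
        · right
          refine ⟨g1.1, g1.2, fun h7 => hP ⟨g1.1, g1.2, Or.inl h7⟩⟩
        · exact Or.inl g1) x0 hX y0
  refine ⟨x, y, h1, h2, h3, h4, h5, fun p hp hpD hn h7 => ?_⟩
  have h8 := h6 p hp hpD
  obtain ⟨g1, g2⟩ := h7
  have e1 : (w + (x • la + y • lb)).1 = la.1 * x + lb.1 * y + w.1 := by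
    simp only [Prod.fst_add, Prod.smul_fst, smul_eq_mul]; ring
  have e2 : (w + (x • la + y • lb)).2 = la.2 * x + lb.2 * y + w.2 := by
    simp only [Prod.snd_add, Prod.smul_snd, smul_eq_mul]; ring
  rw [e1] at g1
  rw [e2] at g2
  by_cases hP : (p : ℤ) ∣ la.1 ∧ (p : ℤ) ∣ lb.1 ∧ ((p : ℤ) ∣ w.1 ∨ ¬ PDvd p la ∨ ¬ PDvd p lb)
  · simp only [hP, hn, and_self, if_true, if_false] at h8
    exact h8 g2
  · simp only [hP, if_false] at h8
    exact h8 g1

end Pool.Agent.H4G.Six
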