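import Pool.Agent.H4G.Six.D2.Rows
import Pool.Agent.H4G.Six.D2.Row14
import Pool.Agent.H4G.Six.D2.BoxRows83

/-!
# Exit 0 of D2: a tree whose centre is a primitive vector of the plane (helper69)
-/

set_option autoImplicit false

namespace Pool.Agent.H4G.Six

open Pool.Agent.H4G

variable {X : Type} {O : PO X} {N : ℤ} {u v l q m s : Z2}

theorem PDvd.zero_iff {r : ℤ} {a b : Z2} (h : PDvd r b) : PDvd r (a + b) ↔ PDvd r a := by
  constructor
  · intro h1
    have := h1.sub h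
    rwa [add_sub_cancel_right] at this
  · intro h1
    exact h1.add h

/-- the vectors span the plane: not all of them are parallel to one vector modulo `r` -/
theorem span_not {S : Set Z2} (hS : AddSubgroup.closure S = ⊤) {r : ℕ} (hr : r.Prime) {w : Z2}
    (h : ∀ a ∈ S, ∃ (k : ℤ) (c : Z2), a = k • w + (r : ℤ) • c) : False := by
  have h1 : PDvd (r : ℤ) w := by
    refine span_mod hS ?_
    intro a ha
    obtain ⟨k, c, hk⟩ := h a ha
    have e : cr w a = r * cr w c := by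
      rw [hk]
      simp only [cr, Prod.fst_add, Prod.snd_add, Prod.smul_fst, Prod.smul_snd, smul_eq_mul]
      ring
    rw [e]
    exact dvd_mul_right _ _
  have h2 : PDvd (r : ℤ) (1, 0) := by
    refine span_mod hS ?_
    intro a ha
    obtain ⟨k, c, hk⟩ := h a ha
    have e : cr (1, 0) a = k * w.2 + r * c.2 := by
      rw [hk]
      simp only [cr, Prod.fst_add, Prod.snd_add, Prod.smul_fst, Prod.smul_snd, smul_eq_mul]
      ring
    rw [e]
    exact dvd_add (h1.2.mul_left _) (dvd_mul_right _ _)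
  exact prime_not_dvd_one hr (by simpa using h2.1)

theorem PDvd.ex {r : ℤ} {a : Z2} (h : PDvd r a) : ∃ c : Z2, a = r • c := by
  obtain ⟨⟨x, hx⟩, ⟨y, hy⟩⟩ := h
  exact ⟨(x, y), by ext <;> simp [hx, hy]⟩

/-- **the choice of `k`**: `v + m_k ≠ 0` for the primes `r` with `u = L = 0` -/
theorem choose_k0 {J X' : ℕ} (hcap : Cap J X') {p' : Z2} {D : ℤ} (hD : D ≠ 0) (hX : |D| ≤ X')
    (hS : AddSubgroup.closure ({u, v, l, q, m, s} : Set Z2) = ⊤)
    (hp' : p' = u + s) (hu : ∀ r : ℕ, r.Prime → PDvd r u → (r : ℤ) ∣ D) (n : ℤ) :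
    ∃ k, n ≤ k ∧ k < n + J ∧ ∀ r : ℕ, r.Prime → PDvd r u → PDvd r l → PDvd r (u + q) →
      ¬ PDvd r (v + (m + k • p')) := by
  classical
  obtain ⟨k, h1, h2, h3⟩ := sieveLin hcap (D := D.natAbs) (Int.natAbs_ne_zero.2 hD) (by
      rw [← Int.natCast_natAbs] at hX
      exact_mod_cast hX)
    (k := 1) (e := 1) (by norm_num)
    (fun r _ => if (r : ℤ) ∣ p'.1 then (if (r : ℤ) ∣ p'.2 then 0 else p'.2) else p'.1)
    (fun r _ => if (r : ℤ) ∣ p'.1 then (if (r : ℤ) ∣ p'.2 then 1 else (v + m).2) else (v + m).1)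
    (fun r hr _ => by
      left
      refine ⟨hr.one_lt, fun _ h4 => ?_⟩
      by_cases c1 : (r : ℤ) ∣ p'.1
      · by_cases c2 : (r : ℤ) ∣ p'.2
        · simp only [c1, c2, if_true]
          exact prime_not_dvd_one hr
        · simp only [c1, c2, if_true, if_false] at h4
      · simp only [c1, if_false] at h4) n
  rw [pow_one] at h2
  refine ⟨k, h1, h2, fun r hr ru rl rq rv => ?_⟩
  have h4 := h3 r hr (Int.natCast_dvd.1 (hu r hr ru)) 0
  have e : v + (m + k • p') = (v + m) + k • p' := by abel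
  rw [e] at rv
  by_cases c1 : (r : ℤ) ∣ p'.1
  · by_cases c2 : (r : ℤ) ∣ p'.2
    · -- `p' = 0` modulo `r`
      have hp0 : PDvd (r : ℤ) p' := ⟨c1, c2⟩
      have hvm : PDvd (r : ℤ) (v + m) := (PDvd.zero_iff (hp0.smul k)).1 rv
      obtain ⟨c3, hc3⟩ := ru.ex
      obtain ⟨c4, hc4⟩ := hvm.ex
      obtain ⟨c5, hc5⟩ := rl.ex
      obtain ⟨c6, hc6⟩ := rq.ex
      obtain ⟨c7, hc7⟩ := hp0.ex
      refine span_not hS hr (w := m) ?_
      rintro a (rfl | rfl | rfl | rfl | rfl | rfl)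
      · exact ⟨0, c3, by rw [hc3]; module⟩
      · exact ⟨-1, c4, by rw [← hc4]; module⟩
      · exact ⟨0, c5, by rw [hc5]; module⟩
      · refine ⟨0, c6 - c3, ?_⟩
        have : a = (u + a) - u := by abel
        rw [this, hc6, hc3]; module
      · exact ⟨1, 0, by module⟩
      · refine ⟨0, c7 - c3, ?_⟩
        have : a = p' - u := by rw [hp']; abel
        rw [this, hc7, hc3]; module
    · simp only [c1, c2, if_true, if_false] at h4
      apply h4
      have := rv.2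
      simp only [Prod.snd_add, Prod.smul_snd, smul_eq_mul] at this ⊢
      have e2 : p'.2 * k + (v.2 + m.2) = v.2 + m.2 + k * p'.2 := by ring
      rw [e2]; exact this
  · simp only [c1, if_false] at h4
    apply h4
    have := rv.1
    simp only [Prod.fst_add, Prod.smul_fst, smul_eq_mul] at this ⊢
    have e2 : p'.1 * k + (v.1 + m.1) = v.1 + m.1 + k * p'.1 := by ring
    rw [e2]; exact this

/-- a box of slits of `L = ⟨l, p⟩` over the slit `m`, every slit with a row system of centres -/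
def RowBox (u v l p m : Z2) (J K T2 X0 : ℤ) : Prop :=
  ∃ la lb : Z2, lat la lb = lat l p ∧ cr lb la = cr p l ∧ ∃ x0 y0 : ℤ, 0 < x0 ∧ x0 + J ≤ X0 ∧
    ∀ x y : ℤ, x0 ≤ x → x < x0 + J → y0 ≤ y → y < y0 + J →
      0 < cr u (x • la + y • lb) ∧ T2 * cr u (x • la + y • lb) ≤ cr p l ∧
      ∃ (h g : Z2) (k : ℤ), Bas u (v + (x • la + y • lb) + m) h g ∧
        RowSys (Lg u v (x • la + y • lb) m) J K h g k

/-- the complement of a primitive vector of the block -/
theorem compl_of_cop {la lb : Z2} {x y : ℤ} (hxy : IsCoprime x y) : ∃ l2 : Z2,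
    lat (x • la + y • lb) l2 = lat la lb ∧ cr l2 (x • la + y • lb) = cr lb la := by
  obtain ⟨r, t, hrt⟩ := hxy
  refine ⟨(-t) • la + r • lb, ?_, ?_⟩
  · exact closure_pair_eq (α := x) (β := y) (γ := -t) (δ := r) rfl rfl
      (Or.inl (by linear_combination hrt))
  · simp only [cr, Prod.fst_add, Prod.snd_add, Prod.smul_fst, Prod.smul_snd, smul_eq_mul]
    linear_combination (lb.1 * la.2 - lb.2 * la.1) * hrt

theorem pdvd_mem69 {r : ℤ} {a b w : Z2} (ha : PDvd r a) (hb : PDvd r b) (hw : w ∈ lat a b) :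
    PDvd r w := by
  obtain ⟨i, j, h⟩ := mem_lat_coords hw
  rw [h]
  exact (ha.smul i).add (hb.smul j)

theorem lat_left (a b : Z2) : a ∈ lat a b := AddSubgroup.subset_closure (by simp)
theorem lat_right (a b : Z2) : b ∈ lat a b := AddSubgroup.subset_closure (by simp)

/-- the span of the six vectors does not change with the slits -/
theorem span_change {l1 q1 m1 s1 : Z2}
    (hS : AddSubgroup.closure ({u, v, l, q, m, s} : Set Z2) = ⊤)
    (hL : lat l1 (u + q1) = lat l (u + q)) (hM : lat m1 (u + s1) = lat m (u + s)) :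
    AddSubgroup.closure ({u, v, l1, q1, m1, s1} : Set Z2) = ⊤ := by
  rw [eq_top_iff, ← hS, AddSubgroup.closure_le]
  obtain ⟨S, hSd⟩ : ∃ S, S = AddSubgroup.closure ({u, v, l1, q1, m1, s1} : Set Z2) := ⟨_, rfl⟩
  rw [← hSd]
  have k1 : u ∈ S := by rw [hSd]; exact AddSubgroup.subset_closure (by simp)
  have k2 : v ∈ S := by rw [hSd]; exact AddSubgroup.subset_closure (by simp)
  have k3 : l1 ∈ S := by rw [hSd]; exact AddSubgroup.subset_closure (by simp)
  have k4 : q1 ∈ S := by rw [hSd]; exact AddSubgroup.subset_closure (by simp)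
  have k5 : m1 ∈ S := by rw [hSd]; exact AddSubgroup.subset_closure (by simp)
  have k6 : s1 ∈ S := by rw [hSd]; exact AddSubgroup.subset_closure (by simp)
  have hLS : lat l (u + q) ≤ S := by
    rw [← hL, lat, AddSubgroup.closure_le]
    rintro z (rfl | rfl)
    · exact k3
    · exact S.add_mem k1 k4
  have hMS : lat m (u + s) ≤ S := by
    rw [← hM, lat, AddSubgroup.closure_le]
    rintro z (rfl | rfl)
    · exact k5
    · exact S.add_mem k1 k6
  rintro z (rfl | rfl | rfl | rfl | rfl | rfl)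
  · exact k1
  · exact k2
  · exact hLS (lat_left _ _)
  · have := S.sub_mem (hLS (lat_right _ _)) k1
    rwa [add_sub_cancel_left] at this
  · exact hMS (lat_left _ _)
  · have := S.sub_mem (hMS (lat_right _ _)) k1
    rwa [add_sub_cancel_left] at this

/-- **EXIT 0** from a block of slits `m + k (u + s)` with row boxes: the new centre is a primitive
vector of the plane -/
theorem E0core {J X' : ℕ} {K T2 X0 n : ℤ} (hT : Has6 O (u, v, l, q, m, s))
    (hN : vol6 (u, v, l, q, m, s) = N) (us : cr u s = 0)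
    (hS : AddSubgroup.closure ({u, v, l, q, m, s} : Set Z2) = ⊤)
    (hcap : Cap J X') (J1 : 1 ≤ J) (hK : 16 * (J : ℤ) ^ 2 ≤ K) (hX : K ^ 2 * N ^ 4 ≤ X')
    (hX0 : N * X0 ≤ X') (hT2 : 2 ≤ T2)
    (hbox : ∀ k, n ≤ k → k < n + J → RowBox u v l (u + q) (m + k • (u + s)) J K T2 X0) :
    ∃ z v' l1 q1 m1 : Z2, Has6 O (z, v', l1, q1, m1, s) ∧ vol6 (z, v', l1, q1, m1, s) = N ∧
      IsCoprime z.1 z.2 ∧ lat l1 (u + q1) = lat l (u + q) ∧ lat m1 (u + s) = lat m (u + s) ∧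
      cr u m1 = cr u m ∧ 0 < cr u l1 ∧ T2 * cr u l1 ≤ cr (u + q) l ∧
      cr z v' + cr z l1 + cr z m1 = cr u v + cr u l1 + cr u m ∧
      cr q1 l1 = cr (u + q) l - cr u l1 ∧ cr s m1 = cr s m ∧
      lat z (v' + l1 + m1) = lat u (v + l1 + m1) := by
  obtain ⟨p1, p2, p3, e1, e2, -⟩ := hT.sizes hN
  obtain ⟨-, -, -, p4, p5⟩ := hT.pos
  have hvol : cr u v + cr u l + cr u m + cr q l + cr s m = N := by
    rw [← hN]; simp only [vol6]
  have AN : cr u v ≤ N := by linarith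
  have N1 : 1 ≤ N := by linarith
  have K0 : 1 ≤ K := by nlinarith [sq_nonneg (J : ℤ), show (1 : ℤ) ≤ J by exact_mod_cast J1]
  have NX : N ≤ X' := by
    have h0 : 1 ≤ N ^ 3 := one_le_pow₀ N1
    have h1 : N ≤ N ^ 4 := by
      have : N * 1 ≤ N * N ^ 3 := mul_le_mul_of_nonneg_left h0 (by linarith)
      calc N = N * 1 := (mul_one N).symm
        _ ≤ N * N ^ 3 := this
        _ = N ^ 4 := by ring
    have h2 : 1 * N ^ 4 ≤ K ^ 2 * N ^ 4 :=
      mul_le_mul_of_nonneg_right (one_le_pow₀ K0) (by positivity)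
    linarith
  have hu : ∀ r : ℕ, r.Prime → PDvd r u → (r : ℤ) ∣ cr u v := fun r _ h => h.left _
  -- the choice of `k`
  obtain ⟨k, k1, k2, k3⟩ := choose_k0 hcap p1.ne'
    (by rw [abs_of_pos p1]; linarith) hS rfl hu n
  obtain ⟨la, lb, b1, b2, x0, y0, x0p, x0X, hb⟩ := hbox k k1 k2
  obtain ⟨m1, hm1⟩ : ∃ m1, m1 = m + k • (u + s) := ⟨_, rfl⟩
  rw [← hm1] at hb k3
  have su : cr s u = 0 := by rw [cr_swap' u s, us, neg_zero]
  have um1 : cr u m1 = cr u m := by
    have : cr u m1 = cr u m + k * cr u s := by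
      rw [hm1]
      simp only [cr, Prod.fst_add, Prod.snd_add, Prod.smul_fst, Prod.smul_snd, smul_eq_mul]
      ring
    rw [this, us]; ring
  have sm1 : cr s m1 = cr s m := by
    have : cr s m1 = cr s m + k * cr s u := by
      rw [hm1]
      simp only [cr, Prod.fst_add, Prod.snd_add, Prod.smul_fst, Prod.smul_snd, smul_eq_mul]
      ring
    rw [this, su]; ring
  have latm : lat m1 (u + s) = lat m (u + s) := by
    rw [hm1]
    exact closure_pair_eq (α := 1) (β := k) (γ := 0) (δ := 1) (by module) (by module)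
      (Or.inl (by norm_num))
  -- the choice of `l`
  have X0X : |cr u v| * (x0 + J) ≤ X' := by
    rw [abs_of_pos p1]
    have h1 : cr u v * (x0 + J) ≤ N * (x0 + J) :=
      mul_le_mul_of_nonneg_right AN (by positivity)
    have h2 : N * (x0 + J) ≤ N * X0 := mul_le_mul_of_nonneg_left x0X (by linarith)
    linarith
  obtain ⟨x, y, x1, x2, y1, y2, hxy, hxy2⟩ := choose_row_u (la := la) (lb := lb) hcap p1.ne'
    (v + m1) x0p X0X y0
  obtain ⟨c1, c2, h, g, kk, hbas, hsys⟩ := hb x y x1 x2 y1 y2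
  obtain ⟨l2, d1, d2⟩ := compl_of_cop (la := la) (lb := lb) hxy
  obtain ⟨l1, hl1⟩ : ∃ l1, l1 = x • la + y • lb := ⟨_, rfl⟩
  rw [← hl1] at c1 c2 hbas hsys d1 d2 hxy2
  obtain ⟨q1, hq1⟩ : ∃ q1, q1 = l2 - u := ⟨_, rfl⟩
  have uq1 : u + q1 = l2 := by rw [hq1]; abel
  have latl : lat l1 (u + q1) = lat l (u + q) := by rw [uq1, d1, b1]
  have ql1 : cr q1 l1 = cr (u + q) l - cr u l1 := by
    have : cr q1 l1 = cr l2 l1 - cr u l1 := by
      rw [hq1]; simp only [cr, Prod.fst_sub, Prod.snd_sub]; ring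
    rw [this, d2, b2]
  have ql1p : 0 < cr q1 l1 := by rw [ql1]; nlinarith
  have hT1 : Has6 O (u, v, l1, q1, m1, s) :=
    hT.change c1 ql1p latl (by rw [um1]; exact p3) (by rw [sm1]; exact p5) latm
  have epl : cr (u + q) l = cr u l + cr q l := cr_addl u q l
  have hN1 : vol6 (u, v, l1, q1, m1, s) = N := by
    simp only [vol6]
    rw [um1, sm1, ql1, epl]
    linarith
  obtain ⟨w1, w2, w3, f1, f2, -⟩ := hT1.sizes hN1
  -- `Λ` is not zero modulo a prime
  have hnz : ∀ r : ℕ, r.Prime → ¬ (PDvd r u ∧ PDvd r (v + l1 + m1)) := by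
    rintro r hr ⟨hru, hrx⟩
    have h5 := hxy2 r hr (hu r hr hru)
    have e : v + m1 + l1 = v + l1 + m1 := by abel
    rw [e] at h5
    refine h5 ?_ hrx
    rintro ⟨g1, g2, g3⟩
    have hl : PDvd (r : ℤ) l := pdvd_mem69 g2 g3 (by rw [b1]; exact lat_left _ _)
    have hq : PDvd (r : ℤ) (u + q) := pdvd_mem69 g2 g3 (by rw [b1]; exact lat_right _ _)
    exact k3 r hr hru hl hq g1
  -- the two coordinate vectors
  obtain ⟨a, b, hab, hua, hct⟩ : ∃ a b : Z2, |cr a b| = 1 ∧ cr u a ≠ 0 ∧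
      ∀ z : Z2, ∀ r : ℤ, (r ∣ cr z a ∧ r ∣ cr z b) ↔ PDvd r z := by
    by_cases hu2 : u.2 = 0
    · refine ⟨(0, 1), (1, 0), by simp [cr], ?_, fun z r => ?_⟩
      · intro h0
        have hu1 : u.1 = 0 := by simpa [cr] using h0
        have : cr u v = 0 := by simp only [cr]; rw [hu1, hu2]; ring
        linarith
      · simp [cr, PDvd]
    · refine ⟨(1, 0), (0, 1), by simp [cr], ?_, fun z r => ?_⟩
      · intro h0
        exact hu2 (by simpa [cr] using h0)
      · simp only [cr, PDvd, mul_zero, mul_one, zero_sub, sub_zero, dvd_neg]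
        exact and_comm
  have hG : GLam u (v + l1 + m1) a b = 1 := by
    have G0 : 0 < GLam u (v + l1 + m1) a b := GLam_pos hua
    obtain ⟨g1, g2, g3, g4⟩ := GLam_dvd (u := u) (x := v + l1 + m1) (a := a) (b := b)
    by_contra hne
    have h5 : (GLam u (v + l1 + m1) a b).natAbs ≠ 1 := by omega
    obtain ⟨r, hr, hrd⟩ := Nat.exists_prime_and_dvd h5
    have hrd' : (r : ℤ) ∣ GLam u (v + l1 + m1) a b := Int.natCast_dvd.2 hrd
    exact hnz r hr ⟨(hct _ _).1 ⟨hrd'.trans g1, hrd'.trans g2⟩,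
      (hct _ _).1 ⟨hrd'.trans g3, hrd'.trans g4⟩⟩
  have hux : cr u (v + l1 + m1) ≠ 0 := by rw [f1]; intro h0; linarith
  have hXX : (K * (|cr u (v + l1 + m1)| * |cr a b|)) *
      (K * (|cr u (v + l1 + m1)| * |cr a b|)) ≤ X' := by
    rw [hab]
    have := sizeX (K := K) (N := N) (a := |cr u (v + l1 + m1)|) (b := 1)
      (c := |cr u (v + l1 + m1)|) (d := 1) (by linarith) (abs_nonneg _) (by norm_num)
      (abs_nonneg _) (by norm_num) f2 N1 f2 N1
    linarith
  obtain ⟨z, i, j, z1, z2, z3, z4⟩ := hsys.one hbas hcap J1 hK hux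
    (by intro h0; rw [h0, abs_zero] at hab; norm_num at hab) hua hXX
  obtain ⟨v', t1, t2, t3, t4⟩ := hT1.at_Lg z2 z3 z1
  refine ⟨z, v', l1, q1, m1, t1, t4.trans hN1, ?_, latl, latm, um1, c1, c2, ?_, ql1, sm1, t2⟩
  · rw [hG] at z4
    refine isCoprime_of_prime fun r hr h5 h6 => ?_
    obtain ⟨g1, g2⟩ := (hct z r).2 ⟨h6, h5⟩
    have h7 : (r : ℤ) ∣ ct z a b := dvd_ct g1 g2
    rw [z4] at h7
    exact prime_not_dvd_one hr h7
  · rw [t3, um1]; ring

/-- a window with positive first coordinates -/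
theorem pos_window {P : Z2 → Prop} {la lb : Z2} {x0 y0 T J B : ℤ} (hJ : 1 ≤ J) (hT : 2 * J ≤ T)
    (h : ∀ x y : ℤ, x0 ≤ x → x ≤ x0 + T → y0 ≤ y → y ≤ y0 + T →
      P (x • la + y • lb) ∧ |x| ≤ B) :
    ∃ la' lb' : Z2, lat la' lb' = lat la lb ∧ cr lb' la' = cr lb la ∧ ∃ x1 y1 : ℤ, 0 < x1 ∧
      x1 + J ≤ B + 1 ∧ ∀ x y : ℤ, x1 ≤ x → x < x1 + J → y1 ≤ y → y < y1 + J →
        P (x • la' + y • lb') := by
  by_cases c : max x0 1 + J - 1 ≤ x0 + T
  · refine ⟨la, lb, rfl, rfl, max x0 1, y0, by omega, ?_, fun x y h1 h2 h3 h4 => ?_⟩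
    · have h5 := (h (max x0 1 + J - 1) y0 (by omega) c le_rfl (by omega)).2
      have h6 := le_abs_self (max x0 1 + J - 1)
      linarith
    · exact (h x y (by omega) (by omega) h3 (by omega)).1
  · have hneg : x0 + J - 1 < 0 := by omega
    refine ⟨-la, -lb, ?_, ?_, -(x0 + J - 1), -(y0 + J - 1), by omega, ?_,
      fun x y h1 h2 h3 h4 => ?_⟩
    · exact closure_pair_eq (α := -1) (β := 0) (γ := 0) (δ := -1) (by module) (by module)
        (Or.inl (by norm_num))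
    · simp only [cr, Prod.fst_neg, Prod.snd_neg]; ring
    · have h5 := (h x0 y0 le_rfl (by omega) le_rfl (by omega)).2
      have h6 := neg_le_abs x0
      linarith
    · have h5 := (h (-x) (-y) (by omega) (by omega) (by omega) (by omega)).1
      have e : (-x) • la + (-y) • lb = x • (-la) + y • (-lb) := by module
      rw [e] at h5
      exact h5

/-- **a rich torus has a row box** -/
theorem rowBox_of_rich {u v m l p : Z2} {J K K1 K2 K3 Kw T T2 : ℤ} (f0 : 0 < cr u v)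
    (f2 : 0 < cr u m) (ha : 0 < cr p l) (J1 : 1 ≤ J) (K8 : 8 * J ≤ K) (K65 : 65 ≤ K)
    (hK2 : 2 * K ^ 2 ≤ K2) (hK3 : 12 * K2 ≤ K3) (hT : 2 * J ≤ T) (hT2 : 1 ≤ T2)
    (hKw : 512 * T2 * (T + 1) ≤ Kw) (hK1 : 6 * Kw * K2 ≤ K1)
    (hK1' : 128 * K3 * T2 * (T + 1) ≤ K1) (hbig : 3 * Kw ^ 2 * (cr u v + cr u m) < cr p l)
    (hr : RichL (lat l p) u m K1) : RowBox u v l p m J K T2 (cr p l + 1) := by
  obtain ⟨la, lb, b1, b2, x0, y0, hb⟩ := box_rows f0 f2 ha J1 K8 K65 hK2 hK3 (by linarith) hT2 hKw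
    hK1 hK1' hbig hr
  obtain ⟨la', lb', c1, c2, x1, y1, c3, c4, c5⟩ := pos_window (J := J) (T := T) (B := cr p l)
    (P := fun l1 => 0 < cr u l1 ∧ T2 * cr u l1 ≤ cr p l ∧ RowsOver u v m l1 J K K2 K3)
    (la := la) (lb := lb) (x0 := x0) (y0 := y0) J1 hT (fun x y h1 h2 h3 h4 => by
      obtain ⟨g1, g2, -, g4, -, g5, -⟩ := hb x y h1 h2 h3 h4
      exact ⟨⟨g1, g2, g4⟩, g5⟩)
  refine ⟨la', lb', c1.trans b1, c2.trans b2, x1, y1, c3, c4, fun x y h1 h2 h3 h4 => ?_⟩
  obtain ⟨g1, g2, ε, κ, R, ρ, h, g, α, j, p', q', hε, -, -, -, -, -, hR, -⟩ := c5 x y h1 h2 h3 h4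
  exact ⟨g1, g2, h, g, q', hR.bas hε rfl, hR.sys (by linarith)⟩

/-- **EXIT 0 from a rich block**: the new centre is a primitive vector of the plane -/
theorem E0full {J X' : ℕ} {K K1 K2 K3 Kw T T2 n : ℤ} (hT : Has6 O (u, v, l, q, m, s))
    (hN : vol6 (u, v, l, q, m, s) = N) (us : cr u s = 0)
    (hS : AddSubgroup.closure ({u, v, l, q, m, s} : Set Z2) = ⊤)
    (hcap : Cap J X') (J1 : 1 ≤ J) (hK : 16 * (J : ℤ) ^ 2 ≤ K) (K65 : 65 ≤ K)
    (hX : K ^ 2 * N ^ 4 ≤ X') (hK2 : 2 * K ^ 2 ≤ K2) (hK3 : 12 * K2 ≤ K3) (hTJ : 2 * J ≤ T)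
    (hT2 : 2 ≤ T2) (hKw : 512 * T2 * (T + 1) ≤ Kw) (hK1 : 6 * Kw * K2 ≤ K1)
    (hK1' : 128 * K3 * T2 * (T + 1) ≤ K1)
    (hbig : 3 * Kw ^ 2 * (cr u v + cr u m) < cr u l + cr q l)
    (hblock : ∀ k, n ≤ k → k < n + J → RichL (lat l (u + q)) u (m + k • (u + s)) K1) :
    ∃ z v' l1 q1 m1 : Z2, Has6 O (z, v', l1, q1, m1, s) ∧ vol6 (z, v', l1, q1, m1, s) = N ∧
      IsCoprime z.1 z.2 ∧ lat l1 (u + q1) = lat l (u + q) ∧ lat m1 (u + s) = lat m (u + s) ∧
      cr u m1 = cr u m ∧ 0 < cr u l1 ∧ T2 * cr u l1 ≤ cr u l + cr q l ∧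
      cr z v' + cr z l1 + cr z m1 = cr u v + cr u l1 + cr u m ∧
      cr q1 l1 = cr u l + cr q l - cr u l1 ∧ cr s m1 = cr s m ∧
      lat z (v' + l1 + m1) = lat u (v + l1 + m1) := by
  obtain ⟨p1, p2, p3, -⟩ := hT.sizes hN
  obtain ⟨-, -, -, p4, p5⟩ := hT.pos
  have hvol : cr u v + cr u l + cr u m + cr q l + cr s m = N := by
    rw [← hN]; simp only [vol6]
  have J1' : (1 : ℤ) ≤ J := by exact_mod_cast J1
  have epl : cr (u + q) l = cr u l + cr q l := cr_addl u q l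
  have ha : 0 < cr (u + q) l := by rw [epl]; linarith
  have haN : cr (u + q) l ≤ N := by rw [epl]; linarith
  have um1 : ∀ k : ℤ, cr u (m + k • (u + s)) = cr u m := by
    intro k
    have : cr u (m + k • (u + s)) = cr u m + k * cr u s := by
      simp only [cr, Prod.fst_add, Prod.snd_add, Prod.smul_fst, Prod.smul_snd, smul_eq_mul]
      ring
    rw [this, us]; ring
  have hNN : N * (cr (u + q) l + 1) ≤ X' := by
    have N1 : 1 ≤ N := by linarith
    have h1 : N * (cr (u + q) l + 1) ≤ N * (N + 1) :=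
      mul_le_mul_of_nonneg_left (by linarith) (by linarith)
    have h2 : N * (N + 1) ≤ 2 * N ^ 4 := by
      have h3 : N ^ 2 ≤ N ^ 4 := pow_le_pow_right₀ N1 (by norm_num)
      nlinarith
    have h4 : 2 * N ^ 4 ≤ K ^ 2 * N ^ 4 :=
      mul_le_mul_of_nonneg_right (by nlinarith) (by positivity)
    linarith
  have hb : ∀ k, n ≤ k → k < n + J →
      RowBox u v l (u + q) (m + k • (u + s)) J K T2 (cr (u + q) l + 1) := by
    intro k h1 h2
    refine rowBox_of_rich p1 (by rw [um1]; exact p3) ha J1' (by nlinarith) K65 hK2 hK3 hTJ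
      (by linarith) hKw hK1 hK1' (by rw [um1, epl]; exact hbig) (hblock k h1 h2)
  obtain ⟨z, v', l1, q1, m1, g1, g2, g3, g4, g5, g6, g7, g8, g9, g10, g11, g12⟩ :=
    E0core hT hN us hS hcap J1 hK hX hNN hT2 hb
  rw [epl] at g8 g10
  exact ⟨z, v', l1, q1, m1, g1, g2, g3, g4, g5, g6, g7, g8, g9, g10, g11, g12⟩

end Pool.Agent.H4G.Six
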