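import Pool.Agent.H4G.Six.D2.E1rows79
import Pool.Agent.H4G.Six.D2.BoxRows83

/-!
# EXIT 1 from a rich block (D2, row E1full; typed by helper14)

`choose_k`: the slit `m₀ + k e₂`, one class of `k` for every prime of the content. `Has6.e1_full`: a
tree with `u` primitive and a block of slits of `M` over which `L` is rich has an exit with content
1 over `M`.
-/

set_option autoImplicit false

namespace Pool.Agent.H4G.Six

open Pool.Agent.H4G

/-- the choice of the slit `m₀ + k e₂` of `M` -/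
theorem choose_k {J X : ℕ} (hcap : Cap J X) {u m0 e2 : Z2} {b' : ℤ} (hu : IsCoprime u.1 u.2)
    (hb : cr u m0 = b') (hb0 : b' ≠ 0) (he : cr u e2 = 0) (hX : |b'| ≤ X) (k0 : ℤ) :
    ∃ k, k0 ≤ k ∧ k < k0 + J ∧ ∀ p : ℕ, p.Prime → (p : ℤ) ∣ b' → PDvd p (m0 + k • e2) →
      PDvd p m0 ∧ PDvd p e2 := by
  classical
  obtain ⟨i, j, hij⟩ := hu
  have hbn : ((b'.natAbs : ℕ) : ℤ) = |b'| := Int.natCast_natAbs b'
  obtain ⟨k, k1, k2, k3⟩ := sieveLin (k := 1) (e := 1) hcap (D := b'.natAbs)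
    (Int.natAbs_ne_zero.2 hb0) (by omega) (by norm_num)
    (fun p _ => if (p : ℤ) ∣ i * m0.1 + j * m0.2 ∧ (p : ℤ) ∣ i * e2.1 + j * e2.2 then 0
      else i * e2.1 + j * e2.2)
    (fun p _ => if (p : ℤ) ∣ i * m0.1 + j * m0.2 ∧ (p : ℤ) ∣ i * e2.1 + j * e2.2 then 1
      else i * m0.1 + j * m0.2)
    (fun p hp hpD => by
      left
      refine ⟨hp.one_lt, fun _ h => ?_⟩
      by_cases hP : (p : ℤ) ∣ i * m0.1 + j * m0.2 ∧ (p : ℤ) ∣ i * e2.1 + j * e2.2
      · simp only [hP, and_self, if_true]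
        exact prime_not_dvd_one hp
      · simp only [hP, if_false] at h ⊢
        exact fun h' => hP ⟨h', h⟩) k0
  rw [pow_one] at k2
  refine ⟨k, k1, k2, fun p hp hpb h => ?_⟩
  have h3 := k3 p hp (Int.natCast_dvd.1 hpb) 0
  have e1 : (p : ℤ) ∣ cr u m0 := by rw [hb]; exact hpb
  have e2' : (p : ℤ) ∣ cr u e2 := by rw [he]; exact dvd_zero _
  have e3 : (p : ℤ) ∣ cr u (m0 + k • e2) := h.right _
  rw [pdvd_iff hij e3] at h
  rw [pdvd_iff hij e1, pdvd_iff hij e2']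
  by_contra hP
  simp only [hP, if_false] at h3
  apply h3
  have e : (i * e2.1 + j * e2.2) * k + (i * m0.1 + j * m0.2) =
      i * (m0 + k • e2).1 + j * (m0 + k • e2).2 := by
    simp only [Prod.fst_add, Prod.snd_add, Prod.smul_fst, Prod.smul_snd, smul_eq_mul]; ring
  rw [e]
  exact h

/-- the content in another basis of the lattice -/
theorem ct_bas {u l q la lb : Z2} (h : lat la lb = lat l (u + q)) :
    ct u l q = Int.gcd (cr u la) (cr u lb) := by
  have h1 : lat la (u + (lb - u)) = lat l (u + q) := by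
    have e : u + (lb - u) = lb := by abel
    rw [e]; exact h
  rw [← ct_congr h1]
  unfold ct
  have e : cr u (lb - u) = cr u lb := by simp only [cr, Prod.fst_sub, Prod.snd_sub]; ring
  rw [e]

/-- **EXIT 1 FROM A RICH BLOCK**: `u` primitive, `L = ⟨l, u + q⟩` rich over `J` consecutive slits
`m₀ + k e₂` of `M`: a tree with content 1 over `M`. -/
theorem Has6.e1_full {X : Type} {O : PO X} {N : ℤ} {u v l q m s m0 e2 : Z2} {J X' : ℕ}
    {K K1 K2 K3 Kw T T2 n : ℤ} (hT : Has6 O (u, v, l, q, m, s))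
    (hN : vol6 (u, v, l, q, m, s) = N)
    (hS : AddSubgroup.closure ({u, v, l, q, m, s} : Set Z2) = ⊤) (hu : IsCoprime u.1 u.2)
    (hM : lat m0 e2 = lat m (u + s)) (he : cr u e2 = 0) (hm0 : 0 < cr u m0)
    (hm1 : cr u m0 < cr u m + cr s m)
    (hcap : Cap J X') (J1 : 1 ≤ J) (K8 : 8 * (J : ℤ) ≤ K) (K65 : 65 ≤ K)
    (hK : 16 * (J : ℤ) ^ 2 ≤ K) (hX : K ^ 2 * N ^ 4 ≤ X') (hK2 : 2 * K ^ 2 ≤ K2)
    (hK3 : 12 * K2 ≤ K3) (hTJ : 2 * (J : ℤ) ≤ T) (hT2 : 2 ≤ T2)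
    (hKw : 512 * T2 * (T + 1) ≤ Kw) (hK1 : 6 * Kw * K2 ≤ K1)
    (hK1' : 128 * K3 * T2 * (T + 1) ≤ K1)
    (hbig : 3 * Kw ^ 2 * (cr u v + cr u m0) < cr u l + cr q l)
    (hr : ∀ k : ℤ, n ≤ k → k < n + J → RichL (lat l (u + q)) u (m0 + k • e2) K1) :
    ∃ (z v' l1 q1 m1 s1 : Z2) (i j : ℤ), IsCoprime i j ∧ z = i • u + j • (v + l1 + m1) ∧
      Has6 O (z, v', l1, q1, m1, s1) ∧ vol6 (z, v', l1, q1, m1, s1) = N ∧
      lat l1 (u + q1) = lat l (u + q) ∧ lat m1 (u + s1) = lat m (u + s) ∧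
      cr u m1 = cr u m0 ∧ T2 * cr u l1 ≤ cr u l + cr q l ∧
      cr u l + cr q l ≤ 4 * T2 * cr u l1 ∧
      cr z v' = cr u v + cr u l1 + cr u m1 - cr z l1 - cr z m1 ∧
      cr q1 l1 = cr u l + cr q l - cr u l1 ∧ cr s1 m1 = cr u m + cr s m - cr u m1 ∧
      ct z m1 s1 = 1 := by
  obtain ⟨p1, p2, p3, p4, p5⟩ := hT.pos
  have hsum := hN
  simp only [vol6] at hsum
  have J1' : (1 : ℤ) ≤ J := by exact_mod_cast J1
  have K0 : 0 < K := by linarith
  have N0 : 0 < N := by linarith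
  have K4 : (1 : ℤ) ≤ K ^ 2 := one_le_pow₀ (by linarith)
  have N3 : N ^ 3 ≤ N ^ 4 := pow_le_pow_right₀ (by linarith) (by norm_num)
  have hNX : N ^ 3 ≤ X' := by
    have h4 : 0 < N ^ 4 := by positivity
    have : 1 * N ^ 4 ≤ K ^ 2 * N ^ 4 := mul_le_mul_of_nonneg_right K4 h4.le
    linarith
  have N13 : N ≤ N ^ 3 := by
    calc N = N ^ 1 := (pow_one N).symm
      _ ≤ N ^ 3 := pow_le_pow_right₀ (by linarith) (by norm_num)
  have N23 : N ^ 2 ≤ N ^ 3 := pow_le_pow_right₀ (by linarith) (by norm_num)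
  -- the slit of `M`
  obtain ⟨k, k1, k2, k3⟩ := choose_k hcap hu rfl hm0.ne' he (by
    rw [abs_of_pos hm0]; linarith) n
  obtain ⟨m1, hm1e⟩ : ∃ m1, m1 = m0 + k • e2 := ⟨_, rfl⟩
  have hrk := hr k k1 k2
  rw [← hm1e] at hrk k3
  have um1 : cr u m1 = cr u m0 := by
    have : cr u m1 = cr u m0 + k * cr u e2 := by
      rw [hm1e]
      simp only [cr, Prod.fst_add, Prod.snd_add, Prod.smul_fst, Prod.smul_snd, smul_eq_mul]
      ring
    rw [this, he, mul_zero, add_zero]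
  have ha : cr (u + q) l = cr u l + cr q l := cr_addl ..
  -- the box
  obtain ⟨la, lb, b1, b2, x0, y0, hbox⟩ := box_rows (u := u) (v := v) (m := m1) (l := l)
    (p := u + q) (J := J) (K := K) (K1 := K1) (K2 := K2) (K3 := K3) (Kw := Kw) (T := T)
    (T2 := T2) p1 (by rw [um1]; exact hm0) (by rw [ha]; linarith) J1' K8 K65 hK2 hK3
    (by linarith) (by linarith) hKw hK1 hK1' (by rw [um1, ha]; exact hbig) hrk
  rw [ha] at b2 hbox
  have hb := ct_bas b1
  have hb' : ct u m s = cr u m0 := by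
    rw [ct_bas hM, he, Int.gcd_zero_right]
    exact Int.natAbs_of_nonneg hm0.le
  have hct0 : 0 < ct u l q := ct_pos p2
  have hctN : ct u l q ≤ N := by
    have := ct_le (q := q) p2
    linarith
  have hmN : cr u m0 ≤ N := by linarith
  have hprod : |ct u l q * cr u m0| ≤ N ^ 2 := by
    rw [abs_of_pos (mul_pos hct0 hm0), sq]
    exact mul_le_mul hctN hmN hm0.le N0.le
  obtain ⟨x, y, x1, x2, y1, y2, hxy, c1, c2⟩ := choose_rowZ (u := u) (la := la) (lb := lb)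
    (A := cr u v) (b := ct u l q) (b' := cr u m0) hcap hu hb hct0.ne' hm0.ne'
    (by linarith) x0 (by
      intro x h1 h2
      obtain ⟨-, -, -, -, -, h3, -⟩ := hbox x y0 h1 (by linarith) le_rfl (by linarith)
      have h4 : |x| ≤ N := by linarith
      have h5 : |ct u l q * cr u m0| * |x| ≤ N ^ 2 * N :=
        mul_le_mul hprod h4 (abs_nonneg _) (by positivity)
      have e : N ^ 2 * N = N ^ 3 := by ring
      linarith) y0
  obtain ⟨l1, hl1⟩ : ∃ l1, l1 = x • la + y • lb := ⟨_, rfl⟩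
  obtain ⟨d1, d2, d3, d4, -, -, -⟩ := hbox x y x1 (by linarith) y1 (by linarith)
  rw [← hl1] at d1 d2 d3 d4 c1
  obtain ⟨ε, κ, R, ρ, h, g, α, j', p', q', e1, -, -, -, -, -, e7, -⟩ := d4
  have hrow := e7.sys (by linarith : (0 : ℤ) ≤ J)
  have hbas := e7.bas e1 rfl
  have hl0 : cr la lb ≠ 0 := by
    rw [cr_swap' lb la, b2]
    intro h0
    linarith
  have hm00 : cr m0 e2 ≠ 0 := by
    intro h0
    -- `m₀ × e₂ = 0` would make `M` degenerate
    have h1 : m ∈ lat m0 e2 := by rw [hM]; exact AddSubgroup.subset_closure (by simp)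
    have h2 : u + s ∈ lat m0 e2 := by rw [hM]; exact AddSubgroup.subset_closure (by simp)
    obtain ⟨r1, t1, f1⟩ := mem_lat_coords h1
    obtain ⟨r2, t2, f2⟩ := mem_lat_coords h2
    have h3 : cr (u + s) m = (t2 * r1 - r2 * t1) * -cr m0 e2 := by
      rw [f1, f2]
      simp only [cr, Prod.fst_add, Prod.snd_add, Prod.smul_fst, Prod.smul_snd, smul_eq_mul]
      ring
    rw [h0, neg_zero, mul_zero, cr_addl] at h3
    linarith
  have hk1 : m1 = (1 : ℤ) • m0 + k • e2 := by rw [hm1e, one_smul]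
  obtain ⟨z, v', q1, s1, i, j, g1, g2, g3, g4, g5, g6, g7, g8, g9, g10, g11, g12⟩ :=
    hT.e1_slits hN hS hu b1 hM hl0 hm00 hxy (isCoprime_one_left : IsCoprime (1 : ℤ) k) hl1 hk1
      d1 (by
        have : 2 * cr u l1 ≤ T2 * cr u l1 := mul_le_mul_of_nonneg_right hT2 d1.le
        linarith) (by rw [um1]; exact hm0) (by rw [um1]; exact hm1)
      (fun r hr h1 h2 => c1 r hr (by rw [← hb']; exact h1) h2)
      (fun r hr h1 h2 => k3 r hr (by rw [← hb']; exact h1) h2)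
      (fun z hz => hz) hbas hrow hcap J1 hK hX
  exact ⟨z, v', l1, q1, m1, s1, i, j, g2, g3, g4, g5, g7, g8, um1, d2, d3, g9, g10, g11, g12⟩

end Pool.Agent.H4G.Six
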