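import Pool.Agent.H4G.Six.D2.Rows
import Pool.Agent.H4G.Six.D2.Row14
import Pool.Agent.H4G.Six.NR.Frame

/-!
# Exits by rows of centres with one arithmetic condition (D2, rows E0 and E1; helper79)

`Has6.e1_row`: from a tree with `u` primitive and a row system of centres, a tree in which the content
of `M` is 1. `Has6.e0_row`: from a tree with a row system of centres, a tree with a primitive centre.
`Has6.e1_slits`, `Has6.e0_slits`: the same after a change of the slits inside their lattices.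
-/

set_option autoImplicit false

namespace Pool.Agent.H4G.Six

open Pool.Agent.H4G

variable {X : Type} {O : PO X} {N : ℤ} {u v l q m s l1 q1 m1 s1 la lb ma mb z x : Z2}

/-- the six vectors of a tree generate the plane: change of the slits -/
theorem span_slits (hL : lat l1 (u + q1) = lat l (u + q)) (hM : lat m1 (u + s1) = lat m (u + s))
    (hS : AddSubgroup.closure ({u, v, l, q, m, s} : Set Z2) = ⊤) :
    AddSubgroup.closure ({u, v, l1, q1, m1, s1} : Set Z2) = ⊤ := by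
  rw [eq_top_iff, ← hS, AddSubgroup.closure_le]
  obtain ⟨S, hSd⟩ : ∃ S : AddSubgroup Z2,
      S = AddSubgroup.closure ({u, v, l1, q1, m1, s1} : Set Z2) := ⟨_, rfl⟩
  rw [← hSd]
  have hu : u ∈ S := by rw [hSd]; exact AddSubgroup.subset_closure (by simp)
  have hv : v ∈ S := by rw [hSd]; exact AddSubgroup.subset_closure (by simp)
  have hl : l1 ∈ S := by rw [hSd]; exact AddSubgroup.subset_closure (by simp)
  have hq : q1 ∈ S := by rw [hSd]; exact AddSubgroup.subset_closure (by simp)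
  have hm : m1 ∈ S := by rw [hSd]; exact AddSubgroup.subset_closure (by simp)
  have hs : s1 ∈ S := by rw [hSd]; exact AddSubgroup.subset_closure (by simp)
  have hLS : ∀ w ∈ lat l (u + q), w ∈ S := by
    intro w hw
    rw [← hL] at hw
    obtain ⟨i, j, rfl⟩ := mem_lat_coords hw
    exact S.add_mem (S.zsmul_mem hl _) (S.zsmul_mem (S.add_mem hu hq) _)
  have hMS : ∀ w ∈ lat m (u + s), w ∈ S := by
    intro w hw
    rw [← hM] at hw
    obtain ⟨i, j, rfl⟩ := mem_lat_coords hw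
    exact S.add_mem (S.zsmul_mem hm _) (S.zsmul_mem (S.add_mem hu hs) _)
  rintro w (rfl | rfl | rfl | rfl | rfl | rfl)
  · exact hu
  · exact hv
  · exact hLS _ (AddSubgroup.subset_closure (by simp))
  · have h1 : u + w ∈ S := hLS _ (AddSubgroup.subset_closure (by simp))
    have h2 : w = (u + w) - u := by abel
    rw [h2]
    exact S.sub_mem h1 hu
  · exact hMS _ (AddSubgroup.subset_closure (by simp))
  · have h1 : u + w ∈ S := hMS _ (AddSubgroup.subset_closure (by simp))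
    have h2 : w = (u + w) - u := by abel
    rw [h2]
    exact S.sub_mem h1 hu

/-- coprime coordinates in another basis -/
theorem coords_basis {l p : Z2} (h : lat la lb = lat l p) (h0 : cr la lb ≠ 0) {x y : ℤ}
    (hxy : IsCoprime x y) : ∃ i j : ℤ, IsCoprime i j ∧ x • la + y • lb = i • l + j • p := by
  have m1 : la ∈ lat l p := by rw [← h]; exact AddSubgroup.subset_closure (by simp)
  have m2 : lb ∈ lat l p := by rw [← h]; exact AddSubgroup.subset_closure (by simp)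
  have m3 : l ∈ lat la lb := by rw [h]; exact AddSubgroup.subset_closure (by simp)
  have m4 : p ∈ lat la lb := by rw [h]; exact AddSubgroup.subset_closure (by simp)
  obtain ⟨a1, b1, e1⟩ := mem_lat_coords m1
  obtain ⟨a2, b2, e2⟩ := mem_lat_coords m2
  obtain ⟨c1, d1, e3⟩ := mem_lat_coords m3
  obtain ⟨c2, d2, e4⟩ := mem_lat_coords m4
  have f1 : (a1 * c1 + b1 * c2) • la + (a1 * d1 + b1 * d2) • lb = la := by
    have : (a1 * c1 + b1 * c2) • la + (a1 * d1 + b1 * d2) • lb =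
        a1 • (c1 • la + d1 • lb) + b1 • (c2 • la + d2 • lb) := by module
    rw [this, ← e3, ← e4, ← e1]
  have f2 : (a2 * c1 + b2 * c2) • la + (a2 * d1 + b2 * d2) • lb = lb := by
    have : (a2 * c1 + b2 * c2) • la + (a2 * d1 + b2 * d2) • lb =
        a2 • (c1 • la + d1 • lb) + b2 • (c2 • la + d2 • lb) := by module
    rw [this, ← e3, ← e4, ← e2]
  have crl : ∀ a b : ℤ, cr (a • la + b • lb) lb = a * cr la lb ∧
      cr la (a • la + b • lb) = b * cr la lb := by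
    intro a b
    constructor <;>
    · simp only [cr, Prod.fst_add, Prod.snd_add, Prod.smul_fst, Prod.smul_snd, smul_eq_mul]
      ring
  have g1 : a1 * c1 + b1 * c2 = 1 := by
    have := (crl (a1 * c1 + b1 * c2) (a1 * d1 + b1 * d2)).1
    rw [f1] at this
    exact mul_right_cancel₀ h0 (by rw [one_mul]; exact this.symm)
  have g2 : a1 * d1 + b1 * d2 = 0 := by
    have := (crl (a1 * c1 + b1 * c2) (a1 * d1 + b1 * d2)).2
    rw [f1, cr_self'] at this
    exact (mul_eq_zero.1 this.symm).resolve_right h0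
  have g3 : a2 * c1 + b2 * c2 = 0 := by
    have := (crl (a2 * c1 + b2 * c2) (a2 * d1 + b2 * d2)).1
    rw [f2, cr_self'] at this
    exact (mul_eq_zero.1 this.symm).resolve_right h0
  have g4 : a2 * d1 + b2 * d2 = 1 := by
    have := (crl (a2 * c1 + b2 * c2) (a2 * d1 + b2 * d2)).2
    rw [f2] at this
    exact mul_right_cancel₀ h0 (by rw [one_mul]; exact this.symm)
  obtain ⟨r, t, hrt⟩ := hxy
  refine ⟨x * a1 + y * a2, x * b1 + y * b2, ⟨r * c1 + t * d1, r * c2 + t * d2, ?_⟩, ?_⟩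
  · linear_combination r * x * g1 + r * y * g3 + t * x * g2 + t * y * g4 + hrt
  · have : (x * a1 + y * a2) • l + (x * b1 + y * b2) • p =
        x • (a1 • l + b1 • p) + y • (a2 • l + b2 • p) := by module
    rw [this, ← e1, ← e2]

/-- the content of `Λ` against `M` is 1 -/
theorem GLam_M_one (hS : AddSubgroup.closure ({u, v, l, q, m, s} : Set Z2) = ⊤)
    (hu : IsCoprime u.1 u.2)
    (h1 : ∀ p : ℕ, p.Prime → (p : ℤ) ∣ ct u m s → ¬ (p : ℤ) ∣ ct u l q →
      ¬ (p : ℤ) ∣ cr u v + cr u l)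
    (h2 : ∀ p : ℕ, p.Prime → (p : ℤ) ∣ ct u m s → PDvd p m → PDvd p (u + s)) :
    GLam u (v + l + m) m s = 1 := by
  have h := GM_one hS hu h1 h2
  unfold GLam ct
  exact_mod_cast h

/-- **(E1) BY ROWS**: `u` primitive; the content of `M` becomes 1 -/
theorem Has6.e1_row {P : Z2 → Prop} {J X' : ℕ} {K k : ℤ} {h g : Z2}
    (hT : Has6 O (u, v, l, q, m, s)) (hN : vol6 (u, v, l, q, m, s) = N)
    (hS : AddSubgroup.closure ({u, v, l, q, m, s} : Set Z2) = ⊤) (hu : IsCoprime u.1 u.2)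
    (h1 : ∀ p : ℕ, p.Prime → (p : ℤ) ∣ ct u m s → ¬ (p : ℤ) ∣ ct u l q →
      ¬ (p : ℤ) ∣ cr u v + cr u l)
    (h2 : ∀ p : ℕ, p.Prime → (p : ℤ) ∣ ct u m s → PDvd p m → PDvd p (u + s))
    (hP : ∀ z, P z → Lg u v l m z) (hb : Bas u (v + l + m) h g) (hs : RowSys P J K h g k)
    (hcap : Cap J X') (J1 : 1 ≤ J) (hK : 16 * (J : ℤ) ^ 2 ≤ K) (hX : K ^ 2 * N ^ 4 ≤ X') :
    ∃ (z v' : Z2) (i j : ℤ), P z ∧ IsCoprime i j ∧ z = i • u + j • (v + l + m) ∧
      Has6 O (z, v', l, q, m, s) ∧ vol6 (z, v', l, q, m, s) = N ∧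
      lat z (v' + l + m) = lat u (v + l + m) ∧
      cr z v' = cr u v + cr u l + cr u m - cr z l - cr z m ∧ ct z m s = 1 := by
  obtain ⟨z, v', i, j, k1, k2, k3, k4, k5, k6, k7, k8⟩ := hT.rowM hN hP hb hs hcap J1 hK hX
  exact ⟨z, v', i, j, k1, k2, k3, k4, k5, k6, k7, k8.trans (GLam_M_one hS hu h1 h2)⟩

/-- the content of the standard basis is the content of the vector -/
theorem prim_of_ct (h : ct z (0, 1) (1, 0) = 1 ∨ ct z (1, 0) (0, 1) = 1) :
    IsCoprime z.1 z.2 := by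
  have e1 : cr z (0, 1) = z.1 := by simp only [cr]; ring
  have e2 : cr z (1, 0) = -z.2 := by simp only [cr]; ring
  rcases h with h | h
  · unfold ct at h
    rw [e1, e2] at h
    have h' : Int.gcd z.1 (-z.2) = 1 := by exact_mod_cast h
    have := Int.isCoprime_iff_gcd_eq_one.2 h'
    exact (IsCoprime.neg_right_iff _ _).1 this
  · unfold ct at h
    rw [e1, e2] at h
    have h' : Int.gcd (-z.2) z.1 = 1 := by exact_mod_cast h
    have := Int.isCoprime_iff_gcd_eq_one.2 h'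
    exact ((IsCoprime.neg_left_iff _ _).1 this).symm

/-- the content of `Λ` is 1 -/
theorem GLam_prim (h0 : ∀ p : ℕ, p.Prime → PDvd p u → ¬ PDvd p x) {a b : Z2}
    (hab : (a = (0, 1) ∧ b = (1, 0)) ∨ (a = (1, 0) ∧ b = (0, 1))) : GLam u x a b = 1 := by
  have key : ∀ (w : Z2) (p : ℤ), p ∣ cr w (0, 1) → p ∣ cr w (1, 0) → PDvd p w := by
    intro w p h1 h2
    have e1 : cr w (0, 1) = w.1 := by simp only [cr]; ring
    have e2 : cr w (1, 0) = -w.2 := by simp only [cr]; ring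
    rw [e1] at h1
    rw [e2] at h2
    exact ⟨h1, (dvd_neg).1 h2⟩
  have h : Int.gcd (Int.gcd (cr u a) (cr u b)) (Int.gcd (cr x a) (cr x b)) = 1 := by
    refine gcd_four fun p hp hc => ?_
    obtain ⟨c1, c2, c3, c4⟩ := hc
    rcases hab with ⟨rfl, rfl⟩ | ⟨rfl, rfl⟩
    · exact h0 p hp (key u p c1 c2) (key x p c3 c4)
    · exact h0 p hp (key u p c2 c1) (key x p c4 c3)
  unfold GLam ct
  exact_mod_cast h

/-- **(E0) BY ROWS**: the centre becomes primitive -/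
theorem Has6.e0_row {P : Z2 → Prop} {J X' : ℕ} {K k : ℤ} {h g : Z2}
    (hT : Has6 O (u, v, l, q, m, s)) (hN : vol6 (u, v, l, q, m, s) = N)
    (h0 : ∀ p : ℕ, p.Prime → PDvd p u → ¬ PDvd p (v + l + m))
    (hP : ∀ z, P z → Lg u v l m z) (hb : Bas u (v + l + m) h g) (hs : RowSys P J K h g k)
    (hcap : Cap J X') (J1 : 1 ≤ J) (hK : 16 * (J : ℤ) ^ 2 ≤ K) (hX : K ^ 2 * N ^ 4 ≤ X') :
    ∃ (z v' : Z2) (i j : ℤ), P z ∧ IsCoprime i j ∧ z = i • u + j • (v + l + m) ∧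
      Has6 O (z, v', l, q, m, s) ∧ vol6 (z, v', l, q, m, s) = N ∧
      lat z (v' + l + m) = lat u (v + l + m) ∧
      cr z v' = cr u v + cr u l + cr u m - cr z l - cr z m ∧ IsCoprime z.1 z.2 := by
  obtain ⟨p1, p2, p3, e1, e2, e3, e4, e5, e6⟩ := hT.sizes hN
  have hux : cr u (v + l + m) ≠ 0 := by rw [e1]; intro h0; linarith
  have K0 : 0 ≤ K := by nlinarith [sq_nonneg (J : ℤ)]
  have N1 : 1 ≤ N := by
    have h3 : 0 < |cr u (v + l + m)| := abs_pos.2 hux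
    linarith
  -- a coordinate vector which is not parallel to `u`
  obtain ⟨a, b, hab, hua⟩ : ∃ a b : Z2, ((a = (0, 1) ∧ b = (1, 0)) ∨ (a = (1, 0) ∧ b = (0, 1))) ∧
      cr u a ≠ 0 := by
    by_cases hu1 : u.1 = 0
    · refine ⟨(1, 0), (0, 1), Or.inr ⟨rfl, rfl⟩, ?_⟩
      intro hu2
      have h3 : cr u v = 0 := by
        simp only [cr] at hu2 ⊢
        have h4 : u.2 = 0 := by linarith
        rw [hu1, h4]; ring
      linarith
    · refine ⟨(0, 1), (1, 0), Or.inl ⟨rfl, rfl⟩, ?_⟩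
      intro hu2
      apply hu1
      simp only [cr] at hu2
      linarith
  have hcab : cr a b ≠ 0 ∧ |cr a b| = 1 := by
    rcases hab with ⟨rfl, rfl⟩ | ⟨rfl, rfl⟩ <;> simp [cr]
  have hsz : (K * (|cr u (v + l + m)| * |cr a b|)) * (K * (|cr u (v + l + m)| * |cr a b|)) ≤
      (X' : ℤ) := by
    refine le_trans (sizeX K0 (abs_nonneg _) (abs_nonneg _) (abs_nonneg _) (abs_nonneg _) e2 ?_ e2
      ?_) hX
    · rw [hcab.2]; exact N1
    · rw [hcab.2]; exact N1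
  obtain ⟨z, i, j, k1, k2, k3, k4⟩ := hs.one hb hcap J1 hK hux hcab.1 hua hsz
  obtain ⟨v', c1, c2, c3, c4⟩ := hT.at_Lg k2 k3 (hP z k1)
  rw [GLam_prim h0 hab] at k4
  refine ⟨z, v', i, j, k1, k2, k3, c1, c4.trans hN, c2, c3, prim_of_ct ?_⟩
  rcases hab with ⟨rfl, rfl⟩ | ⟨rfl, rfl⟩
  · exact Or.inl k4
  · exact Or.inr k4

/-- change of the slits, in any bases of the two lattices -/
theorem Has6.to_slits (hT : Has6 O (u, v, l, q, m, s)) (hN : vol6 (u, v, l, q, m, s) = N)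
    (hLb : lat la lb = lat l (u + q)) (hMb : lat ma mb = lat m (u + s)) (hl0 : cr la lb ≠ 0)
    (hm0 : cr ma mb ≠ 0) {x y x' y' : ℤ} (hxy : IsCoprime x y) (hxy' : IsCoprime x' y')
    (hl : l1 = x • la + y • lb) (hm : m1 = x' • ma + y' • mb)
    (wl : 0 < cr u l1) (wl2 : cr u l1 < cr u l + cr q l)
    (wm : 0 < cr u m1) (wm2 : cr u m1 < cr u m + cr s m) :
    ∃ q1 s1, Has6 O (u, v, l1, q1, m1, s1) ∧ vol6 (u, v, l1, q1, m1, s1) = N ∧
      lat l1 (u + q1) = lat l (u + q) ∧ lat m1 (u + s1) = lat m (u + s) ∧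
      cr q1 l1 = cr u l + cr q l - cr u l1 ∧ cr s1 m1 = cr u m + cr s m - cr u m1 := by
  obtain ⟨i, j, hij, e1⟩ := coords_basis hLb hl0 hxy
  obtain ⟨i', j', hij', e1'⟩ := coords_basis hMb hm0 hxy'
  obtain ⟨q1, k1, k2⟩ := exists_slit (l := l) (U := u) (q := q) hij (hl.trans e1)
  obtain ⟨s1, k1', k2'⟩ := exists_slit (l := m) (U := u) (q := s) hij' (hm.trans e1')
  refine ⟨q1, s1, hT.change wl (by rw [k2]; linarith) k1 wm (by rw [k2']; linarith) k1', ?_,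
    k1, k1', k2, k2'⟩
  rw [← hN]
  simp only [vol6]
  rw [k2, k2']
  ring

/-- two pairs which generate the same lattice are both divisible by `p` -/
theorem pdvd_lat {p : ℤ} {a b a' b' : Z2} (h : lat a b = lat a' b') (h1 : PDvd p a)
    (h2 : PDvd p b) : PDvd p a' ∧ PDvd p b' := by
  have m3 : a' ∈ lat a b := by rw [h]; exact AddSubgroup.subset_closure (by simp)
  have m4 : b' ∈ lat a b := by rw [h]; exact AddSubgroup.subset_closure (by simp)
  obtain ⟨c1, d1, e3⟩ := mem_lat_coords m3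
  obtain ⟨c2, d2, e4⟩ := mem_lat_coords m4
  rw [e3, e4]
  exact ⟨(h1.smul _).add (h2.smul _), (h1.smul _).add (h2.smul _)⟩

/-- **(E1) BY ROWS**, with new slits -/
theorem Has6.e1_slits {P : Z2 → Prop} {J X' : ℕ} {K k : ℤ} {h g : Z2}
    (hT : Has6 O (u, v, l, q, m, s)) (hN : vol6 (u, v, l, q, m, s) = N)
    (hS : AddSubgroup.closure ({u, v, l, q, m, s} : Set Z2) = ⊤) (hu : IsCoprime u.1 u.2)
    (hLb : lat la lb = lat l (u + q)) (hMb : lat ma mb = lat m (u + s)) (hl0 : cr la lb ≠ 0)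
    (hm0 : cr ma mb ≠ 0) {x y x' y' : ℤ} (hxy : IsCoprime x y) (hxy' : IsCoprime x' y')
    (hl : l1 = x • la + y • lb) (hm : m1 = x' • ma + y' • mb)
    (wl : 0 < cr u l1) (wl2 : cr u l1 < cr u l + cr q l)
    (wm : 0 < cr u m1) (wm2 : cr u m1 < cr u m + cr s m)
    (h1 : ∀ p : ℕ, p.Prime → (p : ℤ) ∣ ct u m s → ¬ (p : ℤ) ∣ ct u l q →
      ¬ (p : ℤ) ∣ cr u v + cr u l1)
    (h2 : ∀ p : ℕ, p.Prime → (p : ℤ) ∣ ct u m s → PDvd p m1 → PDvd p ma ∧ PDvd p mb)
    (hP : ∀ z, P z → Lg u v l1 m1 z) (hb : Bas u (v + l1 + m1) h g) (hs : RowSys P J K h g k)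
    (hcap : Cap J X') (J1 : 1 ≤ J) (hK : 16 * (J : ℤ) ^ 2 ≤ K) (hX : K ^ 2 * N ^ 4 ≤ X') :
    ∃ (z v' q1 s1 : Z2) (i j : ℤ), P z ∧ IsCoprime i j ∧ z = i • u + j • (v + l1 + m1) ∧
      Has6 O (z, v', l1, q1, m1, s1) ∧ vol6 (z, v', l1, q1, m1, s1) = N ∧
      lat z (v' + l1 + m1) = lat u (v + l1 + m1) ∧
      lat l1 (u + q1) = lat l (u + q) ∧ lat m1 (u + s1) = lat m (u + s) ∧
      cr z v' = cr u v + cr u l1 + cr u m1 - cr z l1 - cr z m1 ∧
      cr q1 l1 = cr u l + cr q l - cr u l1 ∧ cr s1 m1 = cr u m + cr s m - cr u m1 ∧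
      ct z m1 s1 = 1 := by
  obtain ⟨q1, s1, t1, t2, t3, t4, t5, t6⟩ :=
    hT.to_slits hN hLb hMb hl0 hm0 hxy hxy' hl hm wl wl2 wm wm2
  have c1 : ct u l1 q1 = ct u l q := ct_congr t3
  have c2 : ct u m1 s1 = ct u m s := ct_congr t4
  obtain ⟨z, v', i, j, k1, k2, k3, k4, k5, k6, k7, k8⟩ := t1.e1_row t2 (span_slits t3 t4 hS) hu
    (fun p hp d1 d2 => h1 p hp (by rw [← c2]; exact d1) (by rw [← c1]; exact d2))
    (fun p hp d1 d2 => by
      obtain ⟨g1, g2⟩ := h2 p hp (by rw [← c2]; exact d1) d2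
      exact (pdvd_lat (hMb.trans t4.symm) g1 g2).2) hP hb hs hcap J1 hK hX
  exact ⟨z, v', q1, s1, i, j, k1, k2, k3, k4, k5, k6, t3, t4, k7, t5, t6, k8⟩

/-- **(E0) BY ROWS**, with new slits -/
theorem Has6.e0_slits {P : Z2 → Prop} {J X' : ℕ} {K k : ℤ} {h g : Z2}
    (hT : Has6 O (u, v, l, q, m, s)) (hN : vol6 (u, v, l, q, m, s) = N)
    (hLb : lat la lb = lat l (u + q)) (hMb : lat ma mb = lat m (u + s)) (hl0 : cr la lb ≠ 0)
    (hm0 : cr ma mb ≠ 0) {x y x' y' : ℤ} (hxy : IsCoprime x y) (hxy' : IsCoprime x' y')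
    (hl : l1 = x • la + y • lb) (hm : m1 = x' • ma + y' • mb)
    (wl : 0 < cr u l1) (wl2 : cr u l1 < cr u l + cr q l)
    (wm : 0 < cr u m1) (wm2 : cr u m1 < cr u m + cr s m)
    (h0 : ∀ p : ℕ, p.Prime → PDvd p u → ¬ PDvd p (v + l1 + m1))
    (hP : ∀ z, P z → Lg u v l1 m1 z) (hb : Bas u (v + l1 + m1) h g) (hs : RowSys P J K h g k)
    (hcap : Cap J X') (J1 : 1 ≤ J) (hK : 16 * (J : ℤ) ^ 2 ≤ K) (hX : K ^ 2 * N ^ 4 ≤ X') :
    ∃ (z v' q1 s1 : Z2) (i j : ℤ), P z ∧ IsCoprime i j ∧ z = i • u + j • (v + l1 + m1) ∧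
      Has6 O (z, v', l1, q1, m1, s1) ∧ vol6 (z, v', l1, q1, m1, s1) = N ∧
      lat z (v' + l1 + m1) = lat u (v + l1 + m1) ∧
      lat l1 (u + q1) = lat l (u + q) ∧ lat m1 (u + s1) = lat m (u + s) ∧
      cr z v' = cr u v + cr u l1 + cr u m1 - cr z l1 - cr z m1 ∧
      cr q1 l1 = cr u l + cr q l - cr u l1 ∧ cr s1 m1 = cr u m + cr s m - cr u m1 ∧
      IsCoprime z.1 z.2 := by
  obtain ⟨q1, s1, t1, t2, t3, t4, t5, t6⟩ :=
    hT.to_slits hN hLb hMb hl0 hm0 hxy hxy' hl hm wl wl2 wm wm2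
  obtain ⟨z, v', i, j, k1, k2, k3, k4, k5, k6, k7, k8⟩ :=
    t1.e0_row t2 h0 hP hb hs hcap J1 hK hX
  exact ⟨z, v', q1, s1, i, j, k1, k2, k3, k4, k5, k6, t3, t4, k7, t5, t6, k8⟩

end Pool.Agent.H4G.Six
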