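import Pool.Agent.H4G.Six.D2.EscAsm41

/-!
# D2, the escape step (helper41): a near-Prym tree leads to a tree without relation
-/

set_option autoImplicit false

namespace Pool.Agent.H4G.Six

open Pool.Agent.H4G

variable {X : Type} {O : PO X} {N : ℤ} {u v e p e' p' : Z2} {c a c' a' x y α k0 : ℤ}

/-- from the progression to the tree without relation -/
theorem HasAP.esc {J Z : ℕ} (hcap : Cap J Z) (hZ : (2 * N) ^ 20 ≤ (Z : ℤ))
    (h : Lv O N u v e p e' p' c a c' a') {K R G H' : ℤ} (hA : HasAP O N u v e p e' p' c c' K R)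
    (hK : 192 * (J : ℤ) ^ 2 ≤ K) (hH : 1 ≤ H') (hR : 0 ≤ R) (ha : N ≤ G * a) (ha' : N ≤ G * a')
    (hG : 0 < G) (hRG : 1025 * H' ^ 2 * G ≤ R) (hc : 4 * R * c ≤ N) (hc' : 4 * R * c' ≤ N) :
    ∃ z w l q m s : Z2, TN O N z w l q m s ∧ R * cr z w ≤ N ∧ R * ct z l q ≤ N ∧
      R * ct z m s ≤ N ∧
      NoRel H' (cr z l + cr q l) (cr z m + cr s m) (ct z l q) (ct z m s) ∧
      (IsCoprime u.1 u.2 → IsCoprime z.1 z.2) ∧ ct z l q ∣ 4 * c ∧ ct z m s ∣ 4 * c' ∧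
      (¬ (2 : ℤ) ∣ c → ct z l q ∣ c) ∧ (¬ (2 : ℤ) ∣ c' → ct z m s ∣ c') := by
  obtain ⟨l, q, m, s, g, hap, hl, hm, hW, e1, e2⟩ := hA
  have A0 := h.A0
  have c0 := h.c0
  have c0' := h.c0'
  have ca := h.ca
  have ca' := h.ca'
  have hs := h.sum
  have pos := hap.tree.pos
  -- the areas
  have hT : TN O N u v l q m s := ⟨hap.tree, hap.vol⟩
  have x1 : u + (p - u) = p := by abel
  have x2 : u + (p' - u) = p' := by abel
  have ch := hT.change (l1 := e) (q1 := p - u) (m1 := e') (s1 := p' - u)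
    (by rw [h.ue]; exact c0) (by rw [cr_subl, h.pe, h.ue]; linarith) (by rw [x1]; exact hl.symm)
    (by rw [h.ue']; exact c0') (by rw [cr_subl, h.pe', h.ue']; linarith)
    (by rw [x2]; exact hm.symm)
  obtain ⟨-, r1, r2, -, -⟩ := ch
  rw [cr_subl, h.pe, h.ue] at r1
  rw [cr_subl, h.pe', h.ue'] at r2
  have ea : cr u l + cr q l = a := by linarith
  have ea' : cr u m + cr s m = a' := by linarith
  obtain ⟨W, hWd⟩ : ∃ W, W = cr u v + cr u l + cr u m := ⟨_, rfl⟩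
  have W0 : 0 < W := by rw [hWd]; linarith [pos.1, pos.2.1, pos.2.2.1]
  rw [← hWd] at hW
  have hbig : ∀ b : ℤ, N ≤ G * b → 1025 * H' ^ 2 * W ≤ b := by
    intro b hb
    have e3 : 1025 * H' ^ 2 * G * W ≤ R * W := mul_le_mul_of_nonneg_right hRG W0.le
    have e4 : G * (1025 * H' ^ 2 * W) ≤ G * b := by
      calc G * (1025 * H' ^ 2 * W) = 1025 * H' ^ 2 * G * W := by ring
        _ ≤ G * b := by linarith
    exact le_of_mul_le_mul_left e4 hG
  obtain ⟨t, z, w, q1, s1, -, -, -, t1, t2, -, -, -, t3, t4, t5, t6, t7, t8, t9, t10, t11, t12,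
    t13, t14⟩ := hap.escape hcap hZ hH hK
    (by rw [← hWd, ea]; exact hbig a ha) (by rw [← hWd, ea']; exact hbig a' ha')
  rw [e1] at t4 t6
  rw [e2] at t5 t7
  have hdiv : ∀ d b : ℤ, d ∣ 4 * b → 0 < b → 4 * R * b ≤ N → R * d ≤ N := by
    intro d b hd b0 hb
    have := Int.le_of_dvd (by linarith) hd
    have e3 : R * d ≤ R * (4 * b) := mul_le_mul_of_nonneg_left this hR
    linarith
  refine ⟨z, w, l, q1, m, s1, ⟨t1, t2⟩, ?_, hdiv _ c t4 c0 hc, hdiv _ c' t5 c0' hc', t3, t8, t4,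
    t5, t6, t7⟩
  have : R * cr z w ≤ R * W := mul_le_mul_of_nonneg_left (by linarith) hR
  linarith

end Pool.Agent.H4G.Six
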