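import Pool.Agent.H4G.Six.D2.Escape
import Pool.Agent.H4G.Six.D2.APc

/-!
# The escape lemma for a progression `APc` (helper11)
-/

set_option autoImplicit false

namespace Pool.Agent.H4G.Six

open Pool.Agent.H4G

variable {X : Type} {O : PO X} {N K : ℤ} {u v l q m s g : Z2}

/-- **(E)** for a progression of centres -/
theorem APc.escape (h : APc O N u v l q m s g K) {J Z : ℕ} (hcap : Cap J Z)
    (hZ : (2 * N) ^ 20 ≤ (Z : ℤ)) {H : ℤ} (hH : 1 ≤ H) (hK : 192 * (J : ℤ) ^ 2 ≤ K)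
    (ha : 1025 * H ^ 2 * (cr u v + cr u l + cr u m) ≤ cr u l + cr q l)
    (ha' : 1025 * H ^ 2 * (cr u v + cr u l + cr u m) ≤ cr u m + cr s m) :
    ∃ t z v' q1 s1, 0 ≤ t ∧ t ≤ K ∧ z = u + t • g ∧ Has6 O (z, v', l, q1, m, s1) ∧
      vol6 (z, v', l, q1, m, s1) = N ∧
      lat z (v' + l + m) = lat u (v + l + m) ∧
      lat l (u + q1) = lat l (u + q) ∧ lat m (u + s1) = lat m (u + s) ∧
      NoRel H (cr z l + cr q1 l) (cr z m + cr s1 m) (ct z l q1) (ct z m s1) ∧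
      ct z l q1 ∣ 4 * ct u l q ∧ ct z m s1 ∣ 4 * ct u m s ∧
      (¬ (2 : ℤ) ∣ ct u l q → ct z l q1 ∣ ct u l q) ∧
      (¬ (2 : ℤ) ∣ ct u m s → ct z m s1 ∣ ct u m s) ∧
      (IsCoprime u.1 u.2 → IsCoprime z.1 z.2) ∧
      0 < cr z l ∧ 0 < cr z m ∧ 0 < cr z v' ∧
      cr z v' + cr z l + cr z m = cr u v + cr u l + cr u m ∧
      cr q1 l = cr q l ∧ cr s1 m = cr s m := by
  obtain ⟨i1, j1, hj, hg⟩ := h.gx
  have pos := h.tree.pos
  obtain ⟨t, z, v', q1, s1, h1, h2, h3, h4, h5, h6, h7, h8, h9, h10, h11, h12, h13, h14, h15, h16,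
    h17, h18, h19, h20⟩ := h.tree.escape hcap hZ h.vol (x := 0) (y := 1) (x' := 0) (y' := 1)
    (l1 := l) (m1 := m) isCoprime_one_left isCoprime_one_left (by module) (by module)
    pos.2.1 pos.2.2.1 (by rcases hj with rfl | rfl <;> norm_num) hg hK
    (fun t t0 t1 => by
      obtain ⟨a1, a2, a3⟩ := h.cen t t0 t1
      refine ⟨a1, a2, ?_⟩
      rw [cr_addr, cr_addr]
      exact a3) h.ne hH ha ha'
  exact ⟨t, z, v', q1, s1, h1, h2, h3, h4, h5, h6, h7, h8, h9, h10, h11, h12, h13, h14, h15, h16,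
    h17, h18, by rw [h19]; ring, by rw [h20]; ring⟩

end Pool.Agent.H4G.Six
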