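import Pool.Agent.H4G.Six.D2.Rich

/-!
# Rich tori: a two-dimensional box of slits (row (G1) of D2; helper26, helper6; typed by helper29)

`RichL L u m K`: no vector `w ≠ 0` of `L` has `|u × w|, |w × m| ≤ K (u × m)`. Then `L` has a basis
`la, lb` and a box of coefficients such that all `w = x la + y lb` in the box satisfy
`a / 4 K₂ ≤ u × w ≤ a / K₂` and `|w × m| ≤ (u × w) / K₁`.
-/

set_option autoImplicit false

namespace Pool.Agent.H4G.Six

open Pool.Agent.H4G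

/-- no short vector of `L` in the norm `max |u × ·| |· × m|`, with respect to the level of `m` -/
def RichL (L : AddSubgroup Z2) (u m : Z2) (K : ℤ) : Prop :=
  ∀ w ∈ L, w ≠ 0 → K * cr u m < max |cr u w| |cr w m|

/-- the form of helper82 (basis, primitive vectors) gives the form for lattices -/
theorem RichL.of_rich {l p u m : Z2} {K : ℤ} (h : Rich u l p m K) :
    RichL (lat l p) u m K := by
  intro w hw hw0
  obtain ⟨i, j, rfl⟩ := mem_lat.1 hw
  have hne : i ≠ 0 ∨ j ≠ 0 := by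
    by_contra hn
    push Not at hn
    rw [hn.1, hn.2] at hw0
    simp at hw0
  obtain ⟨d, i', j', hd, hij, hi, hj⟩ := exists_prim_of_ne hne
  have e : i • l + j • p = d • (i' • l + j' • p) := by rw [hi, hj]; module
  have key : K * cr u m < max |cr u (i' • l + j' • p)| |cr (i' • l + j' • p) m| := by
    by_cases h1 : |cr u (i' • l + j' • p)| ≤ K * cr u m
    · exact lt_max_of_lt_right (h i' j' hij h1)
    · exact lt_max_of_lt_left (not_le.1 h1)
  have h0 : 0 ≤ max |cr u (i' • l + j' • p)| |cr (i' • l + j' • p) m| :=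
    le_max_of_le_left (abs_nonneg _)
  rw [e, cr_smul_right, cr_smul_left, abs_mul, abs_mul, abs_of_pos hd,
    ← mul_max_of_nonneg _ _ hd.le]
  have hd1 : 1 * max |cr u (i' • l + j' • p)| |cr (i' • l + j' • p) m| ≤
      d * max |cr u (i' • l + j' • p)| |cr (i' • l + j' • p) m| :=
    mul_le_mul_of_nonneg_right hd h0
  linarith

theorem RichL.to_rich {l p u m : Z2} {K : ℤ} (ha : 0 < cr p l) (h : RichL (lat l p) u m K) :
    Rich u l p m K := by
  intro i j hij h1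
  have hw0 : i • l + j • p ≠ 0 := by
    intro h0
    have e1 : j * cr p l = 0 := by
      have : cr (i • l + j • p) l = j * cr p l := by
        rw [cr_add_left, cr_smul_left, cr_smul_left, cr_self]; ring
      rw [← this, h0]; simp [cr]
    have e2 : i * cr p l = 0 := by
      have : cr p (i • l + j • p) = i * cr p l := by
        rw [cr_add_right, cr_smul_right, cr_smul_right, cr_self]; ring
      rw [← this, h0]; simp [cr]
    have k1 : j = 0 := (mul_eq_zero.1 e1).resolve_right ha.ne'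
    have k2 : i = 0 := (mul_eq_zero.1 e2).resolve_right ha.ne'
    rw [k1, k2] at hij
    exact not_isCoprime_zero_zero hij
  rcases lt_max_iff.1 (h _ (mem_lat.2 ⟨i, j, rfl⟩) hw0) with h2 | h2
  · exact absurd h1 (not_le.2 h2)
  · exact h2

/-- a primitive pair with the smallest sup norm -/
theorem exists_sup_min (f1 g1 f2 g2 : ℤ) : ∃ i j : ℤ, IsCoprime i j ∧ ∀ i' j' : ℤ,
    IsCoprime i' j' → max |i * f1 + j * f2| |i * g1 + j * g2| ≤
      max |i' * f1 + j' * f2| |i' * g1 + j' * g2| := by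
  classical
  have hex : ∃ n : ℕ, ∃ i j : ℤ, IsCoprime i j ∧
      max |i * f1 + j * f2| |i * g1 + j * g2| = (n : ℤ) :=
    ⟨(max |1 * f1 + 0 * f2| |1 * g1 + 0 * g2|).toNat, 1, 0, isCoprime_one_left, by
      rw [Int.toNat_of_nonneg]; exact le_max_of_le_left (abs_nonneg _)⟩
  obtain ⟨i, j, h1, h2⟩ := Nat.find_spec hex
  refine ⟨i, j, h1, fun i' j' h3 => ?_⟩
  have h4 : 0 ≤ max |i' * f1 + j' * f2| |i' * g1 + j' * g2| := le_max_of_le_left (abs_nonneg _)
  have h5 := Nat.find_min' hex ⟨i', j', h3, (Int.toNat_of_nonneg h4).symm⟩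
  rw [h2]
  omega

theorem exists_round (x y : ℤ) (hy : y ≠ 0) : ∃ t : ℤ, 2 * |x - t * y| ≤ |y| := by
  refine ⟨round ((x : ℚ) / y), ?_⟩
  have hy' : (y : ℚ) ≠ 0 := by exact_mod_cast hy
  have h1 := abs_sub_round ((x : ℚ) / y)
  have h2 : (x : ℚ) - round ((x : ℚ) / y) * y = ((x : ℚ) / y - round ((x : ℚ) / y)) * y := by
    field_simp
  have h3 : |(x : ℚ) - round ((x : ℚ) / y) * y| ≤ 1 / 2 * |(y : ℚ)| := by
    rw [h2, abs_mul]
    exact mul_le_mul_of_nonneg_right h1 (abs_nonneg _)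
  have h4 : 2 * |(x : ℚ) - round ((x : ℚ) / y) * y| ≤ |(y : ℚ)| := by linarith
  exact_mod_cast h4

/-- the reduction of the second vector, first coordinate of `e₁` larger -/
theorem red_aux {f1 g1 f2 g2 : ℤ} (h0 : f1 ≠ 0) (h1 : |g1| ≤ |f1|)
    (hmin : ∀ t : ℤ, |f1| ≤ max |f2 - t * f1| |g2 - t * g1|) :
    ∃ t : ℤ, |f1| * |f2 - t * f1| ≤ 2 * |f1 * g2 - g1 * f2| ∧
      |f1| * |g2 - t * g1| ≤ 2 * |f1 * g2 - g1 * f2| := by
  obtain ⟨t, ht⟩ := exists_round f2 f1 h0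
  refine ⟨t, ?_⟩
  have hf : 0 < |f1| := abs_pos.2 h0
  have h2 := hmin t
  have h3 : |f1| ≤ |g2 - t * g1| := by
    rcases le_max_iff.1 h2 with h | h
    · omega
    · exact h
  have h4 : f1 * (g2 - t * g1) = (f1 * g2 - g1 * f2) + g1 * (f2 - t * f1) := by ring
  have h5 : |f1| * |g2 - t * g1| ≤ |f1 * g2 - g1 * f2| + |g1| * |f2 - t * f1| := by
    rw [← abs_mul, h4, ← abs_mul g1]
    exact abs_add_le _ _
  have h6 : |g1| * |f2 - t * f1| ≤ |f1| * |f2 - t * f1| :=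
    mul_le_mul_of_nonneg_right h1 (abs_nonneg _)
  have h7 : |f1| * (2 * |f2 - t * f1|) ≤ |f1| * |g2 - t * g1| :=
    mul_le_mul_of_nonneg_left (ht.trans h3) hf.le
  rw [mul_left_comm] at h7
  have h8 := abs_nonneg (f1 * g2 - g1 * f2)
  constructor <;> linarith

/-- the reduction of the second vector -/
theorem red_sup {f1 g1 f2 g2 : ℤ} (h0 : 0 < max |f1| |g1|)
    (hmin : ∀ t : ℤ, max |f1| |g1| ≤ max |f2 - t * f1| |g2 - t * g1|) :
    ∃ t : ℤ, max |f1| |g1| * |f2 - t * f1| ≤ 2 * |f1 * g2 - g1 * f2| ∧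
      max |f1| |g1| * |g2 - t * g1| ≤ 2 * |f1 * g2 - g1 * f2| := by
  rcases le_total |g1| |f1| with h | h
  · rw [max_eq_left h] at h0 hmin ⊢
    exact red_aux (abs_pos.1 h0) h hmin
  · rw [max_eq_right h] at h0 hmin ⊢
    obtain ⟨t, h1, h2⟩ := red_aux (f1 := g1) (g1 := f1) (f2 := g2) (g2 := f2) (abs_pos.1 h0) h
      (fun t => by rw [max_comm]; exact hmin t)
    have e : g1 * f2 - f1 * g2 = -(f1 * g2 - g1 * f2) := by ring
    rw [e, abs_neg] at h1 h2
    exact ⟨t, h2, h1⟩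

/-- **a reduced basis for the norm `max |u × ·| |· × m|`** -/
theorem exists_red_basis {u m l p : Z2} (hs : 0 < cr u m) (ha : 0 < cr p l) :
    ∃ la lb : Z2, lat la lb = lat l p ∧ cr lb la = cr p l ∧
      0 < max |cr u la| |cr la m| ∧ max |cr u la| |cr la m| ≤ max |cr u lb| |cr lb m| ∧
      max |cr u la| |cr la m| * max |cr u lb| |cr lb m| ≤ 2 * (cr p l * cr u m) := by
  obtain ⟨i, j, hij, hmin⟩ := exists_sup_min (cr u l) (cr l m) (cr u p) (cr p m)
  obtain ⟨r, s, hrs⟩ := hij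
  -- products of combinations
  have cu : ∀ α β : ℤ, cr u (α • l + β • p) = α * cr u l + β * cr u p := by
    intro α β; rw [cr_add_right, cr_smul_right, cr_smul_right]
  have cm : ∀ α β : ℤ, cr (α • l + β • p) m = α * cr l m + β * cr p m := by
    intro α β; rw [cr_add_left, cr_smul_left, cr_smul_left]
  have hdet : cr u l * cr p m - cr l m * cr u p = cr p l * cr u m := by
    simp only [cr]; ring
  have hD : 0 < cr p l * cr u m := mul_pos ha hs
  -- the second vector `-s l + r p`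
  obtain ⟨la, hla⟩ : ∃ la, la = i • l + j • p := ⟨_, rfl⟩
  have h0 : 0 < max |cr u la| |cr la m| := by
    by_contra hn
    push Not at hn
    have k1 : |cr u la| ≤ 0 := (le_max_left _ _).trans hn
    have k2 : |cr la m| ≤ 0 := (le_max_right _ _).trans hn
    have k3 : cr u la = 0 := abs_eq_zero.1 (le_antisymm k1 (abs_nonneg _))
    have k4 : cr la m = 0 := abs_eq_zero.1 (le_antisymm k2 (abs_nonneg _))
    rw [hla, cu] at k3
    rw [hla, cm] at k4
    -- `(i, j)` kills a matrix of determinant `D ≠ 0`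
    have k5 : i * (cr p l * cr u m) = 0 := by
      rw [← hdet]; linear_combination cr p m * k3 - cr u p * k4
    have k6 : j * (cr p l * cr u m) = 0 := by
      rw [← hdet]; linear_combination cr u l * k4 - cr l m * k3
    have k7 : i = 0 := (mul_eq_zero.1 k5).resolve_right hD.ne'
    have k8 : j = 0 := (mul_eq_zero.1 k6).resolve_right hD.ne'
    rw [k7, k8] at hrs
    simp at hrs
  obtain ⟨q, hq⟩ : ∃ q, q = (-s) • l + r • p := ⟨_, rfl⟩
  have hmin' : ∀ t : ℤ, max |cr u la| |cr la m| ≤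
      max |cr u q - t * cr u la| |cr q m - t * cr la m| := by
    intro t
    have k1 := hmin (-s - t * i) (r - t * j) ⟨-j, i, by linear_combination hrs⟩
    have e1 : (-s - t * i) * cr u l + (r - t * j) * cr u p = cr u q - t * cr u la := by
      rw [hq, hla, cu, cu]; ring
    have e2 : (-s - t * i) * cr l m + (r - t * j) * cr p m = cr q m - t * cr la m := by
      rw [hq, hla, cm, cm]; ring
    rw [e1, e2] at k1
    have e3 : i * cr u l + j * cr u p = cr u la := by rw [hla, cu]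
    have e4 : i * cr l m + j * cr p m = cr la m := by rw [hla, cm]
    rw [e3, e4] at k1
    exact k1
  obtain ⟨t, ht1, ht2⟩ := red_sup h0 hmin'
  have e3 : cr u la * cr q m - cr la m * cr u q = cr p l * cr u m := by
    rw [hla, hq, cu, cm, cu, cm, ← hdet]
    linear_combination (cr u l * cr p m - cr l m * cr u p) * hrs
  rw [e3, abs_of_pos hD] at ht1 ht2
  refine ⟨la, q - t • la, ?_, ?_, h0, ?_, ?_⟩
  · exact closure_pair_eq (α := i) (β := j) (γ := -s - t * i) (δ := r - t * j) hla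
      (by rw [hq, hla]; module) (Or.inl (by linear_combination hrs))
  · rw [hq, hla]
    simp only [cr_add_left, cr_add_right, cr_sub_left, cr_smul_left, cr_smul_right, cr_self]
    rw [cr_swap' p l]
    linear_combination cr p l * hrs
  · have e4 : cr u (q - t • la) = cr u q - t * cr u la := by
      simp only [cr, Prod.fst_sub, Prod.snd_sub, Prod.smul_fst, Prod.smul_snd, smul_eq_mul]; ring
    have e5 : cr (q - t • la) m = cr q m - t * cr la m := by
      rw [cr_sub_left, cr_smul_left]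
    rw [e4, e5]
    exact hmin' t
  · have e4 : cr u (q - t • la) = cr u q - t * cr u la := by
      simp only [cr, Prod.fst_sub, Prod.snd_sub, Prod.smul_fst, Prod.smul_snd, smul_eq_mul]; ring
    have e5 : cr (q - t • la) m = cr q m - t * cr la m := by
      rw [cr_sub_left, cr_smul_left]
    rw [e4, e5, mul_max_of_nonneg _ _ h0.le]
    exact max_le ht1 ht2

/-- a box of coefficients around the point `(F0, R0)` of the plane -/
theorem box_aux {fa ga fb gb D F0 R0 T : ℤ} (hD : 0 < D) (hdet : fa * gb - fb * ga = D)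
    (hT : 0 ≤ T) :
    ∃ x0 y0 : ℤ, ∀ x y : ℤ, x0 ≤ x → x ≤ x0 + T → y0 ≤ y → y ≤ y0 + T →
      |x * fa + y * fb - F0| ≤ (T + 1) * (|fa| + |fb|) ∧
      |x * ga + y * gb - R0| ≤ (T + 1) * (|ga| + |gb|) := by
  refine ⟨(F0 * gb - R0 * fb) / D, (R0 * fa - F0 * ga) / D, fun x y hx1 hx2 hy1 hy2 => ?_⟩
  have a1 := Int.emod_nonneg (F0 * gb - R0 * fb) hD.ne'
  have a2 := Int.emod_lt_of_pos (F0 * gb - R0 * fb) hD
  have a3 := Int.mul_ediv_add_emod (F0 * gb - R0 * fb) D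
  have b1 := Int.emod_nonneg (R0 * fa - F0 * ga) hD.ne'
  have b2 := Int.emod_lt_of_pos (R0 * fa - F0 * ga) hD
  have b3 := Int.mul_ediv_add_emod (R0 * fa - F0 * ga) D
  obtain ⟨x0, hx0⟩ : ∃ x0, x0 = (F0 * gb - R0 * fb) / D := ⟨_, rfl⟩
  obtain ⟨y0, hy0⟩ : ∃ y0, y0 = (R0 * fa - F0 * ga) / D := ⟨_, rfl⟩
  rw [← hx0] at hx1 hx2 a3
  rw [← hy0] at hy1 hy2 b3
  obtain ⟨ρx, hρx⟩ : ∃ ρ, ρ = D * x - (F0 * gb - R0 * fb) := ⟨_, rfl⟩
  obtain ⟨ρy, hρy⟩ : ∃ ρ, ρ = D * y - (R0 * fa - F0 * ga) := ⟨_, rfl⟩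
  have c1 : D * x0 ≤ D * x := mul_le_mul_of_nonneg_left hx1 hD.le
  have c2 : D * x ≤ D * (x0 + T) := mul_le_mul_of_nonneg_left hx2 hD.le
  have c3 : D * y0 ≤ D * y := mul_le_mul_of_nonneg_left hy1 hD.le
  have c4 : D * y ≤ D * (y0 + T) := mul_le_mul_of_nonneg_left hy2 hD.le
  have c5 : 0 ≤ D * T := mul_nonneg hD.le hT
  rw [mul_add] at c2 c4
  have d0 : D * (T + 1) = D * T + D := by ring
  have d1 : |ρx| ≤ D * (T + 1) := by
    rw [abs_le, d0]
    constructor <;> linarith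
  have d2 : |ρy| ≤ D * (T + 1) := by
    rw [abs_le, d0]
    constructor <;> linarith
  have e1 : D * (x * fa + y * fb - F0) = ρx * fa + ρy * fb := by
    rw [hρx, hρy]; linear_combination F0 * hdet
  have e2 : D * (x * ga + y * gb - R0) = ρx * ga + ρy * gb := by
    rw [hρx, hρy]; linear_combination R0 * hdet
  have key : ∀ X f g : ℤ, D * X = ρx * f + ρy * g → |X| ≤ (T + 1) * (|f| + |g|) := by
    intro X f g hX
    have k1 : D * |X| = |ρx * f + ρy * g| := by rw [← hX, abs_mul, abs_of_pos hD]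
    have k2 : |ρx * f + ρy * g| ≤ |ρx| * |f| + |ρy| * |g| := by
      rw [← abs_mul, ← abs_mul]; exact abs_add_le _ _
    have k3 : |ρx| * |f| ≤ D * (T + 1) * |f| := mul_le_mul_of_nonneg_right d1 (abs_nonneg _)
    have k4 : |ρy| * |g| ≤ D * (T + 1) * |g| := mul_le_mul_of_nonneg_right d2 (abs_nonneg _)
    have k5 : D * |X| ≤ D * ((T + 1) * (|f| + |g|)) := by
      rw [k1]; linarith
    exact le_of_mul_le_mul_left k5 hD
  exact ⟨key _ _ _ e1, key _ _ _ e2⟩

/-- the reduced basis of a rich torus -/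
theorem RichL.basis {l p u m : Z2} {K : ℤ} (hs : 0 < cr u m) (ha : 0 < cr p l)
    (h : RichL (lat l p) u m K) (hK : 0 < K) :
    ∃ la lb : Z2, lat la lb = lat l p ∧ cr lb la = cr p l ∧
      K * |cr u la| ≤ 2 * cr p l ∧ K * |cr la m| ≤ 2 * cr p l ∧
      K * |cr u lb| ≤ 2 * cr p l ∧ K * |cr lb m| ≤ 2 * cr p l ∧ K * K ≤ 2 * cr p l := by
  obtain ⟨la, lb, b1, b2, b3, b4, b5⟩ := exists_red_basis (u := u) (m := m) hs ha
  refine ⟨la, lb, b1, b2, ?_⟩
  obtain ⟨n1, hn1⟩ : ∃ n, n = max |cr u la| |cr la m| := ⟨_, rfl⟩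
  obtain ⟨n2, hn2⟩ : ∃ n, n = max |cr u lb| |cr lb m| := ⟨_, rfl⟩
  rw [← hn1] at b3 b4 b5
  rw [← hn2] at b4 b5
  have hla : la ≠ 0 := by
    rintro rfl
    rw [hn1] at b3
    simp [cr] at b3
  have hmem : la ∈ lat l p := by
    rw [← b1]; exact AddSubgroup.subset_closure (by simp)
  have g1 : K * cr u m < n1 := by rw [hn1]; exact h la hmem hla
  -- `K n₂ ≤ 2 a`
  have g2 : K * n2 ≤ 2 * cr p l := by
    have k1 : K * cr u m * n2 ≤ n1 * n2 := mul_le_mul_of_nonneg_right g1.le (by linarith)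
    have k2 : cr u m * (K * n2) ≤ cr u m * (2 * cr p l) := by
      have e1 : K * cr u m * n2 = cr u m * (K * n2) := by ring
      have e2 : 2 * (cr p l * cr u m) = cr u m * (2 * cr p l) := by ring
      linarith
    exact le_of_mul_le_mul_left k2 hs
  have g3 : K * n1 ≤ 2 * cr p l := by
    have : K * n1 ≤ K * n2 := mul_le_mul_of_nonneg_left b4 hK.le
    linarith
  have m1 : |cr u la| ≤ n1 := by rw [hn1]; exact le_max_left _ _
  have m2 : |cr la m| ≤ n1 := by rw [hn1]; exact le_max_right _ _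
  have m3 : |cr u lb| ≤ n2 := by rw [hn2]; exact le_max_left _ _
  have m4 : |cr lb m| ≤ n2 := by rw [hn2]; exact le_max_right _ _
  refine ⟨(mul_le_mul_of_nonneg_left m1 hK.le).trans g3,
    (mul_le_mul_of_nonneg_left m2 hK.le).trans g3,
    (mul_le_mul_of_nonneg_left m3 hK.le).trans g2,
    (mul_le_mul_of_nonneg_left m4 hK.le).trans g2, ?_⟩
  have k1 : K * 1 ≤ K * cr u m := mul_le_mul_of_nonneg_left hs hK.le
  have k2 : K * K ≤ K * n1 := mul_le_mul_of_nonneg_left (by linarith) hK.le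
  linarith

/-- a box of slits around the point `(F0, R0)`: the error is at most `a / C`,
`4 C (T + 1) ≤ K` -/
theorem RichL.boxAt {l p u m : Z2} {K C T : ℤ} (hs : 0 < cr u m) (ha : 0 < cr p l)
    (h : RichL (lat l p) u m K) (hT : 0 ≤ T) (hC : 1 ≤ C) (hK : 4 * C * (T + 1) ≤ K) (F0 R0 : ℤ) :
    ∃ la lb : Z2, lat la lb = lat l p ∧ cr lb la = cr p l ∧
      K * |cr u la| ≤ 2 * cr p l ∧ K * |cr la m| ≤ 2 * cr p l ∧
      K * |cr u lb| ≤ 2 * cr p l ∧ K * |cr lb m| ≤ 2 * cr p l ∧ K * K ≤ 2 * cr p l ∧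
      ∃ x0 y0 : ℤ, ∀ x y : ℤ, x0 ≤ x → x ≤ x0 + T → y0 ≤ y → y ≤ y0 + T →
        C * |cr u (x • la + y • lb) - F0| ≤ cr p l ∧
        C * |cr (x • la + y • lb) m - R0| ≤ cr p l := by
  have hT1 : 0 < T + 1 := by linarith
  have hK0 : 0 < K := by
    have : 0 < 4 * C * (T + 1) := by positivity
    linarith
  obtain ⟨la, lb, b1, b2, q1, q2, q3, q4, q5⟩ := h.basis hs ha hK0
  refine ⟨la, lb, b1, b2, q1, q2, q3, q4, q5, ?_⟩
  obtain ⟨a, hadef⟩ : ∃ a, a = cr p l := ⟨_, rfl⟩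
  rw [← hadef] at ha q1 q2 q3 q4 q5 ⊢
  have hdet : cr u la * cr lb m - cr u lb * cr la m = a * cr u m := by
    rw [hadef, ← b2]; simp only [cr]; ring
  obtain ⟨x0, y0, hbox⟩ := box_aux (F0 := F0) (R0 := R0) (T := T) (mul_pos ha hs) hdet hT
  refine ⟨x0, y0, fun x y hx1 hx2 hy1 hy2 => ?_⟩
  obtain ⟨r1, r2⟩ := hbox x y hx1 hx2 hy1 hy2
  have e1 : cr u (x • la + y • lb) = x * cr u la + y * cr u lb := by
    rw [cr_add_right, cr_smul_right, cr_smul_right]
  have e2 : cr (x • la + y • lb) m = x * cr la m + y * cr lb m := by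
    rw [cr_add_left, cr_smul_left, cr_smul_left]
  rw [e1, e2]
  have key : ∀ s t : ℤ, 0 ≤ s → 0 ≤ t → K * s ≤ 2 * a → K * t ≤ 2 * a →
      C * ((T + 1) * (s + t)) ≤ a := by
    intro s t hs0 ht0 k1 k2
    have k3 : 4 * C * (T + 1) * (s + t) ≤ K * (s + t) :=
      mul_le_mul_of_nonneg_right hK (by linarith)
    have k4 : 4 * C * (T + 1) * (s + t) = 4 * (C * ((T + 1) * (s + t))) := by
      ring
    rw [mul_add] at k3
    linarith
  exact ⟨(mul_le_mul_of_nonneg_left r1 (by linarith)).trans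
      (key _ _ (abs_nonneg _) (abs_nonneg _) q1 q3),
    (mul_le_mul_of_nonneg_left r2 (by linarith)).trans
      (key _ _ (abs_nonneg _) (abs_nonneg _) q2 q4)⟩

/-- **(G1): a rich torus has a two-dimensional box of slits.** -/
theorem RichL.box {l p u m : Z2} {K K1 K2 T : ℤ} (hs : 0 < cr u m) (ha : 0 < cr p l)
    (h : RichL (lat l p) u m K) (hT : 0 ≤ T) (h1 : 1 ≤ K1) (h2 : 1 ≤ K2)
    (hK : 32 * K1 * K2 * (T + 1) ≤ K) :
    ∃ la lb : Z2, lat la lb = lat l p ∧ cr lb la = cr p l ∧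
      K * |cr u la| ≤ 2 * cr p l ∧ K * |cr la m| ≤ 2 * cr p l ∧
      K * |cr u lb| ≤ 2 * cr p l ∧ K * |cr lb m| ≤ 2 * cr p l ∧
      ∃ x0 y0 : ℤ, ∀ x y : ℤ, x0 ≤ x → x ≤ x0 + T → y0 ≤ y → y ≤ y0 + T →
        cr p l ≤ 4 * K2 * cr u (x • la + y • lb) ∧ K2 * cr u (x • la + y • lb) ≤ cr p l ∧
        K1 * |cr (x • la + y • lb) m| ≤ cr u (x • la + y • lb) := by
  have hK1 : 0 < K1 := by linarith
  have hK2 : 0 < K2 := by linarith
  have hC : 1 ≤ 8 * K1 * K2 := by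
    have : 0 < 8 * K1 * K2 := by positivity
    linarith
  obtain ⟨la, lb, b1, b2, q1, q2, q3, q4, q5, x0, y0, hbox⟩ := h.boxAt hs ha hT hC
    (by linarith) (cr p l / (2 * K2)) 0
  refine ⟨la, lb, b1, b2, q1, q2, q3, q4, x0, y0, fun x y hx1 hx2 hy1 hy2 => ?_⟩
  obtain ⟨v1, v2⟩ := hbox x y hx1 hx2 hy1 hy2
  obtain ⟨a, hadef⟩ : ∃ a, a = cr p l := ⟨_, rfl⟩
  obtain ⟨F, hF⟩ : ∃ F, F = cr u (x • la + y • lb) := ⟨_, rfl⟩
  obtain ⟨R, hR⟩ : ∃ R, R = cr (x • la + y • lb) m := ⟨_, rfl⟩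
  rw [← hadef] at ha q5 v1 v2 ⊢
  rw [← hF] at v1 ⊢
  rw [← hR, sub_zero] at v2
  rw [← hR]
  have f1 := Int.emod_nonneg a (b := 2 * K2) (by positivity)
  have f2 := Int.emod_lt_of_pos a (b := 2 * K2) (by positivity)
  have f3 := Int.mul_ediv_add_emod a (2 * K2)
  obtain ⟨F0, hF0⟩ : ∃ F0, F0 = a / (2 * K2) := ⟨_, rfl⟩
  rw [← hF0] at v1 f3
  have hT1 : 1 ≤ T + 1 := by linarith
  have hK32 : 32 * K2 ≤ K := by
    have k4 : 32 * 1 * K2 * 1 ≤ 32 * K1 * K2 * (T + 1) := by gcongr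
    linarith
  have hbig : 64 * K2 ≤ a := by
    have k5 : 32 * K2 * 4 ≤ K * K := mul_le_mul hK32 (by linarith) (by norm_num) (by linarith)
    linarith
  have v1' : 8 * K2 * |F - F0| ≤ a := by
    have k1 : 8 * K2 * 1 * |F - F0| ≤ 8 * K2 * K1 * |F - F0| := by
      have := abs_nonneg (F - F0)
      gcongr
    linarith
  have t1 : 8 * K2 * (F - F0) ≤ a :=
    (mul_le_mul_of_nonneg_left (le_abs_self _) (by positivity)).trans v1'
  have t2 : 8 * K2 * (F0 - F) ≤ a := by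
    have : F0 - F ≤ |F - F0| := by rw [abs_sub_comm]; exact le_abs_self _
    exact (mul_le_mul_of_nonneg_left this (by positivity)).trans v1'
  have p1 : 8 * K2 * (F - F0) = 2 * (4 * K2 * F) - 4 * (2 * K2 * F0) := by ring
  have p2 : 8 * K2 * (F0 - F) = 4 * (2 * K2 * F0) - 2 * (4 * K2 * F) := by ring
  have p3 : 4 * K2 * F = 4 * (K2 * F) := by ring
  have s1 : a ≤ 4 * K2 * F := by linarith
  refine ⟨s1, by linarith, ?_⟩
  have s2 : 4 * K2 * (2 * (K1 * |R|)) ≤ 4 * K2 * F := by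
    have : 4 * K2 * (2 * (K1 * |R|)) = 8 * K1 * K2 * |R| := by ring
    rw [this]; linarith
  have s3 := le_of_mul_le_mul_left s2 (by positivity : (0 : ℤ) < 4 * K2)
  have s4 : 0 ≤ K1 * |R| := by positivity
  linarith

/-- **(G1) with a prescribed side of `m`**: `ε (w × m) > 0` for all slits of the box -/
theorem RichL.boxS {l p u m : Z2} {K K1 K2 T ε : ℤ} (hs : 0 < cr u m) (ha : 0 < cr p l)
    (h : RichL (lat l p) u m K) (hT : 0 ≤ T) (h1 : 1 ≤ K1) (h2 : 1 ≤ K2)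
    (hε : ε = 1 ∨ ε = -1) (hK : 128 * K1 * K2 * (T + 1) ≤ K) :
    ∃ la lb : Z2, lat la lb = lat l p ∧ cr lb la = cr p l ∧
      K * |cr u la| ≤ 2 * cr p l ∧ K * |cr la m| ≤ 2 * cr p l ∧
      K * |cr u lb| ≤ 2 * cr p l ∧ K * |cr lb m| ≤ 2 * cr p l ∧
      ∃ x0 y0 : ℤ, ∀ x y : ℤ, x0 ≤ x → x ≤ x0 + T → y0 ≤ y → y ≤ y0 + T →
        cr p l ≤ 4 * K2 * cr u (x • la + y • lb) ∧ K2 * cr u (x • la + y • lb) ≤ cr p l ∧
        cr p l ≤ 16 * K1 * K2 * (ε * cr (x • la + y • lb) m) ∧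
        K1 * (ε * cr (x • la + y • lb) m) ≤ cr u (x • la + y • lb) := by
  have hK1 : 0 < K1 := by linarith
  have hK2 : 0 < K2 := by linarith
  have hKK : 0 < K1 * K2 := by positivity
  have hC : 1 ≤ 32 * K1 * K2 := by
    have : 0 < 32 * K1 * K2 := by positivity
    linarith
  obtain ⟨la, lb, b1, b2, q1, q2, q3, q4, q5, x0, y0, hbox⟩ := h.boxAt hs ha hT hC
    (by linarith) (cr p l / (2 * K2)) (ε * (cr p l / (8 * (K1 * K2))))
  refine ⟨la, lb, b1, b2, q1, q2, q3, q4, x0, y0, fun x y hx1 hx2 hy1 hy2 => ?_⟩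
  obtain ⟨v1, v2⟩ := hbox x y hx1 hx2 hy1 hy2
  obtain ⟨a, hadef⟩ : ∃ a, a = cr p l := ⟨_, rfl⟩
  obtain ⟨F, hF⟩ : ∃ F, F = cr u (x • la + y • lb) := ⟨_, rfl⟩
  obtain ⟨R, hR⟩ : ∃ R, R = ε * cr (x • la + y • lb) m := ⟨_, rfl⟩
  rw [← hadef] at ha q5 v1 v2 ⊢
  rw [← hF] at v1 ⊢
  rw [← hR]
  have hε2 : ε * ε = 1 := by rcases hε with h | h <;> rw [h] <;> norm_num
  have habs : |cr (x • la + y • lb) m - ε * (a / (8 * (K1 * K2)))| =
      |R - a / (8 * (K1 * K2))| := by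
    have e1 : cr (x • la + y • lb) m - ε * (a / (8 * (K1 * K2))) =
        ε * (R - a / (8 * (K1 * K2))) := by
      rw [hR]
      linear_combination (-cr (x • la + y • lb) m) * hε2
    rw [e1, abs_mul]
    rcases hε with h | h <;> rw [h] <;> simp
  rw [habs] at v2
  have f1 := Int.emod_nonneg a (b := 2 * K2) (by positivity)
  have f2 := Int.emod_lt_of_pos a (b := 2 * K2) (by positivity)
  have f3 := Int.mul_ediv_add_emod a (2 * K2)
  have g1 := Int.emod_nonneg a (b := 8 * (K1 * K2)) (by positivity)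
  have g2 := Int.emod_lt_of_pos a (b := 8 * (K1 * K2)) (by positivity)
  have g3 := Int.mul_ediv_add_emod a (8 * (K1 * K2))
  obtain ⟨F0, hF0⟩ : ∃ F0, F0 = a / (2 * K2) := ⟨_, rfl⟩
  obtain ⟨R0, hR0⟩ : ∃ R0, R0 = a / (8 * (K1 * K2)) := ⟨_, rfl⟩
  rw [← hF0] at v1 f3
  rw [← hR0] at v2 g3
  have hT1 : 1 ≤ T + 1 := by linarith
  have hK128 : 128 * (K1 * K2) ≤ K := by
    have k4 : 128 * K1 * K2 * 1 ≤ 128 * K1 * K2 * (T + 1) :=
      mul_le_mul_of_nonneg_left hT1 (by positivity)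
    linarith
  have hbig : 256 * (K1 * K2) ≤ a := by
    have k5 : 128 * (K1 * K2) * 4 ≤ K * K :=
      mul_le_mul hK128 (by linarith) (by norm_num) (by linarith)
    linarith
  have hK2' : K2 ≤ K1 * K2 := by
    have := mul_le_mul_of_nonneg_right h1 hK2.le
    linarith
  have v1' : 32 * K2 * |F - F0| ≤ a := by
    have k1 : 32 * K2 * |F - F0| ≤ 32 * (K1 * K2) * |F - F0| := by
      have := abs_nonneg (F - F0)
      gcongr
    have k2 : 32 * (K1 * K2) * |F - F0| = 32 * K1 * K2 * |F - F0| := by ring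
    linarith
  have v2' : 32 * (K1 * K2) * |R - R0| ≤ a := by
    have k2 : 32 * (K1 * K2) * |R - R0| = 32 * K1 * K2 * |R - R0| := by ring
    linarith
  have t1 : 32 * K2 * (F - F0) ≤ a :=
    (mul_le_mul_of_nonneg_left (le_abs_self _) (by positivity)).trans v1'
  have t2 : 32 * K2 * (F0 - F) ≤ a := by
    have : F0 - F ≤ |F - F0| := by rw [abs_sub_comm]; exact le_abs_self _
    exact (mul_le_mul_of_nonneg_left this (by positivity)).trans v1'
  have t3 : 32 * (K1 * K2) * (R - R0) ≤ a :=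
    (mul_le_mul_of_nonneg_left (le_abs_self _) (by positivity)).trans v2'
  have t4 : 32 * (K1 * K2) * (R0 - R) ≤ a := by
    have : R0 - R ≤ |R - R0| := by rw [abs_sub_comm]; exact le_abs_self _
    exact (mul_le_mul_of_nonneg_left this (by positivity)).trans v2'
  have p1 : 32 * K2 * (F - F0) = 8 * (4 * K2 * F) - 16 * (2 * K2 * F0) := by ring
  have p2 : 32 * K2 * (F0 - F) = 16 * (2 * K2 * F0) - 8 * (4 * K2 * F) := by ring
  have p3 : 4 * K2 * F = 4 * (K2 * F) := by ring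
  have p4 : 32 * (K1 * K2) * (R - R0) = 2 * (16 * K1 * K2 * R) - 4 * (8 * (K1 * K2) * R0) := by
    ring
  have p5 : 32 * (K1 * K2) * (R0 - R) = 4 * (8 * (K1 * K2) * R0) - 2 * (16 * K1 * K2 * R) := by
    ring
  refine ⟨by linarith, by linarith, by linarith, ?_⟩
  have s2 : 4 * K2 * (K1 * R) ≤ 4 * K2 * F := by
    have : 4 * (4 * K2 * (K1 * R)) = 16 * K1 * K2 * R := by ring
    linarith
  exact le_of_mul_le_mul_left s2 (by positivity)

end Pool.Agent.H4G.Six
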