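import Pool.Agent.H4G.Six.NR.Frame
import Pool.Agent.H4G.Six.D2.RichBox
import Pool.Agent.H4G.Six.Can.Sv

/-!
# Part (i), the chain: definitions (helper96)
-/

set_option autoImplicit false

namespace Pool.Agent.H4G.Six

open Pool.Agent.H4G

variable {X : Type} {O : PO X} {N : ℤ} {u v l q m s : Z2} {J Z : ℕ}

/-- all trees of `O` of volume `N` have two different lattices -/
def NeL (O : PO X) (N : ℤ) : Prop := ∀ u v l q m s : Z2, TN O N u v l q m s →
  lat l (u + q) ≠ lat m (u + s)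

/-- a tree with a block of `J` consecutive slits of `M` over which `L` is rich -/
structure BlkT (O : PO X) (N : ℤ) (J k : ℕ) (u v l q m s : Z2) : Prop where
  tree : TN O N u v l q m s
  us : cr u s = 0
  big : (J : ℤ) ^ (2 * k) * (cr u v + cr u m) < cr u l + cr q l
  blk : ∃ n : ℤ, ∀ i : ℤ, n ≤ i → i < n + J →
    RichL (lat l (u + q)) u (m + i • (u + s)) ((J : ℤ) ^ k)

/-- **the row** `double small ⇒ block` -/
def RowBlk : Prop := ∀ k : ℕ, ∃ d : ℕ, ∀ (X : Type) (O : PO X) (N : ℤ) (J Z : ℕ)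
  (u v l q m s : Z2), Bg N J Z → NeL O N → TN O N u v l q m s →
  (J : ℤ) ^ d * (cr u v + ct u l q + ct u m s) ≤ N →
  ∃ u' v' l' q' m' s' : Z2, BlkT O N J k u' v' l' q' m' s' ∧
    (IsCoprime u.1 u.2 → IsCoprime u'.1 u'.2)

end Pool.Agent.H4G.Six
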