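import Pool.Agent.H4G.Six.D2.StepA6
import Pool.Agent.H4G.Six.D2.MainDefs96

/-!
# D2, `RowBlk`: a tree with `A, b, b' ≤ N / J^d` gives a block of rich slits (helper6)
-/

set_option autoImplicit false

namespace Pool.Agent.H4G.Six

open Pool.Agent.H4G

/-- the escape step (helper41) with the exponents `A1 .. A4` -/
def EscAll (A1 A2 A3 A4 : ℕ) : Prop := ∀ (X : Type) (O : PO X) (N : ℤ) (J Y : ℕ)
  (u v e p e' p' : Z2) (c a c' a' x y α k0 H G R D : ℤ), Cap J Y →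
  Lv O N u v e p e' p' c a c' a' → NP u e p e' p' x y α k0 → lat e p ≠ lat e' p' →
  10 ^ 6 ≤ (J : ℤ) → 1 ≤ H → 1 ≤ G → 1 ≤ R → x ≤ H → y ≤ H → α ≤ H → c ≤ H * c' → c' ≤ H * c →
  |kap e p e' α k0| ≤ H * c' → N ≤ G * a → N ≤ G * a' → 1025 * H ^ 2 * G ≤ R →
  D * (cr u v + c + c') ≤ N → 10 ^ 6 * (J : ℤ) ^ A1 * H ^ A2 * R ^ A3 * G ^ A4 ≤ D →
  (2 * N) ^ 20 ≤ (Y : ℤ) →
  ∃ z w l q m s : Z2, TN O N z w l q m s ∧ R * cr z w ≤ N ∧ R * ct z l q ≤ N ∧ R * ct z m s ≤ N ∧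
    NoRel H (cr z l + cr q l) (cr z m + cr s m) (ct z l q) (ct z m s) ∧
    (IsCoprime u.1 u.2 → IsCoprime z.1 z.2)

variable {X : Type} {O : PO X} {N : ℤ} {J Z : ℕ}

/-- the escape step in the form `EscS`, `K = J^k`, `T = J`, `H = J^(6k+2)`, `G = J^(2k+2)`,
`R = J^(14k+7)` -/
theorem escS_of {A1 A2 A3 A4 : ℕ} (hE : EscAll A1 A2 A3 A4) (hB : Bg N J Z) (hne : NeL O N)
    (k d : ℕ) (hd : 2 + A1 + A2 * (6 * k + 2) + A3 * (14 * k + 7) + A4 * (2 * k + 2) ≤ d) :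
    EscS O N ((J : ℤ) ^ d) ((J : ℤ) ^ (14 * k + 7)) ((J : ℤ) ^ k)
      (2 * (J : ℤ) * ((J : ℤ) ^ k) ^ 6) (6 * (J : ℤ) * ((J : ℤ) ^ k) ^ 2) := by
  have hJ := hB.J20
  have J6 : (10 : ℤ) ^ 6 ≤ (J : ℤ) := le_trans (by norm_num) hJ
  have J0 : (0 : ℤ) < (J : ℤ) := lt_of_lt_of_le (by norm_num) J6
  have J1 := hB.J1
  have hH : 2 * (J : ℤ) * ((J : ℤ) ^ k) ^ 6 ≤ (J : ℤ) ^ (6 * k + 2) := by
    calc 2 * (J : ℤ) * ((J : ℤ) ^ k) ^ 6 = (2 * J) * (J : ℤ) ^ (6 * k) := by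
          rw [← pow_mul, mul_comm k 6]
      _ ≤ (J * J) * (J : ℤ) ^ (6 * k) := by
          refine mul_le_mul_of_nonneg_right ?_ (by positivity)
          nlinarith
      _ = (J : ℤ) ^ (6 * k + 2) := by ring
  have hG : 18 * (J : ℤ) * ((J : ℤ) ^ k) ^ 2 ≤ (J : ℤ) ^ (2 * k + 2) := by
    calc 18 * (J : ℤ) * ((J : ℤ) ^ k) ^ 2 = (18 * J) * (J : ℤ) ^ (2 * k) := by
          rw [← pow_mul, mul_comm k 2]
      _ ≤ (J * J) * (J : ℤ) ^ (2 * k) := by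
          refine mul_le_mul_of_nonneg_right ?_ (by positivity)
          nlinarith
      _ = (J : ℤ) ^ (2 * k + 2) := by ring
  have hR : 1025 * ((J : ℤ) ^ (6 * k + 2)) ^ 2 * (J : ℤ) ^ (2 * k + 2) ≤
      (J : ℤ) ^ (14 * k + 7) := by
    calc 1025 * ((J : ℤ) ^ (6 * k + 2)) ^ 2 * (J : ℤ) ^ (2 * k + 2) =
          1025 * (J : ℤ) ^ (14 * k + 6) := by
          rw [← pow_mul, mul_assoc, ← pow_add]
          congr 2
          ring
      _ ≤ J * (J : ℤ) ^ (14 * k + 6) := mul_le_mul_of_nonneg_right (by linarith) (by positivity)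
      _ = (J : ℤ) ^ (14 * k + 7) := by ring
  intro u v e p e' p' b a b' a' x y α k0 hL hN ha3 haa haR hA hb hb'
  have b0 := hL.c0
  have b0' := hL.c0'
  have A0 := hL.A0
  have a0 : 0 < a := b0.trans hL.ca
  have a0' : 0 < a' := b0'.trans hL.ca'
  have hK1 : (1 : ℤ) ≤ (J : ℤ) ^ k := one_le_pow₀ J1
  have ue := hL.ue
  have ue' := hL.ue'
  have hKH : (J : ℤ) ^ k ≤ (J : ℤ) ^ (6 * k + 2) := pow_le_pow_right₀ J1 (by omega)
  have hG3 : (3 : ℤ) ≤ (J : ℤ) ^ (2 * k + 2) := by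
    calc (3 : ℤ) ≤ (J : ℤ) ^ 1 := by rw [pow_one]; linarith
      _ ≤ (J : ℤ) ^ (2 * k + 2) := pow_le_pow_right₀ J1 (by omega)
  have i1 := hN.xH
  have i2 := hN.yH
  have i3 := hN.αK
  have i4 := hN.bb
  have i5 := hN.bb'
  have i6 := hN.ka
  rw [ue, ue'] at i4 i5
  rw [ue'] at i6
  have hD : (J : ℤ) ^ (d - 1) * (cr u v + b + b') ≤ N := by
    have e1 : 3 * (J : ℤ) ^ (d - 1) ≤ (J : ℤ) ^ d := by
      obtain ⟨d', rfl⟩ : ∃ d', d = d' + 1 := ⟨d - 1, by omega⟩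
      rw [Nat.add_sub_cancel, pow_succ]
      have : 0 < (J : ℤ) ^ d' := by positivity
      nlinarith
    have h1 : 3 * (J : ℤ) ^ (d - 1) * (cr u v + b + b') ≤ 3 * N := by
      have : 3 * (J : ℤ) ^ (d - 1) * (cr u v + b + b') ≤ (J : ℤ) ^ d * (cr u v + b + b') :=
        mul_le_mul_of_nonneg_right e1 (by linarith)
      linarith
    linarith
  obtain ⟨z, w, l, q, m, s, g1, g2, g3, g4, g5, g6⟩ := hE X O N J Z u v e p e' p' b a b' a'
    x y α k0 ((J : ℤ) ^ (6 * k + 2)) ((J : ℤ) ^ (2 * k + 2)) ((J : ℤ) ^ (14 * k + 7))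
    ((J : ℤ) ^ (d - 1)) hB.cap hL hN.toNP (by
      have := hne _ _ _ _ _ _ hL.tree
      have x1 : u + (p - u) = p := by abel
      have x2 : u + (p' - u) = p' := by abel
      rwa [x1, x2] at this) J6 (one_le_pow₀ J1) (one_le_pow₀ J1) (one_le_pow₀ J1)
    (i1.trans hH) (i2.trans hH)
    (i3.trans (by rw [← pow_mul]; exact pow_le_pow_right₀ J1 (by omega)))
    (i4.trans (mul_le_mul_of_nonneg_right hKH b0'.le))
    (i5.trans (mul_le_mul_of_nonneg_right hKH b0.le))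
    (i6.trans (mul_le_mul_of_nonneg_right hKH b0'.le))
    (ha3.trans (mul_le_mul_of_nonneg_right hG3 a0.le))
    (by
      have h1 : N ≤ 18 * (J : ℤ) * ((J : ℤ) ^ k) ^ 2 * a' := by linarith
      exact h1.trans (mul_le_mul_of_nonneg_right hG a0'.le)) hR hD
    (by
      calc 10 ^ 6 * (J : ℤ) ^ A1 * ((J : ℤ) ^ (6 * k + 2)) ^ A2 * ((J : ℤ) ^ (14 * k + 7)) ^ A3 *
            ((J : ℤ) ^ (2 * k + 2)) ^ A4
          = 10 ^ 6 * (J : ℤ) ^ (A1 + A2 * (6 * k + 2) + A3 * (14 * k + 7) +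
            A4 * (2 * k + 2)) := by
            rw [← pow_mul, ← pow_mul, ← pow_mul]
            rw [show A2 * (6 * k + 2) = (6 * k + 2) * A2 by ring,
              show A3 * (14 * k + 7) = (14 * k + 7) * A3 by ring,
              show A4 * (2 * k + 2) = (2 * k + 2) * A4 by ring]
            rw [pow_add, pow_add, pow_add]
            ring
        _ ≤ (J : ℤ) ^ 1 * (J : ℤ) ^ (A1 + A2 * (6 * k + 2) + A3 * (14 * k + 7) +
            A4 * (2 * k + 2)) := by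
            refine mul_le_mul_of_nonneg_right ?_ (by positivity)
            rw [pow_one]; exact J6
        _ = (J : ℤ) ^ (1 + (A1 + A2 * (6 * k + 2) + A3 * (14 * k + 7) +
            A4 * (2 * k + 2))) := by rw [← pow_add]
        _ ≤ (J : ℤ) ^ (d - 1) := pow_le_pow_right₀ J1 (by omega)) hB.hZ
  exact ⟨z, w, l, q, m, s, ⟨g1, g2, g3, g4⟩, g5.mono hH, g6⟩

/-- **ROW `RowBlk`** -/
theorem rowBlk_of {A1 A2 A3 A4 : ℕ} (hE : EscAll A1 A2 A3 A4) : RowBlk := by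
  intro k
  obtain ⟨d0, hd0⟩ : ∃ d0, d0 = 2 + A1 + A2 * (6 * k + 2) + A3 * (14 * k + 7) +
    A4 * (2 * k + 2) + (14 * k + 7) := ⟨_, rfl⟩
  refine ⟨d0, fun X O N J Z u v l q m s hB hne hT hD => ?_⟩
  have hJ := hB.J20
  have J6 : (10 : ℤ) ^ 6 ≤ (J : ℤ) := le_trans (by norm_num) hJ
  have J0 : (0 : ℤ) < (J : ℤ) := lt_of_lt_of_le (by norm_num) J6
  have J1 := hB.J1
  obtain ⟨p1, p2, p3, p4, p5⟩ := hT.pos
  have c0 := ct_pos (q := q) p2
  have c0' := ct_pos (q := s) p3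
  have hK1 : (1 : ℤ) ≤ (J : ℤ) ^ k := one_le_pow₀ J1
  have Jd : 0 < (J : ℤ) ^ d0 := by positivity
  have hS : DSL O N ((J : ℤ) ^ d0) u v l q m s := by
    refine ⟨hT, le_trans (mul_le_mul_of_nonneg_left ?_ Jd.le) hD,
      le_trans (mul_le_mul_of_nonneg_left ?_ Jd.le) hD,
      le_trans (mul_le_mul_of_nonneg_left ?_ Jd.le) hD⟩ <;> linarith
  have h24 : 24 * (J : ℤ) * ((J : ℤ) ^ k) ^ 5 < (J : ℤ) ^ (14 * k + 7) := by
    calc 24 * (J : ℤ) * ((J : ℤ) ^ k) ^ 5 = (24 * J) * (J : ℤ) ^ (5 * k) := by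
          rw [← pow_mul, mul_comm k 5]
      _ < (J * J) * (J : ℤ) ^ (5 * k) := by
          refine mul_lt_mul_of_pos_right ?_ (by positivity)
          nlinarith
      _ = (J : ℤ) ^ (5 * k + 2) := by ring
      _ ≤ (J : ℤ) ^ (14 * k + 7) := pow_le_pow_right₀ J1 (by omega)
  obtain ⟨z, w, e, p, e', p', b, a, b', a', h1, h2⟩ := hS.stepA hK1 J1 h24
    (pow_le_pow_right₀ J1 (by omega)) (escS_of hE hB hne k d0 (by omega))
  have hL := h1.lv
  have b0 := hL.c0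
  have b0' := hL.c0'
  have A0 := hL.A0
  have a0 : 0 < a := b0.trans hL.ca
  have x1 : z + (p - z) = p := by abel
  have x2 : z + (p' - z) = p' := by abel
  refine ⟨z, w, e, p - z, e', p' - z, ⟨hL.tree, ?_, ?_, ?_⟩, h2⟩
  · have : cr z (p' - z) = cr z p' := by simp only [cr, Prod.fst_sub, Prod.snd_sub]; ring
    rw [this, hL.up']
  · rw [hL.ue', cr_subl, hL.pe, hL.ue, add_sub_cancel]
    -- `J^(2k) (A + b') < a`
    have g1 : (J : ℤ) ^ (14 * k + 7) * (cr z w + b') ≤ 2 * N := by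
      have := h1.hA
      have := h1.hb'
      linarith
    have g2 : 2 * N < (J : ℤ) ^ (2 * k + 3) * a := by
      have g3 : 36 * (J : ℤ) * ((J : ℤ) ^ k) ^ 2 < (J : ℤ) ^ (2 * k + 3) := by
        calc 36 * (J : ℤ) * ((J : ℤ) ^ k) ^ 2 = (36 * J) * (J : ℤ) ^ (2 * k) := by
              rw [← pow_mul, mul_comm k 2]
          _ < (J * J) * (J : ℤ) ^ (2 * k) := by
              refine mul_lt_mul_of_pos_right ?_ (by positivity)
              nlinarith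
          _ = (J : ℤ) ^ (2 * k + 2) := by ring
          _ ≤ (J : ℤ) ^ (2 * k + 3) := pow_le_pow_right₀ J1 (by omega)
      have g4 := h1.ha
      have g5 := mul_lt_mul_of_pos_right g3 a0
      linarith
    have g6 : (J : ℤ) ^ (2 * k + 3) * ((J : ℤ) ^ (2 * k) * (cr z w + b')) <
        (J : ℤ) ^ (2 * k + 3) * a := by
      refine lt_of_le_of_lt ?_ (lt_of_le_of_lt g1 g2)
      rw [← mul_assoc, ← pow_add]
      exact mul_le_mul_of_nonneg_right (pow_le_pow_right₀ J1 (by omega)) (by linarith)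
    exact lt_of_mul_lt_mul_left g6 (by positivity)
  · rw [x1, x2]
    exact h1.blk

end Pool.Agent.H4G.Six
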