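import Pool.Agent.H4G.Six.D2.TiltAP41
import Pool.Agent.H4G.Six.D2.Esc41
import Pool.Agent.H4G.Six.D2.RowBlk6

/-!
# D2, THE ESCAPE STEP (helper41)

A near-Prym tree (`NP`) with small `A`, contents, tall handles and `L ≠ M` leads to a tree with
small `A`, contents and without relation of small height.
-/

set_option autoImplicit false

namespace Pool.Agent.H4G.Six

open Pool.Agent.H4G

variable {X : Type} {O : PO X} {N : ℤ} {u v e p e' p' : Z2} {c a c' a' x y α k0 : ℤ}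

/-- the escape step -/
theorem Lv.esc {J Y : ℕ} (hcap : Cap J Y) (h : Lv O N u v e p e' p' c a c' a')
    (hNP : NP u e p e' p' x y α k0) (hLM : lat e p ≠ lat e' p')
    {K R H H' G D : ℤ} (hK : 192 * (J : ℤ) ^ 2 ≤ K) (hR : 1 ≤ R) (hJ : 1 ≤ J) (hG : 1 ≤ G)
    (hH' : 1 ≤ H') (hxH : x ≤ H) (hyH : y ≤ H) (hα : α ≤ H) (hcc : c ≤ H * c')
    (hcc' : c' ≤ H * c) (hk : |kap e p e' α k0| ≤ H * c') (hD : D * (cr u v + c + c') ≤ N)
    (ha : N ≤ G * a) (ha' : N ≤ G * a') (hRG : 1025 * H' ^ 2 * G ≤ R)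
    (hDD : 10 ^ 6 * K ^ 6 * J ^ 4 * H ^ 10 * R ^ 3 * (R + G) ≤ D)
    (hY : (2 * N) ^ 20 ≤ (Y : ℤ)) :
    ∃ z w l q m s : Z2, TN O N z w l q m s ∧ R * cr z w ≤ N ∧ R * Six.ct z l q ≤ N ∧
      R * Six.ct z m s ≤ N ∧
      NoRel H' (cr z l + cr q l) (cr z m + cr s m) (Six.ct z l q) (Six.ct z m s) ∧
      (IsCoprime u.1 u.2 → IsCoprime z.1 z.2) ∧ Six.ct z l q ∣ 4 * c ∧ Six.ct z m s ∣ 4 * c' ∧
      (¬ (2 : ℤ) ∣ c → Six.ct z l q ∣ c) ∧ (¬ (2 : ℤ) ∣ c' → Six.ct z m s ∣ c') := by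
  have A0 := h.A0
  have c0 := h.c0
  have c0' := h.c0'
  have ca := h.ca
  have ca' := h.ca'
  have hs := h.sum
  have x0 := hNP.x0
  have hJ' : (1 : ℤ) ≤ J := by exact_mod_cast hJ
  have K1 : 1 ≤ K := by nlinarith [one_le_pow₀ (n := 2) hJ']
  have H1 : 1 ≤ H := by linarith
  have N1 : 1 ≤ N := by linarith
  have hY7 : N ^ 7 ≤ Y := by
    have e1 : N ^ 7 ≤ N ^ 20 := pow_le_pow_right₀ N1 (by norm_num)
    have e2 : N ^ 20 ≤ (2 * N) ^ 20 := pow_le_pow_left₀ (by linarith) (by linarith) 20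
    linarith
  have hA := h.has_ap hcap hNP hLM K1 hR hJ hG hxH hyH hα hcc hcc' hk hD ha ha' hDD hY7
  -- `4 R ≤ D`
  have hRD : 4 * R ≤ D := by
    refine le_trans ?_ hDD
    have e1 : 1 ≤ K ^ 6 := one_le_pow₀ K1
    have e2 : 1 ≤ (J : ℤ) ^ 4 := one_le_pow₀ hJ'
    have e3 : 1 ≤ H ^ 10 := one_le_pow₀ H1
    have e4 : 1 ≤ R ^ 3 := one_le_pow₀ hR
    have f1 : (1 : ℤ) * 1 ≤ K ^ 6 * (J : ℤ) ^ 4 := mul_le_mul e1 e2 (by norm_num) (by positivity)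
    have f2 : (1 : ℤ) * 1 * 1 ≤ K ^ 6 * (J : ℤ) ^ 4 * H ^ 10 :=
      mul_le_mul f1 e3 (by norm_num) (by positivity)
    have f3 : (1 : ℤ) * 1 * 1 * 1 ≤ K ^ 6 * (J : ℤ) ^ 4 * H ^ 10 * R ^ 3 :=
      mul_le_mul f2 e4 (by norm_num) (by positivity)
    have f4 : (1 * 1 * 1 * 1) * (R + G) ≤ (K ^ 6 * (J : ℤ) ^ 4 * H ^ 10 * R ^ 3) * (R + G) :=
      mul_le_mul_of_nonneg_right f3 (by linarith)
    have e5 : 10 ^ 6 * K ^ 6 * (J : ℤ) ^ 4 * H ^ 10 * R ^ 3 * (R + G) =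
        10 ^ 6 * ((K ^ 6 * (J : ℤ) ^ 4 * H ^ 10 * R ^ 3) * (R + G)) := by ring
    rw [e5]
    linarith
  have hlow : ∀ b : ℤ, 0 < b → b ≤ cr u v + c + c' → 4 * R * b ≤ N := by
    intro b b0 hb
    have e1 : 4 * R * b ≤ D * b := mul_le_mul_of_nonneg_right hRD b0.le
    have e2 : D * b ≤ D * (cr u v + c + c') := mul_le_mul_of_nonneg_left hb (by linarith)
    linarith
  exact hA.esc hcap hY h hK hH' (by linarith) ha ha' (by linarith) hRG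
    (hlow c c0 (by linarith)) (hlow c' c0' (by linarith))

/-- **the escape step** in the form of the frame -/
theorem escAll : EscAll 20 12 4 1 := by
  intro X O N J Y u v e p e' p' c a c' a' x y α k0 H G R D hcap h hNP hLM J6 hH hG hR hxH hyH hα
    hcc hcc' hk ha ha' hRG hD hDD hY
  have J1' : (1 : ℤ) ≤ J := le_trans (by norm_num) J6
  have J1 : 1 ≤ J := by exact_mod_cast J1'
  have hDD' : 10 ^ 6 * (192 * (J : ℤ) ^ 2) ^ 6 * (J : ℤ) ^ 4 * H ^ 10 * R ^ 3 * (R + G) ≤ D := by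
    refine le_trans ?_ hDD
    have e1 : (192 : ℤ) ^ 6 ≤ (J : ℤ) ^ 3 :=
      le_trans (by norm_num : (192 : ℤ) ^ 6 ≤ (10 ^ 6) ^ 3) (pow_le_pow_left₀ (by norm_num) J6 3)
    have e2 : R + G ≤ (J : ℤ) * (R * G) := by
      have f1 : R * 1 ≤ R * G := mul_le_mul_of_nonneg_left hG (by linarith)
      have f2 : 1 * G ≤ R * G := mul_le_mul_of_nonneg_right hR (by linarith)
      have f3 : 2 * (R * G) ≤ (J : ℤ) * (R * G) :=
        mul_le_mul_of_nonneg_right (le_trans (by norm_num) J6) (by positivity)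
      linarith
    have e3 : H ^ 10 ≤ H ^ 12 := pow_le_pow_right₀ hH (by norm_num)
    have e4 : (192 : ℤ) ^ 6 * (R + G) ≤ (J : ℤ) ^ 3 * ((J : ℤ) * (R * G)) :=
      mul_le_mul e1 e2 (by linarith) (by positivity)
    have e5 : (192 : ℤ) ^ 6 * (R + G) * H ^ 10 ≤ (J : ℤ) ^ 3 * ((J : ℤ) * (R * G)) * H ^ 12 :=
      mul_le_mul e4 e3 (by positivity) (by positivity)
    calc 10 ^ 6 * (192 * (J : ℤ) ^ 2) ^ 6 * (J : ℤ) ^ 4 * H ^ 10 * R ^ 3 * (R + G)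
        = (10 ^ 6 * (J : ℤ) ^ 16 * R ^ 3) * (192 ^ 6 * (R + G) * H ^ 10) := by ring
      _ ≤ (10 ^ 6 * (J : ℤ) ^ 16 * R ^ 3) * ((J : ℤ) ^ 3 * ((J : ℤ) * (R * G)) * H ^ 12) :=
          mul_le_mul_of_nonneg_left e5 (by positivity)
      _ = 10 ^ 6 * (J : ℤ) ^ 20 * H ^ 12 * R ^ 4 * G ^ 1 := by ring
  obtain ⟨z, w, l, q, m, s, t1, t2, t3, t4, t5, t6, -⟩ := h.esc hcap hNP hLM
    (K := 192 * (J : ℤ) ^ 2) le_rfl hR J1 hG hH hxH hyH hα hcc hcc' hk hD ha ha' hRG hDD' hY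
  exact ⟨z, w, l, q, m, s, t1, t2, t3, t4, t5, t6⟩

/-- **row RowBlk** -/
theorem rowBlk : RowBlk := rowBlk_of escAll

end Pool.Agent.H4G.Six
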