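import Pool.Agent.H4G.Six.D2.NearAP41
import Pool.Agent.H4G.Six.D2.EscAPc11

/-!
# D2, the escape step: every near-Prym tree has a progression of centres (helper41)
-/

set_option autoImplicit false

namespace Pool.Agent.H4G.Six

open Pool.Agent.H4G

variable {X : Type} {O : PO X} {N : ℤ} {u v e p e' p' : Z2} {c a c' a' x y α k0 : ℤ}

/-- the conclusion of the rows 5.1 - 5.3 -/
def HasAP (O : PO X) (N : ℤ) (u v e p e' p' : Z2) (c c' K R : ℤ) : Prop :=
  ∃ l q m s g : Z2, APc O N u v l q m s g K ∧ lat l (u + q) = lat e p ∧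
    lat m (u + s) = lat e' p' ∧ R * (cr u v + cr u l + cr u m) ≤ N ∧
    Six.ct u l q = c ∧ Six.ct u m s = c'

/-- a low level is smaller than the area -/
theorem low_lt {M w t β G b : ℤ} (M0 : 0 < M) (w0 : 0 < w) (hG : 1 ≤ G)
    (hGw : G * (2 * (M * w)) < N) (ht : t ≤ M) (hβ : 0 < β) (hβw : β ≤ w) (hb : N ≤ G * b) :
    t * β < b := by
  have e0 : 0 < M * w := mul_pos M0 w0
  have e1 : t * β ≤ M * w := by
    rcases le_or_gt 0 t with h2 | h2
    · exact mul_le_mul ht hβw hβ.le M0.le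
    · have : t * β < 0 := mul_neg_of_neg_of_pos h2 hβ
      linarith
  have e2 : G * (M * w) < G * b := by
    have : 0 < G * (M * w) := mul_pos (by linarith) e0
    have e3 : G * (2 * (M * w)) = 2 * (G * (M * w)) := by ring
    linarith
  have e3 : M * w < b := lt_of_mul_lt_mul_left e2 (by linarith)
  linarith

/-- `p × v ≤ N²` -/
theorem Lv.pv_le (h : Lv O N u v e p e' p' c a c' a') : 0 < cr p v ∧ cr p v ≤ N ^ 2 := by
  have A0 := h.A0
  have c0 := h.c0
  have c0' := h.c0'
  have ca := h.ca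
  have ca' := h.ca'
  have hs := h.sum
  have e1 : c * cr p v = a * cr u v := by
    have := h.yp v
    rw [cr_swap' p v, cr_swap' u v] at this
    linarith
  constructor
  · have : 0 < c * cr p v := by rw [e1]; exact mul_pos (by linarith) A0
    exact (mul_pos_iff_of_pos_left c0).1 this
  · by_contra hcon
    push Not at hcon
    have e2 : a * cr u v ≤ N * N := mul_le_mul (by linarith) (by linarith) A0.le (by linarith)
    have e3 : c * N ^ 2 < c * cr p v := mul_lt_mul_of_pos_left hcon c0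
    have e4 : 1 * N ^ 2 ≤ c * N ^ 2 := mul_le_mul_of_nonneg_right c0 (by positivity)
    have e5 : N ^ 2 = N * N := by ring
    linarith

theorem Lv.pv_le' (h : Lv O N u v e p e' p' c a c' a') : 0 < cr p' v ∧ cr p' v ≤ N ^ 2 := by
  have h1 := h.swap.pv_le
  rw [cr_neg_neg] at h1
  exact h1

/-- numbers of the family -/
theorem fam_num {J : ℕ} {K H : ℤ} (hK : 1 ≤ K) (hJ : 1 ≤ J) (x0 : 0 < x) (y0 : 0 < y)
    (α0 : 0 < α) (hxH : x ≤ H) (hyH : y ≤ H) (hα : α ≤ H) :
    1 + PiD x y α * (2 * K * J + J) ≤ 4 * (K * J) * H ^ 10 ∧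
      S39 J x y α (2 * K) * x * α ≤ 4 * (K * J) * H ^ 10 ∧
      S39 J x y α (2 * K) ≤ 4 * (K * J) * H ^ 10 := by
  have hJ' : (1 : ℤ) ≤ J := by exact_mod_cast hJ
  have H1 : 1 ≤ H := by linarith
  have hPi0 : 0 < PiD x y α := by unfold PiD; positivity
  have hPi : PiD x y α ≤ H ^ 4 := by
    unfold PiD
    calc x * y * α ^ 2 ≤ H * H * H ^ 2 :=
          mul_le_mul (mul_le_mul hxH hyH y0.le (by linarith)) (pow_le_pow_left₀ α0.le hα 2)
            (by positivity) (by positivity)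
      _ = H ^ 4 := by ring
  have H4 : 1 ≤ H ^ 4 := one_le_pow₀ H1
  have hKJ : 1 ≤ K * J := by nlinarith
  have hin : 2 * K * J + J ≤ 3 * (K * J) := by nlinarith
  have hin0 : 0 ≤ 2 * K * J + J := by nlinarith
  have h1 : 1 + PiD x y α * (2 * K * J + J) ≤ 4 * (K * J) * H ^ 4 := by
    have e1 : PiD x y α * (2 * K * J + J) ≤ H ^ 4 * (3 * (K * J)) :=
      mul_le_mul hPi hin hin0 (by positivity)
    have e2 : 1 * 1 ≤ (K * J) * H ^ 4 := mul_le_mul hKJ H4 (by norm_num) (by positivity)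
    linarith
  have h10 : 0 < 1 + PiD x y α * (2 * K * J + J) := by
    have := mul_nonneg hPi0.le hin0
    linarith
  have hS : S39 J x y α (2 * K) ≤ 4 * (K * J) * H ^ 8 := by
    unfold S39
    calc PiD x y α * (1 + PiD x y α * (2 * K * J + J)) ≤ H ^ 4 * (4 * (K * J) * H ^ 4) :=
          mul_le_mul hPi h1 h10.le (by positivity)
      _ = 4 * (K * J) * H ^ 8 := by ring
  refine ⟨h1.trans (mul_le_mul_of_nonneg_left (pow_le_pow_right₀ H1 (by norm_num))
      (by positivity)), ?_,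
    hS.trans (mul_le_mul_of_nonneg_left (pow_le_pow_right₀ H1 (by norm_num)) (by positivity))⟩
  calc S39 J x y α (2 * K) * x * α ≤ 4 * (K * J) * H ^ 8 * H * H :=
        mul_le_mul (mul_le_mul hS hxH x0.le (by positivity)) hα α0.le (by positivity)
    _ = 4 * (K * J) * H ^ 10 := by ring

/-- parallel companion, numbers -/
theorem Lv.ap_zero {J Y : ℕ} (hcap : Cap J Y) (h : Lv O N u v e p e' p' c a c' a')
    (hNP : NP u e p e' p' x y α k0) (hκ : kap e p e' α k0 = 0) (hLM : lat e p ≠ lat e' p')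
    {K R H G D : ℤ} (hK : 1 ≤ K) (hR : 1 ≤ R) (hJ : 1 ≤ J) (hG : 1 ≤ G) (hxH : x ≤ H)
    (hyH : y ≤ H) (hα : α ≤ H) (hD : D * (cr u v + c + c') ≤ N) (ha : N ≤ G * a)
    (ha' : N ≤ G * a') (hDD : 8 * K * J * H ^ 10 * (R + G) ≤ D)
    (hY : N ^ 7 ≤ Y) : HasAP O N u v e p e' p' c c' K R := by
  have A0 := h.A0
  have c0 := h.c0
  have c0' := h.c0'
  have ca := h.ca
  have ca' := h.ca'
  have hs := h.sum
  have x0 := hNP.x0
  have y0 := hNP.y0
  have α0 := hNP.α0
  have hJ' : (1 : ℤ) ≤ J := by exact_mod_cast hJ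
  have H1 : 1 ≤ H := by linarith
  have N0 : 0 < N := by linarith
  have N1 : 1 ≤ N := N0
  have hKJ : 1 ≤ K * J := by nlinarith
  obtain ⟨hP, hSx, hSc⟩ := fam_num hK hJ x0 y0 α0 hxH hyH hα
  obtain ⟨M, hM⟩ : ∃ M, M = 4 * (K * J) * H ^ 10 := ⟨_, rfl⟩
  rw [← hM] at hP hSx hSc
  have M0 : 0 < M := by rw [hM]; positivity
  have hHM : H ≤ M := by
    have e1 : 1 * H ^ 1 ≤ (K * J) * H ^ 10 :=
      mul_le_mul hKJ (pow_le_pow_right₀ H1 (by norm_num)) (by positivity) (by positivity)
    have e2 : 0 < (K * J) * H ^ 10 := by positivity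
    rw [hM]
    linarith
  obtain ⟨w, hw⟩ : ∃ w, w = cr u v + c + c' := ⟨_, rfl⟩
  rw [← hw] at hD
  have w0 : 0 < w := by rw [hw]; linarith
  have hDM : 2 * M * (R + G) ≤ D := by
    rw [hM]
    calc 2 * (4 * (K * J) * H ^ 10) * (R + G) = 8 * K * J * H ^ 10 * (R + G) := by ring
      _ ≤ D := hDD
  have hw1 : 2 * M * (R + G) * w ≤ N := by
    have := mul_le_mul_of_nonneg_right hDM w0.le
    linarith
  have hRw : R * (2 * (M * w)) ≤ N := by
    have : 0 < 2 * M * G * w := by positivity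
    have e1 : 2 * M * (R + G) * w = R * (2 * (M * w)) + 2 * M * G * w := by ring
    linarith
  have hGw : G * (2 * (M * w)) < N := by
    have : 0 < 2 * M * R * w := by positivity
    have e1 : 2 * M * (R + G) * w = G * (2 * (M * w)) + 2 * M * R * w := by ring
    linarith
  have hMN : M ≤ N := by
    have e1 : M * 1 ≤ M * w := mul_le_mul_of_nonneg_left w0 M0.le
    have e2 : 1 * (2 * (M * w)) ≤ R * (2 * (M * w)) :=
      mul_le_mul_of_nonneg_right hR (by positivity)
    linarith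
  have hN7 : N ^ 3 ≤ N ^ 7 := pow_le_pow_right₀ N1 (by norm_num)
  have hN1 : N ^ 1 ≤ N ^ 7 := pow_le_pow_right₀ N1 (by norm_num)
  obtain ⟨l, q, m, s, g, k1, k2, k3, k4, k5, k6⟩ := h.fork_apc hcap hNP hκ hLM (K := K) (R := R)
    (by linarith) (by linarith)
    (by
      have h1 := h.pv_le
      have e1 : y * cr p v ≤ N * N ^ 2 := mul_le_mul (by linarith) h1.2 h1.1.le N0.le
      have e2 : N * N ^ 2 = N ^ 3 := by ring
      linarith)
    (by linarith [pow_one N])
    (low_lt M0 w0 hG hGw hSx c0 (by rw [hw]; linarith) ha)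
    (low_lt M0 w0 hG hGw hSc c0' (by rw [hw]; linarith) ha')
    (by
      refine le_trans (mul_le_mul_of_nonneg_left ?_ (by linarith)) hRw
      have e1 : S39 J x y α (2 * K) * x * α * c ≤ M * c := mul_le_mul_of_nonneg_right hSx c0.le
      have e2 : S39 J x y α (2 * K) * c' ≤ M * c' := mul_le_mul_of_nonneg_right hSc c0'.le
      have e3 : 1 * cr u v ≤ M * cr u v := mul_le_mul_of_nonneg_right (by linarith) A0.le
      have e4 : M * w = M * cr u v + M * c + M * c' := by rw [hw]; ring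
      have e5 : 0 < M * w := mul_pos M0 w0
      linarith)
  exact ⟨l, q, m, s, g, k1, k2, k3, k4, k5, k6⟩

/-- 5.1, numbers: the offset of the companion is small -/
theorem Lv.ap_near {J Y : ℕ} (hcap : Cap J Y) (h : Lv O N u v e p e' p' c a c' a')
    (hNP : NP u e p e' p' x y α k0) (hκ : kap e p e' α k0 ≠ 0)
    {K R H G D : ℤ} (hK : 1 ≤ K) (hR : 1 ≤ R) (hJ : 1 ≤ J) (hG : 1 ≤ G) (hxH : x ≤ H)
    (hyH : y ≤ H) (hα : α ≤ H) (hD : D * (cr u v + c + c') ≤ N) (ha : N ≤ G * a)
    (ha' : N ≤ G * a') (hDD : 8 * K * J * H ^ 10 * (R + G) ≤ D)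
    (hsm : 6 * K ^ 2 * J * |kap e p e' α k0| * (cr u v + c + c') < c * c')
    (hY : N ^ 7 ≤ Y) : HasAP O N u v e p e' p' c c' K R := by
  have A0 := h.A0
  have c0 := h.c0
  have c0' := h.c0'
  have ca := h.ca
  have ca' := h.ca'
  have hs := h.sum
  have x0 := hNP.x0
  have y0 := hNP.y0
  have α0 := hNP.α0
  have hJ' : (1 : ℤ) ≤ J := by exact_mod_cast hJ
  have H1 : 1 ≤ H := by linarith
  have N0 : 0 < N := by linarith
  have N1 : 1 ≤ N := N0
  have hKJ : 1 ≤ K * J := by nlinarith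
  obtain ⟨M, hM⟩ : ∃ M, M = 4 * (K * J) * H ^ 10 := ⟨_, rfl⟩
  have M0 : 0 < M := by rw [hM]; positivity
  have hHp : H ^ 1 ≤ H ^ 10 := pow_le_pow_right₀ H1 (by norm_num)
  have hHM : H ≤ M := by
    have e1 : 1 * H ^ 1 ≤ (K * J) * H ^ 10 :=
      mul_le_mul hKJ hHp (by positivity) (by positivity)
    have e2 : 0 < (K * J) * H ^ 10 := by positivity
    rw [hM]
    linarith
  obtain ⟨w, hw⟩ : ∃ w, w = cr u v + c + c' := ⟨_, rfl⟩
  rw [← hw] at hD hsm
  have w0 : 0 < w := by rw [hw]; linarith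
  have hDM : 2 * M * (R + G) ≤ D := by
    rw [hM]
    calc 2 * (4 * (K * J) * H ^ 10) * (R + G) = 8 * K * J * H ^ 10 * (R + G) := by ring
      _ ≤ D := hDD
  have hw1 : 2 * M * (R + G) * w ≤ N := by
    have := mul_le_mul_of_nonneg_right hDM w0.le
    linarith
  have hRw : R * (2 * (M * w)) ≤ N := by
    have : 0 < 2 * M * G * w := by positivity
    have e1 : 2 * M * (R + G) * w = R * (2 * (M * w)) + 2 * M * G * w := by ring
    linarith
  have hGw : G * (2 * (M * w)) < N := by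
    have : 0 < 2 * M * R * w := by positivity
    have e1 : 2 * M * (R + G) * w = G * (2 * (M * w)) + 2 * M * R * w := by ring
    linarith
  have hMN : M ≤ N := by
    have e1 : M * 1 ≤ M * w := mul_le_mul_of_nonneg_left w0 M0.le
    have e2 : 1 * (2 * (M * w)) ≤ R * (2 * (M * w)) :=
      mul_le_mul_of_nonneg_right hR (by positivity)
    linarith
  -- `T + J ≤ 3 K J`
  have hTJ : 2 * K * J + J ≤ 3 * (K * J) := by nlinarith
  have hTM : (2 * K * J + J) * α ≤ M := by
    have e1 : (2 * K * J + J) * α ≤ 3 * (K * J) * H :=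
      mul_le_mul hTJ hα α0.le (by positivity)
    have e2 : (K * J) * H ≤ (K * J) * H ^ 10 := mul_le_mul_of_nonneg_left (by linarith) (by linarith)
    have e3 : 0 < (K * J) * H ^ 10 := by positivity
    rw [hM]
    linarith
  have hTM' : 2 * K * J + J ≤ M := by
    have e0 : 0 ≤ 2 * K * J + J := by nlinarith
    have e1 : (2 * K * J + J) * 1 ≤ (2 * K * J + J) * α := mul_le_mul_of_nonneg_left α0 e0
    linarith
  have hN7 : N ^ 1 ≤ N ^ 7 := pow_le_pow_right₀ N1 (by norm_num)
  have kp0 : 0 ≤ |kap e p e' α k0| := abs_nonneg _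
  -- the two sizes
  have hsz : ∀ z : ℤ, 0 < z → cr u v + z ≤ w →
      2 * K * |kap e p e' α k0| * (cr u v + (2 * K * J + J) * α * z) < α * c * c' := by
    intro z z0 hz
    have hA1 : (1 : ℤ) * cr u v ≤ 3 * (K * J) * α * cr u v := by
      apply mul_le_mul_of_nonneg_right _ A0.le
      nlinarith
    have hz1 : (2 * K * J + J) * α * z ≤ 3 * (K * J) * α * z :=
      mul_le_mul_of_nonneg_right (mul_le_mul_of_nonneg_right hTJ α0.le) z0.le
    have hz2 : 3 * (K * J) * α * (cr u v + z) ≤ 3 * (K * J) * α * w :=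
      mul_le_mul_of_nonneg_left hz (by positivity)
    have hin : cr u v + (2 * K * J + J) * α * z ≤ 3 * (K * J) * α * w := by linarith
    calc 2 * K * |kap e p e' α k0| * (cr u v + (2 * K * J + J) * α * z)
        ≤ 2 * K * |kap e p e' α k0| * (3 * (K * J) * α * w) :=
          mul_le_mul_of_nonneg_left hin (by positivity)
      _ = α * (6 * K ^ 2 * J * |kap e p e' α k0| * w) := by ring
      _ < α * (c * c') := mul_lt_mul_of_pos_left hsm α0
      _ = α * c * c' := by ring
  obtain ⟨l, q, m, s, g, k1, k2, k3, k4, k5, k6⟩ := h.near_ap hcap hNP hκ (K := K) (R := R)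
    (S := 2 * K * J) (by linarith) (by linarith) (by positivity) le_rfl
    (by
      have h1 := h.pv_le
      have h2 := h.pv_le'
      have e0 : H ≤ N := by linarith
      have e1 : x * y * α ≤ N * N * N :=
        mul_le_mul (mul_le_mul (by linarith) (by linarith) y0.le N0.le) (by linarith) α0.le
          (by positivity)
      have e2 : x * y * α * cr p v ≤ N * N * N * N ^ 2 :=
        mul_le_mul e1 h1.2 h1.1.le (by positivity)
      have e3 : x * y * α * cr p v * cr p' v ≤ N * N * N * N ^ 2 * N ^ 2 :=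
        mul_le_mul e2 h2.2 h2.1.le (by positivity)
      have e4 : N * N * N * N ^ 2 * N ^ 2 = N ^ 7 := by ring
      linarith)
    (by linarith [pow_one N])
    (hsz c c0 (by rw [hw]; linarith))
    (by
      have h1 := hsz c' c0' (by rw [hw]; linarith)
      refine lt_of_le_of_lt (mul_le_mul_of_nonneg_left ?_ (by positivity)) h1
      have e0 : 0 ≤ (2 * K * J + J) * c' := mul_nonneg (by nlinarith) c0'.le
      have e1 : (2 * K * J + J) * c' * 1 ≤ (2 * K * J + J) * c' * α :=
        mul_le_mul_of_nonneg_left α0 e0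
      have e2 : (2 * K * J + J) * α * c' = (2 * K * J + J) * c' * α := by ring
      linarith)
    (low_lt M0 w0 hG hGw hTM c0 (by rw [hw]; linarith) ha)
    (low_lt M0 w0 hG hGw hTM' c0' (by rw [hw]; linarith) ha')
    (by
      refine le_trans (mul_le_mul_of_nonneg_left ?_ (by linarith)) hRw
      have e1 : (2 * K * J + J) * α * c ≤ M * c := mul_le_mul_of_nonneg_right hTM c0.le
      have e2 : (2 * K * J + J) * c' ≤ M * c' := mul_le_mul_of_nonneg_right hTM' c0'.le
      have e3 : 1 * cr u v ≤ M * cr u v := mul_le_mul_of_nonneg_right (by linarith) A0.le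
      have e4 : M * w = M * cr u v + M * c + M * c' := by rw [hw]; ring
      have e5 : 0 < M * w := mul_pos M0 w0
      linarith)
  exact ⟨l, q, m, s, g, k1, k2, k3, k4, k5, k6⟩

end Pool.Agent.H4G.Six
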