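import Mathlib

/-!
# The ratio argument for near-Prym trees (helper26; Lean: helper53)

Two centres of one configuration have the areas `P, Q` and `P', Q'`, with the same generic contents.
If `P / Q` and `P' / Q'` are, up to a common factor, fractions of small height, and `P, P'`, `Q, Q'`
are near to each other, then `P / Q = P' / Q'`.
-/

set_option autoImplicit false

namespace Pool.Agent.H4G.Six

/-- **Ratio lemma.** -/
theorem ratio_eq {P P' Q Q' x y x' y' s t H W D : ℤ} (hP : D ≤ P) (hQ : D ≤ Q)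
    (hs : 0 < s) (ht : 0 < t) (hx' : 0 < x') (hy : 0 < y) (xH : x' ≤ H) (yH : y ≤ H) (h1 : P * x * s = Q * y * t)
    (h2 : P' * x' * s = Q' * y' * t) (hPW : |P - P'| ≤ W) (hQW : |Q - Q'| ≤ W)
    (hD : 4 * H ^ 2 * W < D) : x * y' = x' * y ∧ P * Q' = P' * Q := by
  have hH : 0 < H := hy.trans_le yH
  have hH2 : 1 ≤ H ^ 2 := one_le_pow₀ hH
  have hW : 0 ≤ W := (abs_nonneg _).trans hPW
  have hWD : 4 * W < D := by
    have : 1 * W ≤ H ^ 2 * W := mul_le_mul_of_nonneg_right hH2 hW
    linarith
  have hD0 : 0 < D := by linarith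
  have hP0 : 0 < P := by linarith
  have hQ0 : 0 < Q := by linarith
  have key : P * Q' * (x * y') = P' * Q * (x' * y) := by
    have e : (s * t) * (P * Q' * (x * y')) = (s * t) * (P' * Q * (x' * y)) := by
      linear_combination (Q' * y' * t) * h1 - (Q * y * t) * h2
    exact mul_left_cancel₀ (mul_pos hs ht).ne' e
  have hQ' : Q ≤ 2 * Q' := by
    have := (abs_le.1 hQW).2
    linarith
  have main : x * y' = x' * y := by
    by_contra hne
    have h3 : P * Q' * (x * y' - x' * y) = x' * y * (P' * Q - P * Q') := by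
      linear_combination key
    have h4 : 1 ≤ |x * y' - x' * y| := Int.one_le_abs (sub_ne_zero.2 hne)
    have hQ'0 : 0 < Q' := by linarith
    have h5 : P * Q' ≤ |x' * y * (P' * Q - P * Q')| := by
      rw [← h3, abs_mul, abs_of_pos (mul_pos hP0 hQ'0)]
      exact le_mul_of_one_le_right (mul_pos hP0 hQ'0).le h4
    have h6 : |P' * Q - P * Q'| ≤ W * (P + Q) := by
      have e : P' * Q - P * Q' = -(P - P') * Q + P * (Q - Q') := by ring
      rw [e]
      calc |-(P - P') * Q + P * (Q - Q')| ≤ |-(P - P') * Q| + |P * (Q - Q')| := abs_add_le _ _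
        _ = |P - P'| * Q + P * |Q - Q'| := by
            rw [abs_mul, abs_mul, abs_neg, abs_of_pos hQ0, abs_of_pos hP0]
        _ ≤ W * Q + P * W := add_le_add (mul_le_mul_of_nonneg_right hPW hQ0.le)
            (mul_le_mul_of_nonneg_left hQW hP0.le)
        _ = W * (P + Q) := by ring
    have h7 : |x' * y * (P' * Q - P * Q')| ≤ H ^ 2 * (W * (P + Q)) := by
      rw [abs_mul, abs_of_pos (mul_pos hx' hy)]
      refine mul_le_mul ?_ h6 (abs_nonneg _) (by positivity)
      calc x' * y ≤ H * H := mul_le_mul xH yH hy.le hH.le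
        _ = H ^ 2 := by ring
    have h8 : P * Q' ≤ H ^ 2 * W * (P + Q) := by
      calc P * Q' ≤ _ := h5
        _ ≤ _ := h7
        _ = H ^ 2 * W * (P + Q) := by ring
    have h9 : 2 * (H ^ 2 * W) * (P + Q) < P * Q := by
      have a1 : D * Q ≤ P * Q := mul_le_mul_of_nonneg_right hP hQ0.le
      have a2 : D * P ≤ Q * P := mul_le_mul_of_nonneg_right hQ hP0.le
      have a3 : 4 * H ^ 2 * W * (P + Q) < D * (P + Q) :=
        mul_lt_mul_of_pos_right hD (by linarith)
      have a4 : 2 * (2 * (H ^ 2 * W) * (P + Q)) < 2 * (P * Q) := by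
        calc 2 * (2 * (H ^ 2 * W) * (P + Q)) = 4 * H ^ 2 * W * (P + Q) := by ring
          _ < D * (P + Q) := a3
          _ = D * Q + D * P := by ring
          _ ≤ P * Q + Q * P := add_le_add a1 a2
          _ = 2 * (P * Q) := by ring
      exact lt_of_mul_lt_mul_left a4 (by norm_num)
    have h10 : P * Q ≤ P * (2 * Q') := mul_le_mul_of_nonneg_left hQ' hP0.le
    have h11 : P * (2 * Q') ≤ 2 * (H ^ 2 * W) * (P + Q) := by
      calc P * (2 * Q') = 2 * (P * Q') := by ring
        _ ≤ 2 * (H ^ 2 * W * (P + Q)) := by linarith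
        _ = 2 * (H ^ 2 * W) * (P + Q) := by ring
    linarith
  refine ⟨main, ?_⟩
  rw [main] at key
  exact mul_right_cancel₀ (mul_pos hx' hy).ne' key

/-- the differences of the centres are proportional to the areas -/
theorem ratio_diff {X X1 Y Y1 D D' : ℤ} (h : (X + D) * (Y1 + D') = (X1 + D) * (Y + D')) :
    (X - X1) * (Y1 + D') = (X1 + D) * (Y - Y1) := by
  linear_combination h

/-- heights one and two of a parallel configuration -/
theorem ratio_par {n1 n2 d D D' : ℤ} (hd : d ≠ 0)
    (h : (n1 * d + D) * (2 * (n2 * d) + D') = (2 * (n1 * d) + D) * (n2 * d + D')) :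
    n1 * D' = n2 * D := by
  have e : d * (n1 * D') = d * (n2 * D) := by linear_combination -h
  exact mul_left_cancel₀ hd e

end Pool.Agent.H4G.Six
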