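import Pool.Agent.H4G.Six.D2.Gcd3E11
import Pool.Agent.H4G.Six.D2.Ratio53
import Pool.Agent.H4G.Six.D2F
import Pool.Agent.H4G.Six.Can.Sv

/-!
# The escape lemma (helper11; argument of helper26)

A progression of centres `u + t g` for one pair `(l₁, m₁)`. Two of them have generic contents; if at
both the areas and the contents satisfy a relation `x a' b² = y a b'²` of small height, then the
areas move proportionally: `a' (g × l₁) = a (g × m₁)`.
-/

set_option autoImplicit false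

namespace Pool.Agent.H4G.Six

open Pool.Agent.H4G

variable {X : Type} {O : PO X} {u v l q m s l1 q1 m1 s1 g : Z2}

/-- the areas `a, a'` and the contents `b, b'` satisfy no relation `x a' b² = y a b'²` of height
`≤ H` -/
def NoRel (H a a' b b' : ℤ) : Prop :=
  ∀ x y : ℤ, 0 < x → x ≤ H → 0 < y → y ≤ H → x * (a' * b ^ 2) ≠ y * (a * b' ^ 2)

theorem NoRel.mirror {H a a' b b' : ℤ} (h : NoRel H a a' b b') : NoRel H a' a b' b :=
  fun x y h1 h2 h3 h4 h5 => h y x h3 h4 h1 h2 h5.symm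

theorem NoRel.mono {H H' a a' b b' : ℤ} (h : NoRel H a a' b b') (hH : H' ≤ H) :
    NoRel H' a a' b b' :=
  fun x y h1 h2 h3 h4 => h x y h1 (h2.trans hH) h3 (h4.trans hH)

theorem dvd_four_mul {c e : ℤ} (hc : 0 < c) (he : 0 < e) (h1 : e ∣ c) (h2 : c ∣ 4 * e) :
    ∃ k, c = k * e ∧ 0 < k ∧ k ≤ 4 := by
  obtain ⟨k, hk⟩ := h1
  have k0 : 0 < k := by
    rw [hk] at hc
    exact (mul_pos_iff_of_pos_left he).1 hc
  refine ⟨k, by rw [hk, mul_comm], k0, ?_⟩
  have h3 : c ≤ 4 * e := Int.le_of_dvd (by positivity) h2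
  rw [hk] at h3
  have h4 : e * k ≤ e * 4 := by linarith
  exact le_of_mul_le_mul_left h4 he

/-- **THE RATIO ARGUMENT** -/
theorem esc_arith {a a' d1 d2 t1 t2 e e' c1 c1' c2 c2' H W : ℤ} (he : 0 < e) (he' : 0 < e')
    (hc1 : 0 < c1) (hc1' : 0 < c1') (hc2 : 0 < c2) (hc2' : 0 < c2')
    (g1 : e ∣ c1) (g2 : c1 ∣ 4 * e) (g3 : e ∣ c2) (g4 : c2 ∣ 4 * e)
    (g1' : e' ∣ c1') (g2' : c1' ∣ 4 * e') (g3' : e' ∣ c2') (g4' : c2' ∣ 4 * e')
    (ht : t1 ≠ t2) (hP : 1024 * H ^ 2 * W < a' + t1 * d2) (hQ : 1024 * H ^ 2 * W < a + t1 * d1)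
    (hPW : |t1 * d2 - t2 * d2| ≤ W) (hQW : |t1 * d1 - t2 * d1| ≤ W)
    (r1 : ¬ NoRel H (a + t1 * d1) (a' + t1 * d2) c1 c1')
    (r2 : ¬ NoRel H (a + t2 * d1) (a' + t2 * d2) c2 c2') : a' * d1 = a * d2 := by
  obtain ⟨k1, hk1, p1, p2⟩ := dvd_four_mul hc1 he g1 g2
  obtain ⟨k2, hk2, p3, p4⟩ := dvd_four_mul hc2 he g3 g4
  obtain ⟨k1', hk1', p1', p2'⟩ := dvd_four_mul hc1' he' g1' g2'
  obtain ⟨k2', hk2', p3', p4'⟩ := dvd_four_mul hc2' he' g3' g4'
  unfold NoRel at r1 r2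
  push Not at r1 r2
  obtain ⟨x, y, x0, xH, y0, yH, hr1⟩ := r1
  obtain ⟨x', y', x0', xH', y0', yH', hr2⟩ := r2
  have sq16 : ∀ k : ℤ, 0 < k → k ≤ 4 → k ^ 2 ≤ 16 := by
    intro k h1 h2
    have : k ^ 2 ≤ 4 ^ 2 := pow_le_pow_left₀ h1.le h2 2
    linarith
  have hgt : ∀ k x : ℤ, 0 < k → k ≤ 4 → 0 < x → x ≤ H → x * k ^ 2 ≤ 16 * H := by
    intro k x h1 h2 h3 h4
    calc x * k ^ 2 ≤ H * 16 := mul_le_mul h4 (sq16 k h1 h2) (sq_nonneg k) (by linarith)
      _ = 16 * H := by ring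
  have key := ratio_eq (P := a' + t1 * d2) (P' := a' + t2 * d2) (Q := a + t1 * d1)
    (Q' := a + t2 * d1) (x := x * k1 ^ 2) (y := y * k1' ^ 2) (x' := x' * k2 ^ 2)
    (y' := y' * k2' ^ 2) (s := e ^ 2) (t := e' ^ 2) (H := 16 * H) (W := W)
    (D := 1024 * H ^ 2 * W + 1) (by linarith) (by linarith) (by positivity) (by positivity)
    (by positivity) (by positivity) (hgt _ _ p3 p4 x0' xH') (hgt _ _ p1' p2' y0 yH)
    (by
      rw [hk1, hk1'] at hr1
      linear_combination hr1)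
    (by
      rw [hk2, hk2'] at hr2
      linear_combination hr2)
    (by rw [add_sub_add_left_eq_sub]; exact hPW) (by rw [add_sub_add_left_eq_sub]; exact hQW)
    (by
      have : 4 * (16 * H) ^ 2 * W = 1024 * H ^ 2 * W := by ring
      rw [this]
      linarith)
  have h1 := key.2
  have h2 : (t2 - t1) * (a' * d1 - a * d2) = 0 := by linear_combination h1
  rcases mul_eq_zero.1 h2 with h3 | h3
  · exact absurd (by linarith : t1 = t2) ht
  · linarith

/-- **The tree over `u + t g`**, with its contents as linear forms in `t` -/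
theorem Has6.line (hT : Has6 O (u, v, l, q, m, s)) {x y x' y' i1 j1 t : ℤ}
    (hxy : IsCoprime y x) (hxy' : IsCoprime y' x') (hl : l1 = y • l + x • (u + q))
    (hm : m1 = y' • m + x' • (u + s)) (wl : 0 < cr u l1) (wl2 : cr u l1 < cr u l + cr q l)
    (wm : 0 < cr u m1) (wm2 : cr u m1 < cr u m + cr s m) (hj : j1 * j1 = 1)
    (hg : g = i1 • u + j1 • (v + l1 + m1)) (z1 : 0 < cr (u + t • g) l1)
    (z2 : 0 < cr (u + t • g) m1)
    (z3 : cr (u + t • g) l1 + cr (u + t • g) m1 < cr u (v + l1 + m1)) :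
    ∃ v' q1 s1, Has6 O (u + t • g, v', l1, q1, m1, s1) ∧
      vol6 (u + t • g, v', l1, q1, m1, s1) = vol6 (u, v, l, q, m, s) ∧
      lat (u + t • g) (v' + l1 + m1) = lat u (v + l1 + m1) ∧
      lat l1 (u + q1) = lat l (u + q) ∧ lat m1 (u + s1) = lat m (u + s) ∧
      ct (u + t • g) l1 q1 =
        Int.gcd (cr u l + t * cr g (l + x • u)) (cr u q + t * cr g (u + q - y • u)) ∧
      ct (u + t • g) m1 s1 =
        Int.gcd (cr u m + t * cr g (m + x' • u)) (cr u s + t * cr g (u + s - y' • u)) ∧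
      cr (u + t • g) v' = cr u v + cr u l1 + cr u m1 - cr (u + t • g) l1 - cr (u + t • g) m1 ∧
      cr (u + t • g) l1 + cr q1 l1 = cr u l + cr q l + t * cr g l1 ∧
      cr (u + t • g) m1 + cr s1 m1 = cr u m + cr s m + t * cr g m1 := by
  have e1 : cr u (v + l1 + m1) = cr u v + cr u l1 + cr u m1 := by
    rw [cr_addr, cr_addr]
  have hz : u + t • g = (1 + t * i1) • u + (t * j1) • (v + l1 + m1) := by
    rw [hg]; module
  have hij : IsCoprime (1 + t * i1) (t * j1) := by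
    refine ⟨1, -(i1 * j1), ?_⟩
    have : -(i1 * j1) * (t * j1) = -(i1 * t) * (j1 * j1) := by ring
    rw [this, hj]
    ring
  have f : ∀ w : Z2, cr (u + t • g) w = cr u w + t * cr g w := by
    intro w
    rw [cr_add_left, cr_smul_left]
  obtain ⟨v', q1, s1, c1, c2, c3, c4, c5, c6, c7, c8, c9, c10⟩ := hT.exitF hxy hxy' hl hm wl wl2
    wm wm2 hij hz z1 z2 (by rw [← e1]; exact z3)
  refine ⟨v', q1, s1, c1, c2, c3, c4, c5, ?_, ?_, c8, ?_, ?_⟩
  · rw [c6, f, f]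
    have h1 : cr u (l + x • u) = cr u l := by
      rw [cr_addr, cr_smul_right, cr_self', mul_zero, add_zero]
    have h2 : cr u (u + q - y • u) = cr u q := by
      simp only [cr, Prod.fst_add, Prod.snd_add, Prod.fst_sub, Prod.snd_sub, Prod.smul_fst,
        Prod.smul_snd, smul_eq_mul]
      ring
    rw [h1, h2]
  · rw [c7, f, f]
    have h1 : cr u (m + x' • u) = cr u m := by
      rw [cr_addr, cr_smul_right, cr_self', mul_zero, add_zero]
    have h2 : cr u (u + s - y' • u) = cr u s := by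
      simp only [cr, Prod.fst_add, Prod.snd_add, Prod.fst_sub, Prod.snd_sub, Prod.smul_fst,
        Prod.smul_snd, smul_eq_mul]
      ring
    rw [h1, h2]
  · rw [c9, f]; ring
  · rw [c10, f]; ring

/-- the resultant of the two forms -/
theorem line_res {x y : ℤ} (hl : l1 = y • l + x • (u + q)) :
    cr u l * cr g (u + q - y • u) - cr u q * cr g (l + x • u) =
      -(cr u g * (cr u l + cr q l - cr u l1)) := by
  rw [hl]
  simp only [cr, Prod.fst_add, Prod.snd_add, Prod.fst_sub, Prod.snd_sub, Prod.smul_fst,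
    Prod.smul_snd, smul_eq_mul]
  ring

/-- **(E) THE ESCAPE LEMMA.** A progression of centres `u + t g`, `0 ≤ t ≤ K`, of the pair
`(l₁, m₁)` along which the areas do not move proportionally. Then one of them carries no relation
of height `≤ H`, and its contents are the old ones up to a divisor of `4`; odd contents and a
primitive `u` are kept. -/
theorem Has6.escape (hT : Has6 O (u, v, l, q, m, s)) {N : ℤ} {J Z : ℕ} (hcap : Cap J Z)
    (hZ : (2 * N) ^ 20 ≤ (Z : ℤ)) (hN : vol6 (u, v, l, q, m, s) = N)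
    {x y x' y' i1 j1 K H : ℤ}
    (hxy : IsCoprime y x) (hxy' : IsCoprime y' x') (hl : l1 = y • l + x • (u + q))
    (hm : m1 = y' • m + x' • (u + s)) (wl : 0 < cr u l1) (wm : 0 < cr u m1)
    (hj : j1 * j1 = 1) (hg : g = i1 • u + j1 • (v + l1 + m1))
    (hK : 192 * (J : ℤ) ^ 2 ≤ K)
    (hc : ∀ t : ℤ, 0 ≤ t → t ≤ K → 0 < cr (u + t • g) l1 ∧ 0 < cr (u + t • g) m1 ∧
      cr (u + t • g) l1 + cr (u + t • g) m1 < cr u (v + l1 + m1))
    (hne : (cr u m + cr s m) * cr g l1 ≠ (cr u l + cr q l) * cr g m1) (hH : 1 ≤ H)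
    (ha : 1025 * H ^ 2 * (cr u v + cr u l1 + cr u m1) ≤ cr u l + cr q l)
    (ha' : 1025 * H ^ 2 * (cr u v + cr u l1 + cr u m1) ≤ cr u m + cr s m) :
    ∃ t z v' q1 s1, 0 ≤ t ∧ t ≤ K ∧ z = u + t • g ∧ Has6 O (z, v', l1, q1, m1, s1) ∧
      vol6 (z, v', l1, q1, m1, s1) = N ∧
      lat z (v' + l1 + m1) = lat u (v + l1 + m1) ∧
      lat l1 (u + q1) = lat l (u + q) ∧ lat m1 (u + s1) = lat m (u + s) ∧
      NoRel H (cr z l1 + cr q1 l1) (cr z m1 + cr s1 m1) (ct z l1 q1) (ct z m1 s1) ∧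
      ct z l1 q1 ∣ 4 * ct u l q ∧ ct z m1 s1 ∣ 4 * ct u m s ∧
      (¬ (2 : ℤ) ∣ ct u l q → ct z l1 q1 ∣ ct u l q) ∧
      (¬ (2 : ℤ) ∣ ct u m s → ct z m1 s1 ∣ ct u m s) ∧
      (IsCoprime u.1 u.2 → IsCoprime z.1 z.2) ∧
      0 < cr z l1 ∧ 0 < cr z m1 ∧ 0 < cr z v' ∧
      cr z v' + cr z l1 + cr z m1 = cr u v + cr u l1 + cr u m1 ∧
      cr q1 l1 = cr u l + cr q l - cr u l1 ∧ cr s1 m1 = cr u m + cr s m - cr u m1 := by
  have pos := hT.pos
  obtain ⟨W, hW⟩ : ∃ W, W = cr u v + cr u l1 + cr u m1 := ⟨_, rfl⟩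
  rw [← hW] at ha ha'
  have e1 : cr u (v + l1 + m1) = W := by rw [cr_addr, cr_addr, hW]
  have W0 : 0 < W := by rw [hW]; linarith [pos.1]
  have hH2 : 1 ≤ H ^ 2 := one_le_pow₀ hH
  have hHW : W ≤ H ^ 2 * W := by
    have := mul_le_mul_of_nonneg_right hH2 W0.le
    linarith
  have wl2 : cr u l1 < cr u l + cr q l := by
    have h1 : cr u l1 < W := by rw [hW]; linarith [pos.1]
    linarith
  have wm2 : cr u m1 < cr u m + cr s m := by
    have h1 : cr u m1 < W := by rw [hW]; linarith [pos.1]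
    linarith
  have hNe : cr u v + (cr u l + cr q l) + (cr u m + cr s m) = N := by
    rw [← hN]; simp only [vol6]; ring
  have hN0 : 0 < N := by linarith [pos.1]
  have hWN : W ≤ N := by linarith [pos.1]
  have hug : cr u g = j1 * W := by
    rw [hg, cr_addr, cr_smul_right, cr_self', mul_zero, zero_add, cr_smul_right, e1]
  have hj1 : |j1| = 1 := by
    have h1 : |j1| * |j1| = 1 := by rw [← abs_mul, hj, abs_one]
    nlinarith [abs_nonneg j1]
  have habs : |cr u g| = W := by rw [hug, abs_mul, hj1, abs_of_pos W0, one_mul]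
  have hug0 : cr u g ≠ 0 := by
    rw [← abs_pos, habs]; exact W0
  -- the resultants
  have R1 := line_res (g := g) hl
  have R2 := line_res (g := g) hm
  have b1 : |cr u l * cr g (u + q - y • u) - cr u q * cr g (l + x • u)| ≤ N * N := by
    rw [R1, abs_neg, abs_mul, habs, abs_of_pos (by linarith : 0 < cr u l + cr q l - cr u l1)]
    exact mul_le_mul hWN (by linarith [pos.1]) (by linarith) hN0.le
  have b2 : |cr u m * cr g (u + s - y' • u) - cr u s * cr g (m + x' • u)| ≤ N * N := by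
    rw [R2, abs_neg, abs_mul, habs, abs_of_pos (by linarith : 0 < cr u m + cr s m - cr u m1)]
    exact mul_le_mul hWN (by linarith [pos.1]) (by linarith) hN0.le
  have n1 : cr u l * cr g (u + q - y • u) - cr u q * cr g (l + x • u) ≠ 0 := by
    rw [R1]
    exact neg_ne_zero.2 (mul_ne_zero hug0 (by linarith))
  have n2 : cr u m * cr g (u + s - y' • u) - cr u s * cr g (m + x' • u) ≠ 0 := by
    rw [R2]
    exact neg_ne_zero.2 (mul_ne_zero hug0 (by linarith))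
  -- the third pair
  obtain ⟨X2, Y2, fX, fY, k1, k2, k3, k4⟩ : ∃ X2 Y2 fX fY : ℤ, IsCoprime X2 Y2 ∧
      X2 * fY - Y2 * fX ≠ 0 ∧ |X2 * fY - Y2 * fX| ≤ N ∧
      ∀ t : ℤ, IsCoprime (X2 + t * fX) (Y2 + t * fY) → IsCoprime u.1 u.2 →
        IsCoprime (u + t • g).1 (u + t • g).2 := by
    by_cases hu : IsCoprime u.1 u.2
    · refine ⟨u.1, u.2, g.1, g.2, hu, hug0, ?_, fun t h _ => by
        simpa [Prod.fst_add, Prod.snd_add, Prod.smul_fst, Prod.smul_snd, smul_eq_mul] using h⟩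
      have : |cr u g| ≤ N := by rw [habs]; exact hWN
      exact this
    · exact ⟨1, 0, 0, 1, isCoprime_one_left, by norm_num, by norm_num; linarith,
        fun t _ h => absurd h hu⟩
  have hX : 2 ^ 20 * (|cr u l * cr g (u + q - y • u) - cr u q * cr g (l + x • u)| *
      |cr u m * cr g (u + s - y' • u) - cr u s * cr g (m + x' • u)| *
      |X2 * fY - Y2 * fX|) ≤ (Z : ℤ) := by
    refine le_trans ?_ hZ
    have h1 : |cr u l * cr g (u + q - y • u) - cr u q * cr g (l + x • u)| *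
        |cr u m * cr g (u + s - y' • u) - cr u s * cr g (m + x' • u)| ≤ N * N * (N * N) :=
      mul_le_mul b1 b2 (abs_nonneg _) (by positivity)
    have h2 : |cr u l * cr g (u + q - y • u) - cr u q * cr g (l + x • u)| *
        |cr u m * cr g (u + s - y' • u) - cr u s * cr g (m + x' • u)| *
        |X2 * fY - Y2 * fX| ≤ N * N * (N * N) * N :=
      mul_le_mul h1 k3 (abs_nonneg _) (by positivity)
    have h3 : N ^ 5 ≤ N ^ 20 := pow_le_pow_right₀ hN0 (by norm_num)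
    calc 2 ^ 20 * (|cr u l * cr g (u + q - y • u) - cr u q * cr g (l + x • u)| *
        |cr u m * cr g (u + s - y' • u) - cr u s * cr g (m + x' • u)| *
        |X2 * fY - Y2 * fX|) ≤ 2 ^ 20 * (N * N * (N * N) * N) := by
          exact mul_le_mul_of_nonneg_left h2 (by norm_num)
      _ = 2 ^ 20 * N ^ 5 := by ring
      _ ≤ 2 ^ 20 * N ^ 20 := by exact mul_le_mul_of_nonneg_left h3 (by norm_num)
      _ = (2 * N) ^ 20 := by ring
  obtain ⟨G, hG⟩ : ∃ G, G = gcd4 (cr u l) (cr u q) (12 * cr g (l + x • u))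
      (12 * cr g (u + q - y • u)) := ⟨_, rfl⟩
  obtain ⟨G', hG'⟩ : ∃ G', G' = gcd4 (cr u m) (cr u s) (12 * cr g (m + x' • u))
      (12 * cr g (u + s - y' • u)) := ⟨_, rfl⟩
  have gpos : ∀ a b c d : ℤ, 0 < a → 0 < gcd4 a b c d := by
    intro a b c d ha
    have h1 := (gcd4_dvd a b c d).1
    have h2 : 0 ≤ gcd4 a b c d := Int.natCast_nonneg _
    rcases h2.lt_or_eq with h3 | h3
    · exact h3
    · rw [← h3] at h1
      exact absurd (zero_dvd_iff.1 h1) ha.ne'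
  have Gp : 0 < G := by rw [hG]; exact gpos _ _ _ _ pos.2.1
  have Gp' : 0 < G' := by rw [hG']; exact gpos _ _ _ _ pos.2.2.1
  -- one good time
  have one : ∀ t : ℤ, 0 ≤ t → t ≤ K → (12 : ℤ) ∣ t →
      (∀ d : ℤ, d ∣ cr u l + t * cr g (l + x • u) → d ∣ cr u q + t * cr g (u + q - y • u) →
        d ∣ 4 * G) →
      (∀ d : ℤ, d ∣ cr u m + t * cr g (m + x' • u) → d ∣ cr u s + t * cr g (u + s - y' • u) →
        d ∣ 4 * G') → IsCoprime (X2 + t * fX) (Y2 + t * fY) →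
      ∃ z v' q1 s1, z = u + t • g ∧ Has6 O (z, v', l1, q1, m1, s1) ∧
      vol6 (z, v', l1, q1, m1, s1) = N ∧
      lat z (v' + l1 + m1) = lat u (v + l1 + m1) ∧
      lat l1 (u + q1) = lat l (u + q) ∧ lat m1 (u + s1) = lat m (u + s) ∧
      ct z l1 q1 ∣ 4 * ct u l q ∧ ct z m1 s1 ∣ 4 * ct u m s ∧
      (¬ (2 : ℤ) ∣ ct u l q → ct z l1 q1 ∣ ct u l q) ∧
      (¬ (2 : ℤ) ∣ ct u m s → ct z m1 s1 ∣ ct u m s) ∧
      (IsCoprime u.1 u.2 → IsCoprime z.1 z.2) ∧
      0 < cr z l1 ∧ 0 < cr z m1 ∧ 0 < cr z v' ∧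
      cr z v' + cr z l1 + cr z m1 = cr u v + cr u l1 + cr u m1 ∧
      cr q1 l1 = cr u l + cr q l - cr u l1 ∧ cr s1 m1 = cr u m + cr s m - cr u m1 ∧
      0 < ct z l1 q1 ∧ 0 < ct z m1 s1 ∧ G ∣ ct z l1 q1 ∧ ct z l1 q1 ∣ 4 * G ∧
      G' ∣ ct z m1 s1 ∧ ct z m1 s1 ∣ 4 * G' ∧
      cr z l1 + cr q1 l1 = cr u l + cr q l + t * cr g l1 ∧
      cr z m1 + cr s1 m1 = cr u m + cr s m + t * cr g m1 := by
    intro t t0 tK t12 f1 f2 f3
    obtain ⟨z1, z2, z3⟩ := hc t t0 tK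
    obtain ⟨v', q1, s1, c1, c2, c3, c4, c5, c6, c7, c8, c9, c10⟩ := hT.line hxy hxy' hl hm wl wl2
      wm wm2 hj hg z1 z2 z3
    have pos' := c1.pos
    have two : (2 : ℤ) ∣ t := (by norm_num : (2 : ℤ) ∣ 12).trans t12
    -- facts about one side
    have side : ∀ a b c d e E : ℤ, e = gcd4 a b (12 * c) (12 * d) →
        (∀ k : ℤ, k ∣ a + t * c → k ∣ b + t * d → k ∣ 4 * e) →
        E = Int.gcd (a + t * c) (b + t * d) → e ∣ E ∧ E ∣ 4 * e ∧ E ∣ 4 * (Int.gcd a b : ℤ) ∧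
          (¬ (2 : ℤ) ∣ (Int.gcd a b : ℤ) → E ∣ (Int.gcd a b : ℤ)) := by
      intro a b c d e E he hk hE
      obtain ⟨j1, j2, j3, j4⟩ := gcd4_dvd a b (12 * c) (12 * d)
      rw [← he] at j1 j2 j3 j4
      obtain ⟨τ, hτ⟩ := t12
      have e1 : e ∣ a + t * c := by
        have : t * c = τ * (12 * c) := by rw [hτ]; ring
        rw [this]
        exact dvd_add j1 (j3.mul_left _)
      have e2 : e ∣ b + t * d := by
        have : t * d = τ * (12 * d) := by rw [hτ]; ring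
        rw [this]
        exact dvd_add j2 (j4.mul_left _)
      have e3 : e ∣ (Int.gcd a b : ℤ) := Int.dvd_coe_gcd j1 j2
      have E1 : E ∣ a + t * c := by rw [hE]; exact Int.gcd_dvd_left _ _
      have E2 : E ∣ b + t * d := by rw [hE]; exact Int.gcd_dvd_right _ _
      have E3 : E ∣ 4 * e := hk E E1 E2
      refine ⟨by rw [hE]; exact Int.dvd_coe_gcd e1 e2, E3, E3.trans (mul_dvd_mul_left 4 e3), ?_⟩
      intro odd
      have odd' : ¬ (2 : ℤ) ∣ E := by
        intro h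
        apply odd
        refine Int.dvd_coe_gcd ?_ ?_
        · exact (dvd_add_left (two.mul_right c)).1 (h.trans E1)
        · exact (dvd_add_left (two.mul_right d)).1 (h.trans E2)
      have hcop : IsCoprime E 4 := by
        have h2 : IsCoprime (2 : ℤ) E := (Int.prime_two.coprime_iff_not_dvd).2 odd'
        have h4 : IsCoprime ((2 : ℤ) ^ 2) E := h2.pow_left
        norm_num at h4
        exact h4.symm
      exact (hcop.dvd_of_dvd_mul_left E3).trans e3
    obtain ⟨s1a, s1b, s1c, s1d⟩ := side _ _ _ _ G _ hG f1 c6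
    obtain ⟨s2a, s2b, s2c, s2d⟩ := side _ _ _ _ G' _ hG' f2 c7
    refine ⟨u + t • g, v', q1, s1, rfl, c1, by rw [c2, hN], c3, c4, c5, s1c, s2c, s1d, s2d,
      k4 t f3, z1, z2, pos'.1, by rw [c8]; ring, ?_, ?_, ct_pos z1, ct_pos z2, s1a, s1b, s2a, s2b,
      c9, c10⟩
    · have : cr (u + t • g) l1 = cr u l1 + t * cr g l1 := by rw [cr_add_left, cr_smul_left]
      linarith
    · have : cr (u + t • g) m1 = cr u m1 + t * cr g m1 := by rw [cr_add_left, cr_smul_left]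
      linarith
  -- two good times
  obtain ⟨t1, a1, a2, a3, a4, a5, a6⟩ := ap_gcd3 hcap n1 n2 k2 k1 hX 0
  obtain ⟨t2, a1', a2', a3', a4', a5', a6'⟩ := ap_gcd3 hcap n1 n2 k2 k1 hX ((J : ℤ) ^ 2)
  rw [← hG] at a4 a4'
  rw [← hG'] at a5 a5'
  have hJ2 : 0 ≤ (J : ℤ) ^ 2 := sq_nonneg _
  obtain ⟨z1, v1, q1, s1, B1, B2, B3, B4, B5, B6, B7, B8, B9, B10, B11, B12, B13, B14, B15, B16,
    B17, B18, B19, B20, B21, B22, B23, B24, B25⟩ :=
    one t1 (by linarith) (by linarith) a3 a4 a5 a6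
  obtain ⟨z2, v2, q2, s2, C1, C2, C3, C4, C5, C6, C7, C8, C9, C10, C11, C12, C13, C14, C15, C16,
    C17, C18, C19, C20, C21, C22, C23, C24, C25⟩ :=
    one t2 (by linarith) (by linarith) a3' a4' a5' a6'
  by_cases r1 : NoRel H (cr z1 l1 + cr q1 l1) (cr z1 m1 + cr s1 m1) (ct z1 l1 q1) (ct z1 m1 s1)
  · exact ⟨t1, z1, v1, q1, s1, by linarith, by linarith, B1, B2, B3, B4, B5, B6, r1, B7, B8, B9,
      B10, B11, B12, B13, B14, B15, B16, B17⟩
  by_cases r2 : NoRel H (cr z2 l1 + cr q2 l1) (cr z2 m1 + cr s2 m1) (ct z2 l1 q2) (ct z2 m1 s2)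
  · exact ⟨t2, z2, v2, q2, s2, by linarith, by linarith, C1, C2, C3, C4, C5, C6, r2, C7, C8, C9,
      C10, C11, C12, C13, C14, C15, C16, C17⟩
  exfalso
  apply hne
  rw [B24, B25] at r1
  rw [C24, C25] at r2
  have hd : ∀ t : ℤ, ∀ w : Z2, cr (u + t • g) w = cr u w + t * cr g w := by
    intro t w
    rw [cr_add_left, cr_smul_left]
  have x1 : cr u l1 + t1 * cr g l1 = cr z1 l1 := by rw [B1, hd]
  have x2 : cr u l1 + t2 * cr g l1 = cr z2 l1 := by rw [C1, hd]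
  have y1 : cr u m1 + t1 * cr g m1 = cr z1 m1 := by rw [B1, hd]
  have y2 : cr u m1 + t2 * cr g m1 = cr z2 m1 := by rw [C1, hd]
  refine esc_arith (t1 := t1) (t2 := t2) (H := H) (W := W) Gp Gp' B18 B19 C18 C19 B20 B21 C20 C21
    B22 B23 C22 C23 (by intro h; linarith) ?_ ?_ ?_ ?_ r1 r2
  · have h1 : cr u m + cr s m + t1 * cr g m1 = cr z1 m1 + (cr u m + cr s m - cr u m1) := by
      rw [← B25, ← B17]
    have h2 : cr u m1 < W := by rw [hW]; linarith [pos.1]
    have h3 : 1024 * H ^ 2 * W + W ≤ 1025 * H ^ 2 * W := by linarith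
    rw [h1]
    linarith
  · have h1 : cr u l + cr q l + t1 * cr g l1 = cr z1 l1 + (cr u l + cr q l - cr u l1) := by
      rw [← B24, ← B16]
    have h2 : cr u l1 < W := by rw [hW]; linarith [pos.1]
    have h3 : 1024 * H ^ 2 * W + W ≤ 1025 * H ^ 2 * W := by linarith
    rw [h1]
    linarith
  · rw [abs_le]
    constructor <;> linarith
  · rw [abs_le]
    constructor <;> linarith

end Pool.Agent.H4G.Six
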