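import Pool.Agent.H4G.Six.BMin

/-!
# Local conditions for one exit (D2, row G5: helper98, helper91; typed by helper14)

A tree `(u, v, l, q, m, s)` whose six vectors span the plane, `x = v + l + m`, `Λ = ⟨u, x⟩`,
`W = u × x`. For a prime `p`: when is every content `z × ⟨l, q⟩`, `z ∈ Λ`, divisible by `p`?
`GL_one`: conditions on `m` (one class modulo `p`) and `l` for `cont (Λ × ⟨l, q⟩) = 1`, for `u`
primitive. `loc_u`: the primes which divide `u`.
-/

set_option autoImplicit false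

namespace Pool.Agent.H4G.Six

open Pool.Agent.H4G

variable {p : ℤ} {u v l q m s x z a b : Z2}

/-- `p` divides the vector -/
def PDvd (p : ℤ) (u : Z2) : Prop := p ∣ u.1 ∧ p ∣ u.2

theorem PDvd.add (h1 : PDvd p a) (h2 : PDvd p b) : PDvd p (a + b) :=
  ⟨dvd_add h1.1 h2.1, dvd_add h1.2 h2.2⟩

theorem PDvd.smul (h : PDvd p a) (k : ℤ) : PDvd p (k • a) :=
  ⟨by rw [Prod.smul_fst, smul_eq_mul]; exact h.1.mul_left _,
    by rw [Prod.smul_snd, smul_eq_mul]; exact h.2.mul_left _⟩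

theorem PDvd.neg (h : PDvd p a) : PDvd p (-a) := ⟨(dvd_neg).2 h.1, (dvd_neg).2 h.2⟩

theorem PDvd.sub (h1 : PDvd p a) (h2 : PDvd p b) : PDvd p (a - b) :=
  ⟨dvd_sub h1.1 h2.1, dvd_sub h1.2 h2.2⟩

theorem PDvd.left (h : PDvd p a) (b : Z2) : p ∣ cr a b :=
  dvd_sub (h.1.mul_right _) (h.2.mul_right _)

theorem PDvd.right (h : PDvd p a) (b : Z2) : p ∣ cr b a :=
  dvd_sub (h.2.mul_left _) (h.1.mul_left _)

/-- vectors in the line of `u` modulo `p` -/
theorem par_mod (hp : Prime p) (hu : ¬ PDvd p u) (h1 : p ∣ cr u a) (h2 : p ∣ cr u b) :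
    p ∣ cr a b := by
  by_contra hc
  apply hu
  have e1 : u.1 * cr a b = a.1 * cr u b - b.1 * cr u a := by simp only [cr]; ring
  have e2 : u.2 * cr a b = a.2 * cr u b - b.2 * cr u a := by simp only [cr]; ring
  exact ⟨(hp.dvd_or_dvd (by rw [e1]; exact dvd_sub (h2.mul_left _) (h1.mul_left _))).resolve_right
      hc, (hp.dvd_or_dvd (by
      rw [e2]; exact dvd_sub (h2.mul_left _) (h1.mul_left _))).resolve_right hc⟩

/-- a vector with two products divisible by `p` -/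
theorem zero_mod (hp : Prime p) (hW : ¬ p ∣ cr u x) (h1 : p ∣ cr u a) (h2 : p ∣ cr x a) :
    PDvd p a := by
  have e1 : cr u x * a.1 = x.1 * cr u a - u.1 * cr x a := by simp only [cr]; ring
  have e2 : cr u x * a.2 = x.2 * cr u a - u.2 * cr x a := by simp only [cr]; ring
  exact ⟨(hp.dvd_or_dvd (by rw [e1]; exact dvd_sub (h1.mul_left _) (h2.mul_left _))).resolve_left
      hW, (hp.dvd_or_dvd (by
      rw [e2]; exact dvd_sub (h1.mul_left _) (h2.mul_left _))).resolve_left hW⟩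

/-- `p` divides all products with `u` -/
theorem span_mod {S : Set Z2} (hS : AddSubgroup.closure S = ⊤) (h : ∀ a ∈ S, p ∣ cr u a) :
    PDvd p u := by
  have key : ∀ z : Z2, p ∣ cr u z := by
    intro z
    have hz : z ∈ AddSubgroup.closure S := by rw [hS]; trivial
    induction hz using AddSubgroup.closure_induction with
    | mem x hx => exact h x hx
    | zero => simp [cr]
    | add x y _ _ hx hy => rw [cr_addr]; exact dvd_add hx hy
    | neg x _ hx => rw [cr_negr]; exact (dvd_neg).2 hx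
  have h1 := key (1, 0)
  have h2 := key (0, 1)
  simp only [cr, mul_one, mul_zero, zero_sub, sub_zero, dvd_neg] at h1 h2
  exact ⟨h2, h1⟩

theorem not_pdvd (hp : Prime p) (hu : IsCoprime u.1 u.2) : ¬ PDvd p u := fun h =>
  hp.not_isUnit (hu.isUnit_of_dvd' h.1 h.2)

/-- `(loc_A)`: `p ∣ b, b'` and `u ≠ 0`: `p` does not divide `A`. -/
theorem loc_A (hS : AddSubgroup.closure ({u, v, l, q, m, s} : Set Z2) = ⊤) (hu : ¬ PDvd p u)
    (hb : p ∣ ct u l q) (hb' : p ∣ ct u m s) : ¬ p ∣ cr u v := by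
  intro hA
  apply hu
  refine span_mod hS ?_
  rintro a (rfl | rfl | rfl | rfl | rfl | rfl)
  · rw [cr_self']; exact dvd_zero _
  · exact hA
  · exact hb.trans ct_dvd_left
  · exact hb.trans ct_dvd_right
  · exact hb'.trans ct_dvd_left
  · exact hb'.trans ct_dvd_right

/-- `(loc_W)` -/
theorem loc_W (hb : p ∣ ct u l q) : p ∣ cr u (v + l + m) ↔ p ∣ cr u v + cr u m := by
  have e : cr u (v + l + m) = cr u v + cr u m + cr u l := by rw [cr_addr, cr_addr]; ring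
  rw [e]
  exact (dvd_add_left (hb.trans ct_dvd_left))

/-- `(loc_L)`: every content over `⟨l, q⟩` is divisible by `p`. -/
theorem loc_L (hp : Prime p) (hu : ¬ PDvd p u) :
    (p ∣ cr u l ∧ p ∣ cr u q ∧ p ∣ cr x l ∧ p ∣ cr x q) ↔
      (p ∣ cr u l ∧ p ∣ cr u q ∧ (p ∣ cr u x ∨ PDvd p l ∧ PDvd p q)) := by
  constructor
  · rintro ⟨h1, h2, h3, h4⟩
    refine ⟨h1, h2, ?_⟩
    by_cases hW : p ∣ cr u x
    · exact Or.inl hW
    · exact Or.inr ⟨zero_mod hp hW h1 h3, zero_mod hp hW h2 h4⟩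
  · rintro ⟨h1, h2, h3⟩
    rcases h3 with h3 | ⟨h3, h4⟩
    · exact ⟨h1, h2, par_mod hp hu h3 h1, par_mod hp hu h3 h2⟩
    · exact ⟨h1, h2, h3.right _, h4.right _⟩

/-- `(loc_u)`: `p ∣ u` and all contents of both handles are divisible by `p`: `p ∣ x`. -/
theorem loc_u (hS : AddSubgroup.closure ({u, v, l, q, m, s} : Set Z2) = ⊤)
    (hu : PDvd p u) (h1 : p ∣ cr (v + l + m) l) (h2 : p ∣ cr (v + l + m) q)
    (h3 : p ∣ cr (v + l + m) m) (h4 : p ∣ cr (v + l + m) s) : PDvd p (v + l + m) := by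
  refine span_mod hS ?_
  rintro a (rfl | rfl | rfl | rfl | rfl | rfl)
  · exact hu.right _
  · have e : cr (a + l + m) a = -cr (a + l + m) l - cr (a + l + m) m := by
      simp only [cr, Prod.fst_add, Prod.snd_add]; ring
    rw [e]
    exact dvd_sub ((dvd_neg).2 h1) h3
  · exact h1
  · exact h2
  · exact h3
  · exact h4

/-- the gcd of four numbers is 1 -/
theorem gcd_four {a b c d : ℤ} (h : ∀ p : ℕ, p.Prime → ¬ ((p : ℤ) ∣ a ∧ (p : ℤ) ∣ b ∧ (p : ℤ) ∣ c ∧
    (p : ℤ) ∣ d)) : Int.gcd (Int.gcd a b) (Int.gcd c d) = 1 := by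
  by_contra hc
  obtain ⟨p, hp, hd⟩ := Nat.exists_prime_and_dvd hc
  have h0 : (p : ℤ) ∣ (Int.gcd (Int.gcd a b : ℤ) (Int.gcd c d : ℤ) : ℤ) := Int.natCast_dvd_natCast.2 hd
  have h1 : (p : ℤ) ∣ (Int.gcd a b : ℤ) := h0.trans (Int.gcd_dvd_left _ _)
  have h2 : (p : ℤ) ∣ (Int.gcd c d : ℤ) := h0.trans (Int.gcd_dvd_right _ _)
  exact h p hp ⟨h1.trans (Int.gcd_dvd_left _ _), h1.trans (Int.gcd_dvd_right _ _),
    h2.trans (Int.gcd_dvd_left _ _), h2.trans (Int.gcd_dvd_right _ _)⟩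

/-- **LOCAL CONDITIONS**: `cont (Λ × ⟨l, q⟩) = 1` for `u` primitive. `h1`: one class of `m` for the
primes dividing `b`, not `b'`. `h2`: `l ≠ 0` unless `L = 0` modulo `p`. -/
theorem GL_one (hS : AddSubgroup.closure ({u, v, l, q, m, s} : Set Z2) = ⊤)
    (hu : IsCoprime u.1 u.2)
    (h1 : ∀ p : ℕ, p.Prime → (p : ℤ) ∣ ct u l q → ¬ (p : ℤ) ∣ ct u m s →
      ¬ (p : ℤ) ∣ cr u v + cr u m)
    (h2 : ∀ p : ℕ, p.Prime → (p : ℤ) ∣ ct u l q → PDvd p l → PDvd p (u + q)) :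
    Int.gcd (Int.gcd (cr u l) (cr u q)) (Int.gcd (cr (v + l + m) l) (cr (v + l + m) q)) = 1 := by
  refine gcd_four fun p hp hc => ?_
  have hp' : Prime (p : ℤ) := Nat.prime_iff_prime_int.1 hp
  have hu' : ¬ PDvd p u := not_pdvd hp' hu
  obtain ⟨c1, c2, c3⟩ := (loc_L hp' hu').1 hc
  have hb : (p : ℤ) ∣ ct u l q := dvd_ct c1 c2
  rcases c3 with c3 | ⟨c3, c4⟩
  · have c5 := (loc_W hb).1 c3
    by_cases hb' : (p : ℤ) ∣ ct u m s
    · exact loc_A hS hu' hb hb' ((dvd_add_left (hb'.trans ct_dvd_left)).1 c5)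
    · exact h1 p hp hb hb' c5
  · have c6 := (h2 p hp hb c3).sub c4
    rw [add_sub_cancel_right] at c6
    exact hu' c6

/-- the mirror statement -/
theorem GM_one (hS : AddSubgroup.closure ({u, v, l, q, m, s} : Set Z2) = ⊤)
    (hu : IsCoprime u.1 u.2)
    (h1 : ∀ p : ℕ, p.Prime → (p : ℤ) ∣ ct u m s → ¬ (p : ℤ) ∣ ct u l q →
      ¬ (p : ℤ) ∣ cr u v + cr u l)
    (h2 : ∀ p : ℕ, p.Prime → (p : ℤ) ∣ ct u m s → PDvd p m → PDvd p (u + s)) :
    Int.gcd (Int.gcd (cr u m) (cr u s)) (Int.gcd (cr (v + l + m) m) (cr (v + l + m) s)) = 1 := by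
  have e : ({u, v, l, q, m, s} : Set Z2) = {u, v, m, s, l, q} := by
    ext z
    simp only [Set.mem_insert_iff, Set.mem_singleton_iff]
    tauto
  rw [e] at hS
  have e2 : v + l + m = v + m + l := by abel
  rw [e2]
  exact GL_one hS hu h1 h2

/-- the bad rows of `L`, `l = 0` and `q = 0` modulo `p`, in a basis `l₀, p₀` of `L`: they form at
most one class `(y, x)` modulo `p` if `u ≠ 0` -/
theorem bad_row {l0 p0 : Z2} {y x y2 x2 : ℤ} (hd : x2 * y - y2 * x = 1)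
    (hl : PDvd p (y • l0 + x • p0)) (hq : PDvd p (y2 • l0 + x2 • p0 - u)) :
    PDvd p (l0 + x • u) ∧ PDvd p (p0 - y • u) := by
  constructor
  · have e : l0 + x • u = x2 • (y • l0 + x • p0) - x • (y2 • l0 + x2 • p0 - u)
        + (1 - (x2 * y - y2 * x)) • l0 := by module
    rw [e, hd, sub_self, zero_smul, add_zero]
    exact (hl.smul _).sub (hq.smul _)
  · have e : p0 - y • u = y • (y2 • l0 + x2 • p0 - u) - y2 • (y • l0 + x • p0)
        + (1 - (x2 * y - y2 * x)) • p0 := by module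
    rw [e, hd, sub_self, zero_smul, add_zero]
    exact (hq.smul _).sub (hl.smul _)

end Pool.Agent.H4G.Six
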