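import Pool.Agent.H4G.Six.D2.G4
import Pool.Agent.H4G.Six.D2.Local14
import Pool.Agent.H4G.Six.NR.Frame

/-!
# Exits on the rows of centres (D2, rows G4 and G5; typed by helper14)

`RowsC`: helper69's rows of centres with the coordinate of the centres. `exit_rows`: on a row there
is a centre with both contents 1. `exit_rowsM`: a centre with content 1 over `M`.
-/

set_option autoImplicit false

namespace Pool.Agent.H4G.Six

open Pool.Agent.H4G

variable {X : Type} {O : PO X} {N : ℤ} {u v l q m s y z h g : Z2}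

/-- the row `n` is allowed -/
def RowOk (J K Q n : ℤ) : Prop := (Q = 1 ∧ n = 1) ∨ (J * Q ≤ n * K ∧ 2 * J * Q ≤ (Q - n) * K)

/-- rows of centres with the coordinate `n j + t Q` over `y` -/
structure RowsC (u v l m y : Z2) (J K : ℤ) (h g : Z2) (α j P Q : ℤ) : Prop where
  hh : h = α • u + j • y
  hg : g = P • u + Q • y
  det : α * Q - j * P = 1
  q0 : 0 < Q
  qK : Q ≤ K
  one : Q = 1 → P = 0
  app : K * |Q * cr y l + P * cr u l| ≤ cr u l
  row : ∀ n : ℤ, 0 < n → RowOk J K Q n → ∀ t : ℤ, 0 ≤ n * j + t * Q → n * j + t * Q < J * Q →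
    Lg u v l m (n • h + t • g)

/-- **the rows of centres** (as `rows_exist`) -/
theorem rowsC_exist {u v l m y : Z2} {ε κ ρ R J K : ℤ} (f0 : 0 < cr u v) (f1 : 0 < cr u l)
    (f2 : 0 < cr u m) (hε : ε = 1 ∨ ε = -1) (hρ : cr l m = ε * ρ) (ρ0 : 0 ≤ ρ)
    (hy : y = ε • (v + l + m) + κ • u) (hR : cr y l = -R) (hRl : ρ ≤ R)
    (hRu : 4 * R ≤ 3 * cr u l) (J1 : 1 ≤ J) (K8 : 8 * J ≤ K) (hK : K ^ 2 * ρ ≤ cr u l) :
    ∃ h g α j P Q, RowsC u v l m y J K h g α j P Q := by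
  have K0 : 0 < K := by linarith
  obtain ⟨p, q, q0, qK, hpq, hE⟩ := dirichletZ R (cr u l) f1 K0
  have hone : q = 1 → p = 0 := by
    intro hq
    rw [hq, one_mul] at hE
    rcases lt_trichotomy p 0 with h | h | h
    · exfalso
      have h1 : p * cr u l ≤ (-1) * cr u l := mul_le_mul_of_nonneg_right (by omega) f1.le
      have h2 : cr u l ≤ |R - p * cr u l| := by
        refine le_trans ?_ (le_abs_self _)
        linarith
      have h3 : K * cr u l ≤ K * |R - p * cr u l| := mul_le_mul_of_nonneg_left h2 K0.le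
      have h4 : 8 * cr u l ≤ K * cr u l := mul_le_mul_of_nonneg_right (by linarith) f1.le
      linarith
    · exact h
    · exfalso
      have h1 : 1 * cr u l ≤ p * cr u l := mul_le_mul_of_nonneg_right (by omega) f1.le
      have h2 : cr u l ≤ 4 * |R - p * cr u l| := by
        have h3 : p * cr u l - R ≤ |R - p * cr u l| := by
          rw [abs_sub_comm]; exact le_abs_self _
        linarith
      have h3 : K * cr u l ≤ K * (4 * |R - p * cr u l|) := mul_le_mul_of_nonneg_left h2 K0.le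
      have h4 : 8 * cr u l ≤ K * cr u l := mul_le_mul_of_nonneg_right (by linarith) f1.le
      linarith
  obtain ⟨a, b, hab⟩ := hpq
  refine ⟨b • u + (-a) • y, p • u + q • y, b, -a, p, q, rfl, rfl, by linarith, q0, qK, hone, ?_, ?_⟩
  · rw [hR]
    have : q * -R + p * cr u l = -(q * R - p * cr u l) := by ring
    rw [this, abs_neg]
    exact hE
  intro n n0 hn t jt0 jt1
  have hz : n • (b • u + (-a) • y) + t • (p • u + q • y) =
      (n * b + t * p) • u + (n * -a + t * q) • y := by module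
  have hW : cr u l + cr u m < cr u v + cr u l + cr u m := by linarith
  have hdet : (n * b + t * p) * q - (n * -a + t * q) * p = n := by
    linear_combination n * hab
  rcases hn with ⟨hq, hn⟩ | ⟨c1, c2⟩
  · have hp := hone hq
    have hE' : K * R ≤ cr u l := by
      rw [hq, hp, one_mul, zero_mul, sub_zero, abs_of_nonneg (le_trans ρ0 hRl)] at hE
      exact hE
    have hα : n * b + t * p = 1 := by
      rw [hq, hp] at hdet
      rw [hp]
      linarith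
    obtain ⟨e1, e2⟩ := row_one (F1 := cr u l) (F2 := cr u m)
      (W := cr u v + cr u l + cr u m) (ρ := ρ) (R := R) (J := J) (K := K) (α := n * b + t * p)
      (j := n * -a + t * q) f1 f2 hW hRl K8 hE' hα jt0
      (lt_of_lt_of_eq jt1 (by rw [hq, mul_one])) ρ0
    exact Lg.of_row f1 f2 f0 hε hρ ρ0 hy hR hz jt0 e1 e2
  · obtain ⟨e1, e2⟩ := row_core (W := cr u v + cr u l + cr u m) f1 f2 hW ρ0 hK J1 K8 q0 qK hE
      c1 c2 hdet jt0 jt1
    exact Lg.of_row f1 f2 f0 hε hρ ρ0 hy hR hz jt0 e1 e2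

variable {ε κ J K α j P Q : ℤ}

theorem RowsC.u_eq (hR : RowsC u v l m y J K h g α j P Q) : u = Q • h - j • g := by
  rw [hR.hh, hR.hg]
  have e : Q • (α • u + j • y) - j • (P • u + Q • y) = (α * Q - j * P) • u := by module
  rw [e, hR.det, one_smul]

theorem RowsC.y_eq (hR : RowsC u v l m y J K h g α j P Q) : y = α • g - P • h := by
  rw [hR.hh, hR.hg]
  have e : α • (P • u + Q • y) - P • (α • u + j • y) = (α * Q - j * P) • y := by module
  rw [e, hR.det, one_smul]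

theorem RowsC.cr_gh (hR : RowsC u v l m y J K h g α j P Q) : cr g h = -cr u y := by
  rw [hR.hh, hR.hg]
  have e : cr (P • u + Q • y) (α • u + j • y) = -((α * Q - j * P) * cr u y) := by
    simp only [cr, Prod.fst_add, Prod.snd_add, Prod.smul_fst, Prod.smul_snd, smul_eq_mul]
    ring
  rw [e, hR.det, one_mul]

/-- the coordinates of a vector of the row over `u`, `v + l + m` -/
theorem RowsC.coord (hR : RowsC u v l m y J K h g α j P Q)
    (hy : y = ε • (v + l + m) + κ • u) (n t : ℤ) :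
    n • h + t • g = (n * α + t * P + (n * j + t * Q) * κ) • u +
      ((n * j + t * Q) * ε) • (v + l + m) := by
  rw [hR.hh, hR.hg, hy]
  module

/-- no prime divides all products of the rows with `a`, `b` -/
theorem RowsC.gcd (hR : RowsC u v l m y J K h g α j P Q) (hε : ε = 1 ∨ ε = -1)
    (hy : y = ε • (v + l + m) + κ • u) {a b : Z2}
    (hG : Int.gcd (Int.gcd (cr u a) (cr u b))
      (Int.gcd (cr (v + l + m) a) (cr (v + l + m) b)) = 1) :
    ∀ r : ℕ, r.Prime → (r : ℤ) ∣ cr h a → (r : ℤ) ∣ cr h b → (r : ℤ) ∣ cr g a →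
      ¬ (r : ℤ) ∣ cr g b := by
  intro r hr h1 h2 h3 h4
  have hx : v + l + m = ε • y - (ε * κ) • u := by
    rw [hy]
    rcases hε with h | h <;> rw [h] <;> module
  have cu : ∀ a : Z2, (r : ℤ) ∣ cr h a → (r : ℤ) ∣ cr g a → (r : ℤ) ∣ cr u a := by
    intro a k1 k2
    have e : cr u a = Q * cr h a - j * cr g a := by
      conv_lhs => rw [hR.u_eq]
      simp only [cr, Prod.fst_sub, Prod.snd_sub, Prod.smul_fst, Prod.smul_snd, smul_eq_mul]
      ring
    rw [e]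
    exact dvd_sub (k1.mul_left _) (k2.mul_left _)
  have cy : ∀ a : Z2, (r : ℤ) ∣ cr h a → (r : ℤ) ∣ cr g a → (r : ℤ) ∣ cr (v + l + m) a := by
    intro a k1 k2
    have e : cr y a = α * cr g a - P * cr h a := by
      conv_lhs => rw [hR.y_eq]
      simp only [cr, Prod.fst_sub, Prod.snd_sub, Prod.smul_fst, Prod.smul_snd, smul_eq_mul]
      ring
    have e2 : cr (v + l + m) a = ε * cr y a - ε * κ * cr u a := by
      rw [hx]
      simp only [cr, Prod.fst_sub, Prod.snd_sub, Prod.smul_fst, Prod.smul_snd, smul_eq_mul]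
      ring
    rw [e2, e]
    exact dvd_sub ((dvd_sub (k2.mul_left _) (k1.mul_left _)).mul_left _) ((cu a k1 k2).mul_left _)
  have d1 := Int.dvd_coe_gcd (Int.dvd_coe_gcd (cu a h1 h3) (cu b h2 h4))
    (Int.dvd_coe_gcd (cy a h1 h3) (cy b h2 h4))
  rw [hG] at d1
  exact prime_not_dvd_one hr (by exact_mod_cast d1)

theorem Cap.mono {J J' X : ℕ} (h : Cap J X) (hJ : J ≤ J') : Cap J' X :=
  fun M hM hX => (h M hM hX).trans hJ

/-- the sieve for one pair of linear forms along a row -/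
theorem sieve_row1 {J X : ℕ} (hcap : Cap J X) {ph qh pg qg n : ℤ} (n0 : n ≠ 0)
    (hD : pg * qh - ph * qg ≠ 0) (hX : |n * (pg * qh - ph * qg)| ≤ X)
    (hp : ∀ r : ℕ, r.Prime → (r : ℤ) ∣ ph → (r : ℤ) ∣ qh → (r : ℤ) ∣ pg → ¬ (r : ℤ) ∣ qg)
    (hn : ∀ r : ℕ, r.Prime → (r : ℤ) ∣ n → ¬ ((r : ℤ) ∣ pg ∧ (r : ℤ) ∣ qg)) (t0 : ℤ) :
    ∃ t, t0 ≤ t ∧ t < t0 + J ∧ IsCoprime (pg * t + n * ph) (qg * t + n * qh) := by
  obtain ⟨t, t1, t2, t3⟩ := sievePair (k := 1) (e := 1) hcap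
    (D0 := |n * (pg * qh - ph * qg)|) (abs_pos.2 (mul_ne_zero n0 hD)) hX (by norm_num)
    (fun _ => pg) (fun _ => n * ph) (fun _ => qg) (fun _ => n * qh)
    (fun i => by
      rw [dvd_abs]
      refine ⟨1, ?_⟩
      ring)
    (fun r hpr _ => by
      left
      refine ⟨hpr.one_lt, fun i k1 k2 k3 k4 => ?_⟩
      by_cases hpn : (r : ℤ) ∣ n
      · exact hn r hpr hpn ⟨k1, k2⟩
      · have hc : ∀ w : ℤ, (r : ℤ) ∣ n * w → (r : ℤ) ∣ w := fun w hw =>
          ((Nat.prime_iff_prime_int.1 hpr).dvd_or_dvd hw).resolve_left hpn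
        exact hp r hpr (hc _ k3) (hc _ k4) k1 k2) t0
  rw [pow_one] at t2
  exact ⟨t, t1, t2, t3 0⟩

/-- products with a vector of the row -/
theorem cr_rowC (n t : ℤ) (a : Z2) : cr (n • h + t • g) a = cr g a * t + n * cr h a := by
  simp only [cr, Prod.fst_add, Prod.snd_add, Prod.smul_fst, Prod.smul_snd, smul_eq_mul]
  ring

/-- a legal vector with coprime products is the centre of a tree -/
theorem RowsC.tree (hT : TN O N u v l q m s) (hR : RowsC u v l m y J K h g α j P Q)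
    (hy : y = ε • (v + l + m) + κ • u) {n t : ℤ} {a b : Z2} (hz : z = n • h + t • g)
    (hL : Lg u v l m z) (hc : IsCoprime (cr z a) (cr z b)) :
    ∃ v', TN O N z v' l q m s ∧ cr z v' = cr u v + cr u l + cr u m - cr z l - cr z m ∧
      lat z (v' + l + m) = lat u (v + l + m) := by
  have hz' := hz.trans (hR.coord hy n t)
  obtain ⟨i, hi⟩ : ∃ i, i = n * α + t * P + (n * j + t * Q) * κ := ⟨_, rfl⟩
  obtain ⟨k, hk⟩ : ∃ k, k = (n * j + t * Q) * ε := ⟨_, rfl⟩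
  rw [← hi, ← hk] at hz'
  have hij : IsCoprime i k := by
    obtain ⟨a', b', hab⟩ := hc
    have e : ∀ a : Z2, cr z a = i * cr u a + k * cr (v + l + m) a := fun a => by
      rw [hz']
      simp only [cr, Prod.fst_add, Prod.snd_add, Prod.smul_fst, Prod.smul_snd, smul_eq_mul]
      ring
    rw [e a, e b] at hab
    exact ⟨a' * cr u a + b' * cr u b, a' * cr (v + l + m) a + b' * cr (v + l + m) b, by
      linear_combination hab⟩
  exact hT.center hij hz' hL.1 hL.2.1 hL.2.2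

/-- the first `t` of a row with coordinate `≥ i Q` -/
theorem row_start {Q : ℤ} (q0 : 0 < Q) (c i : ℤ) : ∃ t0 : ℤ, ∀ J' t : ℤ, t0 ≤ t → t < t0 + J' →
    i * Q ≤ c + t * Q ∧ c + t * Q < (i + J') * Q := by
  refine ⟨i - c / Q, fun J' t h1 h2 => ?_⟩
  have e1 := Int.emod_add_mul_ediv c Q
  have e2 := Int.emod_nonneg c q0.ne'
  have e3 := Int.emod_lt_of_pos c q0
  constructor
  · have : (i - c / Q) * Q ≤ t * Q := mul_le_mul_of_nonneg_right h1 q0.le
    linarith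
  · have : t * Q ≤ (i - c / Q + J' - 1) * Q := mul_le_mul_of_nonneg_right (by linarith) q0.le
    linarith

/-- **EXIT OVER `M`** on the rows: content 1 over `M` -/
theorem exit_rowsM {J J2 Y : ℕ} (hcap : Cap J Y) (hJ : J ≤ J2) (hT : TN O N u v l q m s)
    (hR : RowsC u v l m y J2 K h g α j P Q) (hε : ε = 1 ∨ ε = -1)
    (hy : y = ε • (v + l + m) + κ • u)
    (hGM : Int.gcd (Int.gcd (cr u m) (cr u s))
      (Int.gcd (cr (v + l + m) m) (cr (v + l + m) s)) = 1)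
    (J1 : 1 ≤ J2) (hK : 16 * (J2 : ℤ) ^ 2 ≤ K) (hX : K * N ^ 2 ≤ Y) :
    ∃ n, 0 < n ∧ n ≤ K ∧ ∀ i : ℤ, 0 ≤ i → i + J ≤ J2 → ∃ t z v', z = n • h + t • g ∧
      i * Q ≤ n * j + t * Q ∧ n * j + t * Q < J2 * Q ∧ Lg u v l m z ∧
      TN O N z v' l q m s ∧ cr z v' = cr u v + cr u l + cr u m - cr z l - cr z m ∧
      ct z m s = 1 := by
  obtain ⟨p1, p2, p3, p4, p5⟩ := hT.pos
  have hsum := hT.sum
  have K1 : (1 : ℤ) ≤ K := le_trans hR.q0 hR.qK
  obtain ⟨W, hW⟩ : ∃ W, W = cr u v + cr u l + cr u m := ⟨_, rfl⟩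
  have W0 : 0 < W := by rw [hW]; linarith
  have WN : W ≤ N := by rw [hW]; linarith
  have huy : cr u y = ε * W := by
    rw [hy, hW]
    simp only [cr, Prod.fst_add, Prod.snd_add, Prod.smul_fst, Prod.smul_snd, smul_eq_mul]
    ring
  have hdet : cr g m * cr h s - cr h m * cr g s = ε * W * cr s m := by
    have e : cr g m * cr h s - cr h m * cr g s = cr g h * cr m s := by simp only [cr]; ring
    rw [e, hR.cr_gh, huy, cr_swap' m s]
    ring
  have hεW : ε * W * cr s m ≠ 0 := by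
    rcases hε with h | h <;> rw [h] <;> simp <;> exact ⟨W0.ne', p5.ne'⟩
  have habs : |ε * W * cr s m| = W * cr s m := by
    rw [abs_mul, abs_mul, abs_of_pos W0, abs_of_pos p5]
    rcases hε with h | h <;> rw [h] <;> simp
  have hWs : W * cr s m ≤ N ^ 2 := by
    rw [sq]
    exact mul_le_mul WN (by linarith) p5.le (by linarith)
  have N2 : 0 < N ^ 2 := lt_of_lt_of_le (mul_pos W0 p5) hWs
  obtain ⟨n, n0, n1, n2, n3⟩ := good_row (Cap.mono hcap hJ) (K := K) (q := Q) hεW (by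
    rw [habs]
    have : 1 * N ^ 2 ≤ K * N ^ 2 := mul_le_mul_of_nonneg_right K1 N2.le
    linarith) J1 hK hR.q0 hR.qK
  refine ⟨n, n0, n1, fun i i0 i1 => ?_⟩
  obtain ⟨t0, ht0⟩ := row_start hR.q0 (n * j) i
  have hM := hR.gcd hε hy hGM
  obtain ⟨t, t1, t2, t3⟩ := sieve_row1 hcap (ph := cr h m) (qh := cr h s) (pg := cr g m)
    (qg := cr g s) n0.ne' (by rw [hdet]; exact hεW) (by
      rw [hdet, abs_mul, habs, abs_of_pos n0]
      have : n * (W * cr s m) ≤ K * N ^ 2 :=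
        mul_le_mul n1 hWs (mul_pos W0 p5).le (by linarith)
      linarith) hM (fun r hr hrn hc => by
      have : (r : ℤ) ∣ cr g m * cr h s - cr h m * cr g s :=
        dvd_sub (hc.1.mul_right _) (hc.2.mul_left _)
      rw [hdet] at this
      exact (Nat.prime_iff_prime_int.1 hr).not_isUnit (n2.isUnit_of_dvd' hrn this)) t0
  obtain ⟨t4, t5⟩ := ht0 J t t1 t2
  have t6 : n * j + t * Q < J2 * Q :=
    lt_of_lt_of_le t5 (mul_le_mul_of_nonneg_right i1 hR.q0.le)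
  have hLg := hR.row n n0 n3 t (le_trans (mul_nonneg i0 hR.q0.le) t4) t6
  rw [← cr_rowC, ← cr_rowC] at t3
  obtain ⟨v', k1, k2, -⟩ := RowsC.tree hT hR hy rfl hLg t3
  refine ⟨t, n • h + t • g, v', rfl, t4, t6, hLg, k1, k2, ?_⟩
  unfold ct
  exact_mod_cast Int.isCoprime_iff_gcd_eq_one.1 t3

/-- the classes modulo 2: if both classes `h + t g` are bad then `g` is good -/
theorem two_classes {a b c d a' b' c' d' : ℤ} (h1 : ¬ ((2 : ℤ) ∣ a ∧ (2 : ℤ) ∣ b ∧ (2 : ℤ) ∣ c ∧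
    (2 : ℤ) ∣ d)) (h2 : ¬ ((2 : ℤ) ∣ a' ∧ (2 : ℤ) ∣ b' ∧ (2 : ℤ) ∣ c' ∧ (2 : ℤ) ∣ d'))
    (h3 : ¬ ∃ t : ℤ, ¬ ((2 : ℤ) ∣ c * t + a ∧ (2 : ℤ) ∣ d * t + b) ∧
      ¬ ((2 : ℤ) ∣ c' * t + a' ∧ (2 : ℤ) ∣ d' * t + b')) :
    ¬ ((2 : ℤ) ∣ c ∧ (2 : ℤ) ∣ d) ∧ ¬ ((2 : ℤ) ∣ c' ∧ (2 : ℤ) ∣ d') := by
  have k0 : ((2 : ℤ) ∣ a ∧ (2 : ℤ) ∣ b) ∨ ((2 : ℤ) ∣ a' ∧ (2 : ℤ) ∣ b') := by
    by_contra hc
    push Not at hc
    refine h3 ⟨0, ?_, ?_⟩
    · rw [mul_zero, mul_zero, zero_add, zero_add]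
      exact fun h => hc.1 h.1 h.2
    · rw [mul_zero, mul_zero, zero_add, zero_add]
      exact fun h => hc.2 h.1 h.2
  have k1 : ((2 : ℤ) ∣ c + a ∧ (2 : ℤ) ∣ d + b) ∨ ((2 : ℤ) ∣ c' + a' ∧ (2 : ℤ) ∣ d' + b') := by
    by_contra hc
    push Not at hc
    refine h3 ⟨1, ?_, ?_⟩
    · rw [mul_one, mul_one]
      exact fun h => hc.1 h.1 h.2
    · rw [mul_one, mul_one]
      exact fun h => hc.2 h.1 h.2
  rcases k0 with ⟨a1, a2⟩ | ⟨a1, a2⟩ <;> rcases k1 with ⟨b1, b2⟩ | ⟨b1, b2⟩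
  · exact absurd ⟨a1, a2, by omega, by omega⟩ h1
  · refine ⟨fun hc => h1 ⟨a1, a2, hc.1, hc.2⟩, fun hc => h2 ⟨?_, ?_, hc.1, hc.2⟩⟩ <;> omega
  · refine ⟨fun hc => h1 ⟨?_, ?_, hc.1, hc.2⟩, fun hc => h2 ⟨a1, a2, hc.1, hc.2⟩⟩ <;> omega
  · exact absurd ⟨a1, a2, by omega, by omega⟩ h2

/-- **EXIT** on the rows: both contents 1. At 2: the denominator is at least 3, or some class of the
rows with `n` odd is good for both pairs. -/
theorem exit_rows {J J2 Y : ℕ} (hcap : Cap J Y) (hJ : J ≤ J2) (hT : TN O N u v l q m s)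
    (hR : RowsC u v l m y J2 K h g α j P Q) (hε : ε = 1 ∨ ε = -1)
    (hy : y = ε • (v + l + m) + κ • u)
    (hGL : Int.gcd (Int.gcd (cr u l) (cr u q))
      (Int.gcd (cr (v + l + m) l) (cr (v + l + m) q)) = 1)
    (hGM : Int.gcd (Int.gcd (cr u m) (cr u s))
      (Int.gcd (cr (v + l + m) m) (cr (v + l + m) s)) = 1)
    (J1 : 1 ≤ J2) (hK : 16 * (J2 : ℤ) ^ 2 ≤ K) (hX : 2 * K ^ 2 * N ^ 4 ≤ Y)
    (h2 : 3 ≤ Q ∨ ∃ t : ℤ, ¬ ((2 : ℤ) ∣ cr (h + t • g) l ∧ (2 : ℤ) ∣ cr (h + t • g) q) ∧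
      ¬ ((2 : ℤ) ∣ cr (h + t • g) m ∧ (2 : ℤ) ∣ cr (h + t • g) s)) :
    ∃ n, 0 < n ∧ n ≤ K ∧ ∀ i : ℤ, 0 ≤ i → i + J ≤ J2 → ∃ t z v', z = n • h + t • g ∧
      i * Q ≤ n * j + t * Q ∧ n * j + t * Q < J2 * Q ∧ Lg u v l m z ∧
      TN O N z v' l q m s ∧ cr z v' = cr u v + cr u l + cr u m - cr z l - cr z m ∧
      ct z l q = 1 ∧ ct z m s = 1 := by
  obtain ⟨p1, p2, p3, p4, p5⟩ := hT.pos
  have hsum := hT.sum
  have K1 : (1 : ℤ) ≤ K := le_trans hR.q0 hR.qK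
  obtain ⟨W, hW⟩ : ∃ W, W = cr u v + cr u l + cr u m := ⟨_, rfl⟩
  have W0 : 0 < W := by rw [hW]; linarith
  have WN : W ≤ N := by rw [hW]; linarith
  have huy : cr u y = ε * W := by
    rw [hy, hW]
    simp only [cr, Prod.fst_add, Prod.snd_add, Prod.smul_fst, Prod.smul_snd, smul_eq_mul]
    ring
  have hdetM : cr g m * cr h s - cr h m * cr g s = ε * W * cr s m := by
    have e : cr g m * cr h s - cr h m * cr g s = cr g h * cr m s := by simp only [cr]; ring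
    rw [e, hR.cr_gh, huy, cr_swap' m s]
    ring
  have hdetL : cr g l * cr h q - cr h l * cr g q = ε * W * cr q l := by
    have e : cr g l * cr h q - cr h l * cr g q = cr g h * cr l q := by simp only [cr]; ring
    rw [e, hR.cr_gh, huy, cr_swap' l q]
    ring
  have hεM : ε * W * cr s m ≠ 0 := by
    rcases hε with h | h <;> rw [h] <;> simp <;> exact ⟨W0.ne', p5.ne'⟩
  have hεL : ε * W * cr q l ≠ 0 := by
    rcases hε with h | h <;> rw [h] <;> simp <;> exact ⟨W0.ne', p4.ne'⟩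
  have habsM : |ε * W * cr s m| = W * cr s m := by
    rw [abs_mul, abs_mul, abs_of_pos W0, abs_of_pos p5]
    rcases hε with h | h <;> rw [h] <;> simp
  have habsL : |ε * W * cr q l| = W * cr q l := by
    rw [abs_mul, abs_mul, abs_of_pos W0, abs_of_pos p4]
    rcases hε with h | h <;> rw [h] <;> simp
  have hWs : W * cr s m ≤ N ^ 2 := by
    rw [sq]
    exact mul_le_mul WN (by linarith) p5.le (by linarith)
  have hWq : W * cr q l ≤ N ^ 2 := by
    rw [sq]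
    exact mul_le_mul WN (by linarith) p4.le (by linarith)
  have N2 : 0 < N ^ 2 := lt_of_lt_of_le (mul_pos W0 p5) hWs
  have hWW : W * cr q l * (W * cr s m) ≤ N ^ 4 := by
    have e : N ^ 4 = N ^ 2 * N ^ 2 := by ring
    rw [e]
    exact mul_le_mul hWq hWs (mul_pos W0 p5).le N2.le
  have hL := hR.gcd hε hy hGL
  have hM := hR.gcd hε hy hGM
  -- the row
  obtain ⟨D, hD⟩ : ∃ D, D = 2 * (ε * W * cr q l) * (ε * W * cr s m) := ⟨_, rfl⟩
  have hD0 : D ≠ 0 := by rw [hD]; exact mul_ne_zero (mul_ne_zero (by norm_num) hεL) hεM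
  have hDa : |D| ≤ Y := by
    rw [hD, abs_mul, abs_mul, habsL, habsM]
    have e1 : |(2 : ℤ)| = 2 := by norm_num
    rw [e1]
    have e2 : 2 * N ^ 4 ≤ 2 * K ^ 2 * N ^ 4 := by
      have : (1 : ℤ) ≤ K ^ 2 := one_le_pow₀ K1
      have h4 : 0 < N ^ 4 := by
        have : N ^ 4 = N ^ 2 * N ^ 2 := by ring
        rw [this]; exact mul_pos N2 N2
      nlinarith
    linarith
  have hrow : ∃ n : ℤ, 0 < n ∧ n ≤ K ∧ RowOk J2 K Q n ∧
      (∀ r : ℕ, r.Prime → (r : ℤ) ∣ n → ¬ ((r : ℤ) ∣ cr g l ∧ (r : ℤ) ∣ cr g q) ∧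
        ¬ ((r : ℤ) ∣ cr g m ∧ (r : ℤ) ∣ cr g s)) ∧
      (¬ (2 : ℤ) ∣ n → ∃ t : ℤ, ¬ ((2 : ℤ) ∣ cr g l * t + cr h l ∧ (2 : ℤ) ∣ cr g q * t + cr h q) ∧
        ¬ ((2 : ℤ) ∣ cr g m * t + cr h m ∧ (2 : ℤ) ∣ cr g s * t + cr h s)) := by
    have hgood : ∀ n' : ℤ, IsCoprime n' D → ∀ r : ℕ, r.Prime → (r : ℤ) ∣ n' →
        ¬ ((r : ℤ) ∣ cr g l ∧ (r : ℤ) ∣ cr g q) ∧ ¬ ((r : ℤ) ∣ cr g m ∧ (r : ℤ) ∣ cr g s) := by
      intro n' hn' r hr hrn
      have hrD : ¬ (r : ℤ) ∣ D := fun hd =>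
        (Nat.prime_iff_prime_int.1 hr).not_isUnit (hn'.isUnit_of_dvd' hrn hd)
      constructor
      · rintro ⟨c1, c2⟩
        apply hrD
        have : (r : ℤ) ∣ cr g l * cr h q - cr h l * cr g q :=
          dvd_sub (c1.mul_right _) (c2.mul_left _)
        rw [hdetL] at this
        rw [hD]
        exact (this.mul_left 2).mul_right _
      · rintro ⟨c1, c2⟩
        apply hrD
        have : (r : ℤ) ∣ cr g m * cr h s - cr h m * cr g s :=
          dvd_sub (c1.mul_right _) (c2.mul_left _)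
        rw [hdetM] at this
        rw [hD]
        exact this.mul_left _
    by_cases hcl : ∃ t : ℤ, ¬ ((2 : ℤ) ∣ cr g l * t + cr h l ∧ (2 : ℤ) ∣ cr g q * t + cr h q) ∧
        ¬ ((2 : ℤ) ∣ cr g m * t + cr h m ∧ (2 : ℤ) ∣ cr g s * t + cr h s)
    · obtain ⟨n, n0, n1, n2, n3⟩ := good_row (Cap.mono hcap hJ) (K := K) (q := Q) hD0 hDa J1 hK
        hR.q0 hR.qK
      exact ⟨n, n0, n1, n3, hgood n n2, fun _ => hcl⟩
    · have q3 : 3 ≤ Q := by
        rcases h2 with h2 | ⟨t, h3, h4⟩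
        · exact h2
        · exfalso
          apply hcl
          have e : ∀ a : Z2, cr (h + t • g) a = cr g a * t + cr h a := fun a => by
            simp only [cr, Prod.fst_add, Prod.snd_add, Prod.smul_fst, Prod.smul_snd, smul_eq_mul]
            ring
          rw [e, e] at h3 h4
          exact ⟨t, h3, h4⟩
      have n2L : ¬ ((2 : ℤ) ∣ cr h l ∧ (2 : ℤ) ∣ cr h q ∧ (2 : ℤ) ∣ cr g l ∧ (2 : ℤ) ∣ cr g q) :=
        fun hc => hL 2 Nat.prime_two (by exact_mod_cast hc.1) (by exact_mod_cast hc.2.1)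
          (by exact_mod_cast hc.2.2.1) (by exact_mod_cast hc.2.2.2)
      have n2M : ¬ ((2 : ℤ) ∣ cr h m ∧ (2 : ℤ) ∣ cr h s ∧ (2 : ℤ) ∣ cr g m ∧ (2 : ℤ) ∣ cr g s) :=
        fun hc => hM 2 Nat.prime_two (by exact_mod_cast hc.1) (by exact_mod_cast hc.2.1)
          (by exact_mod_cast hc.2.2.1) (by exact_mod_cast hc.2.2.2)
      obtain ⟨g1, g2⟩ := two_classes n2L n2M hcl
      obtain ⟨n, n0, n1, n2, n3⟩ := good_row2 (Cap.mono hcap hJ) (K := K) (q := Q) hD0 hDa J1 hK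
        q3 hR.qK
      refine ⟨2 * n, by linarith, n1, Or.inr n3, fun r hr hrn => ?_, fun hn => absurd
        (dvd_mul_right 2 n) hn⟩
      rcases (Nat.prime_iff_prime_int.1 hr).dvd_or_dvd hrn with h5 | h5
      · have hr2 : r = 2 := by
          have : r ∣ 2 := by exact_mod_cast h5
          exact (Nat.prime_dvd_prime_iff_eq hr Nat.prime_two).1 this
        subst hr2
        exact ⟨by exact_mod_cast g1, by exact_mod_cast g2⟩
      · exact hgood n n2 r hr h5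
  obtain ⟨n, n0, n1, n3, n4, n5⟩ := hrow
  refine ⟨n, n0, n1, fun i i0 i1 => ?_⟩
  obtain ⟨t0, ht0⟩ := row_start hR.q0 (n * j) i
  obtain ⟨t, t1, t2, t3, t3'⟩ := sieve_row hcap (ph := cr h l) (qh := cr h q) (pg := cr g l)
    (qg := cr g q) (ph' := cr h m) (qh' := cr h s) (pg' := cr g m) (qg' := cr g s) n0.ne'
    (by rw [hdetL]; exact hεL) (by rw [hdetM]; exact hεM) (by
      rw [hdetL, hdetM, abs_mul, abs_mul, abs_mul n, habsL, habsM, abs_of_pos n0]
      have e1 : n * (W * cr q l) * (n * (W * cr s m)) = n ^ 2 * (W * cr q l * (W * cr s m)) := by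
        ring
      rw [e1]
      have e2 : n ^ 2 ≤ K ^ 2 := pow_le_pow_left₀ n0.le n1 2
      have e3 : n ^ 2 * (W * cr q l * (W * cr s m)) ≤ K ^ 2 * N ^ 4 :=
        mul_le_mul e2 hWW (mul_pos (mul_pos W0 p4) (mul_pos W0 p5)).le (by positivity)
      have e4 : 0 ≤ K ^ 2 * N ^ 4 := by positivity
      linarith) hL hM n4 (fun hn => by
      obtain ⟨t, a1, a2⟩ := n5 hn
      have n22 : (2 : ℤ) ∣ n - 1 := by omega
      have key : ∀ w : ℤ, (2 : ℤ) ∣ n * w ↔ (2 : ℤ) ∣ w := fun w => by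
        have e : n * w = w + (n - 1) * w := by ring
        rw [e]
        exact dvd_add_left (n22.mul_right _)
      have key2 : ∀ c w : ℤ, (2 : ℤ) ∣ c + n * w ↔ (2 : ℤ) ∣ c + w := fun c w => by
        have e : c + n * w = (c + w) + (n - 1) * w := by ring
        rw [e]
        exact dvd_add_left (n22.mul_right _)
      exact ⟨t, by rw [key2, key2]; exact a1, by rw [key2, key2]; exact a2⟩) t0
  obtain ⟨t4, t5⟩ := ht0 J t t1 t2
  have t6 : n * j + t * Q < J2 * Q :=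
    lt_of_lt_of_le t5 (mul_le_mul_of_nonneg_right i1 hR.q0.le)
  have hLg := hR.row n n0 n3 t (le_trans (mul_nonneg i0 hR.q0.le) t4) t6
  rw [← cr_rowC, ← cr_rowC] at t3 t3'
  obtain ⟨v', k1, k2, -⟩ := RowsC.tree hT hR hy rfl hLg t3
  refine ⟨t, n • h + t • g, v', rfl, t4, t6, hLg, k1, k2, ?_, ?_⟩
  · unfold ct
    exact_mod_cast Int.isCoprime_iff_gcd_eq_one.1 t3
  · unfold ct
    exact_mod_cast Int.isCoprime_iff_gcd_eq_one.1 t3'

end Pool.Agent.H4G.Six
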