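import Pool.Agent.H4G.Six.Can.Half

/-!
# Exits with explicit contents (helper88)

`NF A a c z x` is the state `u = (1, 0)`, `v = (0, A)`, `L = aℤ × ℤ`, `M = ⟨(x, c), (z, 0)⟩`.
-/

set_option autoImplicit false

namespace Pool.Agent.H4G.Six

open Pool.Agent.H4G Matrix MatrixGroups

/-- the content of the new torus, `l = y e + x g` -/
theorem exit_cont {u u' e g l p : Z2} {x y pe pg W : ℤ} (hl : l = y • e + x • g)
    (hp : p = pe • e + pg • g) (hd : pg * y - pe * x = 1) (hW : W = cr u u')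
    (h : IsCoprime (cr u' e - x * W) (cr u' g + y * W)) :
    IsCoprime (cr u' l) (cr u' (p + (u' - u))) := by
  obtain ⟨s, t, hst⟩ := h
  refine ⟨s * pg - t * pe, t * y - s * x, ?_⟩
  have e1 : cr u' (p + (u' - u)) = pe * cr u' e + pg * cr u' g + W := by
    rw [hp, hW, cr_swap u u']
    simp only [cr_add_right, cr_sub_right, cr_smul_right, cr_self]; ring
  have e2 : cr u' l = y * cr u' e + x * cr u' g := by
    rw [hl]; simp only [cr_add_right, cr_smul_right]
  rw [e1, e2]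
  linear_combination hst + (s * cr u' e + t * cr u' g + (t * y - s * x) * W) * hd -
    (t * y - s * x) * W * hd

/-- the two bases of a lattice -/
theorem exit_basis {e g : Z2} {x y : ℤ} (h : IsCoprime x y) : ∃ pe pg : ℤ,
    pg * y - pe * x = 1 ∧ lat (y • e + x • g) (pe • e + pg • g) = lat e g ∧
      cr (pe • e + pg • g) (y • e + x • g) = cr g e := by
  obtain ⟨a, b, hab⟩ := h
  refine ⟨-a, b, by linarith, ?_, ?_⟩
  · exact closure_pair_eq (α := y) (β := x) (γ := -a) (δ := b) rfl rfl (Or.inl (by linarith))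
  · simp only [cr_add_left, cr_add_right, cr_smul_left, cr_smul_right, cr_self]
    have e3 : cr e g = -cr g e := cr_swap _ _
    rw [e3]
    linear_combination cr g e * hab

/-- the general exit: `u' = α u + k (v + l + m)` -/
theorem exit_pencil {u v l p m p' u' : Z2} {α k : ℤ} (h0 : 0 < cr u v) (h1 : 0 < cr u l)
    (h2 : cr u l < cr p l) (h3 : 0 < cr u m) (h4 : cr u m < cr p' m) (hαk : IsCoprime α k)
    (hu' : u' = α • u + k • (v + l + m)) (g1 : 0 < cr u' l) (g2 : 0 < cr u' m)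
    (g3 : cr u' l + cr u' m < cr u (v + l + m)) :
    ∃ v' : Z2, cr u' v' = cr u (v + l + m) - cr u' l - cr u' m ∧
      SEq6 ⟨lat l p, lat m p', u, v⟩
        ⟨lat l (p + (u' - u)), lat m (p' + (u' - u)), u', v'⟩ := by
  obtain ⟨δ, γ, hd⟩ := hαk
  set x : Z2 := v + l + m with hx
  set v' : Z2 := (-γ) • u + δ • x - l - m with hv'
  have e1 : cr u' (v' + l + m) = cr u x := by
    have : v' + l + m = (-γ) • u + δ • x := by rw [hv']; abel
    rw [this, hu']
    simp only [cr_add_left, cr_add_right, cr_smul_left, cr_smul_right, cr_self]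
    rw [cr_swap x u]
    linear_combination cr u x * hd
  have e2 : cr u' v' = cr u x - cr u' l - cr u' m := by
    simp only [cr_add_right] at e1; linarith
  refine ⟨v', e2, SEq6.pencil h0 rfl h1 h2 rfl h3 h4 (by rw [e2]; linarith) g1 g2 ?_⟩
  have e3 : v' + l + m = (-γ) • u + δ • x := by rw [hv']; abel
  rw [← hx, e3, hu']
  exact (closure_pair_eq (α := α) (β := k) (γ := -γ) (δ := δ) rfl rfl
    (Or.inl (by linarith))).symm

/-- **EXIT TO CONTENTS (1,1)** -/
theorem exit11 {u v u' l m e g e' g' : Z2} {x y w y' α k W a' a1' : ℤ} (h0 : 0 < cr u v)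
    (hxy : IsCoprime x y) (hwy : IsCoprime w y') (hl : l = y • e + x • g)
    (hm : m = y' • e' + w • g') (h1 : 0 < cr u l) (h2 : cr u l < cr g e)
    (h3 : 0 < cr u m) (h4 : cr u m < cr g' e') (hαk : IsCoprime α k)
    (hu' : u' = α • u + k • (v + l + m)) (hW : W = cr u u') (g1 : 0 < cr u' l)
    (g2 : 0 < cr u' m) (g3 : cr u' l + cr u' m < cr u (v + l + m))
    (ha' : a' = cr g e - cr u l + cr u' l) (ha1' : a1' = cr g' e' - cr u m + cr u' m)
    (cl : IsCoprime (cr u' e - x * W) (cr u' g + y * W))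
    (cm : IsCoprime (cr u' e' - w * W) (cr u' g' + y' * W)) :
    ∃ z : ℤ, SEq6 ⟨lat e g, lat e' g', u, v⟩
      (PG (cr u (v + l + m) - cr u' l - cr u' m) a' a1' z) := by
  obtain ⟨pe, pg, d1, d2, d3⟩ := exit_basis (e := e) (g := g) hxy
  obtain ⟨qe, qg, f1, f2, f3⟩ := exit_basis (e := e') (g := g') hwy
  set p : Z2 := pe • e + pg • g with hp
  set q : Z2 := qe • e' + qg • g' with hq
  rw [← hl] at d2 d3
  rw [← hm] at f2 f3
  obtain ⟨v', k1, k2⟩ := exit_pencil (p := p) (p' := q) h0 h1 (by rw [d3]; exact h2) h3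
    (by rw [f3]; exact h4) hαk hu' g1 g2 g3
  obtain ⟨z, hz⟩ := gen2 k2.ok' rfl rfl (a := a') (a1 := a1') (by
      rw [ha', cr_add_left, cr_sub_left, d3]; ring) (by
      rw [ha1', cr_add_left, cr_sub_left, f3]; ring)
    (exit_cont hl hp d1 hW cl) (exit_cont hm hq f1 hW cm)
  rw [k1] at hz
  rw [← d2, ← f2]
  exact ⟨z, k2.trans hz⟩

/-- **EXIT, only the content of the first torus** -/
theorem exit1 {u v u' l m e g e' g' : Z2} {x y w y' α k W a' a1' : ℤ} (h0 : 0 < cr u v)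
    (hxy : IsCoprime x y) (hwy : IsCoprime w y') (hl : l = y • e + x • g)
    (hm : m = y' • e' + w • g') (h1 : 0 < cr u l) (h2 : cr u l < cr g e)
    (h3 : 0 < cr u m) (h4 : cr u m < cr g' e') (hαk : IsCoprime α k)
    (hu' : u' = α • u + k • (v + l + m)) (hW : W = cr u u') (g1 : 0 < cr u' l)
    (g2 : 0 < cr u' m) (g3 : cr u' l + cr u' m < cr u (v + l + m))
    (ha' : a' = cr g e - cr u l + cr u' l) (ha1' : a1' = cr g' e' - cr u m + cr u' m)
    (cl : IsCoprime (cr u' e - x * W) (cr u' g + y * W)) :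
    ∃ p q v' : Z2, SEq6 ⟨lat e g, lat e' g', u, v⟩ ⟨lat l p, lat m q, u', v'⟩ ∧
      cr p l = a' ∧ cr q m = a1' ∧ cr u' v' = cr u (v + l + m) - cr u' l - cr u' m ∧
      IsCoprime (cr u' l) (cr u' p) := by
  obtain ⟨pe, pg, d1, d2, d3⟩ := exit_basis (e := e) (g := g) hxy
  obtain ⟨qe, qg, f1, f2, f3⟩ := exit_basis (e := e') (g := g') hwy
  set p : Z2 := pe • e + pg • g with hp
  set q : Z2 := qe • e' + qg • g' with hq
  rw [← hl] at d2 d3
  rw [← hm] at f2 f3
  obtain ⟨v', k1, k2⟩ := exit_pencil (p := p) (p' := q) h0 h1 (by rw [d3]; exact h2) h3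
    (by rw [f3]; exact h4) hαk hu' g1 g2 g3
  rw [d2, f2] at k2
  refine ⟨_, _, v', k2, ?_, ?_, k1, exit_cont hl hp d1 hW cl⟩
  · rw [ha', cr_add_left, cr_sub_left, d3]; ring
  · rw [ha1', cr_add_left, cr_sub_left, f3]; ring

/-! ## The normal form -/

/-- `u = (1, 0)`, `v = (0, A)`, `L = aℤ × ℤ`, `M = ⟨(x, c), (z, 0)⟩` -/
def NF (A a c z x : ℤ) : St6 := ⟨lat (0, 1) (a, 0), lat (x, c) (z, 0), (1, 0), (0, A)⟩

theorem NF.ok {A a c z x : ℤ} (hA : 0 < A) (ha : 1 < a) (hc : 0 < c) (hz : 1 < z) :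
    (NF A a c z x).Ok := by
  refine st6_ok (l := (0, 1)) (p := (a, 0)) (m := (x, c)) (p' := (z, 0)) ?_ rfl ?_ ?_ rfl ?_ ?_
  · simp [cr]; exact hA
  · simp [cr]
  · simp [cr]; exact ha
  · simp [cr]; exact hc
  · simp only [cr]; nlinarith

/-- every lattice has a basis `(x, c), (z, 0)` -/
theorem exists_hnf {m p : Z2} (h : 0 < cr p m) : ∃ c z x : ℤ, 0 < c ∧ 0 < z ∧ c * z = cr p m ∧
    lat m p = lat (x, c) (z, 0) := by
  set c : ℤ := (Int.gcd m.2 p.2 : ℤ) with hc
  have hc0 : 0 < c := by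
    have h0 : Int.gcd m.2 p.2 ≠ 0 := by
      intro h1
      obtain ⟨h2, h3⟩ := Int.gcd_eq_zero_iff.1 h1
      have : cr p m = 0 := by simp only [cr, h2, h3]; ring
      omega
    omega
  obtain ⟨m2, hm2⟩ : c ∣ m.2 := Int.gcd_dvd_left ..
  obtain ⟨p2, hp2⟩ : c ∣ p.2 := Int.gcd_dvd_right ..
  obtain ⟨s, t, hst⟩ : ∃ s t : ℤ, s * m.2 + t * p.2 = c := by
    refine ⟨Int.gcdA m.2 p.2, Int.gcdB m.2 p.2, ?_⟩
    rw [hc, Int.gcd_eq_gcd_ab]; ring
  have hst' : s * m2 + t * p2 = 1 := by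
    have : c * (s * m2 + t * p2) = c * 1 := by rw [mul_one]; linear_combination hst - s * hm2 - t * hp2
    exact mul_left_cancel₀ hc0.ne' this
  have e1 : c * (m2 * p.1 - p2 * m.1) = cr p m := by
    simp only [cr, hm2, hp2]; ring
  refine ⟨c, m2 * p.1 - p2 * m.1, s * m.1 + t * p.1, hc0, ?_, e1, ?_⟩
  · have h5 : 0 < c * (m2 * p.1 - p2 * m.1) := by rw [e1]; exact h
    exact (pos_iff_pos_of_mul_pos h5).1 hc0
  · refine (closure_pair_eq (α := s) (β := t) (γ := -p2) (δ := m2) ?_ ?_ (Or.inl ?_)).symm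
    · ext
      · simp
      · simp only [Prod.smul_snd, Prod.snd_add, smul_eq_mul]; exact hst.symm
    · ext
      · simp only [Prod.smul_fst, Prod.fst_add, smul_eq_mul]; ring
      · simp only [Prod.smul_snd, Prod.snd_add, smul_eq_mul, hm2, hp2]; ring
    · linarith

/-- **THE NORMAL FORM**: every state with content 1 at `L` is a normal form up to `SL₂(ℤ)` -/
theorem nf1 {u v l p m q : Z2} (hok : St6.Ok ⟨lat l p, lat m q, u, v⟩)
    (hlp : 0 < cr p l) (hmq : 0 < cr q m) (cl : IsCoprime (cr u l) (cr u p)) :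
    ∃ c z x : ℤ, 0 < c ∧ 0 < z ∧ c * z = cr q m ∧
      SEq6 ⟨lat l p, lat m q, u, v⟩ (NF (cr u v) (cr p l) c z x) := by
  obtain ⟨l0, h1, h2, h3⟩ := exists_gen (a := cr p l) rfl cl
  have hu : u.1 * l0.2 - u.2 * l0.1 = 1 := h1
  set g : SL(2, ℤ) := ⟨!![l0.2, -l0.1; -u.2, u.1], by rw [Matrix.det_fin_two_of]; linarith⟩
    with hg
  have eg : ∀ x : Z2, H4G.act g x = (cr x l0, cr u x) := by
    intro x
    rw [act_apply]
    ext
    · simp [hg, cr]; ring
    · simp [hg, cr]; ring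
  have s1 := SEq6.act g hok
  have eu : H4G.act g u = (1, 0) := by
    rw [eg, cr_self, h1]
  have el : H4G.act g l0 = (0, 1) := by
    rw [eg, cr_self, h1]
  have eL : (lat l p).map (H4G.act g) = lat (0, 1) (cr p l, 0) := by
    rw [h3, map_Ld, el, lat_eq_Ld isCoprime_one_right]
    congr 1
    simp [cr]
  have hm' : 0 < cr (H4G.act g q) (H4G.act g m) := by rw [cr_act]; exact hmq
  obtain ⟨c, z, x, hc, hz, hcz, hM⟩ := exists_hnf hm'
  rw [cr_act] at hcz
  have eM : (lat m q).map (H4G.act g) = lat (x, c) (z, 0) := by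
    rw [map_lat, hM]
  have e5 : St6.act g ⟨lat l p, lat m q, u, v⟩ =
      ⟨lat (0, 1) (cr p l, 0), lat (x, c) (z, 0), (1, 0), H4G.act g v⟩ := by
    simp only [St6.act, eL, eM, eu]
  rw [e5] at s1
  have s2 := SEq6.tv s1.ok' (-(cr v l0))
  have ev : H4G.act g v + (-(cr v l0)) • ((1, 0) : Z2) = (0, cr u v) := by
    rw [eg]
    ext <;> simp
  rw [ev] at s2
  exact ⟨c, z, x, hc, hz, hcz, s1.trans s2⟩

/-- **EXIT FROM THE NORMAL FORM TO CONTENTS (1,1)**: `l = (x a, y)`, `m = (m1, F)` with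
`m1 = y' x1 + w z`, `F = c y'`, new slit `(P, k W)`. -/
theorem nf_exit11 {A a c z x1 x y w y' P k W m1 F X Y : ℤ} (hA : 0 < A) (hc : 0 < c)
    (hxy : IsCoprime x y) (hwy : IsCoprime w y') (y0 : 0 < y) (ya : y < a) (y0' : 0 < y')
    (yz : y' < z) (hm1 : m1 = y' * x1 + w * z) (hF : F = c * y') (hW : W = A + y + F)
    (hPk : IsCoprime P k) (hX : X = P * y - k * W * (x * a)) (hY : Y = P * F - k * W * m1)
    (X0 : 0 < X) (Y0 : 0 < Y) (XY : X + Y < W)
    (cl : IsCoprime (P - x * (k * W)) (k * W * (a - y)))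
    (cm : IsCoprime (P * c - k * W * (x1 + w)) (k * W * (z - y'))) :
    ∃ ζ : ℤ, SEq6 (NF A a c z x1) (PG (W - X - Y) (a - y + X) (c * z - F + Y) ζ) := by
  have e1 : cr ((1, 0) : Z2) (y • ((0, 1) : Z2) + x • ((a, 0) : Z2)) = y := by simp [cr]
  have e2 : cr ((1, 0) : Z2) (y' • ((x1, c) : Z2) + w • ((z, 0) : Z2)) = F := by
    simp [cr, hF]; ring
  have e3 : cr ((a, 0) : Z2) (0, 1) = a := by simp [cr]
  have e4 : cr ((z, 0) : Z2) (x1, c) = c * z := by simp [cr]; ring
  set l : Z2 := y • ((0, 1) : Z2) + x • ((a, 0) : Z2) with hl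
  set m : Z2 := y' • ((x1, c) : Z2) + w • ((z, 0) : Z2) with hm
  have el : l = (x * a, y) := by ext <;> simp [hl]
  have em : m = (m1, F) := by ext <;> simp [hm, hm1, hF]; ring
  have e5 : cr ((1, 0) : Z2) ((0, A) + l + m) = W := by
    rw [el, em]; simp [cr, hW]
  set α : ℤ := P - k * (x * a + m1) with hα
  have hu' : ((P, k * W) : Z2) = α • ((1, 0) : Z2) + k • ((0, A) + l + m) := by
    rw [el, em]
    ext
    · simp [hα]
    · simp [hW]
  have e6 : cr ((P, k * W) : Z2) l = X := by rw [el, hX]; simp [cr]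
  have e7 : cr ((P, k * W) : Z2) m = Y := by rw [em, hY]; simp [cr]
  have hαk : IsCoprime α k := by
    obtain ⟨s, t, hst⟩ := hPk
    exact ⟨s, t + s * (x * a + m1), by rw [hα]; linear_combination hst⟩
  have := exit11 (u := (1, 0)) (v := (0, A)) (u' := (P, k * W)) (l := l) (m := m)
    (e := (0, 1)) (g := (a, 0)) (e' := (x1, c)) (g' := (z, 0)) (x := x) (y := y) (w := w)
    (y' := y') (α := α) (k := k) (W := k * W) (a' := a - y + X) (a1' := c * z - F + Y)
    (by simp [cr]; exact hA) hxy hwy rfl rfl (by rw [e1]; exact y0) (by rw [e1, e3]; exact ya)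
    (by rw [e2, hF]; positivity) (by rw [e2, e4, hF]; nlinarith) hαk hu' (by simp [cr])
    (by rw [e6]; exact X0) (by rw [e7]; exact Y0) (by rw [e6, e7, e5]; exact XY)
    (by rw [e1, e3, e6]) (by rw [e2, e4, e7])
    (by
      have h1 : cr ((P, k * W) : Z2) (0, 1) - x * (k * W) = P - x * (k * W) := by simp [cr]
      have h2 : cr ((P, k * W) : Z2) (a, 0) + y * (k * W) = -(k * W * (a - y)) := by
        simp [cr]; ring
      rw [h1, h2]; exact cl.neg_right)
    (by
      have h1 : cr ((P, k * W) : Z2) (x1, c) - w * (k * W) = P * c - k * W * (x1 + w) := by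
        simp [cr]; ring
      have h2 : cr ((P, k * W) : Z2) (z, 0) + y' * (k * W) = -(k * W * (z - y')) := by
        simp [cr]; ring
      rw [h1, h2]; exact cm.neg_right)
  rw [e5, e6, e7] at this
  exact this

/-- **EXIT FROM THE NORMAL FORM, only the content of the first torus**: the new normal form has
first area `a - y + X`. -/
theorem nf_exit1 {A a c z x1 x y w y' P k W m1 F X Y : ℤ} (hA : 0 < A) (hc : 0 < c)
    (hxy : IsCoprime x y) (hwy : IsCoprime w y') (y0 : 0 < y) (ya : y < a) (y0' : 0 < y')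
    (yz : y' < z) (hm1 : m1 = y' * x1 + w * z) (hF : F = c * y') (hW : W = A + y + F)
    (hPk : IsCoprime P k) (hX : X = P * y - k * W * (x * a)) (hY : Y = P * F - k * W * m1)
    (X0 : 0 < X) (Y0 : 0 < Y) (XY : X + Y < W)
    (cl : IsCoprime (P - x * (k * W)) (k * W * (a - y))) :
    ∃ c' z' x1' : ℤ, 0 < c' ∧ 0 < z' ∧ c' * z' = c * z - F + Y ∧
      SEq6 (NF A a c z x1) (NF (W - X - Y) (a - y + X) c' z' x1') := by
  have e1 : cr ((1, 0) : Z2) (y • ((0, 1) : Z2) + x • ((a, 0) : Z2)) = y := by simp [cr]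
  have e2 : cr ((1, 0) : Z2) (y' • ((x1, c) : Z2) + w • ((z, 0) : Z2)) = F := by
    simp [cr, hF]; ring
  have e3 : cr ((a, 0) : Z2) (0, 1) = a := by simp [cr]
  have e4 : cr ((z, 0) : Z2) (x1, c) = c * z := by simp [cr]; ring
  set l : Z2 := y • ((0, 1) : Z2) + x • ((a, 0) : Z2) with hl
  set m : Z2 := y' • ((x1, c) : Z2) + w • ((z, 0) : Z2) with hm
  have el : l = (x * a, y) := by ext <;> simp [hl]
  have em : m = (m1, F) := by ext <;> simp [hm, hm1, hF]; ring
  have e5 : cr ((1, 0) : Z2) ((0, A) + l + m) = W := by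
    rw [el, em]; simp [cr, hW]
  set α : ℤ := P - k * (x * a + m1) with hα
  have hu' : ((P, k * W) : Z2) = α • ((1, 0) : Z2) + k • ((0, A) + l + m) := by
    rw [el, em]
    ext
    · simp [hα]
    · simp [hW]
  have e6 : cr ((P, k * W) : Z2) l = X := by rw [el, hX]; simp [cr]
  have e7 : cr ((P, k * W) : Z2) m = Y := by rw [em, hY]; simp [cr]
  have hαk : IsCoprime α k := by
    obtain ⟨s, t, hst⟩ := hPk
    exact ⟨s, t + s * (x * a + m1), by rw [hα]; linear_combination hst⟩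
  obtain ⟨p, q, v', k1, k2, k3, k4, k5⟩ := exit1 (u := (1, 0)) (v := (0, A)) (u' := (P, k * W))
    (l := l) (m := m)
    (e := (0, 1)) (g := (a, 0)) (e' := (x1, c)) (g' := (z, 0)) (x := x) (y := y) (w := w)
    (y' := y') (α := α) (k := k) (W := k * W) (a' := a - y + X) (a1' := c * z - F + Y)
    (by simp [cr]; exact hA) hxy hwy rfl rfl (by rw [e1]; exact y0) (by rw [e1, e3]; exact ya)
    (by rw [e2, hF]; positivity) (by rw [e2, e4, hF]; nlinarith) hαk hu' (by simp [cr])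
    (by rw [e6]; exact X0) (by rw [e7]; exact Y0) (by rw [e6, e7, e5]; exact XY)
    (by rw [e1, e3, e6]) (by rw [e2, e4, e7])
    (by
      have h1 : cr ((P, k * W) : Z2) (0, 1) - x * (k * W) = P - x * (k * W) := by simp [cr]
      have h2 : cr ((P, k * W) : Z2) (a, 0) + y * (k * W) = -(k * W * (a - y)) := by
        simp [cr]; ring
      rw [h1, h2]; exact cl.neg_right)
  have q1 : 0 < a - y + X := by linarith
  have q2 : 0 < c * z - F + Y := by rw [hF]; nlinarith
  obtain ⟨c', z', x1', r1, r2, r3, r4⟩ := nf1 k1.ok' (by rw [k2]; exact q1)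
    (by rw [k3]; exact q2) k5
  rw [k2, k4, e5, e6, e7] at r4
  exact ⟨c', z', x1', r1, r2, by rw [r3, k3], k1.trans r4⟩

end Pool.Agent.H4G.Six
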