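import Pool.Agent.H4G.Six.NR.Frame
import Pool.Agent.H4G.Six.RoomEnd
import Pool.Agent.H4G.Six.Can.C11
import Pool.Agent.H4G.Six.Reach6

/-!
# A tree with contents one and small `u × v` is equivalent to a generic end state (helper96)
-/

set_option autoImplicit false

namespace Pool.Agent.H4G.Six

open Pool.Agent.H4G

variable {X : Type} {O : PO X} {N : ℤ} {u v l q m s e p e' p' : Z2} {a a' : ℤ}

/-- the level one vectors of `⟨e, p⟩` if the content is one -/
theorem Lv.one_mem (h : Lv O N u v e p e' p' 1 a 1 a') {y : Z2} (hy : y ∈ lat e p)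
    (hy1 : cr u y = 1) : ∃ k : ℤ, y = e + k • p := by
  obtain ⟨i, j, rfl⟩ := mem_lat_coords hy
  rw [h.cr_ul, mul_one] at hy1
  exact ⟨j, by rw [hy1, one_smul]⟩

theorem Lv.one_mem' (h : Lv O N u v e p e' p' 1 a 1 a') {y : Z2} (hy : y ∈ lat e' p')
    (hy1 : cr u y = 1) : ∃ k : ℤ, y = e' + k • p' := by
  obtain ⟨i, j, rfl⟩ := mem_lat_coords hy
  rw [h.cr_um, mul_one] at hy1
  exact ⟨j, by rw [hy1, one_smul]⟩

/-- the state of a tree with contents one -/
theorem Lv.one_seq (h : Lv O N u v e p e' p' 1 a 1 a') :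
    SEq6 ⟨lat e p, lat e' p', u, v⟩ (PG (cr u v) a a' (-cr e e')) := by
  have hue := h.ue
  have hue' := h.ue'
  have ha := h.ca
  have ha' := h.ca'
  have hP : cr p e' = a := by have := h.relP; linarith
  have hP' : cr p' e = a' := by have := h.relP'; linarith
  have := seq_PG (u := u) (v := v) (l := e) (p := p) (m := e') (p' := p') (z := -cr e e') h.A0
    (by rw [hue]; exact isCoprime_one_left) (by rw [hue']; exact isCoprime_one_left)
    (by rw [h.pe]; exact ha) (by rw [h.pe']; exact ha') (by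
      intro y hy y' hy' h1 h2
      obtain ⟨k, rfl⟩ := h.one_mem hy h1
      obtain ⟨k', rfl⟩ := h.one_mem' hy' h2
      have e1 := h.cr_lm 1 k 1 k'
      rw [one_smul, one_smul, hP, hP'] at e1
      rw [e1, h.pe, h.pe']
      have d1 : (Int.gcd a a' : ℤ) ∣ a := Int.gcd_dvd_left ..
      have d2 : (Int.gcd a a' : ℤ) ∣ a' := Int.gcd_dvd_right ..
      have e2 : -cr e e' + (1 * 1 * cr e e' + k * 1 * a - 1 * k' * a') = k * a - k' * a' := by
        ring
      rw [e2]
      exact dvd_sub (d1.mul_left _) (d2.mul_left _))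
  rwa [h.pe, h.pe'] at this

/-- the two lattices are equal -/
theorem Lv.one_eq (h : Lv O N u v e p e' p' 1 a 1 a) (hz : a ∣ cr e e') :
    lat e p = lat e' p' := by
  have hp : p = a • u := by have := h.cp; rwa [one_smul] at this
  have hp' : p' = a • u := by have := h.cp'; rwa [one_smul] at this
  have hu := cop_of_cr1' h.ue
  have h3 : cr (e' - e) u = 0 := by
    have h4 : cr (e' - e) u = -(cr u e' - cr u e) := by
      simp only [cr, Prod.fst_sub, Prod.snd_sub]; ring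
    rw [h4, h.ue, h.ue']; ring
  obtain ⟨n, hn⟩ := par_prim hu h3
  have h5 : cr e e' = -n := by
    have e1 : e' = e + n • u := by rw [← hn]; abel
    have e2 : cr e (e + n • u) = -(n * cr u e) := by
      simp only [cr, Prod.fst_add, Prod.snd_add, Prod.smul_fst, Prod.smul_snd, smul_eq_mul]
      ring
    rw [e1, e2, h.ue, mul_one]
  obtain ⟨t, ht⟩ := hz
  have h6 : n = -(a * t) := by linarith
  have e1 : e' = e + (-t) • p := by
    have : e' = e + n • u := by rw [← hn]; abel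
    rw [this, h6, hp]
    module
  have e2 : p' = p := by rw [hp, hp']
  rw [e1, e2]
  exact (closure_pair_eq (α := 1) (β := -t) (γ := 0) (δ := 1) (by module) (by module)
    (Or.inl (by norm_num))).symm

/-- **THE END**: a tree with contents one and small `u × v` -/
theorem toEnd_of_one {N J Z : ℕ} {O : PO (Fin N)} (hB : Bg (N : ℤ) J Z) (hO : Odd6 O)
    (hT : Has6 O (u, v, l, q, m, s)) (hN : vol6 (u, v, l, q, m, s) = N) (hc : ct u l q = 1)
    (hc' : ct u m s = 1) (hA : cr u v * (J : ℤ) ^ 24 ≤ N) : ToEnd6 O := by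
  obtain ⟨e, p, e', p', h, -, -⟩ := TN.lv (⟨hT, hN⟩ : TN O (N : ℤ) u v l q m s)
  rw [hc, hc'] at h
  obtain ⟨a, ha⟩ : ∃ a, a = cr u l + cr q l := ⟨_, rfl⟩
  obtain ⟨a', ha'⟩ : ∃ a', a' = cr u m + cr s m := ⟨_, rfl⟩
  rw [← ha, ← ha'] at h
  have hne : ¬ (a = a' ∧ a ∣ -cr e e') := by
    rintro ⟨h1, h2⟩
    subst h1
    have h3 := h.one_eq ((dvd_neg).1 h2)
    have h4 := hO.lat_ne h.tree.has (by
      rw [Nat.card_eq_fintype_card, Fintype.card_fin, h.tree.vol])
    apply h4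
    show lat e (u + (p - u)) = lat e' (u + (p' - u))
    rw [add_sub_cancel, add_sub_cancel]
    exact h3
  have h5 := c11 hB h.A0 h.ca h.ca' h.sum hA hne
  have h6 : st6Of (u, v, e, p - u, e', p' - u) = ⟨lat e p, lat e' p', u, v⟩ := by
    simp only [st6Of, add_sub_cancel]
  have h7 := h.one_seq
  rcases h5 with ⟨A, a1, a2, h8, h9⟩ | ⟨A, a1, a2, h8, h9⟩
  · exact ⟨O, _, _, SLE6.refl O, h.tree.has, by rw [h6]; exact h7.trans h9,
      Or.inl ⟨A, a1, a2, h8, rfl⟩⟩
  · exact ⟨O, _, _, SLE6.refl O, h.tree.has, by rw [h6]; exact h7.trans h9,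
      Or.inr ⟨A, a1, a2, h8, rfl⟩⟩

/-! ## The final glue -/

/-- odd origamis with a roomy tree are done -/
def D2S (N : ℕ) (B : ℤ) : Prop := ∀ (O : PO (Fin N)) (u v l q m s : Z2), Odd6 O → O.Prim →
  Has6 O (u, v, l, q, m, s) → vol6 (u, v, l, q, m, s) = N → ¬ NoRoom O (N : ℤ) B → ToEnd6 O

/-- there is always a roomy tree -/
def RoomS (N : ℕ) (B : ℤ) : Prop := ∀ (O : PO (Fin N)) (u v l q m s : Z2), Odd6 O → O.Prim →
  Has6 O (u, v, l, q, m, s) → vol6 (u, v, l, q, m, s) = N → ¬ NoRoom O (N : ℤ) B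

/-- **the glue** for one number of squares -/
theorem desc_of_D2 {N : ℕ} {B : ℤ} (hN : 2 ^ 120 < N) (hR : RoomS N B) (h : D2S N B) :
    Desc6 N := by
  intro O _ hO hp _ _
  obtain ⟨O1, ⟨u, v, l, q, m, s⟩, g1, g2, g3⟩ := treeEx (N := N) hN O hO hp
  have hO1 := g1.odd.1 hO
  have hp1 := g1.prim.1 hp
  exact (h O1 u v l q m s hO1 hp1 g3 g2 (hR O1 u v l q m s hO1 hp1 g3 g2)).of g1

/-- **the glue** for all large numbers of squares -/
theorem desc_all_of (h : ∃ N1 : ℕ, ∀ N : ℕ, N1 ≤ N → ∃ B : ℤ, RoomS N B ∧ D2S N B) :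
    ∃ N0 : ℕ, ∀ N : ℕ, N0 ≤ N → Desc6 N := by
  obtain ⟨N1, h1⟩ := h
  refine ⟨max N1 (2 ^ 120 + 1), fun N hN => ?_⟩
  obtain ⟨B, h2, h3⟩ := h1 N ((le_max_left _ _).trans hN)
  have h4 : 2 ^ 120 + 1 ≤ N := (le_max_right _ _).trans hN
  exact desc_of_D2 (by omega) h2 h3

end Pool.Agent.H4G.Six
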