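import Pool.Agent.H4G.Six.D2.Gcd53
import Pool.Agent.H4G.Six.NR.Frame

/-!
# Flat trees (helper26's page D2, 6.2; Lean: helper53)

`L = ⟨e, p⟩`, `u × e = b`, `p ∥ u`. Over a fixed slit `m` the exits `y_k = α u + ε (v + l_k + m)`,
`l_k = e + k p`, have `y_k × l_k` in a progression with step `∓ p × (v + m)`. So some exit has the
contents `∣ 4 p × (v + m)` and `∣ 4 p × m`, and `W / 4 ≤ y × l < W / 2`.
-/

set_option autoImplicit false

namespace Pool.Agent.H4G.Six

open Pool.Agent.H4G

variable {X : Type} {O : PO X} {N a b : ℤ} {u v m s y e p : Z2}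

/-- a residue in the upper half -/
theorem half_residue {F : ℤ} (hF : 0 < F) (w : ℤ) : ∃ ε α : ℤ, (ε = 1 ∨ ε = -1) ∧
    F ≤ 2 * (α * F + ε * w) ∧ α * F + ε * w ≤ F := by
  have h1 := Int.emod_add_mul_ediv w F
  have h2 := Int.emod_nonneg w hF.ne'
  have h3 := Int.emod_lt_of_pos w hF
  by_cases h : F ≤ 2 * (w % F)
  · refine ⟨1, -(w / F), Or.inl rfl, ?_, ?_⟩
    · have e : -(w / F) * F + 1 * w = w % F := by linear_combination -h1
      rw [e]; exact h
    · have e : -(w / F) * F + 1 * w = w % F := by linear_combination -h1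
      rw [e]; exact h3.le
  · refine ⟨-1, w / F + 1, Or.inr rfl, ?_, ?_⟩
    · have e : (w / F + 1) * F + -1 * w = F - w % F := by linear_combination h1
      rw [e]; push Not at h; linarith
    · have e : (w / F + 1) * F + -1 * w = F - w % F := by linear_combination h1
      rw [e]; linarith

/-- a term of a progression in a window -/
theorem exists_ap {D : ℤ} (hD : 0 < D) (x c : ℤ) : ∃ t : ℤ, c ≤ x + D * t ∧ x + D * t < c + D := by
  have h1 := Int.emod_add_mul_ediv (x - c) D
  have h2 := Int.emod_nonneg (x - c) hD.ne'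
  have h3 := Int.emod_lt_of_pos (x - c) hD
  refine ⟨-((x - c) / D), ?_, ?_⟩
  · have e : x + D * -((x - c) / D) = c + (x - c) % D := by linear_combination -h1
    rw [e]; linarith
  · have e : x + D * -((x - c) / D) = c + (x - c) % D := by linear_combination -h1
    rw [e]; linarith

theorem cr_exit (u x l : Z2) (α ε : ℤ) : cr (α • u + ε • x) l = α * cr u l + ε * cr x l := by
  simp only [cr, Prod.fst_add, Prod.snd_add, Prod.smul_fst, Prod.smul_snd, smul_eq_mul]
  ring

theorem cr_add3l (v l m x : Z2) : cr (v + l + m) x = cr v x + cr l x + cr m x := by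
  simp only [cr, Prod.fst_add, Prod.snd_add]
  ring

theorem cr_ek (x e p : Z2) (k : ℤ) : cr x (e + k • p) = cr x e + k * cr x p := by
  simp only [cr, Prod.fst_add, Prod.snd_add, Prod.smul_fst, Prod.smul_snd, smul_eq_mul]
  ring

theorem cr_ekl (x e p : Z2) (k : ℤ) : cr (e + k • p) x = cr e x + k * cr p x := by
  simp only [cr, Prod.fst_add, Prod.snd_add, Prod.smul_fst, Prod.smul_snd, smul_eq_mul]
  ring

/-- **FLAT EXIT.** -/
theorem flat_exit {J C : ℕ} (hcap : Cap J C) (h : TN O N u v e (p - u) m s) (b0 : 0 < b)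
    (ue : cr u e = b) (pe : cr p e = a) (cp : b • p = a • u) (hab : b < a)
    (hJ : 32 * ((J : ℤ) + 1) * cr p (v + m) ≤ cr u v + b + cr u m) (hC : 64 * N ^ 7 ≤ C) :
    ∃ (k : ℤ) (y v' : Z2), TN O N y v' (e + k • p) (p - u) m s ∧
      cr u v + b + cr u m ≤ 4 * cr y (e + k • p) ∧
      2 * cr y (e + k • p) < cr u v + b + cr u m ∧
      cr y v' = cr u v + b + cr u m - cr y (e + k • p) - cr y m ∧
      ct y (e + k • p) (p - u) ∣ 4 * cr p (v + m) ∧ ct y m s ∣ 4 * cr p m := by
  obtain ⟨A0, -, m0, -, s0⟩ := h.pos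
  have hsum := h.sum
  have q0 : cr (p - u) e = a - b := by rw [cr_subl, pe, ue]
  rw [ue, q0] at hsum
  obtain ⟨A, hA⟩ : ∃ A, A = cr u v := ⟨_, rfl⟩
  obtain ⟨F, hF⟩ : ∃ F, F = cr u m := ⟨_, rfl⟩
  obtain ⟨W, hW⟩ : ∃ W, W = A + b + F := ⟨_, rfl⟩
  obtain ⟨S, hS⟩ : ∃ S, S = cr p (v + m) := ⟨_, rfl⟩
  rw [← hA, ← hF, ← hW, ← hS] at hJ ⊢
  rw [← hA] at A0 hsum
  rw [← hF] at m0 hsum
  have hW0 : 0 < W := by linarith
  have hup : cr u p = 0 := by
    have := congrArg (cr u) cp
    have h2 : b * cr u p = 0 := by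
      simp only [cr, Prod.smul_fst, Prod.smul_snd, smul_eq_mul] at this ⊢
      linarith
    exact (mul_eq_zero.1 h2).resolve_left b0.ne'
  have hpu : cr p u = 0 := by rw [cr_swap' u p, hup, neg_zero]
  have yp : ∀ x : Z2, b * cr p x = a * cr u x := by
    intro x
    have := congrArg (fun w => cr w x) cp
    simp only [cr, Prod.smul_fst, Prod.smul_snd, smul_eq_mul] at this ⊢
    linarith
  have bS : b * S = a * (A + F) := by
    rw [hS, yp, cr_addr, ← hA, ← hF]
  have S0 : 0 < S := by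
    have : 0 < b * S := by rw [bS]; exact mul_pos (by linarith) (by linarith)
    exact (pos_iff_pos_of_mul_pos this).1 b0
  obtain ⟨ε, α, hε, r1, r2⟩ := half_residue m0 (cr v m)
  obtain ⟨r, hr⟩ : ∃ r, r = α * F + ε * cr v m := ⟨_, rfl⟩
  rw [← hr] at r1 r2
  have ε0 : ε ≠ 0 := by rcases hε with h | h <;> rw [h] <;> norm_num
  have ε2 : ε * ε = 1 := by rcases hε with h | h <;> rw [h] <;> norm_num
  have εa : |ε| = 1 := by rcases hε with h | h <;> rw [h] <;> norm_num
  -- the four forms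
  obtain ⟨X0, hX0⟩ : ∃ X0, X0 = α * b + ε * (cr v e + cr m e) := ⟨_, rfl⟩
  obtain ⟨G, hG⟩ : ∃ G, G = α * cr u (p - u) + ε * (cr v (p - u) + cr m (p - u) + (b - a)) :=
    ⟨_, rfl⟩
  obtain ⟨Y0, hY0⟩ : ∃ Y0, Y0 = α * F + ε * (cr v m + cr e m) := ⟨_, rfl⟩
  obtain ⟨S1, hS1⟩ : ∃ S1, S1 = α * cr u s + ε * (cr v s + cr e s + cr m s) := ⟨_, rfl⟩
  have hp1 : cr v p + cr m p = -S := by
    rw [hS, cr_addr, cr_swap' v p, cr_swap' m p]
    ring
  have eX : ∀ k : ℤ, cr (α • u + ε • (v + (e + k • p) + m)) (e + k • p) = X0 + k * (-ε * S) := by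
    intro k
    rw [cr_exit, cr_add3l, cr_self', cr_ek, cr_ek, cr_ek, ue, hup, hX0]
    linear_combination (ε * k) * hp1
  have eG : ∀ k : ℤ, cr (α • u + ε • (v + (e + k • p) + m)) (p - u) = G + k * 0 := by
    intro k
    rw [cr_exit, cr_add3l, hG]
    have e1 : cr (e + k • p) (p - u) = b - a := by
      rw [cr_ekl]
      have e2 : cr e (p - u) = b - a := by
        rw [cr_swap' (p - u) e, q0]; ring
      have e3 : cr p (p - u) = 0 := by
        have : cr p (p - u) = cr p p - cr p u := by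
          simp only [cr, Prod.fst_sub, Prod.snd_sub]; ring
        rw [this, cr_self', hpu]; ring
      rw [e2, e3]; ring
    rw [e1]
    ring
  have eY : ∀ k : ℤ, cr (α • u + ε • (v + (e + k • p) + m)) m = Y0 + k * (ε * cr p m) := by
    intro k
    rw [cr_exit, cr_add3l, cr_self', cr_ekl, hY0, hF]
    ring
  have eS : ∀ k : ℤ, cr (α • u + ε • (v + (e + k • p) + m)) s = S1 + k * (ε * cr p s) := by
    intro k
    rw [cr_exit, cr_add3l, cr_ekl, hS1]
    ring
  -- the determinants
  have bG : b * G = -ε * ((a - b) * W) := by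
    have e1 : b * cr u (p - u) = 0 := by
      have : cr u (p - u) = cr u p - cr u u := by
        simp only [cr, Prod.fst_sub, Prod.snd_sub]; ring
      rw [this, hup, cr_self']; ring
    have e2 : ∀ x : Z2, b * cr x (p - u) = -((a - b) * cr u x) := by
      intro x
      have h1 := yp x
      have h2 : cr x (p - u) = -cr p x + cr u x := by
        simp only [cr, Prod.fst_sub, Prod.snd_sub]; ring
      rw [h2]
      linear_combination -h1
    rw [hG, hW, hA, hF]
    linear_combination α * e1 + ε * e2 v + ε * e2 m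
  have G0 : G ≠ 0 := by
    rintro h0
    rw [h0, mul_zero] at bG
    have : ε * ((a - b) * W) = 0 := by linarith
    rcases mul_eq_zero.1 this with h1 | h1
    · exact ε0 h1
    · exact (mul_pos (by linarith : 0 < a - b) hW0).ne' h1
  have yp0 : b * cr (α • u + ε • (v + e + m)) p = -ε * (a * W) := by
    have h1 := yp (α • u + ε • (v + e + m))
    have h2 : cr (α • u + ε • (v + e + m)) p = -cr p (α • u + ε • (v + e + m)) := by
      rw [← cr_swap']
    have h3 : cr u (α • u + ε • (v + e + m)) = ε * W := by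
      have : cr u (α • u + ε • (v + e + m)) = α * cr u u + ε * (cr u v + cr u e + cr u m) := by
        simp only [cr, Prod.fst_add, Prod.snd_add, Prod.smul_fst, Prod.smul_snd, smul_eq_mul]
        ring
      rw [this, cr_self', ue, ← hA, ← hF, hW]
      ring
    rw [h2]
    rw [h3] at h1
    linear_combination -h1
  have det2 : Y0 * (ε * cr p s) - S1 * (ε * cr p m) =
      ε * (cr (α • u + ε • (v + e + m)) p * cr m s) := by
    have k1 := eY 0
    have k2 := eS 0
    rw [zero_smul, add_zero, zero_mul, add_zero] at k1 k2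
    rw [← k1, ← k2]
    simp only [cr]
    ring
  have hy0 : cr (α • u + ε • (v + e + m)) p ≠ 0 := by
    intro h0
    rw [h0, mul_zero] at yp0
    have : ε * (a * W) = 0 := by linarith
    rcases mul_eq_zero.1 this with h1 | h1
    · exact ε0 h1
    · exact (mul_pos (by linarith : 0 < a) hW0).ne' h1
  have hms : cr m s ≠ 0 := by
    rw [cr_swap' s m]
    exact neg_ne_zero.2 s0.ne'
  have hD : X0 * 0 - G * (-ε * S) ≠ 0 := by
    have e : X0 * 0 - G * (-ε * S) = G * (ε * S) := by ring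
    rw [e]
    exact mul_ne_zero G0 (mul_ne_zero ε0 S0.ne')
  have hE : Y0 * (ε * cr p s) - S1 * (ε * cr p m) ≠ 0 := by
    rw [det2]
    exact mul_ne_zero ε0 (mul_ne_zero hy0 hms)
  -- sizes
  have a0 : 0 < a := by linarith
  have haN : a ≤ N := by linarith
  have hWN : W ≤ N := by linarith
  have hN0 : 0 ≤ N := by linarith
  have s1 : ∀ z w : ℤ, b * z = w → |z| ≤ |w| := by
    intro z w hzw
    rw [← hzw, abs_mul, abs_of_pos b0]
    have : 1 * |z| ≤ b * |z| := mul_le_mul_of_nonneg_right b0 (abs_nonneg _)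
    linarith
  have gG : |G| ≤ N * N := by
    refine (s1 _ _ bG).trans ?_
    rw [abs_mul, abs_neg, εa, one_mul, abs_of_pos (mul_pos (by linarith : 0 < a - b) hW0)]
    exact mul_le_mul (by linarith) hWN hW0.le hN0
  have gS : |S| ≤ N * N := by
    refine (s1 _ _ bS).trans ?_
    rw [abs_of_pos (mul_pos a0 (by linarith))]
    exact mul_le_mul haN (by linarith) (by linarith) hN0
  have gy : |cr (α • u + ε • (v + e + m)) p| ≤ N * N := by
    refine (s1 _ _ yp0).trans ?_
    rw [abs_mul, abs_neg, εa, one_mul, abs_of_pos (mul_pos a0 hW0)]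
    exact mul_le_mul haN hWN hW0.le hN0
  have gs : |cr m s| ≤ N := by
    rw [cr_swap' s m, abs_neg, abs_of_pos s0]
    linarith
  have hX : 64 * |X0 * 0 - G * (-ε * S)| * |Y0 * (ε * cr p s) - S1 * (ε * cr p m)| ≤ C := by
    refine le_trans ?_ hC
    have e1 : |X0 * 0 - G * (-ε * S)| ≤ N * N * (N * N) := by
      have e : X0 * 0 - G * (-ε * S) = G * (ε * S) := by ring
      rw [e, abs_mul, abs_mul, εa, one_mul]
      exact mul_le_mul gG gS (abs_nonneg _) (by positivity)
    have e2 : |Y0 * (ε * cr p s) - S1 * (ε * cr p m)| ≤ N * N * N := by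
      rw [det2, abs_mul, abs_mul, εa, one_mul]
      exact mul_le_mul gy gs (abs_nonneg _) (by positivity)
    calc 64 * |X0 * 0 - G * (-ε * S)| * |Y0 * (ε * cr p s) - S1 * (ε * cr p m)|
        ≤ 64 * (N * N * (N * N)) * (N * N * N) :=
          mul_le_mul (by linarith) e2 (abs_nonneg _) (by positivity)
      _ = 64 * N ^ 7 := by ring
  -- the window
  obtain ⟨t0, ht0⟩ : ∃ t0 : ℤ, ∀ k : ℤ, 8 * t0 ≤ k → k < 8 * t0 + 8 * J →
      W ≤ 4 * (X0 + k * (-ε * S)) ∧ 2 * (X0 + k * (-ε * S)) < W := by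
    rcases hε with h1 | h1
    · obtain ⟨t, t1, t2⟩ := exists_ap (D := 32 * S) (by linarith) (4 * X0) (2 * W - 32 * S)
      refine ⟨-t, fun k k1 k2 => ?_⟩
      rw [h1]
      have b1 : (-t * 8) * S ≤ k * S := mul_le_mul_of_nonneg_right (by linarith) S0.le
      have b2 : k * S ≤ (-t * 8 + 8 * J) * S := mul_le_mul_of_nonneg_right (by linarith) S0.le
      constructor
      · linarith
      · linarith
    · obtain ⟨t, t1, t2⟩ := exists_ap (D := 32 * S) (by linarith) (4 * X0) W
      refine ⟨t, fun k k1 k2 => ?_⟩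
      rw [h1]
      have b1 : (t * 8) * S ≤ k * S := mul_le_mul_of_nonneg_right (by linarith) S0.le
      have b2 : k * S ≤ (t * 8 + 8 * J) * S := mul_le_mul_of_nonneg_right (by linarith) S0.le
      constructor
      · linarith
      · linarith
  obtain ⟨k, k1, k2, -, k3, k4⟩ := ap_gcd2 hcap hD hE hX t0
  obtain ⟨w1, w2⟩ := ht0 k k1 k2
  rw [← eX k] at w1 w2
  -- the slit `l_k`
  have x1 : u + (p - u) = p := by abel
  have uk : cr u (e + k • p) = b := by rw [cr_ek, ue, hup]; ring
  have pk : cr p (e + k • p) = a := by rw [cr_ek, pe, cr_self']; ring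
  have hc := h.change (l1 := e + k • p) (q1 := p - u) (m1 := m) (s1 := s)
    (by rw [uk]; exact b0) (by rw [cr_subl, pk, uk]; linarith) (by
      rw [x1]
      exact closure_pair_eq (α := 1) (β := k) (γ := 0) (δ := 1) (by module) (by module)
        (Or.inl (by norm_num))) (by rw [← hF]; exact m0) s0 rfl
  obtain ⟨y, hy⟩ : ∃ y, y = α • u + ε • (v + (e + k • p) + m) := ⟨_, rfl⟩
  rw [← hy] at w1 w2
  -- the products
  have eYr : cr y m = r + ε * cr (e + k • p) m := by
    rw [hy, cr_exit, cr_add3l, cr_self', hr, hF]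
    ring
  have plu : (A + F) * cr y m = W * r - F * cr y (e + k • p) := by
    have h1 : b * cr y m - F * cr y (e + k • p) = cr u y * cr (e + k • p) m := by
      rw [← uk, hF]
      simp only [cr]
      ring
    have h2 : cr u y = ε * W := by
      have : cr u y = α * cr u u + ε * (cr u v + cr u (e + k • p) + cr u m) := by
        rw [hy]
        simp only [cr, Prod.fst_add, Prod.snd_add, Prod.smul_fst, Prod.smul_snd, smul_eq_mul]
        ring
      rw [this, cr_self', uk, ← hA, ← hF, hW]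
      ring
    rw [h2] at h1
    have h3 : ε * cr (e + k • p) m = cr y m - r := by rw [eYr]; ring
    linear_combination -h1 - W * h3 - (cr y m) * hW
  have Ypos : 0 < cr y m := by
    have h1 : 0 < (A + F) * cr y m := by
      rw [plu]
      have h2 : F * (2 * cr y (e + k • p)) < F * W := mul_lt_mul_of_pos_left w2 m0
      have h3 : W * F ≤ W * (2 * r) := mul_le_mul_of_nonneg_left r1 hW0.le
      linarith
    exact (pos_iff_pos_of_mul_pos h1).1 (by linarith)
  have Xpos : 0 < cr y (e + k • p) := by linarith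
  have sumlt : cr y (e + k • p) + cr y m < W := by
    have h1 : (A + F) * (cr y (e + k • p) + cr y m) < (A + F) * W := by
      have h2 : (A + F) * (cr y (e + k • p) + cr y m) = A * cr y (e + k • p) + W * r := by
        linear_combination plu
      rw [h2]
      have h3 : A * cr y (e + k • p) < A * W := mul_lt_mul_of_pos_left (by linarith) A0
      have h4 : W * r ≤ W * F := mul_le_mul_of_nonneg_left r2 hW0.le
      linarith
    exact lt_of_mul_lt_mul_left h1 (by linarith)
  have hcop : IsCoprime α ε := ⟨0, ε, by rw [zero_mul, zero_add, ε2]⟩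
  obtain ⟨v', c1, c2, -⟩ := hc.1.center hcop hy Xpos Ypos (by
    rw [uk, ← hA, ← hF, ← hW]; exact sumlt)
  rw [uk, ← hA, ← hF, ← hW] at c2
  refine ⟨k, y, v', c1, w1, w2, c2, ?_, ?_⟩
  · have g1 := gcd4_dvd X0 G (-ε * S) 0
    have h1 : ct y (e + k • p) (p - u) ∣ 4 * gcd4 X0 G (-ε * S) 0 := by
      refine k3 _ ?_ ?_
      · rw [← eX k, ← hy]; exact ct_dvd_left
      · rw [← eG k, ← hy]; exact ct_dvd_right
    refine h1.trans (mul_dvd_mul_left 4 ?_)
    have h2 : -ε * S ∣ S := ⟨-ε, by linear_combination (-S) * ε2⟩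
    exact g1.2.2.1.trans h2
  · have g1 := gcd4_dvd Y0 S1 (ε * cr p m) (ε * cr p s)
    have h1 : ct y m s ∣ 4 * gcd4 Y0 S1 (ε * cr p m) (ε * cr p s) := by
      refine k4 _ ?_ ?_
      · rw [← eY k, ← hy]; exact ct_dvd_left
      · rw [← eS k, ← hy]; exact ct_dvd_right
    refine h1.trans (mul_dvd_mul_left 4 ?_)
    have h2 : ε * cr p m ∣ cr p m := ⟨ε, by linear_combination (-cr p m) * ε2⟩
    exact g1.2.2.1.trans h2

/-- **FLAT EXIT, level form** (6.2 of the page): if `L` is flat (`N ≤ R b`) and `A + b' ≤ N / K` with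
`K` large, there is a tree with both contents at most `4 R N / K` and `L`-area at least `N / 4 R`. -/
theorem lv_flat {J C : ℕ} {R K b' a' : ℤ} {e' p' : Z2} (hcap : Cap J C) (hC : 64 * N ^ 7 ≤ C)
    (h : Lv O N u v e p e' p' b a b' a') (R0 : 1 ≤ R) (K0 : 0 < K) (hA : K * (cr u v + b') ≤ N)
    (hz : N ≤ R * b) (hK : 32 * ((J : ℤ) + 1) * R ^ 2 ≤ K) :
    ∃ y v' l q m s : Z2, TN O N y v' l q m s ∧ K * ct y l q ≤ 4 * R * N ∧
      K * ct y m s ≤ 4 * R * N ∧ N ≤ 4 * R * cr y l := by
  have A0 := h.A0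
  have b0 := h.c0
  have b0' := h.c0'
  have ab := h.ca
  have ab' := h.ca'
  have hsum := h.sum
  have hN : 0 < N := by linarith
  obtain ⟨A, hAe⟩ : ∃ A, A = cr u v := ⟨_, rfl⟩
  rw [← hAe] at A0 hA hsum
  have yp : ∀ x : Z2, b * cr p x = a * cr u x := by
    intro x
    have := congrArg (fun w => cr w x) h.cp
    simp only [cr, Prod.smul_fst, Prod.smul_snd, smul_eq_mul] at this ⊢
    linarith
  obtain ⟨S, hS⟩ : ∃ S, S = cr p (v + e') := ⟨_, rfl⟩
  obtain ⟨S', hS'⟩ : ∃ S', S' = cr p e' := ⟨_, rfl⟩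
  have bS : b * S = a * (A + b') := by
    rw [hS, yp, cr_addr, ← hAe, h.ue']
  have bS' : b * S' = a * b' := by
    rw [hS', yp, h.ue']
  have key : ∀ S x : ℤ, 0 < x → b * S = a * x → 0 < S ∧ S ≤ R * x := by
    intro S x x0 hx
    have h1 : 0 < b * S := by rw [hx]; exact mul_pos (by linarith) x0
    have S0 : 0 < S := (pos_iff_pos_of_mul_pos h1).1 b0
    refine ⟨S0, ?_⟩
    have h2 : N * S ≤ N * (R * x) := by
      calc N * S ≤ R * b * S := mul_le_mul_of_nonneg_right hz S0.le
        _ = R * (b * S) := by ring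
        _ = a * (R * x) := by rw [hx]; ring
        _ ≤ N * (R * x) := mul_le_mul_of_nonneg_right (by linarith) (by positivity)
    exact le_of_mul_le_mul_left h2 hN
  obtain ⟨S0, S1⟩ := key S (A + b') (by linarith) bS
  obtain ⟨S0', S1'⟩ := key S' b' b0' bS'
  have KS : K * S ≤ R * N := by
    calc K * S ≤ K * (R * (A + b')) := mul_le_mul_of_nonneg_left S1 K0.le
      _ = R * (K * (A + b')) := by ring
      _ ≤ R * N := mul_le_mul_of_nonneg_left hA (by linarith)
  have KS' : K * S' ≤ R * N := by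
    have h1 : K * b' ≤ K * (A + b') := mul_le_mul_of_nonneg_left (by linarith) K0.le
    calc K * S' ≤ K * (R * b') := mul_le_mul_of_nonneg_left S1' K0.le
      _ = R * (K * b') := by ring
      _ ≤ R * N := mul_le_mul_of_nonneg_left (h1.trans hA) (by linarith)
  obtain ⟨W, hW⟩ : ∃ W, W = A + b + b' := ⟨_, rfl⟩
  have RW : N ≤ R * W := by
    have : R * b ≤ R * W := mul_le_mul_of_nonneg_left (by linarith) (by linarith)
    linarith
  have hJ : 32 * ((J : ℤ) + 1) * S ≤ W := by
    have h1 : (K * R) * (32 * ((J : ℤ) + 1) * S) ≤ (K * R) * W := by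
      calc (K * R) * (32 * ((J : ℤ) + 1) * S) = 32 * ((J : ℤ) + 1) * R * (K * S) := by ring
        _ ≤ 32 * ((J : ℤ) + 1) * R * (R * N) :=
          mul_le_mul_of_nonneg_left KS (by positivity)
        _ = (32 * ((J : ℤ) + 1) * R ^ 2) * N := by ring
        _ ≤ K * N := mul_le_mul_of_nonneg_right hK hN.le
        _ ≤ K * (R * W) := mul_le_mul_of_nonneg_left RW K0.le
        _ = (K * R) * W := by ring
    exact le_of_mul_le_mul_left h1 (mul_pos K0 (by linarith))
  obtain ⟨k, y, v', t1, t2, -, -, t3, t4⟩ := flat_exit (m := e') (s := p' - u) hcap h.tree b0 h.ue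
    h.pe h.cp ab (by rw [← hS, ← hAe, h.ue', ← hW]; exact hJ) hC
  refine ⟨y, v', e + k • p, p - u, e', p' - u, t1, ?_, ?_, ?_⟩
  · have h1 : ct y (e + k • p) (p - u) ≤ 4 * S := by
      rw [hS]
      exact Int.le_of_dvd (by rw [← hS]; linarith) t3
    calc K * ct y (e + k • p) (p - u) ≤ K * (4 * S) := mul_le_mul_of_nonneg_left h1 K0.le
      _ = 4 * (K * S) := by ring
      _ ≤ 4 * R * N := by linarith
  · have h1 : ct y e' (p' - u) ≤ 4 * S' := by
      rw [hS']
      exact Int.le_of_dvd (by rw [← hS']; linarith) t4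
    calc K * ct y e' (p' - u) ≤ K * (4 * S') := mul_le_mul_of_nonneg_left h1 K0.le
      _ = 4 * (K * S') := by ring
      _ ≤ 4 * R * N := by linarith
  · rw [← hAe, h.ue', ← hW] at t2
    have h1 : R * W ≤ R * (4 * cr y (e + k • p)) := mul_le_mul_of_nonneg_left t2 (by linarith)
    linarith

/-- **FLAT EXIT, tree form** -/
theorem TN.flat {J C : ℕ} {R K : ℤ} {l q : Z2} (hcap : Cap J C) (hC : 64 * N ^ 7 ≤ C)
    (h : TN O N u v l q m s) (R0 : 1 ≤ R) (K0 : 0 < K) (hA : K * (cr u v + ct u m s) ≤ N)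
    (hz : N ≤ R * ct u l q) (hK : 32 * ((J : ℤ) + 1) * R ^ 2 ≤ K) :
    ∃ y v' l' q' m' s' : Z2, TN O N y v' l' q' m' s' ∧ K * ct y l' q' ≤ 4 * R * N ∧
      K * ct y m' s' ≤ 4 * R * N ∧ N ≤ 4 * R * cr y l' := by
  obtain ⟨e, p, e', p', hl, -, -⟩ := h.lv
  exact lv_flat hcap hC hl R0 K0 hA hz hK

end Pool.Agent.H4G.Six
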