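import Pool.Agent.H4G.Six.Mink
import Pool.Agent.H4G.Six.State6

/-!
# Rich lattices contain two-dimensional boxes of flat vectors (helper82; step (G1) of D2)

`L = ⟨l, p⟩`, `a = p × l`, `s = u × m`. If no primitive vector `w` of `L` has both `|u × w| ≤ K s` and
`|w × m| ≤ K s`, then `L` has a basis `la, lb` in the cone `R |w × m| ≤ u × w`, `T (u × w) ≤ a`.
-/

set_option autoImplicit false

namespace Pool.Agent.H4G.Six

open Pool.Agent.H4G

/-- the line crosses the axis in the window -/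
theorem box_line1 {α β x y Q a s R T : ℤ} (hT : 1 ≤ T) (hR : 1 ≤ R)
    (hQ : Q = a * s) (hβ : 0 < β) (hβ2 : 2 * T * s ≤ β) (hRB : 2 * R * β ^ 2 ≤ Q) (ha : 0 < a)
    (hα : 5 * T * |α| < a) (hD : x * β - α * y = Q) :
    ∃ k : ℤ, 0 < x + k * α ∧ 0 < x + (k + 1) * α ∧ R * |y + k * β| ≤ x + k * α ∧
      R * |y + (k + 1) * β| ≤ x + (k + 1) * α ∧ T * (x + k * α) ≤ a ∧
      T * (x + (k + 1) * α) ≤ a := by
  -- a point of the line with `|y| ≤ 2 β` on the right side is good
  have key : ∀ k : ℤ, |y + k * β| ≤ 2 * β → 0 ≤ α * (y + k * β) →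
      0 < x + k * α ∧ R * |y + k * β| ≤ x + k * α ∧ T * (x + k * α) ≤ a := by
    intro k h1 h2
    have e : β * (x + k * α) = Q + α * (y + k * β) := by linear_combination hD
    have h3 : α * (y + k * β) ≤ |α| * (2 * β) := by
      calc α * (y + k * β) ≤ |α * (y + k * β)| := le_abs_self _
        _ = |α| * |y + k * β| := abs_mul _ _
        _ ≤ |α| * (2 * β) := mul_le_mul_of_nonneg_left h1 (abs_nonneg _)
    have h4 : β * (R * |y + k * β|) ≤ β * (x + k * α) := by
      have : R * |y + k * β| ≤ R * (2 * β) := mul_le_mul_of_nonneg_left h1 (by linarith)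
      nlinarith
    have h5 : 0 < β * (x + k * α) := by
      rw [e]
      have : 0 < Q := by nlinarith [pow_pos hβ 2]
      linarith
    have h6 : β * (T * (x + k * α)) ≤ β * a := by
      have e1 : β * (T * (x + k * α)) = T * Q + T * (α * (y + k * β)) := by
        linear_combination T * e
      have e2 : T * (α * (y + k * β)) ≤ T * (|α| * (2 * β)) :=
        mul_le_mul_of_nonneg_left h3 (by linarith)
      have e3 : 2 * (T * Q) ≤ a * β := by
        rw [hQ]
        nlinarith
      have e4 : 5 * (T * (|α| * (2 * β))) ≤ 2 * (a * β) := by nlinarith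
      have e5 : 0 < a * β := mul_pos ha hβ
      rw [e1]
      nlinarith
    exact ⟨(mul_pos_iff_of_pos_left hβ).1 h5, le_of_mul_le_mul_left h4 hβ,
      le_of_mul_le_mul_left h6 hβ⟩
  have d1 := Int.emod_add_mul_ediv y β
  have d2 := Int.emod_nonneg y hβ.ne'
  have d3 := Int.emod_lt_of_pos y hβ
  rcases le_or_gt 0 α with h | h
  · obtain ⟨k, hk⟩ : ∃ k : ℤ, k = -(y / β) := ⟨_, rfl⟩
    have hk0 : y + k * β = y % β := by rw [hk]; linarith
    have hk1 : y + (k + 1) * β = y % β + β := by rw [← hk0]; ring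
    obtain ⟨a1, a2, a3⟩ := key k (by rw [hk0, abs_of_nonneg d2]; linarith)
      (by rw [hk0]; exact mul_nonneg h d2)
    obtain ⟨b1, b2, b3⟩ := key (k + 1) (by rw [hk1, abs_of_nonneg (by linarith)]; linarith)
      (by rw [hk1]; exact mul_nonneg h (by linarith))
    exact ⟨k, a1, b1, a2, b2, a3, b3⟩
  · obtain ⟨k, hk⟩ : ∃ k : ℤ, k = -(y / β) - 2 := ⟨_, rfl⟩
    have hk0 : y + k * β = y % β - 2 * β := by rw [hk]; linarith
    have hk1 : y + (k + 1) * β = y % β - β := by linarith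
    obtain ⟨a1, a2, a3⟩ := key k (by rw [hk0, abs_of_nonpos (by linarith)]; linarith)
      (by rw [hk0]; exact mul_nonneg_of_nonpos_of_nonpos h.le (by linarith))
    obtain ⟨b1, b2, b3⟩ := key (k + 1) (by rw [hk1, abs_of_nonpos (by linarith)]; linarith)
      (by rw [hk1]; exact mul_nonneg_of_nonpos_of_nonpos h.le (by linarith))
    exact ⟨k, a1, b1, a2, b2, a3, b3⟩

/-- the line is flat -/
theorem box_line2 {α β x y a s R T K : ℤ} (hT : 1 ≤ T) (hR : 1 ≤ R) (hs : 0 < s)
    (hK : 8 * R * T ≤ K) (hβ2 : |β| < 2 * T * s) (ha : 64 * T ≤ a)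
    (hα1 : K * s < α) (hα : 5 * T * α < a) (hD : |x * β - α * y| = a * s) :
    ∃ k : ℤ, 0 < x + k * α ∧ 0 < x + (k + 1) * α ∧ R * |y + k * β| ≤ x + k * α ∧
      R * |y + (k + 1) * β| ≤ x + (k + 1) * α ∧ T * (x + k * α) ≤ a ∧
      T * (x + (k + 1) * α) ≤ a := by
  have hRT : 1 ≤ R * T := by nlinarith
  have hK0 : 0 < K := by nlinarith
  have hKs : 0 < K * s := mul_pos hK0 hs
  have hα0 : 0 < α := by linarith
  have ha0 : 0 < a := by linarith
  -- a point of the line in the window is good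
  have key : ∀ k : ℤ, a ≤ 2 * (T * (x + k * α)) → T * (x + k * α) ≤ a →
      0 < x + k * α ∧ R * |y + k * β| ≤ x + k * α := by
    intro k h1 h2
    have h0 : 0 < x + k * α := by
      have : 0 < T * (x + k * α) := by linarith
      exact (mul_pos_iff_of_pos_left (by linarith)).1 this
    refine ⟨h0, ?_⟩
    have e : α * (y + k * β) = (x + k * α) * β - (x * β - α * y) := by ring
    have e1 : α * |y + k * β| ≤ (x + k * α) * |β| + a * s := by
      calc α * |y + k * β| = |α * (y + k * β)| := by rw [abs_mul, abs_of_pos hα0]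
        _ = |(x + k * α) * β - (x * β - α * y)| := by rw [e]
        _ ≤ |(x + k * α) * β| + |x * β - α * y| := abs_sub _ _
        _ = (x + k * α) * |β| + a * s := by rw [abs_mul, abs_of_pos h0, hD]
    have e2 : T * ((x + k * α) * |β|) ≤ a * (2 * T * s) := by
      calc T * ((x + k * α) * |β|) = T * (x + k * α) * |β| := by ring
        _ ≤ a * (2 * T * s) := by
          apply mul_le_mul h2 hβ2.le (abs_nonneg _) ha0.le
    have e3 : (x + k * α) * |β| ≤ 2 * (a * s) := by
      have : T * ((x + k * α) * |β|) ≤ T * (2 * (a * s)) := by linarith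
      exact le_of_mul_le_mul_left this (by linarith)
    have e4 : K * s * |y + k * β| ≤ 3 * (a * s) := by
      have : K * s * |y + k * β| ≤ α * |y + k * β| :=
        mul_le_mul_of_nonneg_right hα1.le (abs_nonneg _)
      linarith
    have e5 : K * |y + k * β| ≤ 3 * a := by
      have : s * (K * |y + k * β|) ≤ s * (3 * a) := by linarith
      exact le_of_mul_le_mul_left this hs
    have e6 : 8 * R * T * |y + k * β| ≤ 3 * a :=
      (mul_le_mul_of_nonneg_right hK (abs_nonneg _)).trans e5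
    have e7 : (8 * T) * (R * |y + k * β|) ≤ (8 * T) * (x + k * α) := by linarith
    exact le_of_mul_le_mul_left e7 (by linarith)
  obtain ⟨c, hc⟩ : ∃ c : ℤ, c = a / T - 2 * α := ⟨_, rfl⟩
  have c1 : T * (c + 2 * α) ≤ a := by
    have := Int.ediv_mul_le a (show T ≠ 0 by linarith)
    have e : c + 2 * α = a / T := by linarith
    rw [e]; linarith
  have c2 : a < T * (c + 2 * α) + T := by
    have := Int.lt_ediv_add_one_mul_self a (show 0 < T by linarith)
    have e : c + 2 * α = a / T := by linarith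
    rw [e]; linarith
  have d1 := Int.emod_add_mul_ediv (x - c - 1) α
  have d2 := Int.emod_nonneg (x - c - 1) hα0.ne'
  have d3 := Int.emod_lt_of_pos (x - c - 1) hα0
  obtain ⟨k, hk⟩ : ∃ k : ℤ, k = -((x - c - 1) / α) := ⟨_, rfl⟩
  have k0 : x + k * α = c + 1 + (x - c - 1) % α := by rw [hk]; linarith
  have k1 : x + (k + 1) * α = c + 1 + (x - c - 1) % α + α := by rw [← k0]; ring
  have f1 : c < x + k * α := by linarith
  have f2 : x + k * α ≤ c + α := by linarith
  have f3 : c + α < x + (k + 1) * α := by linarith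
  have f4 : x + (k + 1) * α ≤ c + 2 * α := by linarith
  have hT0 : 0 < T := by linarith
  have g1 : T * (x + k * α) ≤ a :=
    (mul_le_mul_of_nonneg_left (by linarith : x + k * α ≤ c + 2 * α) hT0.le).trans c1
  have g2 : T * (x + (k + 1) * α) ≤ a := (mul_le_mul_of_nonneg_left f4 hT0.le).trans c1
  have g3 : T * c ≤ T * (x + k * α) := mul_le_mul_of_nonneg_left f1.le hT0.le
  have g4 : T * c ≤ T * (x + (k + 1) * α) :=
    mul_le_mul_of_nonneg_left (by linarith) hT0.le
  have g5 : a ≤ 2 * (T * c) := by nlinarith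
  obtain ⟨a1, a2⟩ := key k (by linarith) g1
  obtain ⟨b1, b2⟩ := key (k + 1) (by linarith) g2
  exact ⟨k, a1, b1, a2, b2, g1, g2⟩

/-- **Two integral forms without a short vector: a basis in a flat cone.** -/
theorem box_int {f1 f2 g1 g2 a s R T K : ℤ} (hs : 0 < s) (hR : 1 ≤ R) (hT : 1 ≤ T)
    (hK : 8 * R * T ≤ K) (hB : 64 * R * T ^ 2 * s ≤ a) (hD : |f1 * g2 - f2 * g1| = a * s)
    (hr : ∀ i j : ℤ, IsCoprime i j → |i * f1 + j * f2| ≤ K * s → K * s < |i * g1 + j * g2|) :
    ∃ i j i' j' : ℤ, i * j' - i' * j = 1 ∧ 0 < i * f1 + j * f2 ∧ 0 < i' * f1 + j' * f2 ∧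
      R * |i * g1 + j * g2| ≤ i * f1 + j * f2 ∧ R * |i' * g1 + j' * g2| ≤ i' * f1 + j' * f2 ∧
      T * (i * f1 + j * f2) ≤ a ∧ T * (i' * f1 + j' * f2) ≤ a := by
  have hRT : 1 ≤ R * T := by nlinarith
  have hT2 : T ≤ T ^ 2 := by nlinarith
  have haT : 64 * T ≤ a := by
    have h1 : T ≤ R * T ^ 2 := by nlinarith
    have h2 : R * T ^ 2 ≤ R * T ^ 2 * s := by nlinarith
    nlinarith
  have ha : 0 < a := by linarith
  obtain ⟨Q, hQ⟩ : ∃ Q : ℤ, Q = a * s := ⟨_, rfl⟩
  have hQ0 : 0 < Q := by rw [hQ]; exact mul_pos ha hs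
  -- the box of Minkowski's theorem
  obtain ⟨B, hB0, hB1, hB2⟩ : ∃ B : ℤ, 0 ≤ B ∧ 2 * R * B ^ 2 ≤ Q ∧ Q < 2 * R * (B + 1) ^ 2 := by
    obtain ⟨n, hn⟩ : ∃ n : ℕ, n = Nat.sqrt (Q / (2 * R)).toNat := ⟨_, rfl⟩
    have hq : 0 ≤ Q / (2 * R) := Int.ediv_nonneg hQ0.le (by linarith)
    have h1 : n ^ 2 ≤ (Q / (2 * R)).toNat := by rw [hn]; exact Nat.sqrt_le' _
    have h2 : (Q / (2 * R)).toNat < (n + 1) ^ 2 := by rw [hn]; exact Nat.lt_succ_sqrt' _
    have h1' : (n : ℤ) ^ 2 ≤ Q / (2 * R) := by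
      have : ((n ^ 2 : ℕ) : ℤ) ≤ ((Q / (2 * R)).toNat : ℤ) := by exact_mod_cast h1
      rw [Int.toNat_of_nonneg hq] at this
      exact_mod_cast this
    have h2' : Q / (2 * R) < ((n : ℤ) + 1) ^ 2 := by
      have : ((Q / (2 * R)).toNat : ℤ) < (((n + 1) ^ 2 : ℕ) : ℤ) := by exact_mod_cast h2
      rw [Int.toNat_of_nonneg hq] at this
      exact_mod_cast this
    have hR2 : 0 < 2 * R := by linarith
    refine ⟨n, by positivity, ?_, ?_⟩
    · have h3 := Int.ediv_mul_le Q hR2.ne'
      nlinarith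
    · have h3 := Int.lt_ediv_add_one_mul_self Q hR2
      nlinarith
  obtain ⟨A, hA⟩ : ∃ A : ℤ, A = Q / (B + 1) + 1 := ⟨_, rfl⟩
  have hB3 : 0 < B + 1 := by linarith
  have hA1 : Q < A * (B + 1) := by rw [hA]; exact Int.lt_ediv_add_one_mul_self Q hB3
  have hA2 : (A - 1) * (B + 1) ≤ Q := by
    rw [hA, add_sub_cancel_right]; exact Int.ediv_mul_le Q hB3.ne'
  have hA0 : 0 ≤ A - 1 := by
    rw [hA, add_sub_cancel_right]; exact Int.ediv_nonneg hQ0.le hB3.le
  -- `25 T² (A - 1)² < a²`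
  have hA3 : 5 * T * (A - 1) < a := by
    have h1 : ((A - 1) * (B + 1)) ^ 2 ≤ Q ^ 2 := pow_le_pow_left₀ (mul_nonneg hA0 hB3.le) hA2 2
    have h2 : (A - 1) ^ 2 * Q < 2 * R * Q ^ 2 ∨ A - 1 = 0 := by
      rcases eq_or_lt_of_le hA0 with h | h
      · exact Or.inr h.symm
      · left
        have h3 : (A - 1) ^ 2 * Q < (A - 1) ^ 2 * (2 * R * (B + 1) ^ 2) :=
          mul_lt_mul_of_pos_left hB2 (pow_pos h 2)
        nlinarith
    rcases h2 with h2 | h2
    · have h3 : (A - 1) ^ 2 < 2 * R * Q := by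
        have : Q * (A - 1) ^ 2 < Q * (2 * R * Q) := by nlinarith
        exact lt_of_mul_lt_mul_left this hQ0.le
      have h4 : 32 * T ^ 2 * (2 * R * Q) ≤ a ^ 2 := by
        rw [hQ]
        have : 64 * R * T ^ 2 * s * a ≤ a * a := mul_le_mul_of_nonneg_right hB ha.le
        nlinarith
      have h5 : (5 * T * (A - 1)) ^ 2 < a ^ 2 := by
        have : 25 * T ^ 2 * (A - 1) ^ 2 ≤ 25 * T ^ 2 * (2 * R * Q) :=
          mul_le_mul_of_nonneg_left h3.le (by positivity)
        have h6 : 0 < T ^ 2 * (2 * R * Q) := by positivity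
        nlinarith
      exact lt_of_pow_lt_pow_left₀ 2 ha.le h5
    · rw [h2]; linarith
  obtain ⟨i, j, c1, c2, c3⟩ := mink (f1 := f1) (f2 := f2) (g1 := g1) (g2 := g2) (A := A) (B := B)
    (by linarith) hB0 (by rw [hD, ← hQ]; exact hA1)
  obtain ⟨r, t, hrt⟩ := c1
  -- the complement `(-t, r)` : `i r + j t = 1`
  obtain ⟨α, hα⟩ : ∃ α, α = i * f1 + j * f2 := ⟨_, rfl⟩
  obtain ⟨β, hβ⟩ : ∃ β, β = i * g1 + j * g2 := ⟨_, rfl⟩
  obtain ⟨x, hx⟩ : ∃ x, x = -t * f1 + r * f2 := ⟨_, rfl⟩
  obtain ⟨y, hy⟩ : ∃ y, y = -t * g1 + r * g2 := ⟨_, rfl⟩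
  rw [← hα] at c2
  rw [← hβ] at c3
  have hdet : α * y - x * β = f1 * g2 - f2 * g1 := by
    rw [hα, hβ, hx, hy]
    linear_combination (f1 * g2 - f2 * g1) * hrt
  have hdet' : |x * β - α * y| = a * s := by
    rw [← hD, ← hdet, abs_sub_comm]
  have hα5 : 5 * T * |α| < a := by
    have : 5 * T * |α| ≤ 5 * T * (A - 1) := mul_le_mul_of_nonneg_left (by linarith) (by linarith)
    linarith
  -- it suffices to find two consecutive points, up to signs
  have fin : ∀ ε δ : ℤ, (ε = 1 ∨ ε = -1) → (δ = 1 ∨ δ = -1) →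
      (∃ k : ℤ, 0 < δ * x + k * (ε * α) ∧ 0 < δ * x + (k + 1) * (ε * α) ∧
        R * |δ * y + k * (ε * β)| ≤ δ * x + k * (ε * α) ∧
        R * |δ * y + (k + 1) * (ε * β)| ≤ δ * x + (k + 1) * (ε * α) ∧
        T * (δ * x + k * (ε * α)) ≤ a ∧ T * (δ * x + (k + 1) * (ε * α)) ≤ a) →
      ∃ i j i' j' : ℤ, i * j' - i' * j = 1 ∧ 0 < i * f1 + j * f2 ∧ 0 < i' * f1 + j' * f2 ∧
      R * |i * g1 + j * g2| ≤ i * f1 + j * f2 ∧ R * |i' * g1 + j' * g2| ≤ i' * f1 + j' * f2 ∧
      T * (i * f1 + j * f2) ≤ a ∧ T * (i' * f1 + j' * f2) ≤ a := by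
    rintro ε δ hε hδ ⟨k, k1, k2, k3, k4, k5, k6⟩
    have e1 : ∀ n : ℤ, (-(δ * t) + n * (ε * i)) * f1 + (δ * r + n * (ε * j)) * f2 =
        δ * x + n * (ε * α) := by intro n; rw [hx, hα]; ring
    have e2 : ∀ n : ℤ, (-(δ * t) + n * (ε * i)) * g1 + (δ * r + n * (ε * j)) * g2 =
        δ * y + n * (ε * β) := by intro n; rw [hy, hβ]; ring
    have e3 : (-(δ * t) + k * (ε * i)) * (δ * r + (k + 1) * (ε * j)) -
        (-(δ * t) + (k + 1) * (ε * i)) * (δ * r + k * (ε * j)) = -(ε * δ) := by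
      linear_combination (-(ε * δ)) * hrt
    rcases (show ε * δ = -1 ∨ ε * δ = 1 by
      rcases hε with h | h <;> rcases hδ with h' | h' <;> rw [h, h'] <;> norm_num) with h | h
    · refine ⟨-(δ * t) + k * (ε * i), δ * r + k * (ε * j), -(δ * t) + (k + 1) * (ε * i),
        δ * r + (k + 1) * (ε * j), by rw [e3, h]; ring, ?_⟩
      rw [e1, e1, e2, e2]
      exact ⟨k1, k2, k3, k4, k5, k6⟩
    · refine ⟨-(δ * t) + (k + 1) * (ε * i), δ * r + (k + 1) * (ε * j), -(δ * t) + k * (ε * i),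
        δ * r + k * (ε * j), by linarith [e3], ?_⟩
      rw [e1, e1, e2, e2]
      exact ⟨k2, k1, k4, k3, k6, k5⟩
  rcases le_or_gt (2 * T * s) |β| with hb | hb
  · -- the line crosses the axis
    have hβ0 : 0 < |β| := lt_of_lt_of_le (by positivity) hb
    have hRB : 2 * R * |β| ^ 2 ≤ Q := by
      have : |β| ^ 2 ≤ B ^ 2 := pow_le_pow_left₀ hβ0.le c3 2
      nlinarith
    obtain ⟨ε, hε, hε2⟩ : ∃ ε : ℤ, (ε = 1 ∨ ε = -1) ∧ ε * β = |β| := by
      rcases le_or_gt 0 β with h | h
      · exact ⟨1, Or.inl rfl, by rw [abs_of_nonneg h, one_mul]⟩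
      · exact ⟨-1, Or.inr rfl, by rw [abs_of_neg h]; ring⟩
    obtain ⟨δ, hδ, hδ2⟩ : ∃ δ : ℤ, (δ = 1 ∨ δ = -1) ∧
        δ * (ε * (x * β - α * y)) = |x * β - α * y| := by
      have h0 : |ε * (x * β - α * y)| = |x * β - α * y| := by
        rw [abs_mul]
        rcases hε with h | h <;> rw [h] <;> simp
      rcases le_or_gt 0 (ε * (x * β - α * y)) with h | h
      · exact ⟨1, Or.inl rfl, by rw [← h0, abs_of_nonneg h, one_mul]⟩
      · exact ⟨-1, Or.inr rfl, by rw [← h0, abs_of_neg h]; ring⟩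
    refine fin ε δ hε hδ ?_
    have hεα : |ε * α| = |α| := by
      rw [abs_mul]
      rcases hε with h | h <;> rw [h] <;> simp
    exact box_line1 (Q := Q) (s := s) hT hR hQ (by rw [hε2]; exact hβ0) (by rw [hε2]; exact hb)
      (by rw [hε2]; exact hRB) ha (by rw [hεα]; exact hα5)
      (by rw [hQ, ← hdet', ← hδ2]; ring)
  · -- the line is flat
    have hKs : K * s < |α| := by
      by_contra hcon
      push Not at hcon
      have h1 := hr i j ⟨r, t, hrt⟩ (by rw [← hα]; exact hcon)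
      rw [← hβ] at h1
      have h2 : 2 * T * s ≤ K * s := by
        refine mul_le_mul_of_nonneg_right ?_ hs.le
        nlinarith
      linarith
    obtain ⟨ε, hε, hε2⟩ : ∃ ε : ℤ, (ε = 1 ∨ ε = -1) ∧ ε * α = |α| := by
      rcases le_or_gt 0 α with h | h
      · exact ⟨1, Or.inl rfl, by rw [abs_of_nonneg h, one_mul]⟩
      · exact ⟨-1, Or.inr rfl, by rw [abs_of_neg h]; ring⟩
    refine fin ε 1 hε (Or.inl rfl) ?_
    have hεβ : |ε * β| = |β| := by
      rw [abs_mul]
      rcases hε with h | h <;> rw [h] <;> simp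
    refine box_line2 (s := s) (K := K) hT hR hs hK (by rw [hεβ]; exact hb) haT
      (by rw [hε2]; exact hKs) (by rw [hε2]; exact hα5) ?_
    rw [← hdet']
    have : 1 * x * (ε * β) - ε * α * (1 * y) = ε * (x * β - α * y) := by ring
    rw [this, abs_mul]
    rcases hε with h | h <;> rw [h] <;> simp

/-! ## Lattices -/

/-- `L = ⟨l, p⟩` is rich over `m`: no primitive vector `w` of `L` has `|u × w| ≤ K s` and
`|w × m| ≤ K s`, `s = u × m`. -/
def Rich (u l p m : Z2) (K : ℤ) : Prop := ∀ i j : ℤ, IsCoprime i j →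
  |cr u (i • l + j • p)| ≤ K * cr u m → K * cr u m < |cr (i • l + j • p) m|

/-- **(G1)** a rich lattice has a basis in the flat cone -/
theorem rich_box {u l p m : Z2} {R T K : ℤ} (hs : 0 < cr u m) (ha : 0 < cr p l) (hR : 1 ≤ R)
    (hT : 1 ≤ T) (hK : 8 * R * T ≤ K) (hB : 64 * R * T ^ 2 * cr u m ≤ cr p l)
    (hr : Rich u l p m K) : ∃ (i j i' j' : ℤ) (la lb : Z2), i * j' - i' * j = 1 ∧
      la = i • l + j • p ∧ lb = i' • l + j' • p ∧ 0 < cr u la ∧ 0 < cr u lb ∧
      R * |cr la m| ≤ cr u la ∧ R * |cr lb m| ≤ cr u lb ∧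
      T * cr u la ≤ cr p l ∧ T * cr u lb ≤ cr p l := by
  have e1 : ∀ i j : ℤ, cr u (i • l + j • p) = i * cr u l + j * cr u p := fun i j =>
    cr_zz_right l p u i j
  have e2 : ∀ i j : ℤ, cr (i • l + j • p) m = i * cr l m + j * cr p m := fun i j =>
    cr_zz_left l p m i j
  have hD : |cr u l * cr p m - cr u p * cr l m| = cr p l * cr u m := by
    have := cr_plucker u p l m
    rw [show cr u l * cr p m - cr u p * cr l m = cr p l * cr u m by linarith]
    exact abs_of_pos (mul_pos ha hs)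
  obtain ⟨i, j, i', j', h0, h1, h2, h3, h4, h5, h6⟩ := box_int hs hR hT hK hB hD (by
    intro i j hij h
    rw [← e1] at h
    rw [← e2]
    exact hr i j hij h)
  refine ⟨i, j, i', j', _, _, h0, rfl, rfl, ?_⟩
  rw [e1, e1, e2, e2]
  exact ⟨h1, h2, h3, h4, h5, h6⟩

/-- the nonnegative combinations of two vectors of the cone -/
theorem cone_comb {u la lb m : Z2} {R T a x y : ℤ} (hx : 0 ≤ x) (hy : 0 ≤ y)
    (h0 : 0 < x + y) (hR : 0 ≤ R) (h1 : 0 < cr u la) (h2 : 0 < cr u lb)
    (h3 : R * |cr la m| ≤ cr u la) (h4 : R * |cr lb m| ≤ cr u lb) (h5 : T * cr u la ≤ a)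
    (h6 : T * cr u lb ≤ a) : 0 < cr u (x • la + y • lb) ∧
      R * |cr (x • la + y • lb) m| ≤ cr u (x • la + y • lb) ∧
      T * cr u (x • la + y • lb) ≤ (x + y) * a := by
  rw [cr_zz_right, cr_zz_left]
  refine ⟨?_, ?_, by nlinarith⟩
  · rcases eq_or_lt_of_le hx with h | h
    · rw [← h, zero_mul, zero_add]
      exact mul_pos (by linarith) h2
    · have := mul_pos h h1
      have := mul_nonneg hy h2.le
      linarith
  · have e1 : |x * cr la m + y * cr lb m| ≤ x * |cr la m| + y * |cr lb m| := by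
      calc |x * cr la m + y * cr lb m| ≤ |x * cr la m| + |y * cr lb m| := abs_add_le _ _
        _ = x * |cr la m| + y * |cr lb m| := by
          rw [abs_mul, abs_mul, abs_of_nonneg hx, abs_of_nonneg hy]
    have e2 := mul_le_mul_of_nonneg_left e1 hR
    nlinarith

/-- the primitive vectors of `L` parallel to `u` -/
theorem par_height {u l p m : Z2} {i j : ℤ} (hij : IsCoprime i j)
    (h : cr u (i • l + j • p) = 0) :
    (Int.gcd (cr u l) (cr u p) : ℤ) * |cr (i • l + j • p) m| = |cr p l * cr u m| := by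
  rw [cr_zz_right] at h
  rw [cr_zz_left]
  have hP := cr_plucker u p l m
  obtain ⟨r, t, hrt⟩ := hij
  -- `cr u l = g j`, `cr u p = - g i`
  obtain ⟨g, hg⟩ : ∃ g, g = t * cr u l - r * cr u p := ⟨_, rfl⟩
  have h1 : cr u l = g * j := by
    rw [hg]
    linear_combination (-cr u l) * hrt + r * h
  have h2 : cr u p = -(g * i) := by
    rw [hg]
    linear_combination (-cr u p) * hrt + t * h
  have h3 : (Int.gcd (cr u l) (cr u p) : ℤ) = |g| := by
    rw [h1, h2, Int.gcd_neg, Int.gcd_mul_left]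
    have : Int.gcd j i = 1 := Int.isCoprime_iff_gcd_eq_one.1 ⟨t, r, by linarith⟩
    rw [this, mul_one, Int.natCast_natAbs]
  rw [h3, ← abs_mul]
  have h4 : g * (i * cr l m + j * cr p m) = cr p l * cr u m := by
    rw [h1, h2] at hP
    linear_combination hP
  rw [h4]

/-- two primitive vectors of `L` with a small product are parallel -/
theorem par_of_small {l p : Z2} {i j i' j' : ℤ} (hij : IsCoprime i j)
    (hij' : IsCoprime i' j') (h : |cr (i • l + j • p) (i' • l + j' • p)| < |cr p l|) :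
    (i' = i ∧ j' = j) ∨ (i' = -i ∧ j' = -j) := by
  have e : cr (i • l + j • p) (i' • l + j' • p) = -(i * j' - i' * j) * cr p l := by
    simp only [cr, Prod.fst_add, Prod.snd_add, Prod.smul_fst, Prod.smul_snd, smul_eq_mul]
    ring
  rw [e, abs_mul, abs_neg] at h
  have h0 : i * j' - i' * j = 0 := by
    by_contra hne
    have h1 : 1 ≤ |i * j' - i' * j| := Int.one_le_abs hne
    have h2 : 0 ≤ |cr p l| := abs_nonneg _
    nlinarith
  obtain ⟨r, t, hrt⟩ := hij
  obtain ⟨r', t', hrt'⟩ := hij'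
  obtain ⟨n, hn⟩ : ∃ n, n = r * i' + t * j' := ⟨_, rfl⟩
  have h1 : i' = n * i := by
    rw [hn]
    linear_combination (-i') * hrt - t * h0
  have h2 : j' = n * j := by
    rw [hn]
    linear_combination (-j') * hrt + r * h0
  have h3 : n * (r' * i + t' * j) = 1 := by
    rw [← hrt', h1, h2]; ring
  rcases Int.eq_one_or_neg_one_of_mul_eq_one h3 with h | h
  · left; rw [h1, h2, h]; constructor <;> ring
  · right; rw [h1, h2, h]; constructor <;> ring

/-- the step: a bad vector for `m` makes `L` rich over `m + k w` for all `k` behind its interval -/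
theorem room_step {u l p m w : Z2} {K J c a' i j : ℤ} (hc : 0 < c) (hca : c ≤ a')
    (hw : c • w = a' • u) (hm : 0 < cr u m) (hK : 1 ≤ K) (hJ : 1 ≤ J) (ha : 0 < cr p l)
    (hbK : K * (Int.gcd (cr u l) (cr u p) : ℤ) < cr p l)
    (hA : 6 * J * K ^ 2 * (a' * cr u m) < cr p l * c) (hij : IsCoprime i j)
    (b0 : 0 < cr u (i • l + j • p)) (b1 : cr u (i • l + j • p) ≤ K * cr u m)
    (b2 : |cr (i • l + j • p) m| ≤ K * cr u m) {k : ℤ}
    (k1 : 2 * K * cr u m * c < k * (a' * cr u (i • l + j • p)))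
    (k2 : k * (a' * cr u (i • l + j • p)) ≤
      3 * K * cr u m * c + J * (a' * cr u (i • l + j • p))) :
    Rich u l p (m + k • w) K := by
  have hwx : ∀ x : Z2, c * cr w x = a' * cr u x := by
    intro x
    have e1 : cr (c • w) x = c * cr w x := by
      simp only [cr, Prod.smul_fst, Prod.smul_snd, smul_eq_mul]; ring
    have e2 : cr (a' • u) x = a' * cr u x := by
      simp only [cr, Prod.smul_fst, Prod.smul_snd, smul_eq_mul]; ring
    rw [← e1, ← e2, hw]
  have huw : cr u w = 0 := by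
    have := hwx u
    rw [cr_self, mul_zero] at this
    have h0 : cr w u = 0 := by
      rcases mul_eq_zero.1 this with h | h
      · exact absurd h hc.ne'
      · exact h
    rw [cr_swap', h0, neg_zero]
  have hum : cr u (m + k • w) = cr u m := by
    have : cr u (m + k • w) = cr u m + k * cr u w := by
      simp only [cr, Prod.fst_add, Prod.snd_add, Prod.smul_fst, Prod.smul_snd, smul_eq_mul]; ring
    rw [this, huw, mul_zero, add_zero]
  obtain ⟨x, hx⟩ : ∃ x : Z2, x = i • l + j • p := ⟨_, rfl⟩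
  rw [← hx] at b0 b1 b2 k1 k2
  have hk : cr x (m + k • w) = cr x m + k * cr x w := by
    simp only [cr, Prod.fst_add, Prod.snd_add, Prod.smul_fst, Prod.smul_snd, smul_eq_mul]; ring
  have hxw : c * cr x w = -(a' * cr u x) := by
    rw [cr_swap' w x, mul_neg, hwx]
  intro i' j' hij' h1
  rw [hum] at h1 ⊢
  by_contra h2
  push Not at h2
  obtain ⟨y, hy⟩ : ∃ y : Z2, y = i' • l + j' • p := ⟨_, rfl⟩
  rw [← hy] at h1 h2
  -- `u × y ≠ 0`
  have ha' : 0 < a' := by linarith
  by_cases hy0 : cr u y = 0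
  · have h3 := par_height (m := m + k • w) hij' (by rw [← hy]; exact hy0)
    rw [← hy, hum, abs_of_pos (mul_pos ha hm)] at h3
    have h4 : (0 : ℤ) ≤ (Int.gcd (cr u l) (cr u p) : ℤ) := Int.natCast_nonneg _
    have h5 := mul_le_mul_of_nonneg_left h2 h4
    rw [h3] at h5
    have h6 : (Int.gcd (cr u l) (cr u p) : ℤ) * (K * cr u m) < cr p l * cr u m := by
      have := mul_lt_mul_of_pos_right hbK hm
      linarith
    linarith
  -- `x`, `y` are parallel
  have hP := cr_plucker u (m + k • w) x y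
  have e1 : cr (m + k • w) y = -cr y (m + k • w) := cr_swap' _ _
  have e2 : cr (m + k • w) x = -cr x (m + k • w) := cr_swap' _ _
  rw [hum, e1, e2] at hP
  have s1 : c * |cr x (m + k • w)| ≤ 4 * K * cr u m * c + J * (a' * cr u x) := by
    have : c * |cr x (m + k • w)| = |c * cr x m - k * (a' * cr u x)| := by
      rw [← abs_of_pos hc, ← abs_mul, abs_of_pos hc, hk]
      congr 1
      linear_combination k * hxw
    rw [this]
    have hk0 : 0 ≤ k * (a' * cr u x) := by
      have : 0 ≤ 2 * K * cr u m * c := by positivity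
      linarith
    calc |c * cr x m - k * (a' * cr u x)| ≤ |c * cr x m| + |k * (a' * cr u x)| := abs_sub _ _
      _ = c * |cr x m| + k * (a' * cr u x) := by rw [abs_mul, abs_of_pos hc, abs_of_nonneg hk0]
      _ ≤ 4 * K * cr u m * c + J * (a' * cr u x) := by
        have := mul_le_mul_of_nonneg_left b2 hc.le
        linarith
  have s2 : cr u m * (c * |cr x y|) < cr u m * (c * cr p l) := by
    have q1 : cr u m * cr x y = -(cr u x * cr y (m + k • w)) + cr x (m + k • w) * cr u y := by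
      linarith
    have q2 : cr u m * |cr x y| ≤ cr u x * (K * cr u m) + |cr x (m + k • w)| * (K * cr u m) := by
      calc cr u m * |cr x y| = |cr u m * cr x y| := by rw [abs_mul, abs_of_pos hm]
        _ = |-(cr u x * cr y (m + k • w)) + cr x (m + k • w) * cr u y| := by rw [q1]
        _ ≤ |-(cr u x * cr y (m + k • w))| + |cr x (m + k • w) * cr u y| := abs_add_le _ _
        _ = cr u x * |cr y (m + k • w)| + |cr x (m + k • w)| * |cr u y| := by
          rw [abs_neg, abs_mul, abs_mul, abs_of_pos b0]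
        _ ≤ cr u x * (K * cr u m) + |cr x (m + k • w)| * (K * cr u m) :=
          add_le_add (mul_le_mul_of_nonneg_left h2 b0.le)
            (mul_le_mul_of_nonneg_left h1 (abs_nonneg _))
    have q3 : c * (cr u m * |cr x y|) ≤ K * cr u m *
        (c * cr u x + (4 * K * cr u m * c + J * (a' * cr u x))) := by
      have := mul_le_mul_of_nonneg_left q2 hc.le
      have q4 : 0 ≤ K * cr u m := by positivity
      have q5 := mul_le_mul_of_nonneg_left s1 q4
      linarith
    have q6 : c * cr u x ≤ a' * (K * cr u m) :=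
      mul_le_mul hca b1 b0.le ha'.le
    have q7 : 4 * K * cr u m * c ≤ 4 * K * cr u m * a' :=
      mul_le_mul_of_nonneg_left hca (by positivity)
    have q8 : J * (a' * cr u x) ≤ J * (a' * (K * cr u m)) :=
      mul_le_mul_of_nonneg_left (mul_le_mul_of_nonneg_left b1 ha'.le) (by linarith)
    have q9 : c * cr u x + (4 * K * cr u m * c + J * (a' * cr u x)) ≤
        6 * J * (K * (a' * cr u m)) := by
      have r1 : 0 ≤ K * (a' * cr u m) := by positivity
      have r2 : K * (a' * cr u m) ≤ J * (K * (a' * cr u m)) := by nlinarith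
      linarith
    have q10 : 0 ≤ K * cr u m := by positivity
    have q11 := mul_le_mul_of_nonneg_left q9 q10
    have q12 : cr u m * (6 * J * K ^ 2 * (a' * cr u m)) < cr u m * (cr p l * c) :=
      mul_lt_mul_of_pos_left hA hm
    have q13 : K * cr u m * (6 * J * (K * (a' * cr u m))) =
        cr u m * (6 * J * K ^ 2 * (a' * cr u m)) := by ring
    have q14 : c * (cr u m * |cr x y|) = cr u m * (c * |cr x y|) := by ring
    rw [q14] at q3
    rw [q13] at q11
    linarith
  have s3 : |cr x y| < |cr p l| := by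
    rw [abs_of_pos ha]
    exact lt_of_mul_lt_mul_left (lt_of_mul_lt_mul_left s2 hm.le) hc.le
  rw [hx, hy] at s3
  -- hence `y = ± x` and `|x × (m + k w)|` is too large
  have s4 : |cr y (m + k • w)| = |cr x (m + k • w)| := by
    rcases par_of_small hij hij' s3 with ⟨h, h'⟩ | ⟨h, h'⟩
    · rw [hy, h, h', ← hx]
    · have : y = -x := by rw [hy, h, h', hx]; module
      rw [this, cr_neg_left, abs_neg]
  rw [s4] at h2
  have s5 : c * (K * cr u m) < c * |cr x (m + k • w)| := by
    have t1 : c * |cr x (m + k • w)| = |k * (a' * cr u x) - c * cr x m| := by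
      rw [← abs_of_pos hc, ← abs_mul, abs_of_pos hc, hk, abs_sub_comm]
      congr 1
      linear_combination k * hxw
    have t2 : k * (a' * cr u x) - c * |cr x m| ≤ |k * (a' * cr u x) - c * cr x m| := by
      have t3 : c * cr x m ≤ c * |cr x m| := mul_le_mul_of_nonneg_left (le_abs_self _) hc.le
      have t4 := le_abs_self (k * (a' * cr u x) - c * cr x m)
      linarith
    have t5 := mul_le_mul_of_nonneg_left b2 hc.le
    rw [t1]
    linarith
  have := lt_of_mul_lt_mul_left s5 hc.le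
  linarith

/-- **(G2)(i)** if the area of `L` is much bigger than the area of `M` then there are `J`
consecutive `m + k w`, `w ∥ u`, over which `L` is rich -/
theorem room_one {u l p m w : Z2} {K J c a' : ℤ} (hc : 0 < c) (hca : c ≤ a')
    (hw : c • w = a' • u) (hm : 0 < cr u m) (hK : 1 ≤ K) (hJ : 1 ≤ J) (ha : 0 < cr p l)
    (hbK : K * (Int.gcd (cr u l) (cr u p) : ℤ) < cr p l)
    (hA : 6 * J * K ^ 2 * (a' * cr u m) < cr p l * c) :
    ∃ k0 : ℤ, 0 ≤ k0 ∧ ∀ k, k0 < k → k ≤ k0 + J → Rich u l p (m + k • w) K := by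
  by_cases hall : ∀ k : ℤ, 0 < k → k ≤ 0 + J → Rich u l p (m + k • w) K
  · exact ⟨0, le_refl _, hall⟩
  push Not at hall
  obtain ⟨k1, h1, h2, h3⟩ := hall
  unfold Rich at h3
  push Not at h3
  obtain ⟨i, j, hij, h4, h5⟩ := h3
  have huw : cr u w = 0 := by
    have e1 : c * cr u w = 0 := by
      have : cr u (c • w) = cr u (a' • u) := by rw [hw]
      rw [cr_smul_right, cr_smul_right, cr_self, mul_zero] at this
      exact this
    rcases mul_eq_zero.1 e1 with h | h
    · exact absurd h hc.ne'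
    · exact h
  have hum : ∀ k : ℤ, cr u (m + k • w) = cr u m := by
    intro k
    have : cr u (m + k • w) = cr u m + k * cr u w := by
      simp only [cr, Prod.fst_add, Prod.snd_add, Prod.smul_fst, Prod.smul_snd, smul_eq_mul]; ring
    rw [this, huw, mul_zero, add_zero]
  rw [hum] at h4 h5
  have hgcd0 : (0 : ℤ) ≤ (Int.gcd (cr u l) (cr u p) : ℤ) := Int.natCast_nonneg _
  -- the bad vector is not parallel to `u`
  have hne : cr u (i • l + j • p) ≠ 0 := by
    intro h0
    have h6 := par_height (m := m + k1 • w) hij h0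
    rw [hum, abs_of_pos (mul_pos ha hm)] at h6
    have h7 := mul_le_mul_of_nonneg_left h5 hgcd0
    rw [h6] at h7
    have h8 := mul_lt_mul_of_pos_right hbK hm
    linarith
  -- its sign may be chosen
  obtain ⟨i, j, hij, b0, b1, b2⟩ : ∃ i j : ℤ, IsCoprime i j ∧ 0 < cr u (i • l + j • p) ∧
      cr u (i • l + j • p) ≤ K * cr u m ∧ |cr (i • l + j • p) (m + k1 • w)| ≤ K * cr u m := by
    rcases lt_or_gt_of_ne hne with h | h
    · have e : (-i) • l + (-j) • p = -(i • l + j • p) := by module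
      refine ⟨-i, -j, hij.neg_neg, ?_, ?_, ?_⟩
      · rw [e, cr_neg_right]; linarith
      · rw [e, cr_neg_right]
        rw [abs_of_neg h] at h4
        exact h4
      · rw [e, cr_neg_left, abs_neg]
        exact h5
    · refine ⟨i, j, hij, h, ?_, h5⟩
      rw [abs_of_pos h] at h4
      exact h4
  obtain ⟨S, hS⟩ : ∃ S, S = a' * cr u (i • l + j • p) := ⟨_, rfl⟩
  have ha' : 0 < a' := by linarith
  have hS0 : 0 < S := by rw [hS]; exact mul_pos ha' b0
  obtain ⟨e, he⟩ : ∃ e, e = (2 * K * cr u m * c) / S := ⟨_, rfl⟩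
  have e0 : 0 ≤ e := by rw [he]; exact Int.ediv_nonneg (by positivity) hS0.le
  have e1 : e * S ≤ 2 * K * cr u m * c := by rw [he]; exact Int.ediv_mul_le _ hS0.ne'
  have e2 : 2 * K * cr u m * c < (e + 1) * S := by
    rw [he]; exact Int.lt_ediv_add_one_mul_self _ hS0
  refine ⟨k1 + e, by linarith, ?_⟩
  intro k hk1 hk2
  have h9 : m + k • w = (m + k1 • w) + (k - k1) • w := by module
  rw [h9]
  refine room_step (m := m + k1 • w) (J := J) hc hca hw (by rw [hum]; exact hm) hK hJ ha hbK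
    (by rw [hum]; exact hA) hij b0 (by rw [hum]; exact b1) (by rw [hum]; exact b2) ?_ ?_
  · rw [hum, ← hS]
    have : (e + 1) * S ≤ (k - k1) * S := mul_le_mul_of_nonneg_right (by linarith) hS0.le
    linarith
  · rw [hum, ← hS]
    have : (k - k1) * S ≤ (e + J) * S := mul_le_mul_of_nonneg_right (by linarith) hS0.le
    have h10 : 0 ≤ K * cr u m * c := by positivity
    linarith

/-- **(G2)(ii)** contents of different size -/
theorem room_two {u l p m : Z2} {K : ℤ} (hm : 0 < cr u m) (ha : 0 < cr p l)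
    (hbK : K * (Int.gcd (cr u l) (cr u p) : ℤ) < cr p l)
    (hb : K * cr u m < (Int.gcd (cr u l) (cr u p) : ℤ)) : Rich u l p m K := by
  intro i j hij h1
  by_contra h2
  push Not at h2
  have hd : (Int.gcd (cr u l) (cr u p) : ℤ) ∣ cr u (i • l + j • p) := by
    rw [cr_zz_right]
    exact dvd_add ((Int.gcd_dvd_left ..).mul_left _) ((Int.gcd_dvd_right ..).mul_left _)
  have h0 : cr u (i • l + j • p) = 0 := by
    refine Int.eq_zero_of_abs_lt_dvd hd ?_
    linarith
  have h6 := par_height (m := m) hij h0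
  rw [abs_of_pos (mul_pos ha hm)] at h6
  have h7 := mul_le_mul_of_nonneg_left h2
    (Int.natCast_nonneg (Int.gcd (cr u l) (cr u p)))
  rw [h6] at h7
  have h8 := mul_lt_mul_of_pos_right hbK hm
  linarith

end Pool.Agent.H4G.Six
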