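import Pool.Agent.H4G.Six.D2.ApGcd
import Pool.Agent.H4G.Six.D2.Rich
import Pool.Agent.H4G.Six.NR.T12
import Pool.Agent.H4G.Six.NR.Cen
import Pool.Agent.H4G.Six.NR.CaseIA

/-!
# START and FLAT (section 0 of helper11's page MP_4f7c28_G3_h11.md; typed by helper66)

A roomy tree whose big torus has a large content (`a ≤ H b`) has a centre over `l_k = l + k (u + q)`
with a small torus and small contents.
-/

set_option autoImplicit false

namespace Pool.Agent.H4G.Six

open Pool.Agent.H4G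

/-- the numbers of the flat case -/
theorem flat_num {A b b' e f lam P0 R0 H Q B : ℤ} (hA : 0 < A) (hb : 0 < b) (hb' : 0 < b')
    (hf : 0 < f) (hbe : b' < e) (he : e ≤ H * b') (hfH : f ≤ H * A) (hH : 1 ≤ H) (hQ : 1 ≤ Q)
    (hl0 : 0 ≤ lam) (hle : lam < e) (hBQ : 4 * H ^ 2 * Q ^ 2 ≤ B) (hB : B * (A + b') ≤ H * b)
    (hpl : b * R0 - b' * P0 = (A + b + b') * lam) :
    ∃ i j k σ x y : ℤ, 0 < j ∧ j ≤ Q ∧ IsCoprime i j ∧ (σ = 1 ∨ σ = -1) ∧
      x = σ * (i * b + j * P0 - j * k * (e + f)) ∧ y = σ * (i * b' + j * R0 + j * k * e) ∧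
      x < 0 ∧ 0 ≤ y ∧ y ≤ j * e ∧ x + y < 0 ∧ Q * |x| ≤ 2 * b ∧
      4 * H * Q ^ 2 * (A + b') ≤ b := by
  have hsmall : 4 * H * Q ^ 2 * (A + b') ≤ b := by
    have h1 : H * (4 * H * Q ^ 2 * (A + b')) ≤ H * b := by
      calc H * (4 * H * Q ^ 2 * (A + b')) = (4 * H ^ 2 * Q ^ 2) * (A + b') := by ring
        _ ≤ B * (A + b') := mul_le_mul_of_nonneg_right hBQ (by linarith)
        _ ≤ H * b := hB
    exact le_of_mul_le_mul_left h1 (by linarith)
  have hQ2 : 1 ≤ Q ^ 2 := one_le_pow₀ hQ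
  have hHQ : 1 ≤ 4 * H * Q ^ 2 := by
    calc (1 : ℤ) ≤ 4 * H * 1 := by linarith
      _ ≤ 4 * H * Q ^ 2 := mul_le_mul_of_nonneg_left hQ2 (by linarith)
  have hW : A + b' ≤ b := by
    have h1 : 1 * (A + b') ≤ 4 * H * Q ^ 2 * (A + b') :=
      mul_le_mul_of_nonneg_right hHQ (by linarith)
    linarith
  obtain ⟨j, i, j1, j2, hij, h3⟩ := NR.dirichlet (E := P0) (P := b) hb (n := Q) (by linarith)
  obtain ⟨x0, hx0⟩ : ∃ x0, x0 = i * b + j * P0 := ⟨_, rfl⟩
  obtain ⟨y0, hy0⟩ : ∃ y0, y0 = i * b' + j * R0 := ⟨_, rfl⟩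
  have hx0' : |j * P0 + i * b| = |x0| := by rw [hx0, add_comm]
  rw [hx0'] at h3
  have hQx : Q * |x0| ≤ b := by
    have e1 : (Q + 1) * |x0| = Q * |x0| + |x0| := by ring
    rw [e1] at h3
    linarith [abs_nonneg x0]
  have hx0b : |x0| ≤ b := (le_mul_of_one_le_left (abs_nonneg x0) hQ).trans hQx
  have hj0 : 0 < j := by linarith
  have hM : 0 < j * e := mul_pos hj0 (by linarith)
  have ey : b * y0 = b' * x0 + j * ((A + b + b') * lam) := by
    rw [hy0, hx0, ← hpl]; ring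
  -- `|y0| < 3 j e`
  have hy3 : |y0| < 3 * (j * e) := by
    have h4 : b * |y0| ≤ b * (b' + 2 * (j * e)) := by
      have h5 : b * |y0| = |b' * x0 + j * ((A + b + b') * lam)| := by
        rw [← ey, abs_mul, abs_of_pos hb]
      rw [h5]
      have h6 : |b' * x0| ≤ b' * b := by
        rw [abs_mul, abs_of_pos hb']
        exact mul_le_mul_of_nonneg_left hx0b hb'.le
      have h7 : |j * ((A + b + b') * lam)| ≤ j * (2 * b * e) := by
        rw [abs_of_nonneg (mul_nonneg hj0.le (mul_nonneg (by linarith) hl0))]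
        refine mul_le_mul_of_nonneg_left ?_ hj0.le
        exact mul_le_mul (by linarith) hle.le hl0 (by linarith)
      calc _ ≤ |b' * x0| + |j * ((A + b + b') * lam)| := abs_add_le _ _
        _ ≤ b' * b + j * (2 * b * e) := add_le_add h6 h7
        _ = b * (b' + 2 * (j * e)) := by ring
    have h8 : |y0| ≤ b' + 2 * (j * e) := le_of_mul_le_mul_left h4 hb
    have h9 : e ≤ j * e := le_mul_of_one_le_left (by linarith) j1
    linarith
  obtain ⟨n, hn⟩ : ∃ n, n = -y0 / (j * e) := ⟨_, rfl⟩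
  have d1 := Int.emod_add_mul_ediv (-y0) (j * e)
  have d2 := Int.emod_nonneg (-y0) hM.ne'
  have d3 := Int.emod_lt_of_pos (-y0) hM
  rw [← hn] at d1
  obtain ⟨g1, g2⟩ := abs_lt.1 hy3
  have n1 : n < 3 := by
    by_contra h
    push Not at h
    have := mul_le_mul_of_nonneg_left h hM.le
    linarith
  have n2 : -3 ≤ n := by
    by_contra h
    push Not at h
    have h5 : n ≤ -4 := by omega
    have := mul_le_mul_of_nonneg_left h5 hM.le
    linarith
  obtain ⟨r, hr⟩ : ∃ r, r = -y0 % (j * e) := ⟨_, rfl⟩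
  rw [← hr] at d1 d2 d3
  have hyn : y0 + j * n * e = -r := by linarith
  -- the bound for `x`
  have bound : ∀ k : ℤ, -3 ≤ k → k ≤ 3 → Q * |x0 - j * k * (e + f)| ≤ 2 * b := by
    intro k k1 k2
    have h4 : |j * k * (e + f)| ≤ Q * 3 * (H * (A + b')) := by
      rw [abs_mul, abs_mul, abs_of_pos hj0, abs_of_pos (by linarith : 0 < e + f)]
      have h5 : |k| ≤ 3 := abs_le.2 ⟨k1, k2⟩
      have h6 : e + f ≤ H * (A + b') := by linarith
      have h7 : j * |k| ≤ Q * 3 := mul_le_mul j2 h5 (abs_nonneg k) (by linarith)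
      exact mul_le_mul h7 h6 (by linarith) (by linarith)
    have h8 : |x0 - j * k * (e + f)| ≤ |x0| + |j * k * (e + f)| := abs_sub _ _
    have h9 : Q * (Q * 3 * (H * (A + b'))) ≤ b := by
      have : Q * (Q * 3 * (H * (A + b'))) + H * Q ^ 2 * (A + b') = 4 * H * Q ^ 2 * (A + b') := by
        ring
      have h10 : 0 ≤ H * Q ^ 2 * (A + b') := by positivity
      linarith
    have h11 : Q * |x0 - j * k * (e + f)| ≤ Q * (|x0| + Q * 3 * (H * (A + b'))) :=
      mul_le_mul_of_nonneg_left (by linarith) (by linarith)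
    have h12 : Q * (|x0| + Q * 3 * (H * (A + b'))) = Q * |x0| + Q * (Q * 3 * (H * (A + b'))) := by
      ring
    rw [h12] at h11
    linarith
  rcases le_or_gt (x0 - j * n * (e + f) + -r) 0 with hs | hs
  · refine ⟨i, j, n + 1, 1, x0 - j * (n + 1) * (e + f), y0 + j * (n + 1) * e, hj0, j2, hij.symm,
      Or.inl rfl, by rw [hx0]; ring, by rw [hy0]; ring, ?_, ?_, ?_, ?_, bound _ (by linarith)
      (by linarith), hsmall⟩
    · have : x0 - j * (n + 1) * (e + f) = (x0 - j * n * (e + f) + -r) + r - j * e - j * f := by ring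
      rw [this]
      have := mul_pos hj0 hf
      linarith
    · have : y0 + j * (n + 1) * e = -r + j * e := by rw [← hyn]; ring
      rw [this]; linarith
    · have : y0 + j * (n + 1) * e = -r + j * e := by rw [← hyn]; ring
      rw [this]; linarith
    · have : x0 - j * (n + 1) * (e + f) + (y0 + j * (n + 1) * e) =
          (x0 - j * n * (e + f) + -r) - j * f := by rw [← hyn]; ring
      rw [this]
      have := mul_pos hj0 hf
      linarith
  · refine ⟨i, j, n, -1, -(x0 - j * n * (e + f)), -(y0 + j * n * e), hj0, j2, hij.symm,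
      Or.inr rfl, by rw [hx0]; ring, by rw [hy0]; ring, ?_, ?_, ?_, ?_, ?_, hsmall⟩
    · linarith
    · rw [hyn]; linarith
    · rw [hyn]; linarith
    · rw [hyn]; linarith
    · rw [abs_neg]; exact bound _ (by linarith) (by linarith)

variable {X : Type} {O : PO X} {N : ℤ} {u v l q m s : Z2}

/-- the flat case, the slit `l` normalised -/
theorem Has6.flat_aux (hT : Has6 O (u, v, l, q, m, s)) (hN : vol6 (u, v, l, q, m, s) = N)
    (uq : cr u q = 0) {H Q B : ℤ} {J Z : ℕ} (hcap : Cap J Z) (hZ : Q ^ 2 * N ^ 2 ≤ (Z : ℤ))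
    (hJ : 1 ≤ J) (hH : 1 ≤ H) (hQ : 16 * (J : ℤ) ≤ Q) (hBQ : 4 * H ^ 2 * Q ^ 2 ≤ B)
    (ha : cr u l + cr q l ≤ H * cr u l) (hB : B * (cr u v + cr u m) ≤ cr u l + cr q l)
    (hl0 : 0 ≤ cr l m) (hle : cr l m < cr (u + q) m) :
    ∃ z v' l1 : Z2, Has6 O (z, v', l1, q, m, s) ∧ vol6 (z, v', l1, q, m, s) = N ∧
      Q * (cr z v' + ct z l1 q + ct z m s) ≤ 14 * J * cr u l := by
  obtain ⟨p1, p2, p3, p4, p5⟩ := hT.pos
  have hJ' : (1 : ℤ) ≤ J := by exact_mod_cast hJ
  have qu : cr q u = 0 := by rw [cr_swap' u q, uq, neg_zero]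
  obtain ⟨A, hAd⟩ : ∃ A, A = cr u v := ⟨_, rfl⟩
  obtain ⟨b, hbd⟩ : ∃ b, b = cr u l := ⟨_, rfl⟩
  obtain ⟨b', hbd'⟩ : ∃ b', b' = cr u m := ⟨_, rfl⟩
  obtain ⟨e, hed⟩ : ∃ e, e = cr (u + q) m := ⟨_, rfl⟩
  obtain ⟨f, hfd⟩ : ∃ f, f = cr (u + q) v := ⟨_, rfl⟩
  have e1 := cr_uq (l := l) uq m
  have e2 := cr_uq (l := l) uq v
  rw [← hAd, ← hbd] at e2
  rw [← hbd, ← hbd'] at e1
  rw [← hed] at e1 hle
  rw [← hfd] at e2
  rw [← hAd] at p1
  rw [← hbd] at p2
  rw [← hbd'] at p3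
  rw [← hbd] at ha
  rw [← hAd, ← hbd, ← hbd'] at hB
  have hbe : b' < e := by
    have h1 : b * b' < b * e := by
      rw [e1]
      have := mul_pos p4 p3
      linarith [add_mul b (cr q l) b']
    exact lt_of_mul_lt_mul_left h1 p2.le
  have he : e ≤ H * b' := by
    have h1 : b * e ≤ b * (H * b') := by
      rw [e1]
      calc (b + cr q l) * b' ≤ H * b * b' := mul_le_mul_of_nonneg_right ha p3.le
        _ = b * (H * b') := by ring
    exact le_of_mul_le_mul_left h1 p2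
  have hf : 0 < f := by
    have : 0 < b * f := by rw [e2]; positivity
    exact (mul_pos_iff_of_pos_left p2).1 this
  have hfH : f ≤ H * A := by
    have h1 : b * f ≤ b * (H * A) := by
      rw [e2]
      calc (b + cr q l) * A ≤ H * b * A := mul_le_mul_of_nonneg_right ha p1.le
        _ = b * (H * A) := by ring
    exact le_of_mul_le_mul_left h1 p2
  have hpl : b * cr (v + l) m - b' * cr (v + m) l = (A + b + b') * cr l m := by
    rw [hbd, hbd', hAd]
    simp only [cr, Prod.fst_add, Prod.snd_add]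
    ring
  have hB' : B * (A + b') ≤ H * b := hB.trans ha
  obtain ⟨i, j, k, σ, x, y, j1, j2, hij, hσ, hx, hy, x0, y0, yj, xy, Qx, hsm⟩ :=
    flat_num p1 p2 p3 hf hbe he hfH hH (by linarith) hl0 hle hBQ hB' hpl
  -- the new slit and the direction
  obtain ⟨g1, g2, g3, g4, g5⟩ := hT.row_k hN uq k
  obtain ⟨lk, hlk⟩ : ∃ lk, lk = l + k • (u + q) := ⟨_, rfl⟩
  rw [← hlk] at g1 g2 g3 g4 g5
  obtain ⟨g, hg⟩ : ∃ g, g = (σ * i) • u + (σ * j) • (v + lk + m) := ⟨_, rfl⟩
  have hvp : cr v (u + q) = -f := by rw [hfd, cr_swap' (u + q) v]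
  have hmp : cr m (u + q) = -e := by rw [hed, cr_swap' (u + q) m]
  have gx : cr g lk = x := by
    have h1 : cr g lk = σ * i * cr u lk + σ * j * cr (v + m) lk := by
      rw [hg]
      simp only [cr, Prod.fst_add, Prod.snd_add, Prod.smul_fst, Prod.smul_snd, smul_eq_mul]
      ring
    have h2 : cr (v + m) lk = cr (v + m) l + k * (cr v (u + q) + cr m (u + q)) := by
      rw [hlk]
      simp only [cr, Prod.fst_add, Prod.snd_add, Prod.smul_fst, Prod.smul_snd, smul_eq_mul]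
      ring
    rw [h1, h2, hvp, hmp, g3, ← hbd, hx]
    ring
  have gy : cr g m = y := by
    have h1 : cr g m = σ * i * cr u m + σ * j * (cr (v + l) m + k * cr (u + q) m) := by
      rw [hg, hlk]
      simp only [cr, Prod.fst_add, Prod.snd_add, Prod.smul_fst, Prod.smul_snd, smul_eq_mul]
      ring
    rw [h1, ← hed, ← hbd', hy]
    ring
  have gq : b * cr g q = -(σ * j * ((A + b + b') * cr q l)) := by
    have h1 : cr u lk * cr g q = cr u q * (σ * i * cr u lk + σ * j * cr (v + lk + m) lk)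
        - σ * j * (cr u (v + lk + m) * cr q lk) := by
      rw [hg]
      simp only [cr, Prod.fst_add, Prod.snd_add, Prod.smul_fst, Prod.smul_snd, smul_eq_mul]
      ring
    have h2 : cr u (v + lk + m) = A + b + b' := by
      rw [cr_addr, cr_addr, g3, hAd, hbd, hbd']
    rw [uq, zero_mul, h2, g3, g4, ← hbd] at h1
    rw [h1]; ring
  -- the sieve
  have hσ1 : |σ| = 1 := by rcases hσ with rfl | rfl <;> simp
  have hNW : A + b + b' + cr q l ≤ N := by
    rw [← hN]
    simp only [vol6]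
    rw [hAd, hbd, hbd']
    linarith
  have hWD : (A + b + b') * cr q l ≤ N ^ 2 := by
    rw [sq]
    exact mul_le_mul (by linarith) (by linarith) p4.le (by linarith)
  have hWD0 : 0 < (A + b + b') * cr q l := mul_pos (by linarith) p4
  have hDe : cr u lk * cr g q - cr u q * cr g lk = -(σ * j * ((A + b + b') * cr q l)) := by
    rw [uq, g3, ← hbd, gq]; ring
  have hσ0 : σ ≠ 0 := by rcases hσ with rfl | rfl <;> norm_num
  obtain ⟨t, t0, t4, hco, hdv⟩ := ap_gcd4 hcap (X0 := cr u lk) (Y0 := cr u q) (dX := cr g lk)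
    (dY := cr g q) (i := σ * i) (j := j) (by
      rw [hDe]
      exact neg_ne_zero.2 (mul_ne_zero (mul_ne_zero hσ0 j1.ne') hWD0.ne')) j1.ne'
    (by
      rcases hσ with rfl | rfl
      · simpa using hij
      · simpa using hij.neg_left) (by
      rw [hDe, abs_neg, abs_mul, abs_mul, hσ1, one_mul, abs_of_pos j1, abs_of_pos hWD0]
      have h1 : j * (j * ((A + b + b') * cr q l)) ≤ Q * (Q * N ^ 2) :=
        mul_le_mul j2 (mul_le_mul j2 hWD hWD0.le (by linarith)) (by positivity) (by linarith)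
      calc _ ≤ Q * (Q * N ^ 2) := h1
        _ = Q ^ 2 * N ^ 2 := by ring
        _ ≤ _ := hZ) 0
  rw [zero_add] at t4
  obtain ⟨z, hz⟩ : ∃ z, z = (1 + t * (σ * i)) • u + (t * (σ * j)) • (v + lk + m) := ⟨_, rfl⟩
  have hzg : z = u + t • g := by rw [hz, hg]; module
  have zl : cr z lk = b + t * x := by
    rw [hzg, ← gx, hbd, ← g3]
    simp only [cr, Prod.fst_add, Prod.snd_add, Prod.smul_fst, Prod.smul_snd, smul_eq_mul]
    ring
  have zm : cr z m = b' + t * y := by
    rw [hzg, ← gy, hbd']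
    simp only [cr, Prod.fst_add, Prod.snd_add, Prod.smul_fst, Prod.smul_snd, smul_eq_mul]
    ring
  have hco1 : IsCoprime (1 + t * (σ * i)) t := ⟨1, -(σ * i), by ring⟩
  have hco2 : IsCoprime (1 + t * (σ * i)) σ := by
    rcases hσ with rfl | rfl
    · exact isCoprime_one_right
    · exact isCoprime_one_right.neg_right
  have hcop : IsCoprime (1 + t * (σ * i)) (t * (σ * j)) := hco1.mul_right (hco2.mul_right hco)
  -- sizes
  have hx' : |x| = -x := abs_of_neg x0
  rw [hx'] at Qx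
  have hQ0 : 0 < Q := by linarith
  have htx : Q * (t * (-x)) ≤ 8 * J * b := by
    have h1 : t * (-x) ≤ 4 * J * (-x) := mul_le_mul_of_nonneg_right t4.le (by linarith)
    have h2 : Q * (t * (-x)) ≤ Q * (4 * J * (-x)) := mul_le_mul_of_nonneg_left h1 hQ0.le
    have h3 : 4 * (J : ℤ) * (Q * -x) ≤ 4 * J * (2 * b) :=
      mul_le_mul_of_nonneg_left Qx (by linarith)
    calc Q * (t * (-x)) ≤ Q * (4 * J * (-x)) := h2
      _ = 4 * (J : ℤ) * (Q * -x) := by ring
      _ ≤ 4 * J * (2 * b) := h3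
      _ = 8 * J * b := by ring
  have hX0 : 0 < b + t * x := by
    by_contra hcon
    push Not at hcon
    have h1 : b ≤ t * (-x) := by linarith
    have h2 : Q * b ≤ 8 * J * b := (mul_le_mul_of_nonneg_left h1 hQ0.le).trans htx
    have h3 : 16 * J * b ≤ Q * b := mul_le_mul_of_nonneg_right hQ p2.le
    have h4 : 0 < (J : ℤ) * b := mul_pos (by linarith) p2
    linarith
  have hty : 0 ≤ t * y := mul_nonneg t0 y0
  have hts : t * x + t * y ≤ 0 := by
    have : t * (x + y) ≤ 0 := mul_nonpos_of_nonneg_of_nonpos t0 xy.le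
    linarith
  obtain ⟨v', c1, c2, c3, c4⟩ := g1.cen_of g2 hcop hz (by rw [zl]; exact hX0)
    (by rw [zm]; linarith) (by rw [zl, zm, g3, ← hAd, ← hbd, ← hbd']; linarith)
  refine ⟨z, v', lk, c1, c2, ?_⟩
  rw [zl, zm, g3, ← hAd, ← hbd, ← hbd'] at c4
  -- the contents
  have k1 : ct z lk q ≤ 2 * (-x) := by
    have hd := hdv (ct z lk q) (by
        have h1 : ct z lk q ∣ cr z lk := Int.gcd_dvd_left _ _
        rw [hzg] at h1 ⊢
        have : cr (u + t • g) lk = cr u lk + t * cr g lk := by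
          simp only [cr, Prod.fst_add, Prod.snd_add, Prod.smul_fst, Prod.smul_snd, smul_eq_mul]
          ring
        rw [this] at h1
        exact h1) (by
        have h1 : ct z lk q ∣ cr z q := Int.gcd_dvd_right _ _
        rw [hzg] at h1 ⊢
        have : cr (u + t • g) q = cr u q + t * cr g q := by
          simp only [cr, Prod.fst_add, Prod.snd_add, Prod.smul_fst, Prod.smul_snd, smul_eq_mul]
          ring
        rw [this] at h1
        exact h1)
    have h2 : ct z lk q ∣ 2 * (-x) := by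
      have := hd.2.2.1
      rw [gx] at this
      have e : 2 * (-x) = -(2 * x) := by ring
      rw [e]; exact (dvd_neg).2 this
    exact Int.le_of_dvd (by linarith) h2
  have k2 : ct z m s ≤ b' + t * y := by
    rw [← zm]
    exact ct_le (by rw [zm]; linarith)
  have hyb : Q * (t * y) ≤ J * b := by
    have h1 : t * y ≤ 4 * J * (Q * (H * b')) := by
      refine mul_le_mul t4.le ?_ y0 (by linarith)
      calc y ≤ j * e := yj
        _ ≤ Q * (H * b') := mul_le_mul j2 he (by linarith) (by linarith)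
    have h2 : Q * (t * y) ≤ Q * (4 * J * (Q * (H * b'))) := mul_le_mul_of_nonneg_left h1 hQ0.le
    have h3 : 4 * H * Q ^ 2 * b' ≤ b := by
      have : 0 ≤ 4 * H * Q ^ 2 * A := by positivity
      have e3 : 4 * H * Q ^ 2 * (A + b') = 4 * H * Q ^ 2 * A + 4 * H * Q ^ 2 * b' := by ring
      linarith
    have h4 : (J : ℤ) * (4 * H * Q ^ 2 * b') ≤ J * b := mul_le_mul_of_nonneg_left h3 (by linarith)
    calc _ ≤ Q * (4 * J * (Q * (H * b'))) := h2
      _ = (J : ℤ) * (4 * H * Q ^ 2 * b') := by ring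
      _ ≤ _ := h4
  have hAb : Q * (A + b') ≤ b := by
    have h1 : Q * (A + b') ≤ 4 * H * Q ^ 2 * (A + b') := by
      refine mul_le_mul_of_nonneg_right ?_ (by linarith)
      have h2 : Q * 1 ≤ Q * Q := mul_le_mul_of_nonneg_left (by linarith) hQ0.le
      have h3 : 1 * Q ^ 2 ≤ 4 * H * Q ^ 2 := mul_le_mul_of_nonneg_right (by linarith) (by positivity)
      calc Q = Q * 1 := by ring
        _ ≤ Q * Q := h2
        _ = 1 * Q ^ 2 := by ring
        _ ≤ _ := h3
    linarith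
  have k3 : cr z v' = A + t * (-x) - t * y := by rw [c4]; ring
  have k4 : cr z v' + ct z lk q + ct z m s ≤ (A + b') + (t * (-x) + 2 * (-x)) + t * y := by
    rw [k3]; linarith
  have k5 : Q * (cr z v' + ct z lk q + ct z m s) ≤
      Q * ((A + b') + (t * (-x) + 2 * (-x)) + t * y) := mul_le_mul_of_nonneg_left k4 hQ0.le
  have k6 : Q * ((A + b') + (t * (-x) + 2 * (-x)) + t * y) =
      Q * (A + b') + Q * (t * (-x)) + 2 * (Q * (-x)) + Q * (t * y) := by ring
  have k7 : b ≤ J * b := le_mul_of_one_le_left p2.le hJ'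
  rw [k6] at k5
  rw [← hbd]
  linarith

/-- **FLAT** -/
theorem Has6.flat (hT : Has6 O (u, v, l, q, m, s)) (hN : vol6 (u, v, l, q, m, s) = N)
    (uq : cr u q = 0) {H Q B : ℤ} {J Z : ℕ} (hcap : Cap J Z) (hZ : Q ^ 2 * N ^ 2 ≤ (Z : ℤ))
    (hJ : 1 ≤ J) (hH : 1 ≤ H) (hQ : 16 * (J : ℤ) ≤ Q) (hBQ : 4 * H ^ 2 * Q ^ 2 ≤ B)
    (ha : cr u l + cr q l ≤ H * cr u l) (hB : B * (cr u v + cr u m) ≤ cr u l + cr q l) :
    ∃ z v' l1 : Z2, Has6 O (z, v', l1, q, m, s) ∧ vol6 (z, v', l1, q, m, s) = N ∧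
      Q * (cr z v' + ct z l1 q + ct z m s) ≤ 14 * J * cr u l := by
  obtain ⟨p1, p2, p3, p4, p5⟩ := hT.pos
  have e1 := cr_uq (l := l) uq m
  have he0 : 0 < cr (u + q) m := by
    have h1 : 0 < cr u l * cr (u + q) m := by rw [e1]; exact mul_pos (by linarith) p3
    exact (mul_pos_iff_of_pos_left p2).1 h1
  obtain ⟨n, hn⟩ : ∃ n, n = -(cr l m / cr (u + q) m) := ⟨_, rfl⟩
  obtain ⟨g1, g2, g3, g4, g5⟩ := hT.row_k hN uq n
  have d1 := Int.emod_add_mul_ediv (cr l m) (cr (u + q) m)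
  have d2 := Int.emod_nonneg (cr l m) he0.ne'
  have d3 := Int.emod_lt_of_pos (cr l m) he0
  have e5 : cr (l + n • (u + q)) m = cr l m % cr (u + q) m := by
    rw [g5, hn]; linarith
  have := g1.flat_aux g2 uq hcap hZ hJ hH hQ hBQ (by rw [g3, g4]; exact ha)
    (by rw [g3, g4]; exact hB) (by rw [e5]; exact d2) (by rw [e5]; exact d3)
  rw [g3] at this
  exact this

end Pool.Agent.H4G.Six
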