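import Pool.Agent.H4G.Six.D2.NP

/-!
# D2, row R-6: the parallel case of the near-Prym states (helper39, section 5.3 of helper26's page)

The companion of `m` is parallel to `m`, so all pairs `l(D), m(D)` are parallel. If `L ≠ M` there
is a direction with `F₁ a' ≠ F₂ a` and with a progression `u + t g` of centres, `g × l(D) < 0`
small.
-/

set_option autoImplicit false

namespace Pool.Agent.H4G.Six

open Pool.Agent.H4G

variable {u v l p m p' : Z2} {x y α k0 : ℤ}

/-- two vectors with equal products with two directions -/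
theorem z2_ext_cr {u w a c : Z2} (h : cr u w ≠ 0) (h1 : cr u a = cr u c) (h2 : cr w a = cr w c) :
    a = c := by
  have e1 : cr u w * a.1 = cr u w * c.1 := by
    have i1 : cr u w * a.1 = u.1 * (w.1 * a.2 - w.2 * a.1) * (-1) + w.1 * (u.1 * a.2 - u.2 * a.1) := by
      simp only [cr]; ring
    have i2 : cr u w * c.1 = u.1 * (w.1 * c.2 - w.2 * c.1) * (-1) + w.1 * (u.1 * c.2 - u.2 * c.1) := by
      simp only [cr]; ring
    have h1' : u.1 * a.2 - u.2 * a.1 = u.1 * c.2 - u.2 * c.1 := h1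
    have h2' : w.1 * a.2 - w.2 * a.1 = w.1 * c.2 - w.2 * c.1 := h2
    rw [i1, i2, h1', h2']
  have e2 : cr u w * a.2 = cr u w * c.2 := by
    have i1 : cr u w * a.2 = u.2 * (w.1 * a.2 - w.2 * a.1) * (-1) + w.2 * (u.1 * a.2 - u.2 * a.1) := by
      simp only [cr]; ring
    have i2 : cr u w * c.2 = u.2 * (w.1 * c.2 - w.2 * c.1) * (-1) + w.2 * (u.1 * c.2 - u.2 * c.1) := by
      simp only [cr]; ring
    have h1' : u.1 * a.2 - u.2 * a.1 = u.1 * c.2 - u.2 * c.1 := h1
    have h2' : w.1 * a.2 - w.2 * a.1 = w.1 * c.2 - w.2 * c.1 := h2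
    rw [i1, i2, h1', h2']
  exact Prod.ext (mul_left_cancel₀ h e1) (mul_left_cancel₀ h e2)

/-- **the class of a direction with different ratio** -/
theorem NP.fork_class (h : NP u l p m p' x y α k0) (hκ : kap l p m α k0 = 0)
    (hLM : lat l p ≠ lat m p') : ∃ β0 κ0 : ℤ, (β0 = 0 ∧ κ0 = 1 ∨ β0 = 1) ∧
      gD x y α k0 β0 κ0 * (cr u m * cr p l) ≠ x * α * cr u l * cr p' m := by
  by_contra hne
  push Not at hne
  have x0 := h.x0
  have y0 := h.y0
  have α0 := h.α0
  have b0 := h.b0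
  have b0' := h.b0'
  have a0 := h.a0
  have a0' := h.a0'
  have e1 := hne 1 0 (Or.inr rfl)
  have e2 := hne 0 1 (Or.inl ⟨rfl, rfl⟩)
  have e3 := hne 1 (-k0) (Or.inr rfl)
  -- the three divisors
  have g1 : gD x y α k0 1 0 = x := by
    have h1 : (Int.gcd α k0 : ℤ) = 1 := by
      exact_mod_cast Int.isCoprime_iff_gcd_eq_one.1 h.αk
    unfold gD
    rw [show (1 : ℤ) * x * α = x * α by ring, show (1 : ℤ) * x * k0 + 0 * α * y = x * k0 by ring,
      Int.gcd_mul_left, Nat.cast_mul, Int.natCast_natAbs, abs_of_pos x0, h1, mul_one]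
  have g2 : gD x y α k0 0 1 = α * y := by
    unfold gD
    rw [show (0 : ℤ) * x * α = 0 by ring, show (0 : ℤ) * x * k0 + 1 * α * y = α * y by ring,
      Int.gcd_zero_left, Int.natCast_natAbs, abs_of_pos (mul_pos α0 y0)]
  rw [g1] at e1
  rw [g2] at e2
  have P0 : 0 < cr u m * cr p l := mul_pos b0' a0
  have hxy : x = α * y := by
    have : x * (cr u m * cr p l) = α * y * (cr u m * cr p l) := by rw [e1, e2]
    exact mul_right_cancel₀ P0.ne' this
  have hy1 : y = 1 := by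
    have h1 : y ∣ x := ⟨α, by rw [hxy]; ring⟩
    have h2 : IsUnit y := h.xy.isUnit_of_dvd' h1 dvd_rfl
    rcases Int.isUnit_iff.1 h2 with h3 | h3
    · exact h3
    · linarith
  have hxα : x = α := by rw [hxy, hy1, mul_one]
  have g3 : gD x y α k0 1 (-k0) = α * α := by
    unfold gD
    rw [hxα, hy1, show (1 : ℤ) * α * k0 + -k0 * α * 1 = 0 by ring, Int.gcd_zero_right,
      Int.natCast_natAbs, one_mul, abs_of_pos (mul_pos α0 α0)]
  rw [g3] at e3
  have hα1 : α = 1 := by
    have h1 : x * (cr u m * cr p l) = α * α * (cr u m * cr p l) := by rw [e1, e3]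
    have h2 := mul_right_cancel₀ P0.ne' h1
    rw [hxα] at h2
    have h3 : α * 1 = α * α := by linarith
    exact (mul_left_cancel₀ α0.ne' h3).symm
  have hx1 : x = 1 := by rw [hxα, hα1]
  subst hx1 hy1 hα1
  have rel := h.rel
  -- `a b' = a' b`, `a' b² = a b'²`
  have e1' : cr u m * cr p l = cr u l * cr p' m := by linarith
  have hbb : cr u l = cr u m := by
    have h1 : (cr u l * cr p' m) * cr u l = (cr u l * cr p' m) * cr u m := by
      calc (cr u l * cr p' m) * cr u l = 1 * (cr p' m * cr u l ^ 2) := by ring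
        _ = 1 * (cr p l * cr u m ^ 2) := rel
        _ = (cr u m * cr p l) * cr u m := by ring
        _ = _ := by rw [e1']
    exact mul_left_cancel₀ (mul_pos b0 a0').ne' h1
  have haa : cr p l = cr p' m := by
    rw [hbb] at e1'
    exact mul_left_cancel₀ b0'.ne' e1'
  -- the companion is `m`
  have hup : cr u p = 0 := h.up
  have hm : (1 : ℤ) • l + k0 • p = m := by
    have h1 : cr u ((1 : ℤ) • l + k0 • p) = cr u m := by
      rw [cr_add_right, cr_smul_right, cr_smul_right, hup, mul_zero, add_zero, one_mul, hbb]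
    refine z2_ext_cr (u := u) (w := (1 : ℤ) • l + k0 • p) (by rw [h1]; exact b0'.ne') h1 ?_
    rw [cr_self]
    exact hκ.symm
  have hp : p = p' := by
    refine z2_ext_cr (u := u) (w := m) b0'.ne' (by rw [h.up, h.up']) ?_
    have h1 : cr m p = cr m p' := by
      have h2 : cr u m * cr m p = cr u m * cr m p' := by
        have i1 : cr u m * cr p m = cr u m * cr p l := by
          rw [← h.eL, hbb]
        have i2 : cr u m * cr p' m = cr u m * cr p m := by rw [i1, haa]
        have s1 : cr m p = - cr p m := by simp only [cr]; ring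
        have s2 : cr m p' = - cr p' m := by simp only [cr]; ring
        rw [s1, s2]; linarith
      exact mul_left_cancel₀ b0'.ne' h2
    exact h1
  apply hLM
  rw [← hp, ← hm]
  have e : lat l p = lat ((1 : ℤ) • l + k0 • p) ((0 : ℤ) • l + (1 : ℤ) • p) :=
    (closure_pair_eq (α := 1) (β := k0) (γ := 0) (δ := 1) rfl rfl (Or.inl (by ring))).symm
  rw [e]
  congr 1
  module

/-- an integer of a progression which is coprime to `D`, local form -/
theorem ap_cop_loc {J X : ℕ} (hcap : Cap J X) {a b D : ℤ} (hD : D ≠ 0) (hX : |D| ≤ X)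
    (ha : ∀ q : ℕ, q.Prime → (q : ℤ) ∣ D → (q : ℤ) ∣ a → ¬ (q : ℤ) ∣ b) (j0 : ℤ) :
    ∃ j, j0 ≤ j ∧ j < j0 + J ∧ IsCoprime (a * j + b) D := by
  obtain ⟨z, h1, h2, h3⟩ := sieveP (k := 1) (e := 1) hcap (D0 := |D|) (abs_pos.2 hD) hX
    (by norm_num) (fun _ q => q ∣ D) (fun _ => a) (fun _ => b)
    (fun q _ _ h => by rw [dvd_abs]; exact h)
    (fun q hq => by
      by_cases hqD : (q : ℤ) ∣ D
      · by_cases hb : (q : ℤ) ∣ b
        · refine ⟨1, fun _ _ h => ha q hq hqD ?_ hb⟩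
          have : a = (a * 1 + b) - b := by ring
          rw [this]; exact dvd_sub h hb
        · exact ⟨0, fun _ _ h => hb (by simpa using h)⟩
      · exact ⟨0, fun _ h => absurd h hqD⟩) j0
  rw [pow_one] at h2
  refine ⟨z, h1, h2, ?_⟩
  exact isCoprime_of_prime fun q hq hd hb => h3 q hq 0 hd hb

theorem NP.pv (h : NP u l p m p' x y α k0) (h0 : 0 < cr u v) : 0 < cr p v := by
  have e : cr u l * cr p v - cr u p * cr l v - cr p l * cr u v = 0 := by simp only [cr]; ring
  rw [h.up] at e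
  have h1 : 0 < cr u l * cr p v := by
    have : 0 < cr p l * cr u v := mul_pos h.a0 h0
    linarith
  exact (mul_pos_iff_of_pos_left h.b0).1 h1

theorem PiD_pos (hx : 0 < x) (hy : 0 < y) (hα : 0 < α) : 0 < PiD x y α := by
  unfold PiD; positivity

/-- a multiplier `r₀ = 1 + Π t` of prescribed size which is coprime to `y (p × v)` and `Π` -/
theorem exists_r0 {J X : ℕ} (hcap : Cap J X) {P D : ℤ} (hP : 0 < P) (hD : 0 < D) (hX : D ≤ X)
    {R : ℤ} (hR : 0 ≤ R) : ∃ r0 : ℤ, R ≤ r0 ∧ r0 ≤ 1 + P * (R + J) ∧ IsCoprime r0 D ∧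
      IsCoprime r0 P ∧ P ∣ r0 - 1 ∧ 0 < r0 := by
  obtain ⟨t, t1, t2, t3⟩ := ap_cop_loc hcap (a := P) (b := 1) hD.ne' (by rw [abs_of_pos hD]; exact hX)
    (fun q hq _ _ h => prime_not_dvd_one hq h) R
  have t0 : 0 ≤ t := hR.trans t1
  have h1 : 1 * t ≤ P * t := mul_le_mul_of_nonneg_right hP t0
  have h2 : P * t ≤ P * (R + J) := mul_le_mul_of_nonneg_left t2.le hP.le
  refine ⟨P * t + 1, by linarith, by linarith, t3, ⟨1, -t, by ring⟩, ⟨t, by ring⟩, by linarith⟩

/-- **R-6**: a parallel pair with a progression of centres and without coincidence -/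
theorem NP.fork {J X : ℕ} (hcap : Cap J X) (h : NP u l p m p' x y α k0)
    (hκ : kap l p m α k0 = 0) (hLM : lat l p ≠ lat m p') (h0 : 0 < cr u v) {K : ℤ} (hK : 0 < K)
    (hX1 : y * cr p v ≤ X) (hX2 : 1 + PiD x y α * (K * J + J) ≤ X) :
    ∃ β κ i1 : ℤ, 0 < β ∧ β ≤ PiD x y α * (1 + PiD x y α * (K * J + J)) ∧ IsCoprime β κ ∧
      cr (lD l p x y α k0 β κ) (mD m p' β κ) = 0 ∧
      cr u (lD l p x y α k0 β κ) * cr p' m ≠ cr u (mD m p' β κ) * cr p l ∧
      i1 * cr u (lD l p x y α k0 β κ) - cr v (lD l p x y α k0 β κ) < 0 ∧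
      K * -(i1 * cr u (lD l p x y α k0 β κ) - cr v (lD l p x y α k0 β κ)) ≤
        cr u (lD l p x y α k0 β κ) := by
  have x0 := h.x0
  have y0 := h.y0
  have α0 := h.α0
  have b0 := h.b0
  have P0 : 0 < PiD x y α := PiD_pos x0 y0 α0
  have hE := h.pv h0
  have J0 : (0 : ℤ) ≤ J := Int.natCast_nonneg _
  obtain ⟨β0, κ0, hc, hne⟩ := h.fork_class hκ hLM
  obtain ⟨r0, r1, r2, r3, r4, r5, r6⟩ := exists_r0 hcap P0 (mul_pos y0 hE) hX1
    (R := K * J) (mul_nonneg hK.le J0)
  -- the level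
  obtain ⟨β, hβ0, hβr, hββ0, hβle, hβP⟩ : ∃ β : ℤ, 0 < β ∧ r0 ∣ β ∧ PiD x y α ∣ β - β0 ∧
      β ≤ PiD x y α * (1 + PiD x y α * (K * J + J)) ∧
      ∀ κ, PiD x y α ∣ κ - κ0 → IsCoprime κ r0 → IsCoprime β κ := by
    rcases hc with ⟨hc1, hc2⟩ | hc1
    · refine ⟨PiD x y α * r0, mul_pos P0 r6, Dvd.intro_left _ rfl, ?_, ?_, ?_⟩
      · rw [hc1, sub_zero]; exact Dvd.intro _ rfl
      · exact mul_le_mul_of_nonneg_left r2 P0.le
      · intro κ k1 k2
        refine IsCoprime.mul_left ?_ k2.symm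
        obtain ⟨c, hc⟩ := k1
        rw [hc2] at hc
        exact ⟨-c, 1, by linarith⟩
    · refine ⟨r0, r6, dvd_rfl, by rw [hc1]; exact r5, ?_, fun κ _ k2 => k2.symm⟩
      have : 1 * (1 + PiD x y α * (K * J + J)) ≤
          PiD x y α * (1 + PiD x y α * (K * J + J)) :=
        mul_le_mul_of_nonneg_right P0 (by positivity)
      linarith
  have hαP : α ∣ PiD x y α := by unfold PiD; exact ⟨x * y * α, by ring⟩
  have hr0P : IsCoprime r0 (PiD x y α) := r4
  have hr0α : IsCoprime r0 α := IsCoprime.of_isCoprime_of_dvd_right r4 hαP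
  have hq : IsCoprime r0 (PiD x y α * (α * y * cr p v)) := by
    refine IsCoprime.mul_right hr0P ?_
    rw [show α * y * cr p v = α * (y * cr p v) by ring]
    exact IsCoprime.mul_right hr0α r3
  have T0 : 0 < β * x * α * cr u l := mul_pos (mul_pos (mul_pos hβ0 x0) α0) b0
  obtain ⟨i, a1, c1, c2, c3⟩ := tune hcap (T := β * x * α * cr u l)
    (q := PiD x y α * (α * y * cr p v)) (r0 := r0)
    (n0 := β * x * cr v (α • l + k0 • p) - κ0 * (α * y * cr p v)) (κ0 := κ0)
    (P := PiD x y α) (K := K) T0 r6 (r2.trans hX2)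
    (hβr.trans ⟨x * α * cr u l, by ring⟩) hq hr0P r1 hK.le
  obtain ⟨κ, hκ'⟩ : ∃ κ, κ = κ0 + i * PiD x y α := ⟨_, rfl⟩
  rw [← hκ'] at c1
  have hκκ0 : PiD x y α ∣ κ - κ0 := ⟨i, by rw [hκ']; ring⟩
  have hcop : IsCoprime β κ := hβP κ hκκ0 c1
  have hcop0 : IsCoprime β0 κ0 := by
    rcases hc with ⟨hc1, hc2⟩ | hc1
    · rw [hc1, hc2]; exact isCoprime_one_right
    · rw [hc1]; exact isCoprime_one_left
  have hg : gD x y α k0 β κ = gD x y α k0 β0 κ0 := gD_congr hcop hcop0 hββ0 hκκ0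
  have g0 := h.g0 (κ := κ) hβ0
  have eF1 := h.F1 (β := β) (κ := κ)
  have eF2 := h.F2 (β := β) (κ := κ)
  have eρ := h.rho (β := β) (κ := κ)
  have evl := h.vl (v := v) (β := β) (κ := κ)
  have en : β * x * cr v (α • l + k0 • p) - κ0 * (α * y * cr p v) -
      i * (PiD x y α * (α * y * cr p v)) + a1 * (β * x * α * cr u l) =
      gD x y α k0 β κ * (cr v (lD l p x y α k0 β κ) + a1 * cr u (lD l p x y α k0 β κ)) := by
    rw [mul_add, evl]
    linear_combination (-a1) * eF1 + (α * y * cr p v) * hκ'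
  rw [en] at c2 c3
  refine ⟨β, κ, -a1, hβ0, hβle, hcop, ?_, ?_, ?_, ?_⟩
  · rw [hκ, mul_zero] at eρ
    exact (mul_eq_zero.1 eρ).resolve_left g0.ne'
  · intro he
    apply hne
    rw [← hg]
    have h1 : β * (gD x y α k0 β κ * (cr u m * cr p l)) = β * (x * α * cr u l * cr p' m) := by
      calc β * (gD x y α k0 β κ * (cr u m * cr p l))
          = gD x y α k0 β κ * ((β * cr u m) * cr p l) := by ring
        _ = gD x y α k0 β κ * (cr u (lD l p x y α k0 β κ) * cr p' m) := by rw [he, eF2]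
        _ = (gD x y α k0 β κ * cr u (lD l p x y α k0 β κ)) * cr p' m := by ring
        _ = _ := by rw [eF1]; ring
    exact mul_left_cancel₀ hβ0.ne' h1
  · have := (mul_pos_iff_of_pos_left g0).1 c2
    linarith
  · have h1 : gD x y α k0 β κ * (K * (cr v (lD l p x y α k0 β κ) +
        a1 * cr u (lD l p x y α k0 β κ))) ≤ gD x y α k0 β κ * cr u (lD l p x y α k0 β κ) := by
      rw [eF1]
      calc _ = K * (gD x y α k0 β κ * (cr v (lD l p x y α k0 β κ) +
            a1 * cr u (lD l p x y α k0 β κ))) := by ring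
        _ ≤ _ := c3
    have h2 := le_of_mul_le_mul_left h1 g0
    linarith

end Pool.Agent.H4G.Six
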