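import Pool.Agent.H4G.Six.D2.F88

/-!
# The fork over a vertical vector and the shear (helper88)

`NL A a m q` is the state `u = (1, 0)`, `v = (0, A)`, `L = aℤ × ℤ`, `M = ⟨m, q⟩`.
-/

set_option autoImplicit false

namespace Pool.Agent.H4G.Six

open Pool.Agent.H4G Matrix MatrixGroups

/-- `u = (1, 0)`, `v = (0, A)`, `L = aℤ × ℤ`, `M = ⟨m, q⟩` -/
def NL (A a : ℤ) (m q : Z2) : St6 := ⟨lat (0, 1) (a, 0), lat m q, (1, 0), (0, A)⟩

theorem NF_eq (A a c z x : ℤ) : NF A a c z x = NL A a (x, c) (z, 0) := rfl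

theorem NL.congr {A a : ℤ} {m q m' q' : Z2} (h : lat m q = lat m' q') :
    NL A a m q = NL A a m' q' := by
  rw [NL, NL, h]

theorem NL.ok {A a : ℤ} {m q : Z2} (hA : 0 < A) (ha : 1 < a) (h : 0 < cr q m)
    (hz : ∀ x : Z2, x ∈ lat m q → x.2 = 0 → x ≠ (1, 0)) : (NL A a m q).Ok := by
  obtain ⟨c, z, x, hc, hz0, _, e⟩ := exists_hnf h
  rw [NL.congr e, ← NF_eq]
  refine NF.ok hA ha hc ?_
  have h1 : z ≠ 1 := by
    intro h1
    refine hz (1, 0) ?_ rfl rfl
    rw [e, h1]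
    exact mem_lat.2 ⟨0, 1, by simp⟩
  omega

/-- **TO THE NORMAL FRAME**: `l0` is the vector of `L` with `u × l0 = 1` -/
theorem norm_st {u v l p m q l0 : Z2} {a : ℤ} (hok : St6.Ok ⟨lat l p, lat m q, u, v⟩)
    (h1 : cr u l0 = 1) (h3 : lat l p = Ld l0 a) :
    SEq6 ⟨lat l p, lat m q, u, v⟩ (NL (cr u v) a (cr m l0, cr u m) (cr q l0, cr u q)) := by
  have hu : u.1 * l0.2 - u.2 * l0.1 = 1 := h1
  set g : SL(2, ℤ) := ⟨!![l0.2, -l0.1; -u.2, u.1], by rw [Matrix.det_fin_two_of]; linarith⟩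
    with hg
  have eg : ∀ x : Z2, H4G.act g x = (cr x l0, cr u x) := by
    intro x
    rw [act_apply]
    ext
    · simp [hg, cr]; ring
    · simp [hg, cr]; ring
  have s1 := SEq6.act g hok
  have eu : H4G.act g u = (1, 0) := by
    rw [eg, cr_self, h1]
  have el : H4G.act g l0 = (0, 1) := by
    rw [eg, cr_self, h1]
  have eL : (lat l p).map (H4G.act g) = lat (0, 1) (a, 0) := by
    rw [h3, map_Ld, el, lat_eq_Ld isCoprime_one_right]
    congr 1
    simp [cr]
  have eM : (lat m q).map (H4G.act g) = lat (cr m l0, cr u m) (cr q l0, cr u q) := by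
    rw [map_lat, eg, eg]
  have e5 : St6.act g ⟨lat l p, lat m q, u, v⟩ = ⟨lat (0, 1) (a, 0),
      lat (cr m l0, cr u m) (cr q l0, cr u q), (1, 0), H4G.act g v⟩ := by
    simp only [St6.act, eL, eM, eu]
  rw [e5] at s1
  have s2 := SEq6.tv s1.ok' (-(cr v l0))
  have ev : H4G.act g v + (-(cr v l0)) • ((1, 0) : Z2) = (0, cr u v) := by
    rw [eg]
    ext <;> simp
  rw [ev] at s2
  exact s1.trans s2

/-- **SHEAR** -/
theorem NL.shear {A a : ℤ} {m q : Z2} (hok : (NL A a m q).Ok) (s : ℤ) :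
    SEq6 (NL A a m q) (NL A a (m.1 + s * a * m.2, m.2) (q.1 + s * a * q.2, q.2)) := by
  have h1 : cr ((1, 0) : Z2) (-(s * a), 1) = 1 := by simp [cr]
  have h3 : lat ((0, 1) : Z2) (a, 0) = Ld (-(s * a), 1) a := by
    have e : lat ((0, 1) : Z2) (a, 0) = lat (-(s * a), 1) (a, 0) := by
      refine closure_pair_eq (α := 1) (β := s) (γ := 0) (δ := 1) ?_ ?_ (Or.inl (by norm_num))
      · ext <;> simp
      · ext <;> simp
    rw [e, lat_eq_Ld isCoprime_one_right]
    congr 1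
    simp [cr]
  have := norm_st (u := (1, 0)) (v := (0, A)) hok h1 h3
  have e1 : cr ((1, 0) : Z2) (0, A) = A := by simp [cr]
  have e2 : ∀ x : Z2, ((cr x (-(s * a), 1), cr ((1, 0) : Z2) x) : Z2) =
      (x.1 + s * a * x.2, x.2) := by
    intro x
    ext
    · simp [cr]; ring
    · simp [cr]
  rw [e1, e2, e2] at this
  exact this

/-- **FORK** over the vertical vector `(0, F)`: the second basis vector `(g, y)` of `M` becomes
`(g, y - k (g - 1) (A + 1))` -/
theorem NL.fork {A a F g y : ℤ} (hA : 0 < A) (ha : 1 < a) (hF : 0 < F) (hg : 1 < g) (k : ℤ) :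
    SEq6 (NL A a (0, F) (g, y)) (NL A a (0, F) (g, y - k * ((g - 1) * (A + 1)))) := by
  set W : ℤ := A + 1 + F with hW
  have e1 : cr ((1, 0) : Z2) (0, 1) = 1 := by simp [cr]
  have e2 : cr ((1, 0) : Z2) (0, F) = F := by simp [cr]
  have e3 : cr ((a, 0) : Z2) (0, 1) = a := by simp [cr]
  have e4 : cr ((g, y) : Z2) (0, F) = g * F := by simp [cr]
  have e5 : cr ((1, 0) : Z2) ((0, A) + (0, 1) + (0, F)) = W := by simp [cr, hW]
  have e6 : cr ((1, k * W) : Z2) (0, 1) = 1 := by simp [cr]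
  have e7 : cr ((1, k * W) : Z2) (0, F) = F := by simp [cr]
  obtain ⟨v', k1, k2⟩ := exit_pencil (u := (1, 0)) (v := (0, A)) (l := (0, 1)) (p := (a, 0))
    (m := (0, F)) (p' := (g, y)) (u' := (1, k * W)) (α := 1) (k := k) (by simp [cr]; exact hA)
    (by rw [e1]; norm_num) (by rw [e1, e3]; exact ha) (by rw [e2]; exact hF)
    (by rw [e2, e4]; nlinarith) isCoprime_one_left (by
      ext
      · simp
      · simp [hW]) (by rw [e6]; norm_num) (by rw [e7]; exact hF) (by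
      rw [e5, e6, e7, hW]; linarith)
  rw [e5, e6, e7] at k1
  have e8 : lat ((0, 1) : Z2) ((a, 0) + ((1, k * W) - (1, 0))) = Ld (0, 1) a := by
    rw [lat_eq_Ld isCoprime_one_right]
    congr 1
    simp [cr]
  have s2 := norm_st k2.ok' (l0 := (0, 1)) e6 e8
  have e9 : cr ((1, k * W) : Z2) v' = A := by rw [k1, hW]; ring
  rw [e9] at s2
  refine (k2.trans s2).trans ?_
  have e10 : NL A a (cr ((0, F) : Z2) (0, 1), cr ((1, k * W) : Z2) (0, F))
      (cr ((g, y) + ((1, k * W) - (1, 0)) : Z2) (0, 1),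
        cr ((1, k * W) : Z2) ((g, y) + ((1, k * W) - (1, 0)))) =
      NL A a (0, F) (g, y - k * ((g - 1) * (A + 1))) := by
    have c1 : ((cr ((0, F) : Z2) (0, 1), cr ((1, k * W) : Z2) (0, F)) : Z2) = (0, F) := by
      ext <;> simp [cr]
    have c2 : ((cr ((g, y) + ((1, k * W) - (1, 0)) : Z2) (0, 1),
        cr ((1, k * W) : Z2) ((g, y) + ((1, k * W) - (1, 0)))) : Z2) =
        (g, y - k * W * (g - 1)) := by
      ext
      · simp [cr]
      · simp [cr]; ring
    rw [c1, c2]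
    apply NL.congr
    refine closure_pair_eq (α := 1) (β := 0) (γ := -(k * (g - 1))) (δ := 1) ?_ ?_
      (Or.inl (by norm_num))
    · ext <;> simp
    · ext
      · simp
      · simp [hW]; ring
  rw [e10]
  exact (e10 ▸ (k2.trans s2).ok').seq

/-! ## The content after forks -/

/-- a coprime pair: some `a + k b` is prime to `n` -/
theorem exists_cop_add {a b n : ℤ} (h : IsCoprime a b) (hn : n ≠ 0) :
    ∃ k : ℤ, IsCoprime (a + k * b) n := by
  classical
  set T : Finset ℕ := n.natAbs.primeFactors.filter (fun p : ℕ => ¬ (p : ℤ) ∣ a) with hT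
  refine ⟨∏ p ∈ T, ((p : ℕ) : ℤ), ?_⟩
  refine isCoprime_of_prime fun r hr h2 h1 => ?_
  have hr' := Nat.prime_iff_prime_int.1 hr
  by_cases hra : (r : ℤ) ∣ a
  · have h3 := (dvd_add_right hra).1 h1
    rcases hr'.dvd_or_dvd h3 with h4 | h4
    · obtain ⟨p, hp, hrp⟩ := (Prime.dvd_finset_prod_iff hr' _).1 h4
      obtain ⟨hp1, hp2⟩ := Finset.mem_filter.1 hp
      have hpp := Nat.prime_of_mem_primeFactors hp1
      have : r = p := (Nat.prime_dvd_prime_iff_eq hr hpp).1 (by exact_mod_cast hrp)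
      exact hp2 (this ▸ hra)
    · exact not_dvd_of_isCoprime h hr h4 hra
  · have hrn : r ∈ T := by
      refine Finset.mem_filter.2 ⟨?_, hra⟩
      rw [Nat.mem_primeFactors]
      refine ⟨hr, ?_, by omega⟩
      exact Int.natCast_dvd.1 h2
    have h4 : (r : ℤ) ∣ ∏ p ∈ T, ((p : ℕ) : ℤ) :=
      Finset.dvd_prod_of_mem (fun p : ℕ => (p : ℤ)) hrn
    exact hra ((dvd_add_left (h4.mul_right b)).1 h1)

/-- some `y + k G` has the same common divisors with `F` as the pair `y, G` -/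
theorem exists_gcd_add {y G F : ℤ} (hF : F ≠ 0) :
    ∃ k : ℤ, ∀ d : ℤ, d ∣ F → d ∣ y + k * G → d ∣ y ∧ d ∣ G := by
  by_cases h0 : y = 0 ∧ G = 0
  · exact ⟨0, fun d _ _ => ⟨by rw [h0.1]; exact dvd_zero _, by rw [h0.2]; exact dvd_zero _⟩⟩
  · set e : ℤ := (Int.gcd y G : ℤ) with he
    have he0 : e ≠ 0 := by
      intro h1
      apply h0
      have : Int.gcd y G = 0 := by omega
      exact Int.gcd_eq_zero_iff.1 this
    obtain ⟨y1, hy1⟩ : e ∣ y := Int.gcd_dvd_left ..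
    obtain ⟨G1, hG1⟩ : e ∣ G := Int.gcd_dvd_right ..
    have hc : IsCoprime y1 G1 := by
      refine ⟨Int.gcdA y G, Int.gcdB y G, ?_⟩
      have h1 : e = y * Int.gcdA y G + G * Int.gcdB y G := by rw [he, Int.gcd_eq_gcd_ab]
      have h2 : e * (Int.gcdA y G * y1 + Int.gcdB y G * G1) = e * 1 := by
        rw [mul_one]
        linear_combination (-(Int.gcdA y G)) * hy1 - (Int.gcdB y G) * hG1 - h1
      exact mul_left_cancel₀ he0 h2
    obtain ⟨k, hk⟩ := exists_cop_add hc hF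
    refine ⟨k, fun d hd1 hd2 => ?_⟩
    have h3 : d ∣ (y1 + k * G1) * e := by
      have e1 : (y1 + k * G1) * e = y + k * G := by
        rw [hy1, hG1]; ring
      rw [e1]; exact hd2
    have h4 : IsCoprime d (y1 + k * G1) := (hk.of_isCoprime_of_dvd_right hd1).symm
    have h5 : d ∣ e := h4.dvd_of_dvd_mul_left h3
    exact ⟨h5.trans (Int.gcd_dvd_left ..), h5.trans (Int.gcd_dvd_right ..)⟩

/-- **the content after the best fork**: every common divisor of the heights of the new `M`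
divides `F`, `y` and `(g - 1) (A + 1)` -/
theorem NL.fork_content {A a F g y : ℤ} (hA : 0 < A) (ha : 1 < a) (hF : 0 < F) (hg : 1 < g) :
    ∃ y' : ℤ, SEq6 (NL A a (0, F) (g, y)) (NL A a (0, F) (g, y')) ∧
      ∀ d : ℤ, d ∣ F → d ∣ y' → d ∣ y ∧ d ∣ (g - 1) * (A + 1) := by
  obtain ⟨k, hk⟩ := exists_gcd_add (y := y) (G := (g - 1) * (A + 1)) hF.ne'
  refine ⟨y - (-k) * ((g - 1) * (A + 1)), NL.fork hA ha hF hg (-k), fun d h1 h2 => ?_⟩
  exact hk d h1 (by
    have : y + k * ((g - 1) * (A + 1)) = y - (-k) * ((g - 1) * (A + 1)) := by ring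
    rw [this]; exact h2)

/-- the vertical basis of a lattice -/
theorem NF_vert {A a c z x : ℤ} (hc : 0 < c) (hz : 0 < z) : ∃ g F y : ℤ, 0 < g ∧ 0 < F ∧
    g * F = c * z ∧ g ∣ z ∧ g ∣ x ∧ c ∣ F ∧ c ∣ y ∧ NF A a c z x = NL A a (0, F) (g, y) := by
  set g : ℤ := (Int.gcd z x : ℤ) with hg
  have hg0 : 0 < g := by
    have : Int.gcd z x ≠ 0 := by
      intro h
      exact hz.ne' (Int.gcd_eq_zero_iff.1 h).1
    omega
  obtain ⟨z1, hz1⟩ : g ∣ z := Int.gcd_dvd_left ..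
  obtain ⟨x1, hx1⟩ : g ∣ x := Int.gcd_dvd_right ..
  have hb : z1 * Int.gcdA z x + x1 * Int.gcdB z x = 1 := by
    have h1 : g = z * Int.gcdA z x + x * Int.gcdB z x := by rw [hg, Int.gcd_eq_gcd_ab]
    have h2 : g * (z1 * Int.gcdA z x + x1 * Int.gcdB z x) = g * 1 := by
      rw [mul_one]
      linear_combination (-(Int.gcdA z x)) * hz1 - (Int.gcdB z x) * hx1 - h1
    exact mul_left_cancel₀ hg0.ne' h2
  set A1 : ℤ := Int.gcdA z x with hA1
  set B1 : ℤ := Int.gcdB z x with hB1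
  have hz10 : 0 < z1 := by
    have h : 0 < g * z1 := by rw [← hz1]; exact hz
    exact (pos_iff_pos_of_mul_pos h).1 hg0
  refine ⟨g, c * z1, B1 * c, hg0, by positivity, by rw [hz1]; ring, ⟨z1, hz1⟩, ⟨x1, hx1⟩,
    dvd_mul_right _ _, dvd_mul_left _ _, ?_⟩
  rw [NF_eq]
  apply NL.congr
  refine (closure_pair_eq (α := z1) (β := -x1) (γ := B1) (δ := A1) ?_ ?_ (Or.inl ?_)).symm
  · ext
    · simp only [Prod.smul_fst, Prod.fst_add, smul_eq_mul]
      rw [hz1, hx1]; ring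
    · simp only [Prod.smul_snd, Prod.snd_add, smul_eq_mul]; ring
  · ext
    · simp only [Prod.smul_fst, Prod.fst_add, smul_eq_mul]
      linear_combination (-g) * hb - B1 * hx1 - A1 * hz1
    · simp only [Prod.smul_snd, Prod.snd_add, smul_eq_mul]; ring
  · linarith

end Pool.Agent.H4G.Six
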