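import Pool.Agent.H4G.Six.D2.Fork39
import Pool.Agent.H4G.Six.D2.APc
import Pool.Agent.H4G.Six.NR.Frame

/-!
# D2, row R-6 in tree form (helper39)

At a near-Prym tree whose companion is parallel to the level vector, `L ≠ M`, there is a tree with
the same lattices and parallel slits, and a progression `u + t g`, `0 ≤ t ≤ K`, of centres with
`a' (g × l) ≠ a (g × m)`.
-/

set_option autoImplicit false

namespace Pool.Agent.H4G.Six

open Pool.Agent.H4G

variable {X : Type} {O : PO X} {N : ℤ} {u v e p e' p' : Z2} {c a c' a' x y α k0 : ℤ}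

/-- the bound of the level in `NP.fork` -/
def S39 (J : ℕ) (x y α K : ℤ) : ℤ := PiD x y α * (1 + PiD x y α * (K * J + J))

theorem Lv.fork_ap {J Y : ℕ} (hcap : Cap J Y) (h : Lv O N u v e p e' p' c a c' a')
    (hNP : NP u e p e' p' x y α k0) (hκ : kap e p e' α k0 = 0) (hLM : lat e p ≠ lat e' p')
    {K R : ℤ} (hK : 0 < K) (hR : 0 ≤ R) (hX1 : y * cr p v ≤ Y)
    (hX2 : 1 + PiD x y α * (2 * K * J + J) ≤ Y)
    (hs1 : S39 J x y α (2 * K) * x * α * c < a) (hs2 : S39 J x y α (2 * K) * c' < a')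
    (hW : R * (cr u v + S39 J x y α (2 * K) * x * α * c + S39 J x y α (2 * K) * c') ≤ N) :
    ∃ l q m s g : Z2, TN O N u v l q m s ∧ lat l (u + q) = lat e p ∧
      lat m (u + s) = lat e' p' ∧ (∃ i1 : ℤ, g = i1 • u + (-1 : ℤ) • (v + l + m)) ∧
      (∀ t : ℤ, 0 ≤ t → t ≤ K → Lg u v l m (u + t • g)) ∧
      (cr u m + cr s m) * cr g l ≠ (cr u l + cr q l) * cr g m ∧
      R * (cr u v + cr u l + cr u m) ≤ N ∧ cr l m = 0 ∧ Six.ct u l q = c ∧ Six.ct u m s = c' := by
  have A0 := h.A0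
  have c0 := h.c0
  have c0' := h.c0'
  obtain ⟨β, κ, i1, b1, b2, b3, b4, b5, b6, b7⟩ :=
    hNP.fork hcap hκ hLM A0 (K := 2 * K) (by linarith) hX1 hX2
  have b2' : β ≤ S39 J x y α (2 * K) := b2
  have f1 := hNP.F1_pos (κ := κ) b1
  have f1le := hNP.F1_le (κ := κ) b1
  have f2 := hNP.F2 (β := β) (κ := κ)
  have hxα : 0 < x * α := mul_pos hNP.x0 hNP.α0
  rw [h.ue] at f1le
  rw [h.ue'] at f2
  have el : lD e p x y α k0 β κ = iD x y α k0 β κ • e + jD x y α k0 β κ • p := rfl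
  have em : mD e' p' β κ = β • e' + κ • p' := rfl
  have hF1 : cr u (lD e p x y α k0 β κ) = iD x y α k0 β κ * c := by rw [el, h.cr_ul]
  have i0 : 0 < iD x y α k0 β κ := by
    rw [hF1] at f1
    exact (mul_pos_iff_of_pos_right c0).1 f1
  have l1 : cr u (lD e p x y α k0 β κ) ≤ S39 J x y α (2 * K) * x * α * c := by
    refine f1le.trans ?_
    have h1 : β * (x * α * c) ≤ S39 J x y α (2 * K) * (x * α * c) :=
      mul_le_mul_of_nonneg_right b2' (mul_pos hxα c0).le
    calc β * x * α * c = β * (x * α * c) := by ring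
      _ ≤ _ := h1
      _ = _ := by ring
  have l2 : β * c' ≤ S39 J x y α (2 * K) * c' := mul_le_mul_of_nonneg_right b2' c0'.le
  obtain ⟨q1, s1, t1, t2, t3, t4, t5, t6, t7⟩ := h.slit (α := iD x y α k0 β κ)
    (k := jD x y α k0 β κ) (α' := β) (k' := κ) i0 (by rw [← hF1]; linarith)
    (iD_jD b1 hNP.x0 hNP.α0) b1 (by linarith) b3
  rw [← el, ← em] at t1
  rw [← el] at t2 t4 t6
  rw [← em] at t3 t5 t7
  obtain ⟨l, hl⟩ : ∃ l, l = lD e p x y α k0 β κ := ⟨_, rfl⟩
  obtain ⟨m, hm⟩ : ∃ m, m = mD e' p' β κ := ⟨_, rfl⟩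
  rw [← hl] at t1 t2 t4 t6 b4 b5 b6 b7 f1 hF1 l1
  rw [← hm] at t1 t3 t5 t7 b4 b5 f2
  obtain ⟨g, hg⟩ : ∃ g, g = i1 • u + (-1 : ℤ) • (v + l + m) := ⟨_, rfl⟩
  have f2' : 0 < cr u m := by rw [f2]; exact mul_pos b1 c0'
  have gl : cr g l = i1 * cr u l - cr v l := by
    have : cr m l = 0 := by
      have : cr m l = - cr l m := by simp only [cr]; ring
      rw [this, b4, neg_zero]
    rw [hg]
    simp only [cr_add_left, cr_smul_left, cr_self, this]
    ring
  have gm : cr g m = i1 * cr u m - cr v m := by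
    rw [hg]
    simp only [cr_add_left, cr_smul_left, cr_self, b4]
    ring
  have pl : cr u l * cr g m = cr u m * cr g l := by
    have e1 : cr u l * cr g m - cr u m * cr g l = cr u g * cr l m := by simp only [cr]; ring
    rw [b4, mul_zero] at e1
    linarith
  refine ⟨l, q1, m, s1, g, t1, t2, t3, ⟨i1, hg⟩, ?_, ?_, ?_, b4, t6, t7⟩
  · intro t ht htK
    obtain ⟨r1, r2, r3⟩ := tall_centres (u := u) (v := v) (l := l) (m := m) (g := g) (i1 := i1)
      (j1 := -1) (t := t) (K := K) A0 f1 f2' hg ht htK (by rw [b4]; norm_num) (by linarith)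
      (by linarith) (by rw [b4]; simp only [mul_zero, neg_zero, zero_mul]; exact mul_pos f1 f2')
    refine ⟨r1, r2, ?_⟩
    rw [cr_add_right, cr_add_right] at r3
    exact r3
  · intro he
    have ea : cr u l + cr q1 l = a := by rw [t4, hF1]; ring
    have ea' : cr u m + cr s1 m = a' := by rw [t5, f2]; ring
    rw [ea, ea'] at he
    apply b5
    rw [h.pe', h.pe]
    have hgl : cr g l ≠ 0 := by rw [gl]; exact b6.ne
    have h1 : cr g l * (cr u l * a') = cr g l * (cr u m * a) := by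
      calc cr g l * (cr u l * a') = cr u l * (a' * cr g l) := by ring
        _ = cr u l * (a * cr g m) := by rw [he]
        _ = a * (cr u l * cr g m) := by ring
        _ = a * (cr u m * cr g l) := by rw [pl]
        _ = _ := by ring
    exact mul_left_cancel₀ hgl h1
  · refine le_trans (mul_le_mul_of_nonneg_left ?_ hR) hW
    rw [f2]
    linarith

/-- R-6 in the form of the interface `APc` -/
theorem Lv.fork_APc {J Y : ℕ} (hcap : Cap J Y) (h : Lv O N u v e p e' p' c a c' a')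
    (hNP : NP u e p e' p' x y α k0) (hκ : kap e p e' α k0 = 0) (hLM : lat e p ≠ lat e' p')
    {K R : ℤ} (hK : 0 < K) (hR : 0 ≤ R) (hX1 : y * cr p v ≤ Y)
    (hX2 : 1 + PiD x y α * (2 * K * J + J) ≤ Y)
    (hs1 : S39 J x y α (2 * K) * x * α * c < a) (hs2 : S39 J x y α (2 * K) * c' < a')
    (hW : R * (cr u v + S39 J x y α (2 * K) * x * α * c + S39 J x y α (2 * K) * c') ≤ N) :
    ∃ l q m s g : Z2, APc O N u v l q m s g K ∧ lat l (u + q) = lat e p ∧
      lat m (u + s) = lat e' p' ∧ R * (cr u v + cr u l + cr u m) ≤ N := by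
  obtain ⟨l, q, m, s, g, t1, t2, t3, ⟨i1, hg⟩, t4, t5, t6, -⟩ :=
    h.fork_ap hcap hNP hκ hLM hK hR hX1 hX2 hs1 hs2 hW
  exact ⟨l, q, m, s, g, ⟨t1.has, t1.vol, ⟨i1, -1, Or.inr rfl, hg⟩, t4, t5⟩, t2, t3, t6⟩

end Pool.Agent.H4G.Six
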