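import Pool.Agent.H4G.Six.BMin
import Pool.Agent.H4G.Six.RoomSieve
import Pool.Agent.H4G.Six.Recon6

/-!
# Freezing (tool (P4) of helper91; typed by helper77)

`ap_gcd`: along a progression of length `J` the common divisor of two linear forms is the common
divisor of their coefficients for at least one term. `freeze_one`: if the content `b` of `u × L`
divides `x × l`, `x × q` for `x = v + l + m` and enough pairs `l`, `m`, then `b = 1`.
-/

set_option autoImplicit false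

namespace Pool.Agent.H4G.Six

open Pool.Agent.H4G

/-- the common divisor of two linear forms along a progression of length `J` -/
theorem ap_gcd {J X : ℕ} (hcap : Cap J X) {X0 Y0 dX dY : ℤ} (hD : X0 * dY - Y0 * dX ≠ 0)
    (hX : |X0 * dY - Y0 * dX| ≤ X) (t0 : ℤ) :
    ∃ t, t0 ≤ t ∧ t < t0 + J ∧ ∀ d : ℤ, d ∣ X0 + t * dX → d ∣ Y0 + t * dY →
      d ∣ X0 ∧ d ∣ Y0 ∧ d ∣ dX ∧ d ∣ dY := by
  obtain ⟨g, hg⟩ : ∃ g : ℤ, g = Int.gcd (Int.gcd X0 Y0 : ℤ) (Int.gcd dX dY : ℤ) := ⟨_, rfl⟩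
  have g1 : g ∣ (Int.gcd X0 Y0 : ℤ) := by rw [hg]; exact Int.gcd_dvd_left _ _
  have g2 : g ∣ (Int.gcd dX dY : ℤ) := by rw [hg]; exact Int.gcd_dvd_right _ _
  obtain ⟨x, hx⟩ : g ∣ X0 := g1.trans (Int.gcd_dvd_left _ _)
  obtain ⟨y, hy⟩ : g ∣ Y0 := g1.trans (Int.gcd_dvd_right _ _)
  obtain ⟨z, hz⟩ : g ∣ dX := g2.trans (Int.gcd_dvd_left _ _)
  obtain ⟨w, hw⟩ : g ∣ dY := g2.trans (Int.gcd_dvd_right _ _)
  have g0 : g ≠ 0 := by
    rintro h0
    apply hD
    rw [hx, hy, h0]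
    ring
  have gpos : 0 < g := by
    have : 0 ≤ g := by rw [hg]; exact Int.natCast_nonneg _
    exact lt_of_le_of_ne this (Ne.symm g0)
  have gmax : ∀ d : ℤ, d ∣ X0 → d ∣ Y0 → d ∣ dX → d ∣ dY → d ∣ g := by
    intro d h1 h2 h3 h4
    rw [hg]
    exact Int.dvd_coe_gcd (Int.dvd_coe_gcd h1 h2) (Int.dvd_coe_gcd h3 h4)
  have eD : X0 * dY - Y0 * dX = g ^ 2 * (x * w - y * z) := by
    rw [hx, hy, hz, hw]; ring
  have hD' : x * w - y * z ≠ 0 := by
    intro h0
    apply hD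
    rw [eD, h0, mul_zero]
  have hle : |x * w - y * z| ≤ X := by
    have h1 : |X0 * dY - Y0 * dX| = g ^ 2 * |x * w - y * z| := by
      rw [eD, abs_mul, abs_of_pos (pow_pos gpos 2)]
    have h2 : 1 * |x * w - y * z| ≤ g ^ 2 * |x * w - y * z| := by
      refine mul_le_mul_of_nonneg_right ?_ (abs_nonneg _)
      exact one_le_pow₀ gpos
    linarith
  obtain ⟨t, t1, t2, t3⟩ := sievePair (k := 1) (e := 1) hcap (D0 := |x * w - y * z|)
    (abs_pos.2 hD') hle (by norm_num) (fun _ => z) (fun _ => x) (fun _ => w) (fun _ => y)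
    (fun _ => by
      rw [dvd_abs]
      exact ⟨-1, by ring⟩)
    (fun p hp _ => Or.inl ⟨hp.one_lt, fun _ h1 h2 h3 h4 => by
      have h5 : g * p ∣ g := gmax _ (by rw [hx]; exact mul_dvd_mul_left g h3)
        (by rw [hy]; exact mul_dvd_mul_left g h4) (by rw [hz]; exact mul_dvd_mul_left g h1)
        (by rw [hw]; exact mul_dvd_mul_left g h2)
      have h6 : (p : ℤ) ∣ 1 := by
        have : g * p ∣ g * 1 := by rwa [mul_one]
        exact (mul_dvd_mul_iff_left g0).1 this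
      exact prime_not_dvd_one hp h6⟩) t0
  rw [pow_one] at t2
  refine ⟨t, t1, t2, fun d h1 h2 => ?_⟩
  obtain ⟨i, j, hij⟩ := t3 0
  have e1 : X0 + t * dX = g * (z * t + x) := by rw [hx, hz]; ring
  have e2 : Y0 + t * dY = g * (w * t + y) := by rw [hy, hw]; ring
  have h3 : d ∣ g := by
    have e3 : g = i * (X0 + t * dX) + j * (Y0 + t * dY) := by
      rw [e1, e2]
      calc g = g * (i * (z * t + x) + j * (w * t + y)) := by rw [hij, mul_one]
        _ = _ := by ring
    rw [e3]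
    exact dvd_add (h1.mul_left _) (h2.mul_left _)
  exact ⟨by rw [hx]; exact h3.mul_right _, by rw [hy]; exact h3.mul_right _,
    by rw [hz]; exact h3.mul_right _, by rw [hw]; exact h3.mul_right _⟩

/-- three vectors of the plane -/
private theorem cr_three (x y z : Z2) : cr x y • z = cr z y • x - cr z x • y := by
  ext
  · simp only [cr, Prod.smul_fst, Prod.fst_sub, smul_eq_mul]; ring
  · simp only [cr, Prod.smul_snd, Prod.snd_sub, smul_eq_mul]; ring

/-- **FREEZING**, the algebra: `u × L`, `v × L`, `M × L`, `u × M` and `A - a` are divisible by the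
content `b` of `u × L`: then `b = 1`. -/
theorem freeze_alg {b : ℤ} {u v l l1 m m1 : Z2} (b0 : b ≠ 0)
    (hspan : AddSubgroup.closure ({u, v, l, l1, m, m1} : Set Z2) = ⊤)
    (hb : ∀ d : ℤ, d ∣ cr u l → d ∣ cr u l1 → d ∣ b)
    (ul : b ∣ cr u l) (ul1 : b ∣ cr u l1) (vl : b ∣ cr v l) (vl1 : b ∣ cr v l1)
    (ml : b ∣ cr m l) (ml1 : b ∣ cr m l1) (m1l : b ∣ cr m1 l) (m1l1 : b ∣ cr m1 l1)
    (um : b ∣ cr u m) (um1 : b ∣ cr u m1) (hA : b ∣ cr u v - cr l1 l) : b ∣ 1 := by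
  obtain ⟨a, ha⟩ : ∃ a, a = cr l1 l := ⟨_, rfl⟩
  rw [← ha] at hA
  obtain ⟨g, hg⟩ : ∃ g : ℤ, g = Int.gcd a b := ⟨_, rfl⟩
  have ga : g ∣ a := by rw [hg]; exact Int.gcd_dvd_left _ _
  have gb : g ∣ b := by rw [hg]; exact Int.gcd_dvd_right _ _
  have all : ∀ w : Z2, g ∣ cr w u → g ∣ cr w v → g ∣ cr w l → g ∣ cr w l1 → g ∣ cr w m →
      g ∣ cr w m1 → g ∣ w.1 ∧ g ∣ w.2 := by
    intro w h1 h2 h3 h4 h5 h6
    have key : ∀ z : Z2, g ∣ cr w z := by
      intro z
      have hz : z ∈ AddSubgroup.closure ({u, v, l, l1, m, m1} : Set Z2) := by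
        rw [hspan]; trivial
      induction hz using AddSubgroup.closure_induction with
      | mem x hx =>
        rcases hx with rfl | rfl | rfl | rfl | rfl | rfl
        · exact h1
        · exact h2
        · exact h3
        · exact h4
        · exact h5
        · exact h6
      | zero => simp [cr]
      | add x y _ _ hx hy =>
        rw [cr_addr]
        exact dvd_add hx hy
      | neg x _ hx =>
        rw [cr_negr]
        exact (dvd_neg).2 hx
    have k1 := key (0, 1)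
    have k2 := key (1, 0)
    simp only [cr] at k1 k2
    refine ⟨by simpa using k1, by simpa using k2⟩
  have sw : ∀ x y : Z2, b ∣ cr x y → g ∣ cr y x := by
    intro x y h
    rw [cr_swap' x y]
    exact (dvd_neg).2 (gb.trans h)
  have l_a : cr l l1 = -a := by rw [ha, cr_swap' l1 l]
  obtain ⟨⟨x1, hx1⟩, ⟨x2, hx2⟩⟩ := all l (sw _ _ ul) (sw _ _ vl) (by rw [cr_self']; exact dvd_zero _)
    (by rw [l_a]; exact (dvd_neg).2 ga) (sw _ _ ml) (sw _ _ m1l)
  obtain ⟨⟨y1, hy1⟩, ⟨y2, hy2⟩⟩ := all l1 (sw _ _ ul1) (sw _ _ vl1) (by rw [← ha]; exact ga)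
    (by rw [cr_self']; exact dvd_zero _) (sw _ _ ml1) (sw _ _ m1l1)
  have gA : g ∣ cr u v := by
    have : cr u v = (cr u v - a) + a := by ring
    rw [this]
    exact dvd_add (gb.trans hA) ga
  obtain ⟨⟨z1, hz1⟩, ⟨z2, hz2⟩⟩ := all u (by rw [cr_self']; exact dvd_zero _) gA (gb.trans ul)
    (gb.trans ul1) (gb.trans um) (gb.trans um1)
  have e1 : g ^ 2 ∣ a := ⟨y1 * x2 - y2 * x1, by
    rw [ha]; simp only [cr]; rw [hx1, hx2, hy1, hy2]; ring⟩
  have e2 : g ^ 2 ∣ b := hb _ ⟨z1 * x2 - z2 * x1, by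
    simp only [cr]; rw [hx1, hx2, hz1, hz2]; ring⟩ ⟨z1 * y2 - z2 * y1, by
    simp only [cr]; rw [hy1, hy2, hz1, hz2]; ring⟩
  have e3 : g ^ 2 ∣ g := by
    have : g ^ 2 ∣ (Int.gcd a b : ℤ) := Int.dvd_coe_gcd e1 e2
    rwa [← hg] at this
  have g0 : g ≠ 0 := by
    rintro h0
    rw [h0] at gb
    exact b0 (zero_dvd_iff.1 gb)
  have g1 : g ∣ 1 := by
    have : g * g ∣ g * 1 := by rw [mul_one, ← pow_two]; exact e3
    exact (mul_dvd_mul_iff_left g0).1 this
  have hcop : IsCoprime a b := by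
    have : Int.gcd a b = 1 := by
      have h1 : g = 1 ∨ g = -1 := Int.isUnit_iff.1 (isUnit_of_dvd_one g1)
      rcases h1 with h1 | h1
      · rw [h1] at hg; exact_mod_cast hg.symm
      · exfalso
        have : 0 ≤ g := by rw [hg]; exact Int.natCast_nonneg _
        linarith
    exact Int.isCoprime_iff_gcd_eq_one.2 this
  have ved : ∀ z : Z2, b ∣ cr z l → b ∣ cr z l1 → b ∣ z.1 ∧ b ∣ z.2 := by
    intro z h1 h2
    have e := cr_three l1 l z
    rw [← ha] at e
    have c1 := congrArg Prod.fst e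
    have c2 := congrArg Prod.snd e
    simp only [Prod.smul_fst, Prod.smul_snd, Prod.fst_sub, Prod.snd_sub, smul_eq_mul] at c1 c2
    constructor
    · refine hcop.symm.dvd_of_dvd_mul_left ?_
      rw [c1]
      exact dvd_sub (h1.mul_right _) (h2.mul_right _)
    · refine hcop.symm.dvd_of_dvd_mul_left ?_
      rw [c2]
      exact dvd_sub (h1.mul_right _) (h2.mul_right _)
  obtain ⟨⟨i1, hi1⟩, -⟩ := ved u ul ul1
  obtain ⟨-, ⟨i2, hi2⟩⟩ := ved u ul ul1
  have hbA : b ∣ cr u v := by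
    simp only [cr]
    rw [hi1, hi2]
    exact ⟨i1 * v.2 - i2 * v.1, by ring⟩
  have hba : b ∣ a := by
    have : a = cr u v - (cr u v - a) := by ring
    rw [this]
    exact dvd_sub hbA hA
  obtain ⟨i, j, hij⟩ := hcop
  rw [← hij]
  exact dvd_add (hba.mul_left _) (dvd_mul_left _ _)

/-- **FREEZING**: if the content `b` of `u × L` divides `x × l` and `x × q` for `x = v + l + m` and
the pairs `(l, m_j)`, `(l_1, m_j)` with `L = ⟨l, l_1⟩` and `M = ⟨m_1 - m_0, m_2 - m_0⟩`, then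
`b = 1`. -/
theorem freeze_pairs {u v l q m s l1 m0 m1 m2 : Z2}
    (hspan : AddSubgroup.closure ({u, v, l, q, m, s} : Set Z2) = ⊤) (hul : 0 < cr u l)
    (hl : u + q ∈ lat l l1) (hm0 : m0 ∈ lat (m1 - m0) (m2 - m0))
    (hm : m ∈ lat (m1 - m0) (m2 - m0)) (hs : u + s ∈ lat (m1 - m0) (m2 - m0))
    (x0 : ct u l q ∣ cr (v + m0) l) (x1 : ct u l q ∣ cr (v + m1) l)
    (x2 : ct u l q ∣ cr (v + m2) l) (y0 : ct u l q ∣ cr (v + m0) l1)
    (y1 : ct u l q ∣ cr (v + m1) l1) (y2 : ct u l q ∣ cr (v + m2) l1)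
    (z0 : ct u l q ∣ cr (v + l + m0) q) (z1 : ct u l q ∣ cr (v + l + m1) q)
    (z2 : ct u l q ∣ cr (v + l + m2) q) : ct u l q = 1 := by
  obtain ⟨b, hb⟩ : ∃ b, b = ct u l q := ⟨_, rfl⟩
  have bul : b ∣ cr u l := by rw [hb]; exact ct_dvd_left
  have buq : b ∣ cr u q := by rw [hb]; exact ct_dvd_right
  have bmax : ∀ d : ℤ, d ∣ cr u l → d ∣ cr u (u + q) → d ∣ b := by
    intro d h1 h2
    rw [cr_addr, cr_self', zero_add] at h2
    rw [hb]
    exact dvd_ct h1 h2
  have b0 : 0 < b := by rw [hb]; exact ct_pos hul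
  rw [← hb] at x0 x1 x2 y0 y1 y2 z0 z1 z2 ⊢
  have hL : ∀ w : Z2, b ∣ cr w l → b ∣ cr w l1 → b ∣ cr w (u + q) := by
    intro w h1 h2
    obtain ⟨i, j, hij⟩ := mem_lat_coords hl
    have e : cr w (u + q) = i * cr w l + j * cr w l1 := by
      rw [hij]
      simp only [cr, Prod.fst_add, Prod.snd_add, Prod.smul_fst, Prod.smul_snd, smul_eq_mul]
      ring
    rw [e]
    exact dvd_add (h1.mul_left _) (h2.mul_left _)
  have d1l : b ∣ cr (m1 - m0) l := by
    have e : cr (m1 - m0) l = cr (v + m1) l - cr (v + m0) l := by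
      simp only [cr, Prod.fst_add, Prod.snd_add, Prod.fst_sub, Prod.snd_sub]; ring
    rw [e]; exact dvd_sub x1 x0
  have d2l : b ∣ cr (m2 - m0) l := by
    have e : cr (m2 - m0) l = cr (v + m2) l - cr (v + m0) l := by
      simp only [cr, Prod.fst_add, Prod.snd_add, Prod.fst_sub, Prod.snd_sub]; ring
    rw [e]; exact dvd_sub x2 x0
  have d1l1 : b ∣ cr (m1 - m0) l1 := by
    have e : cr (m1 - m0) l1 = cr (v + m1) l1 - cr (v + m0) l1 := by
      simp only [cr, Prod.fst_add, Prod.snd_add, Prod.fst_sub, Prod.snd_sub]; ring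
    rw [e]; exact dvd_sub y1 y0
  have d2l1 : b ∣ cr (m2 - m0) l1 := by
    have e : cr (m2 - m0) l1 = cr (v + m2) l1 - cr (v + m0) l1 := by
      simp only [cr, Prod.fst_add, Prod.snd_add, Prod.fst_sub, Prod.snd_sub]; ring
    rw [e]; exact dvd_sub y2 y0
  have d1q : b ∣ cr (m1 - m0) q := by
    have e : cr (m1 - m0) q = cr (v + l + m1) q - cr (v + l + m0) q := by
      simp only [cr, Prod.fst_add, Prod.snd_add, Prod.fst_sub, Prod.snd_sub]; ring
    rw [e]; exact dvd_sub z1 z0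
  have d2q : b ∣ cr (m2 - m0) q := by
    have e : cr (m2 - m0) q = cr (v + l + m2) q - cr (v + l + m0) q := by
      simp only [cr, Prod.fst_add, Prod.snd_add, Prod.fst_sub, Prod.snd_sub]; ring
    rw [e]; exact dvd_sub z2 z0
  have ud : ∀ d : Z2, b ∣ cr d l → b ∣ cr d l1 → b ∣ cr d q → b ∣ cr u d := by
    intro d h1 h2 h3
    have h4 := hL d h1 h2
    have e : cr u d = cr d q - cr d (u + q) := by
      simp only [cr, Prod.fst_add, Prod.snd_add]; ring
    rw [e]
    exact dvd_sub h3 h4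
  have hA : b ∣ cr u (v + m0) - cr (u + q) l := by
    have h4 := hL _ x0 y0
    have e : cr u (v + m0) - cr (u + q) l = cr (v + l + m0) q - cr (v + m0) (u + q) -
        cr u l := by
      simp only [cr, Prod.fst_add, Prod.snd_add]; ring
    rw [e]
    exact dvd_sub (dvd_sub z0 h4) bul
  have hspan' : AddSubgroup.closure ({u, v + m0, l, u + q, m1 - m0, m2 - m0} : Set Z2) = ⊤ := by
    rw [eq_top_iff, ← hspan, AddSubgroup.closure_le]
    obtain ⟨S, hS⟩ : ∃ S, S = AddSubgroup.closure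
      ({u, v + m0, l, u + q, m1 - m0, m2 - m0} : Set Z2) := ⟨_, rfl⟩
    rw [← hS]
    have m1' : u ∈ S := by rw [hS]; exact AddSubgroup.subset_closure (by simp)
    have m2' : v + m0 ∈ S := by rw [hS]; exact AddSubgroup.subset_closure (by simp)
    have m3' : l ∈ S := by rw [hS]; exact AddSubgroup.subset_closure (by simp)
    have m4' : u + q ∈ S := by rw [hS]; exact AddSubgroup.subset_closure (by simp)
    have m5' : m1 - m0 ∈ S := by rw [hS]; exact AddSubgroup.subset_closure (by simp)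
    have m6' : m2 - m0 ∈ S := by rw [hS]; exact AddSubgroup.subset_closure (by simp)
    have hMS : lat (m1 - m0) (m2 - m0) ≤ S := by
      rw [lat, AddSubgroup.closure_le]
      rintro z (rfl | rfl)
      · exact m5'
      · exact m6'
    have n0 : m0 ∈ S := hMS hm0
    rintro z (rfl | rfl | rfl | rfl | rfl | rfl)
    · exact m1'
    · have := S.sub_mem m2' n0
      rwa [add_sub_cancel_right] at this
    · exact m3'
    · have := S.sub_mem m4' m1'
      rwa [add_sub_cancel_left] at this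
    · exact hMS hm
    · have := S.sub_mem (hMS hs) m1'
      rwa [add_sub_cancel_left] at this
  have := freeze_alg b0.ne' hspan' bmax bul (by rw [cr_addr, cr_self', zero_add]; exact buq)
    x0 (hL _ x0 y0) d1l (hL _ d1l d1l1) d2l (hL _ d2l d2l1) (ud _ d1l d1l1 d1q)
    (ud _ d2l d2l1 d2q) hA
  exact le_antisymm (Int.le_of_dvd one_pos this) b0

end Pool.Agent.H4G.Six
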