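import Pool.Agent.H4G.Six.D2.Gcd53

/-!
# Two contents and a primitive vector along a progression (helper11)

As in `Gcd53`, with `t` divisible by `12`: the two greatest common divisors are the generic ones up
to a factor dividing `4`, and a third coprime pair stays coprime.
-/

set_option autoImplicit false

namespace Pool.Agent.H4G.Six

open Pool.Agent.H4G

/-- the bad terms are in one class mod `3` -/
theorem cls3 {a b c d : ℤ} (h : ¬ ((3 : ℤ) ∣ a ∧ (3 : ℤ) ∣ b ∧ (3 : ℤ) ∣ c ∧ (3 : ℤ) ∣ d)) :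
    ∃ r : ℤ, ∀ t : ℤ, (3 : ℤ) ∣ a * t + b → (3 : ℤ) ∣ c * t + d → (3 : ℤ) ∣ t - r := by
  by_cases h0 : ∃ t0 : ℤ, (3 : ℤ) ∣ a * t0 + b ∧ (3 : ℤ) ∣ c * t0 + d
  · obtain ⟨t0, k1, k2⟩ := h0
    refine ⟨t0, fun t j1 j2 => ?_⟩
    by_contra hcon
    have e1 : (3 : ℤ) ∣ a * (t - t0) := by
      have := dvd_sub j1 k1
      have e : a * t + b - (a * t0 + b) = a * (t - t0) := by ring
      rwa [e] at this
    have e2 : (3 : ℤ) ∣ c * (t - t0) := by
      have := dvd_sub j2 k2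
      have e : c * t + d - (c * t0 + d) = c * (t - t0) := by ring
      rwa [e] at this
    have a3 : (3 : ℤ) ∣ a := (Int.prime_three.dvd_or_dvd e1).resolve_right hcon
    have c3 : (3 : ℤ) ∣ c := (Int.prime_three.dvd_or_dvd e2).resolve_right hcon
    exact h ⟨a3, (dvd_add_right (a3.mul_right t0)).1 k1, c3, (dvd_add_right (c3.mul_right t0)).1 k2⟩
  · push Not at h0
    exact ⟨0, fun t j1 j2 => absurd j2 (h0 t j1)⟩

/-- a class mod `3` which avoids two classes -/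
theorem pick3 (r1 r2 : ℤ) : ∃ t : ℤ, ¬ (3 : ℤ) ∣ t - r1 ∧ ¬ (3 : ℤ) ∣ t - r2 := by
  by_contra hcon
  push Not at hcon
  have h1 := hcon 0
  have h3 := hcon 1
  have h5 := hcon 2
  omega

/-- the arithmetic of the last step -/
theorem gcd3_fin {κ κ' f g x y z w G A B dA dB t2 t' : ℤ} (h1 : κ * κ' = 8) (h2 : κ ∣ 4)
    (h3 : x + t2 * z = κ * f) (h4 : y + t2 * w = κ * g) (h5 : A = G * x) (h6 : B = G * y)
    (h7 : 12 * dA = G * z) (h8 : 12 * dB = G * w)
    (h9 : IsCoprime (κ' * z * t' + f) (κ' * w * t' + g)) (d : ℤ)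
    (j1 : d ∣ A + 12 * (t2 + 8 * t') * dA) (j2 : d ∣ B + 12 * (t2 + 8 * t') * dB) :
    d ∣ 4 * G := by
  obtain ⟨i, j, hij⟩ := h9
  have c1 : A + 12 * (t2 + 8 * t') * dA = G * κ * (κ' * z * t' + f) := by
    rw [h5]
    linear_combination G * h3 - G * z * t' * h1 + (t2 + 8 * t') * h7
  have c2 : B + 12 * (t2 + 8 * t') * dB = G * κ * (κ' * w * t' + g) := by
    rw [h6]
    linear_combination G * h4 - G * w * t' * h1 + (t2 + 8 * t') * h8
  have c3 : d ∣ G * κ := by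
    have e : G * κ = i * (A + 12 * (t2 + 8 * t') * dA) + j * (B + 12 * (t2 + 8 * t') * dB) := by
      rw [c1, c2]
      calc G * κ = G * κ * (i * (κ' * z * t' + f) + j * (κ' * w * t' + g)) := by
            rw [hij, mul_one]
        _ = _ := by ring
    rw [e]
    exact dvd_add (j1.mul_left _) (j2.mul_left _)
  refine c3.trans ?_
  rw [mul_comm 4 G]
  exact mul_dvd_mul_left G h2

theorem odd_of_eight {p : ℕ} (hp : p.Prime) (hp2 : p ≠ 2) {κ κ' : ℤ} (h : κ * κ' = 8) {a : ℤ}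
    (ha : (p : ℤ) ∣ κ' * a) : (p : ℤ) ∣ a := by
  have hpp := Nat.prime_iff_prime_int.1 hp
  rcases hpp.dvd_or_dvd ha with h1 | h1
  · exfalso
    have h2 : (p : ℤ) ∣ (2 : ℤ) ^ 3 := by
      have : (p : ℤ) ∣ κ * κ' := h1.mul_left _
      rw [h] at this
      norm_num
      exact this
    have h3 : (p : ℤ) ∣ 2 := hpp.dvd_of_dvd_pow h2
    have h4 : p ∣ 2 := by exact_mod_cast h3
    exact hp2 ((Nat.prime_dvd_prime_iff_eq hp Nat.prime_two).1 h4)
  · exact h1

theorem res_eight {κ κ' f g x y z w t2 : ℤ} (h1 : κ * κ' = 8) (h2 : x + t2 * z = κ * f) (h3 : y + t2 * w = κ * g) :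
    κ' * z * g - f * (κ' * w) ∣ 8 * |x * w - y * z| := by
  have key : κ' * z * g - f * (κ' * w) ∣ 8 * (x * w - y * z) := by
    refine ⟨-κ * κ, ?_⟩
    have h4 : κ * (z * g - f * w) = -(x * w - y * z) := by
      linear_combination (-z) * h3 + w * h2
    calc 8 * (x * w - y * z) = -(κ * κ') * (κ * (z * g - f * w)) := by rw [h4, h1]; ring
      _ = (κ' * z * g - f * (κ' * w)) * (-κ * κ) := by ring
  have e : 8 * |x * w - y * z| = |8 * (x * w - y * z)| := by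
    rw [abs_mul, show |(8 : ℤ)| = 8 by norm_num]
  rw [e, dvd_abs]
  exact key

/-- a pair without a common divisor of all the coefficients, at an odd prime -/
theorem pair_prime {p : ℕ} (hp : p.Prime) (hp2 : p ≠ 2) {κ κ' f g x y z w t2 : ℤ}
    (h1 : κ * κ' = 8) (h2 : x + t2 * z = κ * f) (h3 : y + t2 * w = κ * g)
    (hd : (p : ℤ) ∣ x → (p : ℤ) ∣ y → (p : ℤ) ∣ z → ¬ (p : ℤ) ∣ w)
    (a1 : (p : ℤ) ∣ κ' * z) (a2 : (p : ℤ) ∣ κ' * w) (a3 : (p : ℤ) ∣ f) : ¬ (p : ℤ) ∣ g := by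
  intro a4
  have b1 := odd_of_eight hp hp2 h1 a1
  have b2 := odd_of_eight hp hp2 h1 a2
  have b3 : (p : ℤ) ∣ x := by
    have : (p : ℤ) ∣ x + t2 * z := by rw [h2]; exact a3.mul_left _
    exact (dvd_add_left (b1.mul_left t2)).1 this
  have b4 : (p : ℤ) ∣ y := by
    have : (p : ℤ) ∣ y + t2 * w := by rw [h3]; exact a4.mul_left _
    exact (dvd_add_left (b2.mul_left t2)).1 this
  exact hd b3 b4 b1 b2

/-- **Two contents and a primitive vector.** -/
theorem ap_gcd3 {J X : ℕ} (hcap : Cap J X) {X0 Y0 dX dY X1 Y1 eX eY X2 Y2 fX fY : ℤ}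
    (hD : X0 * dY - Y0 * dX ≠ 0) (hE : X1 * eY - Y1 * eX ≠ 0) (hF : X2 * fY - Y2 * fX ≠ 0)
    (h2 : IsCoprime X2 Y2)
    (hX : 2 ^ 20 * (|X0 * dY - Y0 * dX| * |X1 * eY - Y1 * eX| * |X2 * fY - Y2 * fX|) ≤ X)
    (t0 : ℤ) :
    ∃ t, 96 * t0 ≤ t ∧ t < 96 * t0 + 96 * (J : ℤ) ^ 2 ∧ (12 : ℤ) ∣ t ∧
      (∀ d : ℤ, d ∣ X0 + t * dX → d ∣ Y0 + t * dY → d ∣ 4 * gcd4 X0 Y0 (12 * dX) (12 * dY)) ∧
      (∀ d : ℤ, d ∣ X1 + t * eX → d ∣ Y1 + t * eY → d ∣ 4 * gcd4 X1 Y1 (12 * eX) (12 * eY)) ∧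
      IsCoprime (X2 + t * fX) (Y2 + t * fY) := by
  have twelve : ∀ a b c d : ℤ, a * (12 * d) - b * (12 * c) = 12 * (a * d - b * c) := by
    intro a b c d; ring
  have hD12 : X0 * (12 * dY) - Y0 * (12 * dX) ≠ 0 := by
    rw [twelve]; exact mul_ne_zero (by norm_num) hD
  have hE12 : X1 * (12 * eY) - Y1 * (12 * eX) ≠ 0 := by
    rw [twelve]; exact mul_ne_zero (by norm_num) hE
  obtain ⟨x, y, z, w, hx, hy, hz, hw, d0, dle, dp⟩ := norm_pair hD12
  obtain ⟨x', y', z', w', hx', hy', hz', hw', d0', dle', dp'⟩ := norm_pair hE12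
  rw [twelve, abs_mul, show |(12 : ℤ)| = 12 by norm_num] at dle dle'
  obtain ⟨r1, hr1⟩ := cls8 (x := x) (y := y) (z := z) (w := w) (by
    rintro ⟨a1, a2, a3, a4⟩
    exact dp 2 Nat.prime_two (by exact_mod_cast a1) (by exact_mod_cast a2) (by exact_mod_cast a3)
      (by exact_mod_cast a4))
  obtain ⟨r2, hr2⟩ := cls8 (x := x') (y := y') (z := z') (w := w') (by
    rintro ⟨a1, a2, a3, a4⟩
    exact dp' 2 Nat.prime_two (by exact_mod_cast a1) (by exact_mod_cast a2) (by exact_mod_cast a3)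
      (by exact_mod_cast a4))
  obtain ⟨t2, k0, k8, k2, k3, k4⟩ := pick8 r1 r2
  obtain ⟨κ, κ', f0, g0, e1, e2, e3, e4, e5, e6, e7⟩ :=
    two_part (f := x + t2 * z) (g := y + t2 * w) (fun h => k3 (hr1 t2 h.1 h.2))
  obtain ⟨l, l', f1, g1, n1, n2, n3, n4, n5, n6, n7⟩ :=
    two_part (f := x' + t2 * z') (g := y' + t2 * w') (fun h => k4 (hr2 t2 h.1 h.2))
  have s1 := res_eight e1 e5 e6
  have s2 := res_eight n1 n5 n6
  have third : ∀ p : ℕ, p.Prime → ∀ t : ℤ, (p : ℤ) ∣ t * fX → (p : ℤ) ∣ t * fY →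
      (p : ℤ) ∣ X2 + t * fX → ¬ (p : ℤ) ∣ Y2 + t * fY := by
    intro p hp t a1 a2 a3 a4
    exact not_dvd_of_isCoprime h2 hp ((dvd_add_left a2).1 a4) ((dvd_add_left a1).1 a3)
  obtain ⟨D1, hD1⟩ : ∃ D1, D1 = |x * w - y * z| := ⟨_, rfl⟩
  obtain ⟨D2, hD2⟩ : ∃ D2, D2 = |x' * w' - y' * z'| := ⟨_, rfl⟩
  obtain ⟨D3, hD3⟩ : ∃ D3, D3 = |X2 * fY - Y2 * fX| := ⟨_, rfl⟩
  have p1 : 0 < D1 := by rw [hD1]; exact abs_pos.2 d0
  have p2 : 0 < D2 := by rw [hD2]; exact abs_pos.2 d0'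
  have p3 : 0 < D3 := by rw [hD3]; exact abs_pos.2 hF
  rw [← hD1] at s1 dle
  rw [← hD2] at s2 dle'
  rw [← hD3] at hX
  obtain ⟨t', t1, t3, t4⟩ := sievePair (k := 3) (e := 2) hcap
    (D0 := 8 * D1 * (8 * D2) * (96 * D3))
    (by positivity)
    (by
      refine le_trans ?_ hX
      have a1 : D1 * D2 ≤ (12 * |X0 * dY - Y0 * dX|) * (12 * |X1 * eY - Y1 * eX|) :=
        mul_le_mul dle dle' p2.le (by positivity)
      have a2 : D1 * D2 * D3 ≤
          (12 * |X0 * dY - Y0 * dX|) * (12 * |X1 * eY - Y1 * eX|) * D3 :=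
        mul_le_mul_of_nonneg_right a1 p3.le
      have a3 : 0 ≤ |X0 * dY - Y0 * dX| * |X1 * eY - Y1 * eX| * D3 := by positivity
      calc 8 * D1 * (8 * D2) * (96 * D3) = 6144 * (D1 * D2 * D3) := by ring
        _ ≤ 6144 * ((12 * |X0 * dY - Y0 * dX|) * (12 * |X1 * eY - Y1 * eX|) * D3) := by
            linarith
        _ = 884736 * (|X0 * dY - Y0 * dX| * |X1 * eY - Y1 * eX| * D3) := by ring
        _ ≤ 2 ^ 20 * (|X0 * dY - Y0 * dX| * |X1 * eY - Y1 * eX| * D3) := by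
            refine mul_le_mul_of_nonneg_right (by norm_num) a3) (by norm_num)
    ![κ' * z, l' * z', 96 * fX] ![f0, f1, X2 + 12 * t2 * fX] ![κ' * w, l' * w', 96 * fY]
    ![g0, g1, Y2 + 12 * t2 * fY]
    (by
      intro i
      fin_cases i
      · change κ' * z * g0 - f0 * (κ' * w) ∣ _
        exact s1.trans ⟨8 * D2 * (96 * D3), by ring⟩
      · change l' * z' * g1 - f1 * (l' * w') ∣ _
        exact s2.trans ⟨8 * D1 * (96 * D3), by ring⟩
      · change 96 * fX * (Y2 + 12 * t2 * fY) - (X2 + 12 * t2 * fX) * (96 * fY) ∣ _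
        have e : 96 * fX * (Y2 + 12 * t2 * fY) - (X2 + 12 * t2 * fX) * (96 * fY) =
            -(96 * (X2 * fY - Y2 * fX)) := by ring
        rw [e, neg_dvd]
        have e' : 96 * D3 = |96 * (X2 * fY - Y2 * fX)| := by
          rw [abs_mul, ← hD3, show |(96 : ℤ)| = 96 by norm_num]
        have : 96 * (X2 * fY - Y2 * fX) ∣ 96 * D3 := by rw [e', dvd_abs]
        exact this.trans (dvd_mul_left _ _))
    (by
      intro p hp _
      by_cases hp2 : p = 2
      · right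
        subst hp2
        refine ⟨0, fun i => ?_⟩
        fin_cases i
        · change ((2 : ℕ) : ℤ) ∣ κ' * z * 0 + f0 → ¬ ((2 : ℕ) : ℤ) ∣ κ' * w * 0 + g0
          simp only [mul_zero, zero_add, Nat.cast_ofNat]
          exact fun a1 a2 => e7 ⟨a1, a2⟩
        · change ((2 : ℕ) : ℤ) ∣ l' * z' * 0 + f1 → ¬ ((2 : ℕ) : ℤ) ∣ l' * w' * 0 + g1
          simp only [mul_zero, zero_add, Nat.cast_ofNat]
          exact fun a1 a2 => n7 ⟨a1, a2⟩
        · change ((2 : ℕ) : ℤ) ∣ 96 * fX * 0 + (X2 + 12 * t2 * fX) →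
            ¬ ((2 : ℕ) : ℤ) ∣ 96 * fY * 0 + (Y2 + 12 * t2 * fY)
          rw [mul_zero, mul_zero, zero_add, zero_add]
          exact third 2 Nat.prime_two (12 * t2) ⟨6 * t2 * fX, by push_cast; ring⟩
            ⟨6 * t2 * fY, by push_cast; ring⟩
      · by_cases hp3 : p = 3
        · right
          subst hp3
          obtain ⟨c1, hc1⟩ := cls3 (a := κ' * z) (b := f0) (c := κ' * w) (d := g0) (by
            rintro ⟨a1, a2, a3, a4⟩
            exact pair_prime (p := 3) Nat.prime_three (by norm_num) e1 e5 e6 (dp 3 Nat.prime_three)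
              (by exact_mod_cast a1) (by exact_mod_cast a3) (by exact_mod_cast a2)
              (by exact_mod_cast a4))
          obtain ⟨c2, hc2⟩ := cls3 (a := l' * z') (b := f1) (c := l' * w') (d := g1) (by
            rintro ⟨a1, a2, a3, a4⟩
            exact pair_prime (p := 3) Nat.prime_three (by norm_num) n1 n5 n6 (dp' 3 Nat.prime_three)
              (by exact_mod_cast a1) (by exact_mod_cast a3) (by exact_mod_cast a2)
              (by exact_mod_cast a4))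
          obtain ⟨tt, y1, y2⟩ := pick3 c1 c2
          refine ⟨tt, fun i => ?_⟩
          fin_cases i
          · change ((3 : ℕ) : ℤ) ∣ κ' * z * tt + f0 → ¬ ((3 : ℕ) : ℤ) ∣ κ' * w * tt + g0
            exact fun a1 a2 => y1 (hc1 tt (by exact_mod_cast a1) (by exact_mod_cast a2))
          · change ((3 : ℕ) : ℤ) ∣ l' * z' * tt + f1 → ¬ ((3 : ℕ) : ℤ) ∣ l' * w' * tt + g1
            exact fun a1 a2 => y2 (hc2 tt (by exact_mod_cast a1) (by exact_mod_cast a2))
          · change ((3 : ℕ) : ℤ) ∣ 96 * fX * tt + (X2 + 12 * t2 * fX) →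
              ¬ ((3 : ℕ) : ℤ) ∣ 96 * fY * tt + (Y2 + 12 * t2 * fY)
            rw [show 96 * fX * tt + (X2 + 12 * t2 * fX) = X2 + (96 * tt + 12 * t2) * fX by ring,
              show 96 * fY * tt + (Y2 + 12 * t2 * fY) = Y2 + (96 * tt + 12 * t2) * fY by ring]
            exact third 3 Nat.prime_three (96 * tt + 12 * t2)
              ⟨(32 * tt + 4 * t2) * fX, by push_cast; ring⟩
              ⟨(32 * tt + 4 * t2) * fY, by push_cast; ring⟩
        · left
          have hp5 : 3 < p := by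
            have h2' := hp.two_le
            omega
          refine ⟨hp5, fun i => ?_⟩
          fin_cases i
          · change (p : ℤ) ∣ κ' * z → (p : ℤ) ∣ κ' * w → (p : ℤ) ∣ f0 → ¬ (p : ℤ) ∣ g0
            exact pair_prime hp hp2 e1 e5 e6 (dp p hp)
          · change (p : ℤ) ∣ l' * z' → (p : ℤ) ∣ l' * w' → (p : ℤ) ∣ f1 → ¬ (p : ℤ) ∣ g1
            exact pair_prime hp hp2 n1 n5 n6 (dp' p hp)
          · change (p : ℤ) ∣ 96 * fX → (p : ℤ) ∣ 96 * fY → (p : ℤ) ∣ X2 + 12 * t2 * fX →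
              ¬ (p : ℤ) ∣ Y2 + 12 * t2 * fY
            intro a1 a2
            have hpp := Nat.prime_iff_prime_int.1 hp
            have n96 : ¬ (p : ℤ) ∣ 96 := by
              intro h
              have h' : p ∣ 96 := by exact_mod_cast h
              have h'' : p ∣ 2 ^ 5 * 3 := by norm_num; exact h'
              rcases (hp.dvd_mul).1 h'' with h3 | h3
              · exact hp2 ((Nat.prime_dvd_prime_iff_eq hp Nat.prime_two).1
                  (hp.dvd_of_dvd_pow h3))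
              · exact hp3 ((Nat.prime_dvd_prime_iff_eq hp Nat.prime_three).1 h3)
            have b1 : (p : ℤ) ∣ fX := (hpp.dvd_or_dvd a1).resolve_left n96
            have b2 : (p : ℤ) ∣ fY := (hpp.dvd_or_dvd a2).resolve_left n96
            exact third p hp (12 * t2) (b1.mul_left _) (b2.mul_left _)) t0
  refine ⟨12 * (t2 + 8 * t'), by linarith, by linarith, ⟨_, rfl⟩, ?_, ?_, ?_⟩
  · intro d j1 j2
    exact gcd3_fin e1 e2 e5 e6 hx hy hz hw (t4 0) d j1 j2
  · intro d j1 j2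
    exact gcd3_fin n1 n2 n5 n6 hx' hy' hz' hw' (t4 1) d j1 j2
  · have h3 : IsCoprime (96 * fX * t' + (X2 + 12 * t2 * fX)) (96 * fY * t' + (Y2 + 12 * t2 * fY)) :=
      t4 2
    have a1 : X2 + 12 * (t2 + 8 * t') * fX = 96 * fX * t' + (X2 + 12 * t2 * fX) := by ring
    have a2 : Y2 + 12 * (t2 + 8 * t') * fY = 96 * fY * t' + (Y2 + 12 * t2 * fY) := by ring
    rw [a1, a2]
    exact h3

end Pool.Agent.H4G.Six
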