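import Pool.Agent.H4G.Six.D2.F88
import Pool.Agent.H4G.Six.Can.ToEnd
import Pool.Agent.H4G.Six.Anti6
import Pool.Agent.H4G.Six.Orb6

/-!
# D2: from a tree with one content 1 to an end state (helper2)

`B111 N J` is the statement of helper88's theorem `b1_11` on normal forms.
-/

set_option autoImplicit false

namespace Pool.Agent.H4G.Six

open Pool.Agent.H4G

/-- every normal form except `a = 2`, `c z = 2` is equivalent to a state with contents `(1, 1)` -/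
def B111 (N : ℤ) (J : ℕ) : Prop :=
  ∀ A a c z x : ℤ, 0 < A → 1 < a → 0 < c → 1 < z → A + a + c * z = N → (3 ≤ a ∨ 3 ≤ c * z) →
    ∃ A' a' a1' ζ : ℤ, 0 < A' ∧ 1 < a' ∧ 1 < a1' ∧ A' + a' + a1' = N ∧
      SEq6 (NF A a c z x) (PG A' a' a1' ζ) ∧
      (A' * (J : ℤ) ^ 24 ≤ N ∨ (J : ℤ) ^ 155 ≤ a' ∨ (J : ℤ) ^ 155 ≤ a1')

/-- the lattices of a state `PG` with `a = a1`, `a ∣ z` are equal -/
theorem PG_lat_eq {A a z : ℤ} (h : a ∣ z) : (PG A a a z).L = (PG A a a z).M := by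
  show Ld (0, 1) a = Ld (z, 1) a
  apply Ld_congr
  intro x
  have e : cr x ((z, 1) : Z2) = cr x ((0, 1) : Z2) - z * x.2 := by
    simp only [cr]; ring
  rw [e]
  constructor
  · intro h1; exact dvd_sub h1 (h.mul_right _)
  · intro h1
    have := dvd_add h1 (h.mul_right x.2)
    rwa [sub_add_cancel] at this

/-- **a tree equivalent to a state with contents `(1, 1)`** -/
theorem toEnd6_of_PG {N : ℕ} {O : PO (Fin N)} {J Z : ℕ} (hB : Bg (N : ℤ) J Z) (hO : Odd6 O)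
    {c : C6} (hT : Has6 O c) {A a a1 z : ℤ} (hA : 0 < A) (ha : 1 < a) (ha1 : 1 < a1)
    (hN : A + a + a1 = N) (h : SEq6 (st6Of c) (PG A a a1 z))
    (hbig : A * (J : ℤ) ^ 24 ≤ N ∨ (J : ℤ) ^ 155 ≤ a ∨ (J : ℤ) ^ 155 ≤ a1) : ToEnd6 O := by
  have hrep := PG.rep (z := z) hA ha ha1
  have hc : CEq6 c _ := h.ceq (isRep6_st6Of hT.pos) hrep
  obtain ⟨O2, g1, g2⟩ := hT.orb hc hT.pos
  have hO2 : Odd6 O2 := g1.odd.1 hO
  have hX : (Nat.card (Fin N) : ℤ) =
      vol6 ((1, 0), (0, A), (0, 1), (a - 1, 0), (z, 1), (a1 - 1, 0)) := by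
    rw [Nat.card_eq_fintype_card, Fintype.card_fin]
    simp [vol6, cr]
    linarith
  have hne := Odd6.lat_ne hO2 g2 hX
  have hP : ¬ (a = a1 ∧ a ∣ z) := by
    rintro ⟨e1, e2⟩
    subst e1
    apply hne
    have h1 := hrep.2.2.2.1.2.2
    have h2 := hrep.2.2.2.2.2.2
    have h3 := PG_lat_eq (A := A) e2
    exact h1.trans (h3.trans h2.symm)
  have hE : ToE N (st6Of c) := ToE.of h (c11all hB hA ha ha1 hN (by
    rcases hbig with h1 | h1 | h1
    · exact Or.inl h1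
    · exact Or.inr (Or.inl h1)
    · exact Or.inr (Or.inr (Or.inl h1))) hP)
  exact toEnd6_of_toE hT hE

/-- `z > 1` in the normal form of a state -/
theorem NF.z1 {A a c z x : ℤ} (hc : 0 < c) (hz : 0 < z) (h : (NF A a c z x).Ok) : 1 < z := by
  obtain ⟨⟨u, v, l, q, m, s⟩, h1, h2, h3, h4, h5⟩ := h
  obtain ⟨k1, k2, k3⟩ := h5
  simp only [NF] at h1 h2 h3 k1 k2 k3
  -- the area
  have key : ∀ w w' y y' : Z2, lat w w' = lat y y' → cr y y' ∣ cr w w' := by
    intro w w' y y' hw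
    have d1 : w ∈ lat y y' := by
      rw [← hw]; exact AddSubgroup.subset_closure (by simp)
    have d2 : w' ∈ lat y y' := by
      rw [← hw]; exact AddSubgroup.subset_closure (by simp)
    obtain ⟨b1, b2, rfl⟩ := mem_lat_coords d1
    obtain ⟨b3, b4, rfl⟩ := mem_lat_coords d2
    refine ⟨b1 * b4 - b2 * b3, ?_⟩
    simp only [cr, Prod.fst_add, Prod.snd_add, Prod.smul_fst, Prod.smul_snd, smul_eq_mul]
    ring
  have d1 := key _ _ _ _ k3
  have d2 := key _ _ _ _ k3.symm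
  have e1 : cr ((x, c) : Z2) (z, 0) = -(c * z) := by simp only [cr]; ring
  have e2 : cr m ((1, 0) + s) = -(cr (1, 0) m + cr s m) := by
    simp only [cr, Prod.fst_add, Prod.snd_add]; ring
  rw [e1, e2, neg_dvd, dvd_neg] at d1
  rw [e1, e2, neg_dvd, dvd_neg] at d2
  have e3 : c * z = cr (1, 0) m + cr s m :=
    Int.dvd_antisymm (mul_pos hc hz).le (add_pos k1 k2).le d1 d2
  have hm : m ∈ lat ((x, c) : Z2) (z, 0) := by
    rw [← k3]; exact AddSubgroup.subset_closure (by simp)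
  obtain ⟨i, j, hij⟩ := mem_lat_coords hm
  have e4 : cr (1, 0) m = i * c := by
    rw [hij]; simp [cr]
  rw [e4] at k1 e3
  have hi : 0 < i := (mul_pos_iff_of_pos_right hc).1 k1
  by_contra hlt
  have hz1 : z = 1 := by linarith
  rw [hz1, mul_one] at e3
  nlinarith

/-- **a tree with `ct u l q = 1` leads to an end state** -/
theorem toEnd6_of_left {N : ℕ} {O : PO (Fin N)} {J Z : ℕ} (hB : Bg (N : ℤ) J Z)
    (h11 : B111 N J) (hO : Odd6 O) {u v l q m s : Z2} (hT : Has6 O (u, v, l, q, m, s))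
    (hN : vol6 (u, v, l, q, m, s) = N) (hc : ct u l q = 1)
    (h3 : 3 ≤ cr u l + cr q l ∨ 3 ≤ cr u m + cr s m) : ToEnd6 O := by
  obtain ⟨p1, p2, p3, p4, p5⟩ := hT.pos
  have ea : cr (u + q) l = cr u l + cr q l := cr_add_left _ _ _
  have ea1 : cr (u + s) m = cr u m + cr s m := cr_add_left _ _ _
  have e1 : cr u (u + q) = cr u q := by rw [cr_add_right, cr_self, zero_add]
  have cl : IsCoprime (cr u l) (cr u (u + q)) := by
    rw [e1, Int.isCoprime_iff_gcd_eq_one]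
    rw [ct] at hc
    omega
  have hok : St6.Ok ⟨lat l (u + q), lat m (u + s), u, v⟩ :=
    ⟨(u, v, l, q, m, s), rfl, rfl, p1, ⟨p2, p4, rfl⟩, ⟨p3, p5, rfl⟩⟩
  obtain ⟨c, z, x, hc0, hz0, hcz, hS⟩ := nf1 hok (by rw [ea]; linarith) (by rw [ea1]; linarith) cl
  have hz1 := NF.z1 hc0 hz0 hS.ok'
  have hvol : cr u v + (cr u l + cr q l) + (cr u m + cr s m) = N := by
    rw [← hN]; simp only [vol6]; ring
  obtain ⟨A', a', a1', ζ, k1, k2, k3, k4, k5, k6⟩ := h11 (cr u v) (cr (u + q) l) c z x p1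
    (by rw [ea]; linarith) hc0 hz1 (by rw [hcz, ea, ea1]; exact hvol)
    (by rw [hcz, ea, ea1]; exact h3)
  exact toEnd6_of_PG hB hO hT k1 k2 k3 k4 (hS.trans k5) k6

/-- **a tree with one content 1 leads to an end state** -/
theorem toEnd6_of_one {N : ℕ} {O : PO (Fin N)} {J Z : ℕ} (hB : Bg (N : ℤ) J Z)
    (h11 : B111 N J) (hO : Odd6 O) {u v l q m s : Z2} (hT : Has6 O (u, v, l, q, m, s))
    (hN : vol6 (u, v, l, q, m, s) = N) (hc : ct u l q = 1 ∨ ct u m s = 1)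
    (h3 : 3 ≤ cr u l + cr q l ∨ 3 ≤ cr u m + cr s m) : ToEnd6 O := by
  rcases hc with hc | hc
  · exact toEnd6_of_left hB h11 hO hT hN hc h3
  · refine toEnd6_of_left hB h11 hO hT.swap ((vol6_swap).trans hN) (by rw [ct_neg]; exact hc) ?_
    rw [cr_neg_neg, cr_neg_neg, cr_neg_neg, cr_neg_neg]
    exact h3.symm

end Pool.Agent.H4G.Six
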