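import Pool.Agent.H4G.Six.D2.G4

/-!
# Row systems and the sieve on the contents (helper69)

`RowSys P J K h g q`: every row `n h + t g` with `n` in the range contains `J` consecutive elements of
`P`. `RowSys.one`: an element of `P` with the exact content of one pair of forms. `RowSys.both`: the
same for two pairs, up to the prime 2 when `q ≤ 2`. `p0_rows`: tool (P0), a pair of slits with
`K² |l × m| W ≤ F₁ F₂`.
-/

set_option autoImplicit false

namespace Pool.Agent.H4G.Six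

open Pool.Agent.H4G

/-- every row in the range contains `J` consecutive elements of `P` -/
def RowSys (P : Z2 → Prop) (J K : ℤ) (h g : Z2) (q : ℤ) : Prop :=
  0 < q ∧ q ≤ K ∧ ∀ n : ℤ, 0 < n → ((q = 1 ∧ n = 1) ∨ (2 * J * q ≤ n * K ∧
    2 * J * q ≤ (q - n) * K)) → ∃ t0 : ℤ, ∀ t : ℤ, t0 ≤ t → t < t0 + J → P (n • h + t • g)

/-- `(h, g)` is a basis of the lattice of `u` and `x` -/
structure Bas (u x h g : Z2) : Prop where
  ex : ∃ a b c d : ℤ, h = a • u + b • x ∧ g = c • u + d • x ∧ (a * d - b * c = 1 ∨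
    a * d - b * c = -1)

theorem Rows.bas {u v l m y h g : Z2} {ε κ J K α j p q : ℤ} (hr : Rows u v l m y J K h g α j p q)
    (hε : ε = 1 ∨ ε = -1) (hy : y = ε • (v + l + m) + κ • u) : Bas u (v + l + m) h g := by
  refine ⟨α + j * κ, j * ε, p + q * κ, q * ε, ?_, ?_, ?_⟩
  · rw [hr.hh, hy]; module
  · rw [hr.hg, hy]; module
  · have h1 := hr.det
    rcases hε with h | h <;> rw [h]
    · left; linear_combination h1
    · right; linear_combination -h1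

theorem Rows.sys {u v l m y h g : Z2} {J K α j p q : ℤ} (hr : Rows u v l m y J K h g α j p q)
    (J0 : 0 ≤ J) : RowSys (Lg u v l m) J K h g q := by
  refine ⟨hr.q0, hr.qK, fun n n0 hn => hr.row n n0 ?_⟩
  rcases hn with h | ⟨h1, h2⟩
  · exact Or.inl h
  · refine Or.inr ⟨?_, h2⟩
    have : 0 ≤ J * q := mul_nonneg J0 hr.q0.le
    linarith

namespace Bas

variable {u x h g : Z2}

/-- a row vector is primitive in the lattice -/
theorem prim (hb : Bas u x h g) {n t : ℤ} (hc : IsCoprime n t) :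
    ∃ i j : ℤ, IsCoprime i j ∧ n • h + t • g = i • u + j • x := by
  obtain ⟨a, b, c, d, e1, e2, e3⟩ := hb.ex
  obtain ⟨r, s, hrs⟩ := hc
  refine ⟨n * a + t * c, n * b + t * d, ?_, ?_⟩
  · rcases e3 with e3 | e3
    · refine ⟨r * d - s * b, s * a - r * c, ?_⟩
      linear_combination (n * r + t * s) * e3 + hrs
    · refine ⟨-(r * d - s * b), -(s * a - r * c), ?_⟩
      linear_combination -(n * r + t * s) * e3 + hrs
  · rw [e1, e2]; module

/-- divisibility passes from the basis `(h, g)` to `u`, `x` -/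
theorem dvd_of (hb : Bas u x h g) {d : ℤ} {a : Z2} (h1 : d ∣ cr h a) (h2 : d ∣ cr g a) :
    d ∣ cr u a ∧ d ∣ cr x a := by
  obtain ⟨p, q, r, s, e1, e2, e3⟩ := hb.ex
  have k1 : cr h a = p * cr u a + q * cr x a := by
    rw [e1]; simp only [cr, Prod.fst_add, Prod.snd_add, Prod.smul_fst, Prod.smul_snd,
      smul_eq_mul]; ring
  have k2 : cr g a = r * cr u a + s * cr x a := by
    rw [e2]; simp only [cr, Prod.fst_add, Prod.snd_add, Prod.smul_fst, Prod.smul_snd,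
      smul_eq_mul]; ring
  have k3 : (p * s - q * r) * cr u a = s * cr h a - q * cr g a := by
    rw [k1, k2]; ring
  have k4 : (p * s - q * r) * cr x a = p * cr g a - r * cr h a := by
    rw [k1, k2]; ring
  have d3 : d ∣ s * cr h a - q * cr g a := dvd_sub (h1.mul_left _) (h2.mul_left _)
  have d4 : d ∣ p * cr g a - r * cr h a := dvd_sub (h2.mul_left _) (h1.mul_left _)
  rcases e3 with e3 | e3
  · rw [e3, one_mul] at k3 k4
    exact ⟨by rw [k3]; exact d3, by rw [k4]; exact d4⟩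
  · rw [e3] at k3 k4
    refine ⟨?_, ?_⟩
    · have : cr u a = -(s * cr h a - q * cr g a) := by linarith
      rw [this]; exact (dvd_neg).2 d3
    · have : cr x a = -(p * cr g a - r * cr h a) := by linarith
      rw [this]; exact (dvd_neg).2 d4

theorem dvd_to (hb : Bas u x h g) {d : ℤ} {a : Z2} (h1 : d ∣ cr u a) (h2 : d ∣ cr x a) :
    d ∣ cr h a ∧ d ∣ cr g a := by
  obtain ⟨p, q, r, s, e1, e2, -⟩ := hb.ex
  have k1 : cr h a = p * cr u a + q * cr x a := by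
    rw [e1]; simp only [cr, Prod.fst_add, Prod.snd_add, Prod.smul_fst, Prod.smul_snd,
      smul_eq_mul]; ring
  have k2 : cr g a = r * cr u a + s * cr x a := by
    rw [e2]; simp only [cr, Prod.fst_add, Prod.snd_add, Prod.smul_fst, Prod.smul_snd,
      smul_eq_mul]; ring
  exact ⟨by rw [k1]; exact dvd_add (h1.mul_left _) (h2.mul_left _),
    by rw [k2]; exact dvd_add (h1.mul_left _) (h2.mul_left _)⟩

theorem cr_abs (hb : Bas u x h g) : |cr g h| = |cr u x| := by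
  obtain ⟨p, q, r, s, e1, e2, e3⟩ := hb.ex
  have k : cr g h = -((p * s - q * r) * cr u x) := by
    rw [e1, e2]; simp only [cr, Prod.fst_add, Prod.snd_add, Prod.smul_fst, Prod.smul_snd,
      smul_eq_mul]; ring
  rw [k, abs_neg, abs_mul]
  rcases e3 with e3 | e3 <;> rw [e3] <;> simp

end Bas

/-- the content of the lattice of `u`, `x` against `a`, `b` -/
def GLam (u x a b : Z2) : ℤ := Int.gcd (ct u a b) (ct x a b)

theorem GLam_dvd {u x a b : Z2} : GLam u x a b ∣ cr u a ∧ GLam u x a b ∣ cr u b ∧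
    GLam u x a b ∣ cr x a ∧ GLam u x a b ∣ cr x b :=
  ⟨(Int.gcd_dvd_left ..).trans ct_dvd_left, (Int.gcd_dvd_left ..).trans ct_dvd_right,
    (Int.gcd_dvd_right ..).trans ct_dvd_left, (Int.gcd_dvd_right ..).trans ct_dvd_right⟩

theorem dvd_GLam {u x a b : Z2} {d : ℤ} (h1 : d ∣ cr u a) (h2 : d ∣ cr u b) (h3 : d ∣ cr x a)
    (h4 : d ∣ cr x b) : d ∣ GLam u x a b :=
  Int.dvd_coe_gcd (dvd_ct h1 h2) (dvd_ct h3 h4)

theorem GLam_pos {u x a b : Z2} (h : cr u a ≠ 0) : 0 < GLam u x a b := by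
  have h1 : GLam u x a b ≠ 0 := by
    intro h0
    have := (GLam_dvd (u := u) (x := x) (a := a) (b := b)).1
    rw [h0] at this
    exact h (zero_dvd_iff.1 this)
  have h2 : 0 ≤ GLam u x a b := Int.natCast_nonneg _
  exact lt_of_le_of_ne h2 (Ne.symm h1)

/-- the vector `w` is good at the prime 2 for the pair `a`, `b` of content `G` -/
def Good2 (G : ℤ) (w a b : Z2) : Prop := ¬ (2 * G ∣ cr w a ∧ 2 * G ∣ cr w b)

theorem two_dvd_odd {n a b : ℤ} (hn : ¬ (2 : ℤ) ∣ n) : (2 : ℤ) ∣ b + n * a ↔ (2 : ℤ) ∣ a + b := by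
  obtain ⟨k, hk⟩ : ∃ k, n = 2 * k + 1 := by
    rcases Int.even_or_odd' n with ⟨k, hk | hk⟩
    · exact absurd ⟨k, hk⟩ hn
    · exact ⟨k, hk⟩
  have e : b + n * a = (a + b) + 2 * (k * a) := by rw [hk]; ring
  rw [e]
  exact (dvd_add_left ⟨_, rfl⟩)

/-- a good row which is coprime to `D` -/
theorem good_row2' {J X : ℕ} (hcap : Cap J X) {K q D : ℤ} (hD : D ≠ 0) (hX : |D| ≤ X) (J1 : 1 ≤ J)
    (hK : 16 * (J : ℤ) ^ 2 ≤ K) (q0 : 0 < q) (qK : q ≤ K) :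
    ∃ n : ℤ, 0 < n ∧ n ≤ K ∧ IsCoprime n D ∧
      ((q = 1 ∧ n = 1) ∨ (2 * J * q ≤ n * K ∧ 2 * J * q ≤ (q - n) * K)) := by
  have J1' : (1 : ℤ) ≤ J := by exact_mod_cast J1
  have K0 : 0 < K := by nlinarith
  by_cases h1 : q = 1
  · exact ⟨1, one_pos, by linarith, isCoprime_one_left, Or.inl ⟨h1, rfl⟩⟩
  have q2 : 2 ≤ q := by omega
  by_cases h2 : 2 * J * q ≤ K
  · refine ⟨1, one_pos, by linarith, isCoprime_one_left, Or.inr ⟨?_, ?_⟩⟩
    · linarith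
    · have : 1 * K ≤ (q - 1) * K := mul_le_mul_of_nonneg_right (by linarith) K0.le
      linarith
  · push Not at h2
    have h3 : 8 * (J : ℤ) < q := by
      have : 2 * (J : ℤ) * (8 * J) < 2 * J * q := by nlinarith
      exact lt_of_mul_lt_mul_left this (by positivity)
    obtain ⟨n, n1, n2, n3⟩ := cop_window hcap hD hX ((q + 3) / 4)
    have n4 : q ≤ 4 * n := by omega
    have n5 : 4 * n ≤ 3 * q := by omega
    have h7 : 8 * J ≤ K := by nlinarith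
    have h8 : 8 * (J : ℤ) * q ≤ K * q := mul_le_mul_of_nonneg_right h7 q0.le
    refine ⟨n, by omega, by omega, n3, Or.inr ⟨?_, ?_⟩⟩
    · have h4 : q * K ≤ 4 * n * K := mul_le_mul_of_nonneg_right n4 K0.le
      linarith
    · have h4 : q * K ≤ 4 * (q - n) * K := mul_le_mul_of_nonneg_right (by linarith) K0.le
      linarith

/-- **THE SIEVE ON A ROW SYSTEM**, two pairs of forms -/
theorem RowSys.both {P : Z2 → Prop} {J X : ℕ} {K q : ℤ} {u x h g a b a' b' : Z2}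
    (hs : RowSys P J K h g q) (hb : Bas u x h g) (hcap : Cap J X) (J1 : 1 ≤ J)
    (hK : 16 * (J : ℤ) ^ 2 ≤ K) (hux : cr u x ≠ 0) (hab : cr a b ≠ 0) (hab' : cr a' b' ≠ 0)
    (hua : cr u a ≠ 0) (hua' : cr u a' ≠ 0)
    (hX : (K * (|cr u x| * |cr a b|)) * (K * (|cr u x| * |cr a' b'|)) ≤ X) :
    (∃ (z : Z2) (i j : ℤ), P z ∧ IsCoprime i j ∧ z = i • u + j • x ∧
      ct z a b = GLam u x a b ∧ ct z a' b' = GLam u x a' b') ∨
    (q ≤ 2 ∧ ¬ (Good2 (GLam u x a b) h a b ∧ Good2 (GLam u x a' b') h a' b') ∧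
      ¬ (Good2 (GLam u x a b) (h + g) a b ∧ Good2 (GLam u x a' b') (h + g) a' b')) := by
  obtain ⟨q0, qK, hrow⟩ := hs
  have J1' : (1 : ℤ) ≤ J := by exact_mod_cast J1
  have K16 : 16 ≤ K := by nlinarith
  have K0 : 0 < K := by linarith
  have nf : ∀ a b : Z2, cr u a ≠ 0 → cr a b ≠ 0 → ∃ ph qh pg qg : ℤ,
      cr h a = GLam u x a b * ph ∧ cr h b = GLam u x a b * qh ∧ cr g a = GLam u x a b * pg ∧
      cr g b = GLam u x a b * qg ∧ pg * qh - ph * qg ≠ 0 ∧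
      |pg * qh - ph * qg| ≤ |cr u x| * |cr a b| ∧
      ∀ r : ℕ, r.Prime → (r : ℤ) ∣ ph → (r : ℤ) ∣ qh → (r : ℤ) ∣ pg → ¬ (r : ℤ) ∣ qg := by
    intro a b h1 h2
    obtain ⟨k1, k2, k3, k4⟩ := GLam_dvd (u := u) (x := x) (a := a) (b := b)
    obtain ⟨m1, m3⟩ := hb.dvd_to k1 k3
    obtain ⟨m2, m4⟩ := hb.dvd_to k2 k4
    have G0 : 0 < GLam u x a b := GLam_pos h1
    obtain ⟨ph, qh, pg, qg, e1, e2, e3, e4, e5, e6⟩ := forms_norm G0 m1 m2 m3 m4
      (fun d d1 d2 d3 d4 => by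
        obtain ⟨n1, n3⟩ := hb.dvd_of d1 d3
        obtain ⟨n2, n4⟩ := hb.dvd_of d2 d4
        exact dvd_GLam n1 n2 n3 n4)
    have hne : cr g h * cr a b ≠ 0 := by
      refine mul_ne_zero ?_ h2
      intro h0
      have := hb.cr_abs
      rw [h0, abs_zero] at this
      exact hux (abs_eq_zero.1 this.symm)
    refine ⟨ph, qh, pg, qg, e1, e2, e3, e4, ?_, ?_, e6⟩
    · intro h0
      rw [h0, mul_zero] at e5
      exact hne e5.symm
    · have h3 : GLam u x a b ^ 2 * |pg * qh - ph * qg| = |cr u x| * |cr a b| := by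
        rw [← hb.cr_abs, ← abs_mul, ← e5, abs_mul, abs_of_pos (pow_pos G0 2)]
      have h4 : 1 * |pg * qh - ph * qg| ≤ GLam u x a b ^ 2 * |pg * qh - ph * qg| :=
        mul_le_mul_of_nonneg_right (one_le_pow₀ G0) (abs_nonneg _)
      linarith
  obtain ⟨ph, qh, pg, qg, e1, e2, e3, e4, hD, hDl, hp⟩ := nf a b hua hab
  obtain ⟨ph', qh', pg', qg', e1', e2', e3', e4', hD', hDl', hp'⟩ := nf a' b' hua' hab'
  have G0 : 0 < GLam u x a b := GLam_pos hua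
  have G0' : 0 < GLam u x a' b' := GLam_pos hua'
  obtain ⟨D, hDe⟩ : ∃ D, D = pg * qh - ph * qg := ⟨_, rfl⟩
  obtain ⟨D', hDe'⟩ : ∃ D', D' = pg' * qh' - ph' * qg' := ⟨_, rfl⟩
  have sz : ∀ n : ℤ, 0 < n → n ≤ K → |n * D * (n * D')| ≤ X := by
    intro n n0 nK
    rw [abs_mul, abs_mul, abs_mul, abs_of_pos n0, hDe, hDe']
    refine le_trans (mul_le_mul (mul_le_mul nK hDl (abs_nonneg _) K0.le)
      (mul_le_mul nK hDl' (abs_nonneg _) K0.le) (by positivity) (by positivity)) hX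
  have DD : D * D' ≠ 0 := by rw [hDe, hDe']; exact mul_ne_zero hD hD'
  have DX : |D * D'| ≤ X := by
    have := sz 1 one_pos (by linarith)
    rwa [one_mul, one_mul] at this
  -- a prime divisor of `n` where the class of `g` is good
  have gd : ∀ n : ℤ, IsCoprime n (D * D') → ∀ r : ℕ, r.Prime → (r : ℤ) ∣ n →
      ¬ ((r : ℤ) ∣ pg ∧ (r : ℤ) ∣ qg) ∧ ¬ ((r : ℤ) ∣ pg' ∧ (r : ℤ) ∣ qg') := by
    intro n hn r hr hrn
    have hnd : ¬ (r : ℤ) ∣ D * D' := by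
      intro h5
      obtain ⟨c, d, hcd⟩ := hn
      have : (r : ℤ) ∣ 1 := by
        rw [← hcd]; exact dvd_add (hrn.mul_left _) (h5.mul_left _)
      exact prime_not_dvd_one hr this
    refine ⟨fun h6 => hnd ?_, fun h6 => hnd ?_⟩
    · rw [hDe]
      exact (dvd_sub (h6.1.mul_right _) (h6.2.mul_left _)).mul_right _
    · rw [hDe']
      exact (dvd_sub (h6.1.mul_right _) (h6.2.mul_left _)).mul_left _
  -- the end of the proof for a given row
  have fin : ∀ n : ℤ, 0 < n → n ≤ K → ((q = 1 ∧ n = 1) ∨ (2 * J * q ≤ n * K ∧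
      2 * J * q ≤ (q - n) * K)) →
      (∀ r : ℕ, r.Prime → (r : ℤ) ∣ n → ¬ ((r : ℤ) ∣ pg ∧ (r : ℤ) ∣ qg) ∧
        ¬ ((r : ℤ) ∣ pg' ∧ (r : ℤ) ∣ qg')) →
      (¬ (2 : ℤ) ∣ n → ∃ y : ℤ, ¬ ((2 : ℤ) ∣ pg * y + n * ph ∧ (2 : ℤ) ∣ qg * y + n * qh) ∧
        ¬ ((2 : ℤ) ∣ pg' * y + n * ph' ∧ (2 : ℤ) ∣ qg' * y + n * qh')) →
      ∃ (z : Z2) (i j : ℤ), P z ∧ IsCoprime i j ∧ z = i • u + j • x ∧
        ct z a b = GLam u x a b ∧ ct z a' b' = GLam u x a' b' := by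
    intro n n0 nK hn hg h2
    obtain ⟨t0, ht0⟩ := hrow n n0 hn
    have hXn := sz n n0 nK
    rw [hDe, hDe'] at hXn
    obtain ⟨t, t1, t2, t3, t4⟩ := sieve_row hcap n0.ne' hD hD' hXn hp hp' hg h2 t0
    have hcop : IsCoprime n t := isCoprime_of_prime fun r hr d2 d1 => by
      have k1 : (r : ℤ) ∣ pg * t + n * ph := dvd_add (d2.mul_left _) (d1.mul_right _)
      have k2 : (r : ℤ) ∣ qg * t + n * qh := dvd_add (d2.mul_left _) (d1.mul_right _)
      obtain ⟨c, d, hcd⟩ := t3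
      have : (r : ℤ) ∣ 1 := by
        rw [← hcd]; exact dvd_add (k1.mul_left _) (k2.mul_left _)
      exact prime_not_dvd_one hr this
    obtain ⟨i, j, hij, hz⟩ := hb.prim hcop
    exact ⟨n • h + t • g, i, j, ht0 t t1 t2, hij, hz, ct_of_cop G0 e1 e2 e3 e4 rfl t3,
      ct_of_cop G0' e1' e2' e3' e4' rfl t4⟩
  -- goodness at 2 in terms of the forms
  have g2h : Good2 (GLam u x a b) h a b ↔ ¬ ((2 : ℤ) ∣ ph ∧ (2 : ℤ) ∣ qh) := by
    unfold Good2
    rw [e1, e2, mul_comm 2 (GLam u x a b), mul_dvd_mul_iff_left G0.ne',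
      mul_dvd_mul_iff_left G0.ne']
  have g2h' : Good2 (GLam u x a' b') h a' b' ↔ ¬ ((2 : ℤ) ∣ ph' ∧ (2 : ℤ) ∣ qh') := by
    unfold Good2
    rw [e1', e2', mul_comm 2 (GLam u x a' b'), mul_dvd_mul_iff_left G0'.ne',
      mul_dvd_mul_iff_left G0'.ne']
  have g2s : Good2 (GLam u x a b) (h + g) a b ↔
      ¬ ((2 : ℤ) ∣ ph + pg ∧ (2 : ℤ) ∣ qh + qg) := by
    unfold Good2
    rw [cr_addl, cr_addl, e1, e2, e3, e4, ← mul_add, ← mul_add, mul_comm 2 (GLam u x a b),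
      mul_dvd_mul_iff_left G0.ne', mul_dvd_mul_iff_left G0.ne']
  have g2s' : Good2 (GLam u x a' b') (h + g) a' b' ↔
      ¬ ((2 : ℤ) ∣ ph' + pg' ∧ (2 : ℤ) ∣ qh' + qg') := by
    unfold Good2
    rw [cr_addl, cr_addl, e1', e2', e3', e4', ← mul_add, ← mul_add,
      mul_comm 2 (GLam u x a' b'), mul_dvd_mul_iff_left G0'.ne', mul_dvd_mul_iff_left G0'.ne']
  by_cases c1 : Good2 (GLam u x a b) h a b ∧ Good2 (GLam u x a' b') h a' b'
  · left
    obtain ⟨n, n0, nK, n1, n2⟩ := good_row2' hcap DD DX J1 hK q0 qK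
    refine fin n n0 nK n2 (gd n n1) fun ho => ⟨0, ?_, ?_⟩
    · rw [two_dvd_odd ho, two_dvd_odd ho, mul_zero, mul_zero, add_zero, add_zero]
      exact g2h.1 c1.1
    · rw [two_dvd_odd ho, two_dvd_odd ho, mul_zero, mul_zero, add_zero, add_zero]
      exact g2h'.1 c1.2
  by_cases c2 : Good2 (GLam u x a b) (h + g) a b ∧ Good2 (GLam u x a' b') (h + g) a' b'
  · left
    obtain ⟨n, n0, nK, n1, n2⟩ := good_row2' hcap DD DX J1 hK q0 qK
    refine fin n n0 nK n2 (gd n n1) fun ho => ⟨1, ?_, ?_⟩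
    · rw [two_dvd_odd ho, two_dvd_odd ho, mul_one, mul_one]
      exact g2s.1 c2.1
    · rw [two_dvd_odd ho, two_dvd_odd ho, mul_one, mul_one]
      exact g2s'.1 c2.2
  by_cases c3 : q ≤ 2
  · exact Or.inr ⟨c3, c1, c2⟩
  push Not at c3
  left
  obtain ⟨n, n0, nK, n1, n2⟩ := good_row2 hcap DD DX J1 hK (by omega) qK
  -- the class of `g` is good
  rw [g2h, g2h'] at c1
  rw [g2s, g2s'] at c2
  have two : (2 : ℕ).Prime := Nat.prime_two
  have hgood : ¬ ((2 : ℤ) ∣ pg ∧ (2 : ℤ) ∣ qg) ∧ ¬ ((2 : ℤ) ∣ pg' ∧ (2 : ℤ) ∣ qg') := by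
    have P1 := hp 2 two
    have P2 := hp' 2 two
    push_cast at P1 P2
    constructor
    · rintro ⟨a1, a2⟩
      have b1 : (2 : ℤ) ∣ ph' ∧ (2 : ℤ) ∣ qh' := by
        by_contra hcon
        exact c1 ⟨fun h5 => P1 h5.1 h5.2 a1 a2, hcon⟩
      have b2 : (2 : ℤ) ∣ ph' + pg' ∧ (2 : ℤ) ∣ qh' + qg' := by
        by_contra hcon
        exact c2 ⟨fun h5 => P1 ((dvd_add_left a1).1 h5.1) ((dvd_add_left a2).1 h5.2) a1 a2, hcon⟩
      exact P2 b1.1 b1.2 ((dvd_add_right b1.1).1 b2.1) ((dvd_add_right b1.2).1 b2.2)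
    · rintro ⟨a1, a2⟩
      have b1 : (2 : ℤ) ∣ ph ∧ (2 : ℤ) ∣ qh := by
        by_contra hcon
        exact c1 ⟨hcon, fun h5 => P2 h5.1 h5.2 a1 a2⟩
      have b2 : (2 : ℤ) ∣ ph + pg ∧ (2 : ℤ) ∣ qh + qg := by
        by_contra hcon
        exact c2 ⟨hcon, fun h5 => P2 ((dvd_add_left a1).1 h5.1) ((dvd_add_left a2).1 h5.2) a1 a2⟩
      exact P1 b1.1 b1.2 ((dvd_add_right b1.1).1 b2.1) ((dvd_add_right b1.2).1 b2.2)
  refine fin (2 * n) (by linarith) nK (Or.inr n2) (fun r hr hrn => ?_)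
    (fun ho => absurd (dvd_mul_right _ _) ho)
  rcases (Nat.prime_iff_prime_int.1 hr).dvd_or_dvd hrn with h5 | h5
  · have h6 : (r : ℤ) = 2 := by
      have h7 : r ∣ 2 := by exact_mod_cast h5
      have h8 := (Nat.prime_dvd_prime_iff_eq hr two).1 h7
      exact_mod_cast h8
    rw [h6]
    exact hgood
  · exact gd n n1 r hr h5

/-- one pair of forms: no exception -/
theorem RowSys.one {P : Z2 → Prop} {J X : ℕ} {K q : ℤ} {u x h g a b : Z2}
    (hs : RowSys P J K h g q) (hb : Bas u x h g) (hcap : Cap J X) (J1 : 1 ≤ J)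
    (hK : 16 * (J : ℤ) ^ 2 ≤ K) (hux : cr u x ≠ 0) (hab : cr a b ≠ 0) (hua : cr u a ≠ 0)
    (hX : (K * (|cr u x| * |cr a b|)) * (K * (|cr u x| * |cr a b|)) ≤ X) :
    ∃ (z : Z2) (i j : ℤ), P z ∧ IsCoprime i j ∧ z = i • u + j • x ∧
      ct z a b = GLam u x a b := by
  rcases hs.both hb hcap J1 hK hux hab hab hua hua hX with ⟨z, i, j, h1, h2, h3, h4, -⟩ |
    ⟨-, h1, h2⟩
  · exact ⟨z, i, j, h1, h2, h3, h4⟩
  · exfalso
    have G0 : 0 < GLam u x a b := GLam_pos hua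
    rw [and_self] at h1 h2
    unfold Good2 at h1 h2
    push Not at h1 h2
    rw [cr_addl, cr_addl] at h2
    have k1 := (dvd_add_right h1.1).1 h2.1
    have k2 := (dvd_add_right h1.2).1 h2.2
    obtain ⟨m1, m3⟩ := hb.dvd_of h1.1 k1
    obtain ⟨m2, m4⟩ := hb.dvd_of h1.2 k2
    have h5 : 2 * GLam u x a b ∣ GLam u x a b := dvd_GLam m1 m2 m3 m4
    have := Int.le_of_dvd G0 h5
    linarith

/-! ## Tool (P0) -/

/-- the rows `n < q` when `K² |ρ| W ≤ F₁ F₂` -/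
theorem p0_core {F1 F2 W ρ R J K p q n α j X Y : ℤ} (f1 : 0 < F1) (f2 : 0 < F2)
    (hW : F1 + F2 < W) (hK : K ^ 2 * (|ρ| * W) ≤ F1 * F2) (K8 : 8 * J ≤ K)
    (J1 : 1 ≤ J) (q0 : 0 < q) (qK : q ≤ K) (hE : K * |q * R - p * F1| ≤ F1)
    (c1 : 2 * J * q ≤ n * K) (c2 : 2 * J * q ≤ (q - n) * K) (hn : α * q - j * p = n)
    (j0 : 0 ≤ j) (j1 : j < J * q) (hX : X = α * F1 - j * R)
    (hY : F1 * Y = F2 * X + j * (W * ρ)) :
    0 < X ∧ 0 < Y ∧ X + Y < W ∧ X ≤ 2 * F1 ∧ Y ≤ 2 * F2 := by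
  have K0 : 0 < K := by linarith
  have W0 : 0 < W := by linarith
  obtain ⟨E, hEe⟩ : ∃ E, E = q * R - p * F1 := ⟨_, rfl⟩
  rw [← hEe] at hE
  have key : q * X = n * F1 - j * E := by
    rw [hX, hEe, ← hn]; ring
  have habs : K * |j * E| ≤ j * F1 := by
    rw [abs_mul, abs_of_nonneg j0]
    calc K * (j * |E|) = j * (K * |E|) := by ring
      _ ≤ j * F1 := mul_le_mul_of_nonneg_left hE j0
  have hjF : j * F1 < J * q * F1 := mul_lt_mul_of_pos_right j1 f1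
  have a1 : K * (j * E) ≤ K * |j * E| := mul_le_mul_of_nonneg_left (le_abs_self _) K0.le
  have a2 : K * (-(j * E)) ≤ K * |j * E| :=
    mul_le_mul_of_nonneg_left (by rw [← abs_neg]; exact le_abs_self _) K0.le
  have h1 : 2 * J * q * F1 ≤ n * K * F1 := mul_le_mul_of_nonneg_right c1 f1.le
  have h2 : 2 * J * q * F1 ≤ (q - n) * K * F1 := mul_le_mul_of_nonneg_right c2 f1.le
  have e1 : q * (J * F1) < q * (K * X) := by
    have : q * (K * X) = K * (n * F1 - j * E) := by rw [← key]; ring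
    rw [this]
    nlinarith
  have e2 : q * (K * X) < q * ((K - J) * F1) := by
    have : q * (K * X) = K * (n * F1 - j * E) := by rw [← key]; ring
    rw [this]
    nlinarith
  have x1 : J * F1 < K * X := lt_of_mul_lt_mul_left e1 q0.le
  have x2 : K * X < (K - J) * F1 := lt_of_mul_lt_mul_left e2 q0.le
  -- the term with `ρ`
  have r1 : K * |j * (W * ρ)| ≤ J * (F1 * F2) := by
    rw [abs_mul, abs_of_nonneg j0, abs_mul, abs_of_pos W0]
    have h3 : 0 ≤ |ρ| * W := mul_nonneg (abs_nonneg _) W0.le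
    have h4 : j * (|ρ| * W) ≤ J * K * (|ρ| * W) := by
      refine mul_le_mul_of_nonneg_right ?_ h3
      have : J * q ≤ J * K := mul_le_mul_of_nonneg_left qK (by linarith)
      linarith
    calc K * (j * (W * |ρ|)) = K * (j * (|ρ| * W)) := by ring
      _ ≤ K * (J * K * (|ρ| * W)) := mul_le_mul_of_nonneg_left h4 K0.le
      _ = J * (K ^ 2 * (|ρ| * W)) := by ring
      _ ≤ J * (F1 * F2) := mul_le_mul_of_nonneg_left hK (by linarith)
  have r2 : K * (j * (W * ρ)) ≤ J * (F1 * F2) :=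
    le_trans (mul_le_mul_of_nonneg_left (le_abs_self _) K0.le) r1
  have r3 : -(J * (F1 * F2)) ≤ K * (j * (W * ρ)) := by
    have := mul_le_mul_of_nonneg_left (neg_abs_le (j * (W * ρ))) K0.le
    linarith
  have X0 : 0 < X := by
    have : 0 < K * X := lt_trans (mul_pos (by linarith) f1) x1
    exact (mul_pos_iff_of_pos_left K0).1 this
  have m1 : F2 * (J * F1) < F2 * (K * X) := mul_lt_mul_of_pos_left x1 f2
  have m2 : F2 * (K * X) < F2 * ((K - J) * F1) := mul_lt_mul_of_pos_left x2 f2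
  have eY : K * (F1 * Y) = F2 * (K * X) + K * (j * (W * ρ)) := by rw [hY]; ring
  have Y0 : 0 < Y := by
    have h3 : 0 < K * (F1 * Y) := by rw [eY]; linarith
    exact (mul_pos_iff_of_pos_left f1).1 ((mul_pos_iff_of_pos_left K0).1 h3)
  have X1 : X < F1 := by
    have : K * X < K * F1 := by
      have : 0 < J * F1 := mul_pos (by linarith) f1
      linarith
    exact lt_of_mul_lt_mul_left this K0.le
  have Y1 : Y < F2 := by
    have h3 : K * (F1 * Y) < K * (F1 * F2) := by rw [eY]; linarith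
    exact lt_of_mul_lt_mul_left (lt_of_mul_lt_mul_left h3 K0.le) f1.le
  exact ⟨X0, Y0, by linarith, by linarith, by linarith⟩

/-- the row of `u` -/
theorem p0_one {F1 F2 W ρ J K E t X Y : ℤ} (f1 : 0 < F1) (f2 : 0 < F2)
    (hW : F1 + F2 < W) (hK : K ^ 2 * (|ρ| * W) ≤ F1 * F2) (K8 : 8 * J ≤ K)
    (J1 : 1 ≤ J) (hE : K * |E| ≤ F1) (ht : |t| ≤ J) (hs : t * ((F1 + F2) * E + W * ρ) ≤ 0)
    (hX : X = F1 + t * E) (hY : F1 * Y = F2 * X + t * (W * ρ)) :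
    0 < X ∧ 0 < Y ∧ X + Y < W ∧ X ≤ 2 * F1 ∧ Y ≤ 2 * F2 := by
  have K0 : 0 < K := by linarith
  have W0 : 0 < W := by linarith
  have h1 : 8 * |t * E| ≤ F1 := by
    rw [abs_mul]
    have h2 : |t| * |E| ≤ J * |E| := mul_le_mul_of_nonneg_right ht (abs_nonneg _)
    have h3 : 8 * J * |E| ≤ K * |E| := mul_le_mul_of_nonneg_right K8 (abs_nonneg _)
    linarith
  have h4 : 64 * |t * (W * ρ)| ≤ F1 * F2 := by
    rw [abs_mul, abs_mul, abs_of_pos W0]
    have h5 : 0 ≤ |ρ| * W := mul_nonneg (abs_nonneg _) W0.le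
    have h6 : |t| * (|ρ| * W) ≤ J * (|ρ| * W) := mul_le_mul_of_nonneg_right ht h5
    have h7 : 64 * J ≤ K ^ 2 := by nlinarith
    have h8 : 64 * J * (|ρ| * W) ≤ K ^ 2 * (|ρ| * W) := mul_le_mul_of_nonneg_right h7 h5
    have h9 : |t| * (W * |ρ|) = |t| * (|ρ| * W) := by ring
    rw [h9]
    linarith
  have b1 := abs_le.1 (show |t * E| ≤ |t * E| from le_rfl)
  have b2 := abs_le.1 (show |t * (W * ρ)| ≤ |t * (W * ρ)| from le_rfl)
  have X0 : 0 < X := by rw [hX]; linarith [b1.1]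
  have X2 : 8 * X ≤ 9 * F1 := by rw [hX]; linarith [b1.2]
  have X3 : 7 * F1 ≤ 8 * X := by rw [hX]; linarith [b1.1]
  have m1 : F2 * (7 * F1) ≤ F2 * (8 * X) := mul_le_mul_of_nonneg_left X3 f2.le
  have m2 : F2 * (8 * X) ≤ F2 * (9 * F1) := mul_le_mul_of_nonneg_left X2 f2.le
  have p12 : 0 < F1 * F2 := mul_pos f1 f2
  have Y0 : 0 < Y := by
    have : 0 < F1 * Y := by rw [hY]; linarith [b2.1]
    exact (mul_pos_iff_of_pos_left f1).1 this
  have Y2 : Y ≤ 2 * F2 := by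
    have : F1 * Y ≤ F1 * (2 * F2) := by rw [hY]; linarith [b2.2]
    exact le_of_mul_le_mul_left this f1
  refine ⟨X0, Y0, ?_, by linarith, Y2⟩
  have h10 : F1 * (X + Y) ≤ F1 * (F1 + F2) := by
    have : F1 * (X + Y) = F1 * (F1 + F2) + t * ((F1 + F2) * E + W * ρ) := by
      rw [mul_add, hY, hX]; ring
    linarith
  have := le_of_mul_le_mul_left h10 f1
  linarith

/-- **(P0)**: a row system of centres near `u` for a pair of slits with `K² |l × m| W ≤ F₁ F₂` -/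
theorem p0_rows {u v l m : Z2} {J K : ℤ} (f0 : 0 < cr u v) (f1 : 0 < cr u l) (f2 : 0 < cr u m)
    (J1 : 1 ≤ J) (K8 : 8 * J ≤ K)
    (hK : K ^ 2 * (|cr l m| * (cr u v + cr u l + cr u m)) ≤ cr u l * cr u m) :
    ∃ h g q, Bas u (v + l + m) h g ∧
      RowSys (fun z => Lg u v l m z ∧ cr z l ≤ 2 * cr u l ∧ cr z m ≤ 2 * cr u m) J K h g q := by
  have K0 : 0 < K := by linarith
  obtain ⟨y, hy⟩ : ∃ y, y = v + l + m := ⟨_, rfl⟩
  obtain ⟨R, hR⟩ : ∃ R, R = -cr y l := ⟨_, rfl⟩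
  obtain ⟨p, q, q0, qK, ⟨a, b, hab⟩, hE⟩ := dirichletZ R (cr u l) f1 K0
  obtain ⟨W, hW⟩ : ∃ W, W = cr u v + cr u l + cr u m := ⟨_, rfl⟩
  have hW' : cr u l + cr u m < W := by rw [hW]; linarith
  -- Pluecker
  have ym : cr u l * cr y m = cr u m * cr y l + W * cr l m := by
    rw [hy, hW]; simp only [cr, Prod.fst_add, Prod.snd_add]; ring
  have prod : ∀ (α j : ℤ) (z : Z2), z = α • u + j • y → cr z l = α * cr u l - j * R ∧
      cr u l * cr z m = cr u m * cr z l + j * (W * cr l m) := by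
    intro α j z hz
    have e1 : cr z l = α * cr u l + j * cr y l := by
      rw [hz]; simp only [cr, Prod.fst_add, Prod.snd_add, Prod.smul_fst, Prod.smul_snd,
        smul_eq_mul]; ring
    have e2 : cr z m = α * cr u m + j * cr y m := by
      rw [hz]; simp only [cr, Prod.fst_add, Prod.snd_add, Prod.smul_fst, Prod.smul_snd,
        smul_eq_mul]; ring
    refine ⟨by rw [e1, hR]; ring, ?_⟩
    rw [e2, e1]
    linear_combination j * ym
  rw [← hW] at hK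
  refine ⟨b • u + (-a) • y, p • u + q • y, q, ⟨b, -a, p, q, ?_, ?_, Or.inl ?_⟩, q0, qK, ?_⟩
  · rw [hy]
  · rw [hy]
  · linarith
  intro n n0 hn
  rcases hn with ⟨hq, hn1⟩ | ⟨c1, c2⟩
  · -- the row of `u`
    obtain ⟨E, hEe⟩ : ∃ E, E = p * cr u l - R := ⟨_, rfl⟩
    have hE' : K * |E| ≤ cr u l := by
      rw [hq, one_mul] at hE
      rw [hEe, abs_sub_comm]
      exact hE
    obtain ⟨S, hS⟩ : ∃ S, S = (cr u l + cr u m) * E + W * cr l m := ⟨_, rfl⟩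
    obtain ⟨t1, ht1⟩ : ∃ t1 : ℤ, ∀ τ : ℤ, t1 ≤ τ → τ < t1 + J → |τ| ≤ J ∧ τ * S ≤ 0 := by
      rcases le_total S 0 with h | h
      · refine ⟨0, fun τ h1 h2 => ⟨?_, ?_⟩⟩
        · rw [abs_of_nonneg h1]; linarith
        · exact mul_nonpos_of_nonneg_of_nonpos h1 h
      · refine ⟨1 - J, fun τ h1 h2 => ⟨?_, ?_⟩⟩
        · rw [abs_of_nonpos (by omega)]; linarith
        · exact mul_nonpos_of_nonpos_of_nonneg (by omega) h
    refine ⟨t1 + a, fun t h1 h2 => ?_⟩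
    obtain ⟨s1, s2⟩ := ht1 (t - a) (by linarith) (by linarith)
    have hz : n • (b • u + (-a) • y) + t • (p • u + q • y) =
        (1 + (t - a) * p) • u + (t - a) • y := by
      have hb1 : b = 1 - a * p := by rw [hq] at hab; linarith
      rw [hn1, hq, hb1]
      module
    obtain ⟨g1, g2⟩ := prod _ _ _ hz
    obtain ⟨k1, k2, k3, k4, k5⟩ := p0_one (X := cr (n • (b • u + (-a) • y) +
      t • (p • u + q • y)) l) (Y := cr (n • (b • u + (-a) • y) + t • (p • u + q • y)) m) f1 f2 hW' hK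
      K8 J1 hE' s1 (by rw [← hS]; exact s2) (by rw [g1, hEe]; ring) g2
    exact ⟨⟨k1, k2, by rw [← hW]; exact k3⟩, k4, k5⟩
  · refine ⟨-((n * -a) / q), fun t ht1 ht2 => ?_⟩
    obtain ⟨r, hr⟩ : ∃ r, r = (n * -a) % q := ⟨_, rfl⟩
    have r0 : 0 ≤ r := by rw [hr]; exact Int.emod_nonneg _ q0.ne'
    have r1 : r < q := by rw [hr]; exact Int.emod_lt_of_pos _ q0
    have hdiv : n * -a = q * ((n * -a) / q) + r := by
      rw [hr]; exact (Int.mul_ediv_add_emod _ _).symm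
    obtain ⟨d, hd⟩ : ∃ d, d = (n * -a) / q := ⟨_, rfl⟩
    rw [← hd] at ht1 ht2 hdiv
    have jt0 : 0 ≤ n * -a + t * q := by
      have : 0 ≤ (t + d) * q := mul_nonneg (by linarith) q0.le
      rw [hdiv]
      linarith
    have jt1 : n * -a + t * q < J * q := by
      have : (t + d) * q ≤ (J - 1) * q := mul_le_mul_of_nonneg_right (by linarith) q0.le
      rw [hdiv]
      linarith
    have hz : n • (b • u + (-a) • y) + t • (p • u + q • y) =
        (n * b + t * p) • u + (n * -a + t * q) • y := by module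
    have hdet : (n * b + t * p) * q - (n * -a + t * q) * p = n := by
      linear_combination n * hab
    obtain ⟨g1, g2⟩ := prod _ _ _ hz
    obtain ⟨k1, k2, k3, k4, k5⟩ := p0_core f1 f2 hW' hK K8 J1 q0 qK hE c1 c2 hdet jt0 jt1 g1 g2
    exact ⟨⟨k1, k2, by rw [← hW]; exact k3⟩, k4, k5⟩

/-! ## Trees -/

section Trees

variable {X : Type} {O : PO X} {N : ℤ} {u v l q m s : Z2}

theorem Has6.sizes (hT : Has6 O (u, v, l, q, m, s)) (hN : vol6 (u, v, l, q, m, s) = N) :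
    0 < cr u v ∧ 0 < cr u l ∧ 0 < cr u m ∧ cr u (v + l + m) = cr u v + cr u l + cr u m ∧
      |cr u (v + l + m)| ≤ N ∧ cr l q ≠ 0 ∧ |cr l q| ≤ N ∧ cr m s ≠ 0 ∧ |cr m s| ≤ N := by
  obtain ⟨p1, p2, p3, p4, p5⟩ := hT.pos
  have e1 : cr u (v + l + m) = cr u v + cr u l + cr u m := by rw [cr_addr, cr_addr]
  simp only [vol6] at hN
  refine ⟨p1, p2, p3, e1, ?_, ?_, ?_, ?_, ?_⟩
  · rw [e1, abs_of_pos (by linarith)]; linarith
  · rw [cr_swap' q l]; intro h0; linarith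
  · rw [cr_swap' q l, abs_neg, abs_of_pos p4]; linarith
  · rw [cr_swap' s m]; intro h0; linarith
  · rw [cr_swap' s m, abs_neg, abs_of_pos p5]; linarith

/-- the new tree over a centre -/
theorem Has6.at_Lg (hT : Has6 O (u, v, l, q, m, s)) {z : Z2} {i j : ℤ} (hij : IsCoprime i j)
    (hz : z = i • u + j • (v + l + m)) (hL : Lg u v l m z) :
    ∃ v', Has6 O (z, v', l, q, m, s) ∧ lat z (v' + l + m) = lat u (v + l + m) ∧
      cr z v' = cr u v + cr u l + cr u m - cr z l - cr z m ∧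
      vol6 (z, v', l, q, m, s) = vol6 (u, v, l, q, m, s) :=
  hT.recenter hij hz hL.1 hL.2.1 hL.2.2

theorem sizeX {K N a b c d : ℤ} (K0 : 0 ≤ K) (a0 : 0 ≤ a) (b0 : 0 ≤ b) (c0 : 0 ≤ c)
    (d0 : 0 ≤ d) (ha : a ≤ N) (hb : b ≤ N) (hc : c ≤ N) (hd : d ≤ N) :
    (K * (a * b)) * (K * (c * d)) ≤ K ^ 2 * N ^ 4 := by
  have N0 : 0 ≤ N := a0.trans ha
  have h1 : a * b ≤ N * N := mul_le_mul ha hb b0 N0
  have h2 : c * d ≤ N * N := mul_le_mul hc hd d0 N0
  have h3 : (a * b) * (c * d) ≤ (N * N) * (N * N) :=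
    mul_le_mul h1 h2 (mul_nonneg c0 d0) (mul_nonneg N0 N0)
  calc (K * (a * b)) * (K * (c * d)) = K ^ 2 * ((a * b) * (c * d)) := by ring
    _ ≤ K ^ 2 * ((N * N) * (N * N)) := mul_le_mul_of_nonneg_left h3 (by positivity)
    _ = K ^ 2 * N ^ 4 := by ring

/-- **EXIT WITH THE EXACT CONTENT OF `L`** from a row system -/
theorem Has6.rowL {P : Z2 → Prop} {J X' : ℕ} {K k : ℤ} {h g : Z2}
    (hT : Has6 O (u, v, l, q, m, s)) (hN : vol6 (u, v, l, q, m, s) = N)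
    (hP : ∀ z, P z → Lg u v l m z) (hb : Bas u (v + l + m) h g) (hs : RowSys P J K h g k)
    (hcap : Cap J X') (J1 : 1 ≤ J) (hK : 16 * (J : ℤ) ^ 2 ≤ K) (hX : K ^ 2 * N ^ 4 ≤ X') :
    ∃ (z v' : Z2) (i j : ℤ), P z ∧ IsCoprime i j ∧ z = i • u + j • (v + l + m) ∧
      Has6 O (z, v', l, q, m, s) ∧ vol6 (z, v', l, q, m, s) = N ∧
      lat z (v' + l + m) = lat u (v + l + m) ∧
      cr z v' = cr u v + cr u l + cr u m - cr z l - cr z m ∧
      ct z l q = GLam u (v + l + m) l q := by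
  obtain ⟨p1, p2, p3, e1, e2, e3, e4, e5, e6⟩ := hT.sizes hN
  have hux : cr u (v + l + m) ≠ 0 := by rw [e1]; intro h0; linarith
  have K0 : 0 ≤ K := by nlinarith [sq_nonneg (J : ℤ)]
  obtain ⟨z, i, j, h1, h2, h3, h4⟩ := hs.one hb hcap J1 hK hux e3 p2.ne'
    (le_trans (sizeX K0 (abs_nonneg _) (abs_nonneg _) (abs_nonneg _) (abs_nonneg _) e2 e4 e2 e4)
      hX)
  obtain ⟨v', k1, k2, k3, k4⟩ := hT.at_Lg h2 h3 (hP z h1)
  exact ⟨z, v', i, j, h1, h2, h3, k1, k4.trans hN, k2, k3, h4⟩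

/-- **EXIT WITH THE EXACT CONTENT OF `M`** from a row system -/
theorem Has6.rowM {P : Z2 → Prop} {J X' : ℕ} {K k : ℤ} {h g : Z2}
    (hT : Has6 O (u, v, l, q, m, s)) (hN : vol6 (u, v, l, q, m, s) = N)
    (hP : ∀ z, P z → Lg u v l m z) (hb : Bas u (v + l + m) h g) (hs : RowSys P J K h g k)
    (hcap : Cap J X') (J1 : 1 ≤ J) (hK : 16 * (J : ℤ) ^ 2 ≤ K) (hX : K ^ 2 * N ^ 4 ≤ X') :
    ∃ (z v' : Z2) (i j : ℤ), P z ∧ IsCoprime i j ∧ z = i • u + j • (v + l + m) ∧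
      Has6 O (z, v', l, q, m, s) ∧ vol6 (z, v', l, q, m, s) = N ∧
      lat z (v' + l + m) = lat u (v + l + m) ∧
      cr z v' = cr u v + cr u l + cr u m - cr z l - cr z m ∧
      ct z m s = GLam u (v + l + m) m s := by
  obtain ⟨p1, p2, p3, e1, e2, e3, e4, e5, e6⟩ := hT.sizes hN
  have hux : cr u (v + l + m) ≠ 0 := by rw [e1]; intro h0; linarith
  have K0 : 0 ≤ K := by nlinarith [sq_nonneg (J : ℤ)]
  obtain ⟨z, i, j, h1, h2, h3, h4⟩ := hs.one hb hcap J1 hK hux e5 p3.ne'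
    (le_trans (sizeX K0 (abs_nonneg _) (abs_nonneg _) (abs_nonneg _) (abs_nonneg _) e2 e6 e2 e6)
      hX)
  obtain ⟨v', k1, k2, k3, k4⟩ := hT.at_Lg h2 h3 (hP z h1)
  exact ⟨z, v', i, j, h1, h2, h3, k1, k4.trans hN, k2, k3, h4⟩

/-- **EXIT WITH BOTH EXACT CONTENTS** from a row system, up to the prime 2 -/
theorem Has6.rowB {P : Z2 → Prop} {J X' : ℕ} {K k : ℤ} {h g : Z2}
    (hT : Has6 O (u, v, l, q, m, s)) (hN : vol6 (u, v, l, q, m, s) = N)
    (hP : ∀ z, P z → Lg u v l m z) (hb : Bas u (v + l + m) h g) (hs : RowSys P J K h g k)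
    (hcap : Cap J X') (J1 : 1 ≤ J) (hK : 16 * (J : ℤ) ^ 2 ≤ K) (hX : K ^ 2 * N ^ 4 ≤ X') :
    (∃ (z v' : Z2) (i j : ℤ), P z ∧ IsCoprime i j ∧ z = i • u + j • (v + l + m) ∧
      Has6 O (z, v', l, q, m, s) ∧ vol6 (z, v', l, q, m, s) = N ∧
      lat z (v' + l + m) = lat u (v + l + m) ∧
      cr z v' = cr u v + cr u l + cr u m - cr z l - cr z m ∧
      ct z l q = GLam u (v + l + m) l q ∧ ct z m s = GLam u (v + l + m) m s) ∨
    (k ≤ 2 ∧ ¬ (Good2 (GLam u (v + l + m) l q) h l q ∧ Good2 (GLam u (v + l + m) m s) h m s) ∧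
      ¬ (Good2 (GLam u (v + l + m) l q) (h + g) l q ∧
        Good2 (GLam u (v + l + m) m s) (h + g) m s)) := by
  obtain ⟨p1, p2, p3, e1, e2, e3, e4, e5, e6⟩ := hT.sizes hN
  have hux : cr u (v + l + m) ≠ 0 := by rw [e1]; intro h0; linarith
  have K0 : 0 ≤ K := by nlinarith [sq_nonneg (J : ℤ)]
  rcases hs.both hb hcap J1 hK hux e3 e5 p2.ne' p3.ne'
    (le_trans (sizeX K0 (abs_nonneg _) (abs_nonneg _) (abs_nonneg _) (abs_nonneg _) e2 e4 e2 e6)
      hX) with ⟨z, i, j, h1, h2, h3, h4, h5⟩ | h1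
  · left
    obtain ⟨v', k1, k2, k3, k4⟩ := hT.at_Lg h2 h3 (hP z h1)
    exact ⟨z, v', i, j, h1, h2, h3, k1, k4.trans hN, k2, k3, h4, h5⟩
  · exact Or.inr h1

/-- **(P0), the content of `L`** -/
theorem Has6.p0L {J X' : ℕ} {K : ℤ} (hT : Has6 O (u, v, l, q, m, s))
    (hN : vol6 (u, v, l, q, m, s) = N) (hcap : Cap J X') (J1 : 1 ≤ J)
    (hK : 16 * (J : ℤ) ^ 2 ≤ K) (hX : K ^ 2 * N ^ 4 ≤ X')
    (h0 : K ^ 2 * (|cr l m| * (cr u v + cr u l + cr u m)) ≤ cr u l * cr u m) :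
    ∃ (z v' : Z2) (i j : ℤ), IsCoprime i j ∧ z = i • u + j • (v + l + m) ∧
      Has6 O (z, v', l, q, m, s) ∧ vol6 (z, v', l, q, m, s) = N ∧
      lat z (v' + l + m) = lat u (v + l + m) ∧ cr z l ≤ 2 * cr u l ∧ cr z m ≤ 2 * cr u m ∧
      cr z v' = cr u v + cr u l + cr u m - cr z l - cr z m ∧
      ct z l q = GLam u (v + l + m) l q := by
  obtain ⟨p1, p2, p3, -⟩ := hT.sizes hN
  have J1' : (1 : ℤ) ≤ J := by exact_mod_cast J1
  obtain ⟨h, g, k, hb, hs⟩ := p0_rows (J := J) p1 p2 p3 J1' (by nlinarith) h0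
  obtain ⟨z, v', i, j, ⟨-, g2, g3⟩, g4, g5, g6, g7, g8, g9, g10⟩ :=
    hT.rowL hN (fun z h => h.1) hb hs hcap J1 hK hX
  exact ⟨z, v', i, j, g4, g5, g6, g7, g8, g2, g3, g9, g10⟩

/-- **(P0), the content of `M`** -/
theorem Has6.p0M {J X' : ℕ} {K : ℤ} (hT : Has6 O (u, v, l, q, m, s))
    (hN : vol6 (u, v, l, q, m, s) = N) (hcap : Cap J X') (J1 : 1 ≤ J)
    (hK : 16 * (J : ℤ) ^ 2 ≤ K) (hX : K ^ 2 * N ^ 4 ≤ X')
    (h0 : K ^ 2 * (|cr l m| * (cr u v + cr u l + cr u m)) ≤ cr u l * cr u m) :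
    ∃ (z v' : Z2) (i j : ℤ), IsCoprime i j ∧ z = i • u + j • (v + l + m) ∧
      Has6 O (z, v', l, q, m, s) ∧ vol6 (z, v', l, q, m, s) = N ∧
      lat z (v' + l + m) = lat u (v + l + m) ∧ cr z l ≤ 2 * cr u l ∧ cr z m ≤ 2 * cr u m ∧
      cr z v' = cr u v + cr u l + cr u m - cr z l - cr z m ∧
      ct z m s = GLam u (v + l + m) m s := by
  obtain ⟨p1, p2, p3, -⟩ := hT.sizes hN
  have J1' : (1 : ℤ) ≤ J := by exact_mod_cast J1
  obtain ⟨h, g, k, hb, hs⟩ := p0_rows (J := J) p1 p2 p3 J1' (by nlinarith) h0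
  obtain ⟨z, v', i, j, ⟨-, g2, g3⟩, g4, g5, g6, g7, g8, g9, g10⟩ :=
    hT.rowM hN (fun z h => h.1) hb hs hcap J1 hK hX
  exact ⟨z, v', i, j, g4, g5, g6, g7, g8, g2, g3, g9, g10⟩

end Trees

end Pool.Agent.H4G.Six
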