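import Pool.Agent.H4G.Six.D2.RichBox
import Pool.Agent.H4G.Six.D2.Rows
import Pool.Agent.H4G.Six.NR.Frame

/-!
# The half turn (mirror lemma of D2, helper19)

The tree `(u, v; l, q; m, s)` and the tree `(-u, -v; -m, -s; -l, -q)` belong to the same origami: the
half turn exchanges the two tori. Every hypothesis and every conclusion which occurs in D2 is
transported here, so that it is enough to prove a row on one side.
-/

set_option autoImplicit false

namespace Pool.Agent.H4G.Six

open Pool.Agent.H4G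

variable {X : Type} {O : PO X} {N : ℤ} {u v l q m s p p' e e' x y h g z w la lb : Z2}
  {c a c' a' k K J : ℤ}

/-! ## Lattices -/

theorem lat_neg (x y : Z2) : lat (-x) (-y) = lat x y :=
  closure_pair_eq (α := -1) (β := 0) (γ := 0) (δ := -1) (by module) (by module)
    (Or.inl (by norm_num))

/-- the lattice of a torus after the half turn -/
theorem lat_half (u m s : Z2) : lat (-m) (-u + -s) = lat m (u + s) := by
  have : (-u : Z2) + -s = -(u + s) := by abel
  rw [this, lat_neg]

theorem lat_half' (p l : Z2) : lat (-p) (-l) = lat p l := lat_neg p l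

/-- the lattice `⟨u, v + l + m⟩` of the centres after the half turn -/
theorem lat_centre_half (u v l m : Z2) : lat (-u) (-v + -m + -l) = lat u (v + l + m) := by
  have : (-v : Z2) + -m + -l = -(v + l + m) := by abel
  rw [this, lat_neg]

theorem closure_half (u v l q m s : Z2) :
    AddSubgroup.closure ({-u, -v, -m, -s, -l, -q} : Set Z2) =
      AddSubgroup.closure ({u, v, l, q, m, s} : Set Z2) := by
  apply le_antisymm
  · rw [AddSubgroup.closure_le]
    intro z hz
    simp only [Set.mem_insert_iff, Set.mem_singleton_iff] at hz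
    rcases hz with rfl | rfl | rfl | rfl | rfl | rfl <;>
    · refine AddSubgroup.neg_mem _ (AddSubgroup.subset_closure ?_)
      simp
  · rw [AddSubgroup.closure_le]
    intro z hz
    simp only [Set.mem_insert_iff, Set.mem_singleton_iff] at hz
    have key : ∀ w : Z2, -w ∈ AddSubgroup.closure ({-u, -v, -m, -s, -l, -q} : Set Z2) →
        w ∈ AddSubgroup.closure ({-u, -v, -m, -s, -l, -q} : Set Z2) := by
      intro w hw
      have := AddSubgroup.neg_mem _ hw
      rwa [neg_neg] at this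
    rcases hz with rfl | rfl | rfl | rfl | rfl | rfl <;>
    · refine key _ (AddSubgroup.subset_closure ?_)
      simp

theorem lat_ne_half (hne : lat l (u + q) ≠ lat m (u + s)) :
    lat (-m) (-u + -s) ≠ lat (-l) (-u + -q) := by
  rw [lat_half, lat_half]; exact hne.symm

theorem cop_neg_iff : IsCoprime (-u).1 (-u).2 ↔ IsCoprime u.1 u.2 := by
  rw [Prod.fst_neg, Prod.snd_neg, IsCoprime.neg_neg_iff]

/-! ## Trees -/

theorem TN.half (hT : TN O N u v l q m s) : TN O N (-u) (-v) (-m) (-s) (-l) (-q) := hT.swap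

theorem TN.unhalf (hT : TN O N z w (-m) (-s) (-l) (-q)) : TN O N (-z) (-w) l q m s := by
  have := hT.swap
  simpa only [neg_neg] using this

theorem TN.half_iff : TN O N (-u) (-v) (-m) (-s) (-l) (-q) ↔ TN O N u v l q m s :=
  ⟨fun hT => by simpa only [neg_neg] using hT.swap, fun hT => hT.swap⟩

theorem Has6.unhalf (hT : Has6 O (z, w, -m, -s, -l, -q)) : Has6 O (-z, -w, l, q, m, s) := by
  have := hT.swap
  simpa only [neg_neg] using this

/-- **TRANSPORT**: a row proved on one side holds on the other side. `P` is the hypothesis, `Q` the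
conclusion, written for the tree `(u, v; l, q; m, s)`. -/
theorem TN.mirror {P Q : Z2 → Z2 → Z2 → Z2 → Z2 → Z2 → Prop}
    (hrow : ∀ u v l q m s : Z2, TN O N u v l q m s → P u v l q m s →
      ∃ u' v' l' q' m' s' : Z2, TN O N u' v' l' q' m' s' ∧ Q u' v' l' q' m' s')
    {u v l q m s : Z2} (hT : TN O N u v l q m s) (hP : P (-u) (-v) (-m) (-s) (-l) (-q)) :
    ∃ u' v' l' q' m' s' : Z2, TN O N u' v' l' q' m' s' ∧ Q (-u') (-v') (-m') (-s') (-l') (-q') := by
  obtain ⟨u', v', l', q', m', s', h1, h2⟩ := hrow _ _ _ _ _ _ hT.swap hP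
  exact ⟨-u', -v', -m', -s', -l', -q', h1.swap, by simpa only [neg_neg] using h2⟩

/-- level vectors after the half turn -/
theorem Lv.half (hL : Lv O N u v e p e' p' c a c' a') :
    Lv O N (-u) (-v) (-e') (-p') (-e) (-p) c' a' c a := by
  refine ⟨?_, hL.c0', hL.c0, hL.ca', hL.ca, ?_, ?_, ?_, ?_, ?_, ?_⟩
  · have := hL.tree.swap
    have e1 : -(p' - u) = -p' - -u := by abel
    have e2 : -(p - u) = -p - -u := by abel
    rwa [e1, e2] at this
  · rw [cr_neg_neg]; exact hL.ue'
  · rw [cr_neg_neg]; exact hL.ue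
  · rw [cr_neg_neg]; exact hL.pe'
  · rw [cr_neg_neg]; exact hL.pe
  · rw [smul_neg, smul_neg, hL.cp']
  · rw [smul_neg, smul_neg, hL.cp]

/-! ## Numbers of a tree -/

theorem par_half (h : cr u p = 0) : cr (-u) (-p) = 0 := by rw [cr_neg_neg]; exact h

/-- the conclusion `one content is one` after the half turn -/
theorem ct_half : ct (-u) (-m) (-s) = ct u m s := ct_neg u m s

/-- a roomy tree, with the long torus on the side of `L`: `K (A + b') ≤ a` -/
theorem roomy_L (hR : ¬ NoRoom O N K) : ∃ u v l q m s : Z2, TN O N u v l q m s ∧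
    K * (cr u v + ct u m s) ≤ cr u l + cr q l := by
  unfold NoRoom at hR
  push Not at hR
  obtain ⟨u, v, l, q, m, s, h1, h2, h3⟩ := hR
  by_cases h4 : K * (cr u v + ct u m s) ≤ cr u l + cr q l
  · exact ⟨u, v, l, q, m, s, ⟨h1, h2⟩, h4⟩
  · push Not at h4
    refine ⟨-u, -v, -m, -s, -l, -q, TN.swap ⟨h1, h2⟩, ?_⟩
    rw [cr_neg_neg, cr_neg_neg, cr_neg_neg, ct_neg]
    exact h3 h4

/-- a roomy tree, with the long torus on the side of `M`: `K (A + b) ≤ a'` -/
theorem roomy_M (hR : ¬ NoRoom O N K) : ∃ u v l q m s : Z2, TN O N u v l q m s ∧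
    K * (cr u v + ct u l q) ≤ cr u m + cr s m := by
  obtain ⟨u, v, l, q, m, s, h1, h2⟩ := roomy_L hR
  refine ⟨-u, -v, -m, -s, -l, -q, h1.swap, ?_⟩
  rw [cr_neg_neg, cr_neg_neg, cr_neg_neg, ct_neg]
  exact h2

/-! ## Rich tori -/

theorem RichL.neg_iff {L : AddSubgroup Z2} : RichL L (-u) (-m) K ↔ RichL L u m K := by
  unfold RichL
  have e : ∀ w : Z2, |cr (-u) w| = |cr u w| ∧ |cr w (-m)| = |cr w m| := by
    intro w
    rw [cr_negl, cr_negr, abs_neg, abs_neg]
    exact ⟨rfl, rfl⟩
  constructor <;> intro h w hw hw0 <;> have h1 := h w hw hw0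
  · rwa [cr_neg_neg, (e w).1, (e w).2] at h1
  · rwa [cr_neg_neg, (e w).1, (e w).2]

/-- `M` rich over `l + k p`, after the half turn -/
theorem RichL.half_iff : RichL (lat (-m) (-p')) (-u) (-l + k • (-p)) K ↔
    RichL (lat m p') u (l + k • p) K := by
  have e1 : (-l : Z2) + k • (-p) = -(l + k • p) := by rw [smul_neg]; abel
  rw [lat_neg, e1, RichL.neg_iff]

theorem Rich.half_iff : Rich (-u) (-m) (-p') (-l + k • (-p)) K ↔ Rich u m p' (l + k • p) K := by
  have e1 : (-l : Z2) + k • (-p) = -(l + k • p) := by rw [smul_neg]; abel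
  rw [e1]
  unfold Rich
  have e : ∀ i j : ℤ, |cr (-u) (i • (-m) + j • (-p'))| = |cr u (i • m + j • p')| ∧
      |cr (i • (-m) + j • (-p')) (-(l + k • p))| = |cr (i • m + j • p') (l + k • p)| := by
    intro i j
    have e2 : i • (-m) + j • (-p') = -(i • m + j • p') := by module
    rw [e2, cr_neg_neg, cr_neg_neg]
    exact ⟨rfl, rfl⟩
  constructor <;> intro h i j hij h1
  · have := h i j hij (by rw [(e i j).1, cr_neg_neg]; exact h1)
    rwa [(e i j).2, cr_neg_neg] at this
  · rw [(e i j).1, cr_neg_neg] at h1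
    have := h i j hij h1
    rwa [(e i j).2, cr_neg_neg]

/-- a block of rich slits after the half turn -/
theorem block_half {T : ℤ} (h : ∃ n : ℕ, ∀ k : ℤ, n * T ≤ k → k < n * T + T →
    RichL (lat m p') u (l + k • p) K) : ∃ n : ℕ, ∀ k : ℤ, n * T ≤ k → k < n * T + T →
      RichL (lat (-m) (-p')) (-u) (-l + k • (-p)) K := by
  obtain ⟨n, hn⟩ := h
  exact ⟨n, fun k k1 k2 => RichL.half_iff.2 (hn k k1 k2)⟩

theorem block_half' {n T : ℤ} (h : ∀ k : ℤ, n ≤ k → k < n + T →
    RichL (lat m p') u (l + k • p) K) : ∀ k : ℤ, n ≤ k → k < n + T →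
      RichL (lat (-m) (-p')) (-u) (-l + k • (-p)) K :=
  fun k k1 k2 => RichL.half_iff.2 (h k k1 k2)

/-! ## Centres -/

theorem Lg.half_iff : Lg (-u) (-v) (-m) (-l) (-z) ↔ Lg u v l m z := by
  unfold Lg
  rw [cr_neg_neg, cr_neg_neg, cr_neg_neg, cr_neg_neg, cr_neg_neg]
  constructor
  · rintro ⟨h1, h2, h3⟩; exact ⟨h2, h1, by linarith⟩
  · rintro ⟨h1, h2, h3⟩; exact ⟨h2, h1, by linarith⟩

theorem GLam_half (u x a b : Z2) : GLam (-u) (-x) (-a) (-b) = GLam u x a b := by
  unfold GLam
  rw [ct_neg, ct_neg]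

/-- the lattice of the centres: `v + l + m` becomes `-(v + l + m)` -/
theorem GLam_half' (u v l m a b : Z2) :
    GLam (-u) (-v + -m + -l) (-a) (-b) = GLam u (v + l + m) a b := by
  have : (-v : Z2) + -m + -l = -(v + l + m) := by abel
  rw [this, GLam_half]

theorem Bas.half (hb : Bas u x h g) : Bas (-u) (-x) (-h) (-g) := by
  obtain ⟨a, b, c, d, e1, e2, e3⟩ := hb.ex
  exact ⟨a, b, c, d, by rw [e1]; module, by rw [e2]; module, e3⟩

theorem RowSys.half {P : Z2 → Prop} {κ q : ℤ} (hr : RowSys P J κ h g q) :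
    RowSys (fun z => P (-z)) J κ (-h) (-g) q := by
  refine ⟨hr.1, hr.2.1, fun n n0 hn => ?_⟩
  obtain ⟨t0, ht⟩ := hr.2.2 n n0 hn
  refine ⟨t0, fun t h1 h2 => ?_⟩
  have e1 : -(n • (-h) + t • (-g)) = n • h + t • g := by module
  show P (-(n • (-h) + t • (-g)))
  rw [e1]
  exact ht t h1 h2

/-- an exit of the turned tree gives an exit of the tree -/
theorem TN.exit_unhalf (hT : ∃ z v' : Z2, ∃ i j : ℤ, IsCoprime i j ∧
      z = i • (-u) + j • (-v + -m + -l) ∧ TN O N z v' (-m) (-s) (-l) (-q)) :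
    ∃ z v' : Z2, ∃ i j : ℤ, IsCoprime i j ∧ z = i • u + j • (v + l + m) ∧
      TN O N z v' l q m s := by
  obtain ⟨z, v', i, j, h1, h2, h3⟩ := hT
  exact ⟨-z, -v', i, j, h1, by rw [h2]; module, h3.unhalf⟩

end Pool.Agent.H4G.Six
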