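import Mathlib

/-!
# No jumps (helper66)

An arithmetic progression which stays near fractions of small denominator has a rational step of
small denominator.
-/

set_option autoImplicit false

namespace Pool.Agent.H4G.Six

/-- two near fractions of small denominator are equal -/
theorem frac_eq_of_near {a b c d R : ℤ} {e : ℚ} (hb : 0 < b) (hd : 0 < d) (hbR : b ≤ R)
    (hdR : d ≤ R) (he : (R : ℚ) ^ 2 * e < 1) (h : |(a : ℚ) / b - c / d| ≤ e) :
    (a : ℚ) / b = c / d := by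
  have hb' : (0 : ℚ) < b := by exact_mod_cast hb
  have hd' : (0 : ℚ) < d := by exact_mod_cast hd
  have hbR' : (b : ℚ) ≤ R := by exact_mod_cast hbR
  have hdR' : (d : ℚ) ≤ R := by exact_mod_cast hdR
  have e1 : (a : ℚ) / b - c / d = (a * d - c * b : ℤ) / (b * d) := by
    push_cast
    field_simp
  have hbd : (0 : ℚ) < b * d := mul_pos hb' hd'
  have h0 : a * d - c * b = 0 := by
    by_contra hne
    have h1 : (1 : ℚ) ≤ |((a * d - c * b : ℤ) : ℚ)| := by
      exact_mod_cast Int.one_le_abs hne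
    rw [e1, abs_div, abs_of_pos hbd, div_le_iff₀ hbd] at h
    have he0 : 0 ≤ e := by
      by_contra h2
      push Not at h2
      nlinarith
    have h3 : (b : ℚ) * d ≤ R ^ 2 := by
      rw [pow_two]
      exact mul_le_mul hbR' hdR' hd'.le (hb'.le.trans hbR')
    nlinarith
  have h4 : (a : ℚ) / b - c / d = 0 := by rw [e1, h0]; simp
  linarith

/-- NO JUMPS: if `θ + k ω` is near a fraction of denominator at most `Q` for all `k` of a set with
gaps at most `G`, then `ω` is a fraction of denominator at most `G Q²`. -/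
theorem no_jump {θ ω ε : ℚ} {Q G : ℤ} {S : Set ℤ} (hQ : 1 ≤ Q) (hG : 1 ≤ G)
    (hS : ∀ n : ℤ, ∃ k ∈ S, n ≤ k ∧ k < n + G)
    (h : ∀ k ∈ S, ∃ α κ : ℤ, 0 < α ∧ α ≤ Q ∧ |θ + k * ω - κ / α| ≤ ε)
    (hs : ((G * Q ^ 3 : ℤ) : ℚ) ^ 2 * ((2 + 2 * G) * ε) < 1) :
    ∃ x y : ℤ, 0 < x ∧ x ≤ G * Q ^ 2 ∧ (x : ℚ) * ω = y := by
  obtain ⟨k1, k1S, -, -⟩ := hS 0
  obtain ⟨k2, k2S, k2a, k2b⟩ := hS (k1 + 1)
  obtain ⟨α1, κ1, a1, b1, c1⟩ := h k1 k1S
  obtain ⟨α2, κ2, a2, b2, c2⟩ := h k2 k2S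
  have hε : 0 ≤ ε := (abs_nonneg _).trans c1
  have a1' : (0 : ℚ) < α1 := by exact_mod_cast a1
  have a2' : (0 : ℚ) < α2 := by exact_mod_cast a2
  have hg0 : 0 < k2 - k1 := by linarith
  have hgG : k2 - k1 ≤ G := by linarith
  have hg0' : (0 : ℚ) < k2 - k1 := by exact_mod_cast hg0
  have hG' : (1 : ℚ) ≤ G := by exact_mod_cast hG
  have haa : α1 * α2 ≤ Q ^ 2 := by nlinarith
  have haa0 : 0 < α1 * α2 := mul_pos a1 a2
  have hx0 : 0 < (k2 - k1) * (α1 * α2) := mul_pos hg0 haa0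
  have hxG : (k2 - k1) * (α1 * α2) ≤ G * Q ^ 2 :=
    mul_le_mul hgG haa haa0.le (by linarith)
  have hx0' : (0 : ℚ) < (((k2 - k1) * (α1 * α2) : ℤ) : ℚ) := by exact_mod_cast hx0
  refine ⟨(k2 - k1) * (α1 * α2), κ2 * α1 - κ1 * α2, hx0, hxG, ?_⟩
  -- the difference
  obtain ⟨d, hd⟩ : ∃ d : ℚ, d = ω - (κ2 * α1 - κ1 * α2 : ℤ) / (((k2 - k1) * (α1 * α2) : ℤ) : ℚ) :=
    ⟨_, rfl⟩
  have hd1 : (k2 - k1 : ℚ) * d = (θ + k2 * ω - κ2 / α2) - (θ + k1 * ω - κ1 / α1) := by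
    rw [hd]
    push_cast
    field_simp
    ring
  have hd2 : |(k2 - k1 : ℚ) * d| ≤ 2 * ε := by
    rw [hd1]
    calc _ ≤ |θ + k2 * ω - κ2 / α2| + |θ + k1 * ω - κ1 / α1| := abs_sub _ _
      _ ≤ 2 * ε := by linarith
  have hd3 : |d| ≤ 2 * ε := by
    rw [abs_mul, abs_of_pos hg0'] at hd2
    have : (1 : ℚ) ≤ k2 - k1 := by exact_mod_cast hg0
    nlinarith [abs_nonneg d]
  by_contra hne
  have hdne : d ≠ 0 := by
    intro h0
    apply hne
    rw [h0] at hd
    have : ω = (κ2 * α1 - κ1 * α2 : ℤ) / (((k2 - k1) * (α1 * α2) : ℤ) : ℚ) := by linarith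
    rw [this]
    field_simp
  -- reduced values
  have red : ∀ k ∈ S, ∃ p q : ℤ, 0 < q ∧ q ≤ G * Q ^ 3 ∧ |θ + k * d - p / q| ≤ ε := by
    intro k hk
    obtain ⟨α, κ, a3, b3, c3⟩ := h k hk
    have a3' : (0 : ℚ) < α := by exact_mod_cast a3
    refine ⟨κ * ((k2 - k1) * (α1 * α2)) - k * (κ2 * α1 - κ1 * α2) * α,
      α * ((k2 - k1) * (α1 * α2)), mul_pos a3 hx0, ?_, ?_⟩
    · calc α * ((k2 - k1) * (α1 * α2)) ≤ Q * (G * Q ^ 2) :=
            mul_le_mul b3 hxG hx0.le (by linarith)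
        _ = G * Q ^ 3 := by ring
    · have e1 : θ + k * d - ((κ * ((k2 - k1) * (α1 * α2)) - k * (κ2 * α1 - κ1 * α2) * α : ℤ) : ℚ)
          / ((α * ((k2 - k1) * (α1 * α2)) : ℤ) : ℚ) = θ + k * ω - κ / α := by
        rw [hd]
        push_cast
        have : (k2 : ℚ) - k1 ≠ 0 := hg0'.ne'
        field_simp
        ring
      rw [e1]; exact c3
  obtain ⟨p0, q0, hq0, hq0', hr0⟩ := red k1 k1S
  -- all values stay near the same fraction
  have stay : ∀ n : ℕ, ∃ k ∈ S, k1 + n ≤ k ∧ |θ + k * d - p0 / q0| ≤ ε := by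
    intro n
    induction n with
    | zero => exact ⟨k1, k1S, by simp, hr0⟩
    | succ n ih =>
      obtain ⟨k, hk, hk1, hk2⟩ := ih
      obtain ⟨k', hk', hk1', hk2'⟩ := hS (k + 1)
      obtain ⟨p, q, hq, hq', hr⟩ := red k' hk'
      refine ⟨k', hk', by push_cast; linarith, ?_⟩
      have hstep : |((k' : ℚ) - k) * d| ≤ 2 * G * ε := by
        rw [abs_mul]
        have h1 : |(k' : ℚ) - k| ≤ G := by
          have h2 : (0 : ℚ) < k' - k := by
            have : 0 < k' - k := by linarith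
            exact_mod_cast this
          rw [abs_of_pos h2]
          have : k' - k ≤ G := by linarith
          exact_mod_cast this
        calc |(k' : ℚ) - k| * |d| ≤ G * (2 * ε) :=
              mul_le_mul h1 hd3 (abs_nonneg _) (by linarith)
          _ = 2 * G * ε := by ring
      have e2 : (p : ℚ) / q - p0 / q0 = (θ + k * d - p0 / q0) + ((k' : ℚ) - k) * d
          - (θ + k' * d - p / q) := by ring
      have h3 : |(p : ℚ) / q - p0 / q0| ≤ (2 + 2 * G) * ε := by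
        rw [e2]
        calc _ ≤ |(θ + k * d - p0 / q0) + ((k' : ℚ) - k) * d| + |θ + k' * d - p / q| := abs_sub _ _
          _ ≤ |θ + k * d - p0 / q0| + |((k' : ℚ) - k) * d| + |θ + k' * d - p / q| := by
              have := abs_add_le (θ + k * d - p0 / q0) (((k' : ℚ) - k) * d)
              linarith
          _ ≤ (2 + 2 * G) * ε := by linarith
      have h4 := frac_eq_of_near hq hq0 hq' hq0' hs h3
      rw [← h4]; exact hr
  -- but the values tend to infinity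
  obtain ⟨n, hn⟩ := exists_nat_gt (2 * ε / |d|)
  have hd0 : 0 < |d| := abs_pos.2 hdne
  rw [div_lt_iff₀ hd0] at hn
  obtain ⟨k, -, hk1, hk2⟩ := stay n
  have h5 : ((k : ℚ) - k1) * d = (θ + k * d - p0 / q0) - (θ + k1 * d - p0 / q0) := by ring
  have h6 : |((k : ℚ) - k1) * d| ≤ 2 * ε := by
    rw [h5]
    calc _ ≤ |θ + k * d - p0 / q0| + |θ + k1 * d - p0 / q0| := abs_sub _ _
      _ ≤ 2 * ε := by linarith
  rw [abs_mul] at h6
  have h7 : (n : ℚ) ≤ |(k : ℚ) - k1| := by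
    have h8 : (n : ℤ) ≤ k - k1 := by linarith
    have h9 : (n : ℚ) ≤ k - k1 := by exact_mod_cast h8
    exact h9.trans (le_abs_self _)
  nlinarith [abs_nonneg ((k : ℚ) - k1)]

end Pool.Agent.H4G.Six
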