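import Pool.Agent.H4G.Six.D2.Fork88
import Pool.Agent.H4G.Six.Can.Sv

/-!
# Content 1 with a larger area: the level family (helper88, after helper31)

`Prog A a c z x`: the normal form `NF A a c z x` is equivalent to a normal form with a larger `a`.
-/

set_option autoImplicit false

namespace Pool.Agent.H4G.Six

open Pool.Agent.H4G

variable {N : ℤ} {J Z : ℕ} {A a c z x : ℤ}

/-- in a normal form which is a state `z > 1` -/
theorem NF.z_gt (h : (NF A a c z x).Ok) (hc : 0 < c) (hz : 0 < z) : 1 < z := by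
  obtain ⟨⟨u, v, l, q, m, s⟩, hu, -, -, -, hM⟩ := h
  obtain ⟨h1, h2, h3⟩ := hM
  have hu' : u = (1, 0) := hu
  subst hu'
  have h5 : lat m ((1, 0) + s) = lat (x, c) (z, 0) := h3
  have h1' : 0 < cr ((1, 0) : Z2) m := h1
  have h2' : 0 < cr s m := h2
  by_contra h4
  have hz1 : z = 1 := by omega
  -- `c ∣ u × m`
  have hm : m ∈ lat (x, c) (z, 0) := by
    have : m ∈ lat m ((1, 0) + s) := mem_lat.2 ⟨1, 0, by simp⟩
    rw [← h5]; exact this
  obtain ⟨i, j, hij⟩ := mem_lat.1 hm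
  have e1 : cr ((1, 0) : Z2) m = i * c := by
    rw [← hij]; simp [cr]
  have hi : 1 ≤ i := by
    by_contra hi
    have : i * c ≤ 0 := mul_nonpos_of_nonpos_of_nonneg (by omega) hc.le
    omega
  -- the area
  have k1 : ((x, c) : Z2) ∈ lat m ((1, 0) + s) := by
    rw [h5]; exact mem_lat.2 ⟨1, 0, by simp⟩
  have k2 : ((z, 0) : Z2) ∈ lat m ((1, 0) + s) := by
    rw [h5]; exact mem_lat.2 ⟨0, 1, by simp⟩
  obtain ⟨i1, j1, e2⟩ := mem_lat.1 k1
  obtain ⟨i2, j2, e3⟩ := mem_lat.1 k2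
  have e4 : cr ((z, 0) : Z2) (x, c) = z * c := by simp [cr]
  have e5 : cr ((z, 0) : Z2) (x, c) = (i1 * j2 - i2 * j1) * cr ((1, 0) + s) m := by
    rw [← e2, ← e3]
    simp only [cr, Prod.fst_add, Prod.snd_add, Prod.smul_fst, Prod.smul_snd, smul_eq_mul]
    ring
  have e6 : cr ((1, 0) + s) m = i * c + cr s m := by
    rw [cr_add_left, e1]
  have e7 : 0 < cr ((1, 0) + s) m := by
    rw [cr_add_left]; linarith
  have e8 : cr ((1, 0) + s) m ≤ c := by
    have h5 : cr ((1, 0) + s) m ∣ c := by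
      refine ⟨i1 * j2 - i2 * j1, ?_⟩
      have := e5
      rw [e4, hz1, one_mul] at this
      rw [this]; ring
    exact Int.le_of_dvd hc h5
  rw [e6] at e8
  have : c ≤ i * c := le_mul_of_one_le_left hc.le hi
  linarith

/-- the state is equivalent to one with a larger first area -/
def Prog (A a c z x : ℤ) : Prop := ∃ A' a' c' z' x' : ℤ, 0 < A' ∧ a < a' ∧ 0 < c' ∧ 1 < z' ∧
  A' + a' + c' * z' = A + a + c * z ∧ SEq6 (NF A a c z x) (NF A' a' c' z' x')

theorem Prog.of {x' : ℤ} (h : SEq6 (NF A a c z x) (NF A a c z x')) (hp : Prog A a c z x') :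
    Prog A a c z x := by
  obtain ⟨A', a', c', z', x', h1, h2, h3, h4, h5, h6⟩ := hp
  exact ⟨A', a', c', z', x', h1, h2, h3, h4, h5, h.trans h6⟩

/-- `(X, F)` is a primitive vector of `M` with height below the area -/
def Vec (c z x X F : ℤ) : Prop := ∃ w y : ℤ, IsCoprime w y ∧ 0 < y ∧ y < z ∧
  X = y * x + w * z ∧ F = c * y

theorem Vec.F0 {X F : ℤ} (h : Vec c z x X F) (hc : 0 < c) : 0 < F := by
  obtain ⟨w, y, -, h1, -, -, h2⟩ := h
  rw [h2]; positivity

theorem Vec.F1 {X F : ℤ} (h : Vec c z x X F) (hc : 0 < c) : F < c * z := by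
  obtain ⟨w, y, -, -, h1, -, h2⟩ := h
  rw [h2]
  exact mul_lt_mul_of_pos_left h1 hc

/-- one exit of level 1 -/
theorem prog_of {X F P k : ℤ} (hA : 0 < A) (hc : 0 < c) (ha : 1 < a) (hv : Vec c z x X F)
    (hP : 1 < P) (Y0 : 0 < P * F - k * (A + 1 + F) * X)
    (XY : P + (P * F - k * (A + 1 + F) * X) < A + 1 + F)
    (cl : IsCoprime P (k * (A + 1 + F) * (a - 1))) : Prog A a c z x := by
  obtain ⟨w, y, h1, h2, h3, h4, h5⟩ := hv
  have hPk : IsCoprime P k := (cl.of_mul_right_left).of_mul_right_left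
  obtain ⟨c', z', x1', k1, k2, k3, k4⟩ := nf_exit1 (x1 := x) (x := 0) (y := 1) (W := A + 1 + F)
    (X := P) (Y := P * F - k * (A + 1 + F) * X) hA hc isCoprime_one_right h1 (by norm_num) ha
    h2 h3 h4 h5 rfl hPk (by ring) rfl (by linarith) Y0 XY (by
      have e : P - 0 * (k * (A + 1 + F)) = P := by ring
      rw [e]; exact cl)
  refine ⟨_, _, c', z', x1', ?_, ?_, k1, NF.z_gt k4.ok' k1 k2, ?_, k4⟩
  · linarith
  · linarith
  · rw [k3]; ring


/-- the sieve on one linear form -/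
theorem sieve1 (hB : Bg N J Z) {D0 α β : ℤ} (hD : 0 < D0) (hZ : D0 ≤ (2 * N) ^ 20)
    (hloc : ∀ p : ℕ, p.Prime → (p : ℤ) ∣ D0 → ∃ y : ℤ, ¬ (p : ℤ) ∣ α * y + β) (z0 : ℤ) :
    ∃ z, z0 ≤ z ∧ z < z0 + J ∧ IsCoprime (α * z + β) D0 := by
  obtain ⟨z, h1, h2, h3⟩ := sieveP (k := 1) (e := 1) hB.cap hD (hB.le (n := 20) le_rfl hZ)
    (by norm_num) (fun _ p => p ∣ D0) (fun _ => α) (fun _ => β) (fun _ _ _ h => h)
    (fun p hp => by
      by_cases hd : (p : ℤ) ∣ D0
      · obtain ⟨y, hy⟩ := hloc p hp hd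
        exact ⟨y, fun _ _ => hy⟩
      · exact ⟨0, fun _ h => absurd h hd⟩) z0
  refine ⟨z, h1, by simpa using h2, isCoprime_of_prime fun r hr h4 h5 => ?_⟩
  exact h3 r hr 0 h4 h5

/-- a product of three numbers up to `N` -/
theorem le_N3 (hB : Bg N J Z) {a b c : ℤ} (ha : 0 ≤ a) (hb : 0 ≤ b) (hc : 0 ≤ c) (ha' : a ≤ N)
    (hb' : b ≤ N) (hc' : c ≤ N) : a * b * c ≤ (2 * N) ^ 20 := by
  have h1 := hB.N1
  have h2 : a * b * c ≤ N * N * N :=
    mul_le_mul (mul_le_mul ha' hb' hb (by linarith)) hc' hc (by positivity)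
  have h3 : N * N * N ≤ (2 * N) ^ 3 := by
    have : (2 * N) ^ 3 = 8 * (N * N * N) := by ring
    rw [this]
    have : 0 ≤ N * N * N := by positivity
    linarith
  exact h2.trans (h3.trans (pow_le_pow_right₀ (by linarith) (by norm_num)))

/-- **THE LEVEL FAMILY** -/
theorem lev (hB : Bg N J Z) (hA : 0 < A) (ha : 1 < a) (hc : 0 < c)
    (hN : A + a + c * z = N) {X F i1 t1 : ℤ} (hv : Vec c z x X F) (hX : X ≠ 0) (hi : 1 ≤ i1)
    (ht : 0 ≤ t1) (hiN : i1 ≤ N) (h1 : (A + 1) * |X| * (J * i1) < (1 + J * t1) * F)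
    (h2 : J * t1 * (1 + F) < A * (1 + J * i1 * |X|)) : Prog A a c z x := by
  have hF0 := hv.F0 hc
  have hF1 := hv.F1 hc
  have hJ := hB.J1
  have hX0 : 1 ≤ |X| := Int.one_le_abs hX
  set om : ℤ := t1 + i1 * |X| with hom
  have hom1 : 1 ≤ om := by
    have : 1 * 1 ≤ i1 * |X| := mul_le_mul hi hX0 (by norm_num) (by linarith)
    linarith
  set W : ℤ := A + 1 + F with hW
  have hW0 : 0 < W := by linarith
  obtain ⟨h, k1, k2, k3⟩ := sieve1 hB (D0 := i1 * W * (a - 1)) (α := om) (β := 1)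
    (mul_pos (mul_pos (by linarith) hW0) (by linarith))
    (le_N3 hB (by linarith) hW0.le (by linarith) hiN (by linarith) (by linarith))
    (fun p hp _ => ⟨0, by rw [mul_zero, zero_add]; exact prime_not_dvd_one hp⟩) 1
  have kJ : h ≤ J := by omega
  set k : ℤ := h * i1 * X.sign with hk
  have ekX : k * X = h * i1 * |X| := by
    rw [hk, mul_assoc, ← Int.sign_mul_self_eq_abs]
  have hsign : IsCoprime (om * h + 1) X.sign := by
    rcases lt_or_gt_of_ne hX with h0 | h0
    · rw [Int.sign_eq_neg_one_of_neg h0]; exact isCoprime_one_right.neg_right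
    · rw [Int.sign_eq_one_of_pos h0]; exact isCoprime_one_right
  have hcop : IsCoprime (om * h + 1) (k * W * (a - 1)) := by
    have c1 : IsCoprime (om * h + 1) h := ⟨1, -om, by ring⟩
    have e : k * W * (a - 1) = h * (i1 * W * (a - 1)) * X.sign := by rw [hk]; ring
    rw [e]
    exact (c1.mul_right k3).mul_right hsign
  -- the bounds
  set δ : ℤ := t1 * F - i1 * |X| * (A + 1) with hδ
  have eY : (om * h + 1) * F - k * W * X = F + h * δ := by
    have : k * W * X = (k * X) * W := by ring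
    rw [this, ekX, hδ, hom, hW]; ring
  have g1 : 0 < F + J * δ := by
    have : F + J * δ = (1 + J * t1) * F - (A + 1) * |X| * (J * i1) := by rw [hδ]; ring
    rw [this]; linarith
  have g2 : J * (om + δ) < A := by
    have : J * (om + δ) = J * t1 * (1 + F) - A * (J * i1 * |X|) := by rw [hδ, hom]; ring
    rw [this]; linarith
  refine prog_of (X := X) (F := F) (P := om * h + 1) (k := k) hA hc ha hv ?_ ?_ ?_ hcop
  · have : 1 * 1 ≤ om * h := mul_le_mul hom1 k1 (by norm_num) (by linarith)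
    linarith
  · rw [← hW, eY]
    rcases le_or_gt 0 δ with h0 | h0
    · have : 0 ≤ h * δ := mul_nonneg (by linarith) h0
      linarith
    · have : J * δ ≤ h * δ := mul_le_mul_of_nonpos_right kJ h0.le
      linarith
  · rw [← hW, eY]
    have e3 : om * h + 1 + (F + h * δ) = h * (om + δ) + 1 + F := by ring
    rw [e3]
    have : h * (om + δ) < A := by
      rcases le_or_gt 0 (om + δ) with h0 | h0
      · exact (mul_le_mul_of_nonneg_right kJ h0).trans_lt g2
      · have : h * (om + δ) ≤ 0 := mul_nonpos_of_nonneg_of_nonpos (by linarith) h0.le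
        linarith
    linarith

/-- the vertical vector -/
theorem room0 (hB : Bg N J Z) (hA : 0 < A) (ha : 1 < a) (hc : 0 < c)
    (hN : A + a + c * z = N) {F : ℤ} (hv : Vec c z x 0 F) (h : J * (F + 1) < A) :
    Prog A a c z x := by
  have hF0 := hv.F0 hc
  have hF1 := hv.F1 hc
  have hJ := hB.J1
  set W : ℤ := A + 1 + F with hW
  have hW0 : 0 < W := by linarith
  obtain ⟨P, k1, k2, k3⟩ := sieve1 hB (D0 := 1 * W * (a - 1)) (α := 1) (β := 0)
    (mul_pos (mul_pos (by norm_num) hW0) (by linarith))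
    (le_N3 hB (by norm_num) hW0.le (by linarith) hB.N1 (by linarith) (by linarith))
    (fun p hp _ => ⟨1, by rw [mul_one, add_zero]; exact prime_not_dvd_one hp⟩) 2
  rw [one_mul, add_zero] at k3
  refine prog_of (X := 0) (F := F) (P := P) (k := 1) hA hc ha hv (by linarith) ?_ ?_ k3
  · rw [mul_zero, sub_zero]
    exact mul_pos (by linarith) hF0
  · rw [mul_zero, sub_zero]
    have : P * (F + 1) ≤ (J + 1) * (F + 1) := mul_le_mul_of_nonneg_right (by omega) (by linarith)
    nlinarith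

/-- the first coordinate is `± 1` -/
theorem room1 (hB : Bg N J Z) (hA : 0 < A) (ha : 1 < a) (hc : 0 < c)
    (hN : A + a + c * z = N) {X F : ℤ} (hv : Vec c z x X F) (hX : |X| = 1) (hF : 2 ≤ F)
    (h : (2 * J + 2) * (F + 1) ≤ A) : Prog A a c z x := by
  have hF1 := hv.F1 hc
  have hJ := hB.J1
  set W : ℤ := A + 1 + F with hW
  have hW0 : 0 < W := by linarith
  have hX' : X ≠ 0 := by rintro rfl; simp at hX
  obtain ⟨P, k1, k2, k3⟩ := sieve1 hB (D0 := 1 * W * (a - 1)) (α := 1) (β := 0)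
    (mul_pos (mul_pos (by norm_num) hW0) (by linarith))
    (le_N3 hB (by norm_num) hW0.le (by linarith) hB.N1 (by linarith) (by linarith))
    (fun p hp _ => ⟨1, by rw [mul_one, add_zero]; exact prime_not_dvd_one hp⟩) (W / F + 1)
  rw [one_mul, add_zero] at k3
  have d1 : F * (W / F) ≤ W := Int.mul_ediv_self_le (by linarith)
  have d2 : W < F * (W / F) + F := Int.lt_mul_ediv_self_add (by linarith)
  have hsign : IsCoprime P X.sign := by
    rcases lt_or_gt_of_ne hX' with h0 | h0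
    · rw [Int.sign_eq_neg_one_of_neg h0]; exact isCoprime_one_right.neg_right
    · rw [Int.sign_eq_one_of_pos h0]; exact isCoprime_one_right
  have ekX : X.sign * W * X = W := by
    have : X.sign * X = 1 := by rw [Int.sign_mul_self_eq_abs, hX]
    linear_combination W * this
  have q1 : 1 ≤ W / F := by
    rw [Int.le_ediv_iff_mul_le (by linarith)]; linarith
  refine prog_of (X := X) (F := F) (P := P) (k := X.sign) hA hc ha hv (by linarith) ?_ ?_ ?_
  · rw [← hW, ekX]
    have : F * (W / F + 1) ≤ F * P := mul_le_mul_of_nonneg_left k1 (by linarith)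
    linarith
  · rw [← hW, ekX]
    -- `P (1 + F) < 2 W`
    have g1 : P ≤ W / F + J := by omega
    have g2 : P * (1 + F) ≤ (W / F + J) * (1 + F) :=
      mul_le_mul_of_nonneg_right g1 (by linarith)
    have g3 : 2 * (W / F) ≤ W := by
      have : 2 * (W / F) ≤ F * (W / F) := mul_le_mul_of_nonneg_right hF (by linarith)
      linarith
    have g4 : (W / F + J) * (1 + F) = W / F + F * (W / F) + J * (1 + F) := by ring
    have g5 : 2 * (J * (1 + F)) < W := by nlinarith
    nlinarith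
  · have e : X.sign * W * (a - 1) = X.sign * (1 * W * (a - 1)) := by ring
    rw [e]
    exact hsign.mul_right k3


/-- Dirichlet for integers -/
theorem dirichlet_int {R M : ℤ} (hM : 0 < M) (hR : 0 ≤ R) {Q : ℕ} (hQ : 0 < Q) :
    ∃ t k : ℤ, 0 < k ∧ k ≤ Q ∧ 0 ≤ t ∧ (k * R - t * M) * (Q + 1) ≤ M ∧
      (t * M - k * R) * (Q + 1) ≤ M := by
  obtain ⟨t, k, h1, h2, h3⟩ := Real.exists_int_int_abs_mul_sub_le ((R : ℝ) / M) hQ
  have hM' : (0 : ℝ) < M := by exact_mod_cast hM
  have hQ' : (0 : ℝ) < (Q : ℝ) + 1 := by positivity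
  obtain ⟨h4, h5⟩ := abs_le.1 h3
  have e1 : ((k : ℝ) * (R / M) - t) = (k * R - t * M) / M := by field_simp
  rw [e1] at h4 h5
  have h6 : ((k * R - t * M : ℤ) : ℝ) * (Q + 1) ≤ M := by
    have := (div_le_div_iff₀ hM' hQ').1 h5
    push_cast
    linarith
  have h7 : ((t * M - k * R : ℤ) : ℝ) * (Q + 1) ≤ M := by
    have h8 : ((t : ℝ) * M - k * R) / M ≤ 1 / (Q + 1) := by
      have : ((t : ℝ) * M - k * R) / M = -((k * R - t * M) / M) := by ring
      rw [this]; linarith
    have := (div_le_div_iff₀ hM' hQ').1 h8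
    push_cast
    linarith
  have h6' : (k * R - t * M) * (Q + 1) ≤ M := by exact_mod_cast h6
  have h7' : (t * M - k * R) * (Q + 1) ≤ M := by exact_mod_cast h7
  refine ⟨t, k, h1, h2, ?_, h6', h7'⟩
  by_contra ht
  have ht' : t ≤ -1 := by omega
  have hQ1 : (1 : ℤ) ≤ Q := by exact_mod_cast hQ
  have g1 : 0 ≤ k * R := mul_nonneg h1.le hR
  have g2 : M ≤ k * R - t * M := by nlinarith
  have g3 : M * (Q + 1) ≤ (k * R - t * M) * (Q + 1) := mul_le_mul_of_nonneg_right g2 (by linarith)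
  nlinarith

/-- **THE LEVEL FAMILY WITH THE BEST DIRECTION** -/
theorem lev_dir (hB : Bg N J Z) (hA : 0 < A) (ha : 1 < a) (hc : 0 < c)
    (hN : A + a + c * z = N) {X F : ℤ} {Q : ℕ} (hv : Vec c z x X F) (hX : X ≠ 0) (hQ : 0 < Q)
    (hQN : (Q : ℤ) ≤ N) (h1 : (F + 1) * J < A * (Q + 1))
    (h2 : J * (F * (F + 1)) + J * Q * |X| * (A + 1 + F) * (Q + 1) < F * (F + 1) * (Q + 1)) :
    Prog A a c z x := by
  have hF0 := hv.F0 hc
  have hJ := hB.J1
  have hX0 : 1 ≤ |X| := Int.one_le_abs hX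
  have hQ1 : (1 : ℤ) ≤ Q := by exact_mod_cast hQ
  obtain ⟨t, k, k1, k2, k3, k4, k5⟩ := dirichlet_int (R := |X| * A) (M := F + 1) (by linarith)
    (by positivity) hQ
  refine lev hB hA ha hc hN hv hX (i1 := k) (t1 := t) (by omega) k3 (by linarith) ?_ ?_
  · -- multiply by `(F + 1) (Q + 1)`
    have g1 : 0 < (F + 1) * ((Q : ℤ) + 1) := mul_pos (by linarith) (by linarith)
    have e : ((1 + J * t) * F - (A + 1) * |X| * (J * k)) * ((F + 1) * (Q + 1)) =
        F * (F + 1) * (Q + 1) - J * F * ((k * (|X| * A) - t * (F + 1)) * (Q + 1)) -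
          J * k * |X| * (A + 1 + F) * (Q + 1) := by ring
    have g2 : J * F * ((k * (|X| * A) - t * (F + 1)) * (Q + 1)) ≤ J * F * (F + 1) :=
      mul_le_mul_of_nonneg_left k4 (by positivity)
    have g3 : J * k * |X| * (A + 1 + F) * (Q + 1) ≤ J * Q * |X| * (A + 1 + F) * (Q + 1) := by
      have hp : 0 ≤ (J : ℤ) * |X| * (A + 1 + F) * (Q + 1) :=
        mul_nonneg (mul_nonneg (by positivity) (by linarith)) (by linarith)
      have := mul_le_mul_of_nonneg_right k2 hp
      nlinarith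
    have g4 : 0 < ((1 + J * t) * F - (A + 1) * |X| * (J * k)) * ((F + 1) * (Q + 1)) := by
      rw [e]; nlinarith
    have := (pos_iff_pos_of_mul_pos g4).2 g1
    linarith
  · have g1 : 0 < ((Q : ℤ) + 1) := by linarith
    have e : (A * (1 + J * k * |X|) - J * t * (1 + F)) * (Q + 1) =
        A * (Q + 1) - J * ((t * (F + 1) - k * (|X| * A)) * (Q + 1)) := by ring
    have g2 : J * ((t * (F + 1) - k * (|X| * A)) * (Q + 1)) ≤ J * (F + 1) :=
      mul_le_mul_of_nonneg_left k5 (by linarith)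
    have g4 : 0 < (A * (1 + J * k * |X|) - J * t * (1 + F)) * (Q + 1) := by
      rw [e]; linarith
    have := (pos_iff_pos_of_mul_pos g4).2 g1
    linarith

end Pool.Agent.H4G.Six
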