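import Pool.Agent.H4G.Six.D2.Fork88
import Pool.Agent.H4G.Six.Can.C11L2

/-!
# `b = 1`, the first torus is long (helper35): exits `l = (a, η)`, `m = (X, F)` fixed

The slit is `(α + k (a + X), k W)`, `W = A + η + F`; with `δ = α F - k A X` it is a centre for a
window of values of `η` as soon as `0 < δ < A + F`.
-/

set_option autoImplicit false

namespace Pool.Agent.H4G.Six

open Pool.Agent.H4G

variable {N : ℤ} {J Z : ℕ}

/-- the inequalities along the window -/
theorem win35 {A F X a k α δ P q η E j : ℤ} (hδ : δ = α * F - k * A * X) (hq : q = α + k * X)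
    (hP : P = α + k * (a + X)) (k0 : 0 < k) (X0 : 0 < X) (α0 : 0 < α) (δ1 : δ < A + F)
    (P0 : 0 < P) (w1 : (j + 1) * (k * X * q) ≤ δ * P)
    (w2 : (j + 1) * ((α - 1) * q) ≤ (A + F - δ) * P)
    (hE : E = q * η - k * (A + F) * a) (E1 : E ≤ j * q) :
    P * η - k * (A + η + F) * a = E ∧ 0 < P * F - k * (A + η + F) * X ∧
      E + (P * F - k * (A + η + F) * X) < A + η + F := by
  have q0 : 0 < q := by rw [hq]; positivity
  have e1 : P * η - k * (A + η + F) * a = E := by rw [hE, hq, hP]; ring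
  have e2 : q * (P * F - k * (A + η + F) * X) = δ * P - k * X * E := by
    rw [hE, hδ, hq, hP]; ring
  have e3 : q * (A + η + F - E - (P * F - k * (A + η + F) * X)) =
      (A + F - δ) * P - (α - 1) * E := by
    rw [hE, hδ, hq, hP]; ring
  refine ⟨e1, ?_, ?_⟩
  · have h1 : k * X * E ≤ k * X * (j * q) := mul_le_mul_of_nonneg_left E1 (by positivity)
    have h2 : 0 < k * X * q := by positivity
    have h3 : 0 < q * (P * F - k * (A + η + F) * X) := by rw [e2]; nlinarith
    exact (pos_iff_pos_of_mul_pos h3).1 q0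
  · have h1 : (α - 1) * E ≤ (α - 1) * (j * q) :=
      mul_le_mul_of_nonneg_left E1 (by linarith)
    have h2 : 0 ≤ (α - 1) * q := mul_nonneg (by linarith) q0.le
    have h3 : 0 < q * (A + η + F - E - (P * F - k * (A + η + F) * X)) := by
      rw [e3]
      rcases (by omega : α = 1 ∨ 1 < α) with h | h
      · rw [h]
        have : 0 < (A + F - δ) * P := mul_pos (by linarith) P0
        linarith
      · have h4 : 0 < (α - 1) * q := mul_pos (by linarith) q0
        nlinarith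
    have := (pos_iff_pos_of_mul_pos h3).1 q0
    linarith

/-- the sieve for `η` -/
theorem sv35 (hB : Bg N J Z) {D1 R T s r a B : ℤ} (h1 : D1 ≠ 0) (h2 : R ≠ 0) (h3 : T ≠ 0)
    (hb : |D1| * |R| * |T| ≤ (2 * N) ^ 20)
    (hs : ∀ p : ℕ, p.Prime → (p : ℤ) ∣ T → ¬ (p : ℤ) ∣ s) (hr : R ∣ r)
    (h2' : ∃ y : ℤ, ((2 : ℤ) ∣ D1 → ¬ (2 : ℤ) ∣ y - a) ∧ ((2 : ℤ) ∣ R → ¬ (2 : ℤ) ∣ y + B) ∧
      ((2 : ℤ) ∣ T → ¬ (2 : ℤ) ∣ s * (y + B) - r)) (η0 : ℤ) :
    ∃ η, η0 ≤ η ∧ η < η0 + J ∧ ∀ p : ℕ, p.Prime → ((p : ℤ) ∣ D1 → ¬ (p : ℤ) ∣ η - a) ∧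
      ((p : ℤ) ∣ R → ¬ (p : ℤ) ∣ η + B) ∧ ((p : ℤ) ∣ T → ¬ (p : ℤ) ∣ s * (η + B) - r) := by
  classical
  have hD0 : 0 < |D1| * |R| * |T| :=
    mul_pos (mul_pos (abs_pos.2 h1) (abs_pos.2 h2)) (abs_pos.2 h3)
  have hDZ : |D1| * |R| * |T| ≤ (Z : ℤ) := hB.le (n := 20) le_rfl hb
  -- at a prime dividing `R` the third condition follows from the second
  have follow : ∀ p : ℕ, p.Prime → ∀ y : ℤ, (p : ℤ) ∣ R → ¬ (p : ℤ) ∣ y + B → (p : ℤ) ∣ T →
      ¬ (p : ℤ) ∣ s * (y + B) - r := by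
    intro p hp y hR hy hT hd
    have hpp := Nat.prime_iff_prime_int.1 hp
    have h4 : (p : ℤ) ∣ s * (y + B) := by
      have := dvd_add hd (hR.trans hr)
      rwa [sub_add_cancel] at this
    rcases hpp.dvd_or_dvd h4 with h | h
    · exact hs p hp hT h
    · exact hy h
  obtain ⟨η, k1, k2, k3⟩ := sieveLin (k := 2) (e := 1) hB.cap
    (D := (|D1| * |R| * |T|).natAbs) (by omega) (by omega) (by norm_num)
    (fun p => ![if (p : ℤ) ∣ D1 then 1 else 0,
      if (p : ℤ) ∣ R then 1 else if (p : ℤ) ∣ T then s else 0])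
    (fun p => ![if (p : ℤ) ∣ D1 then -a else 1,
      if (p : ℤ) ∣ R then B else if (p : ℤ) ∣ T then s * B - r else 1])
    (fun p hp _ => by
      have one : ¬ (p : ℤ) ∣ (1 : ℤ) := prime_not_dvd_one hp
      by_cases hp2 : p = 2
      · right
        subst hp2
        obtain ⟨y, y1, y2, y3⟩ := h2'
        refine ⟨y, fun i => ?_⟩
        fin_cases i
        · simp only [Nat.cast_ofNat, Fin.zero_eta, Matrix.cons_val_zero]
          by_cases hd : (2 : ℤ) ∣ D1
          · simp only [hd, if_true, one_mul]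
            have := y1 hd
            rwa [sub_eq_add_neg] at this
          · simp only [hd, if_false, zero_mul, zero_add]; exact one
        · simp only [Nat.cast_ofNat, Fin.mk_one, Matrix.cons_val_one, Matrix.cons_val_fin_one]
          by_cases hR : (2 : ℤ) ∣ R
          · simp only [hR, if_true, one_mul]; exact y2 hR
          · simp only [hR, if_false]
            by_cases hT : (2 : ℤ) ∣ T
            · simp only [hT, if_true]
              have := y3 hT
              have e : s * (y + B) - r = s * y + (s * B - r) := by ring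
              rwa [e] at this
            · simp only [hT, if_false, zero_mul, zero_add]; exact one
      · left
        have hp3 : 2 < p := lt_of_le_of_ne hp.two_le (Ne.symm hp2)
        refine ⟨hp3, fun i => ?_⟩
        fin_cases i
        · simp only [Fin.zero_eta, Matrix.cons_val_zero]
          by_cases hd : (p : ℤ) ∣ D1
          · simp only [hd, if_true]; intro h; exact absurd h one
          · simp only [hd, if_false]; intro _; exact one
        · simp only [Fin.mk_one, Matrix.cons_val_one, Matrix.cons_val_fin_one]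
          by_cases hR : (p : ℤ) ∣ R
          · simp only [hR, if_true]; intro h; exact absurd h one
          · simp only [hR, if_false]
            by_cases hT : (p : ℤ) ∣ T
            · simp only [hT, if_true]; intro h; exact absurd h (hs p hp hT)
            · simp only [hT, if_false]; intro _; exact one) η0
  rw [pow_one] at k2
  refine ⟨η, k1, k2, fun p hp => ?_⟩
  have hdvd : ∀ x : ℤ, (p : ℤ) ∣ x → x ∣ |D1| * |R| * |T| →
      p ∣ (|D1| * |R| * |T|).natAbs := fun x hx hx' => Int.natCast_dvd.1 (hx.trans hx')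
  have d1 : D1 ∣ |D1| * |R| * |T| := (((dvd_abs _ _).2 dvd_rfl).mul_right _).mul_right _
  have d2 : R ∣ |D1| * |R| * |T| := (((dvd_abs _ _).2 dvd_rfl).mul_left _).mul_right _
  have d3 : T ∣ |D1| * |R| * |T| := ((dvd_abs _ _).2 dvd_rfl).mul_left _
  have c2 : (p : ℤ) ∣ R → ¬ (p : ℤ) ∣ η + B := by
    intro hd
    have := k3 p hp (hdvd _ hd d2) 1
    simpa only [Matrix.cons_val_one, Matrix.cons_val_fin_one, hd, if_true, one_mul] using this
  refine ⟨fun hd => ?_, c2, fun hd => ?_⟩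
  · have := k3 p hp (hdvd _ hd d1) 0
    simp only [Matrix.cons_val_zero, hd, if_true, one_mul] at this
    rwa [← sub_eq_add_neg] at this
  · by_cases hR : (p : ℤ) ∣ R
    · exact follow p hp η hR (c2 hR) hd
    · have := k3 p hp (hdvd _ hd d3) 1
      simp only [Matrix.cons_val_one, Matrix.cons_val_fin_one, hd, hR, if_true, if_false] at this
      have e : s * (η + B) - r = s * η + (s * B - r) := by ring
      rwa [e]

/-- **THE EXIT** to contents (1,1) over `l = (a, η)` and the fixed vector `m = (X, F)` -/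
theorem core35 (hB : Bg N J Z) {A a a1 X F k α δ P q w y' R T s r D1 e1 e2 g1 g2 : ℤ}
    (hA : 0 < A) (hN : A + a + a1 = N) (ha1 : a1 = g1 * e2 - g2 * e1)
    (hwy : IsCoprime w y') (hX : X = y' * e1 + w * g1) (hF : F = y' * e2 + w * g2)
    (X0 : 0 < X) (F0 : 0 < F) (Fa : F < a1) (k0 : 0 < k) (α0 : 0 < α) (hαk : IsCoprime α k)
    (hδ : δ = α * F - k * A * X) (δ0 : 0 < δ) (δ1 : δ < A + F)
    (hq : q = α + k * X) (hP : P = α + k * (a + X)) (hD : D1 = α + k * X - k * (A + F))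
    (hD0 : D1 ≠ 0) (hJa : (J : ℤ) ^ 157 ≤ a)
    (w1 : ((J : ℤ) + 1) * (k * X * q) ≤ δ * P)
    (w2 : ((J : ℤ) + 1) * ((α - 1) * q) ≤ (A + F - δ) * P)
    (w3 : 2 * (k * (A + F)) ≤ q)
    (hR0 : R ≠ 0) (hT0 : T ≠ 0) (hbd : |D1| * |R| * |T| ≤ (2 * N) ^ 20)
    (hPR : P ∣ R) (hRr : R ∣ r) (hs : ∀ p : ℕ, p.Prime → (p : ℤ) ∣ T → ¬ (p : ℤ) ∣ s)
    (h2' : ∃ y : ℤ, ((2 : ℤ) ∣ D1 → ¬ (2 : ℤ) ∣ y - a) ∧
      ((2 : ℤ) ∣ R → ¬ (2 : ℤ) ∣ y + (A + F)) ∧
      ((2 : ℤ) ∣ T → ¬ (2 : ℤ) ∣ s * (y + (A + F)) - r))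
    (hM : ∀ W : ℤ, (∀ p : ℕ, p.Prime → (p : ℤ) ∣ R → ¬ (p : ℤ) ∣ W) →
      (∀ p : ℕ, p.Prime → (p : ℤ) ∣ T → ¬ (p : ℤ) ∣ s * W - r) →
      IsCoprime (P * e2 - k * W * e1 - w * (k * W)) (P * g2 - k * W * g1 + y' * (k * W))) :
    ∃ A' a' a1' ζ : ℤ, 0 < A' ∧ 1 < a' ∧ 1 < a1' ∧ A' + a' + a1' = N ∧ (J : ℤ) ^ 155 ≤ a' ∧
      SEq6 (NL A a (e1, e2) (g1, g2)) (PG A' a' a1' ζ) := by
  have hJ := hB.J20
  have hJ1 : (1 : ℤ) ≤ (J : ℤ) := hB.J1
  have q0 : 0 < q := by rw [hq]; positivity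
  have a0 : 0 < a := lt_of_lt_of_le (hB.ppos 157) hJa
  have P0 : 0 < P := by rw [hP]; positivity
  obtain ⟨n, hn⟩ : ∃ n, n = k * (A + F) * a / q := ⟨_, rfl⟩
  have n1 : q * n ≤ k * (A + F) * a := by rw [hn]; exact Int.mul_ediv_self_le q0.ne'
  have n2 : k * (A + F) * a < q * (n + 1) := by
    have := Int.lt_mul_ediv_self_add (x := k * (A + F) * a) q0
    rw [← hn] at this
    linarith
  obtain ⟨η, h1, h2, h3⟩ := sv35 hB hD0 hR0 hT0 hbd hs hRr h2' (n + 1)
  obtain ⟨E, hE⟩ : ∃ E, E = q * η - k * (A + F) * a := ⟨_, rfl⟩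
  have E0 : 0 < E := by
    have : q * (n + 1) ≤ q * η := mul_le_mul_of_nonneg_left h1 q0.le
    linarith
  have E1 : E ≤ J * q := by
    have : q * η ≤ q * (n + J) := mul_le_mul_of_nonneg_left (by linarith) q0.le
    have e : q * (n + J) = q * n + J * q := by ring
    linarith
  obtain ⟨f1, f2, f3⟩ := win35 hδ hq hP k0 X0 α0 δ1 P0 w1 w2 hE E1
  have η0 : 0 < η := by
    have h5 : 0 < k * (A + F) * a := by
      have : 0 < A + F := by linarith
      positivity
    have h4 : 0 < q * η := by linarith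
    exact (pos_iff_pos_of_mul_pos h4).1 q0
  have η2 : 2 * η ≤ a + 2 * J := by
    have h4 : 2 * (k * (A + F)) * a ≤ q * a := mul_le_mul_of_nonneg_right w3 a0.le
    have h5 : q * (2 * η) ≤ q * (a + 2 * J) := by
      have e1 : q * (2 * η) = 2 * (q * η) := by ring
      have e2 : q * (a + 2 * J) = q * a + 2 * (J * q) := by ring
      have e3 : 2 * (k * (A + F)) * a = 2 * (k * (A + F) * a) := by ring
      rw [e1, e2]
      linarith
    exact le_of_mul_le_mul_left h5 q0
  -- sizes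
  have J155 : 100 * (J : ℤ) ^ 155 ≤ (J : ℤ) ^ 156 := hB.pows 155
  have J156 : 100 * (J : ℤ) ^ 156 ≤ (J : ℤ) ^ 157 := hB.pows 156
  have J1 : (J : ℤ) ≤ (J : ℤ) ^ 155 := by
    have := hB.pmono (m := 1) (n := 155) (by norm_num)
    rwa [pow_one] at this
  have ha155 : (J : ℤ) ^ 155 ≤ a - η := by
    have := hB.ppos 155
    linarith
  have J155' := hB.ppos 155
  have ηa : η < a := by linarith
  obtain ⟨W, hW⟩ : ∃ W, W = A + η + F := ⟨_, rfl⟩
  rw [← hW] at f1 f2 f3
  obtain ⟨Y, hY⟩ : ∃ Y, Y = P * F - k * W * X := ⟨_, rfl⟩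
  rw [← hY] at f2 f3
  have hpW : ∀ p : ℕ, p.Prime → (p : ℤ) ∣ R → ¬ (p : ℤ) ∣ W := fun p hp hd => by
    have := (h3 p hp).2.1 hd
    rwa [show W = η + (A + F) by rw [hW]; ring]
  have hpT : ∀ p : ℕ, p.Prime → (p : ℤ) ∣ T → ¬ (p : ℤ) ∣ s * W - r := fun p hp hd => by
    have := (h3 p hp).2.2 hd
    rwa [show W = η + (A + F) by rw [hW]; ring]
  have cm := hM W hpW hpT
  have cl : IsCoprime (P - 1 * (k * W)) (-(k * W * a) + η * (k * W)) := by
    refine isCoprime_of_prime fun p hp hb hd => ?_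
    have hpp := Nat.prime_iff_prime_int.1 hp
    rw [one_mul] at hd
    have hb' : (p : ℤ) ∣ k * (W * (η - a)) := by
      rwa [show k * (W * (η - a)) = -(k * W * a) + η * (k * W) by ring]
    rcases hpp.dvd_or_dvd hb' with h | h
    · -- `p ∣ k`
      have h4 : (p : ℤ) ∣ P := by
        have := dvd_add hd (h.mul_right W)
        rwa [sub_add_cancel] at this
      have h5 : (p : ℤ) ∣ α := by
        have := dvd_sub h4 (h.mul_right (a + X))
        rwa [hP, add_sub_cancel_right] at this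
      exact not_dvd_of_isCoprime hαk hp h h5
    · rcases hpp.dvd_or_dvd h with h | h
      · have h4 : (p : ℤ) ∣ P := by
          have := dvd_add hd (h.mul_left k)
          rwa [sub_add_cancel] at this
        exact hpW p hp (h4.trans hPR) h
      · have h4 : (p : ℤ) ∣ D1 := by
          have e : D1 = P - k * W + k * (η - a) := by rw [hD, hP, hW]; ring
          rw [e]
          exact dvd_add hd (h.mul_left _)
        exact (h3 p hp).1 h4 h
  have c1 : cr ((1, 0) : Z2) (a, η) = η := by simp [cr]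
  have c2 : cr ((1, 0) : Z2) (X, F) = F := by simp [cr]
  have c3 : cr ((a, 0) : Z2) (0, 1) = a := by simp [cr]
  have c4 : cr ((g1, g2) : Z2) (e1, e2) = a1 := by simp only [cr]; rw [ha1]
  have c5 : cr ((1, 0) : Z2) ((0, A) + (a, η) + (X, F)) = W := by simp [cr, hW]
  have c6 : cr ((P, k * W) : Z2) (a, η) = E := by rw [← f1]; simp [cr]
  have c7 : cr ((P, k * W) : Z2) (X, F) = Y := by rw [hY]; simp [cr]
  have c8 : cr ((P, k * W) : Z2) (0, 1) = P := by simp [cr]
  have c9 : cr ((P, k * W) : Z2) (a, 0) = -(k * W * a) := by simp [cr]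
  have c10 : cr ((P, k * W) : Z2) (e1, e2) = P * e2 - k * W * e1 := by simp [cr]
  have c11 : cr ((P, k * W) : Z2) (g1, g2) = P * g2 - k * W * g1 := by simp [cr]
  obtain ⟨ζ, hζ⟩ := exit11 (u := (1, 0)) (v := (0, A)) (u' := (P, k * W)) (l := (a, η))
    (m := (X, F)) (e := (0, 1)) (g := (a, 0)) (e' := (e1, e2)) (g' := (g1, g2)) (x := 1)
    (y := η) (w := w) (y' := y') (α := α) (k := k) (W := k * W) (a' := a - η + E)
    (a1' := a1 - F + Y) (by simp [cr]; exact hA) isCoprime_one_left hwy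
    (by ext <;> simp) (by ext <;> simp [hX, hF]) (by rw [c1]; exact η0)
    (by rw [c1, c3]; exact ηa) (by rw [c2]; exact F0) (by rw [c2, c4]; exact Fa) hαk
    (by
      ext
      · simp [hP]
      · simp [hW])
    (by simp [cr]) (by rw [c6]; exact E0) (by rw [c7]; exact f2)
    (by rw [c6, c7, c5]; exact f3) (by rw [c1, c3, c6]) (by rw [c2, c4, c7])
    (by rw [c8, c9]; exact cl) (by rw [c10, c11]; exact cm)
  rw [c5, c6, c7] at hζ
  refine ⟨W - E - Y, a - η + E, a1 - F + Y, ζ, by linarith, by linarith, by linarith, ?_,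
    by linarith, hζ⟩
  rw [hW, ← hN]; ring

end Pool.Agent.H4G.Six
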