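import Pool.Agent.H4G.Six.D2.Long35

/-!
# `b = 1`, the first torus is long, `M = ⟨(0, F0), (g, y)⟩` with `g` large (helper35)
-/

set_option autoImplicit false

namespace Pool.Agent.H4G.Six

open Pool.Agent.H4G

variable {N : ℤ} {J Z : ℕ}

/-- parities -/
theorem par35 : ∀ A a F g F0 : ZMod 2, ∃ y : ZMod 2,
    ((g + A + 1) + 1 * g - 1 * (A + F) = 0 → y - a ≠ 0) ∧
    ((g + A + 1) + 1 * (a + g) = 0 → y + (A + F) ≠ 0) ∧
    (g * F0 - F = 0 → 1 * (y + (A + F)) - ((g + A + 1) + 1 * (a + g)) * F0 ≠ 0) := by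
  decide

theorem long_I (hB : Bg N J Z) {A a g F0 y : ℤ} (hA : 0 < A) (hA20 : A ≤ (J : ℤ) ^ 20)
    (hF0 : 0 < F0) (hF40 : F0 ≤ (J : ℤ) ^ 40) (hg : (J : ℤ) ^ 90 ≤ g)
    (hga : (J : ℤ) ^ 90 * g ≤ a) (hN : A + a + g * F0 = N) :
    ∃ A' a' a1' ζ : ℤ, 0 < A' ∧ 1 < a' ∧ 1 < a1' ∧ A' + a' + a1' = N ∧ (J : ℤ) ^ 155 ≤ a' ∧
      SEq6 (NL A a (0, F0) (g, y)) (PG A' a' a1' ζ) := by
  have hJ := hB.J20
  have hJ1 : (1 : ℤ) ≤ (J : ℤ) := hB.J1
  have J0 : (0 : ℤ) < J := by linarith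
  have g0 : 0 < g := lt_of_lt_of_le (hB.ppos 90) hg
  have J90 := hB.ppos 90
  have a0 : 0 < a := lt_of_lt_of_le (mul_pos J90 g0) hga
  -- powers
  have hAJ : A ≤ (J : ℤ) ^ 20 := hA20
  have p2 : (J : ℤ) ^ 20 * (J : ℤ) ^ 40 = (J : ℤ) ^ 60 := by ring
  have p3 : 100 * (J : ℤ) ^ 60 ≤ (J : ℤ) ^ 61 := hB.pows 60
  have p4 : (J : ℤ) ^ 61 ≤ (J : ℤ) ^ 90 := hB.pmono (by norm_num)
  have p5 : 100 * (J : ℤ) ^ 20 ≤ (J : ℤ) ^ 21 := hB.pows 20
  have p6 : (J : ℤ) ^ 21 ≤ (J : ℤ) ^ 90 := hB.pmono (by norm_num)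
  have p7 : 100 * (J : ℤ) ^ 1 ≤ (J : ℤ) ^ 2 := hB.pows 1
  have p8 : (J : ℤ) ^ 2 ≤ (J : ℤ) ^ 90 := hB.pmono (by norm_num)
  rw [pow_one] at p7
  have hAF0 : A * F0 ≤ (J : ℤ) ^ 60 := by
    rw [← p2]; exact mul_le_mul hA20 hF40 hF0.le (by positivity)
  have hAg : 100 * A ≤ g := by linarith
  have hAF : 100 * (A * F0) ≤ g := by linarith
  -- `j0`
  obtain ⟨j0, hj1, hj2, hj3⟩ : ∃ j0 : ℤ, 2 * A ≤ j0 ∧ j0 ≤ 2 * A + 1 ∧ (2 : ℤ) ∣ j0 - (g + A) :=
    ⟨2 * A + (g + A) % 2, by omega, by omega, by omega⟩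
  obtain ⟨D2, hD2⟩ : ∃ D2, D2 = 2 * j0 + 1 := ⟨_, rfl⟩
  have D20 : 0 < D2 := by rw [hD2]; linarith
  obtain ⟨F1, hF1⟩ : ∃ F1, F1 = 2 * A * g / D2 + 1 := ⟨_, rfl⟩
  have f1 : D2 * (F1 - 1) ≤ 2 * A * g := by
    rw [hF1, add_sub_cancel_right]; exact Int.mul_ediv_self_le D20.ne'
  have f2 : 2 * A * g < D2 * F1 := by
    have := Int.lt_mul_ediv_self_add (x := 2 * A * g) D20
    rw [hF1]; linarith
  obtain ⟨F, hF⟩ : ∃ F, F = F1 + (y - F1) % F0 := ⟨_, rfl⟩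
  have m1 : 0 ≤ (y - F1) % F0 := Int.emod_nonneg _ hF0.ne'
  have m2 : (y - F1) % F0 < F0 := Int.emod_lt_of_pos _ hF0
  have m3 : F0 * ((y - F1) / F0) + (y - F1) % F0 = y - F1 := Int.mul_ediv_add_emod _ _
  obtain ⟨t, ht⟩ : ∃ t, t = -((y - F1) / F0) := ⟨_, rfl⟩
  have hFt : F = t * F0 + 1 * y := by rw [hF, ht]; linarith
  have f3 : 2 * A * g < D2 * F := by
    have : D2 * F1 ≤ D2 * F := mul_le_mul_of_nonneg_left (by linarith) D20.le
    linarith
  have f4 : D2 * F ≤ 2 * A * g + D2 * F0 := by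
    have : D2 * F ≤ D2 * (F1 - 1 + F0) := mul_le_mul_of_nonneg_left (by omega) D20.le
    have e : D2 * (F1 - 1 + F0) = D2 * (F1 - 1) + D2 * F0 := by ring
    linarith
  have F0' : 0 < F := by
    have : 0 < D2 * F := lt_trans (by positivity) f3
    exact (pos_iff_pos_of_mul_pos this).1 D20
  -- `(4 j0 + 1) D2 F0 ≤ 2 A g`
  have f5 : (4 * j0 + 1) * (D2 * F0) ≤ 2 * A * g := by
    have h1 : (4 * j0 + 1) ≤ 13 * A := by linarith
    have h2 : D2 ≤ 7 * A := by rw [hD2]; linarith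
    have h3 : (4 * j0 + 1) * D2 ≤ 13 * A * (7 * A) :=
      mul_le_mul h1 h2 D20.le (by positivity)
    have h4 : (4 * j0 + 1) * D2 * F0 ≤ 13 * A * (7 * A) * F0 :=
      mul_le_mul_of_nonneg_right h3 hF0.le
    have h5 : A * (100 * (A * F0)) ≤ A * g := mul_le_mul_of_nonneg_left hAF hA.le
    have h6 : 0 < A * g := by positivity
    have e1 : 13 * A * (7 * A) * F0 = 91 * (A * (A * F0)) := by ring
    have e2 : A * (100 * (A * F0)) = 100 * (A * (A * F0)) := by ring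
    have h7 : 0 < A * (A * F0) := by positivity
    have e3 : (4 * j0 + 1) * (D2 * F0) = (4 * j0 + 1) * D2 * F0 := by ring
    rw [e3]
    linarith
  have f6 : (4 * j0 + 1) * F ≤ 4 * A * g := by
    have h1 : (4 * j0 + 1) * (D2 * F) ≤ (4 * j0 + 1) * (2 * A * g + D2 * F0) :=
      mul_le_mul_of_nonneg_left f4 (by linarith)
    have h2 : D2 * ((4 * j0 + 1) * F) ≤ D2 * (4 * A * g) := by
      have e1 : D2 * ((4 * j0 + 1) * F) = (4 * j0 + 1) * (D2 * F) := by ring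
      have e2 : D2 * (4 * A * g) = (4 * j0 + 1) * (2 * A * g) + 2 * A * g := by rw [hD2]; ring
      rw [e1, e2]
      linarith
    exact le_of_mul_le_mul_left h2 D20
  obtain ⟨α, hα⟩ : ∃ α, α = j0 + 1 := ⟨_, rfl⟩
  obtain ⟨δ, hδ⟩ : ∃ δ, δ = α * F - 1 * A * g := ⟨_, rfl⟩
  have d1 : F < 2 * δ := by
    have e : 2 * δ = D2 * F + F - 2 * A * g := by rw [hδ, hα, hD2]; ring
    linarith
  have d2 : 4 * δ ≤ 3 * F := by
    have e : 4 * δ = (4 * j0 + 1) * F + 3 * F - 4 * A * g := by rw [hδ, hα]; ring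
    linarith
  have g1 : 2 * F < g := by
    have h1 : (8 * A + 1) * F ≤ (4 * j0 + 1) * F :=
      mul_le_mul_of_nonneg_right (by linarith) F0'.le
    have h2 : A * (8 * F) < A * (4 * g) := by
      have e1 : A * (8 * F) = (8 * A + 1) * F - F := by ring
      have e2 : A * (4 * g) = 4 * A * g := by ring
      rw [e1, e2]; linarith
    have := lt_of_mul_lt_mul_left h2 hA.le
    linarith
  have g2 : g < 4 * F := by
    have h1 : D2 * F ≤ 7 * A * F := mul_le_mul_of_nonneg_right (by rw [hD2]; linarith) F0'.le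
    have h2 : A * (2 * g) < A * (7 * F) := by
      have e1 : A * (2 * g) = 2 * A * g := by ring
      have e2 : A * (7 * F) = 7 * A * F := by ring
      rw [e1, e2]; linarith
    have := lt_of_mul_lt_mul_left h2 hA.le
    linarith
  have hδ0 : 0 < δ := by linarith
  obtain ⟨q, hq⟩ : ∃ q, q = α + 1 * g := ⟨_, rfl⟩
  obtain ⟨P, hP⟩ : ∃ P, P = α + 1 * (a + g) := ⟨_, rfl⟩
  obtain ⟨D1, hD1⟩ : ∃ D1, D1 = α + 1 * g - 1 * (A + F) := ⟨_, rfl⟩
  have hq2 : q ≤ 2 * g := by rw [hq, hα]; linarith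
  have q0 : 0 < q := by rw [hq, hα]; linarith
  have P0 : a ≤ P := by rw [hP, hα]; linarith
  have D10 : 0 < D1 := by rw [hD1, hα]; linarith
  have gF0 : g ≤ g * F0 := le_mul_of_one_le_right g0.le hF0
  have T0 : 0 < g * F0 - F := by linarith
  have w1 : ((J : ℤ) + 1) * (1 * g * q) ≤ δ * P := by
    have h1 : 8 * (((J : ℤ) + 1) * (1 * g * q)) ≤ g * a := by
      have e1 : g * q ≤ g * (2 * g) := mul_le_mul_of_nonneg_left hq2 g0.le
      have e2 : ((J : ℤ) + 1) * (g * q) ≤ ((J : ℤ) + 1) * (g * (2 * g)) :=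
        mul_le_mul_of_nonneg_left e1 (by linarith)
      have e3 : g * ((J : ℤ) ^ 90 * g) ≤ g * a := mul_le_mul_of_nonneg_left hga g0.le
      have e4 : (16 * ((J : ℤ) + 1)) * (g * g) ≤ (J : ℤ) ^ 90 * (g * g) :=
        mul_le_mul_of_nonneg_right (by linarith) (by positivity)
      have e5 : 8 * (((J : ℤ) + 1) * (1 * g * q)) = 8 * (((J : ℤ) + 1) * (g * q)) := by ring
      have e6 : 8 * (((J : ℤ) + 1) * (g * (2 * g))) = 16 * ((J : ℤ) + 1) * (g * g) := by ring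
      have e7 : g * ((J : ℤ) ^ 90 * g) = (J : ℤ) ^ 90 * (g * g) := by ring
      rw [e5]
      linarith
    have h2 : g * a ≤ 8 * δ * P := mul_le_mul (by linarith) P0 a0.le (by linarith)
    linarith
  have w2 : ((J : ℤ) + 1) * ((α - 1) * q) ≤ (A + F - δ) * P := by
    have h1 : 16 * (((J : ℤ) + 1) * ((α - 1) * q)) ≤ g * a := by
      have e0 : α - 1 ≤ 3 * A := by rw [hα]; linarith
      have e1 : (α - 1) * q ≤ 3 * A * (2 * g) := mul_le_mul e0 hq2 q0.le (by positivity)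
      have e2 : ((J : ℤ) + 1) * ((α - 1) * q) ≤ ((J : ℤ) + 1) * (3 * A * (2 * g)) :=
        mul_le_mul_of_nonneg_left e1 (by linarith)
      have e3 : 96 * (((J : ℤ) + 1) * A) ≤ a := by
        have k1 : ((J : ℤ) + 1) * A ≤ (2 * J) * (J : ℤ) ^ 20 :=
          mul_le_mul (by linarith) hA20 hA.le (by positivity)
        have k2 : (2 * (J : ℤ)) * (J : ℤ) ^ 20 = 2 * (J : ℤ) ^ 21 := by ring
        have k3 : 100 * (J : ℤ) ^ 21 ≤ (J : ℤ) ^ 22 := hB.pows 21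
        have k4 : 100 * (J : ℤ) ^ 22 ≤ (J : ℤ) ^ 23 := hB.pows 22
        have k5 : (J : ℤ) ^ 23 ≤ (J : ℤ) ^ 90 := hB.pmono (by norm_num)
        have k6 : (J : ℤ) ^ 90 * 1 ≤ (J : ℤ) ^ 90 * g :=
          mul_le_mul_of_nonneg_left g0 J90.le
        have k7 := hB.ppos 22
        linarith
      have e4 : g * (96 * (((J : ℤ) + 1) * A)) ≤ g * a := mul_le_mul_of_nonneg_left e3 g0.le
      have e5 : 16 * (((J : ℤ) + 1) * (3 * A * (2 * g))) = g * (96 * (((J : ℤ) + 1) * A)) := by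
        ring
      linarith
    have h2 : g * a ≤ 16 * (A + F - δ) * P := mul_le_mul (by linarith) P0 a0.le (by linarith)
    linarith
  have hN1 := hB.N1
  have hbd : |D1| * |P| * |g * F0 - F| ≤ (2 * N) ^ 20 := by
    have h1 : |D1| ≤ (2 * N) ^ 1 := by
      rw [abs_of_pos D10, pow_one, hD1]; linarith
    have h2 : |P| ≤ (2 * N) ^ 1 := by
      rw [abs_of_pos (by linarith), pow_one, hP]; linarith
    have h3 : |g * F0 - F| ≤ (2 * N) ^ 1 := by
      rw [abs_of_pos T0, pow_one]; linarith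
    have h4 : |D1| * |P| ≤ (2 * N) ^ (1 + 1) :=
      mul_le_pow2 (abs_pos.2 (by linarith)) h1 h2 (by linarith)
    have h5 : |D1| * |P| * |g * F0 - F| ≤ (2 * N) ^ (1 + 1 + 1) :=
      mul_le_pow2 (abs_pos.2 T0.ne') h4 h3 (by linarith)
    exact h5.trans (pow_le_pow_right₀ (by linarith) (by norm_num))
  have hJa : (J : ℤ) ^ 157 ≤ a := by
    have e1 : (J : ℤ) ^ 90 * (J : ℤ) ^ 90 ≤ (J : ℤ) ^ 90 * g :=
      mul_le_mul_of_nonneg_left hg J90.le
    have e2 : (J : ℤ) ^ 90 * (J : ℤ) ^ 90 = (J : ℤ) ^ 180 := by ring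
    have e3 : (J : ℤ) ^ 157 ≤ (J : ℤ) ^ 180 := hB.pmono (by norm_num)
    linarith
  refine core35 hB (e1 := 0) (e2 := F0) (g1 := g) (g2 := y) (w := 1) (y' := t) (X := g) (F := F)
    (k := 1) (α := α) (δ := δ) (P := P) (q := q) (R := P) (T := g * F0 - F) (s := 1)
    (r := P * F0) (D1 := D1) (a1 := g * F0) hA hN (by ring) isCoprime_one_left (by ring) hFt
    g0 F0' (by linarith) one_pos (by rw [hα]; linarith) isCoprime_one_right hδ hδ0
    (by linarith) hq hP hD1 D10.ne' hJa w1 w2 (by rw [hq, hα]; linarith) (by linarith)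
    T0.ne' hbd dvd_rfl (dvd_mul_right _ _) (fun p hp _ => prime_not_dvd_one hp) ?_ ?_
  · -- the prime 2
    have c2 : ∀ x : ℤ, (2 : ℤ) ∣ x ↔ (x : ZMod 2) = 0 := fun x => by
      rw [ZMod.intCast_zmod_eq_zero_iff_dvd]; norm_num
    obtain ⟨r, q0', q1, q2⟩ := par35 (A : ZMod 2) (a : ZMod 2) (F : ZMod 2) (g : ZMod 2)
      (F0 : ZMod 2)
    obtain ⟨s, hs⟩ : ∃ s : ℤ, (s : ZMod 2) = r := ⟨r.val, by simp⟩
    have hαc : (α : ZMod 2) = g + A + 1 := by
      have h1 := (c2 _).1 hj3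
      push_cast at h1
      rw [hα]; push_cast
      linear_combination h1
    have hPc : (P : ZMod 2) = (g + A + 1) + 1 * (a + g) := by
      rw [hP]; push_cast; rw [hαc]
    have hDc : (D1 : ZMod 2) = (g + A + 1) + 1 * g - 1 * (A + F) := by
      rw [hD1]; push_cast; rw [hαc]
    refine ⟨s, fun h1 h2 => ?_, fun h1 h2 => ?_, fun h1 h2 => ?_⟩
    · rw [c2] at h1 h2
      push_cast at h2
      rw [hDc] at h1
      rw [hs] at h2
      exact q0' h1 h2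
    · rw [c2] at h1 h2
      push_cast at h2
      rw [hPc] at h1
      rw [hs] at h2
      exact q1 h1 h2
    · rw [c2] at h1 h2
      push_cast at h1 h2
      rw [hPc, hs] at h2
      exact q2 h1 h2
  · -- the content of the second torus
    intro W hW1 hW2
    refine isCoprime_of_prime fun p hp h1 h2 => ?_
    have hpp := Nat.prime_iff_prime_int.1 hp
    have e1 : (p : ℤ) ∣ W - P * F0 := by
      have e : W - P * F0 = -(P * F0 - 1 * W * 0 - 1 * (1 * W)) := by ring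
      rw [e]; exact (dvd_neg).2 h2
    have e2 : (p : ℤ) ∣ P * (g * F0 - F) := by
      have e : P * (g * F0 - F) = -((P * y - 1 * W * g + t * (1 * W)) +
        (g - t) * (W - P * F0)) := by rw [hFt]; ring
      rw [e]
      exact (dvd_neg).2 (dvd_add h1 (e1.mul_left _))
    rcases hpp.dvd_or_dvd e2 with h | h
    · refine hW1 p hp h ?_
      have := dvd_add e1 (h.mul_right F0)
      rwa [sub_add_cancel] at this
    · exact hW2 p hp h (by rwa [one_mul])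

end Pool.Agent.H4G.Six
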