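import Pool.Agent.H4G.Six.D2.Long35

/-!
# `b = 1`, the first torus is long, `M` small (helper35)
-/

set_option autoImplicit false

namespace Pool.Agent.H4G.Six

open Pool.Agent.H4G

variable {N : ℤ} {J Z : ℕ}

/-- parities -/
theorem par35c : ∀ D a B c T s : ZMod 2, (c = 0 → D ≠ 0) → (T = 0 → s ≠ 0) →
    ∃ y : ZMod 2, (D = 0 → y - a ≠ 0) ∧ ((D + (a + B)) * c = 0 → y + B ≠ 0) ∧
    (T = 0 → s * (y + B) - (D + (a + B)) * c ≠ 0) := by
  decide

theorem long_II (hB : Bg N J Z) {A a c z x1 w y' k α X F δ : ℤ} (hA : 0 < A) (hc : 0 < c)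
    (y0 : 0 < y') (yz : y' < z) (hN : A + a + c * z = N)
    (hwy : IsCoprime w y') (hX : X = y' * x1 + w * z) (hF : F = c * y') (XF : 2 * F ≤ X)
    (k0 : 0 < k) (hαk : IsCoprime α k) (hkc : IsCoprime k c)
    (hδ : δ = α * F - k * A * X) (δ0 : 0 < δ) (δ1 : δ < A + F)
    (hs : ∀ p : ℕ, p.Prime → (p : ℤ) ∣ z - y' → ¬ (p : ℤ) ∣ k * (x1 + w))
    (hk2 : ¬ (2 : ℤ) ∣ k) (hpar : (2 : ℤ) ∣ c → ¬ (2 : ℤ) ∣ α + k * X - k * (A + F))
    (hJa : (J : ℤ) ^ 157 ≤ a) (hsz : ((J : ℤ) + 1) * ((α + k * X) * (α + k * X)) ≤ a) :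
    ∃ A' a' a1' ζ : ℤ, 0 < A' ∧ 1 < a' ∧ 1 < a1' ∧ A' + a' + a1' = N ∧ (J : ℤ) ^ 155 ≤ a' ∧
      SEq6 (NF A a c z x1) (PG A' a' a1' ζ) := by
  have hJ := hB.J20
  have hJ1 : (1 : ℤ) ≤ (J : ℤ) := hB.J1
  have a0 : 0 < a := lt_of_lt_of_le (hB.ppos 157) hJa
  have F0 : 0 < F := by rw [hF]; positivity
  have X0 : 0 < X := by linarith
  have hαF : 0 < α * F := by
    have : 0 < k * A * X := by positivity
    linarith
  have α0 : 0 < α := (pos_iff_pos_of_mul_pos hαF).2 F0
  obtain ⟨q, hq⟩ : ∃ q, q = α + k * X := ⟨_, rfl⟩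
  obtain ⟨P, hP⟩ : ∃ P, P = α + k * (a + X) := ⟨_, rfl⟩
  obtain ⟨D1, hD1⟩ : ∃ D1, D1 = α + k * X - k * (A + F) := ⟨_, rfl⟩
  rw [← hq] at hsz
  rw [← hD1] at hpar
  have kX0 : 0 < k * X := by positivity
  have q0 : 0 < q := by rw [hq]; linarith
  have hk1 : 1 ≤ k := k0
  -- `2 k A < α`
  have h2 : 2 * (k * A) < α := by
    have e1 : k * A * (2 * F) ≤ k * A * X := mul_le_mul_of_nonneg_left XF (by positivity)
    have e2 : (2 * (k * A)) * F < α * F := by
      have e3 : (2 * (k * A)) * F = k * A * (2 * F) := by ring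
      rw [e3]; linarith
    exact lt_of_mul_lt_mul_right e2 F0.le
  have h3 : 2 * (k * F) ≤ k * X := by
    have := mul_le_mul_of_nonneg_left XF k0.le
    linarith
  have kA0 : 0 < k * A := by positivity
  have kF0 : 0 < k * F := by positivity
  have D10 : 0 < D1 := by
    have e : D1 = α + k * X - k * A - k * F := by rw [hD1]; ring
    linarith
  have hka : a ≤ k * a := le_mul_of_one_le_left a0.le hk1
  have P0 : a ≤ P := by
    have e : P = α + k * a + k * X := by rw [hP]; ring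
    linarith
  have Pq : P = q + k * a := by rw [hP, hq]; ring
  have hw : ∀ x y : ℤ, 0 ≤ x → x ≤ q → 1 ≤ y → ((J : ℤ) + 1) * (x * q) ≤ y * P := by
    intro x y x0 xq hy
    have e1 : x * q ≤ q * q := mul_le_mul_of_nonneg_right xq q0.le
    have e2 : ((J : ℤ) + 1) * (x * q) ≤ ((J : ℤ) + 1) * (q * q) :=
      mul_le_mul_of_nonneg_left e1 (by linarith)
    have e3 : 1 * P ≤ y * P := mul_le_mul_of_nonneg_right hy (by linarith)
    linarith
  have w1 := hw (k * X) δ kX0.le (by rw [hq]; linarith) δ0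
  have w2 := hw (α - 1) (A + F - δ) (by linarith) (by rw [hq]; linarith) (by linarith)
  have T0 : 0 < z - y' := by linarith
  have z0 : 0 < z := by linarith
  have hqa : q ≤ a := by
    have e1 : 1 * q ≤ q * q := mul_le_mul_of_nonneg_right (by linarith) q0.le
    have e2 : 1 * (q * q) ≤ ((J : ℤ) + 1) * (q * q) :=
      mul_le_mul_of_nonneg_right (by linarith) (by positivity)
    linarith
  have hcz : 0 < c * z := by positivity
  have haN : a ≤ N := by linarith
  have hN1 := hB.N1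
  have kq : k ≤ q := by
    have : k * 1 ≤ k * X := mul_le_mul_of_nonneg_left (by linarith) k0.le
    rw [hq]; linarith
  have hbd : |D1| * |P * c| * |z - y'| ≤ (2 * N) ^ 20 := by
    have h1 : |D1| ≤ (2 * N) ^ 1 := by
      rw [abs_of_pos D10, pow_one, hD1]
      have : 0 < k * (A + F) := by positivity
      linarith
    have h4 : P ≤ (2 * N) ^ 2 := by
      have e1 : k * a ≤ N * N := mul_le_mul (by linarith) haN a0.le (by linarith)
      have e2 : q ≤ N * N := by
        have : N * 1 ≤ N * N := mul_le_mul_of_nonneg_left hN1 (by linarith)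
        linarith
      have e3 : (2 * N) ^ 2 = 4 * (N * N) := by ring
      have e4 : 0 ≤ N * N := by positivity
      rw [Pq, e3]; linarith
    have hcN : c ≤ N := by
      have : c * 1 ≤ c * z := mul_le_mul_of_nonneg_left (by linarith) hc.le
      linarith
    have hzN : z ≤ N := by
      have : 1 * z ≤ c * z := mul_le_mul_of_nonneg_right hc z0.le
      linarith
    have h5 : |P * c| ≤ (2 * N) ^ (2 + 1) := by
      rw [abs_of_pos (mul_pos (by linarith) hc)]
      exact mul_le_pow2 hc h4 (by rw [pow_one]; linarith) (by linarith)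
    have h6 : |D1| * |P * c| ≤ (2 * N) ^ (1 + (2 + 1)) :=
      mul_le_pow2 (abs_pos.2 (mul_pos (by linarith) hc).ne') h1 h5 (by linarith)
    have h7 : |D1| * |P * c| * |z - y'| ≤ (2 * N) ^ (1 + (2 + 1) + 1) :=
      mul_le_pow2 (abs_pos.2 T0.ne') h6 (by rw [abs_of_pos T0, pow_one]; linarith)
        (by linarith)
    exact h7.trans (pow_le_pow_right₀ (by linarith) (by norm_num))
  have c2 : ∀ x : ℤ, (2 : ℤ) ∣ x ↔ (x : ZMod 2) = 0 := fun x => by
    rw [ZMod.intCast_zmod_eq_zero_iff_dvd]; norm_num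
  rw [NF_eq]
  refine core35 hB (e1 := x1) (e2 := c) (g1 := z) (g2 := 0) (w := w) (y' := y') (X := X)
    (F := F) (k := k) (α := α) (δ := δ) (P := P) (q := q) (R := P * c) (T := z - y')
    (s := k * (x1 + w)) (r := P * c) (D1 := D1) (a1 := c * z) hA hN (by ring) hwy hX
    (by rw [hF]; ring) X0 F0 (by rw [hF]; exact mul_lt_mul_of_pos_left yz hc) k0 α0 hαk hδ δ0
    δ1 hq hP hD1 D10.ne' hJa w1 w2 ?_ (mul_pos (by linarith) hc).ne' T0.ne' hbd
    (dvd_mul_right _ _) dvd_rfl hs ?_ ?_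
  · have e : k * (A + F) = k * A + k * F := by ring
    rw [e, hq]; linarith
  · -- the prime 2
    obtain ⟨r, q1, q2, q3⟩ := par35c (D1 : ZMod 2) (a : ZMod 2) ((A + F : ℤ) : ZMod 2)
      (c : ZMod 2) ((z - y' : ℤ) : ZMod 2) ((k * (x1 + w) : ℤ) : ZMod 2)
      (fun h1 h2 => hpar ((c2 _).2 h1) ((c2 _).2 h2))
      (fun h1 h2 => by
        have := hs 2 Nat.prime_two
        push_cast at this
        exact this ((c2 _).2 h1) ((c2 _).2 h2))
    obtain ⟨s, hs'⟩ : ∃ s : ℤ, (s : ZMod 2) = r := ⟨r.val, by simp⟩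
    have hk' : (k : ZMod 2) = 1 := by
      have h2 : ∀ x : ZMod 2, x = 0 ∨ x = 1 := by decide
      rcases h2 (k : ZMod 2) with h | h
      · exact absurd ((c2 k).2 h) hk2
      · exact h
    have hPc : (P : ZMod 2) = (D1 : ZMod 2) + (a + ((A + F : ℤ) : ZMod 2)) := by
      have e : P = D1 + k * (a + (A + F)) := by rw [hP, hD1]; ring
      rw [e]; push_cast; rw [hk', one_mul]
    refine ⟨s, fun h1 h2 => ?_, fun h1 h2 => ?_, fun h1 h2 => ?_⟩
    · rw [c2] at h1 h2
      rw [Int.cast_sub, hs'] at h2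
      exact q1 h1 h2
    · rw [c2] at h1 h2
      rw [Int.cast_add, hs'] at h2
      rw [Int.cast_mul, hPc] at h1
      exact q2 h1 h2
    · rw [c2] at h1 h2
      rw [Int.cast_sub, Int.cast_mul, Int.cast_add s, hs', Int.cast_mul P, hPc] at h2
      exact q3 h1 h2
  · -- the content of the second torus
    intro W hW1 hW2
    refine isCoprime_of_prime fun p hp h1 h2 => ?_
    have hpp := Nat.prime_iff_prime_int.1 hp
    have e2 : (p : ℤ) ∣ P * c - k * (x1 + w) * W := by
      have e : P * c - k * (x1 + w) * W = P * c - k * W * x1 - w * (k * W) := by ring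
      rw [e]; exact h2
    have e1 : (p : ℤ) ∣ k * (W * (z - y')) := by
      have e : k * (W * (z - y')) = -(P * 0 - k * W * z + y' * (k * W)) := by ring
      rw [e]; exact (dvd_neg).2 h1
    rcases hpp.dvd_or_dvd e1 with h | h
    · have h4 : (p : ℤ) ∣ P * c := by
        have := dvd_add e2 ((h.mul_right (x1 + w)).mul_right W)
        rwa [sub_add_cancel] at this
      rcases hpp.dvd_or_dvd h4 with h5 | h5
      · have h6 : (p : ℤ) ∣ α := by
          have := dvd_sub h5 (h.mul_right (a + X))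
          rwa [hP, add_sub_cancel_right] at this
        exact not_dvd_of_isCoprime hαk hp h h6
      · exact not_dvd_of_isCoprime hkc hp h5 h
    · rcases hpp.dvd_or_dvd h with h | h
      · have h4 : (p : ℤ) ∣ P * c := by
          have := dvd_add e2 (h.mul_left (k * (x1 + w)))
          rwa [sub_add_cancel] at this
        exact hW1 p hp h4 h
      · refine hW2 p hp h ?_
        have := (dvd_neg).2 e2
        rwa [neg_sub] at this

end Pool.Agent.H4G.Six
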