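import Pool.Agent.H4G.Six.D2.Long35b
import Pool.Agent.H4G.Six.D2.Long35c
import Pool.Agent.H4G.Six.RoomSieve

/-!
# `b = 1`, the first torus is long: the choice of the second vector, and the theorem (helper35)
-/

set_option autoImplicit false

namespace Pool.Agent.H4G.Six

open Pool.Agent.H4G

variable {N : ℤ} {J Z : ℕ}

/-- some `m` of level `c (z - 1)` has no obstruction of parity -/
theorem notbad35 {A c z x1 F : ℤ} (hA : 0 < A) (hAc : A < c) (hc2 : (2 : ℤ) ∣ c) (hz : 1 < z)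
    (hF : F = c * (z - 1)) : ∃ w0 : ℤ, -1 ≤ w0 ∧ w0 ≤ 2 ∧ IsCoprime (w0 + 4 * F) (z - 1) ∧
      ¬ ∃ τ : ℤ, A * ((z - 1) * x1 + (w0 + 4 * F) * z) = F * τ ∧
        (2 : ℤ) ∣ τ - ((z - 1) * x1 + (w0 + 4 * F) * z) - A - 1 := by
  by_contra h
  push Not at h
  obtain ⟨τ1, b1, b1'⟩ := h 1 (by norm_num) (by norm_num) ⟨1, -(4 * c), by rw [hF]; ring⟩
  obtain ⟨τ2, b2, b2'⟩ := h (-1) (by norm_num) (by norm_num) ⟨-1, 4 * c, by rw [hF]; ring⟩
  have c0 : 0 < c := by linarith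
  have z0 : 0 < z := by linarith
  have F0 : 0 < F := by rw [hF]; exact mul_pos c0 (by linarith)
  obtain ⟨X1, hX1⟩ : ∃ X1, X1 = (z - 1) * x1 + (1 + 4 * F) * z := ⟨_, rfl⟩
  obtain ⟨X2, hX2⟩ : ∃ X2, X2 = (z - 1) * x1 + (-1 + 4 * F) * z := ⟨_, rfl⟩
  rw [← hX1] at b1 b1'
  rw [← hX2] at b2 b2'
  have e12 : X1 - X2 = 2 * z := by rw [hX1, hX2]; ring
  obtain ⟨i, hi⟩ : (2 : ℤ) ∣ τ1 - τ2 := by omega
  have e1 : A * z = F * i := by
    have : 2 * (A * z) = 2 * (F * i) := by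
      have h1 : A * (X1 - X2) = F * (τ1 - τ2) := by linear_combination b1 - b2
      rw [e12, hi] at h1
      linear_combination h1
    linarith
  have i0 : 0 < i := by
    have : 0 < F * i := by rw [← e1]; positivity
    exact (pos_iff_pos_of_mul_pos this).1 F0
  have i1 : i = 1 := by
    by_contra hne
    have h2 : 2 ≤ i := by omega
    have h3 : F * 2 ≤ F * i := mul_le_mul_of_nonneg_left h2 F0.le
    have h4 : A * z < c * z := mul_lt_mul_of_pos_right hAc z0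
    have h5 : c * z ≤ c * ((z - 1) * 2) := mul_le_mul_of_nonneg_left (by linarith) c0.le
    have h6 : F * 2 = c * ((z - 1) * 2) := by rw [hF]; ring
    linarith
  rw [i1, mul_one] at e1
  have t1 : X1 = z * τ1 := by
    have : A * X1 = A * (z * τ1) := by rw [b1, ← e1]; ring
    exact mul_left_cancel₀ hA.ne' this
  rcases Int.even_or_odd z with hev | hod
  · obtain ⟨n, hn⟩ := hev
    obtain ⟨τ3, b3, b3'⟩ := h 2 (by norm_num) (by norm_num)
      ⟨n, -(1 + 4 * n * c), by rw [hF, hn]; ring⟩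
    obtain ⟨X3, hX3⟩ : ∃ X3, X3 = (z - 1) * x1 + (2 + 4 * F) * z := ⟨_, rfl⟩
    rw [← hX3] at b3 b3'
    have t3 : X3 = z * τ3 := by
      have : A * X3 = A * (z * τ3) := by rw [b3, ← e1]; ring
      exact mul_left_cancel₀ hA.ne' this
    have e13 : X3 - X1 = z := by rw [hX1, hX3]; ring
    have t13 : τ3 = τ1 + 1 := by
      have : z * τ3 = z * (τ1 + 1) := by rw [← t3, mul_add, ← t1]; linarith
      exact mul_left_cancel₀ z0.ne' this
    omega
  · obtain ⟨n, hn⟩ := hod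
    -- `A` is even
    have hA2 : (2 : ℤ) ∣ A := by
      have h1 : (2 : ℤ) ∣ A * z := by rw [e1, hF]; exact hc2.mul_right _
      rcases Int.prime_two.dvd_or_dvd h1 with h2 | h2
      · exact h2
      · exfalso; omega
    have h1 : z * τ1 = 2 * (n * τ1) + τ1 := by rw [hn]; ring
    rw [t1, h1] at b1'
    omega

/-- the slit -/
theorem data35 (hB : Bg N J Z) {A F X c : ℤ} (hA : 0 < A) (F0 : 0 < F) (hFN : F ≤ N)
    (hcF : c ∣ F) (hF2 : (2 : ℤ) ∣ F)
    (hnb : (∃ τ : ℤ, A * X = F * τ ∧ (2 : ℤ) ∣ τ - X - A - 1) → F < A) :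
    ∃ k α δ : ℤ, 0 < k ∧ k ≤ 2 * F * J ∧ (k = 1 ∨ A < F) ∧ IsCoprime α k ∧ IsCoprime k c ∧
      δ = α * F - k * A * X ∧ 0 < δ ∧ δ < A + F ∧ ¬ (2 : ℤ) ∣ k ∧
      ¬ (2 : ℤ) ∣ α + k * X - k * (A + F) := by
  have hJ1 : (1 : ℤ) ≤ (J : ℤ) := hB.J1
  have hN1 := hB.N1
  obtain ⟨t0, ht0⟩ : ∃ t0, t0 = A * X / F + 1 := ⟨_, rfl⟩
  have f1 : F * (t0 - 1) ≤ A * X := by
    rw [ht0, add_sub_cancel_right]; exact Int.mul_ediv_self_le F0.ne'
  have f2 : A * X < F * t0 := by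
    have := Int.lt_mul_ediv_self_add (x := A * X) F0
    rw [ht0]; linarith
  obtain ⟨α0, h1, h2, h3⟩ : ∃ α0 : ℤ, t0 ≤ α0 ∧ α0 ≤ t0 + 1 ∧ (2 : ℤ) ∣ α0 - (X + A + 1) :=
    ⟨t0 + (X + A + 1 - t0) % 2, by omega, by omega, by omega⟩
  obtain ⟨δ0, hδ0⟩ : ∃ δ0, δ0 = α0 * F - A * X := ⟨_, rfl⟩
  have d1 : 0 < δ0 := by
    have : F * t0 ≤ F * α0 := mul_le_mul_of_nonneg_left h1 F0.le
    have e : α0 * F = F * α0 := mul_comm _ _
    rw [hδ0, e]; linarith
  have d2 : δ0 ≤ 2 * F := by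
    have : F * α0 ≤ F * (t0 + 1) := mul_le_mul_of_nonneg_left h2 F0.le
    have e : α0 * F = F * α0 := mul_comm _ _
    have e2 : F * (t0 + 1) = F * (t0 - 1) + 2 * F := by ring
    rw [hδ0, e]; linarith
  have FJ : F * 1 ≤ F * J := mul_le_mul_of_nonneg_left hJ1 F0.le
  by_cases hlt : δ0 < A + F
  · refine ⟨1, α0, δ0, one_pos, by linarith, Or.inl rfl, isCoprime_one_right,
      isCoprime_one_left, by rw [hδ0]; ring, d1, hlt, by norm_num, ?_⟩
    rw [one_mul, one_mul]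
    omega
  · push Not at hlt
    have d3 : δ0 ≠ 2 * F := by
      intro h
      have h4 := hnb ⟨α0 - 2, by rw [mul_sub]; linarith [mul_comm α0 F], by omega⟩
      linarith
    have d4 : δ0 < 2 * F := lt_of_le_of_ne d2 d3
    obtain ⟨δ1, hδ1⟩ : ∃ δ1, δ1 = 2 * F - δ0 := ⟨_, rfl⟩
    have d5 : 0 < δ1 := by rw [hδ1]; linarith
    have d6 : δ1 ≤ F - A := by rw [hδ1]; linarith
    obtain ⟨n, n1, n2, n3⟩ := sievePair (k := 1) (e := 1) hB.cap (D0 := 2 * F * δ1)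
      (by positivity) (by
        refine hB.le (n := 1 + 1) (by norm_num) ?_
        exact mul_le_pow2 d5 (by rw [pow_one]; linarith) (by rw [pow_one]; linarith)
          (by linarith)) (by norm_num) (fun _ => 2 * F) (fun _ => -1) (fun _ => 0)
      (fun _ => δ1) (fun _ => by simp)
      (fun p hp _ => Or.inl ⟨hp.one_lt, fun _ _ _ h => absurd ((dvd_neg).1 h)
        (prime_not_dvd_one hp)⟩) 1
    have n4 := n3 0
    simp only [zero_mul, zero_add] at n4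
    rw [pow_one] at n2
    obtain ⟨k, hk⟩ : ∃ k, k = 2 * F * n + -1 := ⟨_, rfl⟩
    rw [← hk] at n4
    have Fn : F * 1 ≤ F * n := mul_le_mul_of_nonneg_left n1 F0.le
    have Fn2 : F * n ≤ F * J := mul_le_mul_of_nonneg_left (by linarith) F0.le
    have k0 : 0 < k := by
      have e : k = 2 * (F * n) - 1 := by rw [hk]; ring
      rw [e]; linarith
    obtain ⟨α, hα⟩ : ∃ α, α = 2 + 2 * n * (A * X) - α0 := ⟨_, rfl⟩
    have hδ : δ1 = α * F - k * A * X := by rw [hδ1, hδ0, hα, hk]; ring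
    refine ⟨k, α, δ1, k0, ?_, Or.inr (by linarith), ?_, ?_, hδ, d5, by linarith, ?_, ?_⟩
    · have e : k = 2 * (F * n) - 1 := by rw [hk]; ring
      rw [e]; linarith
    · refine isCoprime_of_prime fun p hp h5 h6 => ?_
      have h7 : (p : ℤ) ∣ δ1 := by
        rw [hδ]
        exact dvd_sub (h6.mul_right _) ((h5.mul_right _).mul_right _)
      exact not_dvd_of_isCoprime n4 hp h7 h5
    · obtain ⟨f, hf⟩ := hcF
      exact ⟨-1, 2 * n * f, by rw [hk, hf]; ring⟩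
    · intro h
      obtain ⟨y, hy⟩ := h
      have e : k = 2 * (F * n) - 1 := by rw [hk]; ring
      omega
    · obtain ⟨Q, hQ⟩ : ∃ Q, Q = n * (A * X) + F * n * X - F * n * (A + F) := ⟨_, rfl⟩
      have e : α + k * X - k * (A + F) = 2 * (1 + Q) + (A + F - X - α0) := by
        rw [hα, hk, hQ]; ring
      rw [e]
      omega

/-- sizes -/
theorem size35 (hB : Bg N J Z) {A a k α X F δ : ℤ} (hA : 0 < A) (hA20 : A ≤ (J : ℤ) ^ 20)
    (hF : 0 < F) (hF' : F ≤ (J : ℤ) ^ 180) (hX0 : 0 < X) (hX : X ≤ (J : ℤ) ^ 321) (k0 : 0 < k)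
    (hk : k ≤ 2 * F * J) (hδ : δ = α * F - k * A * X) (δ0 : 0 < δ) (δ1 : δ < A + F)
    (ha : (J : ℤ) ^ 1500 ≤ a) : ((J : ℤ) + 1) * ((α + k * X) * (α + k * X)) ≤ a := by
  have hJ1 : (1 : ℤ) ≤ (J : ℤ) := hB.J1
  have J0 : (0 : ℤ) < J := by linarith
  have hJ := hB.J20
  have hk2 : k ≤ (J : ℤ) ^ 182 := by
    have e1 : F * J ≤ (J : ℤ) ^ 180 * J := mul_le_mul_of_nonneg_right hF' J0.le
    have e2 : (J : ℤ) ^ 180 * J = (J : ℤ) ^ 181 := by ring
    have e3 : 100 * (J : ℤ) ^ 181 ≤ (J : ℤ) ^ 182 := hB.pows 181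
    have := hB.ppos 181
    linarith
  have hkX : k * X ≤ (J : ℤ) ^ 182 * (J : ℤ) ^ 321 := mul_le_mul hk2 hX hX0.le (by positivity)
  have e1 : (J : ℤ) ^ 182 * (J : ℤ) ^ 321 = (J : ℤ) ^ 503 := by ring
  have hkX0 : 0 < k * X := by positivity
  have hkAX : A * (k * X) ≤ (J : ℤ) ^ 20 * (J : ℤ) ^ 503 :=
    mul_le_mul hA20 (by rw [← e1]; exact hkX) hkX0.le (by positivity)
  have e2 : (J : ℤ) ^ 20 * (J : ℤ) ^ 503 = (J : ℤ) ^ 523 := by ring
  have hαF : α * F = δ + A * (k * X) := by rw [hδ]; ring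
  have hα0 : 0 < α := by
    have h1 : 0 < α * F := by rw [hαF]; positivity
    exact (pos_iff_pos_of_mul_pos h1).2 hF
  have hα : α ≤ α * F := le_mul_of_one_le_right hα0.le hF
  have p1 : (J : ℤ) ^ 20 ≤ (J : ℤ) ^ 523 := hB.pmono (by norm_num)
  have p2 : (J : ℤ) ^ 180 ≤ (J : ℤ) ^ 523 := hB.pmono (by norm_num)
  have p3 : (J : ℤ) ^ 503 ≤ (J : ℤ) ^ 523 := hB.pmono (by norm_num)
  have p4 : 100 * (J : ℤ) ^ 523 ≤ (J : ℤ) ^ 524 := hB.pows 523
  have hq : α + k * X ≤ (J : ℤ) ^ 524 := by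
    have := hB.ppos 523
    linarith
  have q0 : 0 ≤ α + k * X := by linarith
  have e3 : (α + k * X) * (α + k * X) ≤ (J : ℤ) ^ 524 * (J : ℤ) ^ 524 :=
    mul_le_mul hq hq q0 (by positivity)
  have e4 : ((J : ℤ) + 1) * ((α + k * X) * (α + k * X)) ≤ (2 * J) * ((J : ℤ) ^ 524 * (J : ℤ) ^ 524) :=
    mul_le_mul (by linarith) e3 (by positivity) (by positivity)
  have e5 : (2 * (J : ℤ)) * ((J : ℤ) ^ 524 * (J : ℤ) ^ 524) = 2 * (J : ℤ) ^ 1049 := by ring
  have e6 : 100 * (J : ℤ) ^ 1049 ≤ (J : ℤ) ^ 1050 := hB.pows 1049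
  have e7 : (J : ℤ) ^ 1050 ≤ (J : ℤ) ^ 1500 := hB.pmono (by norm_num)
  have := hB.ppos 1049
  linarith

/-- **the second torus is small** -/
theorem long_small (hB : Bg N J Z) {A a c z x1 : ℤ} (hA : 0 < A) (hA20 : A ≤ (J : ℤ) ^ 20)
    (hc : 2 ≤ c) (hz : 1 < z) (hcz : c * z ≤ (J : ℤ) ^ 130) (x0 : 0 ≤ x1) (x1z : x1 < z)
    (ha : (J : ℤ) ^ 1500 ≤ a) (hN : A + a + c * z = N) :
    ∃ A' a' a1' ζ : ℤ, 0 < A' ∧ 1 < a' ∧ 1 < a1' ∧ A' + a' + a1' = N ∧ (J : ℤ) ^ 155 ≤ a' ∧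
      SEq6 (NF A a c z x1) (PG A' a' a1' ζ) := by
  have hJ1 : (1 : ℤ) ≤ (J : ℤ) := hB.J1
  have J0 : (0 : ℤ) < J := by linarith
  have hJ := hB.J20
  have c0 : 0 < c := by linarith
  have z0 : 0 < z := by linarith
  have hJa : (J : ℤ) ^ 157 ≤ a := (hB.pmono (by norm_num)).trans ha
  have a0 : 0 < a := lt_of_lt_of_le (hB.ppos _) ha
  have cz0 : 0 < c * z := by positivity
  have p130 := hB.ppos 130
  have hzB : z ≤ (J : ℤ) ^ 130 := by
    have : 1 * z ≤ c * z := mul_le_mul_of_nonneg_right (by linarith) z0.le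
    linarith
  have hcB : c ≤ (J : ℤ) ^ 130 := by
    have : c * 1 ≤ c * z := mul_le_mul_of_nonneg_left (by linarith) c0.le
    linarith
  -- the vector of level `c (z - 1)`
  obtain ⟨F, hF⟩ : ∃ F, F = c * (z - 1) := ⟨_, rfl⟩
  have F0 : 0 < F := by rw [hF]; exact mul_pos c0 (by linarith)
  have Fcz : F ≤ c * z := by rw [hF]; exact mul_le_mul_of_nonneg_left (by linarith) c0.le
  have big : ∀ w0 : ℤ, -1 ≤ w0 → w0 ≤ 2 → 2 * F ≤ (z - 1) * x1 + (w0 + 4 * F) * z ∧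
      (z - 1) * x1 + (w0 + 4 * F) * z ≤ (J : ℤ) ^ 321 := by
    intro w0 h1 h2
    have e1 : 0 ≤ (z - 1) * x1 := mul_nonneg (by linarith) x0
    have e2 : (w0 + 4 * F) * 2 ≤ (w0 + 4 * F) * z :=
      mul_le_mul_of_nonneg_left (by linarith) (by linarith)
    refine ⟨by linarith, ?_⟩
    have e3 : (z - 1) * x1 ≤ z * z := mul_le_mul (by linarith) x1z.le x0 z0.le
    have e4 : (w0 + 4 * F) * z ≤ (6 * (J : ℤ) ^ 130) * (J : ℤ) ^ 130 :=
      mul_le_mul (by linarith) hzB z0.le (by positivity)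
    have e5 : z * z ≤ (J : ℤ) ^ 130 * (J : ℤ) ^ 130 := mul_le_mul hzB hzB z0.le p130.le
    have e6 : (J : ℤ) ^ 130 * (J : ℤ) ^ 130 = (J : ℤ) ^ 260 := by ring
    have e7 : (6 * (J : ℤ) ^ 130) * (J : ℤ) ^ 130 = 6 * (J : ℤ) ^ 260 := by ring
    have e8 : 100 * (J : ℤ) ^ 260 ≤ (J : ℤ) ^ 261 := hB.pows 260
    have e9 : (J : ℤ) ^ 261 ≤ (J : ℤ) ^ 321 := hB.pmono (by norm_num)
    have := hB.ppos 260
    linarith
  have hF180 : F ≤ (J : ℤ) ^ 180 := (Fcz.trans hcz).trans (hB.pmono (by norm_num))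
  have one_of : ∀ p : ℕ, p.Prime → (p : ℤ) ∣ z - (z - 1) → False := fun p hp h => by
    rw [sub_sub_cancel] at h
    exact prime_not_dvd_one hp h
  by_cases hc2 : (2 : ℤ) ∣ c
  · by_cases hAc : A < c
    · -- level `c (z - 1)`, any odd `k`
      obtain ⟨w0, w1, w2, w3, w4⟩ := notbad35 (x1 := x1) hA hAc hc2 hz hF
      obtain ⟨X, hX⟩ : ∃ X, X = (z - 1) * x1 + (w0 + 4 * F) * z := ⟨_, rfl⟩
      obtain ⟨b1, b2⟩ := big w0 w1 w2
      rw [← hX] at b1 b2 w4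
      obtain ⟨k, α, δ, k0, k1, -, k2, k3, k4, k5, k6, k7, k8⟩ := data35 hB (A := A) (F := F)
        (X := X) (c := c) hA F0 (by linarith) ⟨z - 1, hF⟩ (by rw [hF]; exact hc2.mul_right _)
        (fun h => absurd h w4)
      exact long_II hB (w := w0 + 4 * F) (y' := z - 1) hA c0 (by linarith) (by linarith) hN w3
        hX hF b1 k0 k2 k3 k4 k5 k6 (fun p hp h => (one_of p hp h).elim) k7 (fun _ => k8) hJa
        (size35 hB hA hA20 F0 hF180 (by linarith) b2 k0 k1 k4 k5 k6 ha)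
    · -- level `c`, `k = 1`
      push Not at hAc
      obtain ⟨n, hn⟩ : ∃ n, n = 1 + 6 * c := ⟨_, rfl⟩
      obtain ⟨w, hw⟩ : ∃ w, w = 1 - x1 + (z - 1) * n := ⟨_, rfl⟩
      obtain ⟨X, hX⟩ : ∃ X, X = 1 * x1 + w * z := ⟨_, rfl⟩
      have eX : X = (z - 1) * (z - 1 - x1) + (2 * z - 1) + 6 * (c * (z * (z - 1))) := by
        rw [hX, hw, hn]; ring
      have e1 : 0 ≤ (z - 1) * (z - 1 - x1) := mul_nonneg (by linarith) (by omega)
      have e2 : c * 2 ≤ c * (z * (z - 1)) := mul_le_mul_of_nonneg_left (by nlinarith) c0.le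
      have b1 : 2 * c ≤ X := by rw [eX]; linarith
      have b2 : X ≤ (J : ℤ) ^ 321 := by
        have f1 : (z - 1) * (z - 1 - x1) ≤ z * z :=
          mul_le_mul (by linarith) (by linarith) (by omega) z0.le
        have f2 : z * z ≤ (J : ℤ) ^ 130 * (J : ℤ) ^ 130 := mul_le_mul hzB hzB z0.le p130.le
        have f3 : (J : ℤ) ^ 130 * (J : ℤ) ^ 130 = (J : ℤ) ^ 260 := by ring
        have f4 : c * (z * (z - 1)) ≤ (J : ℤ) ^ 130 * (J : ℤ) ^ 130 := by
          have g1 : c * (z * (z - 1)) = (c * z) * (z - 1) := by ring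
          rw [g1]
          exact mul_le_mul hcz (by linarith) (by linarith) p130.le
        have e8 : 100 * (J : ℤ) ^ 260 ≤ (J : ℤ) ^ 261 := hB.pows 260
        have e9 : (J : ℤ) ^ 261 ≤ (J : ℤ) ^ 321 := hB.pmono (by norm_num)
        have e10 : (J : ℤ) ^ 130 ≤ (J : ℤ) ^ 260 := hB.pmono (by norm_num)
        have := hB.ppos 260
        rw [eX]
        linarith
      obtain ⟨k, α, δ, k0, k1, kc, k2, k3, k4, k5, k6, k7, k8⟩ := data35 hB (A := A) (F := c)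
        (X := X) (c := c) hA c0 (by linarith) dvd_rfl hc2
        (fun h => by
          obtain ⟨τ, t1, t2⟩ := h
          rcases lt_or_eq_of_le hAc with h3 | h3
          · exact h3
          · exfalso
            rw [← h3] at t1 t2
            have t3 : X = τ := mul_left_cancel₀ c0.ne' t1
            omega)
      have hk1 : k = 1 := by
        rcases kc with h | h
        · exact h
        · omega
      have cw : IsCoprime w 1 := isCoprime_one_right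
      exact long_II hB (w := w) (y' := 1) (F := c) hA c0 one_pos hz hN cw hX (by ring) b1 k0 k2
        k3 k4 k5 k6 (fun p hp h => by
          intro h2
          rw [hk1, hw] at h2
          have e : 1 * (x1 + (1 - x1 + (z - 1) * n)) - (z - 1) * n = 1 := by ring
          have := dvd_sub h2 (h.mul_right n)
          rw [e] at this
          exact prime_not_dvd_one hp this) k7 (fun _ => k8) hJa
        (size35 hB hA hA20 c0 (hcB.trans (hB.pmono (by norm_num))) (by linarith) b2 k0 k1 k4 k5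
          k6 ha)
  · -- `c` odd
    obtain ⟨X, hX⟩ : ∃ X, X = (z - 1) * x1 + (1 + 4 * F) * z := ⟨_, rfl⟩
    obtain ⟨b1, b2⟩ := big 1 (by norm_num) (by norm_num)
    rw [← hX] at b1 b2
    obtain ⟨t0, ht0⟩ : ∃ t0, t0 = A * X / F + 1 := ⟨_, rfl⟩
    have f1 : F * (t0 - 1) ≤ A * X := by
      rw [ht0, add_sub_cancel_right]; exact Int.mul_ediv_self_le F0.ne'
    have f2 : A * X < F * t0 := by
      have := Int.lt_mul_ediv_self_add (x := A * X) F0
      rw [ht0]; linarith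
    obtain ⟨δ, hδ⟩ : ∃ δ, δ = t0 * F - 1 * A * X := ⟨_, rfl⟩
    have d1 : 0 < δ := by
      have e : δ = F * t0 - A * X := by rw [hδ]; ring
      rw [e]; linarith
    have d2 : δ < A + F := by
      have e : δ = F * (t0 - 1) - A * X + F := by rw [hδ]; ring
      rw [e]; linarith
    have FJ : F * 1 ≤ F * J := mul_le_mul_of_nonneg_left hJ1 F0.le
    exact long_II hB (w := 1 + 4 * F) (y' := z - 1) (k := 1) (α := t0) hA c0 (by linarith)
      (by linarith) hN ⟨1, -(4 * c), by rw [hF]; ring⟩ hX hF b1 one_pos isCoprime_one_right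
      isCoprime_one_left hδ d1 d2 (fun p hp h => (one_of p hp h).elim) (by norm_num)
      (fun h => absurd h hc2) hJa
      (size35 hB hA hA20 F0 hF180 (by linarith) b2 one_pos (by linarith) hδ d1 d2 ha)

/-- **LONG**: `b = 1`, the first torus is long: exit to contents (1,1) -/
theorem long11 (hB : Bg N J Z) (h2000 : (J : ℤ) ^ 2000 ≤ N) {A a c z x G : ℤ} (hA : 0 < A)
    (hA20 : A ≤ (J : ℤ) ^ 20) (hc : 2 ≤ c) (hz : 1 < z) (Gz : G ∣ z) (Gx : G ∣ x) (G0 : 0 < G)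
    (hcz : c * z ≤ G * (J : ℤ) ^ 36) (hT : (J : ℤ) ^ 130 * (c * z) ≤ a)
    (hN : A + a + c * z = N) :
    ∃ A' a' a1' ζ : ℤ, 0 < A' ∧ 1 < a' ∧ 1 < a1' ∧ A' + a' + a1' = N ∧ (J : ℤ) ^ 155 ≤ a' ∧
      SEq6 (NF A a c z x) (PG A' a' a1' ζ) := by
  have hJ1 : (1 : ℤ) ≤ (J : ℤ) := hB.J1
  have J0 : (0 : ℤ) < J := by linarith
  have hJ := hB.J20
  have c0 : 0 < c := by linarith
  have z0 : 0 < z := by linarith
  have cz0 : 0 < c * z := by positivity
  obtain ⟨g, F0, y, g0, F00, h1, h2, h3, h4, h5, h6⟩ := NF_vert (A := A) (a := a) (x := x) c0 z0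
  have hlat : lat (x, c) (z, 0) = lat (0, F0) (g, y) := congrArg St6.M h6
  have Gg : G ∣ g := by
    have : ((g, y) : Z2) ∈ lat (x, c) (z, 0) := by
      rw [hlat]; exact mem_lat.2 ⟨0, 1, by simp⟩
    obtain ⟨i, j, hij⟩ := mem_lat.1 this
    have := congrArg Prod.fst hij
    simp only [Prod.fst_add, Prod.smul_fst, smul_eq_mul] at this
    rw [← this]
    exact dvd_add (Gx.mul_left _) (Gz.mul_left _)
  have Gle : G ≤ g := Int.le_of_dvd g0 Gg
  have hF36 : F0 ≤ (J : ℤ) ^ 36 := by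
    have e1 : G * (J : ℤ) ^ 36 ≤ g * (J : ℤ) ^ 36 :=
      mul_le_mul_of_nonneg_right Gle (hB.ppos 36).le
    exact le_of_mul_le_mul_left (by linarith) g0
  by_cases hg : (J : ℤ) ^ 90 ≤ g
  · rw [h6]
    refine long_I hB hA hA20 F00 (hF36.trans (hB.pmono (by norm_num))) hg ?_ (by rw [h1]; exact hN)
    have e1 : g ≤ c * z := by
      rw [← h1]; exact le_mul_of_one_le_right g0.le F00
    have e2 : (J : ℤ) ^ 90 * g ≤ (J : ℤ) ^ 130 * (c * z) :=
      mul_le_mul (hB.pmono (by norm_num)) e1 g0.le (hB.ppos _).le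
    exact e2.trans hT
  · push Not at hg
    have hczB : c * z ≤ (J : ℤ) ^ 130 := by
      have e1 : g * F0 ≤ (J : ℤ) ^ 90 * (J : ℤ) ^ 36 := mul_le_mul hg.le hF36 F00.le (hB.ppos _).le
      have e2 : (J : ℤ) ^ 90 * (J : ℤ) ^ 36 = (J : ℤ) ^ 126 := by ring
      have e3 : (J : ℤ) ^ 126 ≤ (J : ℤ) ^ 130 := hB.pmono (by norm_num)
      linarith
    have ha : (J : ℤ) ^ 1500 ≤ a := by
      have e1 : (J : ℤ) ^ 20 ≤ (J : ℤ) ^ 1500 := hB.pmono (by norm_num)
      have e2 : (J : ℤ) ^ 130 ≤ (J : ℤ) ^ 1500 := hB.pmono (by norm_num)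
      have e3 : 100 * (J : ℤ) ^ 1500 ≤ (J : ℤ) ^ 1501 := hB.pows 1500
      have e4 : (J : ℤ) ^ 1501 ≤ (J : ℤ) ^ 2000 := hB.pmono (by norm_num)
      have := hB.ppos 1500
      linarith
    have e6 : NF A a c z x = NF A a c z (x % z) := by
      rw [NF_eq, NF_eq]
      refine NL.congr (closure_pair_eq (α := 1) (β := -(x / z)) (γ := 0) (δ := 1) ?_ ?_
        (Or.inl (by norm_num))).symm
      · have e : x % z = x - z * (x / z) := by
          have := Int.mul_ediv_add_emod x z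
          linarith
        ext
        · simp only [Prod.fst_add, Prod.smul_fst, smul_eq_mul, e]; ring
        · simp
      · ext <;> simp
    rw [e6]
    exact long_small hB hA hA20 hc hz hczB (Int.emod_nonneg _ z0.ne')
      (Int.emod_lt_of_pos _ z0) ha hN

end Pool.Agent.H4G.Six
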