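import Pool.Agent.H4G.Six.D2.B1of88
import Pool.Agent.H4G.Six.D2.Long35d

/-!
# The long case of `b1_of'` (helper35)
-/

set_option autoImplicit false

namespace Pool.Agent.H4G.Six

open Pool.Agent.H4G

variable {N : ℤ} {J Z : ℕ}

/-- **THE LONG CASE** -/
theorem longStmt (hB : Bg N J Z) (hJN : (J : ℤ) ^ 2000 ≤ N) : LongStmt N J 130 := by
  intro A a c z x G A0 hA hc hz G0 Gz Gx _ h1 h2 hN
  obtain ⟨A', a', a1', ζ, r1, r2, r3, r4, r5, r6⟩ :=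
    long11 hB hJN A0 hA hc hz Gz Gx G0 h1 h2 hN
  exact ⟨A', a', a1', ζ, r1, r2, r3, r4, r6, Or.inr (Or.inl r5)⟩

end Pool.Agent.H4G.Six
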