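import Pool.Agent.H4G.Six.D2.Fin11
import Pool.Agent.H4G.Six.D2.G4
import Pool.Agent.H4G.Six.NR.Bound

/-!
# Roomy trees for large `N` (helper46)

`roomS_of`: the statement `RoomS N B` from the sieve length and `B ^ 226380 < N`.
`room_data C`: for large `N` there are `J`, `Z` with `Bg N J Z` and `RoomS N (J ^ C)`.
-/

set_option autoImplicit false

namespace Pool.Agent.H4G.Six

open Pool.Agent.H4G

/-- the sieve in a window of length `J` -/
theorem Cap.window {J Z : ℕ} (h : Cap J Z) {M : ℤ} (hM : M ≤ Z) :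
    ∀ a n : ℤ, 0 < n → n ≤ M → ∃ y, a ≤ y ∧ y < a + J ∧ IsCoprime n y := by
  intro a n h0 h1
  obtain ⟨y, y1, y2, y3⟩ := cop_window h h0.ne' (by rw [abs_of_pos h0]; linarith) a
  exact ⟨y, y1, y2, y3.symm⟩

theorem roomS_of {N J Z : ℕ} {B : ℤ} (hcap : Cap J Z) (hZ : N ^ 2 ≤ Z) (hB : 10 ^ 6 ≤ B)
    (hJ : J + 2 ≤ B) (hNB : B ^ 226380 < N) : RoomS N B := by
  intro O u v l q m s hO hp hT hN h
  have h1 := h.bound hO.trans hp (by rw [Nat.card_eq_fintype_card, Fintype.card_fin]) hT hN hB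
    (Int.natCast_nonneg J) hJ (Cap.window hcap (by exact_mod_cast hZ))
  linarith

theorem NoRoom.mono {X : Type} {O : PO X} {N B B' : ℤ} (h : NoRoom O N B) (hB : B ≤ B') :
    NoRoom O N B' := by
  intro u v l q m s h1 h2
  obtain ⟨a0, c0, c0', -⟩ := h1.areas h2
  obtain ⟨g1, g2⟩ := h u v l q m s h1 h2
  have k1 : B * (cr u v + ct u m s) ≤ B' * (cr u v + ct u m s) :=
    mul_le_mul_of_nonneg_right hB (by linarith)
  have k2 : B * (cr u v + ct u l q) ≤ B' * (cr u v + ct u l q) :=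
    mul_le_mul_of_nonneg_right hB (by linarith)
  exact ⟨by linarith, by linarith⟩

theorem RoomS.mono {N : ℕ} {B B' : ℤ} (h : RoomS N B') (hB : B ≤ B') : RoomS N B :=
  fun O u v l q m s hO hp hT hN hn => h O u v l q m s hO hp hT hN (hn.mono hB)

/-- the sieve data with any power -/
theorem exists_BgK (k : ℕ) : ∃ N0 : ℕ, ∀ N : ℕ, N0 ≤ N → ∃ J Z : ℕ, Bg (N : ℤ) J Z ∧
    (J : ℤ) ^ k ≤ N := by
  obtain ⟨N0, h⟩ := cap_exists (2 ^ 20) (max k 200) 21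
  refine ⟨max N0 (2 ^ 20), fun N hN => ?_⟩
  obtain ⟨J, h1, h2, h3⟩ := h N (le_trans (le_max_left _ _) hN)
  have hN2 : 2 ^ 20 ≤ N := le_trans (le_max_right _ _) hN
  have hJ : 1 ≤ J := le_trans (by norm_num) h1
  have h4 : J ^ 200 ≤ N := (Nat.pow_le_pow_right hJ (le_max_right _ _)).trans h2
  have h5 : J ^ k ≤ N := (Nat.pow_le_pow_right hJ (le_max_left _ _)).trans h2
  refine ⟨J, N ^ 21, ⟨h1, h3, ?_, by exact_mod_cast h4⟩, by exact_mod_cast h5⟩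
  have e : (2 * N) ^ 20 ≤ N ^ 21 := by
    calc (2 * N) ^ 20 = 2 ^ 20 * N ^ 20 := by ring
      _ ≤ N * N ^ 20 := Nat.mul_le_mul_right _ hN2
      _ = N ^ 21 := by ring
  exact_mod_cast e

/-- **ROOMY TREES**: `B = J ^ C` -/
theorem room_data (C k : ℕ) (hC : 2 ≤ C) : ∃ N0 : ℕ, ∀ N : ℕ, N0 ≤ N → ∃ J Z : ℕ,
    Bg (N : ℤ) J Z ∧ (J : ℤ) ^ k ≤ N ∧ RoomS N ((J : ℤ) ^ C) := by
  obtain ⟨N0, h⟩ := exists_BgK (max k (C * 226380 + 1))
  refine ⟨N0, fun N hN => ?_⟩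
  obtain ⟨J, Z, h1, h2⟩ := h N hN
  have hJ := h1.J20
  have h3 : (J : ℤ) ^ k ≤ N := (pow_le_pow_right₀ h1.J1 (le_max_left _ _)).trans h2
  have h4 : (J : ℤ) ^ (C * 226380 + 1) ≤ N :=
    (pow_le_pow_right₀ h1.J1 (le_max_right _ _)).trans h2
  have hJ2 : (J : ℤ) ^ 2 ≤ (J : ℤ) ^ C := pow_le_pow_right₀ h1.J1 hC
  have hJJ : (2 : ℤ) ^ 20 * J ≤ (J : ℤ) ^ 2 := by
    rw [pow_two]
    exact mul_le_mul_of_nonneg_right hJ (by linarith)
  refine ⟨J, Z, h1, h3, roomS_of h1.cap ?_ ?_ ?_ ?_⟩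
  · have h5 : ((N : ℤ)) ^ 2 ≤ (Z : ℤ) := by
      have h6 : (N : ℤ) ^ 2 ≤ (2 * (N : ℤ)) ^ 2 := by
        apply pow_le_pow_left₀ (Int.natCast_nonneg _)
        have : (0 : ℤ) ≤ N := Int.natCast_nonneg _
        linarith
      exact h1.le (n := 2) (by norm_num) h6
    exact_mod_cast h5
  · linarith
  · linarith
  · have h5 : (J : ℤ) ^ (C * 226380 + 1) = (J : ℤ) * ((J : ℤ) ^ C) ^ 226380 := by
      rw [← pow_mul, pow_succ, mul_comm]
    rw [h5] at h4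
    have h6 : 0 < ((J : ℤ) ^ C) ^ 226380 := pow_pos (pow_pos (by linarith) _) _
    have h7 : 2 * ((J : ℤ) ^ C) ^ 226380 ≤ (J : ℤ) * ((J : ℤ) ^ C) ^ 226380 :=
      mul_le_mul_of_nonneg_right (by linarith) h6.le
    linarith

/-- the form of helper96: every `B` with `B ^ C ≤ N` -/
theorem roomS_large : ∃ N1 C : ℕ, ∀ N : ℕ, N1 ≤ N → ∀ B : ℤ, 10 ^ 6 ≤ B → B ^ C ≤ N →
    RoomS N B := by
  obtain ⟨N0, h⟩ := room_data 2 0 le_rfl
  refine ⟨N0, 226381, fun N hN B hB hBN => ?_⟩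
  obtain ⟨J, Z, h1, -, h2⟩ := h N hN
  rcases le_total B ((J : ℤ) ^ 2) with h3 | h3
  · exact h2.mono h3
  · have hJ := h1.J20
    have hJJ : (2 : ℤ) ^ 20 * J ≤ (J : ℤ) ^ 2 := by
      rw [pow_two]
      exact mul_le_mul_of_nonneg_right hJ (by linarith)
    refine roomS_of h1.cap ?_ hB (by linarith) ?_
    · have h5 : ((N : ℤ)) ^ 2 ≤ (Z : ℤ) := by
        have h6 : (N : ℤ) ^ 2 ≤ (2 * (N : ℤ)) ^ 2 := by
          apply pow_le_pow_left₀ (Int.natCast_nonneg _)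
          have : (0 : ℤ) ≤ N := Int.natCast_nonneg _
          linarith
        exact h1.le (n := 2) (by norm_num) h6
      exact_mod_cast h5
    · rw [show (226381 : ℕ) = 226380 + 1 from rfl, pow_succ] at hBN
      have h6 : 0 < B ^ 226380 := pow_pos (by linarith) _
      have h7 : B ^ 226380 * 2 ≤ B ^ 226380 * B :=
        mul_le_mul_of_nonneg_left (by linarith) h6.le
      linarith

end Pool.Agent.H4G.Six
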