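import Pool.Agent.H4G.Six.D2.Flat53
import Pool.Agent.H4G.Six.D2.BothDS

/-!
# From roomy to double small or both small (glue 6.1 + 6.2 of the page D2; Lean: helper53)

If there is a roomy tree (`¬ NoRoom O N B`) and `D ≪ B` there is a tree with `A, b, b' ≤ N / D`
or a tree with both contents at most `4 D N / B` and `L`-area at least `N / 4 D`.
-/

set_option autoImplicit false

namespace Pool.Agent.H4G.Six

open Pool.Agent.H4G

variable {X : Type} {O : PO X} {N : ℤ} {u v l q m s : Z2}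

/-- one side -/
theorem TN.start {J C : ℕ} {D B : ℤ} (hcap : Cap J C) (hC : 64 * N ^ 7 ≤ C)
    (h : TN O N u v l q m s) (hD : 1 ≤ D) (hB : 32 * ((J : ℤ) + 1) * D ^ 2 ≤ B)
    (hr : B * (cr u v + ct u m s) ≤ cr u l + cr q l) :
    ∃ u' v' l' q' m' s' : Z2, TN O N u' v' l' q' m' s' ∧
      ((D * cr u' v' ≤ N ∧ D * ct u' l' q' ≤ N ∧ D * ct u' m' s' ≤ N) ∨
        (B * ct u' l' q' ≤ 4 * D * N ∧ B * ct u' m' s' ≤ 4 * D * N ∧
          N ≤ 4 * D * cr u' l')) := by
  obtain ⟨p1, p2, p3, p4, p5⟩ := h.pos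
  have hsum := h.sum
  have c' := ct_pos (q := s) p3
  have hDB : D ≤ B := by
    have h1 : (1:ℤ) ≤ 32 * ((J : ℤ) + 1) := by
      have : (0:ℤ) ≤ (J : ℤ) := Int.natCast_nonneg J
      linarith
    calc D = 1 * (D * 1) := by ring
      _ ≤ 32 * ((J : ℤ) + 1) * (D * D) := by
        refine mul_le_mul h1 (mul_le_mul_of_nonneg_left hD (by linarith)) (by linarith)
          (by positivity)
      _ = 32 * ((J : ℤ) + 1) * D ^ 2 := by ring
      _ ≤ B := hB
  have hN : B * (cr u v + ct u m s) ≤ N := by linarith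
  by_cases hb : D * ct u l q ≤ N
  · refine ⟨u, v, l, q, m, s, h, Or.inl ⟨?_, hb, ?_⟩⟩
    · have : D * cr u v ≤ B * (cr u v + ct u m s) :=
        mul_le_mul hDB (by linarith) p1.le (by linarith)
      linarith
    · have : D * ct u m s ≤ B * (cr u v + ct u m s) :=
        mul_le_mul hDB (by linarith) c'.le (by linarith)
      linarith
  · push Not at hb
    obtain ⟨y, v', l', q', m', s', k1, k2, k3, k4⟩ := h.flat hcap hC hD (by linarith) hN hb.le hB
    exact ⟨y, v', l', q', m', s', k1, Or.inr ⟨k2, k3, k4⟩⟩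

/-- **START**: a roomy tree gives a double small tree or a tree with small contents and one large
torus (always the first one, after a half turn) -/
theorem start_of_roomy {J C : ℕ} {D B : ℤ} (hcap : Cap J C) (hC : 64 * N ^ 7 ≤ C) (hD : 1 ≤ D)
    (hB : 32 * ((J : ℤ) + 1) * D ^ 2 ≤ B) (hR : ¬ NoRoom O N B) :
    ∃ u v l q m s : Z2, TN O N u v l q m s ∧
      ((D * cr u v ≤ N ∧ D * ct u l q ≤ N ∧ D * ct u m s ≤ N) ∨
        (B * ct u l q ≤ 4 * D * N ∧ B * ct u m s ≤ 4 * D * N ∧ N ≤ 4 * D * cr u l)) := by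
  have h1 : ∃ u v l q m s : Z2, TN O N u v l q m s ∧
      B * (cr u v + ct u m s) ≤ cr u l + cr q l := by
    by_contra hcon
    push Not at hcon
    refine hR fun u v l q m s g1 g2 => ⟨hcon u v l q m s ⟨g1, g2⟩, ?_⟩
    have h3 := hcon (-u) (-v) (-m) (-s) (-l) (-q) (TN.swap ⟨g1, g2⟩)
    rw [ct_neg] at h3
    simp only [cr_negl, cr_negr, neg_neg] at h3
    exact h3
  obtain ⟨u, v, l, q, m, s, h2, h3⟩ := h1
  exact h2.start hcap hC hD hB h3

/-- **START, complete**: a roomy tree gives a double small tree -/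
theorem start_ds {J C : ℕ} {G B : ℤ} (hcap : Cap J C) (hC : 64 * N ^ 7 ≤ C) (hG : 10 ^ 6 ≤ G)
    (hJ : 8 * (J : ℤ) ≤ G) (hB : G ^ 346 ≤ B) (hR : ¬ NoRoom O N B) :
    ∃ u v l q m s : Z2, TN O N u v l q m s ∧ G ^ 4 * cr u v ≤ N ∧ G ^ 4 * ct u l q ≤ N ∧
      G ^ 4 * ct u m s ≤ N := by
  have G0 : 0 < G := by linarith
  have J0 : (0:ℤ) ≤ (J : ℤ) := Int.natCast_nonneg J
  have pw : ∀ {i j : ℕ}, i ≤ j → G ^ i ≤ G ^ j := fun {i j} hij =>
    pow_le_pow_right₀ (by linarith) hij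
  have hB1 : 32 * ((J : ℤ) + 1) * (G ^ 5) ^ 2 ≤ B := by
    calc 32 * ((J : ℤ) + 1) * (G ^ 5) ^ 2 = (32 * ((J : ℤ) + 1)) * G ^ 10 := by ring
      _ ≤ (G * G) * G ^ 10 := by
        refine mul_le_mul_of_nonneg_right ?_ (by positivity)
        have h1 : 32 * ((J : ℤ) + 1) ≤ 4 * G + 32 := by linarith
        have h2 : 10 ^ 6 * G ≤ G * G := mul_le_mul_of_nonneg_right hG G0.le
        linarith
      _ = G ^ 12 := by ring
      _ ≤ G ^ 346 := pw (by norm_num)
      _ ≤ B := hB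
  obtain ⟨u, v, l, q, m, s, h, h1⟩ := start_of_roomy (D := G ^ 5) hcap hC
    (one_le_pow₀ (by linarith)) hB1 hR
  obtain ⟨p1, p2, p3, p4, p5⟩ := h.pos
  have c0 := ct_pos (q := q) p2
  have c0' := ct_pos (q := s) p3
  have hsum := h.sum
  have hN : 0 < N := by linarith
  rcases h1 with ⟨h2, h3, h4⟩ | ⟨h2, h3, h4⟩
  · have h5 : ∀ x : ℤ, 0 < x → G ^ 5 * x ≤ N → G ^ 4 * x ≤ N := fun x hx hxN =>
      (mul_le_mul_of_nonneg_right (pw (by norm_num)) hx.le).trans hxN
    exact ⟨u, v, l, q, m, s, h, h5 _ p1 h2, h5 _ c0 h3, h5 _ c0' h4⟩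
  · -- both contents small
    have h5 : ∀ x : ℤ, 0 < x → B * x ≤ 4 * G ^ 5 * N → G ^ 340 * x ≤ N := by
      intro x hx hxN
      have g1 : G ^ 6 * (G ^ 340 * x) ≤ G ^ 6 * N := by
        calc G ^ 6 * (G ^ 340 * x) = G ^ 346 * x := by ring
          _ ≤ B * x := mul_le_mul_of_nonneg_right hB hx.le
          _ ≤ 4 * G ^ 5 * N := hxN
          _ ≤ G * G ^ 5 * N := by
            refine mul_le_mul_of_nonneg_right ?_ hN.le
            exact mul_le_mul_of_nonneg_right (by linarith) (by positivity)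
          _ = G ^ 6 * N := by ring
      exact le_of_mul_le_mul_left g1 (by positivity)
    have h6 := h5 _ c0 h2
    have h7 := h5 _ c0' h3
    have h8 : N < G ^ 6 * (cr u l + cr q l) := by
      have g1 : 0 < cr u l + cr q l := by linarith
      calc N ≤ 4 * G ^ 5 * cr u l := h4
        _ ≤ 4 * G ^ 5 * (cr u l + cr q l) :=
          mul_le_mul_of_nonneg_left (by linarith) (by positivity)
        _ < G * G ^ 5 * (cr u l + cr q l) := by
          refine mul_lt_mul_of_pos_right ?_ g1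
          exact mul_lt_mul_of_pos_right (by linarith) (by positivity)
        _ = G ^ 6 * (cr u l + cr q l) := by ring
    have hX : 64 * N ^ 4 ≤ C := by
      have g1 : N ^ 4 ≤ N ^ 7 := pow_le_pow_right₀ (by linarith) (by norm_num)
      linarith
    obtain ⟨z, v', l', q', m', s', t, t1, t2, t3⟩ := h.both_ds hcap hX hG hJ (Or.inl h8) h6 h7
    have g2 : ∀ x y : ℤ, 0 < x → G ^ 340 * x ≤ N → y ∣ 4 * x → G ^ 4 * y ≤ N := by
      intro x y hx hxN hy
      have g3 : y ≤ 4 * x := Int.le_of_dvd (by linarith) hy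
      calc G ^ 4 * y ≤ G ^ 4 * (4 * x) := mul_le_mul_of_nonneg_left g3 (by positivity)
        _ = (4 * G ^ 4) * x := by ring
        _ ≤ (G * G ^ 4) * x := by
          refine mul_le_mul_of_nonneg_right ?_ hx.le
          exact mul_le_mul_of_nonneg_right (by linarith) (by positivity)
        _ = G ^ 5 * x := by ring
        _ ≤ G ^ 340 * x := mul_le_mul_of_nonneg_right (pw (by norm_num)) hx.le
        _ ≤ N := hxN
    exact ⟨z, v', l', q', m', s', t, t1, g2 _ _ c0 h6 t2, g2 _ _ c0' h7 t3⟩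

end Pool.Agent.H4G.Six
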