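import Pool.Agent.H4G.Six.D2.MainDefs96
import Pool.Agent.H4G.Six.D2.E0full69
import Pool.Agent.H4G.Six.D2.E1full14
import Pool.Agent.H4G.Six.D2.Start53
import Pool.Agent.H4G.Six.D2.HalfD2
import Pool.Agent.H4G.Six.D2.B111
import Pool.Agent.H4G.Six.D2.RoomS46
import Pool.Agent.H4G.Six.D2.EscAll41

/-!
# Part (i), the chain (helper96)

`RowBlk`: from a double small tree to a tree with a whole block of rich slits (same origami; `u`
primitive is kept). With it: roomy tree, double small, block, `E0` (`u` primitive), double small,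
block, `E1` (a content 1), end.
-/

set_option autoImplicit false

namespace Pool.Agent.H4G.Six

open Pool.Agent.H4G

variable {X : Type} {O : PO X} {N : ℤ} {u v l q m s : Z2} {J Z : ℕ}

/-- **E0** -/
theorem BlkT.e0 (hB : Bg N J Z) {d : ℕ} (h : BlkT O N J (d + 12) u v l q m s)
    (hS : AddSubgroup.closure ({u, v, l, q, m, s} : Set Z2) = ⊤) :
    ∃ z v' l1 q1 m1 : Z2, TN O N z v' l1 q1 m1 s ∧ IsCoprime z.1 z.2 ∧
      (J : ℤ) ^ d * (cr z v' + ct z l1 q1 + ct z m1 s) ≤ N := by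
  obtain ⟨n, hn⟩ := h.blk
  obtain ⟨p1, p2, p3, p4, p5⟩ := h.tree.pos
  have hsum := h.tree.sum
  have J0 : (2 : ℤ) ^ 20 ≤ J := by exact_mod_cast hB.J0
  have J1 : (1 : ℤ) ≤ J := by linarith
  have Jn : 1 ≤ J := by exact_mod_cast J1
  have pw : ∀ {i j : ℕ}, i ≤ j → (J : ℤ) ^ i ≤ (J : ℤ) ^ j := fun h => pow_le_pow_right₀ J1 h
  have j2 : (16 : ℤ) * 2 ^ 10 * J ≤ J ^ 2 := by nlinarith
  have hN1 := hB.N1
  have hbig := h.big
  have hJd : (0 : ℤ) < (J : ℤ) ^ d := by positivity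
  obtain ⟨z, v', l1, q1, m1, a1, a2, a3, a4, a5, a6, a7, a8, a9, a10, a11, a12⟩ :=
    E0full (J := J) (X' := Z) (K := (J : ℤ) ^ 3) (K1 := (J : ℤ) ^ (d + 12)) (K2 := (J : ℤ) ^ 7)
      (K3 := (J : ℤ) ^ 8) (Kw := (J : ℤ) ^ (d + 4)) (T := 2 * J) (T2 := (J : ℤ) ^ (d + 2))
      (n := n) h.tree.has h.tree.vol h.us hS hB.cap Jn
      (by nlinarith) (by nlinarith [pow_le_pow_left₀ (by norm_num) J0 3])
      (by
        refine le_trans ?_ hB.hZ
        have e1 : ((J : ℤ) ^ 3) ^ 2 ≤ N := by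
          rw [← pow_mul]
          exact (pw (by norm_num)).trans hB.hN
        calc ((J : ℤ) ^ 3) ^ 2 * N ^ 4 ≤ N * N ^ 4 :=
              mul_le_mul_of_nonneg_right e1 (by positivity)
          _ = N ^ 5 := by ring
          _ ≤ N ^ 20 := pow_le_pow_right₀ (by linarith) (by norm_num)
          _ ≤ (2 * N) ^ 20 := pow_le_pow_left₀ (by linarith) (by linarith) 20)
      (by
        have e1 : ((J : ℤ) ^ 3) ^ 2 = (J : ℤ) ^ 6 := by ring
        have e2 : (J : ℤ) ^ 7 = J * (J : ℤ) ^ 6 := by ring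
        rw [e1, e2]
        exact mul_le_mul_of_nonneg_right (by linarith) (by positivity))
      (by
        have e2 : (J : ℤ) ^ 8 = J * (J : ℤ) ^ 7 := by ring
        rw [e2]
        exact mul_le_mul_of_nonneg_right (by linarith) (by positivity))
      (by linarith)
      (by
        calc (2 : ℤ) ≤ J ^ 1 := by linarith
          _ ≤ J ^ (d + 2) := pw (by omega))
      (by
        have e2 : (J : ℤ) ^ (d + 4) = (J : ℤ) ^ (d + 2) * J ^ 2 := by ring
        rw [e2]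
        have : (512 : ℤ) * (2 * J + 1) ≤ J ^ 2 := by linarith
        calc 512 * (J : ℤ) ^ (d + 2) * (2 * J + 1) = (J : ℤ) ^ (d + 2) * (512 * (2 * J + 1)) := by
              ring
          _ ≤ _ := mul_le_mul_of_nonneg_left this (by positivity))
      (by
        have e2 : (J : ℤ) ^ (d + 12) = J * ((J : ℤ) ^ (d + 4) * J ^ 7) := by ring
        rw [e2, mul_assoc]
        exact mul_le_mul_of_nonneg_right (by linarith) (by positivity))
      (by
        have e2 : (J : ℤ) ^ (d + 12) = ((J : ℤ) ^ 8 * (J : ℤ) ^ (d + 2)) * J ^ 2 := by ring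
        rw [e2]
        have : (128 : ℤ) * (2 * J + 1) ≤ J ^ 2 := by linarith
        calc 128 * (J : ℤ) ^ 8 * (J : ℤ) ^ (d + 2) * (2 * J + 1) =
              ((J : ℤ) ^ 8 * (J : ℤ) ^ (d + 2)) * (128 * (2 * J + 1)) := by ring
          _ ≤ _ := mul_le_mul_of_nonneg_left this (by positivity))
      (by
        refine lt_of_le_of_lt ?_ hbig
        have e1 : 3 * ((J : ℤ) ^ (d + 4)) ^ 2 ≤ (J : ℤ) ^ (2 * (d + 12)) := by
          have e2 : (J : ℤ) ^ (2 * (d + 12)) = J ^ 16 * ((J : ℤ) ^ (d + 4)) ^ 2 := by ring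
          rw [e2]
          refine mul_le_mul_of_nonneg_right ?_ (by positivity)
          calc (3 : ℤ) ≤ J ^ 1 := by linarith
            _ ≤ J ^ 16 := pw (by norm_num)
        exact mul_le_mul_of_nonneg_right e1 (by linarith))
      hn
  refine ⟨z, v', l1, q1, m1, ⟨a1, a2⟩, a3, ?_⟩
  obtain ⟨g1, g2, g3, g4, g5⟩ := a1.pos
  have c1 := ct_le (q := q1) g2
  have c2 := ct_le (q := s) g3
  have e1 : cr z v' + ct z l1 q1 + ct z m1 s ≤ cr u v + cr u l1 + cr u m := by linarith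
  refine (mul_le_mul_of_nonneg_left e1 hJd.le).trans ?_
  have e2 : 2 * ((J : ℤ) ^ d * cr u l1) ≤ cr u l + cr q l := by
    refine le_trans ?_ a8
    have : (2 : ℤ) * J ^ d ≤ J ^ (d + 2) := by
      have e3 : (J : ℤ) ^ (d + 2) = J ^ 2 * J ^ d := by ring
      rw [e3]
      exact mul_le_mul_of_nonneg_right (by linarith) hJd.le
    calc 2 * ((J : ℤ) ^ d * cr u l1) = 2 * J ^ d * cr u l1 := by ring
      _ ≤ _ := mul_le_mul_of_nonneg_right this a7.le
  have e3 : 2 * ((J : ℤ) ^ d * (cr u v + cr u m)) ≤ cr u l + cr q l := by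
    refine le_trans ?_ hbig.le
    have : (2 : ℤ) * J ^ d ≤ J ^ (2 * (d + 12)) := by
      calc (2 : ℤ) * J ^ d ≤ J * J ^ d := mul_le_mul_of_nonneg_right (by linarith) hJd.le
        _ = J ^ (d + 1) := by ring
        _ ≤ _ := pw (by omega)
    calc 2 * ((J : ℤ) ^ d * (cr u v + cr u m)) = 2 * J ^ d * (cr u v + cr u m) := by ring
      _ ≤ _ := mul_le_mul_of_nonneg_right this (by linarith)
  have e4 : (J : ℤ) ^ d * (cr u v + cr u l1 + cr u m) ≤ cr u l + cr q l := by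
    have : (J : ℤ) ^ d * (cr u v + cr u l1 + cr u m) =
        J ^ d * cr u l1 + J ^ d * (cr u v + cr u m) := by ring
    rw [this]
    linarith
  linarith

/-- **E1** -/
theorem BlkT.e1 (hB : Bg N J Z) (h : BlkT O N J 12 u v l q m s)
    (hS : AddSubgroup.closure ({u, v, l, q, m, s} : Set Z2) = ⊤) (hu : IsCoprime u.1 u.2) :
    ∃ z v' l1 q1 m1 s1 : Z2, TN O N z v' l1 q1 m1 s1 ∧ ct z m1 s1 = 1 ∧
      3 ≤ cr z l1 + cr q1 l1 := by
  obtain ⟨n, hn⟩ := h.blk
  obtain ⟨p1, p2, p3, p4, p5⟩ := h.tree.pos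
  have hsum := h.tree.sum
  have J0 : (2 : ℤ) ^ 20 ≤ J := by exact_mod_cast hB.J0
  have J1 : (1 : ℤ) ≤ J := by linarith
  have Jn : 1 ≤ J := by exact_mod_cast J1
  have pw : ∀ {i j : ℕ}, i ≤ j → (J : ℤ) ^ i ≤ (J : ℤ) ^ j := fun h => pow_le_pow_right₀ J1 h
  have j2 : (16 : ℤ) * 2 ^ 10 * J ≤ J ^ 2 := by nlinarith
  have hN1 := hB.N1
  have hbig := h.big
  have hus : cr u (u + s) = 0 := by rw [cr_add_right, cr_self, h.us, add_zero]
  obtain ⟨z, v', l1, q1, m1, s1, i, j, a1, a2, a3, a4, a5, a6, a7, a8, a9, a10, a11, a12, a13⟩ :=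
    Has6.e1_full (J := J) (X' := Z) (K := (J : ℤ) ^ 3) (K1 := (J : ℤ) ^ 12)
      (K2 := (J : ℤ) ^ 7) (K3 := (J : ℤ) ^ 8) (Kw := (J : ℤ) ^ 4) (T := 2 * J)
      (T2 := (J : ℤ) ^ 2) (n := n) (m0 := m) (e2 := u + s) h.tree.has h.tree.vol hS hu rfl hus p3
      (by linarith) hB.cap Jn (by nlinarith)
      (by nlinarith [pow_le_pow_left₀ (by norm_num) J0 3]) (by nlinarith)
      (by
        refine le_trans ?_ hB.hZ
        have e1 : ((J : ℤ) ^ 3) ^ 2 ≤ N := by
          rw [← pow_mul]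
          exact (pw (by norm_num)).trans hB.hN
        calc ((J : ℤ) ^ 3) ^ 2 * N ^ 4 ≤ N * N ^ 4 :=
              mul_le_mul_of_nonneg_right e1 (by positivity)
          _ = N ^ 5 := by ring
          _ ≤ N ^ 20 := pow_le_pow_right₀ (by linarith) (by norm_num)
          _ ≤ (2 * N) ^ 20 := pow_le_pow_left₀ (by linarith) (by linarith) 20)
      (by
        have e1 : ((J : ℤ) ^ 3) ^ 2 = (J : ℤ) ^ 6 := by ring
        have e2 : (J : ℤ) ^ 7 = J * (J : ℤ) ^ 6 := by ring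
        rw [e1, e2]
        exact mul_le_mul_of_nonneg_right (by linarith) (by positivity))
      (by
        have e2 : (J : ℤ) ^ 8 = J * (J : ℤ) ^ 7 := by ring
        rw [e2]
        exact mul_le_mul_of_nonneg_right (by linarith) (by positivity))
      le_rfl (by linarith)
      (by
        have e2 : (J : ℤ) ^ 4 = J ^ 2 * J ^ 2 := by ring
        rw [e2]
        have : (512 : ℤ) * (2 * J + 1) ≤ J ^ 2 := by linarith
        calc 512 * (J : ℤ) ^ 2 * (2 * J + 1) = J ^ 2 * (512 * (2 * J + 1)) := by ring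
          _ ≤ _ := mul_le_mul_of_nonneg_left this (by positivity))
      (by
        have e2 : (J : ℤ) ^ 12 = J * ((J : ℤ) ^ 4 * J ^ 7) := by ring
        rw [e2, mul_assoc]
        exact mul_le_mul_of_nonneg_right (by linarith) (by positivity))
      (by
        have e2 : (J : ℤ) ^ 12 = ((J : ℤ) ^ 8 * J ^ 2) * J ^ 2 := by ring
        rw [e2]
        have : (128 : ℤ) * (2 * J + 1) ≤ J ^ 2 := by linarith
        calc 128 * (J : ℤ) ^ 8 * (J : ℤ) ^ 2 * (2 * J + 1) =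
              ((J : ℤ) ^ 8 * J ^ 2) * (128 * (2 * J + 1)) := by ring
          _ ≤ _ := mul_le_mul_of_nonneg_left this (by positivity))
      (by
        refine lt_of_le_of_lt ?_ hbig
        have e1 : 3 * ((J : ℤ) ^ 4) ^ 2 ≤ (J : ℤ) ^ (2 * 12) := by
          have e2 : (J : ℤ) ^ (2 * 12) = J ^ 16 * ((J : ℤ) ^ 4) ^ 2 := by ring
          rw [e2]
          refine mul_le_mul_of_nonneg_right ?_ (by positivity)
          calc (3 : ℤ) ≤ J ^ 1 := by linarith
            _ ≤ J ^ 16 := pw (by norm_num)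
        exact mul_le_mul_of_nonneg_right e1 (by linarith))
      hn
  refine ⟨z, v', l1, q1, m1, s1, ⟨a3, a4⟩, a13, ?_⟩
  obtain ⟨g1, g2, g3, g4, g5⟩ := a3.pos
  have e1 : 2 * cr u l1 ≤ cr u l + cr q l := by
    refine le_trans ?_ a8
    have h2 : 0 < cr u l1 := by
      by_contra hcon
      push Not at hcon
      have h3 : (4 * (J : ℤ) ^ 2) * cr u l1 ≤ 0 :=
        mul_nonpos_of_nonneg_of_nonpos (by positivity) hcon
      linarith
    exact mul_le_mul_of_nonneg_right (by linarith) h2.le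
  have e2 : 6 ≤ cr u l + cr q l := by
    have h1 : (6 : ℤ) ≤ (J : ℤ) ^ (2 * 12) := by
      calc (6 : ℤ) ≤ J ^ 1 := by linarith
        _ ≤ _ := pw (by norm_num)
    have h2 : (J : ℤ) ^ (2 * 12) * 1 ≤ (J : ℤ) ^ (2 * 12) * (cr u v + cr u m) :=
      mul_le_mul_of_nonneg_left (by linarith) (by positivity)
    linarith
  linarith

/-- **THE CHAIN**: every tree of a primitive origami of odd type is in the orbit of an end state,
for all large `N` -/
theorem desc_large_of (hBlk : RowBlk) :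
    ∃ N0 : ℕ, ∀ N : ℕ, N0 ≤ N → Desc6 N := by
  obtain ⟨d2, h2⟩ := hBlk 12
  obtain ⟨d1, h1⟩ := hBlk (d2 + 12)
  obtain ⟨C, hC⟩ : ∃ C : ℕ, C = (d1 + 2) * 346 := ⟨_, rfl⟩
  obtain ⟨N1, hN1⟩ := room_data C 2000 (by omega)
  refine ⟨N1, fun N hN => ?_⟩
  obtain ⟨J, Z, hB, hJN, hRoom⟩ := hN1 N hN
  have J0 : (2 : ℤ) ^ 20 ≤ J := by exact_mod_cast hB.J0
  have J1 : (1 : ℤ) ≤ J := by linarith
  have pw : ∀ {i j : ℕ}, i ≤ j → (J : ℤ) ^ i ≤ (J : ℤ) ^ j := fun h => pow_le_pow_right₀ J1 h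
  have hNpos := hB.N1
  have hN64 : (64 : ℤ) ≤ N := by
    have e1 : (J : ℤ) ^ 1 ≤ J ^ 2000 := pw (by norm_num)
    rw [pow_one] at e1
    linarith
  intro O c hO hp hc hv
  obtain ⟨u, v, l, q, m, s⟩ := c
  have hX : (Nat.card (Fin N) : ℤ) = N := by rw [Nat.card_eq_fintype_card, Fintype.card_fin]
  have hne : NeL O (N : ℤ) := by
    intro u v l q m s h
    have h1 := hO.lat_ne h.has (by rw [h.vol]; exact hX)
    exact h1
  have hspan : ∀ {u v l q m s : Z2}, TN O (N : ℤ) u v l q m s →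
      AddSubgroup.closure ({u, v, l, q, m, s} : Set Z2) = ⊤ := by
    intro u v l q m s h
    have h1 := span6_top (c := (u, v, l, q, m, s)) hO.trans hp h.has.pos h.has
      (by rw [h.vol]; exact hX)
    exact h1
  -- the start
  obtain ⟨G, hG⟩ : ∃ G : ℤ, G = (J : ℤ) ^ (d1 + 2) := ⟨_, rfl⟩
  have hG2 : (J : ℤ) ^ 2 ≤ G := by rw [hG]; exact pw (by omega)
  have hJ2 : (J : ℤ) * 8 ≤ J ^ 2 := by nlinarith
  have hG6 : 10 ^ 6 ≤ G := by linarith
  have hGC : G ^ 346 = (J : ℤ) ^ C := by rw [hG, hC, pow_mul]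
  obtain ⟨u, v, l, q, m, s, t1, t2, t3, t4⟩ := start_ds (G := G) (B := (J : ℤ) ^ C) hB.cap
    (by
      refine le_trans ?_ hB.hZ
      calc 64 * (N : ℤ) ^ 7 ≤ N * N ^ 7 := mul_le_mul_of_nonneg_right hN64 (by positivity)
        _ = N ^ 8 := by ring
        _ ≤ N ^ 20 := pow_le_pow_right₀ (by linarith) (by norm_num)
        _ ≤ (2 * N) ^ 20 := pow_le_pow_left₀ (by linarith) (by linarith) 20) hG6
    (by linarith) hGC.le (hRoom O u v l q m s hO hp hc hv)
  have hG4 : 3 * (J : ℤ) ^ d1 ≤ G ^ 4 := by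
    have e1 : G ^ 4 = J ^ (3 * d1 + 8) * (J : ℤ) ^ d1 := by
      rw [hG, ← pow_mul, ← pow_add]
      congr 1
      ring
    rw [e1]
    refine mul_le_mul_of_nonneg_right ?_ (by positivity)
    calc (3 : ℤ) ≤ J ^ 1 := by linarith
      _ ≤ _ := pw (by omega)
  have ds1 : (J : ℤ) ^ d1 * (cr u v + ct u l q + ct u m s) ≤ N := by
    obtain ⟨q1, q2, q3, -, -⟩ := t1.pos
    have f1 := mul_le_mul_of_nonneg_right hG4 q1.le
    have f2 := mul_le_mul_of_nonneg_right hG4 (ct_pos (q := q) q2).le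
    have f3 := mul_le_mul_of_nonneg_right hG4 (ct_pos (q := s) q3).le
    have e1 : 3 * ((J : ℤ) ^ d1 * (cr u v + ct u l q + ct u m s)) =
        3 * (J : ℤ) ^ d1 * cr u v + 3 * (J : ℤ) ^ d1 * ct u l q + 3 * (J : ℤ) ^ d1 * ct u m s := by
      ring
    linarith
  -- block, `E0`, block, `E1`
  obtain ⟨u1, v1, l1, q1, m1, s1, b1, -⟩ := h1 _ O N J _ u v l q m s hB hne t1 ds1
  obtain ⟨u2, v2, l2, q2, m2, b2, b3, b4⟩ := b1.e0 hB (hspan b1.tree)
  obtain ⟨u3, v3, l3, q3, m3, s3, b5, b6⟩ := h2 _ O N J _ _ _ _ _ _ _ hB hne b2 b4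
  obtain ⟨u4, v4, l4, q4, m4, s4, b7, b8, b9⟩ := b5.e1 hB (hspan b5.tree) (b6 b3)
  exact toEnd6_of_one111 hB hJN hO b7.has b7.vol (Or.inr b8) (Or.inl b9)

/-- **PART (i) FOR LARGE `N`**, the descent -/
theorem desc_large : ∃ N0 : ℕ, ∀ N : ℕ, N0 ≤ N → Desc6 N := desc_large_of rowBlk

end Pool.Agent.H4G.Six
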