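import Pool.Agent.H4G.Six.D2.Tune39

/-!
# D2, section 2 of helper26's page: near-Prym states, the family of pairs (helper39)

`L = ⟨l, p⟩`, `M = ⟨m, p'⟩`, `u × p = u × p' = 0`, `x a' b² = y a b'²`, companion `α l + k₀ p` of
`m`. For every direction `(β, κ)` there is the pair `l(D) = (β x l* + κ α y p) / g(D)`,
`m(D) = β m + κ p'`, with `g(D) = gcd (β x α, β x k₀ + κ α y)`.
-/

set_option autoImplicit false

namespace Pool.Agent.H4G.Six

open Pool.Agent.H4G

variable {u v l p m p' : Z2} {x y α k0 β κ : ℤ}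

/-- **near-Prym data** -/
structure NP (u l p m p' : Z2) (x y α k0 : ℤ) : Prop where
  up : cr u p = 0
  up' : cr u p' = 0
  b0 : 0 < cr u l
  b0' : 0 < cr u m
  a0 : 0 < cr p l
  a0' : 0 < cr p' m
  x0 : 0 < x
  y0 : 0 < y
  xy : IsCoprime x y
  α0 : 0 < α
  αk : IsCoprime α k0
  rel : x * (cr p' m * cr u l ^ 2) = y * (cr p l * cr u m ^ 2)

/-- the divisor of a direction -/
def gD (x y α k0 β κ : ℤ) : ℤ := Int.gcd (β * x * α) (β * x * k0 + κ * α * y)

/-- the first coordinate of `l(D)` -/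
def iD (x y α k0 β κ : ℤ) : ℤ := β * x * α / gD x y α k0 β κ

/-- the second coordinate of `l(D)` -/
def jD (x y α k0 β κ : ℤ) : ℤ := (β * x * k0 + κ * α * y) / gD x y α k0 β κ

/-- the vector `l(D)` -/
def lD (l p : Z2) (x y α k0 β κ : ℤ) : Z2 := iD x y α k0 β κ • l + jD x y α k0 β κ • p

/-- the vector `m(D)` -/
def mD (m p' : Z2) (β κ : ℤ) : Z2 := β • m + κ • p'

/-- the modulus on which the divisor depends -/
def PiD (x y α : ℤ) : ℤ := x * y * α ^ 2

/-- the offset of the companion -/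
def kap (l p m : Z2) (α k0 : ℤ) : ℤ := cr (α • l + k0 • p) m

theorem gD_dvd1 : gD x y α k0 β κ ∣ β * x * α := Int.gcd_dvd_left _ _

theorem gD_dvd2 : gD x y α k0 β κ ∣ β * x * k0 + κ * α * y := Int.gcd_dvd_right _ _

theorem gD_max {d : ℤ} (h1 : d ∣ β * x * α) (h2 : d ∣ β * x * k0 + κ * α * y) :
    d ∣ gD x y α k0 β κ := Int.dvd_coe_gcd h1 h2

theorem gD_pos (hβ : 0 < β) (hx : 0 < x) (hα : 0 < α) : 0 < gD x y α k0 β κ := by
  unfold gD
  exact_mod_cast Int.gcd_pos_of_ne_zero_left _ (mul_pos (mul_pos hβ hx) hα).ne'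

theorem gD_iD : gD x y α k0 β κ * iD x y α k0 β κ = β * x * α := Int.mul_ediv_cancel' gD_dvd1

theorem gD_jD : gD x y α k0 β κ * jD x y α k0 β κ = β * x * k0 + κ * α * y :=
  Int.mul_ediv_cancel' gD_dvd2

theorem iD_jD (hβ : 0 < β) (hx : 0 < x) (hα : 0 < α) :
    IsCoprime (iD x y α k0 β κ) (jD x y α k0 β κ) := by
  have hg := gD_pos (y := y) (k0 := k0) (κ := κ) hβ hx hα
  rw [Int.isCoprime_iff_gcd_eq_one]
  have h1 : gD x y α k0 β κ * 1 =
      Int.gcd (gD x y α k0 β κ * iD x y α k0 β κ) (gD x y α k0 β κ * jD x y α k0 β κ) := by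
    rw [gD_iD, gD_jD, mul_one]; rfl
  rw [Int.gcd_mul_left, Nat.cast_mul, Int.natCast_natAbs, abs_of_pos hg] at h1
  have h2 := mul_left_cancel₀ hg.ne' h1
  exact_mod_cast h2.symm

/-- `g(D)` divides `Π = x y α²` -/
theorem gD_dvd_Pi (h : IsCoprime β κ) : gD x y α k0 β κ ∣ PiD x y α := by
  obtain ⟨s, t, hst⟩ := h
  obtain ⟨c1, h1⟩ : gD x y α k0 β κ ∣ β * x * α := gD_dvd1
  obtain ⟨c2, h2⟩ : gD x y α k0 β κ ∣ β * x * k0 + κ * α * y := gD_dvd2
  refine ⟨s * y * α * c1 + t * x * α * c2 - t * x * k0 * c1, ?_⟩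
  have e : gD x y α k0 β κ * (s * y * α * c1 + t * x * α * c2 - t * x * k0 * c1) =
      s * y * α * (gD x y α k0 β κ * c1) + t * x * α * (gD x y α k0 β κ * c2) -
        t * x * k0 * (gD x y α k0 β κ * c1) := by ring
  rw [e, ← h1, ← h2]
  unfold PiD
  linear_combination (-(x * y * α ^ 2)) * hst

/-- `g(D)` depends on the direction modulo `Π` only -/
theorem gD_congr {β' κ' : ℤ} (h : IsCoprime β κ) (h' : IsCoprime β' κ')
    (hβ : PiD x y α ∣ β - β') (hκ : PiD x y α ∣ κ - κ') :
    gD x y α k0 β κ = gD x y α k0 β' κ' := by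
  have key : ∀ {β κ β' κ' : ℤ}, IsCoprime β κ → PiD x y α ∣ β - β' → PiD x y α ∣ κ - κ' →
      gD x y α k0 β κ ∣ gD x y α k0 β' κ' := by
    intro β κ β' κ' h hβ hκ
    have h0 := gD_dvd_Pi (x := x) (y := y) (α := α) (k0 := k0) h
    refine gD_max ?_ ?_
    · have e : β' * x * α = β * x * α - (β - β') * (x * α) := by ring
      rw [e]
      exact dvd_sub gD_dvd1 ((h0.trans hβ).mul_right _)
    · have e : β' * x * k0 + κ' * α * y = (β * x * k0 + κ * α * y) - (β - β') * (x * k0) -
          (κ - κ') * (α * y) := by ring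
      rw [e]
      exact dvd_sub (dvd_sub gD_dvd2 ((h0.trans hβ).mul_right _)) ((h0.trans hκ).mul_right _)
  refine Int.dvd_antisymm (Int.natCast_nonneg _) (Int.natCast_nonneg _) (key h hβ hκ)
    (key h' ?_ ?_)
  · rw [← neg_sub]; exact (dvd_neg).2 hβ
  · rw [← neg_sub]; exact (dvd_neg).2 hκ

namespace NP

theorem hpp (h : NP u l p m p' x y α k0) : cr p p' = 0 := by
  have e : cr u l * cr p p' - cr u p * cr l p' + cr u p' * cr l p = 0 := by
    simp only [cr]; ring
  rw [h.up, h.up'] at e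
  have h2 : cr u l * cr p p' = 0 := by linarith
  exact (mul_eq_zero.1 h2).resolve_left h.b0.ne'

theorem eL (h : NP u l p m p' x y α k0) : cr u l * cr p m = cr u m * cr p l := by
  have e : cr u l * cr p m - cr u p * cr l m - cr u m * cr p l = 0 := by
    simp only [cr]; ring
  rw [h.up] at e
  linarith

theorem eM (h : NP u l p m p' x y α k0) : cr u m * cr p' l = cr u l * cr p' m := by
  have e : cr u m * cr p' l - cr u p' * cr m l - cr u l * cr p' m = 0 := by
    simp only [cr]; ring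
  rw [h.up'] at e
  linarith

/-- the common period -/
theorem per (h : NP u l p m p' x y α k0) : x * cr p' l = y * cr p m := by
  have e1 := h.eL
  have e2 := h.eM
  have b0 := h.b0
  have b0' := h.b0'
  have e : (cr u l * cr u m) * (x * cr p' l) = (cr u l * cr u m) * (y * cr p m) := by
    calc (cr u l * cr u m) * (x * cr p' l) = x * cr u l * (cr u m * cr p' l) := by ring
      _ = x * (cr p' m * cr u l ^ 2) := by rw [e2]; ring
      _ = y * (cr p l * cr u m ^ 2) := h.rel
      _ = y * cr u m * (cr u m * cr p l) := by ring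
      _ = y * cr u m * (cr u l * cr p m) := by rw [e1]
      _ = _ := by ring
  exact mul_left_cancel₀ (mul_pos b0 b0').ne' e

theorem cr_pm (h : NP u l p m p' x y α k0) : 0 < cr p m := by
  have e1 := h.eL
  have : 0 < cr u l * cr p m := by rw [e1]; exact mul_pos h.b0' h.a0
  exact (mul_pos_iff_of_pos_left h.b0).1 this

theorem cr_pl (h : NP u l p m p' x y α k0) : 0 < cr p' l := by
  have e1 := h.eM
  have : 0 < cr u m * cr p' l := by rw [e1]; exact mul_pos h.b0 h.a0'
  exact (mul_pos_iff_of_pos_left h.b0').1 this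

theorem g0 (h : NP u l p m p' x y α k0) (hβ : 0 < β) : 0 < gD x y α k0 β κ :=
  gD_pos hβ h.x0 h.α0

/-- the height of `l(D)` -/
theorem F1 (h : NP u l p m p' x y α k0) :
    gD x y α k0 β κ * cr u (lD l p x y α k0 β κ) = β * x * α * cr u l := by
  rw [lD, cr_add_right, cr_smul_right, cr_smul_right, h.up, mul_zero, add_zero, ← mul_assoc, gD_iD]

theorem F1_pos (h : NP u l p m p' x y α k0) (hβ : 0 < β) :
    0 < cr u (lD l p x y α k0 β κ) := by
  have e := h.F1 (β := β) (κ := κ)
  have h1 : 0 < β * x * α * cr u l := mul_pos (mul_pos (mul_pos hβ h.x0) h.α0) h.b0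
  rw [← e] at h1
  exact (mul_pos_iff_of_pos_left (h.g0 hβ)).1 h1

theorem F1_le (h : NP u l p m p' x y α k0) (hβ : 0 < β) :
    cr u (lD l p x y α k0 β κ) ≤ β * x * α * cr u l := by
  rw [← h.F1 (β := β) (κ := κ)]
  have h1 := h.g0 (κ := κ) hβ
  have h2 := h.F1_pos (κ := κ) hβ
  nlinarith

/-- the height of `m(D)` -/
theorem F2 (h : NP u l p m p' x y α k0) : cr u (mD m p' β κ) = β * cr u m := by
  rw [mD, cr_add_right, cr_smul_right, cr_smul_right, h.up', mul_zero, add_zero]

/-- `l(D) × m(D)` -/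
theorem rho (h : NP u l p m p' x y α k0) :
    gD x y α k0 β κ * cr (lD l p x y α k0 β κ) (mD m p' β κ) = β ^ 2 * x * kap l p m α k0 := by
  have e1 : gD x y α k0 β κ * cr (lD l p x y α k0 β κ) (mD m p' β κ) =
      (gD x y α k0 β κ * iD x y α k0 β κ) * (β * cr l m - κ * cr p' l) +
      (gD x y α k0 β κ * jD x y α k0 β κ) * (β * cr p m + κ * cr p p') := by
    have : cr l p' = - cr p' l := by simp only [cr]; ring
    rw [lD, mD]
    simp only [cr_add_left, cr_add_right, cr_smul_left, cr_smul_right, this]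
    ring
  rw [e1, gD_iD, gD_jD, h.hpp, kap]
  simp only [cr_add_left, cr_smul_left]
  linear_combination (-(β * κ * α)) * h.per

/-- `v × l(D)` -/
theorem vl (_h : NP u l p m p' x y α k0) :
    gD x y α k0 β κ * cr v (lD l p x y α k0 β κ) =
      β * x * cr v (α • l + k0 • p) - κ * (α * y * cr p v) := by
  have e1 : gD x y α k0 β κ * cr v (lD l p x y α k0 β κ) =
      (gD x y α k0 β κ * iD x y α k0 β κ) * cr v l +
      (gD x y α k0 β κ * jD x y α k0 β κ) * cr v p := by
    rw [lD]
    simp only [cr_add_right, cr_smul_right]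
    ring
  have e2 : cr v p = - cr p v := by simp only [cr]; ring
  rw [e1, gD_iD, gD_jD, e2]
  simp only [cr_add_right, cr_smul_right, e2]
  ring

/-- `v × m(D)` -/
theorem vm : cr v (mD m p' β κ) = β * cr v m - κ * cr p' v := by
  have e2 : cr v p' = - cr p' v := by simp only [cr]; ring
  rw [mD, cr_add_right, cr_smul_right, cr_smul_right, e2]
  ring

/-- the two slope steps agree -/
theorem zeta (h : NP u l p m p' x y α k0) :
    x * cr u l * cr p' v = y * cr u m * cr p v := by
  have e1 : cr u l * cr p v = cr p l * cr u v := by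
    have e : cr u l * cr p v - cr u p * cr l v - cr p l * cr u v = 0 := by simp only [cr]; ring
    rw [h.up] at e; linarith
  have e2 : cr u m * cr p' v = cr p' m * cr u v := by
    have e : cr u m * cr p' v - cr u p' * cr m v - cr p' m * cr u v = 0 := by
      simp only [cr]; ring
    rw [h.up'] at e; linarith
  have e : (cr u l * cr u m) * (x * cr u l * cr p' v) =
      (cr u l * cr u m) * (y * cr u m * cr p v) := by
    calc (cr u l * cr u m) * (x * cr u l * cr p' v)
        = x * cr u l ^ 2 * (cr u m * cr p' v) := by ring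
      _ = (x * (cr p' m * cr u l ^ 2)) * cr u v := by rw [e2]; ring
      _ = (y * (cr p l * cr u m ^ 2)) * cr u v := by rw [h.rel]
      _ = y * cr u m ^ 2 * (cr p l * cr u v) := by ring
      _ = y * cr u m ^ 2 * (cr u l * cr p v) := by rw [e1]
      _ = _ := by ring
  exact mul_left_cancel₀ (mul_pos h.b0 h.b0').ne' e

end NP

end Pool.Agent.H4G.Six
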