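import Pool.Agent.H4G.Six.D2.NP

/-!
# D2, section 5.1 of helper26's page: near-Prym trees with a companion pair of small slope (helper96)

`L = ⟨l, p⟩`, `M = ⟨m, p'⟩`, companion `l* = α l + k₀ p` of `m`, `l* × m = kap ≠ 0` small. For `β`
prime to `x y α (p × v) (p' × v)` and `w` prime to `β` the pair
`l(D) = β α l + (β k₀ + w α y) p`, `m(D) = β m + w x p'` is primitive and `l(D) × m(D) = β² kap`.
The number `w` is tuned such that `u + t g`, `0 ≤ t ≤ K`, are centres.
-/

set_option autoImplicit false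

namespace Pool.Agent.H4G.Six

open Pool.Agent.H4G

variable {u v l p m p' : Z2} {x y α k0 β w : ℤ}

/-- the first vector of the pair -/
def lW (l p : Z2) (y α k0 β w : ℤ) : Z2 := (β * α) • l + (β * k0 + w * α * y) • p

/-- the second vector of the pair -/
def mW (m p' : Z2) (x β w : ℤ) : Z2 := β • m + (w * x) • p'

theorem lW_cop (hak : IsCoprime α k0) (h1 : IsCoprime β α) (h2 : IsCoprime β y)
    (h3 : IsCoprime β w) : IsCoprime (β * α) (β * k0 + w * α * y) := by
  refine IsCoprime.mul_left ?_ ?_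
  · have h4 : IsCoprime β (w * α * y) := (h3.mul_right h1).mul_right h2
    have e : β * k0 + w * α * y = w * α * y + β * k0 := by ring
    rw [e]
    exact IsCoprime.add_mul_left_right h4 k0
  · have h4 : IsCoprime α (β * k0) := (h1.symm).mul_right hak
    have e : β * k0 + w * α * y = β * k0 + α * (w * y) := by ring
    rw [e]
    exact IsCoprime.add_mul_left_right h4 (w * y)

theorem mW_cop (h1 : IsCoprime β x) (h3 : IsCoprime β w) : IsCoprime β (w * x) :=
  h3.mul_right h1

theorem vlW : cr v (lW l p y α k0 β w) =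
    β * cr v (α • l + k0 • p) - w * (α * y * cr p v) := by
  simp only [lW, cr, Prod.fst_add, Prod.snd_add, Prod.smul_fst, Prod.smul_snd, smul_eq_mul]
  ring

theorem vmW : cr v (mW m p' x β w) = β * cr v m - w * (x * cr p' v) := by
  simp only [mW, cr, Prod.fst_add, Prod.snd_add, Prod.smul_fst, Prod.smul_snd, smul_eq_mul]
  ring

namespace NP

theorem ulW (h : NP u l p m p' x y α k0) : cr u (lW l p y α k0 β w) = β * α * cr u l := by
  rw [lW, cr_add_right, cr_smul_right, cr_smul_right, h.up]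
  ring

theorem umW (h : NP u l p m p' x y α k0) : cr u (mW m p' x β w) = β * cr u m := by
  rw [mW, cr_add_right, cr_smul_right, cr_smul_right, h.up']
  ring

theorem lmW (h : NP u l p m p' x y α k0) :
    cr (lW l p y α k0 β w) (mW m p' x β w) = β ^ 2 * kap l p m α k0 := by
  have e1 : cr (lW l p y α k0 β w) (mW m p' x β w) =
      β ^ 2 * kap l p m α k0 + β * w * α * (y * cr p m - x * cr p' l) +
        (β * k0 + w * α * y) * (w * x) * cr p p' := by
    simp only [lW, mW, kap, cr, Prod.fst_add, Prod.snd_add, Prod.smul_fst, Prod.smul_snd,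
      smul_eq_mul]
    ring
  rw [e1, h.hpp, h.per]
  ring

end NP

/-- **NO COINCIDENCE**, first form (helper26, section 4) -/
theorem noco96 {F1 F2 A a a' δ ρ d1 d2 : ℤ} (hF1 : 0 < F1) (hA : 0 < A) (ha : 0 < a)
    (ha' : 0 < a') (hδ : 0 ≤ δ) (hρ : 0 < ρ) (e1 : d1 = -δ + ρ)
    (e2 : F1 * d2 = -(F2 * δ) - ρ * (A + F1)) (hr : a' * F1 ≤ a * F2) : a' * d1 ≠ a * d2 := by
  intro hne
  have h1 : F1 * (a' * d1) = F1 * (a * d2) := by rw [hne]
  have h2 : δ * (a * F2 - a' * F1) + ρ * (a' * F1 + a * (A + F1)) = 0 := by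
    have : F1 * (a * d2) = a * (-(F2 * δ) - ρ * (A + F1)) := by rw [← e2]; ring
    rw [this, e1] at h1
    linarith
  have h3 : 0 ≤ δ * (a * F2 - a' * F1) := mul_nonneg hδ (by linarith)
  have h4 : 0 < ρ * (a' * F1 + a * (A + F1)) := by positivity
  linarith

/-- **5.1, THE PAIR AND ITS LINE OF CENTRES** -/
theorem NP.fine {J X : ℕ} (hcap : Cap J X) (h : NP u l p m p' x y α k0) (A0 : 0 < cr u v)
    (hk : kap l p m α k0 ≠ 0) {K R : ℤ} (K0 : 0 < K) (hR0 : 0 < R) (hR : 2 * K * J ≤ R)
    (hX1 : x * y * α * cr p v * cr p' v ≤ X) (hX2 : R + J ≤ X)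
    (hk1 : 2 * K * |kap l p m α k0| * (cr u v + (R + J) * α * cr u l) < α * cr u l * cr u m)
    (hk2 : 2 * K * |kap l p m α k0| * (cr u v + (R + J) * cr u m) < α * cr u l * cr u m) :
    ∃ i j β κ i1 j1 : ℤ, 0 < i ∧ i ≤ (R + J) * α ∧ IsCoprime i j ∧ 0 < β ∧ β ≤ R + J ∧
      IsCoprime β κ ∧ (j1 = 1 ∨ j1 = -1) ∧
      (∀ t : ℤ, 0 ≤ t → t ≤ K →
        0 < cr (u + t • (i1 • u + j1 • (v + (i • l + j • p) + (β • m + κ • p')))) (i • l + j • p) ∧
        0 < cr (u + t • (i1 • u + j1 • (v + (i • l + j • p) + (β • m + κ • p'))))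
          (β • m + κ • p') ∧
        cr (u + t • (i1 • u + j1 • (v + (i • l + j • p) + (β • m + κ • p')))) (i • l + j • p) +
          cr (u + t • (i1 • u + j1 • (v + (i • l + j • p) + (β • m + κ • p'))))
            (β • m + κ • p') < cr u (v + (i • l + j • p) + (β • m + κ • p'))) ∧
      cr p' m * cr (i1 • u + j1 • (v + (i • l + j • p) + (β • m + κ • p'))) (i • l + j • p) ≠
        cr p l * cr (i1 • u + j1 • (v + (i • l + j • p) + (β • m + κ • p'))) (β • m + κ • p') := by
  have b0 := h.b0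
  have b0' := h.b0'
  have a0 := h.a0
  have a0' := h.a0'
  have x0 := h.x0
  have y0 := h.y0
  have α0 := h.α0
  -- `p × v > 0`, `p' × v > 0`
  have ePv : cr u l * cr p v = cr p l * cr u v := by
    have e : cr u l * cr p v - cr u p * cr l v - cr p l * cr u v = 0 := by simp only [cr]; ring
    rw [h.up] at e; linarith
  have ePv' : cr u m * cr p' v = cr p' m * cr u v := by
    have e : cr u m * cr p' v - cr u p' * cr m v - cr p' m * cr u v = 0 := by
      simp only [cr]; ring
    rw [h.up'] at e; linarith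
  have pv0 : 0 < cr p v := by
    have : 0 < cr u l * cr p v := by rw [ePv]; exact mul_pos a0 A0
    exact (mul_pos_iff_of_pos_left b0).1 this
  have pv0' : 0 < cr p' v := by
    have : 0 < cr u m * cr p' v := by rw [ePv']; exact mul_pos a0' A0
    exact (mul_pos_iff_of_pos_left b0').1 this
  have D0 : 0 < x * y * α * cr p v * cr p' v := by positivity
  -- the number `β`
  obtain ⟨β, β1, β2, β3⟩ := ap_cop (J := J) hcap (a := 1) (b := 0) D0.ne'
    (by rw [abs_of_pos D0]; exact hX1) isCoprime_one_left R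
  rw [one_mul, add_zero] at β3
  have β0 : 0 < β := by linarith
  have cx : IsCoprime β x := β3.of_isCoprime_of_dvd_right ⟨y * α * cr p v * cr p' v, by ring⟩
  have cy : IsCoprime β y := β3.of_isCoprime_of_dvd_right ⟨x * α * cr p v * cr p' v, by ring⟩
  have cα : IsCoprime β α := β3.of_isCoprime_of_dvd_right ⟨x * y * cr p v * cr p' v, by ring⟩
  have cq : IsCoprime β (α * y * cr p v) :=
    β3.of_isCoprime_of_dvd_right ⟨x * cr p' v, by ring⟩
  have cq' : IsCoprime β (x * cr p' v) :=
    β3.of_isCoprime_of_dvd_right ⟨y * α * cr p v, by ring⟩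
  have hKJ : 2 * K * J ≤ β := by linarith
  have βX : β ≤ X := by linarith
  have βS : β ≤ R + J := by linarith
  -- the sign
  obtain ⟨kp, hkp⟩ : ∃ kp, kp = kap l p m α k0 := ⟨_, rfl⟩
  rw [← hkp] at hk hk1 hk2
  obtain ⟨σ, hσ, hσk⟩ : ∃ σ : ℤ, (σ = 1 ∨ σ = -1) ∧ σ * kp = |kp| := by
    rcases lt_or_gt_of_ne hk with h1 | h1
    · exact ⟨-1, Or.inr rfl, by rw [abs_of_neg h1]; ring⟩
    · exact ⟨1, Or.inl rfl, by rw [abs_of_pos h1]; ring⟩
  have hσu : ∀ q : ℤ, IsCoprime β q → IsCoprime β (σ * q) := by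
    intro q hq
    rcases hσ with rfl | rfl
    · rwa [one_mul]
    · rw [neg_one_mul]; exact hq.neg_right
  have ρ0 : 0 < |kp| := abs_pos.2 hk
  rcases le_total (cr p' m * (α * cr u l)) (cr p l * cr u m) with hcase | hcase
  · -- the first form
    obtain ⟨w, a1, w1, w2, w3⟩ := tune hcap (T := β * (α * cr u l)) (q := σ * (α * y * cr p v))
      (r0 := β) (n0 := σ * (β * cr v (α • l + k0 • p))) (κ0 := 0) (P := 1) (K := 2 * K)
      (by positivity) β0 βX ⟨_, rfl⟩ (hσu _ cq) isCoprime_one_right hKJ (by positivity)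
    rw [zero_add, mul_one] at w1
    have hul := h.ulW (β := β) (w := w)
    have hum := h.umW (β := β) (w := w)
    have hlm := h.lmW (β := β) (w := w)
    rw [← hkp] at hlm
    have hvl := vlW (v := v) (l := l) (p := p) (y := y) (α := α) (k0 := k0) (β := β) (w := w)
    refine ⟨β * α, β * k0 + w * α * y, β, w * x, -a1, -σ, mul_pos β0 α0,
      mul_le_mul_of_nonneg_right βS α0.le, lW_cop h.αk cα cy w1.symm, β0, βS,
      mW_cop cx w1.symm, by rcases hσ with rfl | rfl <;> simp, ?_, ?_⟩
    all_goals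
      change cr u (lW l p y α k0 β w) = _ at hul
      change cr u (mW m p' x β w) = _ at hum
      obtain ⟨l1, hl1⟩ : ∃ l1, l1 = lW l p y α k0 β w := ⟨_, rfl⟩
      obtain ⟨m1, hm1⟩ : ∃ m1, m1 = mW m p' x β w := ⟨_, rfl⟩
      have hl1' : (β * α) • l + (β * k0 + w * α * y) • p = l1 := hl1.symm
      have hm1' : β • m + (w * x) • p' = m1 := hm1.symm
      rw [hl1', hm1']
      rw [← hl1] at hul hvl
      rw [← hm1] at hum
      rw [← hl1, ← hm1] at hlm
      -- `δ`
      obtain ⟨δ, hδ⟩ : ∃ δ, δ = -(-a1 * cr u l1 + -σ * cr v l1) := ⟨_, rfl⟩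
      have eδ : δ = σ * (β * cr v (α • l + k0 • p)) - w * (σ * (α * y * cr p v)) +
          a1 * (β * (α * cr u l)) := by
        rw [hδ, hul, hvl]; ring
      rw [← eδ] at w2 w3
      have F1pos : 0 < cr u l1 := by rw [hul]; positivity
      have F2pos : 0 < cr u m1 := by rw [hum]; positivity
      have eρ : -(-σ * cr l1 m1) = β ^ 2 * |kp| := by rw [hlm, ← hσk]; ring
    · intro t t0 tK
      refine tall_centres A0 F1pos F2pos rfl t0 tK ?_ ?_ ?_ ?_
      · have : 0 < β ^ 2 * |kp| := by positivity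
        linarith
      · linarith
      · rw [← hδ, hul]
        calc 2 * K * δ ≤ β * (α * cr u l) := w3
          _ = β * α * cr u l := by ring
      · rw [eρ, hul, hum]
        have e1 : β * α * cr u l ≤ (R + J) * α * cr u l := by
          have : β * (α * cr u l) ≤ (R + J) * (α * cr u l) :=
            mul_le_mul_of_nonneg_right βS (by positivity)
          linarith
        have e2 : 2 * K * |kp| * (cr u v + β * α * cr u l) < α * cr u l * cr u m :=
          lt_of_le_of_lt (mul_le_mul_of_nonneg_left (by linarith) (by positivity)) hk1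
        have e3 : β ^ 2 * (2 * K * |kp| * (cr u v + β * α * cr u l)) <
            β ^ 2 * (α * cr u l * cr u m) := mul_lt_mul_of_pos_left e2 (by positivity)
        calc 2 * K * (β ^ 2 * |kp|) * (cr u v + β * α * cr u l)
            = β ^ 2 * (2 * K * |kp| * (cr u v + β * α * cr u l)) := by ring
          _ < β ^ 2 * (α * cr u l * cr u m) := e3
          _ = β * α * cr u l * (β * cr u m) := by ring
    · obtain ⟨-, -, g1, -, -, g2, -, -⟩ := line_products (u := u) (v := v) (l := l1) (m := m1)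
        (g := -a1 • u + -σ • (v + l1 + m1)) rfl 0
      refine noco96 (F1 := cr u l1) (F2 := cr u m1) (A := cr u v) (δ := δ) (ρ := β ^ 2 * |kp|)
        F1pos A0 a0 a0' w2.le (by positivity) ?_ ?_ ?_
      · rw [g1]; linarith
      · rw [g2]
        have : -σ * cr l1 m1 = -(β ^ 2 * |kp|) := by linarith
        rw [this, show -a1 * cr u l1 + -σ * cr v l1 = -δ by linarith]
        ring
      · rw [hul, hum]
        have := mul_le_mul_of_nonneg_left hcase β0.le
        linarith
  · -- the mirror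
    obtain ⟨w, a1, w1, w2, w3⟩ := tune hcap (T := β * cr u m) (q := σ * (x * cr p' v) * (-1))
      (r0 := β) (n0 := -(σ * (β * cr v m))) (κ0 := 0) (P := 1) (K := 2 * K)
      (by positivity) β0 βX ⟨_, rfl⟩ (by
        rw [mul_neg_one]; exact (hσu _ cq').neg_right) isCoprime_one_right hKJ (by positivity)
    rw [zero_add, mul_one] at w1
    have hul := h.ulW (β := β) (w := w)
    have hum := h.umW (β := β) (w := w)
    have hlm := h.lmW (β := β) (w := w)
    rw [← hkp] at hlm
    have hvm := vmW (v := v) (m := m) (p' := p') (x := x) (β := β) (w := w)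
    refine ⟨β * α, β * k0 + w * α * y, β, w * x, -a1, σ, mul_pos β0 α0,
      mul_le_mul_of_nonneg_right βS α0.le, lW_cop h.αk cα cy w1.symm, β0, βS,
      mW_cop cx w1.symm, by rcases hσ with rfl | rfl <;> simp, ?_, ?_⟩
    all_goals
      change cr u (lW l p y α k0 β w) = _ at hul
      change cr u (mW m p' x β w) = _ at hum
      obtain ⟨l1, hl1⟩ : ∃ l1, l1 = lW l p y α k0 β w := ⟨_, rfl⟩
      obtain ⟨m1, hm1⟩ : ∃ m1, m1 = mW m p' x β w := ⟨_, rfl⟩
      have hl1' : (β * α) • l + (β * k0 + w * α * y) • p = l1 := hl1.symm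
      have hm1' : β • m + (w * x) • p' = m1 := hm1.symm
      rw [hl1', hm1']
      rw [← hl1] at hul
      rw [← hm1] at hum hvm
      rw [← hl1, ← hm1] at hlm
      -- `δ`
      obtain ⟨δ, hδ⟩ : ∃ δ, δ = -(-a1 * cr u m1 + σ * cr v m1) := ⟨_, rfl⟩
      have eδ : δ = -(σ * (β * cr v m)) - w * (σ * (x * cr p' v) * (-1)) +
          a1 * (β * cr u m) := by
        rw [hδ, hum, hvm]; ring
      rw [← eδ] at w2 w3
      have F1pos : 0 < cr u l1 := by rw [hul]; positivity
      have F2pos : 0 < cr u m1 := by rw [hum]; positivity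
      have eρ : σ * cr l1 m1 = β ^ 2 * |kp| := by rw [hlm, ← hσk]; ring
    · intro t t0 tK
      refine tall_centres' A0 F1pos F2pos rfl t0 tK ?_ ?_ ?_ ?_
      · rw [eρ]; positivity
      · linarith
      · rw [← hδ, hum]
        exact w3
      · rw [eρ, hul, hum]
        have e1 : β * cr u m ≤ (R + J) * cr u m := mul_le_mul_of_nonneg_right βS b0'.le
        have e2 : 2 * K * |kp| * (cr u v + β * cr u m) < α * cr u l * cr u m :=
          lt_of_le_of_lt (mul_le_mul_of_nonneg_left (by linarith) (by positivity)) hk2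
        have e3 : β ^ 2 * (2 * K * |kp| * (cr u v + β * cr u m)) <
            β ^ 2 * (α * cr u l * cr u m) := mul_lt_mul_of_pos_left e2 (by positivity)
        calc 2 * K * (β ^ 2 * |kp|) * (cr u v + β * cr u m)
            = β ^ 2 * (2 * K * |kp| * (cr u v + β * cr u m)) := by ring
          _ < β ^ 2 * (α * cr u l * cr u m) := e3
          _ = β * α * cr u l * (β * cr u m) := by ring
    · obtain ⟨-, -, -, g1, -, -, g2, -⟩ := line_products (u := u) (v := v) (l := l1) (m := m1)
        (g := -a1 • u + σ • (v + l1 + m1)) rfl 0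
      refine fun hne => noco96 (F1 := cr u m1) (F2 := cr u l1) (A := cr u v) (δ := δ)
        (ρ := β ^ 2 * |kp|) (a := cr p' m) (a' := cr p l)
        (d1 := cr (-a1 • u + σ • (v + l1 + m1)) m1) (d2 := cr (-a1 • u + σ • (v + l1 + m1)) l1)
        F2pos A0 a0' a0 w2.le (by positivity) ?_ ?_ ?_ hne.symm
      · rw [g1, eρ]; linarith
      · rw [g2, eρ, show -a1 * cr u m1 + σ * cr v m1 = -δ by linarith]
        ring
      · rw [hul, hum]
        have := mul_le_mul_of_nonneg_left hcase β0.le
        linarith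

end Pool.Agent.H4G.Six
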