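import Pool.Agent.H4G.Six.D2.APc
import Pool.Agent.H4G.Six.D2.Near96
import Pool.Agent.H4G.Six.D2.ForkAP39

/-!
# D2, rows 5.1 and 5.3 of the escape step in tree form (helper41)
-/

set_option autoImplicit false

namespace Pool.Agent.H4G.Six

open Pool.Agent.H4G

variable {X : Type} {O : PO X} {N : ℤ} {u v e p e' p' : Z2} {c a c' a' x y α k0 : ℤ}

/-- 5.1 in tree form -/
theorem Lv.near_ap {J Y : ℕ} (hcap : Cap J Y) (h : Lv O N u v e p e' p' c a c' a')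
    (hNP : NP u e p e' p' x y α k0) (hκ : kap e p e' α k0 ≠ 0) {K R S : ℤ} (K0 : 0 < K)
    (hR : 0 ≤ R) (S0 : 0 < S) (hS : 2 * K * J ≤ S) (hX1 : x * y * α * cr p v * cr p' v ≤ Y)
    (hX2 : S + J ≤ Y)
    (hk1 : 2 * K * |kap e p e' α k0| * (cr u v + (S + J) * α * c) < α * c * c')
    (hk2 : 2 * K * |kap e p e' α k0| * (cr u v + (S + J) * c') < α * c * c')
    (hs1 : (S + J) * α * c < a) (hs2 : (S + J) * c' < a')
    (hW : R * (cr u v + (S + J) * α * c + (S + J) * c') ≤ N) :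
    ∃ l q m s g : Z2, APc O N u v l q m s g K ∧ lat l (u + q) = lat e p ∧
      lat m (u + s) = lat e' p' ∧ R * (cr u v + cr u l + cr u m) ≤ N ∧
      Six.ct u l q = c ∧ Six.ct u m s = c' := by
  have A0 := h.A0
  have c0 := h.c0
  have c0' := h.c0'
  obtain ⟨i, j, β, κ, i1, j1, g1, g2, g3, g4, g5, g6, g7, g8, g9⟩ :=
    hNP.fine hcap A0 hκ (K := K) (R := S) K0 S0 hS hX1 hX2
      (by rw [h.ue, h.ue']; exact hk1) (by rw [h.ue, h.ue']; exact hk2)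
  have l1 : i * c ≤ (S + J) * α * c := mul_le_mul_of_nonneg_right g2 c0.le
  have l2 : β * c' ≤ (S + J) * c' := mul_le_mul_of_nonneg_right g5 c0'.le
  obtain ⟨q1, s1, t1, t2, t3, t4, t5, t6, t7⟩ := h.slit (α := i) (k := j) (α' := β) (k' := κ) g1
    (by linarith) g3 g4 (by linarith) g6
  have ul := h.cr_ul i j
  have um := h.cr_um β κ
  obtain ⟨l, hl⟩ : ∃ l, l = i • e + j • p := ⟨_, rfl⟩
  obtain ⟨m, hm⟩ : ∃ m, m = β • e' + κ • p' := ⟨_, rfl⟩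
  rw [← hl, ← hm] at t1 g8 g9
  rw [← hl] at t2 t4 t6 ul
  rw [← hm] at t3 t5 t7 um
  refine ⟨l, q1, m, s1, i1 • u + j1 • (v + l + m), ⟨t1.has, t1.vol, ⟨i1, j1, g7, rfl⟩, ?_, ?_⟩,
    t2, t3, ?_, t6, t7⟩
  · intro t t0 tK
    obtain ⟨r1, r2, r3⟩ := g8 t t0 tK
    refine ⟨r1, r2, ?_⟩
    rw [cr_add_right, cr_add_right] at r3
    exact r3
  · have ea : cr u l + cr q1 l = a := by rw [t4, ul]; ring
    have ea' : cr u m + cr s1 m = a' := by rw [t5, um]; ring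
    rw [ea, ea']
    rw [h.pe, h.pe'] at g9
    exact g9
  · refine le_trans (mul_le_mul_of_nonneg_left ?_ hR) hW
    rw [ul, um]
    linarith

/-- 5.3 in tree form -/
theorem Lv.fork_apc {J Y : ℕ} (hcap : Cap J Y) (h : Lv O N u v e p e' p' c a c' a')
    (hNP : NP u e p e' p' x y α k0) (hκ : kap e p e' α k0 = 0) (hLM : lat e p ≠ lat e' p')
    {K R : ℤ} (hK : 0 < K) (hR : 0 ≤ R) (hX1 : y * cr p v ≤ Y)
    (hX2 : 1 + PiD x y α * (2 * K * J + J) ≤ Y)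
    (hs1 : S39 J x y α (2 * K) * x * α * c < a) (hs2 : S39 J x y α (2 * K) * c' < a')
    (hW : R * (cr u v + S39 J x y α (2 * K) * x * α * c + S39 J x y α (2 * K) * c') ≤ N) :
    ∃ l q m s g : Z2, APc O N u v l q m s g K ∧ lat l (u + q) = lat e p ∧
      lat m (u + s) = lat e' p' ∧ R * (cr u v + cr u l + cr u m) ≤ N ∧
      Six.ct u l q = c ∧ Six.ct u m s = c' := by
  obtain ⟨l, q, m, s, g, t1, t2, t3, ⟨i1, t4⟩, t5, t6, t7, -, t8, t9⟩ :=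
    h.fork_ap hcap hNP hκ hLM hK hR hX1 hX2 hs1 hs2 hW
  exact ⟨l, q, m, s, g, ⟨t1.has, t1.vol, ⟨i1, -1, Or.inr rfl, t4⟩, t5, t6⟩, t2, t3, t7, t8, t9⟩

end Pool.Agent.H4G.Six
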