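import Pool.Agent.H4G.Six.D2.Near96
import Pool.Agent.H4G.Six.D2.APc
import Pool.Agent.H4G.Six.NR.Frame

/-!
# D2, row R-5 (5.1) in tree form (helper96)

At a near-Prym tree with a companion of small slope, `kap ≠ 0`, there are a tree with the same
lattices and low slits and a progression `u + t g`, `0 ≤ t ≤ K`, of centres with
`a' (g × l) ≠ a (g × m)`.
-/

set_option autoImplicit false

namespace Pool.Agent.H4G.Six

open Pool.Agent.H4G

variable {X : Type} {O : PO X} {N : ℤ} {u v e p e' p' : Z2} {c a c' a' x y α k0 : ℤ}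

theorem Lv.fine_ap {J Y : ℕ} (hcap : Cap J Y) (h : Lv O N u v e p e' p' c a c' a')
    (hNP : NP u e p e' p' x y α k0) (hκ : kap e p e' α k0 ≠ 0)
    {K R T : ℤ} (hK : 0 < K) (hR : 0 ≤ R) (hT0 : 0 < T) (hT : 2 * K * J ≤ T)
    (hX1 : x * y * α * cr p v * cr p' v ≤ Y) (hX2 : T + J ≤ Y)
    (hk1 : 2 * K * |kap e p e' α k0| * (cr u v + (T + J) * α * c) < α * c * c')
    (hk2 : 2 * K * |kap e p e' α k0| * (cr u v + (T + J) * c') < α * c * c')
    (hs1 : (T + J) * α * c < a) (hs2 : (T + J) * c' < a')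
    (hW : R * (cr u v + (T + J) * α * c + (T + J) * c') ≤ N) :
    ∃ l q m s g : Z2, APc O N u v l q m s g K ∧ lat l (u + q) = lat e p ∧
      lat m (u + s) = lat e' p' ∧ R * (cr u v + cr u l + cr u m) ≤ N ∧
      Six.ct u l q = c ∧ Six.ct u m s = c' := by
  have c0 := h.c0
  have c0' := h.c0'
  obtain ⟨i, j, β, κ, i1, j1, b1, b2, b3, b4, b5, b6, b7, b8, b9⟩ :=
    hNP.fine hcap h.A0 hκ hK hT0 hT hX1 hX2 (by rw [h.ue, h.ue']; exact hk1)
      (by rw [h.ue, h.ue']; exact hk2)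
  have l1 : i * c ≤ (T + J) * α * c := mul_le_mul_of_nonneg_right b2 c0.le
  have l2 : β * c' ≤ (T + J) * c' := mul_le_mul_of_nonneg_right b5 c0'.le
  obtain ⟨q1, s1, t1, t2, t3, t4, t5, t6, t7⟩ := h.slit (α := i) (k := j) (α' := β) (k' := κ) b1
    (by linarith) b3 b4 (by linarith) b6
  have ul := h.cr_ul i j
  have um := h.cr_um β κ
  obtain ⟨l, hl⟩ : ∃ l, l = i • e + j • p := ⟨_, rfl⟩
  obtain ⟨m, hm⟩ : ∃ m, m = β • e' + κ • p' := ⟨_, rfl⟩
  rw [← hl] at t1 t2 t4 t6 b8 b9 ul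
  rw [← hm] at t1 t3 t5 t7 b8 b9 um
  refine ⟨l, q1, m, s1, i1 • u + j1 • (v + l + m), ⟨t1.has, t1.vol, ⟨i1, j1, b7, rfl⟩, ?_, ?_⟩,
    t2, t3, ?_, t6, t7⟩
  · intro t ht htK
    obtain ⟨r1, r2, r3⟩ := b8 t ht htK
    refine ⟨r1, r2, ?_⟩
    rw [cr_add_right, cr_add_right] at r3
    exact r3
  · intro he
    have ea : cr u l + cr q1 l = a := by rw [t4, ul]; ring
    have ea' : cr u m + cr s1 m = a' := by rw [t5, um]; ring
    rw [ea, ea'] at he
    apply b9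
    rw [h.pe', h.pe]
    exact he
  · refine le_trans (mul_le_mul_of_nonneg_left ?_ hR) hW
    rw [ul, um]
    linarith

end Pool.Agent.H4G.Six
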