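import Pool.Agent.H4G.Six.D2.RoomNP6
import Pool.Agent.H4G.Six.D2.HalfD2
import Pool.Agent.H4G.Six.D2.Escape

/-!
# D2, row RB: a tree with small `A`, `b`, `b'` has a rich block or near-Prym data (helper6)

`BlockR u l p m p' T K`: the torus `⟨l, p⟩` is rich over `T` consecutive slits `m + k p'`.
`NoRel H a a' b b'` (helper11): no relation `x a' b² = y a b'²` with `0 < x, y ≤ H`.
`NPd`: near-Prym data (`NP`, helper39) with bounds.
-/

set_option autoImplicit false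

namespace Pool.Agent.H4G.Six

open Pool.Agent.H4G

variable {X : Type} {O : PO X} {N : ℤ} {u v l q m s e p e' p' : Z2} {b a b' a' K T H : ℤ}

/-- `⟨l, p⟩` is rich over `T` consecutive slits `m + k p'` -/
def BlockR (u l p m p' : Z2) (T K : ℤ) : Prop :=
  ∃ n : ℤ, ∀ k : ℤ, n ≤ k → k < n + T → RichL (lat l p) u (m + k • p') K

/-- the block of the half turned tree -/
theorem BlockR.half_iff : BlockR (-u) (-e') (-p') (-e) (-p) T K ↔ BlockR u e' p' e p T K := by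
  unfold BlockR
  constructor
  · rintro ⟨n, hn⟩
    exact ⟨n, fun k h1 h2 => RichL.half_iff.1 (hn k h1 h2)⟩
  · rintro ⟨n, hn⟩
    exact ⟨n, fun k h1 h2 => RichL.half_iff.2 (hn k h1 h2)⟩

/-- near-Prym data with bounds -/
structure NPd (u l p m p' : Z2) (x y α k0 K H : ℤ) : Prop extends NP u l p m p' x y α k0 where
  xH : x ≤ H
  yH : y ≤ H
  αK : α ≤ K ^ 2
  αb : α * cr u l ≤ K * cr u m
  bb : cr u l ≤ K * cr u m
  bb' : cr u m ≤ K * cr u l
  ka : |kap l p m α k0| ≤ K * cr u m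

/-- near-Prym data contradict the absence of relations -/
theorem NPd.noRel {x y α k0 : ℤ} (h : NPd u l p m p' x y α k0 K H)
    (hR : NoRel H (cr p l) (cr p' m) (cr u l) (cr u m)) : False :=
  hR x y h.x0 h.xH h.y0 h.yH h.rel

/-- **ROW RB**, the torus `L` is the bigger one. -/
theorem Lv.rb (h : Lv O N u v e p e' p' b a b' a') (hK : 1 ≤ K) (hT : 1 ≤ T) (haa : a' ≤ a)
    (hb : 8 * T * K ^ 5 * b < a) (hb' : 6 * T * K ^ 3 * b' < a) :
    BlockR u e p e' p' T K ∨ (a ≤ 6 * T * K ^ 2 * a' ∧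
      (BlockR u e' p' e p T K ∨ ∃ k x y α k0 : ℤ, 0 ≤ k ∧ k < T ∧
        Lv O N u v e p (e' + k • p') p' b a b' a' ∧
        NPd u e p (e' + k • p') p' x y α k0 K (2 * T * K ^ 6))) := by
  have b0 := h.c0
  have b0' := h.c0'
  have a0 : 0 < a := b0.trans h.ca
  have a0' : 0 < a' := b0'.trans h.ca'
  have hK0 : 0 < K := by linarith
  have hT0 : 0 < T := by linarith
  have hK5 : K ≤ 8 * T * K ^ 5 := by
    have k4 : 1 ≤ K ^ 4 := one_le_pow₀ hK
    have k5 : 1 ≤ 8 * T * K ^ 4 := by nlinarith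
    nlinarith
  have hKb : K * b < a := lt_of_le_of_lt (mul_le_mul_of_nonneg_right hK5 b0.le) hb
  rcases lt_or_ge (6 * T * K ^ 2 * a') a with hbig | hbig
  · -- one torus is much bigger
    left
    have hg : (Int.gcd (cr u e) (cr u p) : ℤ) = b := by
      rw [h.up, h.ue, Int.gcd_zero_right, Int.natCast_natAbs, abs_of_pos b0]
    obtain ⟨k0, -, hk⟩ := room_one (u := u) (l := e) (p := p) (m := e') (w := p') (K := K)
      (J := T) (c := b') (a' := a') b0' h.ca'.le h.cp' (by rw [h.ue']; exact b0') hK hT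
      (by rw [h.pe]; exact a0) (by rw [hg, h.pe]; exact hKb) (by
        rw [h.ue', h.pe]
        calc 6 * T * K ^ 2 * (a' * b') = (6 * T * K ^ 2 * a') * b' := by ring
          _ < a * b' := mul_lt_mul_of_pos_right hbig b0')
    exact ⟨k0 + 1, fun k h1 h2 => RichL.of_rich (hk k (by linarith) (by linarith))⟩
  have hKb' : K * b' < a' := by
    have k1 : 6 * T * K ^ 2 * (K * b') < 6 * T * K ^ 2 * a' := by
      calc 6 * T * K ^ 2 * (K * b') = 6 * T * K ^ 3 * b' := by ring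
        _ < a := hb'
        _ ≤ _ := hbig
    exact lt_of_mul_lt_mul_left k1 (by positivity)
  -- the contents of different size
  rcases lt_or_ge (K * b') b with hc | hc
  · left
    refine ⟨0, fun k _ _ => ?_⟩
    exact rich_of_low (l := e') (p := p') (m := e) (p' := p) hK0.le (by rw [h.ue']; exact b0')
      h.up' (by rw [h.ue]; exact b0) h.up (by rw [h.ue, h.ue']; exact hc)
      (by rw [h.ue, h.pe]; exact hKb) k
  rcases lt_or_ge (K * b) b' with hc' | hc'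
  · refine Or.inr ⟨hbig, Or.inl ⟨0, fun k _ _ => ?_⟩⟩
    exact rich_of_low (l := e) (p := p) (m := e') (p' := p') hK0.le (by rw [h.ue]; exact b0)
      h.up (by rw [h.ue']; exact b0') h.up' (by rw [h.ue, h.ue']; exact hc')
      (by rw [h.ue', h.pe']; exact hKb') k
  rcases np_of_room (u := u) (l := e) (p := p) (m := e') (p' := p') (K := K) (I := K ^ 2) (T := T)
    hK0.le hT0 (by rw [h.ue]; exact b0) h.up (by rw [h.ue']; exact b0') h.up'
    (by rw [h.pe']; exact a0') (by rw [h.ue, h.ue']; nlinarith)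
    (by
      rw [h.ue, h.pe]
      calc 8 * T * (K ^ 2) ^ 2 * K * b = 8 * T * K ^ 5 * b := by ring
        _ < a := hb) (by rw [h.ue, h.pe]; exact hKb) with
    ⟨n, hn⟩ | ⟨k, x, y, α, k0, k1, k2, hnp, hx, hα, hαb, hbb, hkap⟩
  · exact Or.inl ⟨n * T, hn⟩
  refine Or.inr ⟨hbig, Or.inr ⟨k, x, y, α, k0, k1, k2, ?_, ?_⟩⟩
  · have := h.lev1 0 k
    rw [zero_smul, add_zero] at this
    exact this
  have s1 : cr u (e' + k • p') = b' := by rw [cr_u_row h.up' k, h.ue']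
  have s2 : cr p' (e' + k • p') = a' := by
    rw [← h.pe']
    simp only [cr, Prod.fst_add, Prod.snd_add, Prod.smul_fst, Prod.smul_snd, smul_eq_mul]
    ring
  have hrel := hnp.rel
  rw [s1, s2, h.ue, h.pe] at hrel
  rw [h.ue, h.ue'] at hαb hbb
  rw [h.ue'] at hkap
  have hx' : x ≤ 2 * T * K ^ 4 := by
    calc x ≤ 2 * T * (K ^ 2) ^ 2 := hx
      _ = 2 * T * K ^ 4 := by ring
  have hK2 : 1 ≤ K ^ 2 := one_le_pow₀ hK
  have e6 : 2 * T * K ^ 4 * K ^ 2 = 2 * T * K ^ 6 := by ring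
  refine ⟨hnp, ?_, ?_, hα, ?_, ?_, ?_, ?_⟩
  · refine hx'.trans ?_
    rw [← e6]
    have : 0 ≤ 2 * T * K ^ 4 := by positivity
    nlinarith
  · -- `y ≤ K² x`
    have x0 := hnp.x0
    have c1 : b ^ 2 ≤ K ^ 2 * b' ^ 2 := by
      have := mul_self_le_mul_self b0.le hc
      nlinarith
    have c2 : y * (a * b' ^ 2) ≤ (x * K ^ 2) * (a * b' ^ 2) := by
      rw [← hrel]
      have c3 : a' * b ^ 2 ≤ a * (K ^ 2 * b' ^ 2) := mul_le_mul haa c1 (by positivity) a0.le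
      calc x * (a' * b ^ 2) ≤ x * (a * (K ^ 2 * b' ^ 2)) := mul_le_mul_of_nonneg_left c3 x0.le
        _ = _ := by ring
    have c4 : y ≤ x * K ^ 2 := le_of_mul_le_mul_right c2 (by positivity)
    refine c4.trans ?_
    rw [← e6]
    exact mul_le_mul_of_nonneg_right hx' (by positivity)
  · rw [h.ue, s1]; exact hαb
  · rw [h.ue, s1]; exact hc
  · rw [h.ue, s1]; exact hc'
  · rw [s1]; exact hkap

/-- **ROW RB, no relation**: one of the two tori has a rich block -/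
theorem Lv.rb_block (h : Lv O N u v e p e' p' b a b' a') (hK : 1 ≤ K) (hT : 1 ≤ T) (haa : a' ≤ a)
    (hb : 8 * T * K ^ 5 * b < a) (hb' : 6 * T * K ^ 3 * b' < a)
    (hR : NoRel (2 * T * K ^ 6) a a' b b') :
    BlockR u e p e' p' T K ∨ (a ≤ 6 * T * K ^ 2 * a' ∧ BlockR u e' p' e p T K) := by
  rcases h.rb hK hT haa hb hb' with h1 | ⟨h1, h2 | ⟨k, x, y, α, k0, -, -, h3, h4⟩⟩
  · exact Or.inl h1
  · exact Or.inr ⟨h1, h2⟩
  · exfalso
    refine h4.noRel ?_
    rw [h3.pe, h3.pe', h3.ue, h3.ue']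
    exact hR

/-- **ROW RB, both orders of the areas.** In the second half the data are those of the half turned
tree. -/
theorem Lv.rb_any (h : Lv O N u v e p e' p' b a b' a') (hK : 1 ≤ K) (hT : 1 ≤ T)
    (hA : 3 * cr u v ≤ N) (hb : 24 * T * K ^ 5 * b < N) (hb' : 24 * T * K ^ 5 * b' < N) :
    (N ≤ 18 * T * K ^ 2 * a ∧ BlockR u e p e' p' T K) ∨
    (N ≤ 18 * T * K ^ 2 * a' ∧ BlockR u e' p' e p T K) ∨
    (N ≤ 3 * a ∧ a' ≤ a ∧ a ≤ 6 * T * K ^ 2 * a' ∧ ∃ k x y α k0 : ℤ, 0 ≤ k ∧ k < T ∧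
        Lv O N u v e p (e' + k • p') p' b a b' a' ∧
        NPd u e p (e' + k • p') p' x y α k0 K (2 * T * K ^ 6)) ∨
    (N ≤ 3 * a' ∧ a ≤ a' ∧ a' ≤ 6 * T * K ^ 2 * a ∧ ∃ k x y α k0 : ℤ, 0 ≤ k ∧ k < T ∧
        Lv O N (-u) (-v) (-e') (-p') (-e + k • (-p)) (-p) b' a' b a ∧
        NPd (-u) (-e') (-p') (-e + k • (-p)) (-p) x y α k0 K (2 * T * K ^ 6)) := by
  have key : ∀ {u v e p e' p' : Z2} {b a b' a' : ℤ}, Lv O N u v e p e' p' b a b' a' → a' ≤ a →
      3 * cr u v ≤ N → 24 * T * K ^ 5 * b < N → 24 * T * K ^ 5 * b' < N →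
      (N ≤ 18 * T * K ^ 2 * a ∧ BlockR u e p e' p' T K) ∨
      (N ≤ 18 * T * K ^ 2 * a' ∧ BlockR u e' p' e p T K) ∨
      (N ≤ 3 * a ∧ a' ≤ a ∧ a ≤ 6 * T * K ^ 2 * a' ∧ ∃ k x y α k0 : ℤ, 0 ≤ k ∧ k < T ∧
        Lv O N u v e p (e' + k • p') p' b a b' a' ∧
        NPd u e p (e' + k • p') p' x y α k0 K (2 * T * K ^ 6)) := by
    intro u v e p e' p' b a b' a' h haa hA hb hb'
    have hsum := h.sum
    have a0 : 0 < a := h.c0.trans h.ca
    have hNa : N ≤ 3 * a := by linarith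
    have hK2 : 1 ≤ K ^ 2 := one_le_pow₀ hK
    have hTK : 1 ≤ T * K ^ 2 := by nlinarith
    have h1 : 8 * T * K ^ 5 * b < a := by linarith
    have h2 : 6 * T * K ^ 3 * b' < a := by
      have hTK3 : 0 ≤ T * K ^ 3 * b' := by
        have := h.c0'
        positivity
      have h3 : T * K ^ 3 * b' ≤ T * K ^ 5 * b' := by
        calc T * K ^ 3 * b' = T * K ^ 3 * b' * 1 := by ring
          _ ≤ T * K ^ 3 * b' * K ^ 2 := mul_le_mul_of_nonneg_left hK2 hTK3
          _ = T * K ^ 5 * b' := by ring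
      linarith
    rcases h.rb hK hT haa h1 h2 with h3 | ⟨h3, h4 | h4⟩
    · refine Or.inl ⟨?_, h3⟩
      nlinarith
    · refine Or.inr (Or.inl ⟨?_, h4⟩)
      linarith
    · exact Or.inr (Or.inr ⟨hNa, haa, h3, h4⟩)
  rcases le_total a' a with haa | haa
  · rcases key h haa hA hb hb' with h1 | h1 | h1
    · exact Or.inl h1
    · exact Or.inr (Or.inl h1)
    · exact Or.inr (Or.inr (Or.inl h1))
  · rcases key h.half haa (by rw [cr_neg_neg]; exact hA) hb' hb with h1 | h1 | h1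
    · exact Or.inr (Or.inl ⟨h1.1, BlockR.half_iff.1 h1.2⟩)
    · refine Or.inl ⟨h1.1, ?_⟩
      exact BlockR.half_iff.1 h1.2
    · exact Or.inr (Or.inr (Or.inr h1))

/-- **ROW RB, both orders, no relation** -/
theorem Lv.rb_any_block (h : Lv O N u v e p e' p' b a b' a') (hK : 1 ≤ K) (hT : 1 ≤ T)
    (hA : 3 * cr u v ≤ N) (hb : 24 * T * K ^ 5 * b < N) (hb' : 24 * T * K ^ 5 * b' < N)
    (hR : NoRel (2 * T * K ^ 6) a a' b b') :
    (N ≤ 18 * T * K ^ 2 * a ∧ BlockR u e p e' p' T K) ∨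
    (N ≤ 18 * T * K ^ 2 * a' ∧ BlockR u e' p' e p T K) := by
  rcases h.rb_any hK hT hA hb hb' with h1 | h1 | ⟨-, -, -, k, x, y, α, k0, -, -, h3, h4⟩ |
    ⟨-, -, -, k, x, y, α, k0, -, -, h3, h4⟩
  · exact Or.inl h1
  · exact Or.inr h1
  · exfalso
    refine h4.noRel ?_
    rw [h3.pe, h3.pe', h3.ue, h3.ue']
    exact hR
  · exfalso
    refine h4.noRel ?_
    rw [h3.pe, h3.pe', h3.ue, h3.ue']
    exact hR.mirror

end Pool.Agent.H4G.Six
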