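import Pool.Agent.H4G.Six.Mink
import Pool.Agent.H4G.Arith.Block

/-!
# Rich pairs (helper94; (G2)(i), (ii) of the page D2, room theorem of helper26)

`RichS u l e m S`: no vector of the lattice `⟨l, e⟩` except 0 has `|u × ·| ≤ S` and `|· × m| ≤ S`.

`richS_window`: if the lattice `⟨l, e⟩` has a large area, then it is rich over `m + k f` for all `k` of
a window of any given length. `richS_low`: if the content of `u × ⟨m, f⟩` is larger than `S`, then
`⟨m, f⟩` is rich over every vector of level `s`.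
-/

set_option autoImplicit false

namespace Pool.Agent.H4G.Six

open Pool.Agent.H4G

/-- no vector of `⟨l, e⟩` except 0 is short for the forms `u × ·`, `· × m` -/
def RichS (u l e m : Z2) (S : ℤ) : Prop := ∀ i j : ℤ, |cr u (i • l + j • e)| ≤ S →
  |cr (i • l + j • e) m| ≤ S → i = 0 ∧ j = 0

theorem RichS.mono {u l e m : Z2} {S S' : ℤ} (h : RichS u l e m S) (hS : S' ≤ S) :
    RichS u l e m S' := fun i j h1 h2 => h i j (h1.trans hS) (h2.trans hS)

/-- two vectors parallel to `u` -/
theorem cr_parS {u f m x : Z2} (h : cr u f = 0) : cr u m * cr f x = cr f m * cr u x := by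
  have h1 : cr u m * cr f x - cr f m * cr u x = cr u f * cr m x := by
    simp only [cr]; ring
  rw [h] at h1
  linarith

/-- the product of two vectors of the lattice `⟨l, e⟩` -/
theorem cr_pairS (l e : Z2) (i j i' j' : ℤ) :
    cr (i • l + j • e) (i' • l + j' • e) = (i * j' - j * i') * cr l e := by
  simp only [cr, Prod.fst_add, Prod.snd_add, Prod.smul_fst, Prod.smul_snd, smul_eq_mul]; ring

/-- not rich: a short primitive vector -/
theorem not_richS {u l e m : Z2} {S : ℤ} (h : ¬ RichS u l e m S) : ∃ i j : ℤ, IsCoprime i j ∧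
    |cr u (i • l + j • e)| ≤ S ∧ |cr (i • l + j • e) m| ≤ S := by
  unfold RichS at h
  push Not at h
  obtain ⟨i, j, h1, h2, h3⟩ := h
  have hne : i ≠ 0 ∨ j ≠ 0 := by
    by_cases hi : i = 0
    · exact Or.inr (h3 hi)
    · exact Or.inl hi
  obtain ⟨d, i', j', d1, d2, d3, d4⟩ := exists_prim_of_ne hne
  have e1 : i • l + j • e = d • (i' • l + j' • e) := by
    rw [d3, d4]; module
  have k : ∀ x : ℤ, |x| ≤ |d * x| := by
    intro x
    rw [abs_mul, abs_of_pos d1]
    nlinarith [abs_nonneg x]
  refine ⟨i', j', d2, (k _).trans ?_, (k _).trans ?_⟩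
  · have : cr u (i • l + j • e) = d * cr u (i' • l + j' • e) := by
      rw [e1]; simp only [cr, Prod.smul_fst, Prod.smul_snd, smul_eq_mul]; ring
    rw [← this]; exact h1
  · have : cr (i • l + j • e) m = d * cr (i' • l + j' • e) m := by
      rw [e1]; simp only [cr, Prod.smul_fst, Prod.smul_snd, smul_eq_mul]; ring
    rw [← this]; exact h2

/-- **(G2)(i), one step**: a short vector over `m` makes `m + k f` rich. -/
theorem richS_of_bad {u l e m f : Z2} {S T i j k : ℤ} (hf : cr u f = 0)
    (hm : 0 < cr u m) (hij : IsCoprime i j) (h1 : |cr u (i • l + j • e)| ≤ S)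
    (h2 : |cr (i • l + j • e) m| ≤ S)
    (hk1 : 2 * S < |k * cr f (i • l + j • e)|) (hk2 : |k * cr f (i • l + j • e)| ≤ T)
    (hT : S * (2 * S + T) < |cr l e| * cr u m) : RichS u l e (m + k • f) S := by
  intro i' j' h1' h2'
  have hS : 0 ≤ S := (abs_nonneg _).trans h1
  set x := i • l + j • e with hx
  set y := i' • l + j' • e with hy
  have hum : cr u (m + k • f) = cr u m := by
    rw [cr_add_right, cr_smul_right, hf]; ring
  -- Plücker
  have e1 : cr u m * cr x y = cr u x * cr (m + k • f) y - cr u y * cr (m + k • f) x := by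
    rw [← hum]
    simp only [cr]; ring
  have e2 : cr (m + k • f) x = -cr x m + k * cr f x := by
    rw [cr_add_left, cr_smul_left]; simp only [cr]; ring
  have e3 : |cr (m + k • f) x| ≤ S + T := by
    rw [e2]
    calc |-cr x m + k * cr f x| ≤ |-cr x m| + |k * cr f x| := abs_add_le _ _
      _ ≤ S + T := by rw [abs_neg]; linarith
  have e4 : |cr (m + k • f) y| ≤ S := by
    rw [cr_swap' y, abs_neg]; exact h2'
  have e5 : cr u m * |cr x y| ≤ S * (2 * S + T) := by
    have e50 : cr u m * |cr x y| = |cr u m * cr x y| := by rw [abs_mul, abs_of_pos hm]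
    rw [e50, e1]
    calc |cr u x * cr (m + k • f) y - cr u y * cr (m + k • f) x|
        ≤ |cr u x * cr (m + k • f) y| + |cr u y * cr (m + k • f) x| := abs_sub _ _
      _ ≤ S * S + S * (S + T) := by
          rw [abs_mul, abs_mul]
          have a1 : |cr u x| * |cr (m + k • f) y| ≤ S * S :=
            mul_le_mul h1 e4 (abs_nonneg _) hS
          have a2 : |cr u y| * |cr (m + k • f) x| ≤ S * (S + T) :=
            mul_le_mul h1' e3 (abs_nonneg _) hS
          linarith
      _ = S * (2 * S + T) := by ring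
  have e6 : cr x y = (i * j' - j * i') * cr l e := by rw [hx, hy]; exact cr_pairS l e i j i' j'
  have e7 : i * j' - j * i' = 0 := by
    by_contra hne
    have a1 : (1 : ℤ) ≤ |i * j' - j * i'| := Int.one_le_abs hne
    have a2 : |cr l e| ≤ |cr x y| := by
      rw [e6, abs_mul]
      nlinarith [abs_nonneg (cr l e)]
    have a3 : cr u m * |cr l e| ≤ cr u m * |cr x y| := mul_le_mul_of_nonneg_left a2 hm.le
    linarith [mul_comm (cr u m) |cr l e|]
  -- `y = n x`
  obtain ⟨r, t, hrt⟩ := hij
  obtain ⟨n, hn⟩ : ∃ n : ℤ, n = r * i' + t * j' := ⟨_, rfl⟩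
  have n1 : i' = n * i := by
    rw [hn]
    linear_combination (-i') * hrt + (-t) * e7
  have n2 : j' = n * j := by
    rw [hn]
    linear_combination (-j') * hrt + r * e7
  have hyx : y = n • x := by
    rw [hy, hx, n1, n2]; module
  by_cases hn0 : n = 0
  · rw [hn0, zero_mul] at n1 n2
    exact ⟨n1, n2⟩
  exfalso
  have b1 : |cr (m + k • f) x| ≤ S := by
    have : cr (m + k • f) y = n * cr (m + k • f) x := by rw [hyx, cr_smul_right]
    rw [this, abs_mul] at e4
    have := Int.one_le_abs hn0
    nlinarith [abs_nonneg (cr (m + k • f) x)]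
  have b2 : |k * cr f x| ≤ |cr (m + k • f) x| + |cr x m| := by
    have : k * cr f x = cr (m + k • f) x + cr x m := by rw [e2]; ring
    rw [this]
    exact abs_add_le _ _
  linarith

/-- **(G2)(i)** ROOM: `⟨l, e⟩` with `e` parallel to `u`, areas `a = |l × e|`; `f` parallel to `u`,
`g = f × m`, `s = u × m`: a window of length `J` of `k` such that `⟨l, e⟩` is rich over `m + k f`. -/
theorem richS_window {u l e m f : Z2} {S J : ℤ} (he : cr u e = 0) (hf : cr u f = 0)
    (hm : 0 < cr u m) (hg : 0 < cr f m) (hu : 0 < cr u l) (hJ : 0 < J) (hS : 0 ≤ S)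
    (h1 : S * cr u l < |cr l e| * cr u m)
    (h2 : S * (4 * S * cr u m + J * (cr f m * S)) < |cr l e| * (cr u m) ^ 2) (k0 : ℤ) :
    ∃ k1 : ℤ, k0 ≤ k1 ∧ ∀ k : ℤ, k1 ≤ k → k < k1 + J → RichS u l e (m + k • f) S := by
  by_cases hall : ∀ k : ℤ, k0 ≤ k → k < k0 + J → RichS u l e (m + k • f) S
  · exact ⟨k0, le_refl _, hall⟩
  push Not at hall
  obtain ⟨k', c1, c2, c3⟩ := hall
  obtain ⟨i, j, hij, b1, b2⟩ := not_richS c3
  obtain ⟨x, hx⟩ : ∃ x, x = i • l + j • e := ⟨_, rfl⟩
  obtain ⟨m', hm'⟩ : ∃ m', m' = m + k' • f := ⟨_, rfl⟩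
  have hum : cr u m' = cr u m := by rw [hm', cr_add_right, cr_smul_right, hf]; ring
  have hfm : cr f m' = cr f m := by rw [hm', cr_add_right, cr_smul_right, cr_self]; ring
  have hux : cr u x ≠ 0 := by
    intro h0
    have a0 : cr u x = i * cr u l := by
      rw [hx, cr_add_right, cr_smul_right, cr_smul_right, he]; ring
    have a1 : i = 0 := by
      rw [a0] at h0
      rcases mul_eq_zero.1 h0 with h | h
      · exact h
      · exact absurd h hu.ne'
    have a2 : j ≠ 0 := by
      intro h
      rw [a1, h] at hij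
      obtain ⟨r, t, hrt⟩ := hij
      linarith
    have a3 : x = j • e := by rw [hx, a1]; module
    -- `|e × m'| = |l × e| s / b > S`
    have a4 : cr u l * cr e m' = cr e l * cr u m' := cr_parS he
    have a5 : |cr x m'| ≤ S := by rw [hx, hm']; exact b2
    rw [a3, cr_smul_left, abs_mul] at a5
    have a6 : |cr e m'| ≤ S := by
      have := Int.one_le_abs a2
      nlinarith [abs_nonneg (cr e m')]
    have a7 : cr u l * |cr e m'| = |cr l e| * cr u m := by
      have : |cr u l * cr e m'| = |cr e l * cr u m'| := by rw [a4]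
      rw [abs_mul, abs_mul, abs_of_pos hu, hum, abs_of_pos hm, cr_swap' l e, abs_neg] at this
      exact this
    have a8 : cr u l * |cr e m'| ≤ cr u l * S := mul_le_mul_of_nonneg_left a6 hu.le
    linarith [mul_comm S (cr u l)]
  -- `φ = |f × x|`
  have hphi : cr u m * cr f x = cr f m * cr u x := cr_parS hf
  obtain ⟨φ, hφ⟩ : ∃ φ, φ = |cr f x| := ⟨_, rfl⟩
  have p1 : cr u m * φ = cr f m * |cr u x| := by
    have : |cr u m * cr f x| = |cr f m * cr u x| := by rw [hphi]
    rw [abs_mul, abs_mul, abs_of_pos hm, abs_of_pos hg] at this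
    rw [hφ]; exact this
  have p2 : 0 < φ := by
    have : 0 < cr f m * |cr u x| := mul_pos hg (abs_pos.2 hux)
    rw [← p1] at this
    exact (mul_pos_iff_of_pos_left hm).1 this
  have p3 : cr u m * φ ≤ cr f m * S := by
    rw [p1]
    exact mul_le_mul_of_nonneg_left (by rw [hx]; exact b1) hg.le
  -- the window
  obtain ⟨n, hn⟩ : ∃ n, n = 2 * S / φ + 1 := ⟨_, rfl⟩
  have n1 : 2 * S < n * φ := by
    have := Int.lt_ediv_add_one_mul_self (2 * S) p2
    rw [hn]; exact this
  have n2 : (n - 1) * φ ≤ 2 * S := by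
    rw [hn]
    have := Int.ediv_mul_le (2 * S) p2.ne'
    linarith
  have n3 : 0 < n := by
    have : 0 < n * φ := by linarith
    exact (mul_pos_iff_of_pos_right p2).1 this
  refine ⟨k' + n, by linarith, fun k d1 d2 => ?_⟩
  have q1 : n ≤ k - k' := by linarith
  have q2 : k - k' ≤ n + J - 1 := by linarith
  have q3 : |(k - k') * cr f x| = (k - k') * φ := by
    rw [abs_mul, abs_of_pos (by linarith : (0 : ℤ) < k - k'), hφ]
  have q4 : 2 * S < (k - k') * φ := by
    have := mul_le_mul_of_nonneg_right q1 p2.le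
    linarith
  have q5 : (k - k') * φ ≤ 2 * S + J * φ := by
    have := mul_le_mul_of_nonneg_right q2 p2.le
    linarith
  have hres : RichS u l e (m' + (k - k') • f) S := by
    refine richS_of_bad (T := 2 * S + J * φ) hf (by rw [hum]; exact hm) hij b1
      (by rw [hm']; exact b2) (by rw [← hx, q3]; exact q4) (by rw [← hx, q3]; exact q5) ?_
    rw [hum]
    have r1 : S * (J * (cr u m * φ)) ≤ S * (J * (cr f m * S)) :=
      mul_le_mul_of_nonneg_left (mul_le_mul_of_nonneg_left p3 hJ.le) hS
    have r2 : S * (2 * S + (2 * S + J * φ)) * cr u m < |cr l e| * cr u m * cr u m := by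
      calc S * (2 * S + (2 * S + J * φ)) * cr u m
          = S * (4 * S * cr u m) + S * (J * (cr u m * φ)) := by ring
        _ ≤ S * (4 * S * cr u m) + S * (J * (cr f m * S)) := by linarith
        _ = S * (4 * S * cr u m + J * (cr f m * S)) := by ring
        _ < |cr l e| * (cr u m) ^ 2 := h2
        _ = |cr l e| * cr u m * cr u m := by ring
    exact lt_of_mul_lt_mul_right r2 hm.le
  have e9 : m + k • f = m' + (k - k') • f := by rw [hm']; module
  rw [e9]; exact hres

/-- `richS_window` with `S = R s`, `s = u × m`: the conditions are `R b < a` and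
`R² (4 s + J g) < a` -/
theorem richS_window' {u l e m f : Z2} {R J : ℤ} (he : cr u e = 0) (hf : cr u f = 0)
    (hm : 0 < cr u m) (hg : 0 < cr f m) (hu : 0 < cr u l) (hJ : 0 < J) (hR : 0 ≤ R)
    (h1 : R * cr u l < |cr l e|) (h2 : R ^ 2 * (4 * cr u m + J * cr f m) < |cr l e|) (k0 : ℤ) :
    ∃ k1 : ℤ, k0 ≤ k1 ∧ ∀ k : ℤ, k1 ≤ k → k < k1 + J →
      RichS u l e (m + k • f) (R * cr u m) := by
  refine richS_window he hf hm hg hu hJ (mul_nonneg hR hm.le) ?_ ?_ k0
  · calc R * cr u m * cr u l = (R * cr u l) * cr u m := by ring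
      _ < |cr l e| * cr u m := mul_lt_mul_of_pos_right h1 hm
  · calc R * cr u m * (4 * (R * cr u m) * cr u m + J * (cr f m * (R * cr u m)))
        = (R ^ 2 * (4 * cr u m + J * cr f m)) * (cr u m) ^ 2 := by ring
      _ < |cr l e| * (cr u m) ^ 2 := mul_lt_mul_of_pos_right h2 (by positivity)

/-- **(G2)(ii)**: the content of `u × ⟨m, f⟩` is larger than `S` -/
theorem richS_low {u l m f : Z2} {S : ℤ} (hf : cr u f = 0) (hg : 0 < cr f m)
    (hl : 0 < cr u l) (hS : S < cr u m) (h1 : S * cr u m < cr f m * cr u l) :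
    RichS u m f l S := by
  intro i j b1 b2
  have hm : 0 < cr u m := by
    by_contra hc
    push Not at hc
    have : 0 ≤ S := (abs_nonneg _).trans b1
    linarith
  have e1 : cr u (i • m + j • f) = i * cr u m := by
    rw [cr_add_right, cr_smul_right, cr_smul_right, hf]; ring
  have i0 : i = 0 := by
    by_contra hne
    have := Int.one_le_abs hne
    rw [e1, abs_mul, abs_of_pos hm] at b1
    nlinarith
  refine ⟨i0, ?_⟩
  by_contra hne
  have h5 := Int.one_le_abs hne
  rw [i0, show (0 : ℤ) • m + j • f = j • f by module, cr_smul_left, abs_mul] at b2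
  have h6 : cr u m * cr f l = cr f m * cr u l := cr_parS hf
  have h7 : 0 < cr f l := by
    have : 0 < cr u m * cr f l := by rw [h6]; exact mul_pos hg hl
    exact (mul_pos_iff_of_pos_left hm).1 this
  rw [abs_of_pos h7] at b2
  have h8 : cr f l ≤ S := by nlinarith
  have h9 : cr u m * cr f l ≤ cr u m * S := mul_le_mul_of_nonneg_left h8 hm.le
  linarith [mul_comm S (cr u m)]

end Pool.Agent.H4G.Six
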