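import Pool.Agent.H4G.Six.D2.Small46

/-!
# D2, the room theorem (page MP_4f7c28_G3_h11, section 1, helper11; typed by helper41)

Pure lattices. `L = ⟨e, p⟩` and `M = ⟨e', p'⟩` with `u × p = u × p' = 0`, contents `b`, `b'`, areas
`a`, `a'`. `CompH`: every primitive vector `m` of `M` in the window has a companion in `L`: a
primitive vector `l` with `|u × l|`, `|l × m|` at most `H (u × m)`.
`room`: if both tori have companions and `A + b + b'` is small, the two tori are nearly the same.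
-/

set_option autoImplicit false

namespace Pool.Agent.H4G.Six

open Pool.Agent.H4G

namespace NRB

/-- a torus with its level vectors -/
structure LB (u e p : Z2) (a b : ℤ) : Prop where
  b0 : 0 < b
  ba : b < a
  pe : cr p e = a
  ue : cr u e = b
  up : cr u p = 0

theorem LB.a0 {u e p : Z2} {a b : ℤ} (h : LB u e p a b) : 0 < a := h.b0.trans h.ba

/-- primitive vectors by coordinates -/
theorem prim_iff {e p l : Z2} {a : ℤ} (ha : 0 < a) (hp : cr p e = a) :
    Prim e p a l ↔ ∃ i c : ℤ, IsCoprime i c ∧ l = i • e + c • p := by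
  constructor
  · rintro ⟨p1, h1, h2⟩
    have m1 : l ∈ lat e p := by rw [← h1]; exact AddSubgroup.subset_closure (by simp)
    have m2 : p1 ∈ lat e p := by rw [← h1]; exact AddSubgroup.subset_closure (by simp)
    obtain ⟨i, c, rfl⟩ := mem_lat_coords m1
    obtain ⟨x, y, rfl⟩ := mem_lat_coords m2
    refine ⟨i, c, ?_, rfl⟩
    have h3 : cr (x • e + y • p) (i • e + c • p) = (y * i - x * c) * cr p e := by
      simp only [cr, Prod.fst_add, Prod.snd_add, Prod.smul_fst, Prod.smul_snd, smul_eq_mul]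
      ring
    rw [h3, hp] at h2
    have h4 : y * i - x * c = 1 := by
      have : (y * i - x * c) * a = 1 * a := by rw [h2, one_mul]
      exact mul_right_cancel₀ ha.ne' this
    exact ⟨y, -x, by linarith⟩
  · rintro ⟨i, c, ⟨y, x, hxy⟩, rfl⟩
    refine ⟨(-x) • e + y • p, ?_, ?_⟩
    · exact closure_pair_eq (α := i) (β := c) (γ := -x) (δ := y) rfl rfl (Or.inl (by linarith))
    · have h3 : cr ((-x) • e + y • p) (i • e + c • p) = (y * i + x * c) * cr p e := by
        simp only [cr, Prod.fst_add, Prod.snd_add, Prod.smul_fst, Prod.smul_snd, smul_eq_mul]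
        ring
      rw [h3, hxy, hp, one_mul]

theorem Prim.neg {e p l : Z2} {a : ℤ} (h : Prim e p a l) : Prim e p a (-l) := by
  obtain ⟨p1, h1, h2⟩ := h
  refine ⟨-p1, ?_, by rw [cr_negl, cr_negr, neg_neg]; exact h2⟩
  rw [← h1]
  exact closure_pair_eq (α := -1) (β := 0) (γ := 0) (δ := -1) (by module) (by module)
    (Or.inl (by norm_num))

variable {u e p e' p' : Z2} {a b a' b' H : ℤ}

/-- the companions in `L` of the vectors of `M` -/
def CompH (u e p e' p' : Z2) (a a' H : ℤ) : Prop :=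
  ∀ m : Z2, Prim e' p' a' m → 0 < cr u m → cr u m < a' →
    ∃ l : Z2, Prim e p a l ∧ |cr u l| ≤ H * cr u m ∧ |cr l m| ≤ H * cr u m

/-- a companion with positive level, if `a > H b` -/
theorem CompH.pos (hC : CompH u e p e' p' a a' H) (hL : LB u e p a b) (hz : H * b < a) {m : Z2}
    (hm : Prim e' p' a' m) (h0 : 0 < cr u m) (h1 : cr u m < a') :
    ∃ l : Z2, Prim e p a l ∧ 0 < cr u l ∧ b ≤ cr u l ∧ cr u l ≤ H * cr u m ∧
      |cr l m| ≤ H * cr u m := by
  obtain ⟨l, k1, k2, k3⟩ := hC m hm h0 h1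
  have hbl : ∀ x : Z2, Prim e p a x → 0 < cr u x → b ≤ cr u x := by
    intro x hx hx0
    obtain ⟨k, hk⟩ := cru_mem hL.ue hL.up hx.mem
    rw [hk] at hx0 ⊢
    have : 0 < k := pos_of_mul_pos_left hx0 hL.b0.le
    have := hL.b0
    nlinarith
  rcases lt_trichotomy (cr u l) 0 with h | h | h
  · have e1 : cr u (-l) = -cr u l := cr_negr _ _
    refine ⟨-l, k1.neg, by rw [e1]; linarith, hbl _ k1.neg (by rw [e1]; linarith), ?_, ?_⟩
    · rw [e1, ← abs_of_neg h]; exact k2
    · rw [cr_negl, abs_neg]; exact k3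
  · exfalso
    obtain ⟨i, c, hic, rfl⟩ := (prim_iff hL.a0 hL.pe).1 k1
    have e1 : cr u (i • e + c • p) = i * b := by
      rw [← hL.ue]
      have := hL.up
      simp only [cr, Prod.fst_add, Prod.snd_add, Prod.smul_fst, Prod.smul_snd, smul_eq_mul] at this ⊢
      linear_combination c * this
    rw [e1] at h
    have hi : i = 0 := (mul_eq_zero.1 h).resolve_right hL.b0.ne'
    rw [hi] at hic
    have hc : IsUnit c := isCoprime_zero_left.1 hic
    have hc1 : |c| = 1 := Int.isUnit_iff_abs_eq.1 hc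
    have e2 : cr (i • e + c • p) m = c * cr p m := by
      rw [hi]
      simp only [cr, Prod.fst_add, Prod.snd_add, Prod.smul_fst, Prod.smul_snd, smul_eq_mul]
      ring
    rw [e2, abs_mul, hc1, one_mul] at k3
    have e3 := crp_mem (e := m) hL.pe hL.ue hL.up
    have h2 : a * cr u m ≤ b * (H * cr u m) := by
      calc a * cr u m = |b * cr p m| := by rw [e3, abs_of_pos (mul_pos hL.a0 h0)]
        _ = b * |cr p m| := by rw [abs_mul, abs_of_pos hL.b0]
        _ ≤ b * (H * cr u m) := mul_le_mul_of_nonneg_left k3 hL.b0.le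
    have h3 : (H * b) * cr u m < a * cr u m := mul_lt_mul_of_pos_right hz h0
    have h4 : b * (H * cr u m) = (H * b) * cr u m := by ring
    linarith
  · exact ⟨l, k1, h, hbl l k1 h, by rw [← abs_of_pos h]; exact k2, k3⟩

/-- a constant row of companions is impossible -/
theorem row_false {F T : ℤ} (hL : LB u e p a b) (hM : LB u e' p' a' b')
    (h : ∀ n : ℕ, ∃ l : Z2, Prim e p a l ∧ 0 < cr u l ∧ cr u l ≤ F ∧
      |cr l (e' + (n : ℤ) • p')| ≤ T)
    (hlt : 2 * F * T * b' + F ^ 2 * a' < a * b' ^ 2) : False := by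
  have ha := hL.a0
  have ha' := hM.a0
  have b0' := hM.b0
  obtain ⟨e0, f1, f2, f3, f4⟩ := h 0
  have F0 : 0 < F := by linarith
  have T0 : 0 ≤ T := (abs_nonneg _).trans f4
  have const : ∀ n : ℕ, |cr e0 (e' + (n : ℤ) • p')| ≤ T := by
    intro n
    induction n with
    | zero => exact f4
    | succ n ih =>
      obtain ⟨l, g1, g2, g3, g4⟩ := h (n + 1)
      have k0 : 0 < cr u (e' + (n : ℤ) • p') := by rw [cru_row hM.ue hM.up]; exact b0'
      have k1 : b' * |cr p' l| ≤ a' * F := by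
        have h1 := crp_mem (e := l) hM.pe hM.ue hM.up
        calc b' * |cr p' l| = |b' * cr p' l| := by rw [abs_mul, abs_of_pos b0']
          _ = a' * cr u l := by rw [h1, abs_of_pos (mul_pos ha' g2)]
          _ ≤ a' * F := mul_le_mul_of_nonneg_left g3 ha'.le
      have k2 : |cr l (e' + (n : ℤ) • p')| ≤ T + |cr p' l| := by
        have h1 : cr l (e' + (n : ℤ) • p') = cr l (e' + ((n + 1 : ℕ) : ℤ) • p') + cr p' l := by
          push_cast
          simp only [cr, Prod.fst_add, Prod.snd_add, Prod.smul_fst, Prod.smul_snd, smul_eq_mul]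
          ring
        rw [h1]
        exact (abs_add_le _ _).trans (by linarith)
      have k3 := cr_bound (e := e0) (e' := l) k0 (F := F) (F' := F)
        (by rw [abs_of_pos f2]; exact f3) (by rw [abs_of_pos g2]; exact g3) ih k2
      rw [cru_row hM.ue hM.up] at k3
      obtain ⟨k, hk⟩ := cr_mem hL.pe f1.mem g1.mem
      have k4 : |cr e0 l| < a := by
        by_contra hc
        push Not at hc
        have h1 : b' ^ 2 * a ≤ b' ^ 2 * |cr e0 l| := mul_le_mul_of_nonneg_left hc (by positivity)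
        have h2 : b' * (b' * |cr e0 l|) ≤ b' * (F * (T + |cr p' l|) + F * T) :=
          mul_le_mul_of_nonneg_left k3 b0'.le
        have h3 : b' * (F * (T + |cr p' l|) + F * T) = 2 * F * T * b' + F * (b' * |cr p' l|) := by
          ring
        have h4 : F * (b' * |cr p' l|) ≤ F * (a' * F) := mul_le_mul_of_nonneg_left k1 F0.le
        nlinarith
      have k5 : k = 0 := by
        rw [hk, abs_mul, abs_of_pos ha] at k4
        by_contra hk0
        have : 1 ≤ |k| := Int.one_le_abs hk0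
        nlinarith
      have k6 : cr e0 l = 0 := by rw [hk, k5, zero_mul]
      have k7 : e0 = l := f1.eq ha g1 k6 f2 g2
      rw [k7]
      exact g4
  have hne : 1 ≤ |cr e0 p'| := by
    apply Int.one_le_abs
    intro h0
    have h1 := crp_mem (e := e0) hM.pe hM.ue hM.up
    rw [cr_swap' e0 p', h0, neg_zero, mul_zero] at h1
    have := mul_pos ha' f2
    linarith
  obtain ⟨n, hn⟩ : ∃ n : ℕ, (n : ℤ) = 2 * T + 1 :=
    ⟨(2 * T + 1).toNat, Int.toNat_of_nonneg (by positivity)⟩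
  have h1 := const n
  have h2 : cr e0 (e' + (n : ℤ) • p') = cr e0 e' + n * cr e0 p' := by
    simp only [cr, Prod.fst_add, Prod.snd_add, Prod.smul_fst, Prod.smul_snd, smul_eq_mul]
    ring
  have h3 : |cr e0 e'| ≤ T := by simpa using const 0
  have h4 : (n : ℤ) ≤ |(n : ℤ) * cr e0 p'| := by
    rw [abs_mul, abs_of_nonneg (by positivity : (0 : ℤ) ≤ n)]
    nlinarith
  have h5 : |(n : ℤ) * cr e0 p'| ≤ |cr e0 (e' + (n : ℤ) • p')| + |cr e0 e'| := by
    have : (n : ℤ) * cr e0 p' = cr e0 (e' + (n : ℤ) • p') - cr e0 e' := by rw [h2]; ring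
    rw [this]
    exact abs_sub _ _
  linarith

/-- (1.3) -/
theorem room_b (hL : LB u e p a b) (hM : LB u e' p' a' b') (hH : 1 ≤ H)
    (hC : CompH u e p e' p' a a' H) (hz : H * b < a) : a ≤ 3 * H ^ 2 * a' := by
  by_contra hcon
  push Not at hcon
  have b0' := hM.b0
  have ba' := hM.ba
  refine row_false (F := H * b') (T := H * b') hL hM (fun n => ?_) ?_
  · have h1 := cru_row hM.ue hM.up n
    obtain ⟨l, k1, k2, -, k3, k4⟩ := hC.pos hL hz (prim_row hM.pe n) (by rw [h1]; exact b0')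
      (by rw [h1]; exact ba')
    rw [h1] at k3 k4
    exact ⟨l, k1, k2, k3, k4⟩
  · have e1 : 2 * (H * b') * (H * b') * b' + (H * b') ^ 2 * a' =
        (H ^ 2 * (2 * b' + a')) * b' ^ 2 := by ring
    rw [e1]
    apply mul_lt_mul_of_pos_right _ (by positivity)
    have : H ^ 2 * (2 * b' + a') < H ^ 2 * (3 * a') :=
      mul_lt_mul_of_pos_left (by linarith) (by positivity)
    linarith

/-- (1.1): both tori are long -/
theorem room_z {A N B : ℤ} (hL : LB u e p a b) (hM : LB u e' p' a' b') (hH : 1 ≤ H)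
    (hC : CompH u e p e' p' a a' H) (hA : 0 < A) (hN : A + a + a' = N)
    (hw : B * (A + b + b') ≤ N) (hB : 5 * H ^ 3 ≤ B) (hz : H * b < a) : H * b' < a' := by
  by_contra hcon
  push Not at hcon
  have b0' := hM.b0
  have ba' := hM.ba
  have b0 := hL.b0
  have h3 : a ≤ 3 * H ^ 2 * a' := room_b hL hM hH hC hz
  have hH2 : 1 ≤ H ^ 2 := one_le_pow₀ hH
  have hH3 : H ≤ H ^ 3 := by nlinarith
  have hw0 : 0 < A + b + b' := by linarith
  have h4 : 3 * H ^ 2 * a' ≤ 3 * H ^ 3 * b' := by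
    have : 3 * H ^ 2 * a' ≤ 3 * H ^ 2 * (H * b') := mul_le_mul_of_nonneg_left hcon (by positivity)
    linarith
  have h5 : 5 * H ^ 3 * (A + b + b') ≤ N := by
    have := mul_le_mul_of_nonneg_right hB hw0.le
    linarith
  have h6 : H * b' ≤ H ^ 3 * b' := mul_le_mul_of_nonneg_right hH3 b0'.le
  have h7 : A ≤ H ^ 3 * A := by nlinarith
  have h8 : 0 < H ^ 3 * b := by positivity
  have h9 : 0 < H ^ 3 * b' := by positivity
  have h10 : 0 < H ^ 3 * A := by positivity
  have e1 : 5 * H ^ 3 * (A + b + b') = 5 * (H ^ 3 * A) + 5 * (H ^ 3 * b) + 5 * (H ^ 3 * b') := by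
    ring
  linarith

/-- both tori are long -/
theorem room_both {A N B : ℤ} (hL : LB u e p a b) (hM : LB u e' p' a' b') (hH : 1 ≤ H)
    (hC : CompH u e p e' p' a a' H) (hC' : CompH u e' p' e p a' a H) (hA : 0 < A)
    (hN : A + a + a' = N) (hw : B * (A + b + b') ≤ N) (hB : 5 * H ^ 3 ≤ B) :
    H * b < a ∧ H * b' < a' := by
  by_cases hz : H * b < a
  · exact ⟨hz, room_z hL hM hH hC hA hN hw hB hz⟩
  by_cases hz' : H * b' < a'
  · have hN' : A + a' + a = N := by linarith
    have hw' : B * (A + b' + b) ≤ N := by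
      have : A + b' + b = A + b + b' := by ring
      rw [this]; exact hw
    exact ⟨room_z hM hL hH hC' hA hN' hw' hB hz', hz'⟩
  exfalso
  push Not at hz hz'
  have b0 := hL.b0
  have b0' := hM.b0
  have hH2 : 1 ≤ H ^ 2 := one_le_pow₀ hH
  have hH3 : H ≤ H ^ 3 := by nlinarith
  have h1 : 5 * H ^ 3 * (A + b + b') ≤ N := by
    have := mul_le_mul_of_nonneg_right hB (by linarith : 0 ≤ A + b + b')
    linarith
  have h2 : H * (A + b + b') ≤ H ^ 3 * (A + b + b') :=
    mul_le_mul_of_nonneg_right hH3 (by linarith)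
  have h3 : A ≤ H * A := by nlinarith
  have h4 : 0 < H ^ 3 * (A + b + b') := by positivity
  have e1 : H * (A + b + b') = H * A + H * b + H * b' := by ring
  linarith

/-- the level of a companion of a level-one vector -/
theorem CompH.one (hC : CompH u e p e' p' a a' H) (hL : LB u e p a b) (hM : LB u e' p' a' b')
    (hz : H * b < a) {m : Z2} (hm : Prim e' p' a' m) (hmb : cr u m = b') :
    ∃ (l : Z2) (i : ℤ), Prim e p a l ∧ 0 < i ∧ cr u l = i * b ∧ i * b ≤ H * b' ∧
      |cr l m| ≤ H * b' := by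
  obtain ⟨l, k1, k2, -, k3, k4⟩ := hC.pos hL hz hm (by rw [hmb]; exact hM.b0)
    (by rw [hmb]; exact hM.ba)
  obtain ⟨i, hi⟩ := cru_mem hL.ue hL.up k1.mem
  rw [hmb] at k3 k4
  refine ⟨l, i, k1, ?_, hi, by rw [← hi]; exact k3, k4⟩
  rw [hi] at k2
  exact pos_of_mul_pos_left k2 hL.b0.le

/-- (1.2) -/
theorem CompH.le (hC : CompH u e p e' p' a a' H) (hL : LB u e p a b) (hM : LB u e' p' a' b')
    (hz : H * b < a) : b ≤ H * b' := by
  obtain ⟨l, i, -, k2, -, k4, -⟩ := hC.one hL hM hz (Prim.self hM.pe) hM.ue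
  have := hL.b0
  nlinarith

/-- the product of two vectors displaced along `u` -/
theorem cr_disp (hL : LB u e p a b) (hM : LB u e' p' a' b') {l m : Z2} {i : ℤ}
    (hl : cr u l = i * b) (hm : cr u m = b') (t d : ℤ) :
    cr (l + t • p) (m + d • p') = cr l m + (t * cr p e' - i * (d * cr p' e)) := by
  have hpp : cr p p' = 0 := by
    have e1 : cr u e * cr p p' = cr u p * cr e p' - cr u p' * cr e p := by
      simp only [cr]; ring
    rw [hL.ue, hL.up, hM.up, zero_mul, zero_mul, sub_zero] at e1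
    exact (mul_eq_zero.1 e1).resolve_left hL.b0.ne'
  have e1 : cr p m = cr p e' := by
    have e2 : cr u e' * cr p m - cr u m * cr p e' = cr u p * cr e' m := by
      simp only [cr]; ring
    rw [hM.ue, hm, hL.up, zero_mul] at e2
    exact mul_left_cancel₀ hM.b0.ne' (by linarith)
  have e3 : cr p' l = i * cr p' e := by
    have e2 : cr u e * cr p' l - cr u l * cr p' e = cr u p' * cr e l := by
      simp only [cr]; ring
    rw [hL.ue, hl, hM.up, zero_mul] at e2
    exact mul_left_cancel₀ hL.b0.ne' (by linarith)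
  have e4 : cr (l + t • p) (m + d • p') = cr l m + t * cr p m - d * cr p' l + t * d * cr p p' := by
    simp only [cr, Prod.fst_add, Prod.snd_add, Prod.smul_fst, Prod.smul_snd, smul_eq_mul]
    ring
  rw [e4, hpp, e1, e3]
  ring

/-- displacement along `u` by a multiple of the level -/
theorem Prim.disp (hL : LB u e p a b) {l : Z2} (hl : Prim e p a l) {i : ℤ} (hi : cr u l = i * b)
    (t : ℤ) : Prim e p a (l + (i * t) • p) := by
  obtain ⟨i', c, hic, rfl⟩ := (prim_iff hL.a0 hL.pe).1 hl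
  have e1 : cr u (i' • e + c • p) = i' * b := by
    rw [cr_zz_right, hL.ue, hL.up]; ring
  rw [e1] at hi
  have hii : i' = i := mul_right_cancel₀ hL.b0.ne' hi
  refine (prim_iff hL.a0 hL.pe).2 ⟨i', c + i' * t, ?_, by rw [hii]; module⟩
  exact IsCoprime.add_mul_left_right_iff.2 hic

/-- (1.4) the two tori are commensurable along `u` -/
theorem room_com (hL : LB u e p a b) (hM : LB u e' p' a' b') (hH : 1 ≤ H)
    (hC : CompH u e p e' p' a a' H) (hz : H * b < a) (hbb : b' ≤ H * b)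
    (haa : a' ≤ 3 * H ^ 2 * a) (hba : 4 * H ^ 4 * b' < a) :
    ∃ x y : ℤ, 0 < x ∧ x ≤ H ^ 4 ∧ 0 < y ∧ y ≤ 3 * H ^ 8 ∧ y * cr p e' = x * cr p' e := by
  have b0 := hL.b0
  have b0' := hM.b0
  have a0 := hL.a0
  have a0' := hM.a0
  have H0 : 0 < H := by linarith
  have hrow : ∀ k : ℤ, ∃ (l : Z2) (i : ℤ), Prim e p a l ∧ 0 < i ∧ cr u l = i * b ∧
      i * b ≤ H * b' ∧ |cr l (e' + k • p')| ≤ H * b' := fun k =>
    hC.one hL hM hz (prim_row hM.pe k) (cru_row hM.ue hM.up k)
  choose l i h1 h2 h3 h4 h5 using hrow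
  have hi2 : ∀ k, i k ≤ H ^ 2 := by
    intro k
    have e1 : i k * b ≤ H ^ 2 * b := by
      calc i k * b ≤ H * b' := h4 k
        _ ≤ H * (H * b) := mul_le_mul_of_nonneg_left hbb H0.le
        _ = H ^ 2 * b := by ring
    exact le_of_mul_le_mul_right e1 b0
  -- pigeonhole
  obtain ⟨n, hn⟩ : ∃ n : ℕ, (n : ℤ) = H ^ 2 := ⟨(H ^ 2).toNat, Int.toNat_of_nonneg (by positivity)⟩
  obtain ⟨k1, hk1, k2, hk2, hne, heq⟩ := Finset.exists_ne_map_eq_of_card_lt_of_maps_to
    (s := Finset.range (n + 1)) (t := Finset.Icc (1 : ℤ) (H ^ 2)) (f := fun k : ℕ => i (k : ℤ))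
    (by rw [Int.card_Icc, Finset.card_range, ← hn]; simp)
    (fun k _ => by
      have := h2 (k : ℤ)
      exact Finset.mem_coe.2 (Finset.mem_Icc.2 ⟨this, hi2 _⟩))
  obtain ⟨k, k', g1, g2, g3⟩ : ∃ k k' : ℤ, k < k' ∧ k' ≤ k + H ^ 2 ∧ i k = i k' := by
    rw [Finset.mem_range] at hk1 hk2
    rcases lt_or_gt_of_ne hne with h | h
    · refine ⟨k1, k2, by exact_mod_cast h, ?_, heq⟩
      rw [← hn]
      have : k2 ≤ k1 + n := by omega
      exact_mod_cast this
    · refine ⟨k2, k1, by exact_mod_cast h, ?_, heq.symm⟩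
      rw [← hn]
      have : k1 ≤ k2 + n := by omega
      exact_mod_cast this
  obtain ⟨d, hd⟩ : ∃ d, d = k' - k := ⟨_, rfl⟩
  have d0 : 0 < d := by rw [hd]; linarith
  have d1 : d ≤ H ^ 2 := by rw [hd]; linarith
  -- the difference of the companions
  obtain ⟨t, ht⟩ : ∃ t : ℤ, l k' = l k + t • p := by
    obtain ⟨i1, c1, -, q1⟩ := (prim_iff a0 hL.pe).1 (h1 k)
    obtain ⟨i2, c2, -, q2⟩ := (prim_iff a0 hL.pe).1 (h1 k')
    have r1 : cr u (l k) = i1 * b := by
      rw [q1, cr_zz_right, hL.ue, hL.up]; ring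
    have r2 : cr u (l k') = i2 * b := by
      rw [q2, cr_zz_right, hL.ue, hL.up]; ring
    have s1 : i1 = i k := mul_right_cancel₀ b0.ne' (by rw [← r1, h3])
    have s2 : i2 = i k' := mul_right_cancel₀ b0.ne' (by rw [← r2, h3])
    refine ⟨c2 - c1, ?_⟩
    rw [q1, q2, s1, s2, ← g3]
    module
  obtain ⟨I, hI⟩ : ∃ I, I = i k := ⟨_, rfl⟩
  have I0 : 0 < I := by rw [hI]; exact h2 k
  have I2 : I ≤ H ^ 2 := by rw [hI]; exact hi2 k
  obtain ⟨m, hm⟩ : ∃ m, m = e' + k • p' := ⟨_, rfl⟩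
  have um : cr u m = b' := by rw [hm]; exact cru_row hM.ue hM.up k
  have Pm : Prim e' p' a' m := by rw [hm]; exact prim_row hM.pe k
  have ul : cr u (l k) = I * b := by rw [hI]; exact h3 k
  have em : e' + k' • p' = m + d • p' := by rw [hm, hd]; module
  obtain ⟨δ, hδ⟩ : ∃ δ, δ = t * cr p e' - I * (d * cr p' e) := ⟨_, rfl⟩
  have hr0 : |cr (l k) m| ≤ H * b' := by rw [hm]; exact h5 k
  have hr1 : |cr (l k) m + δ| ≤ H * b' := by
    have := h5 k'
    rw [em, ht, cr_disp hL hM ul um, ← hδ] at this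
    exact this
  have δ0 : δ = 0 := by
    by_contra hne
    classical
    have hδ1 : 1 ≤ |δ| := Int.one_le_abs hne
    have hδ2 : |δ| ≤ 2 * (H * b') := by
      have : δ = (cr (l k) m + δ) - cr (l k) m := by ring
      rw [this]
      exact (abs_sub _ _).trans (by linarith)
    have hex : ∃ r : ℕ, H * b' < |cr (l k) m + r * (I * δ)| := by
      refine ⟨(2 * (H * b') + 1).toNat, ?_⟩
      have hp : (0 : ℤ) ≤ 2 * (H * b') + 1 := by positivity
      rw [Int.toNat_of_nonneg hp]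
      have e1 : |(2 * (H * b') + 1) * (I * δ)| = (2 * (H * b') + 1) * (I * |δ|) := by
        rw [abs_mul, abs_mul, abs_of_nonneg hp, abs_of_pos I0]
      have e2 : 1 ≤ I * |δ| := by nlinarith
      have e3 : (2 * (H * b') + 1) * 1 ≤ (2 * (H * b') + 1) * (I * |δ|) :=
        mul_le_mul_of_nonneg_left e2 hp
      have e4 : |(2 * (H * b') + 1) * (I * δ)| ≤
          |cr (l k) m + (2 * (H * b') + 1) * (I * δ)| + |cr (l k) m| := by
        have : (2 * (H * b') + 1) * (I * δ) =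
            (cr (l k) m + (2 * (H * b') + 1) * (I * δ)) - cr (l k) m := by ring
        calc |(2 * (H * b') + 1) * (I * δ)| =
            |(cr (l k) m + (2 * (H * b') + 1) * (I * δ)) - cr (l k) m| := by rw [← this]
          _ ≤ _ := abs_sub _ _
      linarith
    obtain ⟨r, hr⟩ : ∃ r, r = Nat.find hex := ⟨_, rfl⟩
    have r1 : H * b' < |cr (l k) m + r * (I * δ)| := by rw [hr]; exact Nat.find_spec hex
    have rpos : 0 < r := by
      rcases Nat.eq_zero_or_pos r with h | h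
      · rw [h] at r1
        simp only [Nat.cast_zero, zero_mul, add_zero] at r1
        linarith
      · exact h
    have r2 : |cr (l k) m + ((r - 1 : ℕ) : ℤ) * (I * δ)| ≤ H * b' := by
      by_contra hcon
      push Not at hcon
      exact Nat.find_min hex (by rw [← hr]; omega) hcon
    have r3 : |cr (l k) m + r * (I * δ)| ≤ 3 * H ^ 3 * b' := by
      have e1 : cr (l k) m + r * (I * δ) =
          (cr (l k) m + ((r - 1 : ℕ) : ℤ) * (I * δ)) + I * δ := by
        rw [Nat.cast_sub rpos]; push_cast; ring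
      have e2 : |I * δ| ≤ H ^ 2 * (2 * (H * b')) := by
        rw [abs_mul, abs_of_pos I0]
        exact mul_le_mul I2 hδ2 (abs_nonneg _) (by positivity)
      have e3 : H * b' ≤ H ^ 3 * b' :=
        mul_le_mul_of_nonneg_right (by nlinarith [sq_nonneg (H - 1)]) b0'.le
      calc |cr (l k) m + r * (I * δ)| ≤ H * b' + H ^ 2 * (2 * (H * b')) := by
            rw [e1]; exact (abs_add_le _ _).trans (by linarith)
        _ ≤ 3 * H ^ 3 * b' := by
            have : H ^ 2 * (2 * (H * b')) = 2 * (H ^ 3 * b') := by ring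
            linarith
    -- the displaced pair
    obtain ⟨lr, hlr⟩ : ∃ lr, lr = l k + (I * (r * t)) • p := ⟨_, rfl⟩
    obtain ⟨mr, hmr⟩ : ∃ mr, mr = m + (1 * (I * (r * d))) • p' := ⟨_, rfl⟩
    have Plr : Prim e p a lr := by rw [hlr]; exact (h1 k).disp hL ul _
    have Pmr : Prim e' p' a' mr := by
      rw [hmr]
      exact Pm.disp hM (by rw [um, one_mul]) _
    have ulr : cr u lr = I * b := by
      have : cr u (l k + (I * (r * t)) • p) = cr u (l k) + (I * (r * t)) * cr u p := by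
        simp only [cr, Prod.fst_add, Prod.snd_add, Prod.smul_fst, Prod.smul_snd, smul_eq_mul]
        ring
      rw [hlr, this, ul, hL.up]; ring
    have umr : cr u mr = b' := by
      have : cr u (m + (1 * (I * (r * d))) • p') = cr u m + (1 * (I * (r * d))) * cr u p' := by
        simp only [cr, Prod.fst_add, Prod.snd_add, Prod.smul_fst, Prod.smul_snd, smul_eq_mul]
        ring
      rw [hmr, this, um, hM.up]; ring
    have crr : cr lr mr = cr (l k) m + r * (I * δ) := by
      rw [hlr, hmr, cr_disp hL hM ul um, hδ]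
      ring
    obtain ⟨w, j, w1, w2, w3, w4, w5⟩ := hC.one hL hM hz Pmr umr
    have w0 : 0 < cr u w := by rw [w3]; positivity
    have k3 := cr_bound (u := u) (m := mr) (e := w) (e' := lr) (by rw [umr]; exact b0')
      (F := H * b') (F' := H * b') (t := H * b') (t' := 3 * H ^ 3 * b')
      (by rw [abs_of_pos w0, w3]; exact w4)
      (by rw [ulr, abs_of_pos (by positivity), hI]; exact h4 k) w5 (by rw [crr]; exact r3)
    rw [umr] at k3
    obtain ⟨c, hc⟩ := cr_mem hL.pe w1.mem Plr.mem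
    have k4 : |cr w lr| < a := by
      have e1 : b' * |cr w lr| ≤ b' * (4 * H ^ 4 * b') := by
        refine k3.trans ?_
        have e2 : H * b' * (3 * H ^ 3 * b') + H * b' * (H * b') =
            b' * (3 * H ^ 4 * b' + H ^ 2 * b') := by ring
        rw [e2]
        apply mul_le_mul_of_nonneg_left _ b0'.le
        have e3 : H ^ 2 ≤ H ^ 4 := pow_le_pow_right₀ hH (by norm_num)
        have e4 : H ^ 2 * b' ≤ H ^ 4 * b' := mul_le_mul_of_nonneg_right e3 b0'.le
        linarith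
      exact (le_of_mul_le_mul_left e1 b0').trans_lt hba
    have c0 : c = 0 := by
      rw [hc, abs_mul, abs_of_pos a0] at k4
      by_contra hc0
      have : 1 ≤ |c| := Int.one_le_abs hc0
      have := mul_le_mul_of_nonneg_right this a0.le
      linarith
    have hwl : w = lr := w1.eq a0 Plr (by rw [hc, c0, zero_mul]) w0 (by rw [ulr]; positivity)
    rw [hwl, crr] at w5
    linarith
  have hb1 : b ≤ H * b' := hC.le hL hM hz
  have com : t * cr p e' = (I * d) * cr p' e := by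
    have : δ = 0 := δ0
    rw [hδ] at this
    linarith
  have cpe : b * cr p e' = a * b' := by
    have := crp_mem (e := e') hL.pe hL.ue hL.up
    rw [this, hM.ue]
  have cpe' : b' * cr p' e = a' * b := by
    have := crp_mem (e := e) hM.pe hM.ue hM.up
    rw [this, hL.ue]
  have com2 : t * (a * b' ^ 2) = (I * d) * (a' * b ^ 2) := by
    linear_combination (b * b') * com - (t * b') * cpe + (I * d * b) * cpe'
  have x0 : 0 < I * d := mul_pos I0 d0
  have x1 : I * d ≤ H ^ 4 := by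
    calc I * d ≤ H ^ 2 * H ^ 2 := mul_le_mul I2 d1 d0.le (by positivity)
      _ = H ^ 4 := by ring
  refine ⟨I * d, t, x0, x1, ?_, ?_, com⟩
  · have : 0 < t * (a * b' ^ 2) := by rw [com2]; positivity
    exact pos_of_mul_pos_left this (by positivity)
  · have h6 : t * (a * b' ^ 2) ≤ 3 * H ^ 8 * (a * b' ^ 2) := by
      rw [com2]
      have e1 : b ^ 2 ≤ (H * b') ^ 2 := pow_le_pow_left₀ b0.le hb1 2
      have e2 : a' * b ^ 2 ≤ (3 * H ^ 2 * a) * (H * b') ^ 2 :=
        mul_le_mul haa e1 (by positivity) (by positivity)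
      calc (I * d) * (a' * b ^ 2) ≤ H ^ 4 * ((3 * H ^ 2 * a) * (H * b') ^ 2) :=
            mul_le_mul x1 e2 (by positivity) (by positivity)
        _ = 3 * H ^ 8 * (a * b' ^ 2) := by ring
    exact le_of_mul_le_mul_right h6 (by positivity)

/-- (1.5) for every level-one vector -/
theorem room_small {J N K : ℤ} (hL : LB u e p a b) (hM : LB u e' p' a' b') (hH : 1 ≤ H)
    (hC : CompH u e p e' p' a a' H) (hz : H * b < a) (hbb : b' ≤ H * b)
    (haa : a ≤ 3 * H ^ 2 * a') (hNa : N ≤ 8 * H ^ 2 * a) (hJ : 1 ≤ J)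
    (hK : 8 * H ^ 6 * (J + 2) ^ 2 ≤ K) {x y : ℤ} (hx : 0 < x) (hx4 : x ≤ H ^ 4) (hy : 0 < y)
    (hy8 : y ≤ 3 * H ^ 8) (hxy : y * cr p e' = x * cr p' e)
    (hcap : ∀ c n : ℤ, 0 < n → n ≤ 3 * H ^ 14 → ∃ t, c ≤ t ∧ t < c + J ∧ IsCoprime n t)
    {m : Z2} (hm : Prim e' p' a' m) (hmb : cr u m = b') :
    ∃ (l : Z2) (i : ℤ), Prim e p a l ∧ 0 < i ∧ i ≤ H ^ 2 ∧ cr u l = i * b ∧
      |cr l m| ≤ H * b' ∧ N * |cr l m| ≤ K * (b * b') := by
  have b0 := hL.b0
  have b0' := hM.b0
  have a0 := hL.a0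
  have H0 : 0 < H := by linarith
  obtain ⟨l, i, h1, h2, h3, h4, h5⟩ := hC.one hL hM hz hm hmb
  have hi2 : i ≤ H ^ 2 := by
    have e1 : i * b ≤ H ^ 2 * b := by
      calc i * b ≤ H * b' := h4
        _ ≤ H * (H * b) := mul_le_mul_of_nonneg_left hbb H0.le
        _ = H ^ 2 * b := by ring
    exact le_of_mul_le_mul_right e1 b0
  have hC' : ∀ mm, Prim e' p' a' mm → 0 < cr u mm → cr u mm < a' →
      ∃ w, Comp u e p a H mm w := by
    intro mm k1 k2 k3
    obtain ⟨w, q1, q2, -, q3, q4⟩ := hC.pos hL hz k1 k2 k3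
    exact ⟨w, q1, q2, q3, q4⟩
  have hixy : i * x * y ≤ 3 * H ^ 14 := by
    calc i * x * y ≤ H ^ 2 * H ^ 4 * (3 * H ^ 8) :=
          mul_le_mul (mul_le_mul hi2 hx4 hx.le (by positivity)) hy8 hy.le (by positivity)
      _ = 3 * H ^ 14 := by ring
  have key := comp_small (J := J) b0 b0' a0 hM.a0 hL.ue hL.up hL.pe hM.ue hM.up hM.pe H0 hC' hx hy
    hxy hm hmb h1 h2 h3 h4 h5 (by
      have : 3 * H ^ 2 * a' ≤ H ^ 2 * (J + 2) * a' := by
        have : 0 < H ^ 2 * a' := by have := hM.a0; positivity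
        nlinarith
      linarith) (by linarith) (fun c => hcap c (i * x * y) (by positivity) hixy)
  refine ⟨l, i, h1, h2, hi2, h3, h5, ?_⟩
  have e1 : N * |cr l m| ≤ 8 * H ^ 2 * a * |cr l m| :=
    mul_le_mul_of_nonneg_right hNa (abs_nonneg _)
  have e2 : 8 * H ^ 2 * a * |cr l m| ≤ 8 * H ^ 2 * (H ^ 3 * (J + 1) * (J + 2) * b' ^ 2) := by
    have := mul_le_mul_of_nonneg_left key (by positivity : (0 : ℤ) ≤ 8 * H ^ 2)
    linarith
  have e3 : 8 * H ^ 2 * (H ^ 3 * (J + 1) * (J + 2) * b' ^ 2) ≤ 8 * H ^ 6 * (J + 2) ^ 2 * (b * b') := by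
    have f1 : b' ^ 2 ≤ (H * b) * b' := by
      rw [sq]; exact mul_le_mul_of_nonneg_right hbb b0'.le
    have f2 : (J + 1) * (J + 2) ≤ (J + 2) ^ 2 := by nlinarith
    calc 8 * H ^ 2 * (H ^ 3 * (J + 1) * (J + 2) * b' ^ 2)
        = (8 * H ^ 5) * (((J + 1) * (J + 2)) * b' ^ 2) := by ring
      _ ≤ (8 * H ^ 5) * ((J + 2) ^ 2 * ((H * b) * b')) := by
          apply mul_le_mul_of_nonneg_left _ (by positivity)
          exact mul_le_mul f2 f1 (by positivity) (by positivity)
      _ = 8 * H ^ 6 * (J + 2) ^ 2 * (b * b') := by ring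
  have e4 : 8 * H ^ 6 * (J + 2) ^ 2 * (b * b') ≤ K * (b * b') :=
    mul_le_mul_of_nonneg_right hK (by positivity)
  linarith

/-- nearly the same tori (near-Prym) -/
structure NearP (u e p e' p' : Z2) (a b a' b' N H K : ℤ) : Prop where
  z1 : H * b < a
  z2 : H * b' < a'
  b1 : b ≤ H * b'
  b2 : b' ≤ H * b
  a1 : a ≤ 3 * H ^ 2 * a'
  a2 : a' ≤ 3 * H ^ 2 * a
  n1 : N ≤ 8 * H ^ 2 * a
  n2 : N ≤ 8 * H ^ 2 * a'
  com : ∃ x y : ℤ, 0 < x ∧ x ≤ H ^ 4 ∧ 0 < y ∧ y ≤ 3 * H ^ 8 ∧ y * cr p e' = x * cr p' e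
  sm : ∀ m : Z2, Prim e' p' a' m → cr u m = b' → ∃ (l : Z2) (i : ℤ), Prim e p a l ∧ 0 < i ∧
    i ≤ H ^ 2 ∧ cr u l = i * b ∧ |cr l m| ≤ H * b' ∧ N * |cr l m| ≤ K * (b * b')
  sm' : ∀ l : Z2, Prim e p a l → cr u l = b → ∃ (m : Z2) (i : ℤ), Prim e' p' a' m ∧ 0 < i ∧
    i ≤ H ^ 2 ∧ cr u m = i * b' ∧ |cr m l| ≤ H * b ∧ N * |cr m l| ≤ K * (b * b')

/-- `y a b'^2 = x a' b^2` -/
theorem com_eq (hL : LB u e p a b) (hM : LB u e' p' a' b') {x y : ℤ}
    (h : y * cr p e' = x * cr p' e) : y * (a * b' ^ 2) = x * (a' * b ^ 2) := by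
  have cpe : b * cr p e' = a * b' := by
    have := crp_mem (e := e') hL.pe hL.ue hL.up
    rw [this, hM.ue]
  have cpe' : b' * cr p' e = a' * b := by
    have := crp_mem (e := e) hM.pe hM.ue hM.up
    rw [this, hL.ue]
  linear_combination (b * b') * h - (y * b') * cpe + (x * b) * cpe'

/-- **The room theorem** (section 1 of helper11's page): if `A + b + b'` is small against `N` and
every low primitive vector of each torus has a companion in the other, the tori are nearly the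
same. -/
theorem room {J N K A B : ℤ} (hL : LB u e p a b) (hM : LB u e' p' a' b') (hH : 1 ≤ H)
    (hC : CompH u e p e' p' a a' H) (hC' : CompH u e' p' e p a' a H) (hA : 0 < A)
    (hN : A + a + a' = N) (hw : B * (A + b + b') ≤ N) (hB : 32 * H ^ 6 ≤ B) (hJ : 1 ≤ J)
    (hK : 8 * H ^ 6 * (J + 2) ^ 2 ≤ K)
    (hcap : ∀ c n : ℤ, 0 < n → n ≤ 3 * H ^ 14 → ∃ t, c ≤ t ∧ t < c + J ∧ IsCoprime n t) :
    NearP u e p e' p' a b a' b' N H K := by
  have b0 := hL.b0
  have b0' := hM.b0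
  have a0 := hL.a0
  have a0' := hM.a0
  have H0 : 0 < H := by linarith
  have H6 : H ^ 3 ≤ H ^ 6 := pow_le_pow_right₀ hH (by norm_num)
  have H61 : 1 ≤ H ^ 6 := one_le_pow₀ hH
  have H21 : 1 ≤ H ^ 2 := one_le_pow₀ hH
  have hw0 : 0 < A + b + b' := by linarith
  have hB5 : 5 * H ^ 3 ≤ B := by linarith
  obtain ⟨z1, z2⟩ := room_both hL hM hH hC hC' hA hN hw hB5
  have b1 := hC.le hL hM z1
  have b2 := hC'.le hM hL z2
  have a1 := room_b hL hM hH hC z1
  have a2 := room_b hM hL hH hC' z2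
  have hBN : 32 * H ^ 6 * (A + b + b') ≤ N := by
    have := mul_le_mul_of_nonneg_right hB hw0.le
    linarith
  have hA2 : 2 * A ≤ N := by
    have e1 : 1 * A ≤ H ^ 6 * A := mul_le_mul_of_nonneg_right H61 hA.le
    have e2 : 0 < H ^ 6 * (b + b') := by positivity
    have e3 : 32 * H ^ 6 * (A + b + b') = 32 * (H ^ 6 * A) + 32 * (H ^ 6 * (b + b')) := by ring
    linarith
  have n1 : N ≤ 8 * H ^ 2 * a := by
    have e1 : 1 * a ≤ H ^ 2 * a := mul_le_mul_of_nonneg_right H21 a0.le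
    linarith
  have n2 : N ≤ 8 * H ^ 2 * a' := by
    have e1 : 1 * a' ≤ H ^ 2 * a' := mul_le_mul_of_nonneg_right H21 a0'.le
    linarith
  have low : ∀ β α : ℤ, 0 < β → β < A + b + b' → N ≤ 8 * H ^ 2 * α → 4 * H ^ 4 * β < α := by
    intro β α β0 hβ hα
    have e1 : 32 * H ^ 6 * β < 32 * H ^ 6 * (A + b + b') :=
      mul_lt_mul_of_pos_left hβ (by positivity)
    have e2 : 8 * H ^ 2 * (4 * H ^ 4 * β) < 8 * H ^ 2 * α := by
      calc 8 * H ^ 2 * (4 * H ^ 4 * β) = 32 * H ^ 6 * β := by ring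
        _ < 8 * H ^ 2 * α := by linarith
    exact lt_of_mul_lt_mul_left e2 (by positivity)
  obtain ⟨x, y, x0, x4, y0, y8, hxy⟩ :=
    room_com hL hM hH hC z1 b2 a2 (low b' a b0' (by linarith) n1)
  obtain ⟨x', y', x0', x4', y0', y8', hxy'⟩ :=
    room_com hM hL hH hC' z2 b1 a1 (low b a' b0 (by linarith) n2)
  refine ⟨z1, z2, b1, b2, a1, a2, n1, n2, ⟨x, y, x0, x4, y0, y8, hxy⟩, ?_, ?_⟩
  · intro m hm hmb
    exact room_small hL hM hH hC z1 b2 a1 n1 hJ hK x0 x4 y0 y8 hxy hcap hm hmb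
  · intro l hl hlb
    have := room_small hM hL hH hC' z2 b1 a2 n2 hJ hK x0' x4' y0' y8' hxy' hcap hl hlb
    rwa [mul_comm b' b] at this

end NRB

end Pool.Agent.H4G.Six
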