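import Pool.Agent.H4G.Six.D2.RichBox

/-!
# D2, row (G2): the room theorem (helper26's theorem, typed by helper6)

`L = ⟨l, p⟩`, `M = ⟨m, p'⟩` with `u × p = u × p' = 0`, contents `b = u × l`, `b' = u × m`, areas
`a = p × l`, `a' = p' × m`. The slits `m + k p'` all have level `b'`. Either `L` is rich over a
block of slits, or the two lattices are exactly commensurable: `x a' b² = y a b'²` with small
`x, y`, and there is a companion (near-Prym).
-/

set_option autoImplicit false

namespace Pool.Agent.H4G.Six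

open Pool.Agent.H4G

/-- **Exactness.** A linear sequence `ρ - k g₂` which is close to a fraction of `g₁` with a small
denominator in every block has a slope `g₂ / g₁` which is a fraction of small height. -/
theorem com_exact {g1 g2 ρ E I T : ℤ} (hE : 0 ≤ E) (hT : 0 < T)
    (hbig : 8 * T * I ^ 2 * E < g1)
    (h : ∀ n : ℕ, ∃ k i j : ℤ, n * T ≤ k ∧ k < n * T + T ∧ 0 < i ∧ i ≤ I ∧
      |i * (ρ - k * g2) + j * g1| ≤ E) :
    ∃ x y : ℤ, 0 < x ∧ x ≤ 2 * T * I ^ 2 ∧ x * g2 = y * g1 := by
  choose k i j h1 h2 h3 h4 h5 using h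
  have hg1 : 0 < g1 := lt_of_le_of_lt (by positivity) hbig
  have hI : 0 < I := lt_of_lt_of_le (h3 0) (h4 0)
  -- the steps
  have hD : ∀ n, 0 < k (n + 1) - k n ∧ k (n + 1) - k n < 2 * T := by
    intro n
    have a1 := h1 (n + 1)
    have a2 := h2 (n + 1)
    have a3 := h1 n
    have a4 := h2 n
    push_cast at a1 a2
    constructor <;> nlinarith
  set e : ℕ → ℤ := fun n => i n * (ρ - k n * g2) + j n * g1 with he
  have hii : ∀ m n, 0 < i m * i n ∧ i m * i n ≤ I ^ 2 := by
    intro m n
    refine ⟨mul_pos (h3 m) (h3 n), ?_⟩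
    have := mul_le_mul (h4 m) (h4 n) (h3 n).le hI.le
    linarith [sq I]
  -- three consecutive ones are collinear
  have hcol : ∀ n, (k (n + 1) - k n) * i n * (i (n + 1) * j (n + 2) - i (n + 2) * j (n + 1)) =
      (k (n + 2) - k (n + 1)) * i (n + 2) * (i n * j (n + 1) - i (n + 1) * j n) := by
    intro n
    obtain ⟨d1, d2⟩ := hD n
    obtain ⟨d3, d4⟩ := hD (n + 1)
    set D := k (n + 1) - k n with hDd
    set D' := k (n + 1 + 1) - k (n + 1) with hDd'
    have hD2 : k (n + 2) - k (n + 1) = D' := rfl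
    have e0 : |e n| ≤ E := h5 n
    have e1 : |e (n + 1)| ≤ E := h5 (n + 1)
    have e2 : |e (n + 2)| ≤ E := h5 (n + 2)
    set S := D' * (i (n + 1) * i (n + 2)) * j n - (D + D') * (i n * i (n + 2)) * j (n + 1) +
      D * (i n * i (n + 1)) * j (n + 2) with hS
    have hid : g1 * S = D' * (i (n + 1) * i (n + 2)) * e n -
        (D + D') * (i n * i (n + 2)) * e (n + 1) + D * (i n * i (n + 1)) * e (n + 2) := by
      simp only [he, hS]
      have k1 : k (n + 1) = k n + D := by rw [hDd]; ring
      have k2 : k (n + 2) = k n + D + D' := by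
        have : k (n + 2) = k (n + 1) + D' := by rw [hDd']; ring
        rw [this, k1]
      rw [k2, k1]
      ring
    have hb : |g1 * S| ≤ 8 * T * I ^ 2 * E := by
      rw [hid]
      have t1 : |D' * (i (n + 1) * i (n + 2)) * e n| ≤ D' * I ^ 2 * E := by
        rw [abs_mul, abs_of_pos (mul_pos d3 (hii (n + 1) (n + 2)).1)]
        exact mul_le_mul (mul_le_mul_of_nonneg_left (hii (n + 1) (n + 2)).2 d3.le) e0
          (abs_nonneg _) (by positivity)
      have t2 : |(D + D') * (i n * i (n + 2)) * e (n + 1)| ≤ (D + D') * I ^ 2 * E := by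
        rw [abs_mul, abs_of_pos (mul_pos (add_pos d1 d3) (hii n (n + 2)).1)]
        exact mul_le_mul (mul_le_mul_of_nonneg_left (hii n (n + 2)).2 (add_pos d1 d3).le) e1
          (abs_nonneg _) (by positivity)
      have t3 : |D * (i n * i (n + 1)) * e (n + 2)| ≤ D * I ^ 2 * E := by
        rw [abs_mul, abs_of_pos (mul_pos d1 (hii n (n + 1)).1)]
        exact mul_le_mul (mul_le_mul_of_nonneg_left (hii n (n + 1)).2 d1.le) e2
          (abs_nonneg _) (by positivity)
      have t4 := abs_add_le (D' * (i (n + 1) * i (n + 2)) * e n -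
        (D + D') * (i n * i (n + 2)) * e (n + 1)) (D * (i n * i (n + 1)) * e (n + 2))
      have t5 := abs_sub (D' * (i (n + 1) * i (n + 2)) * e n)
        ((D + D') * (i n * i (n + 2)) * e (n + 1))
      have t6 : 0 ≤ I ^ 2 * E := by positivity
      have t7 : (D + D') * (I ^ 2 * E) ≤ 4 * T * (I ^ 2 * E) :=
        mul_le_mul_of_nonneg_right (by linarith) t6
      nlinarith
    have hS0 : S = 0 := by
      by_contra hne
      have : g1 ≤ |g1 * S| := by
        rw [abs_mul, abs_of_pos hg1]
        have := Int.one_le_abs hne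
        nlinarith
      linarith
    have : D * i n * (i (n + 1) * j (n + 2) - i (n + 2) * j (n + 1)) -
        D' * i (n + 2) * (i n * j (n + 1) - i (n + 1) * j n) = S := by
      rw [hS]; ring
    linarith
  set X : ℤ := (k 1 - k 0) * (i 0 * i 1) with hX
  set Y : ℤ := i 0 * j 1 - i 1 * j 0 with hY
  have hX0 : 0 < X := mul_pos (hD 0).1 (hii 0 1).1
  -- consecutive slopes
  have hP : ∀ n, X * (i n * j (n + 1) - i (n + 1) * j n) =
      (k (n + 1) - k n) * Y * (i n * i (n + 1)) := by
    intro n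
    induction n with
    | zero => simp only [hX, hY, zero_add]; ring
    | succ n ih =>
      have hc := hcol n
      have hne : (k (n + 1) - k n) * i n ≠ 0 := (mul_pos (hD n).1 (h3 n)).ne'
      apply mul_left_cancel₀ hne
      calc (k (n + 1) - k n) * i n * (X * (i (n + 1) * j (n + 1 + 1) - i (n + 1 + 1) * j (n + 1)))
          = X * ((k (n + 1) - k n) * i n *
            (i (n + 1) * j (n + 2) - i (n + 2) * j (n + 1))) := by ring
        _ = (k (n + 2) - k (n + 1)) * i (n + 2) *
            (X * (i n * j (n + 1) - i (n + 1) * j n)) := by rw [hc]; ring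
        _ = (k (n + 1) - k n) * i n *
            ((k (n + 1 + 1) - k (n + 1)) * Y * (i (n + 1) * i (n + 1 + 1))) := by
          rw [ih]; ring
  have hQ : ∀ n, X * (i 0 * j n - i n * j 0) = (k n - k 0) * Y * (i 0 * i n) := by
    intro n
    induction n with
    | zero => ring
    | succ n ih =>
      apply mul_left_cancel₀ (h3 n).ne'
      have := hP n
      calc i n * (X * (i 0 * j (n + 1) - i (n + 1) * j 0))
          = i 0 * (X * (i n * j (n + 1) - i (n + 1) * j n)) +
            i (n + 1) * (X * (i 0 * j n - i n * j 0)) := by ring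
        _ = i n * ((k (n + 1) - k 0) * Y * (i 0 * i (n + 1))) := by rw [this, ih]; ring
  refine ⟨X, Y, hX0, ?_, ?_⟩
  · have q1 := (hii 0 1).2
    have q2 := (hD 0).2
    have q3 := (hD 0).1
    have q4 := (hii 0 1).1
    rw [hX]
    simp only [zero_add] at q2 q3
    exact mul_le_mul q2.le q1 q4.le (by linarith)
  · by_contra hne
    have hne' : Y * g1 - X * g2 ≠ 0 := fun h0 => hne (by linarith)
    set n : ℕ := (2 * X * I * E + 2).toNat with hn
    have hn' : (n : ℤ) = 2 * X * I * E + 2 := Int.toNat_of_nonneg (by positivity)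
    have e0 : |e 0| ≤ E := h5 0
    have en : |e n| ≤ E := h5 n
    have hid : X * (i 0 * e n - i n * e 0) =
        i 0 * i n * (k n - k 0) * (Y * g1 - X * g2) := by
      have := hQ n
      simp only [he]
      linear_combination g1 * this
    have l1 : |X * (i 0 * e n - i n * e 0)| ≤ 2 * X * I * E := by
      rw [abs_mul, abs_of_pos hX0]
      have t1 := abs_sub (i 0 * e n) (i n * e 0)
      have t2 : |i 0 * e n| ≤ I * E := by
        rw [abs_mul, abs_of_pos (h3 0)]
        exact mul_le_mul (h4 0) en (abs_nonneg _) hI.le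
      have t3 : |i n * e 0| ≤ I * E := by
        rw [abs_mul, abs_of_pos (h3 n)]
        exact mul_le_mul (h4 n) e0 (abs_nonneg _) hI.le
      have : |i 0 * e n - i n * e 0| ≤ 2 * (I * E) := by linarith
      nlinarith
    have l2 : (n : ℤ) - 1 ≤ k n - k 0 := by
      have a1 := h1 n
      have a2 := h2 0
      push_cast at a2
      have a3 : (0 : ℤ) ≤ n - 1 := by
        have : 0 ≤ 2 * X * I * E := by positivity
        linarith
      have a4 : 0 ≤ ((n : ℤ) - 1) * (T - 1) := mul_nonneg a3 (by linarith)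
      nlinarith
    have l3 : k n - k 0 ≤ |X * (i 0 * e n - i n * e 0)| := by
      rw [hid, abs_mul]
      have p1 : 0 < k n - k 0 := by
        have : 0 ≤ 2 * X * I * E := by positivity
        linarith
      rw [abs_of_pos (mul_pos (hii 0 n).1 p1)]
      have p2 := Int.one_le_abs hne'
      have p3 : 1 ≤ i 0 * i n := (hii 0 n).1
      calc k n - k 0 = 1 * (k n - k 0) * 1 := by ring
        _ ≤ i 0 * i n * (k n - k 0) * |Y * g1 - X * g2| := by
          refine mul_le_mul (mul_le_mul_of_nonneg_right p3 p1.le) p2 (by norm_num) ?_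
          exact (mul_pos (hii 0 n).1 p1).le
    linarith

variable {u l p m p' : Z2}

/-- coordinates of a lattice vector, products with `u` and with a slit `m + k p'` -/
theorem lat_prod (hp : cr u p = 0) {w : Z2} (hw : w ∈ lat l p) (k : ℤ)
    (hpp : cr p p' = 0) : ∃ i j : ℤ, w = i • l + j • p ∧ cr u w = i * cr u l ∧
      cr w (m + k • p') = i * (cr l m - k * cr p' l) + j * cr p m := by
  obtain ⟨i, j, h'⟩ := Pool.Agent.H4G.mem_lat.1 hw
  have h : w = i • l + j • p := h'.symm
  refine ⟨i, j, h, ?_, ?_⟩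
  · have : cr u w = i * cr u l + j * cr u p := by
      rw [h]
      simp only [cr, Prod.fst_add, Prod.snd_add, Prod.smul_fst, Prod.smul_snd, smul_eq_mul]
      ring
    rw [this, hp, mul_zero, add_zero]
  · have : cr w (m + k • p') = i * (cr l m - k * cr p' l) + j * cr p m + j * k * cr p p' := by
      rw [h]
      simp only [cr, Prod.fst_add, Prod.snd_add, Prod.smul_fst, Prod.smul_snd, smul_eq_mul]
      ring
    rw [this, hpp, mul_zero, add_zero]

theorem cr_u_row (hp' : cr u p' = 0) (k : ℤ) : cr u (m + k • p') = cr u m := by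
  have : cr u (m + k • p') = cr u m + k * cr u p' := by
    simp only [cr, Prod.fst_add, Prod.snd_add, Prod.smul_fst, Prod.smul_snd, smul_eq_mul]
    ring
  rw [this, hp', mul_zero, add_zero]

/-- two vectors parallel to `u` are parallel -/
theorem cr_par2 (hb : 0 < cr u l) (hp : cr u p = 0) (hp' : cr u p' = 0) : cr p p' = 0 := by
  have h : cr u l * cr p p' - cr u p * cr l p' + cr u p' * cr l p = 0 := by
    simp only [cr]; ring
  rw [hp, hp'] at h
  have h2 : cr u l * cr p p' = 0 := by linarith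
  exact (mul_eq_zero.1 h2).resolve_left hb.ne'

/-- the two periods -/
theorem period_L (hp : cr u p = 0) : cr u l * cr p m = cr u m * cr p l := by
  have h : cr u l * cr p m - cr u p * cr l m - cr u m * cr p l = 0 := by
    simp only [cr]; ring
  rw [hp] at h
  linarith

/-- **(G2)(iii), block form for a slit `m` of any level** (helper26, helper79, helper58, helper11):
`L` is rich over `T` consecutive slits `m + k p'`, or `L` and `M` are exactly commensurable and
there is a companion. -/
theorem room_np {K I T : ℤ} (hK : 0 ≤ K) (hT : 0 < T) (hb : 0 < cr u l) (hp : cr u p = 0)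
    (hb' : 0 < cr u m) (hp' : cr u p' = 0) (ha' : 0 < cr p' m)
    (hI : K * cr u m ≤ I * cr u l) (hbig : 8 * T * I ^ 2 * K * cr u l < cr p l)
    (hz : K * cr u l < cr p l) :
    (∃ n : ℕ, ∀ k : ℤ, n * T ≤ k → k < n * T + T → RichL (lat l p) u (m + k • p') K) ∨
    ((∃ x y : ℤ, 0 < x ∧ x ≤ 2 * T * I ^ 2 ∧ 0 < y ∧
        x * (cr p' m * cr u l ^ 2) = y * (cr p l * cr u m ^ 2)) ∧
      cr u l ≤ K * cr u m ∧
      ∃ k i j : ℤ, 0 ≤ k ∧ k < T ∧ IsCoprime i j ∧ 0 < i ∧ i ≤ I ∧
        i * cr u l ≤ K * cr u m ∧ |cr (i • l + j • p) (m + k • p')| ≤ K * cr u m) := by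
  have hpp : cr p p' = 0 := cr_par2 hb hp hp'
  have e1 : cr u l * cr p m = cr u m * cr p l := period_L hp
  have e2 : cr u m * cr p' l = cr u l * cr p' m := period_L hp'
  have hwk : ∀ i j k : ℤ, cr (i • l + j • p) (m + k • p') =
      i * (cr l m - k * cr p' l) + j * cr p m := by
    intro i j k
    have : cr (i • l + j • p) (m + k • p') =
        i * (cr l m - k * cr p' l) + j * cr p m + j * k * cr p p' := by
      simp only [cr, Prod.fst_add, Prod.snd_add, Prod.smul_fst, Prod.smul_snd, smul_eq_mul]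
      ring
    rw [this, hpp, mul_zero, add_zero]
  simp only [hwk]
  set b := cr u l with hbd
  set b' := cr u m with hbd'
  set g1 := cr p m with hg1d
  set g2 := cr p' l with hg2d
  set a := cr p l with had
  set a' := cr p' m with had'
  have hg1 : K * b' < g1 := by
    have h : b * (K * b') < b * g1 := by
      rw [e1]
      nlinarith
    exact lt_of_mul_lt_mul_left h hb.le
  have hg10 : 0 < g1 := lt_of_le_of_lt (by positivity) hg1
  have hg20 : 0 < g2 := by
    have : 0 < b' * g2 := by rw [e2]; positivity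
    exact pos_of_mul_pos_right this hb'.le
  by_cases h2 : ∃ n : ℕ, ∀ k : ℤ, n * T ≤ k → k < n * T + T → RichL (lat l p) u (m + k • p') K
  · exact Or.inl h2
  right
  push Not at h2
  -- the companions
  have hbad : ∀ n : ℕ, ∃ k i j : ℤ, n * T ≤ k ∧ k < n * T + T ∧ IsCoprime i j ∧ 0 < i ∧
      i * b ≤ K * b' ∧ |i * (cr l m - k * g2) + j * g1| ≤ K * b' := by
    intro n
    obtain ⟨k, k1, k2, k3⟩ := h2 n
    unfold RichL at k3
    push Not at k3
    obtain ⟨w, hw, hw0, hmax⟩ := k3
    obtain ⟨i, j, h, h4, h5⟩ := lat_prod (m := m) (p' := p') hp hw k hpp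
    rw [cr_u_row hp' k, h4, h5, ← hbd, ← hbd', ← hg2d, ← hg1d] at hmax
    obtain ⟨m1, m2⟩ := max_le_iff.1 hmax
    have hi : i ≠ 0 := by
      rintro rfl
      have hj : j ≠ 0 := by
        rintro rfl
        exact hw0 (by rw [h]; simp)
      rw [zero_mul, zero_add, abs_mul, abs_of_pos hg10] at m2
      have c1 := Int.one_le_abs hj
      have c2 : 1 * g1 ≤ |j| * g1 := mul_le_mul_of_nonneg_right c1 hg10.le
      linarith
    obtain ⟨d, i', j', d1, d2, d3, d4⟩ := exists_prim_of_ne (Or.inl hi : i ≠ 0 ∨ j ≠ 0)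
    have m1' : |i' * b| ≤ K * b' := by
      refine le_trans ?_ m1
      rw [d3, mul_assoc, abs_mul d, abs_of_pos d1]
      have := abs_nonneg (i' * b)
      nlinarith
    have m2' : |i' * (cr l m - k * g2) + j' * g1| ≤ K * b' := by
      refine le_trans ?_ m2
      rw [show i * (cr l m - k * g2) + j * g1 = d * (i' * (cr l m - k * g2) + j' * g1) by
        rw [d3, d4]; ring, abs_mul d, abs_of_pos d1]
      have := abs_nonneg (i' * (cr l m - k * g2) + j' * g1)
      nlinarith
    have hi' : i' ≠ 0 := by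
      rintro rfl
      exact hi (by rw [d3, mul_zero])
    rcases lt_or_gt_of_ne hi' with hneg | hpos
    · refine ⟨k, -i', -j', k1, k2, ?_, by linarith, ?_, ?_⟩
      · exact (IsCoprime.neg_neg_iff _ _).2 d2
      · rw [abs_mul, abs_of_neg hneg, abs_of_pos hb] at m1'
        exact m1'
      · rw [show -i' * (cr l m - k * g2) + -j' * g1 =
          -(i' * (cr l m - k * g2) + j' * g1) by ring, abs_neg]
        exact m2'
    · refine ⟨k, i', j', k1, k2, d2, hpos, ?_, m2'⟩
      rw [abs_mul, abs_of_pos hpos, abs_of_pos hb] at m1'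
      exact m1'
  have hle : ∀ i : ℤ, i * b ≤ K * b' → i ≤ I := fun i h =>
    le_of_mul_le_mul_right (h.trans hI) hb
  have hbig' : 8 * T * I ^ 2 * (K * b') < g1 := by
    have h : b * (8 * T * I ^ 2 * (K * b')) < b * g1 := by
      rw [e1]
      calc b * (8 * T * I ^ 2 * (K * b')) = b' * (8 * T * I ^ 2 * K * b) := by ring
        _ < b' * a := mul_lt_mul_of_pos_left hbig hb'
    exact lt_of_mul_lt_mul_left h hb.le
  obtain ⟨x, y, x1, x2, x3⟩ := com_exact (ρ := cr l m) (g2 := g2) (by positivity) hT hbig' (by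
    intro n
    obtain ⟨k, i, j, k1, k2, -, k3, k4, k5⟩ := hbad n
    exact ⟨k, i, j, k1, k2, k3, hle i k4, k5⟩)
  obtain ⟨k, i, j, k1, k2, kc, k3, k4, k5⟩ := hbad 0
  have hbb : b ≤ K * b' := by nlinarith
  have hy : 0 < y := by
    have : 0 < y * g1 := by rw [← x3]; positivity
    exact pos_of_mul_pos_left this hg10.le
  refine ⟨⟨x, y, x1, x2, hy, ?_⟩, hbb, k, i, j, ?_, ?_, kc, k3, hle i k4, k4, k5⟩
  · calc x * (a' * b ^ 2) = x * b * (b * a') := by ring
      _ = b * b' * (x * g2) := by rw [← e2]; ring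
      _ = y * b' * (b * g1) := by rw [x3]; ring
      _ = y * (a * b' ^ 2) := by rw [e1]; ring
  · simpa using k1
  · simpa using k2

/-- **(G2)(ii)**: `b' > K b` and `a' > K b'`: `M` is rich over all slits `l + k p`. -/
theorem rich_of_low {K : ℤ} (hK : 0 ≤ K) (hb : 0 < cr u l) (hp : cr u p = 0)
    (hb' : 0 < cr u m) (hp' : cr u p' = 0) (h1 : K * cr u l < cr u m)
    (hz' : K * cr u m < cr p' m) (k : ℤ) : RichL (lat m p') u (l + k • p) K := by
  have hpp' : cr p' p = 0 := cr_par2 hb hp' hp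
  have e2 : cr u m * cr p' l = cr u l * cr p' m := period_L hp'
  have hg2 : K * cr u l < cr p' l := by
    have h : cr u m * (K * cr u l) < cr u m * cr p' l := by
      rw [e2]
      nlinarith
    exact lt_of_mul_lt_mul_left h hb'.le
  have hg20 : 0 < cr p' l := lt_of_le_of_lt (by positivity) hg2
  intro w hw hw0
  obtain ⟨i, j, h, h2, h3⟩ := lat_prod (m := l) (p' := p) hp' hw k hpp'
  rw [cr_u_row hp k, h2, h3]
  rcases eq_or_ne i 0 with hi | hi
  · subst hi
    have hj : j ≠ 0 := by
      rintro rfl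
      exact hw0 (by rw [h]; simp)
    refine lt_max_of_lt_right ?_
    rw [zero_mul, zero_add, abs_mul, abs_of_pos hg20]
    have := Int.one_le_abs hj
    have h5 : K * cr u l < 1 * cr p' l := by linarith
    exact lt_of_lt_of_le h5 (mul_le_mul_of_nonneg_right this hg20.le)
  · refine lt_max_of_lt_left ?_
    rw [abs_mul, abs_of_pos hb']
    have := Int.one_le_abs hi
    have h5 : K * cr u l < 1 * cr u m := by linarith
    exact lt_of_lt_of_le h5 (mul_le_mul_of_nonneg_right this hb'.le)

/-- **(R) FAILS ⟹ every level has a rich block** (helper26): if there is no relation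
`x a' b² = y a b'²` with `0 < x, y ≤ H`, then for every `β ≤ Q` the torus `L` is rich over
`T` consecutive slits `β m + k p'`. (`a' ≤ R a`, `R ≥ 1`.) -/
theorem room_levels {K I T Q H R β : ℤ} (hK : 1 ≤ K) (hT : 0 < T) (hb : 0 < cr u l)
    (hp : cr u p = 0) (hb' : 0 < cr u m) (hp' : cr u p' = 0) (ha' : 0 < cr p' m) (hR1 : 1 ≤ R)
    (haa : cr p' m ≤ R * cr p l) (hβ : 0 < β) (hβQ : β ≤ Q)
    (hI : K * Q * cr u m ≤ I * cr u l) (hbig : 8 * T * I ^ 2 * K * cr u l < cr p l)
    (hH : 2 * T * I ^ 2 * (K ^ 2 * Q ^ 2 * R) ≤ H)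
    (hR : ∀ x y : ℤ, 0 < x → x ≤ H → 0 < y → y ≤ H →
      x * (cr p' m * cr u l ^ 2) ≠ y * (cr p l * cr u m ^ 2)) :
    ∃ n : ℕ, ∀ k : ℤ, n * T ≤ k → k < n * T + T →
      RichL (lat l p) u (β • m + k • p') K := by
  have s1 : cr u (β • m) = β * cr u m := by
    simp only [cr, Prod.smul_fst, Prod.smul_snd, smul_eq_mul]; ring
  have s2 : cr p' (β • m) = β * cr p' m := by
    simp only [cr, Prod.smul_fst, Prod.smul_snd, smul_eq_mul]; ring
  have hQ0 : 0 < Q := lt_of_lt_of_le hβ hβQ
  have hI0 : 0 < I := by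
    have : 0 < I * cr u l := by
      refine lt_of_lt_of_le ?_ hI
      positivity
    exact pos_of_mul_pos_left this hb.le
  have ha : 0 < cr p l := lt_of_le_of_lt (by positivity) hbig
  have hz : K * cr u l < cr p l := by
    refine lt_of_le_of_lt ?_ hbig
    refine mul_le_mul_of_nonneg_right ?_ hb.le
    have c1 : 1 ≤ I ^ 2 := one_le_pow₀ (by linarith)
    have c2 : 1 ≤ 8 * T * I ^ 2 := by nlinarith
    nlinarith
  rcases room_np (l := l) (p := p) (m := β • m) (p' := p') (K := K) (I := I) (T := T)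
    (by linarith) hT hb hp (by rw [s1]; positivity) hp' (by rw [s2]; positivity)
    (by
      rw [s1]
      refine le_trans ?_ hI
      have : β * cr u m ≤ Q * cr u m := mul_le_mul_of_nonneg_right hβQ hb'.le
      nlinarith) hbig hz with h | ⟨⟨x, y, x1, x2, y1, e⟩, hbb, -⟩
  · exact h
  exfalso
  rw [s1, s2] at e
  rw [s1] at hbb
  have e' : x * (cr p' m * cr u l ^ 2) = (y * β) * (cr p l * cr u m ^ 2) := by
    apply mul_left_cancel₀ hβ.ne'
    linear_combination e
  have hK2 : 1 ≤ K ^ 2 := one_le_pow₀ hK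
  have hQ2 : 1 ≤ Q ^ 2 := one_le_pow₀ (by linarith)
  have hxH : x ≤ H := by
    refine le_trans x2 (le_trans ?_ hH)
    have h0 : 0 ≤ 2 * T * I ^ 2 := by positivity
    have c0 : 1 ≤ K ^ 2 * Q ^ 2 := by nlinarith
    have c : 1 ≤ K ^ 2 * Q ^ 2 * R := by nlinarith
    calc 2 * T * I ^ 2 = 2 * T * I ^ 2 * 1 := by ring
      _ ≤ 2 * T * I ^ 2 * (K ^ 2 * Q ^ 2 * R) := mul_le_mul_of_nonneg_left c h0
  refine hR x (y * β) x1 hxH (mul_pos y1 hβ) ?_ e'
  -- the bound of `y β`
  have hbQ : cr u l ≤ K * Q * cr u m := by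
    refine hbb.trans ?_
    have : β * cr u m ≤ Q * cr u m := mul_le_mul_of_nonneg_right hβQ hb'.le
    nlinarith
  have c2 : cr u l ^ 2 ≤ K ^ 2 * Q ^ 2 * cr u m ^ 2 := by
    have := mul_self_le_mul_self hb.le hbQ
    nlinarith
  have c3 : (y * β) * (cr p l * cr u m ^ 2) ≤
      (x * (K ^ 2 * Q ^ 2 * R)) * (cr p l * cr u m ^ 2) := by
    rw [← e']
    have c4 : cr p' m * cr u l ^ 2 ≤ R * cr p l * (K ^ 2 * Q ^ 2 * cr u m ^ 2) :=
      mul_le_mul haa c2 (by positivity) (by positivity)
    calc x * (cr p' m * cr u l ^ 2) ≤ x * (R * cr p l * (K ^ 2 * Q ^ 2 * cr u m ^ 2)) :=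
          mul_le_mul_of_nonneg_left c4 x1.le
      _ = _ := by ring
  have c5 : y * β ≤ x * (K ^ 2 * Q ^ 2 * R) := le_of_mul_le_mul_right c3 (by positivity)
  calc y * β ≤ x * (K ^ 2 * Q ^ 2 * R) := c5
    _ ≤ 2 * T * I ^ 2 * (K ^ 2 * Q ^ 2 * R) := mul_le_mul_of_nonneg_right x2 (by positivity)
    _ ≤ H := hH

/-- (ii), the other side, at any level: `K s' < b` and `K b < a`: `L` is rich over all
slits `β m + k p'`. -/
theorem rich_levels {K β : ℤ} (hK : 0 ≤ K) (hb : 0 < cr u l) (hp : cr u p = 0)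
    (hb' : 0 < cr u m) (hp' : cr u p' = 0) (hβ : 0 < β) (h1 : K * (β * cr u m) < cr u l)
    (hz : K * cr u l < cr p l) (k : ℤ) : RichL (lat l p) u (β • m + k • p') K := by
  have s1 : cr u (β • m) = β * cr u m := by
    simp only [cr, Prod.smul_fst, Prod.smul_snd, smul_eq_mul]; ring
  exact rich_of_low (l := β • m) (p := p') (m := l) (p' := p) hK (by rw [s1]; positivity) hp'
    hb hp (by rw [s1]; exact h1) hz k

end Pool.Agent.H4G.Six
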