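import Pool.Agent.H4G.Six.D2.Room6
import Pool.Agent.H4G.Six.D2.NP

/-!
# D2: the room theorem delivers near-Prym data (bridge, helper6)

`room_np` (Room6) in terms of the structure `NP` (helper39): `L` is rich over `T` consecutive
slits `m + k p'`, or there is a slit `m₀ = m + k p'`, `0 ≤ k < T`, and coprime `x, y` and a
primitive companion `α l + k₀ p` of `m₀` with small `x`, `α` and small offset `kap`.
-/

set_option autoImplicit false

namespace Pool.Agent.H4G.Six

open Pool.Agent.H4G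

variable {u l p m p' : Z2}

/-- **the bridge room ⟹ near-Prym** -/
theorem np_of_room {K I T : ℤ} (hK : 0 ≤ K) (hT : 0 < T) (hb : 0 < cr u l) (hp : cr u p = 0)
    (hb' : 0 < cr u m) (hp' : cr u p' = 0) (ha' : 0 < cr p' m)
    (hI : K * cr u m ≤ I * cr u l) (hbig : 8 * T * I ^ 2 * K * cr u l < cr p l)
    (hz : K * cr u l < cr p l) :
    (∃ n : ℕ, ∀ k : ℤ, n * T ≤ k → k < n * T + T → RichL (lat l p) u (m + k • p') K) ∨
    ∃ k x y α k0 : ℤ, 0 ≤ k ∧ k < T ∧ NP u l p (m + k • p') p' x y α k0 ∧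
      x ≤ 2 * T * I ^ 2 ∧ α ≤ I ∧ α * cr u l ≤ K * cr u m ∧ cr u l ≤ K * cr u m ∧
      |kap l p (m + k • p') α k0| ≤ K * cr u m := by
  rcases room_np (l := l) (p := p) (m := m) (p' := p') hK hT hb hp hb' hp' ha' hI hbig hz with
    h | ⟨⟨X, Y, hX, hX2, hY, e⟩, hbb, k, i, j, k1, k2, hij, hi, hiI, hib, hkap⟩
  · exact Or.inl h
  refine Or.inr ?_
  have ha : 0 < cr p l := lt_of_le_of_lt (by positivity) hz
  obtain ⟨g, x, y, g0, hxy, ex, ey⟩ := exists_prim_of_ne (Or.inl hX.ne' : X ≠ 0 ∨ Y ≠ 0)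
  have hx : 0 < x := by
    rw [ex] at hX
    exact (mul_pos_iff_of_pos_left g0).1 hX
  have hy : 0 < y := by
    rw [ey] at hY
    exact (mul_pos_iff_of_pos_left g0).1 hY
  have s1 : cr u (m + k • p') = cr u m := cr_u_row hp' k
  have s2 : cr p' (m + k • p') = cr p' m := by
    simp only [cr, Prod.fst_add, Prod.snd_add, Prod.smul_fst, Prod.smul_snd, smul_eq_mul]
    ring
  refine ⟨k, x, y, i, j, k1, k2, ⟨hp, hp', hb, by rw [s1]; exact hb', ha, by rw [s2]; exact ha',
    hx, hy, hxy, hi, hij, ?_⟩, ?_, hiI, hib, hbb, hkap⟩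
  · rw [s1, s2]
    apply mul_left_cancel₀ g0.ne'
    rw [ex, ey] at e
    linear_combination e
  · refine le_trans ?_ hX2
    rw [ex]
    nlinarith

end Pool.Agent.H4G.Six
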