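import Pool.Agent.H4G.Six.BMin

/-!
# Rows of centres: the interface of (G4) (helper75, helper19)

`rowPt u g k t = k g + t u`, `InTri W l m z`: `z` is in the open triangle `z × l > 0`, `z × m > 0`,
`z × l + z × m < W`. `LongLine u g l m W γ p j K`: the line `z × (γ g - p u) = ± j W` contains `K`
consecutive points in the triangle.
-/

set_option autoImplicit false

namespace Pool.Agent.H4G.Six

open Pool.Agent.H4G

/-- a point of the lattice `⟨u, g⟩` -/
def rowPt (u g : Z2) (k t : ℤ) : Z2 := k • g + t • u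

/-- the open triangle of centres -/
def InTri (W : ℤ) (l m z : Z2) : Prop := 0 < cr z l ∧ 0 < cr z m ∧ cr z l + cr z m < W

/-- a line with `K` consecutive points in the triangle -/
def LongLine (u g l m : Z2) (W gam p j : ℤ) (K : ℕ) : Prop :=
  ∃ k0 t0 : ℤ, k0 * p + gam * t0 = j ∧ ∀ n : ℤ, 0 ≤ n → n < K →
    InTri W l m (rowPt u g (k0 + gam * n) (t0 - p * n))

theorem cr_rowPt (u g : Z2) (k t : ℤ) (x : Z2) :
    cr (rowPt u g k t) x = k * cr g x + t * cr u x := by
  simp only [rowPt, cr, Prod.fst_add, Prod.snd_add, Prod.smul_fst, Prod.smul_snd, smul_eq_mul]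
  ring

theorem cr_rowPt_right (u g : Z2) (k t : ℤ) (x : Z2) :
    cr x (rowPt u g k t) = k * cr x g + t * cr x u := by
  simp only [rowPt, cr, Prod.fst_add, Prod.snd_add, Prod.smul_fst, Prod.smul_snd, smul_eq_mul]
  ring

theorem InTri.symm {W : ℤ} {l m z : Z2} (h : InTri W l m z) : InTri W m l z :=
  ⟨h.2.1, h.1, by linarith [h.2.2]⟩

theorem LongLine.symm {u g l m : Z2} {W gam p j : ℤ} {K : ℕ}
    (h : LongLine u g l m W gam p j K) : LongLine u g m l W gam p j K := by
  obtain ⟨k0, t0, h1, h2⟩ := h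
  exact ⟨k0, t0, h1, fun n h3 h4 => (h2 n h3 h4).symm⟩

theorem LongLine.mono {u g l m : Z2} {W gam p j : ℤ} {K K' : ℕ}
    (h : LongLine u g l m W gam p j K) (hK : K' ≤ K) : LongLine u g l m W gam p j K' := by
  obtain ⟨k0, t0, h1, h2⟩ := h
  refine ⟨k0, t0, h1, fun n h3 h4 => h2 n h3 (lt_of_lt_of_le h4 ?_)⟩
  exact_mod_cast hK

end Pool.Agent.H4G.Six
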