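import Pool.Agent.H4G.Six.D2.BoxSieve
import Pool.Agent.H4G.Six.D2.G4
import Pool.Agent.H4G.Six.D2.RowDefs

/-!
# The sieve on rows of centres (row (S) of (G4), helper19; interface of helper75)

`row_cls`: along `z = n h + t e` two pairs of linear forms and the primitivity of `z` at all odd
primes, with `t` in a given class modulo `4`. `lines_exit`: a point with both pairs coprime from the
long lines `1 ≤ j ≤ γ`. `exc_exit`: only line `1` is long: one pair coprime, the other one has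
greatest common divisor `1` or `2`. `one_exit`: one pair, only line `1`.
-/

set_option autoImplicit false

namespace Pool.Agent.H4G.Six

open Pool.Agent.H4G

/-- **SIEVE ON A ROW**, odd primes, with a fixed class modulo `4` -/
theorem row_cls {J X D : ℕ} (hcap : Cap J X) (hD : D ≠ 0) {n : ℤ} (hn : n ≠ 0)
    (hX : (D : ℤ) * |n| ≤ X) {a1 b1 a2 b2 c1 d1 c2 d2 : ℤ}
    (hL : ∀ p : ℕ, p.Prime → p ≠ 2 → (p : ℤ) ∣ a1 → (p : ℤ) ∣ b1 → (p : ℤ) ∣ a2 → ¬ (p : ℤ) ∣ b2)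
    (hM : ∀ p : ℕ, p.Prime → p ≠ 2 → (p : ℤ) ∣ c1 → (p : ℤ) ∣ d1 → (p : ℤ) ∣ c2 → ¬ (p : ℤ) ∣ d2)
    (rL : a1 * b2 - a2 * b1 ∣ D) (rM : c1 * d2 - c2 * d1 ∣ D)
    (hnD : ∀ p : ℕ, p.Prime → p ∣ D → (p : ℤ) ∣ n → p = 2) (r t0 : ℤ) :
    ∃ t, t0 ≤ t ∧ t < t0 + 4 * J ∧ (4 : ℤ) ∣ t - r ∧ ∀ p : ℕ, p.Prime → p ≠ 2 →
      ¬ ((p : ℤ) ∣ n ∧ (p : ℤ) ∣ t) ∧
      ¬ ((p : ℤ) ∣ n * a1 + t * b1 ∧ (p : ℤ) ∣ n * a2 + t * b2) ∧
      ¬ ((p : ℤ) ∣ n * c1 + t * d1 ∧ (p : ℤ) ∣ n * c2 + t * d2) := by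
  classical
  have hE0 : D * n.natAbs ≠ 0 := by
    have := Int.natAbs_ne_zero.2 hn
    positivity
  have hEX : D * n.natAbs ≤ X := by
    have : ((D * n.natAbs : ℕ) : ℤ) ≤ X := by
      push_cast
      exact hX
    exact_mod_cast this
  have p24 : ∀ p : ℕ, p.Prime → (p : ℤ) ∣ 4 → p = 2 := by
    intro p hp h
    have h1 : (p : ℤ) ∣ 2 * 2 := by norm_num; exact h
    have h2 : (p : ℤ) ∣ 2 := by
      rcases (Nat.prime_iff_prime_int.1 hp).dvd_or_dvd h1 with h3 | h3 <;> exact h3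
    have h3 : p ∣ 2 := by exact_mod_cast h2
    exact (Nat.prime_dvd_prime_iff_eq hp Nat.prime_two).1 h3
  obtain ⟨t, h1, h2, h2', h3⟩ := sieveCls (k := 2) (e := 1) hcap hE0 hEX (by norm_num)
    (fun p => ![if p = 2 then 0 else if p ∣ D then prA p b1 (n * a1) b2 (n * a2) else 1,
      if p = 2 then 0 else if p ∣ D then prA p d1 (n * c1) d2 (n * c2) else 0])
    (fun p => ![if p = 2 then 1 else if p ∣ D then prB p b1 (n * a1) b2 (n * a2) else 0,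
      if p = 2 then 1 else if p ∣ D then prB p d1 (n * c1) d2 (n * c2) else 1])
    (m := 4) (by norm_num) r
    (fun p hp hpE hp4 => by
      have n1 : ¬ (p : ℤ) ∣ 1 := prime_not_dvd_one hp
      have hp2 : p ≠ 2 := by
        rintro rfl
        exact hp4 ⟨2, by norm_num⟩
      left
      refine ⟨by have := hp.two_le; omega, fun i => ?_⟩
      fin_cases i
      · simp only [hp2, if_false, Fin.zero_eta, Fin.isValue, Matrix.cons_val_zero]
        by_cases hpD : p ∣ D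
        · simp only [hpD, if_true]
          exact pr_dvd hp
        · simp only [hpD, if_false]
          intro h
          exact absurd h n1
      · simp only [hp2, if_false, Fin.mk_one, Fin.isValue, Matrix.cons_val_one]
        by_cases hpD : p ∣ D
        · simp only [hpD, if_true]
          exact pr_dvd hp
        · simp only [hpD, if_false]
          intro _
          exact n1)
    (fun p hp hpE hp4 i => by
      have hp2 := p24 p hp hp4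
      subst hp2
      fin_cases i <;> simp) t0
  rw [pow_one] at h2
  have hodd : ∀ p : ℕ, p.Prime → p ≠ 2 → p ∣ D → ¬ (p : ℤ) ∣ n →
      ¬ ((p : ℤ) ∣ n * a1 + t * b1 ∧ (p : ℤ) ∣ n * a2 + t * b2) ∧
      ¬ ((p : ℤ) ∣ n * c1 + t * d1 ∧ (p : ℤ) ∣ n * c2 + t * d2) := by
    intro p hp hp2 hpD hpn
    have hpp := Nat.prime_iff_prime_int.1 hp
    constructor
    · rintro ⟨e1, e2⟩
      have h4 := h3 p hp (hpD.mul_right _) 0
      simp only [hp2, if_false, hpD, if_true, Fin.isValue, Matrix.cons_val_zero] at h4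
      refine h4 ((pr_iff hp (fun q1 q2 q3 q4 => ?_)).2 ⟨?_, ?_⟩)
      · exact hL p hp hp2 ((hpp.dvd_or_dvd q3).resolve_left hpn) q1
          ((hpp.dvd_or_dvd q4).resolve_left hpn) q2
      · have e : b1 * t + n * a1 = n * a1 + t * b1 := by ring
        rw [e]; exact e1
      · have e : b2 * t + n * a2 = n * a2 + t * b2 := by ring
        rw [e]; exact e2
    · rintro ⟨e1, e2⟩
      have h4 := h3 p hp (hpD.mul_right _) 1
      simp only [hp2, if_false, hpD, if_true, Fin.isValue, Matrix.cons_val_one] at h4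
      refine h4 ((pr_iff hp (fun q1 q2 q3 q4 => ?_)).2 ⟨?_, ?_⟩)
      · exact hM p hp hp2 ((hpp.dvd_or_dvd q3).resolve_left hpn) q1
          ((hpp.dvd_or_dvd q4).resolve_left hpn) q2
      · have e : d1 * t + n * c1 = n * c1 + t * d1 := by ring
        rw [e]; exact e1
      · have e : d2 * t + n * c2 = n * c2 + t * d2 := by ring
        rw [e]; exact e2
  have hnt : ∀ p : ℕ, p.Prime → p ≠ 2 → ¬ ((p : ℤ) ∣ n ∧ (p : ℤ) ∣ t) := by
    rintro p hp hp2 ⟨e2, e1⟩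
    have hpD : ¬ p ∣ D := fun h => hp2 (hnD p hp h e2)
    have hpE : p ∣ D * n.natAbs := (Int.natCast_dvd.1 e2).mul_left _
    have h4 := h3 p hp hpE 0
    simp only [hp2, if_false, hpD, Fin.isValue, Matrix.cons_val_zero, one_mul,
      add_zero] at h4
    exact h4 e1
  -- a common odd prime of a pair divides `D`
  have hpD : ∀ (p : ℕ), p.Prime → p ≠ 2 → ∀ x1 y1 x2 y2 : ℤ, x1 * y2 - x2 * y1 ∣ D →
      (p : ℤ) ∣ n * x1 + t * y1 → (p : ℤ) ∣ n * x2 + t * y2 → p ∣ D := by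
    intro p hp hp2 x1 y1 x2 y2 hr e1 e2
    have hpp := Nat.prime_iff_prime_int.1 hp
    have e3 : (p : ℤ) ∣ n * (x1 * y2 - x2 * y1) := by
      have e : n * (x1 * y2 - x2 * y1) = y2 * (n * x1 + t * y1) - y1 * (n * x2 + t * y2) := by
        ring
      rw [e]; exact dvd_sub (e1.mul_left _) (e2.mul_left _)
    have e4 : (p : ℤ) ∣ t * (x1 * y2 - x2 * y1) := by
      have e : t * (x1 * y2 - x2 * y1) = x1 * (n * x2 + t * y2) - x2 * (n * x1 + t * y1) := by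
        ring
      rw [e]; exact dvd_sub (e2.mul_left _) (e1.mul_left _)
    have e5 : (p : ℤ) ∣ x1 * y2 - x2 * y1 := by
      rcases hpp.dvd_or_dvd e3 with h | h
      · rcases hpp.dvd_or_dvd e4 with h' | h'
        · exact absurd ⟨h, h'⟩ (hnt p hp hp2)
        · exact h'
      · exact h
    exact_mod_cast e5.trans hr
  refine ⟨t, h1, h2, h2', fun p hp hp2 => ⟨hnt p hp hp2, ?_, ?_⟩⟩
  · rintro ⟨e1, e2⟩
    have h4 := hpD p hp hp2 _ _ _ _ rL e1 e2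
    exact (hodd p hp hp2 h4 fun h => hp2 (hnD p hp h4 h)).1 ⟨e1, e2⟩
  · rintro ⟨e1, e2⟩
    have h4 := hpD p hp hp2 _ _ _ _ rM e1 e2
    exact (hodd p hp hp2 h4 fun h => hp2 (hnD p hp h4 h)).2 ⟨e1, e2⟩

/-- the pair `(z × x, z × y)` is `0` modulo `p` -/
def BadAt (p : ℤ) (z x y : Z2) : Prop := p ∣ cr z x ∧ p ∣ cr z y

/-- the map `z ↦ (z × x, z × y)` on `⟨u, g⟩` is not `0` modulo any prime -/
def LocOk (u g x y : Z2) : Prop := ∀ p : ℕ, p.Prime →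
  ¬ ((p : ℤ) ∣ cr u x ∧ (p : ℤ) ∣ cr u y ∧ (p : ℤ) ∣ cr g x ∧ (p : ℤ) ∣ cr g y)

/-- a point which is primitive in `⟨u, g⟩` and at which both pairs are coprime -/
def GoodPt (u g x1 y1 x2 y2 : Z2) (k t : ℤ) : Prop := IsCoprime k t ∧
  IsCoprime (cr (rowPt u g k t) x1) (cr (rowPt u g k t) y1) ∧
  IsCoprime (cr (rowPt u g k t) x2) (cr (rowPt u g k t) y2)

/-- the basis `(h, e)` of `⟨u, g⟩` belonging to a line -/
theorem row_basis {γ p : ℤ} (hγp : IsCoprime γ p) : ∃ k1 t1 : ℤ, k1 * p + γ * t1 = 1 := by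
  obtain ⟨a, b, h⟩ := hγp
  exact ⟨b, a, by linear_combination h⟩

/-- a point of line `j` in the basis `(h, e)` -/
theorem row_coord {γ p k1 t1 k0 t0 j : ℤ} (h1 : k1 * p + γ * t1 = 1) (hj : k0 * p + γ * t0 = j) :
    k0 = j * k1 + γ * (k0 * t1 - t0 * k1) ∧ t0 = j * t1 - p * (k0 * t1 - t0 * k1) := by
  constructor
  · rw [← hj]; linear_combination (-k0) * h1
  · rw [← hj]; linear_combination (-t0) * h1

theorem row_lin {u g : Z2} {γ p k1 t1 j t : ℤ} (x : Z2) :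
    cr (rowPt u g (j * k1 + γ * t) (j * t1 - p * t)) x =
      j * cr (rowPt u g k1 t1) x + t * cr (rowPt u g γ (-p)) x := by
  rw [cr_rowPt, cr_rowPt, cr_rowPt]
  ring

/-- **the sieve on a line**, odd primes, with a fixed class modulo `4` -/
theorem pickAt {J X D : ℕ} (hcap : Cap J X) (hD : D ≠ 0) {u g x1 y1 x2 y2 : Z2}
    {γ p k0 t0 j : ℤ} (hγp : IsCoprime γ p) (hj : k0 * p + γ * t0 = j) (hj0 : j ≠ 0)
    (hX : (D : ℤ) * |j| ≤ X) (h1 : LocOk u g x1 y1) (h2 : LocOk u g x2 y2)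
    (r1 : cr u g * cr x1 y1 ∣ D) (r2 : cr u g * cr x2 y2 ∣ D)
    (hjD : ∀ w : ℕ, w.Prime → w ∣ D → (w : ℤ) ∣ j → w = 2) (r N0 : ℤ) :
    ∃ n, N0 ≤ n ∧ n < N0 + 4 * J ∧ (4 : ℤ) ∣ n - r ∧ ∀ w : ℕ, w.Prime → w ≠ 2 →
      ¬ ((w : ℤ) ∣ k0 + γ * n ∧ (w : ℤ) ∣ t0 - p * n) ∧
      ¬ BadAt w (rowPt u g (k0 + γ * n) (t0 - p * n)) x1 y1 ∧
      ¬ BadAt w (rowPt u g (k0 + γ * n) (t0 - p * n)) x2 y2 := by
  obtain ⟨k1, t1, hb⟩ := row_basis hγp
  obtain ⟨e1, e2⟩ := row_coord hb hj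
  obtain ⟨c, hc⟩ : ∃ c, c = k0 * t1 - t0 * k1 := ⟨_, rfl⟩
  rw [← hc] at e1 e2
  -- `u`, `g` in the basis
  have hu : ∀ x : Z2, cr u x = γ * cr (rowPt u g k1 t1) x - k1 * cr (rowPt u g γ (-p)) x := by
    intro x
    rw [cr_rowPt, cr_rowPt]
    linear_combination (-cr u x) * hb
  have hg : ∀ x : Z2, cr g x = p * cr (rowPt u g k1 t1) x + t1 * cr (rowPt u g γ (-p)) x := by
    intro x
    rw [cr_rowPt, cr_rowPt]
    linear_combination (-cr g x) * hb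
  have hloc : ∀ {x y : Z2}, LocOk u g x y → ∀ w : ℕ, w.Prime → w ≠ 2 →
      (w : ℤ) ∣ cr (rowPt u g k1 t1) x → (w : ℤ) ∣ cr (rowPt u g γ (-p)) x →
      (w : ℤ) ∣ cr (rowPt u g k1 t1) y → ¬ (w : ℤ) ∣ cr (rowPt u g γ (-p)) y := by
    intro x y h w hw _ d1 d2 d3 d4
    refine h w hw ⟨?_, ?_, ?_, ?_⟩
    · rw [hu]; exact dvd_sub (d1.mul_left _) (d2.mul_left _)
    · rw [hu]; exact dvd_sub (d3.mul_left _) (d4.mul_left _)
    · rw [hg]; exact dvd_add (d1.mul_left _) (d2.mul_left _)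
    · rw [hg]; exact dvd_add (d3.mul_left _) (d4.mul_left _)
  have hdet : ∀ x y : Z2, cr (rowPt u g k1 t1) x * cr (rowPt u g γ (-p)) y -
      cr (rowPt u g k1 t1) y * cr (rowPt u g γ (-p)) x = cr u g * cr x y := by
    intro x y
    have e3 : (cr g x * cr u y - cr g y * cr u x) = -(cr u g * cr x y) := by
      simp only [cr]; ring
    rw [cr_rowPt, cr_rowPt, cr_rowPt, cr_rowPt]
    linear_combination (-(p * k1 + γ * t1)) * e3 + (cr u g * cr x y) * hb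
  obtain ⟨t, s1, s2, s3, s4⟩ := row_cls hcap hD hj0 hX (hloc h1) (hloc h2)
    (by rw [hdet]; exact r1) (by rw [hdet]; exact r2) hjD (r + c) (N0 + c)
  have k3 : k0 + γ * (t - c) = j * k1 + γ * t := by rw [e1]; ring
  have k4 : t0 - p * (t - c) = j * t1 - p * t := by rw [e2]; ring
  refine ⟨t - c, by linarith, by linarith, ?_, fun w hw hw2 => ?_⟩
  · have : t - c - r = t - (r + c) := by ring
    rw [this]; exact s3
  · obtain ⟨q1, q2, q3⟩ := s4 w hw hw2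
    rw [k3, k4]
    refine ⟨?_, ?_, ?_⟩
    · rintro ⟨d1, d2⟩
      refine q1 ⟨?_, ?_⟩
      · have : j = (j * k1 + γ * t) * p + γ * (j * t1 - p * t) := by
          linear_combination (-j) * hb
        rw [this]; exact dvd_add (d1.mul_right _) (d2.mul_left _)
      · have : t = (j * k1 + γ * t) * t1 - (j * t1 - p * t) * k1 := by
          linear_combination (-t) * hb
        rw [this]; exact dvd_sub (d1.mul_right _) (d2.mul_right _)
    · rintro ⟨d1, d2⟩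
      rw [row_lin] at d1 d2
      exact q2 ⟨d1, d2⟩
    · rintro ⟨d1, d2⟩
      rw [row_lin] at d1 d2
      exact q3 ⟨d1, d2⟩

/-- the classes modulo `d` along a line -/
theorem badAt_congr {u g x y : Z2} {γ p k0 t0 n r d : ℤ} (h : d ∣ n - r)
    (hb : BadAt d (rowPt u g (k0 + γ * n) (t0 - p * n)) x y) :
    BadAt d (rowPt u g (k0 + γ * r) (t0 - p * r)) x y := by
  have key : ∀ x : Z2, cr (rowPt u g (k0 + γ * r) (t0 - p * r)) x =
      cr (rowPt u g (k0 + γ * n) (t0 - p * n)) x - (n - r) * (γ * cr g x - p * cr u x) := by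
    intro x
    rw [cr_rowPt, cr_rowPt]
    ring
  obtain ⟨h1, h2⟩ := hb
  refine ⟨?_, ?_⟩
  · rw [key]; exact dvd_sub h1 (h.mul_right _)
  · rw [key]; exact dvd_sub h2 (h.mul_right _)

theorem two_dvd_pt {u g x y : Z2} {k t : ℤ} (h1 : (2 : ℤ) ∣ k) (h2 : (2 : ℤ) ∣ t) :
    BadAt 2 (rowPt u g k t) x y := by
  refine ⟨?_, ?_⟩ <;>
  · rw [cr_rowPt]; exact dvd_add (h1.mul_right _) (h2.mul_right _)

/-- **a good class on a line** gives good points in every window -/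
theorem line_good {J X D : ℕ} (hcap : Cap J X) (hD : D ≠ 0) {u g x1 y1 x2 y2 : Z2}
    {γ p k0 t0 j : ℤ} (hγp : IsCoprime γ p) (hj : k0 * p + γ * t0 = j) (hj0 : j ≠ 0)
    (hX : (D : ℤ) * |j| ≤ X) (h1 : LocOk u g x1 y1) (h2 : LocOk u g x2 y2)
    (r1 : cr u g * cr x1 y1 ∣ D) (r2 : cr u g * cr x2 y2 ∣ D)
    (hjD : ∀ w : ℕ, w.Prime → w ∣ D → (w : ℤ) ∣ j → w = 2) {r : ℤ}
    (b1 : ¬ BadAt 2 (rowPt u g (k0 + γ * r) (t0 - p * r)) x1 y1)
    (b2 : ¬ BadAt 2 (rowPt u g (k0 + γ * r) (t0 - p * r)) x2 y2) (N0 : ℤ) :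
    ∃ n, N0 ≤ n ∧ n < N0 + 4 * J ∧ GoodPt u g x1 y1 x2 y2 (k0 + γ * n) (t0 - p * n) := by
  obtain ⟨n, n1, n2, n3, n4⟩ := pickAt hcap hD hγp hj hj0 hX h1 h2 r1 r2 hjD r N0
  have n3' : (2 : ℤ) ∣ n - r := (by norm_num : (2 : ℤ) ∣ 4).trans n3
  have c1 : ¬ BadAt 2 (rowPt u g (k0 + γ * n) (t0 - p * n)) x1 y1 :=
    fun h => b1 (badAt_congr n3' h)
  have c2 : ¬ BadAt 2 (rowPt u g (k0 + γ * n) (t0 - p * n)) x2 y2 :=
    fun h => b2 (badAt_congr n3' h)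
  refine ⟨n, n1, n2, isCoprime_of_prime fun w hw d1 d2 => ?_,
    isCoprime_of_prime fun w hw d1 d2 => ?_, isCoprime_of_prime fun w hw d1 d2 => ?_⟩
  · by_cases hw2 : w = 2
    · subst hw2
      exact c1 (two_dvd_pt (by exact_mod_cast d2) (by exact_mod_cast d1))
    · exact (n4 w hw hw2).1 ⟨d2, d1⟩
  · by_cases hw2 : w = 2
    · subst hw2
      exact c1 ⟨by exact_mod_cast d2, by exact_mod_cast d1⟩
    · exact (n4 w hw hw2).2.1 ⟨d2, d1⟩
  · by_cases hw2 : w = 2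
    · subst hw2
      exact c2 ⟨by exact_mod_cast d2, by exact_mod_cast d1⟩
    · exact (n4 w hw hw2).2.2 ⟨d2, d1⟩

/-- a natural number without odd prime divisors which is not divisible by `4` -/
theorem dvd_two_of {g : ℕ} (h : ∀ w : ℕ, w.Prime → w ≠ 2 → ¬ w ∣ g) (h4 : ¬ 4 ∣ g) : g ∣ 2 := by
  by_cases h2 : 2 ∣ g
  · obtain ⟨a, rfl⟩ := h2
    by_cases ha : a = 1
    · rw [ha]
    · obtain ⟨w, hw, hwa⟩ := Nat.exists_prime_and_dvd ha
      by_cases hw2 : w = 2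
      · subst hw2
        obtain ⟨b, rfl⟩ := hwa
        exact absurd ⟨b, by ring⟩ h4
      · exact absurd (hwa.mul_left 2) (h w hw hw2)
  · by_cases hg : g = 1
    · rw [hg]; norm_num
    · obtain ⟨w, hw, hwa⟩ := Nat.exists_prime_and_dvd hg
      by_cases hw2 : w = 2
      · subst hw2; exact absurd hwa h2
      · exact absurd hwa (h w hw hw2)

/-- the second pair coprime, the first one with greatest common divisor `1` or `2` -/
theorem line_exc {J X D : ℕ} (hcap : Cap J X) (hD : D ≠ 0) {u g x1 y1 x2 y2 : Z2}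
    {γ p k0 t0 j : ℤ} (hγp : IsCoprime γ p) (hj : k0 * p + γ * t0 = j) (hj0 : j ≠ 0)
    (hX : (D : ℤ) * |j| ≤ X) (h1 : LocOk u g x1 y1) (h2 : LocOk u g x2 y2)
    (r1 : cr u g * cr x1 y1 ∣ D) (r2 : cr u g * cr x2 y2 ∣ D)
    (hjD : ∀ w : ℕ, w.Prime → w ∣ D → (w : ℤ) ∣ j → w = 2) {r : ℤ}
    (b1 : ¬ BadAt 4 (rowPt u g (k0 + γ * r) (t0 - p * r)) x1 y1)
    (b2 : ¬ BadAt 2 (rowPt u g (k0 + γ * r) (t0 - p * r)) x2 y2) (N0 : ℤ) :
    ∃ n, N0 ≤ n ∧ n < N0 + 4 * J ∧ IsCoprime (k0 + γ * n) (t0 - p * n) ∧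
      Int.gcd (cr (rowPt u g (k0 + γ * n) (t0 - p * n)) x1)
        (cr (rowPt u g (k0 + γ * n) (t0 - p * n)) y1) ∣ 2 ∧
      IsCoprime (cr (rowPt u g (k0 + γ * n) (t0 - p * n)) x2)
        (cr (rowPt u g (k0 + γ * n) (t0 - p * n)) y2) := by
  obtain ⟨n, n1, n2, n3, n4⟩ := pickAt hcap hD hγp hj hj0 hX h1 h2 r1 r2 hjD r N0
  have n3' : (2 : ℤ) ∣ n - r := (by norm_num : (2 : ℤ) ∣ 4).trans n3
  have c1 : ¬ BadAt 4 (rowPt u g (k0 + γ * n) (t0 - p * n)) x1 y1 :=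
    fun h => b1 (badAt_congr n3 h)
  have c2 : ¬ BadAt 2 (rowPt u g (k0 + γ * n) (t0 - p * n)) x2 y2 :=
    fun h => b2 (badAt_congr n3' h)
  refine ⟨n, n1, n2, isCoprime_of_prime fun w hw d1 d2 => ?_, dvd_two_of (fun w hw hw2 hd => ?_)
    (fun hd => ?_), isCoprime_of_prime fun w hw d1 d2 => ?_⟩
  · by_cases hw2 : w = 2
    · subst hw2
      exact c2 (two_dvd_pt (by exact_mod_cast d2) (by exact_mod_cast d1))
    · exact (n4 w hw hw2).1 ⟨d2, d1⟩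
  · have hd' : (w : ℤ) ∣ (Int.gcd (cr (rowPt u g (k0 + γ * n) (t0 - p * n)) x1)
        (cr (rowPt u g (k0 + γ * n) (t0 - p * n)) y1) : ℤ) := by exact_mod_cast hd
    exact (n4 w hw hw2).2.1 ⟨hd'.trans (Int.gcd_dvd_left _ _), hd'.trans (Int.gcd_dvd_right _ _)⟩
  · have hd' : (4 : ℤ) ∣ (Int.gcd (cr (rowPt u g (k0 + γ * n) (t0 - p * n)) x1)
        (cr (rowPt u g (k0 + γ * n) (t0 - p * n)) y1) : ℤ) := by exact_mod_cast hd
    exact c1 ⟨hd'.trans (Int.gcd_dvd_left _ _), hd'.trans (Int.gcd_dvd_right _ _)⟩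
  · by_cases hw2 : w = 2
    · subst hw2
      exact c2 ⟨by exact_mod_cast d2, by exact_mod_cast d1⟩
    · exact (n4 w hw hw2).2.2 ⟨d2, d1⟩

/-- on a line of odd index a point and the direction are not both bad at `2` -/
theorem not_both_bad {u g x y : Z2} {γ p k0 t0 j : ℤ} (hj : k0 * p + γ * t0 = j)
    (hj2 : ¬ (2 : ℤ) ∣ j) (h : LocOk u g x y) (r : ℤ)
    (b1 : BadAt 2 (rowPt u g (k0 + γ * r) (t0 - p * r)) x y)
    (b2 : BadAt 2 (rowPt u g γ (-p)) x y) : False := by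
  have hu : ∀ x : Z2, (2 : ℤ) ∣ cr (rowPt u g (k0 + γ * r) (t0 - p * r)) x →
      (2 : ℤ) ∣ cr (rowPt u g γ (-p)) x → (2 : ℤ) ∣ cr u x ∧ (2 : ℤ) ∣ cr g x := by
    intro x d1 d2
    have e1 : j * cr u x = γ * cr (rowPt u g (k0 + γ * r) (t0 - p * r)) x -
        (k0 + γ * r) * cr (rowPt u g γ (-p)) x := by
      rw [cr_rowPt, cr_rowPt, ← hj]; ring
    have e2 : j * cr g x = p * cr (rowPt u g (k0 + γ * r) (t0 - p * r)) x +
        (t0 - p * r) * cr (rowPt u g γ (-p)) x := by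
      rw [cr_rowPt, cr_rowPt, ← hj]; ring
    have f1 : (2 : ℤ) ∣ j * cr u x := by
      rw [e1]; exact dvd_sub (d1.mul_left _) (d2.mul_left _)
    have f2 : (2 : ℤ) ∣ j * cr g x := by
      rw [e2]; exact dvd_add (d1.mul_left _) (d2.mul_left _)
    exact ⟨(Int.prime_two.dvd_or_dvd f1).resolve_left hj2,
      (Int.prime_two.dvd_or_dvd f2).resolve_left hj2⟩
  obtain ⟨a1, a2⟩ := hu x b1.1 b2.1
  obtain ⟨a3, a4⟩ := hu y b1.2 b2.2
  exact h 2 Nat.prime_two ⟨by exact_mod_cast a1, by exact_mod_cast a3, by exact_mod_cast a2,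
    by exact_mod_cast a4⟩

/-- two consecutive points which are both bad: the direction is bad -/
theorem dir_bad {u g x y : Z2} {γ p k0 t0 d : ℤ} {r : ℤ}
    (b1 : BadAt d (rowPt u g (k0 + γ * r) (t0 - p * r)) x y)
    (b2 : BadAt d (rowPt u g (k0 + γ * (r + 1)) (t0 - p * (r + 1))) x y) :
    BadAt d (rowPt u g γ (-p)) x y := by
  have key : ∀ x : Z2, cr (rowPt u g γ (-p)) x =
      cr (rowPt u g (k0 + γ * (r + 1)) (t0 - p * (r + 1))) x -
        cr (rowPt u g (k0 + γ * r) (t0 - p * r)) x := by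
    intro x
    rw [cr_rowPt, cr_rowPt, cr_rowPt]; ring
  exact ⟨by rw [key]; exact dvd_sub b2.1 b1.1, by rw [key]; exact dvd_sub b2.2 b1.2⟩

/-- the direction is not good for both pairs: every line of odd index has a good class -/
theorem odd_line_class {u g x1 y1 x2 y2 : Z2} {γ p k0 t0 j : ℤ} (hj : k0 * p + γ * t0 = j)
    (hj2 : ¬ (2 : ℤ) ∣ j) (h1 : LocOk u g x1 y1) (h2 : LocOk u g x2 y2)
    (he : ¬ (¬ BadAt 2 (rowPt u g γ (-p)) x1 y1 ∧ ¬ BadAt 2 (rowPt u g γ (-p)) x2 y2)) :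
    ∃ r, ¬ BadAt 2 (rowPt u g (k0 + γ * r) (t0 - p * r)) x1 y1 ∧
      ¬ BadAt 2 (rowPt u g (k0 + γ * r) (t0 - p * r)) x2 y2 := by
  have n1 := not_both_bad hj hj2 h1
  have n2 := not_both_bad hj hj2 h2
  have d1 : BadAt 2 (rowPt u g (k0 + γ * 0) (t0 - p * 0)) x1 y1 →
      BadAt 2 (rowPt u g (k0 + γ * (0 + 1)) (t0 - p * (0 + 1))) x1 y1 →
      BadAt 2 (rowPt u g γ (-p)) x1 y1 := dir_bad
  have d2 : BadAt 2 (rowPt u g (k0 + γ * 0) (t0 - p * 0)) x2 y2 →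
      BadAt 2 (rowPt u g (k0 + γ * (0 + 1)) (t0 - p * (0 + 1))) x2 y2 →
      BadAt 2 (rowPt u g γ (-p)) x2 y2 := dir_bad
  have n10 := n1 0
  have n11 := n1 (0 + 1)
  have n20 := n2 0
  have n21 := n2 (0 + 1)
  by_contra hcon
  push Not at hcon
  have c0 := hcon 0
  have c1 := hcon (0 + 1)
  tauto

/-- the direction is good for both pairs: every line of even index has a good class -/
theorem even_line_class {u g x1 y1 x2 y2 : Z2} {γ p k0 t0 j : ℤ} (hγp : IsCoprime γ p)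
    (hj : k0 * p + γ * t0 = j) (hj2 : (2 : ℤ) ∣ j)
    (he : ¬ BadAt 2 (rowPt u g γ (-p)) x1 y1 ∧ ¬ BadAt 2 (rowPt u g γ (-p)) x2 y2) :
    ∃ r, ¬ BadAt 2 (rowPt u g (k0 + γ * r) (t0 - p * r)) x1 y1 ∧
      ¬ BadAt 2 (rowPt u g (k0 + γ * r) (t0 - p * r)) x2 y2 := by
  obtain ⟨k1, t1, hb⟩ := row_basis hγp
  obtain ⟨e1, e2⟩ := row_coord hb hj
  obtain ⟨c, hc⟩ : ∃ c, c = k0 * t1 - t0 * k1 := ⟨_, rfl⟩
  rw [← hc] at e1 e2
  obtain ⟨j', rfl⟩ := hj2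
  have key : ∀ x : Z2, cr (rowPt u g γ (-p)) x =
      cr (rowPt u g (k0 + γ * (1 - c)) (t0 - p * (1 - c))) x -
        2 * (j' * cr (rowPt u g k1 t1) x) := by
    intro x
    rw [cr_rowPt, cr_rowPt, cr_rowPt, e1, e2]
    ring
  refine ⟨1 - c, fun ⟨b1, b2⟩ => he.1 ⟨?_, ?_⟩, fun ⟨b1, b2⟩ => he.2 ⟨?_, ?_⟩⟩ <;>
  · rw [key]
    exact dvd_sub (by assumption) (dvd_mul_right _ _)

/-- a class for the exception: the first pair is not `0` modulo `4`, the second one not modulo `2` -/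
theorem exc_class {u g x1 y1 x2 y2 : Z2} {γ p k0 t0 j : ℤ} (hj : k0 * p + γ * t0 = j)
    (hj2 : ¬ (2 : ℤ) ∣ j) (h1 : LocOk u g x1 y1) (h2 : LocOk u g x2 y2) :
    ∃ r, ¬ BadAt 4 (rowPt u g (k0 + γ * r) (t0 - p * r)) x1 y1 ∧
      ¬ BadAt 2 (rowPt u g (k0 + γ * r) (t0 - p * r)) x2 y2 := by
  -- a good class for the second pair
  obtain ⟨r0, hr0⟩ : ∃ r0, ¬ BadAt 2 (rowPt u g (k0 + γ * r0) (t0 - p * r0)) x2 y2 := by
    by_contra hcon
    push Not at hcon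
    exact not_both_bad hj hj2 h2 0 (hcon 0) (dir_bad (hcon 0) (hcon (0 + 1)))
  by_cases h4 : BadAt 4 (rowPt u g (k0 + γ * r0) (t0 - p * r0)) x1 y1
  · refine ⟨r0 + 2, fun h4' => ?_, fun h => hr0 (badAt_congr (by
      have : r0 + 2 - r0 = 2 := by ring
      rw [this]) h)⟩
    have key : ∀ x : Z2, (4 : ℤ) ∣ cr (rowPt u g (k0 + γ * r0) (t0 - p * r0)) x →
        (4 : ℤ) ∣ cr (rowPt u g (k0 + γ * (r0 + 2)) (t0 - p * (r0 + 2))) x →
        (2 : ℤ) ∣ cr (rowPt u g γ (-p)) x := by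
      intro x d1 d2
      have e : 2 * cr (rowPt u g γ (-p)) x =
          cr (rowPt u g (k0 + γ * (r0 + 2)) (t0 - p * (r0 + 2))) x -
            cr (rowPt u g (k0 + γ * r0) (t0 - p * r0)) x := by
        rw [cr_rowPt, cr_rowPt, cr_rowPt]; ring
      have d3 := dvd_sub d2 d1
      rw [← e] at d3
      obtain ⟨w, hw⟩ := d3
      exact ⟨w, by linarith⟩
    have d2 : ∀ {a : ℤ}, (4 : ℤ) ∣ a → (2 : ℤ) ∣ a := fun h => (by norm_num : (2 : ℤ) ∣ 4).trans h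
    exact not_both_bad hj hj2 h1 r0 ⟨d2 h4.1, d2 h4.2⟩ ⟨key _ h4.1 h4'.1, key _ h4.2 h4'.2⟩
  · exact ⟨r0, h4, hr0⟩

/-- a class for one pair -/
theorem one_class {u g x y : Z2} {γ p k0 t0 j : ℤ} (hj : k0 * p + γ * t0 = j)
    (hj2 : ¬ (2 : ℤ) ∣ j) (h : LocOk u g x y) :
    ∃ r, ¬ BadAt 2 (rowPt u g (k0 + γ * r) (t0 - p * r)) x y := by
  by_contra hcon
  push Not at hcon
  exact not_both_bad hj hj2 h 0 (hcon 0) (dir_bad (hcon 0) (hcon (0 + 1)))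

/-- **(S1), (S2)**: a line with good points in every window -/
theorem lines_exit {J X K : ℕ} (hcap : Cap J X) (hJ : 1 ≤ J) {u g l m x1 y1 x2 y2 : Z2}
    {W γ p Q : ℤ} (hD0 : cr u g * cr x1 y1 * cr x2 y2 ≠ 0)
    (hX : |cr u g * cr x1 y1 * cr x2 y2| * Q ≤ X) (h1 : LocOk u g x1 y1) (h2 : LocOk u g x2 y2)
    (hγ : 1 ≤ γ) (hγQ : γ ≤ Q) (hγp : IsCoprime γ p) (hQ : 16 * J * (K + 1) ≤ Q)
    (hlong : ∀ j, 1 ≤ j → j ≤ γ → (K + 1) * γ ≤ Q * j → LongLine u g l m W γ p j K)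
    (hone : γ = 1 → LongLine u g l m W γ p 2 K) :
    ∃ j k0 t0 : ℤ, 1 ≤ j ∧ j ≤ Q ∧ k0 * p + γ * t0 = j ∧
      (∀ n : ℤ, 0 ≤ n → n < K → InTri W l m (rowPt u g (k0 + γ * n) (t0 - p * n))) ∧
      ∀ N0 : ℤ, ∃ n, N0 ≤ n ∧ n < N0 + 4 * J ∧
        GoodPt u g x1 y1 x2 y2 (k0 + γ * n) (t0 - p * n) := by
  obtain ⟨D, hDdef⟩ : ∃ D : ℕ, D = (cr u g * cr x1 y1 * cr x2 y2).natAbs := ⟨_, rfl⟩
  have hD : D ≠ 0 := by rw [hDdef]; exact Int.natAbs_ne_zero.2 hD0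
  have hDc : (D : ℤ) = |cr u g * cr x1 y1 * cr x2 y2| := by rw [hDdef]; exact Int.natCast_natAbs _
  have r1 : cr u g * cr x1 y1 ∣ (D : ℤ) := by
    rw [hDc, dvd_abs]; exact dvd_mul_right _ _
  have r2 : cr u g * cr x2 y2 ∣ (D : ℤ) := by
    rw [hDc, dvd_abs]; exact ⟨cr x1 y1, by ring⟩
  have hD1 : (1 : ℤ) ≤ D := by exact_mod_cast Nat.one_le_iff_ne_zero.2 hD
  have hJ' : (1 : ℤ) ≤ J := by exact_mod_cast hJ
  have hK' : (0 : ℤ) ≤ K := by positivity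
  have hQ16 : 16 * ((K : ℤ) + 1) ≤ Q := by nlinarith
  have hXj : ∀ j : ℤ, 1 ≤ j → j ≤ Q → (D : ℤ) * |j| ≤ X := by
    intro j j1 j2
    rw [abs_of_pos (by linarith)]
    rw [← hDc] at hX
    exact (mul_le_mul_of_nonneg_left j2 (by linarith)).trans hX
  have w2 : ∀ w : ℕ, w.Prime → (w : ℤ) ∣ 2 → w = 2 := by
    intro w hw h
    have h3 : w ∣ 2 := by exact_mod_cast h
    exact (Nat.prime_dvd_prime_iff_eq hw Nat.prime_two).1 h3
  have hncop : ∀ {w : ℕ} {a b : ℤ}, w.Prime → IsCoprime a b → (w : ℤ) ∣ a → ¬ (w : ℤ) ∣ b := by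
    intro w a b hw ⟨i, k, hik⟩ d1 d2
    apply prime_not_dvd_one hw
    rw [← hik]; exact dvd_add (d1.mul_left _) (d2.mul_left _)
  by_cases he : ¬ BadAt 2 (rowPt u g γ (-p)) x1 y1 ∧ ¬ BadAt 2 (rowPt u g γ (-p)) x2 y2
  · -- a line of even index
    obtain ⟨j, j1, j2, jev, jD, k0, t0, hj, hin⟩ : ∃ j : ℤ, 1 ≤ j ∧ j ≤ Q ∧ (2 : ℤ) ∣ j ∧
        (∀ w : ℕ, w.Prime → w ∣ D → (w : ℤ) ∣ j → w = 2) ∧ LongLine u g l m W γ p j K := by
      rcases eq_or_lt_of_le hγ with hg1 | hg1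
      · exact ⟨2, by norm_num, by linarith, dvd_refl _, fun w hw _ h => w2 w hw h, hone hg1.symm⟩
      · rcases le_or_gt ((K + 1) * γ) Q with hs | hs
        · exact ⟨2, by norm_num, by linarith, dvd_refl _, fun w hw _ h => w2 w hw h,
            hlong 2 (by norm_num) (by linarith) (by linarith)⟩
        · have hg16 : 16 * (J : ℤ) < γ := by
            have h3 : 16 * (J : ℤ) * (K + 1) < γ * (K + 1) := by
              calc 16 * (J : ℤ) * (K + 1) ≤ Q := hQ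
                _ < (K + 1) * γ := hs
                _ = γ * (K + 1) := by ring
            exact lt_of_mul_lt_mul_right h3 (by linarith)
          obtain ⟨n, n1, n2, n3⟩ := cop_window hcap (D := D) (by exact_mod_cast hD)
            (by
              rw [abs_of_pos (by linarith)]
              have := hXj 1 le_rfl (by linarith)
              rw [abs_one, mul_one] at this
              exact this) ((γ + 7) / 8)
          have n4 : γ ≤ 8 * n := by omega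
          have n5 : 2 * n ≤ γ := by omega
          refine ⟨2 * n, by omega, by linarith, dvd_mul_right _ _, fun w hw hwD hwj => ?_, ?_⟩
          · rcases (Nat.prime_iff_prime_int.1 hw).dvd_or_dvd hwj with h | h
            · exact w2 w hw h
            · exact absurd (Int.natCast_dvd_natCast.2 hwD) (hncop hw n3 h)
          · refine hlong _ (by omega) n5 ?_
            have h4 : 16 * ((K : ℤ) + 1) * (2 * n) ≤ Q * (2 * n) :=
              mul_le_mul_of_nonneg_right hQ16 (by omega)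
            have h5 : ((K : ℤ) + 1) * γ ≤ (K + 1) * (8 * n) :=
              mul_le_mul_of_nonneg_left n4 (by linarith)
            have h6 : 0 ≤ ((K : ℤ) + 1) * n := mul_nonneg (by linarith) (by omega)
            linarith
    obtain ⟨r, b1, b2⟩ := even_line_class hγp hj jev he
    exact ⟨j, k0, t0, j1, j2, hj, hin, fun N0 => line_good hcap hD hγp hj (by linarith)
      (hXj j j1 j2) h1 h2 r1 r2 jD b1 b2 N0⟩
  · -- a line of odd index
    obtain ⟨j, j1, j2, jodd, jD, k0, t0, hj, hin⟩ : ∃ j : ℤ, 1 ≤ j ∧ j ≤ Q ∧ ¬ (2 : ℤ) ∣ j ∧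
        (∀ w : ℕ, w.Prime → w ∣ D → (w : ℤ) ∣ j → w = 2) ∧ LongLine u g l m W γ p j K := by
      rcases le_or_gt ((K + 1) * γ) Q with hs | hs
      · exact ⟨1, by norm_num, by linarith, by norm_num,
          fun w hw _ h => absurd h (prime_not_dvd_one hw),
          hlong 1 (by norm_num) hγ (by linarith)⟩
      · have hg16 : 16 * (J : ℤ) < γ := by
          have h3 : 16 * (J : ℤ) * (K + 1) < γ * (K + 1) := by
            calc 16 * (J : ℤ) * (K + 1) ≤ Q := hQ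
              _ < (K + 1) * γ := hs
              _ = γ * (K + 1) := by ring
          exact lt_of_mul_lt_mul_right h3 (by linarith)
        obtain ⟨n, n1, n2, n3⟩ := cop_window hcap (D := 2 * D) (by
            have : (D : ℤ) ≠ 0 := by exact_mod_cast hD
            exact mul_ne_zero two_ne_zero this)
          (by
            rw [abs_of_pos (by linarith)]
            have := hXj 2 (by norm_num) (by linarith)
            rw [abs_of_pos (by norm_num)] at this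
            linarith) ((γ + 3) / 4)
        have n4 : γ ≤ 4 * n := by omega
        have n5 : n ≤ γ := by omega
        refine ⟨n, by omega, by linarith, fun h => ?_, fun w hw hwD hwj => ?_, ?_⟩
        · exact hncop (w := 2) Nat.prime_two n3 (by exact_mod_cast h) ⟨D, by push_cast; ring⟩
        · exact absurd ((Int.natCast_dvd_natCast.2 hwD).mul_left 2) (hncop hw n3 hwj)
        · refine hlong _ (by omega) n5 ?_
          have h4 : 16 * ((K : ℤ) + 1) * n ≤ Q * n :=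
            mul_le_mul_of_nonneg_right hQ16 (by omega)
          have h5 : ((K : ℤ) + 1) * γ ≤ (K + 1) * (4 * n) :=
            mul_le_mul_of_nonneg_left n4 (by linarith)
          have h6 : 0 ≤ ((K : ℤ) + 1) * n := mul_nonneg (by linarith) (by omega)
          linarith
    obtain ⟨r, b1, b2⟩ := odd_line_class hj jodd h1 h2 he
    exact ⟨j, k0, t0, j1, j2, hj, hin, fun N0 => line_good hcap hD hγp hj (by linarith)
      (hXj j j1 j2) h1 h2 r1 r2 jD b1 b2 N0⟩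

/-- (S1), (S2), one point -/
theorem lines_point {J X : ℕ} (hcap : Cap J X) (hJ : 1 ≤ J) {u g l m x1 y1 x2 y2 : Z2}
    {W γ p Q : ℤ} (hD0 : cr u g * cr x1 y1 * cr x2 y2 ≠ 0)
    (hX : |cr u g * cr x1 y1 * cr x2 y2| * Q ≤ X) (h1 : LocOk u g x1 y1) (h2 : LocOk u g x2 y2)
    (hγ : 1 ≤ γ) (hγQ : γ ≤ Q) (hγp : IsCoprime γ p) (hQ : 16 * J * (4 * J + 1) ≤ Q)
    (hlong : ∀ j, 1 ≤ j → j ≤ γ → (4 * J + 1) * γ ≤ Q * j → LongLine u g l m W γ p j (4 * J))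
    (hone : γ = 1 → LongLine u g l m W γ p 2 (4 * J)) :
    ∃ k t : ℤ, InTri W l m (rowPt u g k t) ∧ GoodPt u g x1 y1 x2 y2 k t := by
  obtain ⟨j, k0, t0, -, -, -, h, h'⟩ := lines_exit (K := 4 * J) hcap hJ hD0 hX h1 h2 hγ hγQ hγp
    (by push_cast; exact hQ) (fun j j1 j2 j3 => hlong j j1 j2 (by push_cast at j3; exact j3)) hone
  obtain ⟨n, n1, n2, n3⟩ := h' 0
  exact ⟨_, _, h n n1 (by push_cast; linarith), n3⟩

/-- **(S3)**: only line `1` is long: good points in every window, the second pair coprime, the first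
one with greatest common divisor `1` or `2` -/
theorem exc_exit {J X K : ℕ} (hcap : Cap J X) {u g l m x1 y1 x2 y2 : Z2}
    {W γ p : ℤ} (hD0 : cr u g * cr x1 y1 * cr x2 y2 ≠ 0)
    (hX : |cr u g * cr x1 y1 * cr x2 y2| ≤ X) (h1 : LocOk u g x1 y1) (h2 : LocOk u g x2 y2)
    (hγp : IsCoprime γ p) (hlong : LongLine u g l m W γ p 1 K) :
    ∃ k0 t0 : ℤ, k0 * p + γ * t0 = 1 ∧
      (∀ n : ℤ, 0 ≤ n → n < K → InTri W l m (rowPt u g (k0 + γ * n) (t0 - p * n))) ∧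
      ∀ N0 : ℤ, ∃ n, N0 ≤ n ∧ n < N0 + 4 * J ∧ IsCoprime (k0 + γ * n) (t0 - p * n) ∧
        Int.gcd (cr (rowPt u g (k0 + γ * n) (t0 - p * n)) x1)
          (cr (rowPt u g (k0 + γ * n) (t0 - p * n)) y1) ∣ 2 ∧
        IsCoprime (cr (rowPt u g (k0 + γ * n) (t0 - p * n)) x2)
          (cr (rowPt u g (k0 + γ * n) (t0 - p * n)) y2) := by
  obtain ⟨D, hDdef⟩ : ∃ D : ℕ, D = (cr u g * cr x1 y1 * cr x2 y2).natAbs := ⟨_, rfl⟩
  have hD : D ≠ 0 := by rw [hDdef]; exact Int.natAbs_ne_zero.2 hD0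
  have hDc : (D : ℤ) = |cr u g * cr x1 y1 * cr x2 y2| := by rw [hDdef]; exact Int.natCast_natAbs _
  have r1 : cr u g * cr x1 y1 ∣ (D : ℤ) := by
    rw [hDc, dvd_abs]; exact dvd_mul_right _ _
  have r2 : cr u g * cr x2 y2 ∣ (D : ℤ) := by
    rw [hDc, dvd_abs]; exact ⟨cr x1 y1, by ring⟩
  obtain ⟨k0, t0, hj, hin⟩ := hlong
  obtain ⟨r, b1, b2⟩ := exc_class (x1 := x1) (y1 := y1) (x2 := x2) (y2 := y2) hj (by norm_num) h1 h2
  exact ⟨k0, t0, hj, hin, fun N0 => line_exc hcap hD hγp hj one_ne_zero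
    (by rw [abs_one, mul_one, hDc]; exact hX) h1 h2 r1 r2
    (fun w hw _ h => absurd h (prime_not_dvd_one hw)) b1 b2 N0⟩

/-- (S3), one point -/
theorem exc_point {J X : ℕ} (hcap : Cap J X) {u g l m x1 y1 x2 y2 : Z2}
    {W γ p : ℤ} (hD0 : cr u g * cr x1 y1 * cr x2 y2 ≠ 0)
    (hX : |cr u g * cr x1 y1 * cr x2 y2| ≤ X) (h1 : LocOk u g x1 y1) (h2 : LocOk u g x2 y2)
    (hγp : IsCoprime γ p) (hlong : LongLine u g l m W γ p 1 (4 * J)) :
    ∃ k t : ℤ, IsCoprime k t ∧ InTri W l m (rowPt u g k t) ∧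
      Int.gcd (cr (rowPt u g k t) x1) (cr (rowPt u g k t) y1) ∣ 2 ∧
      IsCoprime (cr (rowPt u g k t) x2) (cr (rowPt u g k t) y2) := by
  obtain ⟨k0, t0, -, h, h'⟩ := exc_exit hcap hD0 hX h1 h2 hγp hlong
  obtain ⟨n, n1, n2, n3, n4, n5⟩ := h' 0
  exact ⟨_, _, n3, h n n1 (by push_cast; linarith), n4, n5⟩

/-- **(S0)**: one pair, only line `1` -/
theorem one_exit {J X K : ℕ} (hcap : Cap J X) {u g l m x y : Z2} {W γ p : ℤ}
    (hD0 : cr u g * cr x y ≠ 0) (hX : |cr u g * cr x y| ≤ X) (h : LocOk u g x y)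
    (hγp : IsCoprime γ p) (hlong : LongLine u g l m W γ p 1 K) :
    ∃ k0 t0 : ℤ, k0 * p + γ * t0 = 1 ∧
      (∀ n : ℤ, 0 ≤ n → n < K → InTri W l m (rowPt u g (k0 + γ * n) (t0 - p * n))) ∧
      ∀ N0 : ℤ, ∃ n, N0 ≤ n ∧ n < N0 + 4 * J ∧ IsCoprime (k0 + γ * n) (t0 - p * n) ∧
        IsCoprime (cr (rowPt u g (k0 + γ * n) (t0 - p * n)) x)
          (cr (rowPt u g (k0 + γ * n) (t0 - p * n)) y) := by
  obtain ⟨D, hDdef⟩ : ∃ D : ℕ, D = (cr u g * cr x y).natAbs := ⟨_, rfl⟩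
  have hD : D ≠ 0 := by rw [hDdef]; exact Int.natAbs_ne_zero.2 hD0
  have hDc : (D : ℤ) = |cr u g * cr x y| := by rw [hDdef]; exact Int.natCast_natAbs _
  have r1 : cr u g * cr x y ∣ (D : ℤ) := by rw [hDc, dvd_abs]
  obtain ⟨k0, t0, hj, hin⟩ := hlong
  obtain ⟨r, b1⟩ := one_class (x := x) (y := y) hj (by norm_num) h
  refine ⟨k0, t0, hj, hin, fun N0 => ?_⟩
  obtain ⟨n, n1, n2, n3, n4, -⟩ := line_good hcap hD hγp hj one_ne_zero
    (by rw [abs_one, mul_one, hDc]; exact hX) h h r1 r1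
    (fun w hw _ h => absurd h (prime_not_dvd_one hw)) b1 b1 N0
  exact ⟨n, n1, n2, n3, n4⟩

/-- (S0), one point -/
theorem one_point {J X : ℕ} (hcap : Cap J X) {u g l m x y : Z2} {W γ p : ℤ}
    (hD0 : cr u g * cr x y ≠ 0) (hX : |cr u g * cr x y| ≤ X) (h : LocOk u g x y)
    (hγp : IsCoprime γ p) (hlong : LongLine u g l m W γ p 1 (4 * J)) :
    ∃ k t : ℤ, IsCoprime k t ∧ InTri W l m (rowPt u g k t) ∧
      IsCoprime (cr (rowPt u g k t) x) (cr (rowPt u g k t) y) := by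
  obtain ⟨k0, t0, -, h, h'⟩ := one_exit hcap hD0 hX h hγp hlong
  obtain ⟨n, n1, n2, n3, n4⟩ := h' 0
  exact ⟨_, _, n3, h n n1 (by push_cast; linarith), n4⟩

/-- primitivity in `ℤ²` as a pair -/
theorem locOk_prim {u g : Z2} (h : ∀ p : ℕ, p.Prime →
    ¬ ((p : ℤ) ∣ u.1 ∧ (p : ℤ) ∣ u.2 ∧ (p : ℤ) ∣ g.1 ∧ (p : ℤ) ∣ g.2)) :
    LocOk u g (0, 1) (1, 0) := by
  intro p hp ⟨d1, d2, d3, d4⟩
  simp only [cr, mul_one, mul_zero, sub_zero, zero_sub, dvd_neg] at d1 d2 d3 d4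
  exact h p hp ⟨d1, d2, d3, d4⟩

theorem prim_of_pair {z : Z2} (h : IsCoprime (cr z (0, 1)) (cr z (1, 0))) :
    IsCoprime z.1 z.2 := by
  simp only [cr, mul_one, mul_zero, sub_zero, zero_sub] at h
  exact (IsCoprime.neg_right_iff _ _).1 h

end Pool.Agent.H4G.Six
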