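import Pool.Agent.H4G.Six.D2.AMax88

/-!
# The large common divisor at a state with maximal first area (helper88)
-/

set_option autoImplicit false

namespace Pool.Agent.H4G.Six

open Pool.Agent.H4G

variable {N : ℤ} {J Z : ℕ} {A a c z x : ℤ}

/-- a bound `J` with `J ^ 2000 ≤ N` -/
theorem exists_Bg2 : ∃ N0 : ℕ, ∀ N : ℕ, N0 ≤ N →
    ∃ J Z : ℕ, Bg (N : ℤ) J Z ∧ (J : ℤ) ^ 2000 ≤ (N : ℤ) := by
  obtain ⟨N0, h⟩ := cap_exists (2 ^ 20) 2000 21
  refine ⟨max N0 (2 ^ 20), fun N hN => ?_⟩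
  obtain ⟨J, h1, h2, h3⟩ := h N (le_trans (le_max_left _ _) hN)
  have hN2 : 2 ^ 20 ≤ N := le_trans (le_max_right _ _) hN
  have hJ1 : 1 ≤ J := by omega
  refine ⟨J, N ^ 21, ⟨h1, h3, ?_, ?_⟩, by exact_mod_cast h2⟩
  · have e : (2 * N) ^ 20 ≤ N ^ 21 := by
      calc (2 * N) ^ 20 = 2 ^ 20 * N ^ 20 := by ring
        _ ≤ N * N ^ 20 := Nat.mul_le_mul_right _ hN2
        _ = N ^ 21 := by ring
    exact_mod_cast e
  · have h4 : J ^ 200 ≤ J ^ 2000 := Nat.pow_le_pow_right hJ1 (by norm_num)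
    exact_mod_cast h4.trans h2

/-- the shear of a normal form -/
theorem NF.shear (hA : 0 < A) (ha : 1 < a) (hc : 0 < c) (hz : 1 < z) (s : ℤ) :
    SEq6 (NF A a c z x) (NF A a c z (x + s * a * c)) := by
  have h := NL.shear (A := A) (a := a) (m := (x, c)) (q := (z, 0)) (NF.ok hA ha hc hz) s
  simp only [mul_zero, add_zero] at h
  exact h

/-- **MAXIMAL FIRST AREA**: a large common divisor of `z`, `x` and `a c` -/
theorem amax_shear (hB : Bg N J Z) (hA : 0 < A) (ha : 1 < a) (hc0 : 0 < c) (hz : 1 < z)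
    (h3 : 3 ≤ c * z) (hN : A + a + c * z = N) (hp : ¬ Prog A a c z x) :
    ∃ G : ℤ, 0 < G ∧ G ∣ z ∧ G ∣ x ∧ G ∣ a * c ∧ c * z ≤ G * (J : ℤ) ^ 36 ∧
      A ≤ (J : ℤ) ^ 20 := by
  have hp1 : ¬ Prog A a c z (x + a * c) := by
    intro h
    refine hp (Prog.of ?_ h)
    have := NF.shear (x := x) hA ha hc0 hz 1
    rwa [one_mul] at this
  obtain ⟨h1, h2⟩ := amax hB hA ha hc0 hz h3 hN hp
  obtain ⟨h3, -⟩ := amax hB hA ha hc0 hz h3 hN hp1
  set g0 : ℕ := Int.gcd z x with hg0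
  set g1 : ℕ := Int.gcd z (x + a * c) with hg1
  have d0 : (g0 : ℤ) ∣ z := Int.gcd_dvd_left ..
  have d0' : (g0 : ℤ) ∣ x := Int.gcd_dvd_right ..
  have d1 : (g1 : ℤ) ∣ z := Int.gcd_dvd_left ..
  have d1' : (g1 : ℤ) ∣ x + a * c := Int.gcd_dvd_right ..
  have p0 : 0 < (g0 : ℤ) := by
    have h5 : g0 ≠ 0 := by
      intro h
      have := (Int.gcd_eq_zero_iff.1 h).1
      omega
    omega
  have p1 : 0 < (g1 : ℤ) := by
    have h5 : g1 ≠ 0 := by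
      intro h
      have := (Int.gcd_eq_zero_iff.1 h).1
      omega
    omega
  set G : ℕ := Nat.gcd g0 g1 with hG
  have pG : 0 < G := Nat.gcd_pos_of_pos_left _ (by omega)
  have e0 : (G : ℤ) ∣ g0 := by exact_mod_cast Nat.gcd_dvd_left g0 g1
  have e1 : (G : ℤ) ∣ g1 := by exact_mod_cast Nat.gcd_dvd_right g0 g1
  -- `g0 g1 ≤ G z`
  have k1 : (g0 : ℤ) * g1 ≤ G * z := by
    have hl : (Nat.lcm g0 g1 : ℤ) ∣ z := by
      have q0 : g0 ∣ z.natAbs := Int.natCast_dvd.1 d0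
      have q1 : g1 ∣ z.natAbs := Int.natCast_dvd.1 d1
      exact Int.natCast_dvd.2 (Nat.lcm_dvd q0 q1)
    have hl' : (Nat.lcm g0 g1 : ℤ) ≤ z := Int.le_of_dvd (by linarith) hl
    have e : G * Nat.lcm g0 g1 = g0 * g1 := Nat.gcd_mul_lcm g0 g1
    have e' : (g0 : ℤ) * g1 = G * Nat.lcm g0 g1 := by exact_mod_cast e.symm
    rw [e']
    exact mul_le_mul_of_nonneg_left hl' (by positivity)
  refine ⟨G, by exact_mod_cast pG, e0.trans d0, e0.trans d0', ?_, ?_, h2⟩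
  · have q := dvd_sub (e1.trans d1') (e0.trans d0')
    rwa [add_sub_cancel_left] at q
  · -- `(c z)² ≤ g0 g1 J^36 ≤ G z J^36`
    have hcz : 0 < c * z := by positivity
    have k2 : (c * z) * (c * z) ≤ (g0 * (J : ℤ) ^ 18) * (g1 * (J : ℤ) ^ 18) :=
      mul_le_mul h1 h3 hcz.le (by positivity)
    have e2 : (g0 * (J : ℤ) ^ 18) * (g1 * (J : ℤ) ^ 18) = (g0 * g1 : ℤ) * (J : ℤ) ^ 36 := by ring
    have k3 : (g0 * g1 : ℤ) * (J : ℤ) ^ 36 ≤ G * z * (J : ℤ) ^ 36 :=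
      mul_le_mul_of_nonneg_right k1 (by positivity)
    have k4 : G * z * (J : ℤ) ^ 36 ≤ (c * z) * (G * (J : ℤ) ^ 36) := by
      have : z * (G * (J : ℤ) ^ 36) ≤ (c * z) * (G * (J : ℤ) ^ 36) :=
        mul_le_mul_of_nonneg_right (le_mul_of_one_le_left (by linarith) (by omega))
          (by positivity)
      calc _ = z * (G * (J : ℤ) ^ 36) := by ring
        _ ≤ _ := this
    have k5 : (c * z) * (c * z) ≤ (c * z) * (G * (J : ℤ) ^ 36) := by linarith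
    exact le_of_mul_le_mul_left k5 hcz

end Pool.Agent.H4G.Six
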