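import Pool.Agent.H4G.Six.NR.Both

/-!
# D2, helper11's section (1.5): in the near-Prym case the displacement of a companion is tiny

`L = ⟨l, p⟩`, `M = ⟨m, p'⟩`, `u × p = u × p' = 0`, `b = u × l`, `b' = u × m`, `a = p × l`,
`a' = p' × m`, and `y (p × m) = x (p' × l)` (exact commensurability). If every primitive vector of
`M` of level `< a'` has a companion in `L`, then a companion `l₁` of a vector `m₁` of level `b'`
has `|l₁ × m₁| N ≤ K b b'`.
-/

set_option autoImplicit false

namespace Pool.Agent.H4G.Six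

open Pool.Agent.H4G

namespace NRB

variable {u l p m p' l1 m1 : Z2} {a a' b b' H i x y g : ℤ}

/-- a companion of `mm` in `L = ⟨l, p⟩`: a primitive vector of small positive level, almost
parallel to `mm` -/
def Comp (u l p : Z2) (a H : ℤ) (mm w : Z2) : Prop :=
  Prim l p a w ∧ 0 < cr u w ∧ cr u w ≤ H * cr u mm ∧ |cr w mm| ≤ H * cr u mm

/-- `g w + c p` is primitive if `w` has level `i b`, `g` is prime to `i` and to `c` -/
theorem Prim.lift (hb : 0 < b) (ha : 0 < a) (hul : cr u l = b) (hup : cr u p = 0)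
    (hpl : cr p l = a) (hw : Prim l p a l1) (hi : cr u l1 = i * b) {c : ℤ} (hgi : IsCoprime g i)
    (hgc : IsCoprime g c) (hic : i ∣ c) : Prim l p a (g • l1 + c • p) := by
  obtain ⟨r, s, hrs⟩ := mem_lat_coords hw.mem
  -- `l1 = i l + s p`
  have hr : r = i := by
    have h1 : cr u l1 = r * b := by
      rw [hrs, cr_zz_right, hul, hup]; ring
    have h2 : (r - i) * b = 0 := by linarith
    rcases mul_eq_zero.1 h2 with h3 | h3
    · linarith
    · exact absurd h3 hb.ne'
  -- `i`, `s` coprime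
  have his : IsCoprime i s := by
    obtain ⟨p1, h1, h2⟩ := hw
    obtain ⟨r', s', hrs'⟩ := mem_lat_coords (show p1 ∈ lat l p by
      rw [← h1]; exact AddSubgroup.subset_closure (by simp))
    have h3 : cr p1 l1 = (s' * i - r' * s) * a := by
      rw [hrs', hrs, hr, ← hpl]
      simp only [cr, Prod.fst_add, Prod.snd_add, Prod.smul_fst, Prod.smul_snd, smul_eq_mul]
      ring
    have h4 : (s' * i - r' * s - 1) * a = 0 := by linarith
    rcases mul_eq_zero.1 h4 with h5 | h5
    · exact ⟨s', -r', by linarith⟩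
    · exact absurd h5 ha.ne'
  obtain ⟨t, ht⟩ := hic
  -- coprimality of the new coordinates
  have hco : IsCoprime (g * i) (g * s + c) := by
    refine IsCoprime.mul_left ?_ ?_
    · have : IsCoprime g (c + g * s) := (IsCoprime.add_mul_left_right_iff).2 hgc
      rwa [add_comm] at this
    · rw [ht]
      have h1 : IsCoprime i (g * s) := IsCoprime.mul_right hgi.symm his
      exact (IsCoprime.add_mul_left_right_iff).2 h1
  have e : g • l1 + c • p = (g * i) • l + (g * s + c) • p := by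
    rw [hrs, hr]; module
  rw [e]
  obtain ⟨α, β, hαβ⟩ := hco
  refine ⟨(-β) • l + α • p, ?_, ?_⟩
  · refine closure_pair_eq (α := g * i) (β := g * s + c) (γ := -β) (δ := α) rfl rfl ?_
    left
    linear_combination hαβ
  · have : cr ((-β) • l + α • p) ((g * i) • l + (g * s + c) • p) =
        (α * (g * i) + β * (g * s + c)) * cr p l := by
      simp only [cr, Prod.fst_add, Prod.snd_add, Prod.smul_fst, Prod.smul_snd, smul_eq_mul]
      ring
    rw [this, hαβ, hpl, one_mul]

/-- the companion step at the height `g` -/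
theorem comp_step (hb : 0 < b) (hb' : 0 < b') (ha : 0 < a) (ha' : 0 < a') (hul : cr u l = b)
    (hup : cr u p = 0) (hpl : cr p l = a) (hum : cr u m = b') (hup' : cr u p' = 0)
    (hpm : cr p' m = a') (hH : 0 < H)
    (hC : ∀ mm, Prim m p' a' mm → 0 < cr u mm → cr u mm < a' → ∃ w, Comp u l p a H mm w)
    (hx : 0 < x) (hy : 0 < y) (hxy : y * cr p m = x * cr p' l)
    (hm1 : Prim m p' a' m1) (hmb : cr u m1 = b') (hl1 : Prim l p a l1) (hi0 : 0 < i)
    (hi : cr u l1 = i * b) (hib : i * b ≤ H * b') (hg0 : 0 < g) (hg : IsCoprime g (i * x * y))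
    (h1 : g * b' < a') (h2 : H * g ^ 2 * |cr l1 m1| + H ^ 2 * g * b' < a) :
    g * |cr l1 m1| ≤ H * b' := by
  have hgi : IsCoprime g i := (IsCoprime.of_mul_right_left (IsCoprime.of_mul_right_left hg))
  have hgx : IsCoprime g x := (IsCoprime.of_mul_right_right (IsCoprime.of_mul_right_left hg))
  have hgy : IsCoprime g y := IsCoprime.of_mul_right_right hg
  have hpp : cr p p' = 0 := by
    have e1 : cr u l * cr p p' = cr u p * cr l p' - cr u p' * cr l p := by
      simp only [cr]; ring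
    have e : cr u l * cr p p' = 0 := by
      rw [e1, hup, hup']; ring
    rw [hul] at e
    exact (mul_eq_zero.1 e).resolve_left hb.ne'
  obtain ⟨lg, hlg⟩ : ∃ lg, lg = g • l1 + (i * y) • p := ⟨_, rfl⟩
  obtain ⟨mg, hmg⟩ : ∃ mg, mg = g • m1 + x • p' := ⟨_, rfl⟩
  have Pl : Prim l p a lg := by
    rw [hlg]
    exact hl1.lift hb ha hul hup hpl hi hgi (IsCoprime.mul_right hgi hgy) ⟨y, rfl⟩
  have Pm : Prim m p' a' mg := by
    rw [hmg]
    exact hm1.lift hb' ha' hum hup' hpm (i := 1) (by rw [hmb, one_mul])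
      isCoprime_one_right hgx (one_dvd _)
  have ulg : cr u lg = g * (i * b) := by
    rw [hlg, cr_zz_right, hi, hup]; ring
  have umg : cr u mg = g * b' := by
    rw [hmg, cr_zz_right, hmb, hup']; ring
  -- the product
  have cpm : cr p m1 * b' = cr p m * b' := by
    have e1 := cr_plucker u p m m1
    have e2 := cr_plucker u p m1 m
    rw [hup, zero_mul, hum, hmb] at e1
    linarith
  have cpm' : cr p m1 = cr p m := mul_right_cancel₀ hb'.ne' cpm
  have cpl : cr p' l1 = i * cr p' l := by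
    have e1 := cr_plucker u p' l l1
    rw [hup', zero_mul, hul, hi] at e1
    have : b * cr p' l1 = b * (i * cr p' l) := by linarith
    exact mul_left_cancel₀ hb.ne' this
  have prod : cr lg mg = g ^ 2 * cr l1 m1 := by
    have e1 : cr lg mg = g ^ 2 * cr l1 m1 - g * x * cr p' l1 + (i * y) * g * cr p m1 +
        i * y * x * cr p p' := by
      rw [hlg, hmg]
      simp only [cr, Prod.fst_add, Prod.snd_add, Prod.smul_fst, Prod.smul_snd, smul_eq_mul]
      ring
    rw [e1, hpp, cpm', cpl]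
    linear_combination g * i * hxy
  have mg0 : 0 < cr u mg := by rw [umg]; positivity
  obtain ⟨w, w1, w2, w3, w4⟩ := hC mg Pm mg0 (by rw [umg]; exact h1)
  rw [umg] at w3 w4
  -- `w` is parallel to `lg`
  have key := cr_bound (u := u) (m := mg) (e := w) (e' := lg) mg0
    (F := H * (g * b')) (F' := g * (i * b)) (t := H * (g * b')) (t' := g ^ 2 * |cr l1 m1|)
    (by rw [abs_of_pos w2]; exact w3)
    (by rw [ulg, abs_of_nonneg (by positivity)]) w4
    (by rw [prod, abs_mul, abs_of_nonneg (by positivity : (0:ℤ) ≤ g ^ 2)])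
  rw [umg] at key
  obtain ⟨k, hk⟩ := cr_mem hpl w1.mem Pl.mem
  have lt : |cr w lg| < a := by
    have e1 : g * b' * |cr w lg| ≤ g * b' * (H * g ^ 2 * |cr l1 m1| + H ^ 2 * g * b') := by
      refine key.trans ?_
      have e2 : g * (i * b) * (H * (g * b')) ≤ g * (H * b') * (H * (g * b')) := by
        apply mul_le_mul_of_nonneg_right _ (by positivity)
        exact mul_le_mul_of_nonneg_left hib hg0.le
      have e3 : g * b' * (H * g ^ 2 * |cr l1 m1| + H ^ 2 * g * b') =
          H * (g * b') * (g ^ 2 * |cr l1 m1|) + g * (H * b') * (H * (g * b')) := by ring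
      rw [e3]
      linarith
    exact (le_of_mul_le_mul_left e1 (by positivity)).trans_lt h2
  have k0 : k = 0 := by
    rw [hk, abs_mul, abs_of_pos ha] at lt
    by_contra hk0
    have h3 : 1 ≤ |k| := Int.one_le_abs hk0
    have := mul_le_mul_of_nonneg_right h3 ha.le
    linarith
  have hwl : w = lg := w1.eq ha Pl (by rw [hk, k0, zero_mul]) w2 (by rw [ulg]; positivity)
  rw [hwl, prod, abs_mul, abs_of_nonneg (by positivity : (0:ℤ) ≤ g ^ 2)] at w4
  have : g * (g * |cr l1 m1|) ≤ g * (H * b') := by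
    calc g * (g * |cr l1 m1|) = g ^ 2 * |cr l1 m1| := by ring
      _ ≤ H * (g * b') := w4
      _ = g * (H * b') := by ring
  exact le_of_mul_le_mul_left this hg0

/-- **(1.5)**: the displacement is tiny. -/
theorem comp_small {J : ℤ} (hb : 0 < b) (hb' : 0 < b') (ha : 0 < a) (ha' : 0 < a')
    (hul : cr u l = b)
    (hup : cr u p = 0) (hpl : cr p l = a) (hum : cr u m = b') (hup' : cr u p' = 0)
    (hpm : cr p' m = a') (hH : 0 < H)
    (hC : ∀ mm, Prim m p' a' mm → 0 < cr u mm → cr u mm < a' → ∃ w, Comp u l p a H mm w)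
    (hx : 0 < x) (hy : 0 < y) (hxy : y * cr p m = x * cr p' l)
    (hm1 : Prim m p' a' m1) (hmb : cr u m1 = b') (hl1 : Prim l p a l1) (hi0 : 0 < i)
    (hi : cr u l1 = i * b) (hib : i * b ≤ H * b') (hr : |cr l1 m1| ≤ H * b')
    (haa : a ≤ H ^ 2 * (J + 2) * a') (hJ : 0 < J)
    (hcap : ∀ c : ℤ, ∃ t, c ≤ t ∧ t < c + J ∧ IsCoprime (i * x * y) t) :
    a * |cr l1 m1| ≤ H ^ 3 * (J + 1) * (J + 2) * b' ^ 2 := by
  rcases eq_or_ne (cr l1 m1) 0 with h0 | h0
  · rw [h0, abs_zero, mul_zero]; positivity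
  have hρ : 0 < |cr l1 m1| := abs_pos.2 h0
  classical
  -- the least `g` prime to `i x y` with `g |ρ| > H b'`
  have hex : ∃ g : ℕ, IsCoprime (i * x * y) (g : ℤ) ∧ H * b' < g * |cr l1 m1| := by
    obtain ⟨t, t1, -, t2⟩ := hcap (H * b' + 1)
    have t0 : 0 ≤ t := by
      have : 0 < H * b' := by positivity
      linarith
    refine ⟨t.toNat, by rw [Int.toNat_of_nonneg t0]; exact t2, ?_⟩
    rw [Int.toNat_of_nonneg t0]
    have h1 : 1 ≤ |cr l1 m1| := hρ
    have : t * 1 ≤ t * |cr l1 m1| := mul_le_mul_of_nonneg_left h1 t0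
    linarith
  obtain ⟨g, hg⟩ : ∃ g : ℕ, g = Nat.find hex := ⟨_, rfl⟩
  have g1 : IsCoprime (i * x * y) (g : ℤ) := by rw [hg]; exact (Nat.find_spec hex).1
  have g2 : H * b' < g * |cr l1 m1| := by rw [hg]; exact (Nat.find_spec hex).2
  have gmin : ∀ t : ℤ, 0 ≤ t → t < g → IsCoprime (i * x * y) t → t * |cr l1 m1| ≤ H * b' := by
    intro t t0 tg tc
    by_contra hcon
    push Not at hcon
    have h1 : t.toNat < Nat.find hex := by
      rw [← hg]
      have : (t.toNat : ℤ) < g := by rw [Int.toNat_of_nonneg t0]; exact tg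
      exact_mod_cast this
    exact Nat.find_min hex h1 ⟨by rw [Int.toNat_of_nonneg t0]; exact tc,
      by rw [Int.toNat_of_nonneg t0]; exact hcon⟩
  have gpos : (0 : ℤ) < g := by
    by_contra hcon
    push Not at hcon
    have h1 : (g : ℤ) * |cr l1 m1| ≤ 0 := mul_nonpos_of_nonpos_of_nonneg hcon hρ.le
    have : 0 < H * b' := by positivity
    linarith
  -- a previous one
  obtain ⟨t, t1, t2, t3, t4⟩ : ∃ t : ℤ, 1 ≤ t ∧ t < g ∧ g ≤ t + J ∧ IsCoprime (i * x * y) t := by
    rcases le_or_gt (g : ℤ) (J + 1) with h | h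
    · refine ⟨1, le_refl _, ?_, by linarith, isCoprime_one_right⟩
      by_contra hcon
      have : (g : ℤ) = 1 := by omega
      rw [this, one_mul] at g2
      linarith
    · obtain ⟨t, t1, t2, t3⟩ := hcap (g - J)
      exact ⟨t, by linarith, by linarith, by linarith, t3⟩
  have hprev := gmin t (by linarith) t2 t4
  -- `g |ρ| ≤ (J + 1) H b'`
  have hgr : g * |cr l1 m1| ≤ (J + 1) * (H * b') := by
    have e1 : (g : ℤ) * |cr l1 m1| ≤ (t + J) * |cr l1 m1| :=
      mul_le_mul_of_nonneg_right t3 hρ.le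
    have e2 : J * |cr l1 m1| ≤ J * (H * b') := mul_le_mul_of_nonneg_left hr hJ.le
    have e3 : (t + J) * |cr l1 m1| = t * |cr l1 m1| + J * |cr l1 m1| := by ring
    linarith
  have hg3 : H * (g : ℤ) ^ 2 * |cr l1 m1| + H ^ 2 * g * b' ≤ H ^ 2 * (J + 2) * (g * b') := by
    have e1 : H * (g : ℤ) ^ 2 * |cr l1 m1| = H * g * (g * |cr l1 m1|) := by ring
    have e2 : H * g * (g * |cr l1 m1|) ≤ H * g * ((J + 1) * (H * b')) :=
      mul_le_mul_of_nonneg_left hgr (by positivity)
    have e3 : H ^ 2 * (J + 2) * (g * b') = H * g * ((J + 1) * (H * b')) + H ^ 2 * g * b' := by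
      ring
    linarith
  -- so `a ≤ H² (J + 2) g b'`
  have hga : a ≤ H ^ 2 * (J + 2) * (g * b') := by
    by_contra hcon
    push Not at hcon
    have h1 : (g : ℤ) * b' < a' := by
      have : H ^ 2 * (J + 2) * (g * b') < H ^ 2 * (J + 2) * a' := by linarith
      exact lt_of_mul_lt_mul_left this (by positivity)
    have := comp_step hb hb' ha ha' hul hup hpl hum hup' hpm hH hC hx hy hxy hm1 hmb hl1 hi0 hi
      hib gpos g1.symm h1 (lt_of_le_of_lt hg3 hcon)
    linarith
  calc a * |cr l1 m1| ≤ H ^ 2 * (J + 2) * (g * b') * |cr l1 m1| :=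
        mul_le_mul_of_nonneg_right hga hρ.le
    _ = H ^ 2 * (J + 2) * b' * (g * |cr l1 m1|) := by ring
    _ ≤ H ^ 2 * (J + 2) * b' * ((J + 1) * (H * b')) :=
        mul_le_mul_of_nonneg_left hgr (by positivity)
    _ = H ^ 3 * (J + 1) * (J + 2) * b' ^ 2 := by ring

end NRB

end Pool.Agent.H4G.Six
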