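import Pool.Agent.H4G.Six.D2.RB6
import Pool.Agent.H4G.Six.D2.E0full69
import Pool.Agent.H4G.Six.D2.E1full14

/-!
# D2, the steps A (RB + escape), B (E0), D (E1) (helper6)

`DSL O N D u v l q m s`: a tree with `A, b, b' ≤ N / D`.
`BlkDS O N D R u v e p e' p' b a b' a' T K`: level vectors of a tree with `A, b, b' ≤ N / D`,
`a ≥ N / R`, such that `⟨e, p⟩` is rich over `T` consecutive slits `e' + k p'`.
-/

set_option autoImplicit false

namespace Pool.Agent.H4G.Six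

open Pool.Agent.H4G

variable {X : Type} {O : PO X} {N : ℤ} {u v l q m s e p e' p' : Z2} {b a b' a' K T H D D' R : ℤ}

/-- a tree with `A, b, b' ≤ N / D` -/
structure DSL (O : PO X) (N D : ℤ) (u v l q m s : Z2) : Prop where
  tn : TN O N u v l q m s
  hA : D * cr u v ≤ N
  hb : D * ct u l q ≤ N
  hb' : D * ct u m s ≤ N

/-- a block of rich slits at a tree with `A, b, b' ≤ N / D` and `a ≥ N / R` -/
structure BlkDS (O : PO X) (N D R : ℤ) (u v e p e' p' : Z2) (b a b' a' T K : ℤ) : Prop where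
  lv : Lv O N u v e p e' p' b a b' a'
  hA : D * cr u v ≤ N
  hb : D * b ≤ N
  hb' : D * b' ≤ N
  ha : N ≤ R * a
  blk : BlockR u e p e' p' T K

theorem DSL.mono (h : DSL O N D u v l q m s) (hD : D' ≤ D) : DSL O N D' u v l q m s := by
  obtain ⟨p1, p2, p3, p4, p5⟩ := h.tn.pos
  exact ⟨h.tn, (mul_le_mul_of_nonneg_right hD p1.le).trans h.hA,
    (mul_le_mul_of_nonneg_right hD (ct_pos p2).le).trans h.hb,
    (mul_le_mul_of_nonneg_right hD (ct_pos p3).le).trans h.hb'⟩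

theorem BlkDS.mono (h : BlkDS O N D R u v e p e' p' b a b' a' T K) (hD : D' ≤ D) :
    BlkDS O N D' R u v e p e' p' b a b' a' T K :=
  ⟨h.lv, (mul_le_mul_of_nonneg_right hD h.lv.A0.le).trans h.hA,
    (mul_le_mul_of_nonneg_right hD h.lv.c0.le).trans h.hb,
    (mul_le_mul_of_nonneg_right hD h.lv.c0'.le).trans h.hb', h.ha, h.blk⟩

/-- what the escape step has to give: near-Prym data at a tree with `A, b, b' ≤ N / D` give a tree
with `A, b, b' ≤ N / D'` and no relation; `u` primitive is kept -/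
def EscS (O : PO X) (N D D' K H R : ℤ) : Prop :=
  ∀ (u v e p e' p' : Z2) (b a b' a' x y α k0 : ℤ), Lv O N u v e p e' p' b a b' a' →
    NPd u e p e' p' x y α k0 K H → N ≤ 3 * a → a' ≤ a → a ≤ R * a' →
    D * cr u v ≤ N → D * b ≤ N → D * b' ≤ N →
    ∃ z w l q m s : Z2, DSL O N D' z w l q m s ∧
      NoRel H (cr z l + cr q l) (cr z m + cr s m) (ct z l q) (ct z m s) ∧
      (IsCoprime u.1 u.2 → IsCoprime z.1 z.2)

/-- primitive vectors and the half turn -/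
theorem cop_neg_of (h : IsCoprime u.1 u.2) : IsCoprime (-u).1 (-u).2 := cop_neg_iff.2 h

/-- no relation: a block -/
theorem DSL.block (h : DSL O N D u v l q m s) (hK : 1 ≤ K) (hT : 1 ≤ T)
    (hD : 24 * T * K ^ 5 < D)
    (hR : NoRel (2 * T * K ^ 6) (cr u l + cr q l) (cr u m + cr s m) (ct u l q) (ct u m s)) :
    ∃ (z w e p e' p' : Z2) (b a b' a' : ℤ),
      BlkDS O N D (18 * T * K ^ 2) z w e p e' p' b a b' a' T K ∧
      (IsCoprime u.1 u.2 → IsCoprime z.1 z.2) := by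
  obtain ⟨e, p, e', p', hL, -, -⟩ := h.tn.lv
  have A0 := hL.A0
  have b0 := hL.c0
  have b0' := hL.c0'
  have hK5 : 1 ≤ K ^ 5 := one_le_pow₀ hK
  have hTK : 1 ≤ T * K ^ 5 := by nlinarith
  have h3 : (3 : ℤ) ≤ D := by linarith
  have hA3 : 3 * cr u v ≤ N := (mul_le_mul_of_nonneg_right h3 A0.le).trans h.hA
  have k1 : 24 * T * K ^ 5 * ct u l q < N :=
    lt_of_lt_of_le (mul_lt_mul_of_pos_right hD b0) h.hb
  have k2 : 24 * T * K ^ 5 * ct u m s < N :=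
    lt_of_lt_of_le (mul_lt_mul_of_pos_right hD b0') h.hb'
  rcases hL.rb_any_block hK hT hA3 k1 k2 hR with ⟨g1, g2⟩ | ⟨g1, g2⟩
  · exact ⟨u, v, e, p, e', p', _, _, _, _, ⟨hL, h.hA, h.hb, h.hb', g1, g2⟩, id⟩
  · refine ⟨-u, -v, -e', -p', -e, -p, _, _, _, _, ⟨hL.half, ?_, h.hb', h.hb, g1,
      BlockR.half_iff.2 g2⟩, cop_neg_of⟩
    rw [cr_neg_neg]; exact h.hA

/-- **STEP A**: a tree with `A, b, b' ≤ N / D` gives a block of rich slits. -/
theorem DSL.stepA (h : DSL O N D u v l q m s) (hK : 1 ≤ K) (hT : 1 ≤ T)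
    (hD : 24 * T * K ^ 5 < D') (hDD : D' ≤ D)
    (hE : EscS O N D D' K (2 * T * K ^ 6) (6 * T * K ^ 2)) :
    ∃ (z w e p e' p' : Z2) (b a b' a' : ℤ),
      BlkDS O N D' (18 * T * K ^ 2) z w e p e' p' b a b' a' T K ∧
      (IsCoprime u.1 u.2 → IsCoprime z.1 z.2) := by
  obtain ⟨e, p, e', p', hL, -, -⟩ := h.tn.lv
  have A0 := hL.A0
  have b0 := hL.c0
  have b0' := hL.c0'
  have hK5 : 1 ≤ K ^ 5 := one_le_pow₀ hK
  have hTK : 1 ≤ T * K ^ 5 := by nlinarith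
  have h3 : (3 : ℤ) ≤ D := by linarith
  have hA3 : 3 * cr u v ≤ N := (mul_le_mul_of_nonneg_right h3 A0.le).trans h.hA
  have hD2 : 24 * T * K ^ 5 < D := by linarith
  have k1 : 24 * T * K ^ 5 * ct u l q < N :=
    lt_of_lt_of_le (mul_lt_mul_of_pos_right hD2 b0) h.hb
  have k2 : 24 * T * K ^ 5 * ct u m s < N :=
    lt_of_lt_of_le (mul_lt_mul_of_pos_right hD2 b0') h.hb'
  rcases hL.rb_any hK hT hA3 k1 k2 with ⟨g1, g2⟩ | ⟨g1, g2⟩ |
    ⟨g1, g2, g3, k, x, y, α, k0, -, -, g4, g5⟩ | ⟨g1, g2, g3, k, x, y, α, k0, -, -, g4, g5⟩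
  · exact ⟨u, v, e, p, e', p', _, _, _, _, BlkDS.mono ⟨hL, h.hA, h.hb, h.hb', g1, g2⟩ hDD, id⟩
  · refine ⟨-u, -v, -e', -p', -e, -p, _, _, _, _, BlkDS.mono ⟨hL.half, ?_, h.hb', h.hb, g1,
      BlockR.half_iff.2 g2⟩ hDD, cop_neg_of⟩
    rw [cr_neg_neg]; exact h.hA
  · obtain ⟨z, w, l1, q1, m1, s1, j1, j2, j3⟩ := hE _ _ _ _ _ _ _ _ _ _ _ _ _ _ g4 g5 g1 g2 g3
      h.hA h.hb h.hb'
    obtain ⟨z', w', f, r, f', r', c, d, c', d', i1, i2⟩ := j1.block hK hT hD j2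
    exact ⟨z', w', f, r, f', r', c, d, c', d', i1, fun hu => i2 (j3 hu)⟩
  · obtain ⟨z, w, l1, q1, m1, s1, j1, j2, j3⟩ := hE _ _ _ _ _ _ _ _ _ _ _ _ _ _ g4 g5 g1 g2 g3
      (by rw [cr_neg_neg]; exact h.hA) h.hb' h.hb
    obtain ⟨z', w', f, r, f', r', c, d, c', d', i1, i2⟩ := j1.block hK hT hD j2
    exact ⟨z', w', f, r, f', r', c, d, c', d', i1, fun hu => i2 (j3 (cop_neg_of hu))⟩

end Pool.Agent.H4G.Six
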