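import Pool.Agent.H4G.Six.Can.Sv
import Pool.Agent.H4G.Six.NR.T12

/-!
# The strip exit (helper27)

`strip_exit`: a tree `(u, v; l, q, m, s)` with `u × m = e d`, `v × m = e V`, `gcd(V, d) = 1`,
`d ≥ 4 J` and `|l × m|` small against `u × l / (A + u × m)` has a centre over the same handles with
both contents `1`, as soon as no prime divides one of the two contents for all vectors of the
lattice `⟨u, v + l + m⟩` and there is one vector which is good for both at the prime `2`. (Every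
class modulo `2` of the lattice occurs among the centres used.)
-/

set_option autoImplicit false

namespace Pool.Agent.H4G.Six

open Pool.Agent.H4G

/-- the sieve of the strip: two windows of length `2 J`, prescribed parities, at most two linear
conditions at every odd prime -/
theorem strip_core {J X : ℕ} (hcap : Cap J X) {R M ν0 : ℤ} (hR : 0 < R) (hν0 : 0 < ν0)
    (hM : ν0 + 2 * J ≤ M) (hX : R * M ≤ X) (a2 b2 : ℤ) (h2 : ¬ ((2 : ℤ) ∣ a2 ∧ (2 : ℤ) ∣ b2))
    (f0 f1 g0 g1 : ℕ → ℤ)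
    (hf : ∀ p : ℕ, p.Prime → p ≠ 2 → (p : ℤ) ∣ R → ¬ ((p : ℤ) ∣ f0 p ∧ (p : ℤ) ∣ f1 p))
    (hg : ∀ p : ℕ, p.Prime → p ≠ 2 → (p : ℤ) ∣ R → ¬ ((p : ℤ) ∣ g0 p ∧ (p : ℤ) ∣ g1 p)) :
    ∃ ν : ℤ, ν0 ≤ ν ∧ ν < ν0 + 2 * J ∧ (2 : ℤ) ∣ ν - a2 ∧ ∀ n0 : ℤ, ∃ n : ℤ, n0 ≤ n ∧
      n < n0 + 2 * J ∧ (2 : ℤ) ∣ n - b2 ∧ IsCoprime ν n ∧
      ∀ p : ℕ, p.Prime → p ≠ 2 → (p : ℤ) ∣ R →
        ¬ (p : ℤ) ∣ ν * f0 p + n * f1 p ∧ ¬ (p : ℤ) ∣ ν * g0 p + n * g1 p := by
  classical
  have hM1 : 1 ≤ M := by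
    have : (0 : ℤ) ≤ J := Int.natCast_nonneg _
    linarith
  have hRX : R ≤ (X : ℤ) := by nlinarith
  have hp2 : ∀ p : ℕ, p.Prime → (p : ℤ) ∣ 2 → p = 2 := by
    intro p hp h
    rcases two_or_odd hp with h1 | ⟨_, h1⟩
    · exact h1
    · exact absurd h h1
  -- first sieve
  obtain ⟨ν, k1, k2, k3, k4⟩ := sieveCls hcap (D := R.natAbs) (by omega) (by omega)
    (k := 1) (e := 1) (by norm_num) (fun p _ => if p = 2 then 0 else 1)
    (fun p _ => if p = 2 then 1 else 0) (m := 2) (by norm_num) a2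
    (fun p hp _ hpm => by
      refine Or.inr ⟨1, fun _ => ?_⟩
      have : p ≠ 2 := fun h => hpm (by rw [h]; norm_num)
      simp only [this, if_false]
      simpa using prime_not_dvd_one hp)
    (fun p hp _ hpm _ => by
      have : p = 2 := hp2 p hp hpm
      simp only [this, if_true]
      norm_num) ν0
  have k4' : ∀ p : ℕ, p.Prime → p ≠ 2 → (p : ℤ) ∣ R → ¬ (p : ℤ) ∣ ν := by
    intro p hp hp2' hpR
    have h3 := k4 p hp (Int.natCast_dvd.1 hpR) 0
    simp only [hp2', if_false] at h3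
    simpa using h3
  have hν : 0 < ν := lt_of_lt_of_le hν0 k1
  have hνM : ν ≤ M := by
    have : ν < ν0 + 2 * (J : ℤ) ^ 1 := k2
    rw [pow_one] at this
    linarith
  refine ⟨ν, k1, by simpa using k2, k3, fun n0 => ?_⟩
  -- second sieve
  have hD : 0 < R * ν := mul_pos hR hν
  have hDX : R * ν ≤ (X : ℤ) := (mul_le_mul_of_nonneg_left hνM hR.le).trans hX
  obtain ⟨n, j1, j2, j3, j4⟩ := sieveCls hcap (D := (R * ν).natAbs) (by omega) (by omega)
    (k := 2) (e := 1) (by norm_num)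
    (fun p i => if p = 2 then 0 else if (p : ℤ) ∣ ν then (if i = 0 then 1 else 0)
      else (if i = 0 then f1 p else g1 p))
    (fun p i => if p = 2 then 1 else if (p : ℤ) ∣ ν then (if i = 0 then 0 else 1)
      else (if i = 0 then ν * f0 p else ν * g0 p)) (m := 2) (by norm_num) b2
    (fun p hp hpD hpm => by
      left
      have hp2' : p ≠ 2 := fun h => hpm (by rw [h]; norm_num)
      have hp3 : 2 < p := lt_of_le_of_ne hp.two_le (Ne.symm hp2')
      refine ⟨hp3, fun i => ?_⟩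
      have hpp := Nat.prime_iff_prime_int.1 hp
      simp only [hp2', if_false]
      by_cases hpν : (p : ℤ) ∣ ν
      · simp only [hpν, if_true]
        by_cases hi : i = 0
        · simp only [hi, if_true]
          intro h
          exact absurd h (prime_not_dvd_one hp)
        · simp only [hi, if_false]
          intro _
          exact prime_not_dvd_one hp
      · have hpR : (p : ℤ) ∣ R := (hpp.dvd_or_dvd (Int.natCast_dvd.2 hpD)).resolve_right hpν
        simp only [hpν, if_false]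
        by_cases hi : i = 0
        · simp only [hi, if_true]
          intro h h'
          exact hf p hp hp2' hpR ⟨(hpp.dvd_or_dvd h').resolve_left hpν, h⟩
        · simp only [hi, if_false]
          intro h h'
          exact hg p hp hp2' hpR ⟨(hpp.dvd_or_dvd h').resolve_left hpν, h⟩)
    (fun p hp _ hpm _ => by
      have : p = 2 := hp2 p hp hpm
      simp only [this, if_true]
      norm_num) n0
  have hcop : IsCoprime ν n := by
    refine isCoprime_of_prime fun p hp h2' h1 => ?_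
    by_cases hp2' : p = 2
    · subst hp2'
      have e1 : (2 : ℤ) ∣ a2 := by
        have : (2 : ℤ) ∣ ν - (ν - a2) := dvd_sub (by exact_mod_cast h1) k3
        simpa using this
      have e2 : (2 : ℤ) ∣ b2 := by
        have : (2 : ℤ) ∣ n - (n - b2) := dvd_sub (by exact_mod_cast h2') j3
        simpa using this
      exact h2 ⟨e1, e2⟩
    · have h3 := j4 p hp (Int.natCast_dvd.1 (h1.mul_left R)) 0
      simp only [hp2', if_false, h1, if_true] at h3
      apply h3
      simpa using h2'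
  refine ⟨n, j1, by simpa using j2, j3, hcop, fun p hp hp2' hpR => ?_⟩
  have hpν : ¬ (p : ℤ) ∣ ν := k4' p hp hp2' hpR
  have hpD : p ∣ (R * ν).natAbs := Int.natCast_dvd.1 (hpR.mul_right ν)
  have h3 := j4 p hp hpD 0
  have h4 := j4 p hp hpD 1
  simp only [hp2', if_false, hpν, if_true] at h3 h4
  norm_num at h4
  constructor
  · intro h; apply h3; convert h using 1; ring
  · intro h; apply h4; convert h using 1; ring

variable {X : Type} {O : PO X} {N : ℤ} {J Z : ℕ} {u v l q m s : Z2}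

/-- one side of the strip: no prime divides the content -/
theorem ct_one_of {z l q : Z2} (h : ∀ p : ℕ, p.Prime → ¬ ((p : ℤ) ∣ cr z l ∧ (p : ℤ) ∣ cr z q)) :
    ct z l q = 1 := by
  have h1 : IsCoprime (cr z l) (cr z q) := isCoprime_of_prime fun p hp h2 h1 => h p hp ⟨h1, h2⟩
  unfold ct
  rw [Int.isCoprime_iff_gcd_eq_one] at h1
  rw [h1]
  rfl

/-- **THE STRIP EXIT** -/
theorem strip_exit (hB : Bg N J Z) (hT : Has6 O (u, v, l, q, m, s))
    (hN : vol6 (u, v, l, q, m, s) = N) {e d V : ℤ} (he : 0 < e) (hm : cr u m = e * d)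
    (hv : cr v m = e * V) (hVd : IsCoprime V d) (hd : 4 * J ≤ d)
    (hroom : 2 * (2 * J + 1) * |cr l m| * (cr u v + cr u m) < cr u l * e)
    (hL : ∀ p : ℕ, p.Prime → ¬ ((p : ℤ) ∣ cr u l ∧ (p : ℤ) ∣ cr u q ∧
      (p : ℤ) ∣ cr (v + l + m) l ∧ (p : ℤ) ∣ cr (v + l + m) q))
    (hM : ∀ p : ℕ, p.Prime → ¬ ((p : ℤ) ∣ cr u m ∧ (p : ℤ) ∣ cr u s ∧
      (p : ℤ) ∣ cr (v + l + m) m ∧ (p : ℤ) ∣ cr (v + l + m) s))
    (h2 : ∃ i j : ℤ, ¬ ((2 : ℤ) ∣ cr (i • u + j • (v + l + m)) l ∧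
        (2 : ℤ) ∣ cr (i • u + j • (v + l + m)) q) ∧
      ¬ ((2 : ℤ) ∣ cr (i • u + j • (v + l + m)) m ∧
        (2 : ℤ) ∣ cr (i • u + j • (v + l + m)) s)) :
    ∃ z v' : Z2, ∃ i j : ℤ, IsCoprime i j ∧ z = i • u + j • (v + l + m) ∧
      Has6 O (z, v', l, q, m, s) ∧ vol6 (z, v', l, q, m, s) = N ∧ ct z l q = 1 ∧ ct z m s = 1 ∧
      cr z v' = cr u v + cr u l + cr u m - cr z l - cr z m ∧ cr u m ≤ 2 * cr z m := by
  obtain ⟨p1, p2, p3, p4, p5⟩ := hT.pos
  have hsum : cr u v + cr u l + cr u m + cr q l + cr s m = N := by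
    rw [← hN]; simp only [vol6]
  have hJ := hB.J20
  have hJ0 : (0 : ℤ) < J := by linarith
  -- sign
  obtain ⟨σ, hσ, hρ⟩ : ∃ σ : ℤ, (σ = 1 ∨ σ = -1) ∧ σ * cr l m = |cr l m| := by
    rcases le_total 0 (cr l m) with h | h
    · exact ⟨1, Or.inl rfl, by rw [abs_of_nonneg h]; ring⟩
    · exact ⟨-1, Or.inr rfl, by rw [abs_of_nonpos h]; ring⟩
  have hσ2 : σ * σ = 1 := by rcases hσ with h | h <;> rw [h] <;> norm_num
  obtain ⟨ρ, hρd⟩ : ∃ ρ, ρ = |cr l m| := ⟨_, rfl⟩
  have hρ0 : 0 ≤ ρ := by rw [hρd]; exact abs_nonneg _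
  rw [← hρd] at hρ hroom
  have hd0 : 0 < d := by nlinarith
  obtain ⟨β0, α0, hbez⟩ := hVd
  -- `β0 * V + α0 * d = 1`
  obtain ⟨w, hw⟩ : ∃ w, w = v + l + m := ⟨_, rfl⟩
  rw [← hw] at hL hM h2 ⊢
  obtain ⟨z0, hz0⟩ : ∃ z0 : Z2, z0 = α0 • u + β0 • w := ⟨_, rfl⟩
  obtain ⟨g, hg⟩ : ∃ g : Z2, g = (-(σ * V)) • u + (σ * d) • w := ⟨_, rfl⟩
  have hu' : u = d • z0 + (-(σ * β0)) • g := by
    rw [hz0, hg]
    ext
    · simp only [Prod.fst_add, Prod.smul_fst, smul_eq_mul]
      linear_combination (-(β0 * V * u.1) + β0 * d * w.1) * hσ2 + (-u.1) * hbez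
    · simp only [Prod.snd_add, Prod.smul_snd, smul_eq_mul]
      linear_combination (-(β0 * V * u.2) + β0 * d * w.2) * hσ2 + (-u.2) * hbez
  have hw' : w = V • z0 + (σ * α0) • g := by
    rw [hz0, hg]
    ext
    · simp only [Prod.fst_add, Prod.smul_fst, smul_eq_mul]
      linear_combination (α0 * V * u.1 - α0 * d * w.1) * hσ2 + (-w.1) * hbez
    · simp only [Prod.snd_add, Prod.smul_snd, smul_eq_mul]
      linear_combination (α0 * V * u.2 - α0 * d * w.2) * hσ2 + (-w.2) * hbez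
  have hux : ∀ x, cr u x = d * cr z0 x + -(σ * β0) * cr g x := by
    intro x
    conv_lhs => rw [hu']
    rw [cr_add_left, cr_smul_left, cr_smul_left]
  have hwx : ∀ x, cr w x = V * cr z0 x + (σ * α0) * cr g x := by
    intro x
    conv_lhs => rw [hw']
    rw [cr_add_left, cr_smul_left, cr_smul_left]
  have hW : cr u w = cr u v + cr u l + cr u m := by
    rw [hw, cr_add_right, cr_add_right]
  obtain ⟨W, hWd⟩ : ∃ W, W = cr u v + cr u l + cr u m := ⟨_, rfl⟩
  rw [← hWd] at hW ⊢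
  have hW0 : 0 < W := by rw [hWd]; linarith
  obtain ⟨i2, j2, h2L, h2M⟩ := h2
  have hy : ∀ x, cr (i2 • u + j2 • w) x = (i2 * d + j2 * V) * cr z0 x +
      (σ * (-(i2 * β0) + j2 * α0)) * cr g x := by
    intro x
    rw [cr_add_left, cr_smul_left, cr_smul_left, hux x, hwx x]
    ring
  obtain ⟨R, hR⟩ : ∃ R, R = W * cr q l * cr s m := ⟨_, rfl⟩
  have hR0 : 0 < R := by rw [hR]; positivity
  have hdN : d ≤ N := by
    have h3 : d ≤ e * d := by nlinarith
    linarith
  have hRZ : R * d ≤ (Z : ℤ) := by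
    have hN0 : 0 < N := by linarith
    have h3 : R * d ≤ (2 * N) ^ 4 := by
      have e1 : W ≤ 2 * N := by rw [hWd]; linarith
      have e2 : cr q l ≤ 2 * N := by linarith
      have e3 : cr s m ≤ 2 * N := by linarith
      have e4 : d ≤ 2 * N := by linarith
      have e5 : W * cr q l ≤ (2 * N) * (2 * N) := mul_le_mul e1 e2 p4.le (by linarith)
      have e6 : W * cr q l * cr s m ≤ (2 * N) * (2 * N) * (2 * N) :=
        mul_le_mul e5 e3 p5.le (by positivity)
      have e7 : W * cr q l * cr s m * d ≤ (2 * N) * (2 * N) * (2 * N) * (2 * N) :=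
        mul_le_mul e6 e4 hd0.le (by positivity)
      rw [hR]
      calc W * cr q l * cr s m * d ≤ (2 * N) * (2 * N) * (2 * N) * (2 * N) := e7
        _ = (2 * N) ^ 4 := by ring
    exact hB.le (by norm_num) h3
  have hform : ∀ (x y : Z2), (∀ p : ℕ, p.Prime → ¬ ((p : ℤ) ∣ cr u x ∧ (p : ℤ) ∣ cr u y ∧
      (p : ℤ) ∣ cr w x ∧ (p : ℤ) ∣ cr w y)) → ∀ p : ℕ, p.Prime →
      ¬ ((p : ℤ) ∣ (if (p : ℤ) ∣ cr u x ∧ (p : ℤ) ∣ cr w x then cr z0 y else cr z0 x) ∧
        (p : ℤ) ∣ (if (p : ℤ) ∣ cr u x ∧ (p : ℤ) ∣ cr w x then cr g y else cr g x)) := by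
    intro x y h p hp hc
    by_cases hx : (p : ℤ) ∣ cr u x ∧ (p : ℤ) ∣ cr w x
    · rw [if_pos hx, if_pos hx] at hc
      refine h p hp ⟨hx.1, ?_, hx.2, ?_⟩
      · rw [hux y]; exact dvd_add (hc.1.mul_left _) (hc.2.mul_left _)
      · rw [hwx y]; exact dvd_add (hc.1.mul_left _) (hc.2.mul_left _)
    · rw [if_neg hx, if_neg hx] at hc
      refine hx ⟨?_, ?_⟩
      · rw [hux x]; exact dvd_add (hc.1.mul_left _) (hc.2.mul_left _)
      · rw [hwx x]; exact dvd_add (hc.1.mul_left _) (hc.2.mul_left _)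
  obtain ⟨ν, k1, k2, k3, k4⟩ := strip_core (M := d) (ν0 := d - 2 * J) hB.cap hR0
    (by linarith) (by linarith) hRZ (i2 * d + j2 * V) (σ * (-(i2 * β0) + j2 * α0))
    (by
      rintro ⟨c1, c2⟩
      apply h2L
      rw [hy l, hy q]
      exact ⟨dvd_add (c1.mul_right _) (c2.mul_right _), dvd_add (c1.mul_right _) (c2.mul_right _)⟩)
    (fun p => if (p : ℤ) ∣ cr u l ∧ (p : ℤ) ∣ cr w l then cr z0 q else cr z0 l)
    (fun p => if (p : ℤ) ∣ cr u l ∧ (p : ℤ) ∣ cr w l then cr g q else cr g l)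
    (fun p => if (p : ℤ) ∣ cr u m ∧ (p : ℤ) ∣ cr w m then cr z0 s else cr z0 m)
    (fun p => if (p : ℤ) ∣ cr u m ∧ (p : ℤ) ∣ cr w m then cr g s else cr g m)
    (fun p hp _ _ => hform l q hL p hp) (fun p hp _ _ => hform m s hM p hp)
  obtain ⟨n, n1, n2, n3, n4, n5⟩ := k4 (-((σ * ν * β0 - 1) / d))
  have hν1 : d ≤ 2 * ν := by linarith
  have hν0 : 0 < ν := by linarith
  have hνd : ν ≤ d := by linarith
  -- the second coordinate
  obtain ⟨β, hβ⟩ : ∃ β, β = σ * ν * β0 + n * d := ⟨_, rfl⟩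
  have hβ1 : 1 ≤ β := by
    have e1 := Int.emod_nonneg (σ * ν * β0 - 1) hd0.ne'
    have e2 := Int.emod_add_mul_ediv (σ * ν * β0 - 1) d
    have e3 : 0 ≤ (n + (σ * ν * β0 - 1) / d) * d := mul_nonneg (by linarith) hd0.le
    rw [hβ]
    nlinarith
  have hβ2 : β ≤ (2 * J + 1) * d := by
    have e1 := Int.emod_lt_of_pos (σ * ν * β0 - 1) hd0
    have e2 := Int.emod_add_mul_ediv (σ * ν * β0 - 1) d
    have e3 : (n + (σ * ν * β0 - 1) / d) * d ≤ (2 * J) * d :=
      mul_le_mul_of_nonneg_right (by linarith) hd0.le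
    rw [hβ]
    nlinarith
  obtain ⟨j, hj⟩ : ∃ j, j = ν * β0 + n * (σ * d) := ⟨_, rfl⟩
  obtain ⟨i, hi⟩ : ∃ i, i = ν * α0 - n * (σ * V) := ⟨_, rfl⟩
  have hjβ : σ * j = β := by rw [hj, hβ]; linear_combination (n * d) * hσ2
  have hij : i * d + j * V = ν := by rw [hi, hj]; linear_combination ν * hbez
  have hcop : IsCoprime i j := by
    refine isCoprime_of_prime fun p hp c2 c1 => ?_
    have hpp := Nat.prime_iff_prime_int.1 hp
    have c3 : (p : ℤ) ∣ ν := by rw [← hij]; exact dvd_add (c1.mul_right _) (c2.mul_right _)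
    have c4 : ¬ (p : ℤ) ∣ n := fun c => prime_not_dvd_one hp (by
      obtain ⟨x, y, hxy⟩ := n4
      rw [← hxy]
      exact dvd_add (c3.mul_left _) (c.mul_left _))
    have c5 : ¬ (p : ℤ) ∣ σ := fun c => prime_not_dvd_one hp (by
      rw [← hσ2]; exact c.mul_right _)
    have c6 : (p : ℤ) ∣ n * (σ * d) := by
      have : n * (σ * d) = j - ν * β0 := by rw [hj]; ring
      rw [this]; exact dvd_sub c2 (c3.mul_right _)
    have c7 : (p : ℤ) ∣ n * (σ * V) := by
      have : n * (σ * V) = ν * α0 - i := by rw [hi]; ring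
      rw [this]; exact dvd_sub (c3.mul_right _) c1
    have c8 : (p : ℤ) ∣ d :=
      (hpp.dvd_or_dvd ((hpp.dvd_or_dvd c6).resolve_left c4)).resolve_left c5
    have c9 : (p : ℤ) ∣ V :=
      (hpp.dvd_or_dvd ((hpp.dvd_or_dvd c7).resolve_left c4)).resolve_left c5
    exact prime_not_dvd_one hp (by
      rw [← hbez]; exact dvd_add (c9.mul_left _) (c8.mul_left _))
  obtain ⟨z, hz⟩ : ∃ z : Z2, z = i • u + j • w := ⟨_, rfl⟩
  have hzx : ∀ x, cr z x = ν * cr z0 x + n * cr g x := by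
    intro x
    rw [hz, cr_add_left, cr_smul_left, cr_smul_left, hux x, hwx x, hi, hj]
    linear_combination (ν * cr z0 x) * hbez + (n * cr g x * σ * σ) * hbez + (n * cr g x) * hσ2
  -- the products
  obtain ⟨A, hA⟩ : ∃ A, A = cr u v := ⟨_, rfl⟩
  obtain ⟨F1, hF1⟩ : ∃ F1, F1 = cr u l := ⟨_, rfl⟩
  obtain ⟨lam, hlam⟩ : ∃ lam, lam = cr l m := ⟨_, rfl⟩
  have hwm : cr w m = e * V + lam := by
    rw [hw, cr_add_left, cr_add_left, cr_self, hv, hlam]; ring
  have hzm : cr z m = e * ν + β * ρ := by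
    rw [hz, cr_add_left, cr_smul_left, cr_smul_left, hm, hwm, ← hjβ, ← hρ, ← hlam, ← hij]
    linear_combination (-(j * lam)) * hσ2
  have hpl : cr u m * cr z l = F1 * (e * ν) - β * ρ * (A + cr u m) := by
    have e1 : cr u m * cr z l - cr u z * cr m l + cr u l * cr m z = 0 := by
      simp only [cr]; ring
    have e2 : cr u z = j * W := by
      rw [hz, cr_add_right, cr_smul_right, cr_smul_right, cr_self, hW]; ring
    have e3 : cr m z = -cr z m := by simp only [cr]; ring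
    have e4 : cr m l = -lam := by rw [hlam]; simp only [cr]; ring
    have e5 : j * lam = β * ρ := by
      rw [← hjβ, ← hρ, ← hlam]; linear_combination (-(j * lam)) * hσ2
    rw [e2, e3, e4, hzm, ← hF1] at e1
    rw [hWd, ← hA, ← hF1] at e1
    linear_combination e1 - (A + F1 + cr u m) * e5
  have hF2 : 0 < cr u m := p3
  have hA0 : 0 < A := by rw [hA]; exact p1
  have hF10 : 0 < F1 := by rw [hF1]; exact p2
  have hzl0 : 0 < cr z l := by
    have e1 : β * ρ * (A + cr u m) < F1 * (e * ν) := by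
      have e2 : β * (ρ * (A + cr u m)) ≤ ((2 * J + 1) * d) * (ρ * (A + cr u m)) :=
        mul_le_mul_of_nonneg_right hβ2 (mul_nonneg hρ0 (by linarith))
      have e3 : 2 * ((2 * J + 1) * ρ * (A + cr u m)) * d < F1 * e * d := by
        refine mul_lt_mul_of_pos_right ?_ hd0
        rw [← hA, ← hF1] at hroom
        linarith
      have e4 : F1 * e * d ≤ F1 * e * (2 * ν) := mul_le_mul_of_nonneg_left hν1 (by positivity)
      nlinarith
    by_contra hc
    have : cr u m * cr z l ≤ 0 := mul_nonpos_of_nonneg_of_nonpos hF2.le (not_lt.1 hc)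
    linarith
  have hβρ : 0 ≤ β * ρ := mul_nonneg (by linarith) hρ0
  have heν : 0 < e * ν := mul_pos he hν0
  have hzm0 : 0 < cr z m := by rw [hzm]; linarith
  have hlt : cr z l + cr z m < cr u v + cr u l + cr u m := by
    have e1 : cr u m * (cr z l + cr z m) < cr u m * (A + F1 + cr u m) := by
      rw [mul_add, hpl, hzm]
      have e2 : e * ν ≤ cr u m := by rw [hm]; exact mul_le_mul_of_nonneg_left hνd he.le
      have e3 : (F1 + cr u m) * (e * ν) ≤ (F1 + cr u m) * cr u m :=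
        mul_le_mul_of_nonneg_left e2 (by linarith)
      have e4 : 0 ≤ β * ρ * A := mul_nonneg hβρ hA0.le
      have e5 : 0 < cr u m * A := mul_pos hF2 hA0
      nlinarith
    rw [← hA, ← hF1]
    exact lt_of_mul_lt_mul_left e1 hF2.le
  obtain ⟨v', t1, t2, t3, t4⟩ := hT.cen_of hN hcop (z := z) (by rw [hz, hw]) hzl0 hzm0 hlt
  -- the contents
  have hside : ∀ x y : Z2, 0 < cr y x → cr y x ∣ R → (∀ p : ℕ, p.Prime → p ≠ 2 → (p : ℤ) ∣ R →
      ¬ (p : ℤ) ∣ ν * (if (p : ℤ) ∣ cr u x ∧ (p : ℤ) ∣ cr w x then cr z0 y else cr z0 x) +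
        n * (if (p : ℤ) ∣ cr u x ∧ (p : ℤ) ∣ cr w x then cr g y else cr g x)) →
      W * cr y x ∣ R →
      ¬ ((2 : ℤ) ∣ cr (i2 • u + j2 • w) x ∧ (2 : ℤ) ∣ cr (i2 • u + j2 • w) y) →
      ct z x y = 1 := by
    intro x y hyx _ hodd hdR htwo
    refine ct_one_of fun p hp hc => ?_
    have hpp := Nat.prime_iff_prime_int.1 hp
    by_cases hp2 : p = 2
    · subst hp2
      apply htwo
      have e1 : ∀ x, (2 : ℤ) ∣ cr z x → (2 : ℤ) ∣ cr (i2 • u + j2 • w) x := by
        intro x hx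
        have e2 : cr (i2 • u + j2 • w) x = cr z x - ((ν - (i2 * d + j2 * V)) * cr z0 x +
            (n - σ * (-(i2 * β0) + j2 * α0)) * cr g x) := by
          rw [hy x, hzx x]; ring
        rw [e2]
        exact dvd_sub hx (dvd_add (k3.mul_right _) (n3.mul_right _))
      exact ⟨e1 x (by exact_mod_cast hc.1), e1 y (by exact_mod_cast hc.2)⟩
    · -- `p` divides the resultant
      have hres : (p : ℤ) ∣ W * cr y x := by
        have e1 : (p : ℤ) ∣ i * (W * cr y x) := by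
          have : i * (W * cr y x) = cr z y * cr w x - cr z x * cr w y := by
            rw [hz, ← hW]; simp only [cr, Prod.fst_add, Prod.snd_add, Prod.smul_fst,
              Prod.smul_snd, smul_eq_mul]; ring
          rw [this]
          exact dvd_sub (hc.2.mul_right _) (hc.1.mul_right _)
        have e2 : (p : ℤ) ∣ j * (W * cr y x) := by
          have : j * (W * cr y x) = cr z x * cr u y - cr z y * cr u x := by
            rw [hz, ← hW]; simp only [cr, Prod.fst_add, Prod.snd_add, Prod.smul_fst,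
              Prod.smul_snd, smul_eq_mul]; ring
          rw [this]
          exact dvd_sub (hc.1.mul_right _) (hc.2.mul_right _)
        obtain ⟨x', y', hxy⟩ := hcop
        have : W * cr y x = x' * (i * (W * cr y x)) + y' * (j * (W * cr y x)) := by
          linear_combination (-(W * cr y x)) * hxy
        rw [this]
        exact dvd_add (e1.mul_left _) (e2.mul_left _)
      refine hodd p hp hp2 (hres.trans hdR) ?_
      by_cases hx : (p : ℤ) ∣ cr u x ∧ (p : ℤ) ∣ cr w x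
      · rw [if_pos hx, if_pos hx, ← hzx]; exact hc.2
      · rw [if_neg hx, if_neg hx, ← hzx]; exact hc.1
  refine ⟨z, v', i, j, hcop, hz, t1, t2, ?_, ?_, by rw [t4, hWd], ?_⟩
  · refine hside l q p4 ⟨W * cr s m, by rw [hR]; ring⟩ (fun p hp hp2 hpR => (n5 p hp hp2 hpR).1)
      ⟨cr s m, by rw [hR]⟩ h2L
  · refine hside m s p5 ⟨W * cr q l, by rw [hR]; ring⟩ (fun p hp hp2 hpR => (n5 p hp hp2 hpR).2)
      ⟨cr q l, by rw [hR]; ring⟩ h2M
  · rw [hzm, hm]
    have : e * d ≤ e * (2 * ν) := mul_le_mul_of_nonneg_left hν1 he.le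
    nlinarith

end Pool.Agent.H4G.Six
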