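import Pool.Agent.H4G.Six.D2.APc
import Pool.Agent.H4G.Six.NR.Frame
import Pool.Agent.H4G.Six.D2.NP

/-!
# D2, row 5.2 of the escape step: the tilted pair (helper74)

A near-Prym state with a large offset `κ` (`b b' < G |κ| (A + b)`). The vector `l = l(D)` of the
family of `NP.lean` is tuned, and `m* = m(D)`, with `|l × m*|` between `Δ F₁` and `Δ₁ F₁`, is replaced
by a tall vector `m = ± m₁ + s m*` with `0 < l × m ≤ |l × m*|` (`tilt74`). The line `u + t g` consists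
of centres and its speeds are not proportional to the areas. All constants are free (`Lv.tilt_ap`).
-/

set_option autoImplicit false

namespace Pool.Agent.H4G.Six

open Pool.Agent.H4G

/-- no coincidence for the progressions of `tall_centres` -/
private theorem noco74 {u v l m g : Z2} {i1 j1 a a' : ℤ} (h0 : 0 < cr u v) (h1 : 0 < cr u l)
    (ha : 0 < a) (ha' : 0 < a') (hg : g = i1 • u + j1 • (v + l + m)) (hs : j1 * cr l m < 0)
    (hd : i1 * cr u l + j1 * cr v l ≤ 0) (hr : a' * cr u l ≤ a * cr u m) :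
    a' * cr g l ≠ a * cr g m := by
  intro h
  obtain ⟨-, -, e1, -, -, e2, -, -⟩ := line_products hg 0
  have e3 : (i1 * cr u l + j1 * cr v l) * (a' * cr u l - a * cr u m) =
      (j1 * cr l m) * (a' * cr u l + a * (cr u v + cr u l)) := by
    rw [e1] at h
    linear_combination (cr u l) * h + a * e2
  have e4 : 0 ≤ (i1 * cr u l + j1 * cr v l) * (a' * cr u l - a * cr u m) :=
    mul_nonneg_of_nonpos_of_nonpos hd (by linarith)
  have e5 : (j1 * cr l m) * (a' * cr u l + a * (cr u v + cr u l)) < 0 :=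
    mul_neg_of_neg_of_pos hs (by positivity)
  linarith

/-- **TILT** (5.2): a primitive vector `ms` of `M` of small level with `|l × ms|` large against `u × l`
is replaced by a tall one with a small positive product. -/
theorem tilt74 {u v l ms es : Z2} {K i1 a a' : ℤ} (hA : 0 < cr u v) (h1 : 0 < cr u l)
    (hD : cr l ms ≠ 0) (hes : cr es ms = a') (ha' : 0 < a') (hK : 0 ≤ K)
    (h2 : 2 * (|cr u ms| * |cr l ms|) ≤ a' * cr u l)
    (h3 : 4 * K * |cr l ms| ^ 2 * (cr u v + cr u l) < a' * cr u l ^ 2)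
    (h4 : 2 * cr u l ≤ |cr l ms|) (h5 : 2 * |cr l ms| ≤ a)
    (t1 : i1 * cr u l ≤ cr v l) (t2 : 2 * K * (cr v l - i1 * cr u l) ≤ cr u l) :
    ∃ (m : Z2) (τ s : ℤ), τ * τ = 1 ∧ m = τ • es + s • ms ∧ 0 < cr u m ∧ cr u m < a' ∧
      0 < cr l m ∧ cr l m ≤ |cr l ms| ∧
      a' * cr u l ≤ 2 * |cr l ms| * cr u m ∧ 2 * |cr l ms| * cr u m ≤ 3 * (a' * cr u l) ∧
      (∀ t : ℤ, 0 ≤ t → t ≤ K →
        0 < cr (u + t • (i1 • u + (-1 : ℤ) • (v + l + m))) l ∧
        0 < cr (u + t • (i1 • u + (-1 : ℤ) • (v + l + m))) m ∧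
        cr (u + t • (i1 • u + (-1 : ℤ) • (v + l + m))) l +
          cr (u + t • (i1 • u + (-1 : ℤ) • (v + l + m))) m < cr u (v + l + m)) ∧
      a' * cr (i1 • u + (-1 : ℤ) • (v + l + m)) l ≠ a * cr (i1 • u + (-1 : ℤ) • (v + l + m)) m := by
  obtain ⟨D, hDd⟩ : ∃ D : ℤ, D = |cr l ms| := ⟨_, rfl⟩
  obtain ⟨τ, hτ, hτD⟩ : ∃ τ : ℤ, (τ = 1 ∨ τ = -1) ∧ cr l ms = τ * D := by
    rcases lt_or_gt_of_ne hD with h | h
    · exact ⟨-1, Or.inr rfl, by rw [hDd, abs_of_neg h]; ring⟩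
    · exact ⟨1, Or.inl rfl, by rw [hDd, abs_of_pos h]; ring⟩
  have hττ : τ * τ = 1 := by rcases hτ with h | h <;> rw [h] <;> norm_num
  have hD0 : 0 < D := by rw [hDd]; exact abs_pos.2 hD
  rw [← hDd] at h2 h3 h4 h5 ⊢
  -- the residue
  obtain ⟨s, r, hr1, hr2, hr3⟩ : ∃ s r : ℤ, τ * cr l es + s * cr l ms = r ∧ 0 < r ∧ r ≤ D := by
    have d1 := Int.emod_add_mul_ediv (τ * cr l es - 1) D
    have d2 := Int.emod_nonneg (τ * cr l es - 1) hD0.ne'
    have d3 := Int.emod_lt_of_pos (τ * cr l es - 1) hD0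
    refine ⟨-(τ * ((τ * cr l es - 1) / D)), (τ * cr l es - 1) % D + 1, ?_, by linarith,
      by linarith⟩
    rw [hτD]
    linear_combination (-1 : ℤ) * d1 - (((τ * cr l es - 1) / D) * D) * hττ
  obtain ⟨m, hm⟩ : ∃ m : Z2, m = τ • es + s • ms := ⟨_, rfl⟩
  have hlm : cr l m = r := by
    rw [hm, cr_add_right, cr_smul_right, cr_smul_right, hr1]
  have hmm : cr ms m = -(τ * a') := by
    rw [hm, cr_add_right, cr_smul_right, cr_smul_right, cr_self, cr_swap ms es, hes]; ring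
  -- the level
  have hF : D * cr u m = a' * cr u l + τ * (cr u ms * r) := by
    have e : cr u m * cr l ms = cr u ms * cr l m - cr u l * cr ms m := by
      simp only [cr]; ring
    rw [hlm, hmm, hτD] at e
    linear_combination τ * e - (D * cr u m) * hττ + (cr u l * a') * hττ
  have hb : |τ * (cr u ms * r)| ≤ |cr u ms| * D := by
    have e : |τ| = 1 := by rcases hτ with h | h <;> rw [h] <;> norm_num
    rw [abs_mul, e, one_mul, abs_mul, abs_of_pos hr2]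
    exact mul_le_mul_of_nonneg_left hr3 (abs_nonneg _)
  obtain ⟨hb1, hb2⟩ := abs_le.1 hb
  have hF1 : a' * cr u l ≤ 2 * D * cr u m := by nlinarith
  have hF2 : 2 * D * cr u m ≤ 3 * (a' * cr u l) := by nlinarith
  have haF : 0 < a' * cr u l := mul_pos ha' h1
  have hm0 : 0 < cr u m := by
    have : 0 < 2 * D * cr u m := by linarith
    exact (mul_pos_iff_of_pos_left (by linarith : (0 : ℤ) < 2 * D)).1 this
  have hma : cr u m < a' := by
    have e1 : 2 * D * cr u m < 2 * D * a' := by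
      have : 4 * (a' * cr u l) ≤ 2 * D * a' := by nlinarith
      linarith
    exact lt_of_mul_lt_mul_left e1 (by linarith)
  have hrat : a' * cr u l ≤ a * cr u m := by nlinarith
  -- the size condition
  have hcore : 2 * K * r * (cr u v + cr u l) < cr u l * cr u m := by
    have e1 : 4 * K * D * (D * (cr u v + cr u l)) < (2 * D * cr u m) * cr u l := by
      have : a' * cr u l ^ 2 ≤ (2 * D * cr u m) * cr u l := by nlinarith
      nlinarith
    have e2 : 2 * D * (2 * K * D * (cr u v + cr u l)) < 2 * D * (cr u l * cr u m) := by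
      nlinarith
    have e3 : 2 * K * D * (cr u v + cr u l) < cr u l * cr u m :=
      lt_of_mul_lt_mul_left e2 (by linarith)
    have e4 : 2 * K * r * (cr u v + cr u l) ≤ 2 * K * D * (cr u v + cr u l) := by
      apply mul_le_mul_of_nonneg_right _ (by linarith)
      exact mul_le_mul_of_nonneg_left hr3 (by linarith)
    linarith
  refine ⟨m, τ, s, hττ, hm, hm0, hma, by rw [hlm]; exact hr2, by rw [hlm]; exact hr3, hF1, hF2,
    ?_, ?_⟩
  · intro t ht htK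
    refine tall_centres hA h1 hm0 rfl ht htK ?_ ?_ ?_ ?_
    · rw [hlm]; linarith
    · linarith
    · linarith
    · rw [hlm]
      have : 2 * K * (-(-1 * r)) * (cr u v + cr u l) = 2 * K * r * (cr u v + cr u l) := by ring
      rw [this]; exact hcore
  · refine noco74 hA h1 (by linarith) ha' rfl ?_ ?_ hrat
    · rw [hlm]; linarith
    · linarith

/-- the level of the tilted pair -/
theorem level74 {r0 κ Δ Δ1 α b H R0 : ℤ} (hr0 : 0 < r0) (hκ0 : 0 < κ) (hΔ : 0 ≤ Δ) (hα : 0 < α)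
    (hb : 0 < b) (hH : 0 ≤ H) (hrle : r0 ≤ R0) (k1 : κ ≤ H * b)
    (hΔ1 : Δ1 = Δ + 2 * R0 ^ 2 * H) :
    ∃ β1 : ℤ, 0 < β1 ∧ IsCoprime r0 β1 ∧ Δ * α * b ≤ r0 * β1 * κ ∧
      r0 * β1 * κ ≤ Δ1 * α * b := by
  have hr1 : 1 ≤ r0 := hr0
  obtain ⟨n, hn⟩ : ∃ n : ℤ, n = (Δ * α * b) / (r0 ^ 2 * κ) := ⟨_, rfl⟩
  have hw : 0 < r0 ^ 2 * κ := by positivity
  have hn1 : 0 ≤ n := by rw [hn]; exact Int.ediv_nonneg (by positivity) hw.le
  have hn2 : r0 ^ 2 * κ * n ≤ Δ * α * b := by rw [hn]; exact Int.mul_ediv_self_le hw.ne'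
  have hn3 : Δ * α * b < r0 ^ 2 * κ * (n + 1) := by
    have := Int.lt_mul_ediv_self_add (x := Δ * α * b) hw
    rw [← hn] at this
    linarith
  have hrκ : 0 ≤ r0 * κ := by positivity
  refine ⟨1 + r0 * (n + 1), ?_, ⟨-(n + 1), 1, by ring⟩, ?_, ?_⟩
  · have : 0 ≤ r0 * (n + 1) := by positivity
    linarith
  · have e1 : r0 * (1 + r0 * (n + 1)) * κ = r0 * κ + r0 ^ 2 * κ * (n + 1) := by ring
    rw [e1]; linarith
  · have e1 : r0 * (1 + r0 * (n + 1)) * κ = r0 * κ + r0 ^ 2 * κ + r0 ^ 2 * κ * n := by ring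
    have e2 : r0 * κ ≤ r0 ^ 2 * κ := by
      have : r0 ≤ r0 ^ 2 := by nlinarith
      exact mul_le_mul_of_nonneg_right this hκ0.le
    have e3 : r0 ^ 2 ≤ R0 ^ 2 := pow_le_pow_left₀ hr0.le hrle 2
    have e4 : r0 ^ 2 * κ ≤ R0 ^ 2 * (H * b) := mul_le_mul e3 k1 hκ0.le (by positivity)
    have e5 : R0 ^ 2 * (H * b) ≤ R0 ^ 2 * (H * b) * α := by
      have : 0 ≤ R0 ^ 2 * (H * b) := by positivity
      have := mul_le_mul_of_nonneg_left (show (1 : ℤ) ≤ α from hα) this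
      linarith
    have e6 : Δ1 * α * b = Δ * α * b + 2 * (R0 ^ 2 * (H * b) * α) := by rw [hΔ1]; ring
    rw [e1, e6]
    linarith

/-- the sizes of the tilted pair -/
theorem sizes74 {A b b' a a' x α R G κ K β Δ Δ1 F1 D : ℤ} (hA : 0 < A) (hb : 0 < b)
    (hb' : 0 < b') (hκ0 : 0 < κ) (hK : 1 ≤ K) (hR : 1 ≤ R) (hG : 1 ≤ G) (hΔ : 2 ≤ Δ)
    (hΔ1 : Δ ≤ Δ1) (hx : 0 < x) (hα : 0 < α) (hβ0 : 0 < β) (f5 : 0 < F1)
    (hw2 : β * κ ≤ Δ1 * α * b) (k2 : b * b' < G * κ * (A + b)) (k3 : b ≤ R * b')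
    (f6 : F1 ≤ β * x * α * b) (hD1 : Δ * F1 ≤ D) (hD2 : D ≤ Δ1 * F1)
    (s1 : 8 * K * Δ1 ^ 3 * (x * α ^ 2) * R * G * (A + b) < a)
    (s2 : 8 * K * Δ1 ^ 3 * (x * α ^ 2) * R * G * (A + b) < a') :
    F1 ≤ (x * α ^ 2) * R * Δ1 * G * (A + b) ∧ 2 * (β * b' * D) ≤ a' * F1 ∧
      4 * K * D ^ 2 * (A + F1) < a' * F1 ^ 2 ∧ 2 * F1 ≤ D ∧ 2 * D ≤ a := by
  obtain ⟨S0, hS0⟩ : ∃ S0 : ℤ, S0 = A + b := ⟨_, rfl⟩
  have hS : 0 < S0 := by rw [hS0]; linarith
  rw [← hS0] at k2 s1 s2 ⊢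
  have hAS : A ≤ S0 := by rw [hS0]; linarith
  have hΔ0 : 0 < Δ1 := by linarith
  have hR0 : 0 < R := by linarith
  have hG0 : 0 < G := by linarith
  have hK0 : 0 < K := by linarith
  have z1 : β * b' ≤ Δ1 * α * G * S0 := by
    have e1 : κ * (β * b') ≤ κ * (Δ1 * α * G * S0) := by
      calc κ * (β * b') = (β * κ) * b' := by ring
        _ ≤ (Δ1 * α * b) * b' := mul_le_mul_of_nonneg_right hw2 hb'.le
        _ = (Δ1 * α) * (b * b') := by ring
        _ ≤ (Δ1 * α) * (G * κ * S0) := mul_le_mul_of_nonneg_left k2.le (by positivity)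
        _ = κ * (Δ1 * α * G * S0) := by ring
    exact le_of_mul_le_mul_left e1 hκ0
  have z2 : F1 ≤ (x * α ^ 2) * R * Δ1 * G * S0 := by
    calc F1 ≤ β * x * α * b := f6
      _ = (x * α) * (β * b) := by ring
      _ ≤ (x * α) * (β * (R * b')) := by
          apply mul_le_mul_of_nonneg_left _ (by positivity)
          exact mul_le_mul_of_nonneg_left k3 hβ0.le
      _ = (x * α * R) * (β * b') := by ring
      _ ≤ (x * α * R) * (Δ1 * α * G * S0) := mul_le_mul_of_nonneg_left z1 (by positivity)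
      _ = _ := by ring
  obtain ⟨Y, hY⟩ : ∃ Y : ℤ, Y = (x * α ^ 2) * R * Δ1 * G * S0 := ⟨_, rfl⟩
  rw [← hY] at z2 ⊢
  have hxα : 1 ≤ x * α ^ 2 := by
    have : 0 < x * α ^ 2 := by positivity
    linarith
  have hxα' : α ≤ x * α ^ 2 := by
    have e1 : 1 ≤ x * α := by
      have : 0 < x * α := by positivity
      linarith
    have e2 := mul_le_mul_of_nonneg_right e1 hα.le
    have e3 : x * α ^ 2 = x * α * α := by ring
    rw [e3]; linarith
  have hSY : S0 ≤ Y := by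
    have e1 : 1 ≤ (x * α ^ 2) * R := one_le_mul_of_one_le_of_one_le hxα hR
    have e2 : 1 ≤ (x * α ^ 2) * R * Δ1 := one_le_mul_of_one_le_of_one_le e1 (by linarith)
    have e3 : 1 ≤ (x * α ^ 2) * R * Δ1 * G := one_le_mul_of_one_le_of_one_le e2 hG
    have e4 := mul_le_mul_of_nonneg_right e3 hS.le
    rw [hY]
    linarith
  have hY0 : 0 < Y := by linarith
  have hbig : 8 * K * Δ1 ^ 3 * (x * α ^ 2) * R * G * S0 = 8 * (K * (Δ1 ^ 2 * Y)) := by
    rw [hY]; ring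
  rw [hbig] at s1 s2
  have z3 : Δ1 * α * G * S0 ≤ Y := by
    have e1 : α ≤ (x * α ^ 2) * R := by
      have := mul_le_mul_of_nonneg_left hR (by positivity : (0 : ℤ) ≤ x * α ^ 2)
      linarith
    have e2 : Y = ((x * α ^ 2) * R) * (Δ1 * G * S0) := by rw [hY]; ring
    have e3 : Δ1 * α * G * S0 = α * (Δ1 * G * S0) := by ring
    rw [e2, e3]
    exact mul_le_mul_of_nonneg_right e1 (by positivity)
  obtain ⟨V, hV⟩ : ∃ V : ℤ, V = Δ1 ^ 2 * Y := ⟨_, rfl⟩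
  have hV0 : 0 < V := by rw [hV]; positivity
  rw [← hV] at s1 s2
  have w1 : Δ1 * Y ≤ V := by
    have e1 := mul_le_mul_of_nonneg_right (show (1 : ℤ) ≤ Δ1 from hΔ0)
      (by positivity : (0 : ℤ) ≤ Δ1 * Y)
    have e2 : V = Δ1 * (Δ1 * Y) := by rw [hV]; ring
    rw [e2]; linarith
  have w2 : V ≤ K * V := by
    have := mul_le_mul_of_nonneg_right hK hV0.le
    linarith
  have hD0 : 0 < D := by
    have : 0 < Δ * F1 := by
      have : 0 < Δ := by linarith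
      positivity
    linarith
  refine ⟨z2, ?_, ?_, ?_, ?_⟩
  · have e1 : (β * b') * D ≤ Y * (Δ1 * F1) := mul_le_mul (z1.trans z3) hD2 hD0.le hY0.le
    have e2 : (2 * (Δ1 * Y)) * F1 ≤ a' * F1 := by
      apply mul_le_mul_of_nonneg_right _ f5.le
      linarith
    have e3 : Y * (Δ1 * F1) * 2 = (2 * (Δ1 * Y)) * F1 := by ring
    linarith
  · have e1 : D ^ 2 ≤ (Δ1 * F1) ^ 2 := pow_le_pow_left₀ hD0.le hD2 2
    have e2 : A + F1 ≤ 2 * Y := by linarith
    have e4 : 4 * K * D ^ 2 ≤ 4 * K * (Δ1 * F1) ^ 2 := mul_le_mul_of_nonneg_left e1 (by linarith)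
    have e3 : 4 * K * D ^ 2 * (A + F1) ≤ 4 * K * (Δ1 * F1) ^ 2 * (2 * Y) :=
      mul_le_mul e4 e2 (by linarith) (by positivity)
    have e5 : 4 * K * (Δ1 * F1) ^ 2 * (2 * Y) = (8 * (K * V)) * F1 ^ 2 := by rw [hV]; ring
    have e6 : (8 * (K * V)) * F1 ^ 2 < a' * F1 ^ 2 := mul_lt_mul_of_pos_right s2 (by positivity)
    linarith
  · have := mul_le_mul_of_nonneg_right hΔ f5.le
    linarith
  · have : D ≤ Δ1 * Y := hD2.trans (mul_le_mul_of_nonneg_left z2 hΔ0.le)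
    linarith

/-- the offset of the pair `l(D)`, `m(D)` relative to the level -/
theorem NP.offset {u l p m p' : Z2} {x y α k0 β κ : ℤ} (h : NP u l p m p' x y α k0) (hβ : 0 < β) :
    α * cr u l * |cr (lD l p x y α k0 β κ) (mD m p' β κ)| =
      β * |kap l p m α k0| * cr u (lD l p x y α k0 β κ) := by
  have g0 := h.g0 (κ := κ) hβ
  have f1 := h.F1 (β := β) (κ := κ)
  have f3 := h.rho (β := β) (κ := κ)
  have hx := h.x0
  have hgD : gD x y α k0 β κ * |cr (lD l p x y α k0 β κ) (mD m p' β κ)| =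
      β ^ 2 * x * |kap l p m α k0| := by
    have := congrArg abs f3
    rwa [abs_mul, abs_of_pos g0, abs_mul, abs_of_pos (by positivity : (0 : ℤ) < β ^ 2 * x)] at this
  have : gD x y α k0 β κ * (α * cr u l * |cr (lD l p x y α k0 β κ) (mD m p' β κ)|) =
      gD x y α k0 β κ * (β * |kap l p m α k0| * cr u (lD l p x y α k0 β κ)) := by
    calc _ = α * cr u l *
          (gD x y α k0 β κ * |cr (lD l p x y α k0 β κ) (mD m p' β κ)|) := by ring
      _ = β * |kap l p m α k0| * (β * x * α * cr u l) := by rw [hgD]; ring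
      _ = β * |kap l p m α k0| * (gD x y α k0 β κ * cr u (lD l p x y α k0 β κ)) := by rw [f1]
      _ = _ := by ring
  exact mul_left_cancel₀ g0.ne' this

/-- the direction of 5.2: level in the window, tuned -/
theorem NP.dir52 {J X : ℕ} (hcap : Cap J X) {u v l p m p' : Z2} {x y α k0 K H Δ Δ1 : ℤ}
    (h : NP u l p m p' x y α k0) (hA : 0 < cr u v) (hk : kap l p m α k0 ≠ 0)
    (hK : 1 ≤ K) (hH : 0 ≤ H) (hΔ : 0 ≤ Δ) (hΔ1 : Δ1 = Δ + 2 * (2 * K * J + J) ^ 2 * H)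
    (hX : α * (y * cr p v) ≤ X) (hX' : 2 * K * J + J ≤ X)
    (k1 : |kap l p m α k0| ≤ H * cr u l) :
    ∃ β κ i1 : ℤ, 0 < β ∧ IsCoprime β κ ∧ Δ * α * cr u l ≤ β * |kap l p m α k0| ∧
      β * |kap l p m α k0| ≤ Δ1 * α * cr u l ∧
      i1 * cr u (lD l p x y α k0 β κ) ≤ cr v (lD l p x y α k0 β κ) ∧
      2 * K * (cr v (lD l p x y α k0 β κ) - i1 * cr u (lD l p x y α k0 β κ)) ≤
        cr u (lD l p x y α k0 β κ) := by
  have hb := h.b0
  have ha := h.a0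
  have hx := h.x0
  have hy := h.y0
  have hα := h.α0
  have hpv : 0 < cr p v := by
    have e : cr u l * cr p v - cr u p * cr l v - cr p l * cr u v = 0 := by simp only [cr]; ring
    rw [h.up] at e
    have : 0 < cr u l * cr p v := by
      have := mul_pos ha hA
      linarith
    exact (mul_pos_iff_of_pos_left hb).1 this
  have hE0 : 0 < α * (y * cr p v) := mul_pos hα (mul_pos hy hpv)
  obtain ⟨r0, hr1, hr2, hr3⟩ := ap_cop hcap (a := 1) (b := 0) hE0.ne'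
    (by rw [abs_of_pos hE0]; exact hX) isCoprime_one_left (2 * K * J)
  rw [one_mul, add_zero] at hr3
  have hκ0 : 0 < |kap l p m α k0| := abs_pos.2 hk
  have hJ1 : (1 : ℤ) ≤ J := by linarith
  have h2KJ : (2 : ℤ) ≤ 2 * K * J := by nlinarith
  have hr0 : 0 < r0 := by linarith
  obtain ⟨β1, hβ1, hrβ, hw1, hw2⟩ := level74 hr0 hκ0 hΔ hα hb hH hr2.le k1 hΔ1
  have hβ0 : 0 < r0 * β1 := mul_pos hr0 hβ1
  have hTpos : 0 < (r0 * β1) * x * α * cr u l := by positivity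
  obtain ⟨i, a1, c1, c2, c3⟩ := tune hcap (T := (r0 * β1) * x * α * cr u l)
    (q := β1 * (α * (y * cr p v)))
    (r0 := r0) (n0 := (r0 * β1) * x * cr v (α • l + k0 • p) - 1 * (α * y * cr p v)) (κ0 := 1)
    (P := β1) (K := 2 * K) hTpos hr0 (by linarith) ⟨β1 * x * α * cr u l, by ring⟩
    (hrβ.mul_right hr3) hrβ hr1 (by linarith)
  have hcop : IsCoprime (r0 * β1) (1 + i * β1) :=
    IsCoprime.mul_left c1.symm ⟨-i, 1, by ring⟩
  have f1 := h.F1 (β := r0 * β1) (κ := 1 + i * β1)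
  have f4 := h.vl (v := v) (β := r0 * β1) (κ := 1 + i * β1)
  have g0 := h.g0 (κ := 1 + i * β1) hβ0
  obtain ⟨l1, hl1⟩ : ∃ l1 : Z2, l1 = lD l p x y α k0 (r0 * β1) (1 + i * β1) := ⟨_, rfl⟩
  obtain ⟨g, hg⟩ : ∃ g : ℤ, g = gD x y α k0 (r0 * β1) (1 + i * β1) := ⟨_, rfl⟩
  rw [← hl1, ← hg] at f1 f4
  rw [← hg] at g0
  have hn : g * cr v l1 + a1 * (g * cr u l1) = (r0 * β1) * x * cr v (α • l + k0 • p) -
      1 * (α * y * cr p v) - i * (β1 * (α * (y * cr p v))) +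
        a1 * ((r0 * β1) * x * α * cr u l) := by
    rw [f4, f1]; ring
  rw [← hn] at c2 c3
  refine ⟨r0 * β1, 1 + i * β1, -a1, hβ0, hcop, hw1, hw2, ?_, ?_⟩
  · rw [← hl1]
    have : 0 < g * (cr v l1 + a1 * cr u l1) := by linarith
    have := (mul_pos_iff_of_pos_left g0).1 this
    linarith
  · rw [← hl1]
    have e1 : g * (2 * K * (cr v l1 - -a1 * cr u l1)) ≤ g * cr u l1 := by
      have e2 : g * (2 * K * (cr v l1 - -a1 * cr u l1)) =
        2 * K * (g * cr v l1 + a1 * (g * cr u l1)) := by ring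
      rw [e2, f1]; rw [f1] at c3; exact c3
    exact le_of_mul_le_mul_left e1 g0

/-- **5.2**: a near-Prym state with a large offset has a progression of centres whose speeds are not
proportional to the areas. All constants are free. -/
theorem NP.pair52 {J X : ℕ} (hcap : Cap J X) {u v l p m p' : Z2} {x y α k0 K H R G Δ Δ1 : ℤ}
    (h : NP u l p m p' x y α k0) (hA : 0 < cr u v) (hk : kap l p m α k0 ≠ 0)
    (hK : 1 ≤ K) (hH : 0 ≤ H) (hR : 1 ≤ R) (hG : 1 ≤ G) (hΔ : 2 ≤ Δ)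
    (hΔ1 : Δ1 = Δ + 2 * (2 * K * J + J) ^ 2 * H)
    (hX : α * (y * cr p v) ≤ X) (hX' : 2 * K * J + J ≤ X)
    (k1 : |kap l p m α k0| ≤ H * cr u l)
    (k2 : cr u l * cr u m < G * |kap l p m α k0| * (cr u v + cr u l))
    (k3 : cr u l ≤ R * cr u m)
    (s1 : 8 * K * Δ1 ^ 3 * (x * α ^ 2) * R * G * (cr u v + cr u l) < cr p l)
    (s2 : 8 * K * Δ1 ^ 3 * (x * α ^ 2) * R * G * (cr u v + cr u l) < cr p' m) :
    ∃ (i j i' j' i1 : ℤ) (l1 m1 : Z2), IsCoprime i j ∧ IsCoprime i' j' ∧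
      l1 = i • l + j • p ∧ m1 = i' • m + j' • p' ∧
      0 < cr u l1 ∧ cr u l1 < cr p l ∧ 0 < cr u m1 ∧ cr u m1 < cr p' m ∧ 0 < cr l1 m1 ∧
      cr u l1 ≤ (x * α ^ 2) * R * Δ1 * G * (cr u v + cr u l) ∧
      2 * Δ * cr u m1 ≤ 3 * cr p' m ∧
      (∀ t : ℤ, 0 ≤ t → t ≤ K →
        0 < cr (u + t • (i1 • u + (-1 : ℤ) • (v + l1 + m1))) l1 ∧
        0 < cr (u + t • (i1 • u + (-1 : ℤ) • (v + l1 + m1))) m1 ∧
        cr (u + t • (i1 • u + (-1 : ℤ) • (v + l1 + m1))) l1 +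
          cr (u + t • (i1 • u + (-1 : ℤ) • (v + l1 + m1))) m1 < cr u (v + l1 + m1)) ∧
      cr p' m * cr (i1 • u + (-1 : ℤ) • (v + l1 + m1)) l1 ≠
        cr p l * cr (i1 • u + (-1 : ℤ) • (v + l1 + m1)) m1 := by
  have hb := h.b0
  have hb' := h.b0'
  have ha' := h.a0'
  have hx := h.x0
  have hα := h.α0
  have hκ0 : 0 < |kap l p m α k0| := abs_pos.2 hk
  have hΔ1' : Δ ≤ Δ1 := by
    rw [hΔ1]
    have : 0 ≤ 2 * (2 * K * J + J) ^ 2 * H := by positivity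
    linarith
  obtain ⟨β, κ, i1, hβ0, hcop, hw1, hw2, t1, t2⟩ := h.dir52 hcap hA hk hK hH (by linarith) hΔ1 hX
    hX' k1
  have f2 := h.F2 (β := β) (κ := κ)
  have f5 := h.F1_pos (κ := κ) hβ0
  have f6 := h.F1_le (κ := κ) hβ0
  have f7 := iD_jD (y := y) (k0 := k0) (κ := κ) hβ0 hx hα
  have f8 := h.offset (κ := κ) hβ0
  obtain ⟨l1, hl1⟩ : ∃ l1 : Z2, l1 = lD l p x y α k0 β κ := ⟨_, rfl⟩
  obtain ⟨ms, hms⟩ : ∃ ms : Z2, ms = mD m p' β κ := ⟨_, rfl⟩
  rw [← hms] at f2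
  rw [← hl1, ← hms] at f8
  rw [← hl1] at f5 f6 t1 t2
  obtain ⟨w1, w2, hw⟩ := id hcop
  obtain ⟨es, hes⟩ : ∃ es : Z2, es = (-w2) • m + w1 • p' := ⟨_, rfl⟩
  have hes' : cr es ms = cr p' m := by
    rw [hes, hms, mD]
    simp only [cr, Prod.fst_add, Prod.snd_add, Prod.smul_fst, Prod.smul_snd, smul_eq_mul]
    linear_combination (p'.1 * m.2 - p'.2 * m.1) * hw
  obtain ⟨D, hD⟩ : ∃ D : ℤ, D = |cr l1 ms| := ⟨_, rfl⟩
  rw [← hD] at f8
  have hαb : 0 < α * cr u l := mul_pos hα hb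
  have hD1 : Δ * cr u l1 ≤ D := by
    have : (α * cr u l) * (Δ * cr u l1) ≤ (α * cr u l) * D := by
      rw [f8]
      have := mul_le_mul_of_nonneg_right hw1 f5.le
      linarith
    exact le_of_mul_le_mul_left this hαb
  have hD2 : D ≤ Δ1 * cr u l1 := by
    have : (α * cr u l) * D ≤ (α * cr u l) * (Δ1 * cr u l1) := by
      rw [f8]
      have := mul_le_mul_of_nonneg_right hw2 f5.le
      linarith
    exact le_of_mul_le_mul_left this hαb
  have hD0 : 0 < D := by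
    have : 0 < Δ * cr u l1 := mul_pos (by linarith) f5
    linarith
  have hρ : cr l1 ms ≠ 0 := by
    intro h0
    rw [h0, abs_zero] at hD
    linarith
  obtain ⟨z2, q2, q3, q4, q5⟩ := sizes74 hA hb hb' hκ0 hK hR hG hΔ hΔ1' hx hα hβ0 f5 hw2 k2 k3 f6
    hD1 hD2 s1 s2
  have hf2 : |cr u ms| = β * cr u m := by rw [f2]; exact abs_of_pos (by positivity)
  have hF1a : cr u l1 < cr p l := by linarith
  rw [← hf2, hD] at q2
  rw [hD] at q3 q4 q5
  obtain ⟨m1, τ, s, hτ, hm1, m3, m4, m5, m6, m7, m8, m9, m10⟩ := tilt74 (u := u) (v := v)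
    (l := l1) (ms := ms) (es := es) (K := K) (i1 := i1) (a := cr p l) (a' := cr p' m) hA f5 hρ
    hes' ha' (by linarith) q2 q3 q4 q5 t1 t2
  refine ⟨iD x y α k0 β κ, jD x y α k0 β κ, τ * (-w2) + s * β, τ * w1 + s * κ, i1, l1, m1, f7, ?_,
    hl1, ?_, f5, hF1a, m3, m4, m5, z2, ?_, m9, m10⟩
  · exact ⟨-(τ * κ), τ * β, by linear_combination (τ * τ) * hw + hτ⟩
  · rw [hm1, hes, hms, mD]
    module
  · rw [← hD] at m8
    have e1 : (2 * Δ * cr u m1) * cr u l1 ≤ (3 * cr p' m) * cr u l1 := by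
      calc (2 * Δ * cr u m1) * cr u l1 = 2 * (Δ * cr u l1) * cr u m1 := by ring
        _ ≤ 2 * D * cr u m1 := by
            apply mul_le_mul_of_nonneg_right _ m3.le
            linarith
        _ ≤ 3 * (cr p' m * cr u l1) := m8
        _ = _ := by ring
    exact le_of_mul_le_mul_right e1 f5

variable {Ω : Type} {O : PO Ω} {N : ℤ}

/-- **5.2 in tree form** -/
theorem Lv.tilt_ap {J X : ℕ} (hcap : Cap J X) {u v e p e' p' : Z2}
    {c a c' a' x y α k0 K H R R0 G Δ Δ1 : ℤ}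
    (h : Lv O N u v e p e' p' c a c' a') (hNP : NP u e p e' p' x y α k0)
    (hκ : kap e p e' α k0 ≠ 0) (hK : 1 ≤ K) (hH : 0 ≤ H) (hR : 1 ≤ R) (hG : 1 ≤ G)
    (hR0 : 0 ≤ R0) (hΔ : 2 ≤ Δ) (hΔR : 3 * R0 ≤ Δ)
    (hΔ1 : Δ1 = Δ + 2 * (2 * K * J + J) ^ 2 * H)
    (hX : α * (y * cr p v) ≤ X) (hX' : 2 * K * J + J ≤ X)
    (k1 : |kap e p e' α k0| ≤ H * c)
    (k2 : c * c' < G * |kap e p e' α k0| * (cr u v + c)) (k3 : c ≤ R * c')
    (s1 : 8 * K * Δ1 ^ 3 * (x * α ^ 2) * R * G * (cr u v + c) < a)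
    (s2 : 8 * K * Δ1 ^ 3 * (x * α ^ 2) * R * G * (cr u v + c) < a')
    (hW : 2 * R0 * (cr u v + (x * α ^ 2) * R * Δ1 * G * (cr u v + c)) ≤ N) :
    ∃ l q m s g : Z2, APc O N u v l q m s g K ∧ lat l (u + q) = lat e p ∧
      lat m (u + s) = lat e' p' ∧ R0 * (cr u v + cr u l + cr u m) ≤ N ∧
      Six.ct u l q = c ∧ Six.ct u m s = c' := by
  have A0 := h.A0
  have c0 := h.c0
  have c0' := h.c0'
  have hsum := h.sum
  have hul := h.ue
  have hum := h.ue'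
  have hpl := h.pe
  have hpm := h.pe'
  obtain ⟨i, j, i', j', i1, l1, m1, g1, g2, g3, g4, g5, g6, g7, g8, g9, g10, g11, g12, g13⟩ :=
    hNP.pair52 hcap (v := v) (K := K) (H := H) (R := R) (G := G) (Δ := Δ) (Δ1 := Δ1) A0 hκ hK hH hR
      hG hΔ hΔ1 hX hX' (by rw [hul]; exact k1) (by rw [hul, hum]; exact k2)
      (by rw [hul, hum]; exact k3) (by rw [hul, hpl]; exact s1) (by rw [hul, hpm]; exact s2)
  have ul := h.cr_ul i j
  have um := h.cr_um i' j'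
  rw [← g3] at ul
  rw [← g4] at um
  rw [hul] at g10
  rw [hpl] at g6 g13
  rw [hpm] at g8 g11 g13
  obtain ⟨q1, s1', t1, t2, t3, t4, t5, t6, t7⟩ := h.slit (α := i) (k := j) (α' := i') (k' := j')
    (by
      rw [ul] at g5
      exact (mul_pos_iff_of_pos_right c0).1 g5) (by rw [ul] at g6; exact g6) g1
    (by
      rw [um] at g7
      exact (mul_pos_iff_of_pos_right c0').1 g7) (by rw [um] at g8; exact g8) g2
  rw [← g3, ← g4] at t1
  rw [← g3] at t2 t4 t6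
  rw [← g4] at t3 t5 t7
  refine ⟨l1, q1, m1, s1', i1 • u + (-1 : ℤ) • (v + l1 + m1),
    ⟨t1.has, t1.vol, ⟨i1, -1, Or.inr rfl, rfl⟩, ?_, ?_⟩, t2, t3, ?_, t6, t7⟩
  · intro t t0 tK
    obtain ⟨r1, r2, r3⟩ := g12 t t0 tK
    refine ⟨r1, r2, ?_⟩
    have e1 : cr u (v + l1 + m1) = cr u v + cr u l1 + cr u m1 := by
      rw [cr_add_right, cr_add_right]
    rw [e1] at r3
    exact r3
  · have ea : cr u l1 + cr q1 l1 = a := by rw [t4, ul]; ring
    have ea' : cr u m1 + cr s1' m1 = a' := by rw [t5, um]; ring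
    rw [ea, ea']
    exact g13
  · have e1 : 2 * (R0 * cr u l1) ≤ 2 * (R0 * ((x * α ^ 2) * R * Δ1 * G * (cr u v + c))) := by
      have := mul_le_mul_of_nonneg_left g10 hR0
      linarith
    have e2 : 2 * (R0 * cr u m1) ≤ a' := by
      have e3 : 3 * R0 * cr u m1 ≤ Δ * cr u m1 := mul_le_mul_of_nonneg_right hΔR g7.le
      linarith
    have e4 : a' ≤ N := by
      have := h.ca
      linarith
    linarith

end Pool.Agent.H4G.Six
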