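import Pool.Agent.H4G.Six.D2.EscAsm41

/-!
# D2, row 5.2 in tree form (helper41): the offset of the companion is large

The pair is `l = lW`, `m'` in the first row over `m* = mW`.
-/

set_option autoImplicit false

namespace Pool.Agent.H4G.Six

open Pool.Agent.H4G

variable {X : Type} {O : PO X} {N : ℤ} {u v e p e' p' : Z2} {c a c' a' x y α k0 : ℤ}

/-- the first row over a vector of `M` -/
theorem Lv.partner_row (h : Lv O N u v e p e' p' c a c' a') {l : Z2} {β κ : ℤ}
    (hβ : 0 < β) (hc : IsCoprime β κ) {D : ℤ} (hD : D = |cr l (β • e' + κ • p')|) (D0 : 0 < D)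
    (h1 : 2 * (β * c') * D ≤ cr u l * a') :
    ∃ α' k' : ℤ, IsCoprime α' k' ∧ 0 < cr l (α' • e' + k' • p') ∧
      cr l (α' • e' + k' • p') ≤ D ∧ cr u l * a' ≤ 2 * D * (α' * c') ∧
      2 * D * (α' * c') ≤ 3 * (cr u l * a') := by
  have c0' := h.c0'
  obtain ⟨r, t, hrt⟩ := hc
  obtain ⟨E, hE⟩ : ∃ E, E = cr l (β • e' + κ • p') := ⟨_, rfl⟩
  rw [← hE] at hD
  obtain ⟨σ, hσ, hσE⟩ : ∃ σ : ℤ, (σ = 1 ∨ σ = -1) ∧ E = σ * D := by
    rcases le_or_gt 0 E with h2 | h2
    · exact ⟨1, Or.inl rfl, by rw [hD, abs_of_nonneg h2]; ring⟩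
    · exact ⟨-1, Or.inr rfl, by rw [hD, abs_of_neg h2]; ring⟩
  have hσ2 : σ * σ = 1 := by rcases hσ with rfl | rfl <;> norm_num
  -- the partner
  obtain ⟨X0, hX0⟩ : ∃ X0, X0 = σ * cr l ((-t) • e' + r • p') := ⟨_, rfl⟩
  obtain ⟨n, r0, hn, n1, n2⟩ : ∃ n r0 : ℤ, X0 + n * D = r0 ∧ 0 < r0 ∧ r0 ≤ D := by
    refine ⟨(-X0) / D + 1, D - (-X0) % D, ?_, ?_, ?_⟩
    · have := Int.mul_ediv_add_emod (-X0) D
      linarith
    · have := Int.emod_lt_of_pos (-X0) D0
      linarith
    · have := Int.emod_nonneg (-X0) D0.ne'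
      linarith
  obtain ⟨α', hα'⟩ : ∃ α', α' = -(σ * t) + σ * n * β := ⟨_, rfl⟩
  obtain ⟨k', hk'⟩ : ∃ k', k' = σ * r + σ * n * κ := ⟨_, rfl⟩
  have hdet : k' * β - α' * κ = σ := by
    rw [hα', hk']
    linear_combination σ * hrt
  have em : α' • e' + k' • p' = σ • ((-t) • e' + r • p') + (σ * n) • (β • e' + κ • p') := by
    rw [hα', hk']; module
  have hlm : cr l (α' • e' + k' • p') = r0 := by
    rw [em, cr_add_right, cr_smul_right, cr_smul_right, ← hX0, ← hE, hσE, ← hn]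
    linear_combination (n * D) * hσ2
  -- the level
  have key : (α' * c') * E - (β * c') * r0 = cr u l * (σ * a') := by
    have e1 := h.cr_um α' k'
    have e2 := h.cr_um β κ
    have e3 : cr u (α' • e' + k' • p') * cr l (β • e' + κ • p') -
        cr u (β • e' + κ • p') * cr l (α' • e' + k' • p') =
        cr u l * cr (α' • e' + k' • p') (β • e' + κ • p') := by simp only [cr]; ring
    have e4 : cr (α' • e' + k' • p') (β • e' + κ • p') = (k' * β - α' * κ) * cr p' e' := by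
      simp only [cr, Prod.fst_add, Prod.snd_add, Prod.smul_fst, Prod.smul_snd, smul_eq_mul]
      ring
    rw [e1, e2, hlm, ← hE, e4, hdet, h.pe'] at e3
    exact e3
  have key2 : (α' * c') * D = σ * ((β * c') * r0) + cr u l * a' := by
    rw [hσE] at key
    linear_combination σ * key + (cr u l * a' - (α' * c') * D) * hσ2
  have hb : |σ * ((β * c') * r0)| ≤ (β * c') * D := by
    have : |σ| = 1 := by rcases hσ with rfl | rfl <;> norm_num
    rw [abs_mul, this, one_mul, abs_of_pos (by positivity)]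
    exact mul_le_mul_of_nonneg_left n2 (by positivity)
  have hb1 := (abs_le.1 hb).1
  have hb2 := (abs_le.1 hb).2
  refine ⟨α', k', ?_, by rw [hlm]; exact n1, by rw [hlm]; exact n2, by linarith, by linarith⟩
  rcases hσ with h2 | h2
  · exact ⟨-κ, β, by rw [h2] at hdet; linarith⟩
  · exact ⟨κ, -β, by rw [h2] at hdet; linarith⟩

/-- 5.2, the pair and its line of centres -/
theorem Lv.tilt_core {J Y : ℕ} (hcap : Cap J Y) (h : Lv O N u v e p e' p' c a c' a')
    (hNP : NP u e p e' p' x y α k0) {kp : ℤ} (hkp : kp = |kap e p e' α k0|) (kp0 : 0 < kp)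
    {K R β : ℤ} (K0 : 0 < K) (hR : 0 ≤ R) (β0 : 0 < β) (hβK : 2 * K * J ≤ β)
    (hβc : IsCoprime β (x * y * α * cr p v)) (hβY : β ≤ Y)
    (g1 : 2 * β ^ 2 * kp * c' ≤ α * c * a')
    (g2 : 4 * K * β ^ 2 * kp ^ 2 * (cr u v + β * α * c) < α ^ 2 * c ^ 2 * a')
    (g3 : 2 * β ^ 2 * kp ≤ a) (g4 : β * α * c < a) (g5 : 3 * α * c < 2 * β * kp)
    (g6 : 2 * R * (cr u v + β * α * c) ≤ N) (g7 : R * (3 * α * c * a') ≤ β * kp * N) :
    HasAP O N u v e p e' p' c c' K R := by
  have A0 := h.A0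
  have c0 := h.c0
  have c0' := h.c0'
  have ca := h.ca
  have ca' := h.ca'
  have hs := h.sum
  have x0 := hNP.x0
  have y0 := hNP.y0
  have α0 := hNP.α0
  have a0 : 0 < a := by linarith
  have a0' : 0 < a' := by linarith
  have cy : IsCoprime β y := hβc.of_isCoprime_of_dvd_right ⟨x * α * cr p v, by ring⟩
  have cx : IsCoprime β x := hβc.of_isCoprime_of_dvd_right ⟨y * α * cr p v, by ring⟩
  have cα : IsCoprime β α := hβc.of_isCoprime_of_dvd_right ⟨x * y * cr p v, by ring⟩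
  have cq : IsCoprime β (α * y * cr p v) := hβc.of_isCoprime_of_dvd_right ⟨x, by ring⟩
  obtain ⟨w, a1, w1, w2, w3⟩ := tune hcap (T := β * (α * c)) (q := α * y * cr p v)
    (r0 := β) (n0 := β * cr v (α • e + k0 • p)) (κ0 := 0) (P := 1) (K := 2 * K)
    (by positivity) β0 hβY ⟨_, rfl⟩ cq isCoprime_one_right hβK (by positivity)
  rw [zero_add, mul_one] at w1
  have hul := hNP.ulW (β := β) (w := w)
  have hum := hNP.umW (β := β) (w := w)
  have hlm := hNP.lmW (β := β) (w := w)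
  have hvl := vlW (v := v) (l := e) (p := p) (y := y) (α := α) (k0 := k0) (β := β) (w := w)
  rw [h.ue] at hul
  rw [h.ue'] at hum
  have lcop := lW_cop (w := w) hNP.αk cα cy w1.symm
  have mcop := mW_cop cx w1.symm
  obtain ⟨i, hi⟩ : ∃ i, i = β * α := ⟨_, rfl⟩
  obtain ⟨j, hj⟩ : ∃ j, j = β * k0 + w * α * y := ⟨_, rfl⟩
  obtain ⟨κ, hκ⟩ : ∃ κ, κ = w * x := ⟨_, rfl⟩
  rw [← hi, ← hj] at lcop
  rw [← hκ] at mcop
  obtain ⟨l, hl⟩ : ∃ l, l = lW e p y α k0 β w := ⟨_, rfl⟩
  have hl' : l = i • e + j • p := by rw [hl, hi, hj]; rfl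
  have hm' : mW e' p' x β w = β • e' + κ • p' := by rw [hκ]; rfl
  rw [← hl] at hul hvl hlm
  rw [hm'] at hlm hum
  have F10 : 0 < cr u l := by rw [hul]; positivity
  obtain ⟨D, hD⟩ : ∃ D, D = |cr l (β • e' + κ • p')| := ⟨_, rfl⟩
  have hDk : D = β ^ 2 * kp := by
    rw [hD, hlm, abs_mul, abs_of_pos (by positivity : 0 < β ^ 2), hkp]
  have D0 : 0 < D := by rw [hDk]; positivity
  obtain ⟨α', k', m1, m2, m3, m4, m5⟩ := h.partner_row β0 mcop hD D0 (by
    rw [hul, hDk]
    have : β * (2 * β ^ 2 * kp * c') ≤ β * (α * c * a') := mul_le_mul_of_nonneg_left g1 β0.le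
    linarith)
  rw [hul] at m4 m5
  -- `2 β kp F₂ ≤ 3 α c a'`
  have q1 : 2 * (β * kp) * (α' * c') ≤ 3 * α * c * a' := by
    rw [hDk] at m5
    have : β * (2 * (β * kp) * (α' * c')) ≤ β * (3 * α * c * a') := by linarith
    exact le_of_mul_le_mul_left this β0
  have q0 : 0 < β * kp := mul_pos β0 kp0
  have F20 : 0 < α' * c' := by
    have : 0 < 2 * D * (α' * c') := by
      have : 0 < β * α * c * a' := by positivity
      linarith
    exact (mul_pos_iff_of_pos_left (by linarith)).1 this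
  have F2a : α' * c' < a' := by
    have h2 : 2 * (β * kp) * (α' * c') < 2 * (β * kp) * a' := by
      have : 3 * α * c * a' < 2 * β * kp * a' := mul_lt_mul_of_pos_right g5 a0'
      linarith
    exact lt_of_mul_lt_mul_left h2 (by linarith)
  have α0' : 0 < α' := (mul_pos_iff_of_pos_right c0').1 F20
  obtain ⟨q1', s1, t1, t2, t3, t4, t5, t6, t7⟩ := h.slit (α := i) (k := j) (α' := α') (k' := k')
    (by rw [hi]; positivity) (by rw [hi]; exact g4) lcop α0' F2a m1
  have um := h.cr_um α' k'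
  obtain ⟨m, hm⟩ : ∃ m, m = α' • e' + k' • p' := ⟨_, rfl⟩
  rw [← hl', ← hm] at t1
  rw [← hl'] at t2 t4 t6
  rw [← hm] at t3 t5 t7 um m2 m3
  have ea : cr u l + cr q1' l = a := by rw [t4, hul, hi]; ring
  have ea' : cr u m + cr s1 m = a' := by rw [t5, um]; ring
  have hδ : (-a1) * cr u l + (-1) * cr v l = -(β * cr v (α • e + k0 • p) -
      w * (α * y * cr p v) + a1 * (β * (α * c))) := by
    rw [hul, hvl]; ring
  refine ⟨l, q1', m, s1, (-a1) • u + (-1 : ℤ) • (v + l + m), ?_, t2, t3, ?_, t6, t7⟩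
  · refine APc.of_tall t1.has t1.vol (Or.inr rfl) rfl (by linarith) (by rw [hδ]; linarith) ?_ ?_ ?_
    · rw [hδ, neg_neg, hul]
      have : β * α * c = β * (α * c) := by ring
      rw [this]
      exact w3
    · rw [hul, um]
      have e0 : 2 * D * (2 * K * (-(-1 * cr l m)) * (cr u v + β * α * c)) <
          2 * D * (β * α * c * (α' * c')) := by
        have e1 : 2 * K * (-(-1 * cr l m)) * (cr u v + β * α * c) ≤
            2 * K * D * (cr u v + β * α * c) := by
          apply mul_le_mul_of_nonneg_right _ (by positivity)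
          apply mul_le_mul_of_nonneg_left _ (by positivity)
          linarith
        have e2 : 2 * D * (2 * K * (-(-1 * cr l m)) * (cr u v + β * α * c)) ≤
            2 * D * (2 * K * D * (cr u v + β * α * c)) :=
          mul_le_mul_of_nonneg_left e1 (by positivity)
        have e3 : 2 * D * (2 * K * D * (cr u v + β * α * c)) =
            β ^ 2 * (4 * K * β ^ 2 * kp ^ 2 * (cr u v + β * α * c)) := by
          rw [hDk]; ring
        have e4 : β ^ 2 * (4 * K * β ^ 2 * kp ^ 2 * (cr u v + β * α * c)) <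
            β ^ 2 * (α ^ 2 * c ^ 2 * a') := mul_lt_mul_of_pos_left g2 (by positivity)
        have e5 : β * α * c * (β * α * c * a') ≤ β * α * c * (2 * D * (α' * c')) :=
          mul_le_mul_of_nonneg_left m4 (by positivity)
        have e6 : β ^ 2 * (α ^ 2 * c ^ 2 * a') = β * α * c * (β * α * c * a') := by ring
        have e7 : β * α * c * (2 * D * (α' * c')) = 2 * D * (β * α * c * (α' * c')) := by ring
        linarith
      exact lt_of_mul_lt_mul_left e0 (by positivity)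
    · left
      rw [ea, ea', hul, um]
      refine ⟨by linarith, ?_⟩
      have e1 : 2 * D * (α' * c') ≤ a * (α' * c') := by
        apply mul_le_mul_of_nonneg_right _ F20.le
        rw [hDk]; linarith
      linarith
  · rw [hul, um]
    have e1 : β * kp * (2 * R * (α' * c')) ≤ β * kp * N := by
      have : R * (2 * (β * kp) * (α' * c')) ≤ R * (3 * α * c * a') :=
        mul_le_mul_of_nonneg_left q1 hR
      linarith
    have e2 : 2 * R * (α' * c') ≤ N := le_of_mul_le_mul_left e1 q0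
    linarith

/-- 5.2, numbers: the offset of the companion is large -/
theorem Lv.ap_far {J Y : ℕ} (hcap : Cap J Y) (h : Lv O N u v e p e' p' c a c' a')
    (hNP : NP u e p e' p' x y α k0) (hκ : kap e p e' α k0 ≠ 0)
    {K R H G D : ℤ} (hK : 1 ≤ K) (hR : 1 ≤ R) (hJ : 1 ≤ J) (hG : 1 ≤ G) (hxH : x ≤ H)
    (hyH : y ≤ H) (hα : α ≤ H) (hcc : c ≤ H * c') (hcc' : c' ≤ H * c)
    (hk : |kap e p e' α k0| ≤ H * c') (hD : D * (cr u v + c + c') ≤ N) (ha : N ≤ G * a)
    (ha' : N ≤ G * a') (hDD : 10 ^ 6 * K ^ 6 * J ^ 4 * H ^ 10 * R ^ 3 * (R + G) ≤ D)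
    (hfar : c * c' ≤ 6 * K ^ 2 * J * |kap e p e' α k0| * (cr u v + c + c'))
    (hY : N ^ 7 ≤ Y) : HasAP O N u v e p e' p' c c' K R := by
  have A0 := h.A0
  have c0 := h.c0
  have c0' := h.c0'
  have ca := h.ca
  have ca' := h.ca'
  have hs := h.sum
  have x0 := hNP.x0
  have y0 := hNP.y0
  have α0 := hNP.α0
  have a0 : 0 < a := by linarith
  have a0' : 0 < a' := by linarith
  have hJ' : (1 : ℤ) ≤ J := by exact_mod_cast hJ
  have H1 : 1 ≤ H := by linarith
  have N0 : 0 < N := by linarith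
  have N1 : 1 ≤ N := N0
  obtain ⟨kp, hkp⟩ : ∃ kp, kp = |kap e p e' α k0| := ⟨_, rfl⟩
  have kp0 : 0 < kp := by rw [hkp]; exact abs_pos.2 hκ
  rw [← hkp] at hk hfar
  obtain ⟨w, hw⟩ : ∃ w, w = cr u v + c + c' := ⟨_, rfl⟩
  rw [← hw] at hD hfar
  have w0 : 0 < w := by rw [hw]; linarith
  have R0 : 0 < R := by linarith
  have K0 : 0 < K := by linarith
  have J0 : (0 : ℤ) < J := by linarith
  have H0 : 0 < H := by linarith
  have G0 : 0 < G := by linarith
  -- the number `β`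
  obtain ⟨b1, hb1⟩ : ∃ b1, b1 = 6 * R * (α * c) / kp + 1 + 2 * K * J := ⟨_, rfl⟩
  have d1 := Int.lt_ediv_add_one_mul_self (6 * R * (α * c)) kp0
  have d2 := Int.ediv_mul_le (6 * R * (α * c)) kp0.ne'
  have d3 : 0 ≤ 6 * R * (α * c) / kp := Int.ediv_nonneg (by positivity) kp0.le
  -- the sizes of `β`
  obtain ⟨P, hP⟩ : ∃ P, P = 10 * R * K * J * H ^ 2 := ⟨_, rfl⟩
  have P0 : 0 < P := by rw [hP]; positivity
  have hKJ : 1 ≤ K * J := by nlinarith
  have hbk : ∀ β : ℤ, β < b1 + J → β * kp ≤ P * c := by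
    intro β hβ
    have e1 : β ≤ 6 * R * (α * c) / kp + 4 * (K * J) := by
      have : (J : ℤ) ≤ K * J := by nlinarith
      linarith
    have e2 : β * kp ≤ (6 * R * (α * c) / kp + 4 * (K * J)) * kp :=
      mul_le_mul_of_nonneg_right e1 kp0.le
    have e3 : kp ≤ H ^ 2 * c := by
      calc kp ≤ H * c' := hk
        _ ≤ H * (H * c) := mul_le_mul_of_nonneg_left hcc' H0.le
        _ = H ^ 2 * c := by ring
    have e4 : 4 * (K * J) * kp ≤ 4 * (K * J) * (H ^ 2 * c) :=
      mul_le_mul_of_nonneg_left e3 (by positivity)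
    have e5 : 6 * R * (α * c) ≤ 6 * R * (H * c) :=
      mul_le_mul_of_nonneg_left (mul_le_mul_of_nonneg_right hα c0.le) (by positivity)
    have e6 : 6 * R * (H * c) ≤ 6 * R * K * J * H ^ 2 * c := by
      have : 1 * (H ^ 1) ≤ (K * J) * H ^ 2 :=
        mul_le_mul hKJ (pow_le_pow_right₀ H1 (by norm_num)) (by positivity) (by positivity)
      have e7 : (6 * R * c) * (1 * H ^ 1) ≤ (6 * R * c) * ((K * J) * H ^ 2) :=
        mul_le_mul_of_nonneg_left this (by positivity)
      calc 6 * R * (H * c) = (6 * R * c) * (1 * H ^ 1) := by ring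
        _ ≤ (6 * R * c) * ((K * J) * H ^ 2) := e7
        _ = 6 * R * K * J * H ^ 2 * c := by ring
    have e8 : 4 * (K * J) * (H ^ 2 * c) ≤ 4 * R * K * J * H ^ 2 * c := by
      have e9 : (4 * (K * J) * (H ^ 2 * c)) * 1 ≤ (4 * (K * J) * (H ^ 2 * c)) * R :=
        mul_le_mul_of_nonneg_left hR (by positivity)
      calc 4 * (K * J) * (H ^ 2 * c) = (4 * (K * J) * (H ^ 2 * c)) * 1 := by ring
        _ ≤ (4 * (K * J) * (H ^ 2 * c)) * R := e9
        _ = 4 * R * K * J * H ^ 2 * c := by ring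
    have e10 : P * c = 6 * R * K * J * H ^ 2 * c + 4 * R * K * J * H ^ 2 * c := by rw [hP]; ring
    linarith
  obtain ⟨F, hF⟩ : ∃ F, F = 6 * P * K ^ 2 * J * H ^ 2 := ⟨_, rfl⟩
  have F0 : 0 < F := by rw [hF]; positivity
  -- `β c' ≤ 6 P K² J w`
  have hbc' : ∀ β : ℤ, 0 < β → β * kp ≤ P * c → β * c' ≤ 6 * P * K ^ 2 * J * w := by
    intro β β0 hβ
    have e1 : β * (c * c') ≤ β * (6 * K ^ 2 * J * kp * w) := mul_le_mul_of_nonneg_left hfar β0.le
    have e2 : (6 * K ^ 2 * J * w) * (β * kp) ≤ (6 * K ^ 2 * J * w) * (P * c) :=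
      mul_le_mul_of_nonneg_left hβ (by positivity)
    have e3 : c * (β * c') ≤ c * (6 * P * K ^ 2 * J * w) := by linarith
    exact le_of_mul_le_mul_left e3 c0
  have hF1 : ∀ β : ℤ, 0 < β → β * kp ≤ P * c → β * α * c ≤ F * w := by
    intro β β0 hβ
    have e1 := hbc' β β0 hβ
    have e2 : β * c ≤ H * (6 * P * K ^ 2 * J * w) := by
      have e3 : β * c ≤ β * (H * c') := mul_le_mul_of_nonneg_left hcc β0.le
      have e4 : H * (β * c') ≤ H * (6 * P * K ^ 2 * J * w) := mul_le_mul_of_nonneg_left e1 H0.le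
      linarith
    calc β * α * c = α * (β * c) := by ring
      _ ≤ H * (H * (6 * P * K ^ 2 * J * w)) := mul_le_mul hα e2 (by positivity) H0.le
      _ = F * w := by rw [hF]; ring
  -- the size of `w`
  obtain ⟨Q, hQ⟩ : ∃ Q, Q = 8 * K * P ^ 2 * F := ⟨_, rfl⟩
  have Q0 : 0 < Q := by rw [hQ]; positivity
  have P1 : 1 ≤ P := by omega
  have F1 : 1 ≤ F := by omega
  have hQD : 2 * Q * (R + G) ≤ D := by
    refine le_trans ?_ hDD
    have e1 : 2 * Q * (R + G) = 96000 * ((K ^ 6 * J ^ 4 * R ^ 3 * (R + G)) * H ^ 8) := by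
      rw [hQ, hF, hP]; ring
    rw [e1]
    have e2 : 0 < K ^ 6 * J ^ 4 * R ^ 3 * (R + G) * H ^ 10 := by positivity
    have e3 : (K ^ 6 * J ^ 4 * R ^ 3 * (R + G)) * H ^ 8 ≤
        (K ^ 6 * J ^ 4 * R ^ 3 * (R + G)) * H ^ 10 :=
      mul_le_mul_of_nonneg_left (pow_le_pow_right₀ H1 (by norm_num)) (by positivity)
    linarith
  have hwQ : 2 * Q * (R + G) * w ≤ N := by
    have := mul_le_mul_of_nonneg_right hQD w0.le
    linarith
  have hRw : R * (2 * (Q * w)) ≤ N := by
    have : 0 < 2 * Q * G * w := by positivity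
    have e1 : 2 * Q * (R + G) * w = R * (2 * (Q * w)) + 2 * Q * G * w := by ring
    linarith
  have hGw : G * (2 * (Q * w)) < N := by
    have : 0 < 2 * Q * R * w := by positivity
    have e1 : 2 * Q * (R + G) * w = G * (2 * (Q * w)) + 2 * Q * R * w := by ring
    linarith
  have hQa : ∀ b : ℤ, N ≤ G * b → 2 * (Q * w) < b := by
    intro b hb
    have e1 : G * (2 * (Q * w)) < G * b := by linarith
    exact lt_of_mul_lt_mul_left e1 G0.le
  have hFQ : 8 * F ≤ Q := by
    have e1 : (1 : ℤ) * 1 ^ 2 ≤ K * P ^ 2 :=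
      mul_le_mul hK (pow_le_pow_left₀ (by norm_num) P1 2) (by norm_num) (by positivity)
    have e2 : 8 * F * (1 * 1 ^ 2) ≤ 8 * F * (K * P ^ 2) :=
      mul_le_mul_of_nonneg_left e1 (by positivity)
    rw [hQ]
    linarith
  have hPFQ : 8 * (P * F) ≤ Q := by
    have e1 : (1 : ℤ) * P ≤ K * P ^ 2 := by
      have : P * 1 ≤ P * P := mul_le_mul_of_nonneg_left P1 P0.le
      have h2 : 1 * P ^ 2 ≤ K * P ^ 2 := mul_le_mul_of_nonneg_right hK (by positivity)
      have e3 : P ^ 2 = P * P := by ring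
      linarith
    have e2 : 8 * F * (1 * P) ≤ 8 * F * (K * P ^ 2) := mul_le_mul_of_nonneg_left e1 (by positivity)
    rw [hQ]
    linarith
  have hQN : Q ≤ N := by
    have e1 : Q * 1 ≤ Q * w := mul_le_mul_of_nonneg_left w0 Q0.le
    have e2 : 1 * (2 * (Q * w)) ≤ R * (2 * (Q * w)) := mul_le_mul_of_nonneg_right hR (by positivity)
    linarith
  -- the choice
  obtain ⟨pv0, pv1⟩ := h.pv_le
  have D0 : 0 < x * y * α * cr p v := by positivity
  have hHQ : H ≤ Q := by
    have e1 : 1 * H ^ 1 ≤ R * K * J * H ^ 2 := by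
      have h2 : 1 * 1 ≤ R * K := mul_le_mul hR hK (by norm_num) R0.le
      have h3 : 1 * 1 ≤ (R * K) * J := mul_le_mul (by linarith) hJ' (by norm_num) (by positivity)
      exact mul_le_mul (by linarith) (pow_le_pow_right₀ H1 (by norm_num)) (by positivity)
        (by positivity)
    have e2 : P ≤ P * F := by nlinarith
    have e3 : P = 10 * (R * K * J * H ^ 2) := by rw [hP]; ring
    have e4 : H ≤ P := by
      have : 0 < R * K * J * H ^ 2 := by positivity
      linarith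
    linarith
  have hDY : |x * y * α * cr p v| ≤ Y := by
    rw [abs_of_pos D0]
    have e0 : H ≤ N := by linarith
    have e1 : x * y * α ≤ N * N * N :=
      mul_le_mul (mul_le_mul (by linarith) (by linarith) y0.le N0.le) (by linarith) α0.le
        (by positivity)
    have e2 : x * y * α * cr p v ≤ N * N * N * N ^ 2 := mul_le_mul e1 pv1 pv0.le (by positivity)
    have e3 : N ^ 5 ≤ N ^ 7 := pow_le_pow_right₀ N1 (by norm_num)
    have e4 : N * N * N * N ^ 2 = N ^ 5 := by ring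
    linarith
  obtain ⟨β, β1, β2, β3⟩ := ap_cop (J := J) hcap (a := 1) (b := 0) D0.ne' hDY
    isCoprime_one_left b1
  rw [one_mul, add_zero] at β3
  have β0 : 0 < β := by
    have : 0 < 2 * K * J := by positivity
    linarith
  have hβP := hbk β β2
  have hβ6 : 6 * R * (α * c) ≤ β * kp := by
    have e1 : 6 * R * (α * c) / kp + 1 ≤ β := by
      have : 0 < 2 * K * J := by positivity
      linarith
    have := mul_le_mul_of_nonneg_right e1 kp0.le
    linarith
  have q1 := hbc' β β0 hβP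
  have q2 := hF1 β β0 hβP
  have hwA : cr u v ≤ w := by rw [hw]; linarith
  have hAF : cr u v + β * α * c ≤ 2 * (F * w) := by
    have : 1 * w ≤ F * w := mul_le_mul_of_nonneg_right F1 w0.le
    linarith
  have hβα : β * c ≤ F * w := by
    have e1 : β * c * 1 ≤ β * c * α := mul_le_mul_of_nonneg_left α0 (by positivity)
    have e2 : β * α * c = β * c * α := by ring
    linarith
  refine h.tilt_core hcap hNP hkp kp0 K0 R0.le β0 (by rw [hb1] at β1; linarith) β3 ?_ ?_ ?_ ?_ ?_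
    ?_ ?_ ?_
  · -- `β ≤ Y`
    have e1 : β * 1 ≤ β * c := mul_le_mul_of_nonneg_left c0 β0.le
    have e2 : F * w ≤ Q * w := mul_le_mul_of_nonneg_right (by linarith) w0.le
    have e3 : 1 * (2 * (Q * w)) ≤ R * (2 * (Q * w)) := mul_le_mul_of_nonneg_right hR (by positivity)
    have e4 : N ^ 1 ≤ N ^ 7 := pow_le_pow_right₀ N1 (by norm_num)
    have e5 : 0 < Q * w := by positivity
    linarith [pow_one N]
  · -- (C1)
    have e1 : (β * c') * (β * kp) ≤ (6 * P * K ^ 2 * J * w) * (P * c) :=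
      mul_le_mul q1 hβP (by positivity) (by positivity)
    have e2 : 6 * P * K ^ 2 * J * w ≤ F * w := by
      have h2 : 1 ≤ H ^ 2 := one_le_pow₀ H1
      have h3 : 6 * P * K ^ 2 * J * 1 ≤ 6 * P * K ^ 2 * J * H ^ 2 :=
        mul_le_mul_of_nonneg_left h2 (by positivity)
      rw [hF]
      exact mul_le_mul_of_nonneg_right (by linarith) w0.le
    have e3 : (6 * P * K ^ 2 * J * w) * (P * c) ≤ (F * w) * (P * c) :=
      mul_le_mul_of_nonneg_right e2 (by positivity)
    have e4 : 8 * (P * F) * (w * c) ≤ Q * (w * c) := mul_le_mul_of_nonneg_right hPFQ (by positivity)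
    have e5 := hQa a' ha'
    have e6 : 2 * (Q * w) * c ≤ a' * c := mul_le_mul_of_nonneg_right e5.le c0.le
    have e7 : 1 * (a' * c) ≤ α * (a' * c) := mul_le_mul_of_nonneg_right α0 (by positivity)
    have e8 : 0 < P * F * (w * c) := by positivity
    have e9 : 2 * β ^ 2 * kp * c' = 2 * ((β * c') * (β * kp)) := by ring
    rw [e9]
    linarith
  · -- (C2)
    have e1 : (β * kp) ^ 2 ≤ (P * c) ^ 2 := pow_le_pow_left₀ (by positivity) hβP 2
    have e2 : 4 * K * (β * kp) ^ 2 * (cr u v + β * α * c) ≤ 4 * K * (P * c) ^ 2 * (2 * (F * w)) :=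
      mul_le_mul (mul_le_mul_of_nonneg_left e1 (by positivity)) hAF (by positivity) (by positivity)
    have e3 : 4 * K * (P * c) ^ 2 * (2 * (F * w)) = c ^ 2 * (Q * w) := by rw [hQ]; ring
    have e4 : c ^ 2 * (Q * w) < c ^ 2 * a' := by
      apply mul_lt_mul_of_pos_left _ (by positivity)
      have := hQa a' ha'
      have : 0 < Q * w := by positivity
      linarith
    have e5 : 1 * (c ^ 2 * a') ≤ α ^ 2 * (c ^ 2 * a') :=
      mul_le_mul_of_nonneg_right (one_le_pow₀ α0) (by positivity)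
    have e6 : 4 * K * β ^ 2 * kp ^ 2 * (cr u v + β * α * c) =
        4 * K * (β * kp) ^ 2 * (cr u v + β * α * c) := by ring
    rw [e6]
    linarith
  · -- (C3)
    have e1 : β * (β * kp) ≤ β * (P * c) := mul_le_mul_of_nonneg_left hβP β0.le
    have e2 : P * (β * c) ≤ P * (F * w) := mul_le_mul_of_nonneg_left hβα P0.le
    have e3 : 8 * (P * F) * w ≤ Q * w := mul_le_mul_of_nonneg_right hPFQ w0.le
    have e4 := hQa a ha
    have e5 : 0 < P * F * w := by positivity
    have e6 : 2 * β ^ 2 * kp = 2 * (β * (β * kp)) := by ring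
    rw [e6]
    linarith
  · -- (C4)
    have e1 : F * w ≤ Q * w := mul_le_mul_of_nonneg_right (by linarith) w0.le
    have e2 := hQa a ha
    have : 0 < Q * w := by positivity
    linarith
  · -- (C5)
    have e1 : 6 * 1 * (α * c) ≤ 6 * R * (α * c) :=
      mul_le_mul_of_nonneg_right (by linarith) (by positivity)
    have : 0 < α * c := by positivity
    linarith
  · -- (C6)
    have e1 : 2 * R * (cr u v + β * α * c) ≤ 2 * R * (2 * (F * w)) :=
      mul_le_mul_of_nonneg_left hAF (by positivity)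
    have e2 : 8 * F * (R * w) ≤ Q * (R * w) := mul_le_mul_of_nonneg_right hFQ (by positivity)
    have : 0 < F * (R * w) := by positivity
    linarith
  · -- (C7)
    have e1 : 3 * R * (α * c) ≤ β * kp := by
      have : 0 < R * (α * c) := by positivity
      linarith
    have e2 : 3 * R * (α * c) * a' ≤ β * kp * N :=
      mul_le_mul e1 (by linarith) a0'.le (by positivity)
    linarith

/-- **the escape step, progression**: all cases -/
theorem Lv.has_ap {J Y : ℕ} (hcap : Cap J Y) (h : Lv O N u v e p e' p' c a c' a')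
    (hNP : NP u e p e' p' x y α k0) (hLM : lat e p ≠ lat e' p')
    {K R H G D : ℤ} (hK : 1 ≤ K) (hR : 1 ≤ R) (hJ : 1 ≤ J) (hG : 1 ≤ G) (hxH : x ≤ H)
    (hyH : y ≤ H) (hα : α ≤ H) (hcc : c ≤ H * c') (hcc' : c' ≤ H * c)
    (hk : |kap e p e' α k0| ≤ H * c') (hD : D * (cr u v + c + c') ≤ N) (ha : N ≤ G * a)
    (ha' : N ≤ G * a') (hDD : 10 ^ 6 * K ^ 6 * J ^ 4 * H ^ 10 * R ^ 3 * (R + G) ≤ D)
    (hY : N ^ 7 ≤ Y) : HasAP O N u v e p e' p' c c' K R := by
  have x0 := hNP.x0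
  have hJ' : (1 : ℤ) ≤ J := by exact_mod_cast hJ
  have H1 : 1 ≤ H := by linarith
  have hDs : 8 * K * J * H ^ 10 * (R + G) ≤ D := by
    refine le_trans ?_ hDD
    have e1 : K ^ 1 ≤ K ^ 6 := pow_le_pow_right₀ hK (by norm_num)
    have e2 : (J : ℤ) ^ 1 ≤ (J : ℤ) ^ 4 := pow_le_pow_right₀ hJ' (by norm_num)
    have e3 : 1 ≤ R ^ 3 := one_le_pow₀ hR
    have e4 : K ^ 1 * (J : ℤ) ^ 1 ≤ K ^ 6 * (J : ℤ) ^ 4 :=
      mul_le_mul e1 e2 (by positivity) (by positivity)
    have e5 : K ^ 1 * (J : ℤ) ^ 1 * 1 ≤ K ^ 6 * (J : ℤ) ^ 4 * R ^ 3 :=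
      mul_le_mul e4 e3 (by norm_num) (by positivity)
    have e6 : (K ^ 1 * (J : ℤ) ^ 1 * 1) * (H ^ 10 * (R + G)) ≤
        (K ^ 6 * (J : ℤ) ^ 4 * R ^ 3) * (H ^ 10 * (R + G)) :=
      mul_le_mul_of_nonneg_right e5 (by positivity)
    have e7 : 0 < (K ^ 6 * (J : ℤ) ^ 4 * R ^ 3) * (H ^ 10 * (R + G)) := by positivity
    linarith
  by_cases hκ : kap e p e' α k0 = 0
  · exact h.ap_zero hcap hNP hκ hLM hK hR hJ hG hxH hyH hα hD ha ha' hDs hY
  by_cases hn : 6 * K ^ 2 * J * |kap e p e' α k0| * (cr u v + c + c') < c * c'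
  · exact h.ap_near hcap hNP hκ hK hR hJ hG hxH hyH hα hD ha ha' hDs hn hY
  · push Not at hn
    exact h.ap_far hcap hNP hκ hK hR hJ hG hxH hyH hα hcc hcc' hk hD ha ha' hDD hn hY

end Pool.Agent.H4G.Six
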