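import Pool.Agent.H4G.Six.D2.Tall

/-!
# D2, the tuning lemma (helper39; tool for the rows R-4, R-5, R-6 of helper26's page)

In a progression `n₀ - i q` modulo `T` some term with `κ₀ + i P` coprime to `r₀` is small and
positive. The divisor `r₀` of `T` is coprime to `q` and `P`; it need not be prime.
-/

set_option autoImplicit false

namespace Pool.Agent.H4G.Six

open Pool.Agent.H4G

/-- an integer of a progression which is coprime to `D` -/
theorem ap_cop {J X : ℕ} (hcap : Cap J X) {a b D : ℤ} (hD : D ≠ 0) (hX : |D| ≤ X)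
    (ha : IsCoprime a D) (j0 : ℤ) : ∃ j, j0 ≤ j ∧ j < j0 + J ∧ IsCoprime (a * j + b) D := by
  obtain ⟨z, h1, h2, h3⟩ := sieveP (k := 1) (e := 1) hcap (D0 := |D|) (abs_pos.2 hD) hX
    (by norm_num) (fun _ p => p ∣ D) (fun _ => a) (fun _ => b)
    (fun p _ _ h => by rw [dvd_abs]; exact h)
    (fun p hp => by
      by_cases hpD : (p : ℤ) ∣ D
      · have hpa : ¬ (p : ℤ) ∣ a := fun h => not_dvd_of_isCoprime ha hp hpD h
        have hpp := Nat.prime_iff_prime_int.1 hp
        by_cases hb : (p : ℤ) ∣ b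
        · refine ⟨1, fun _ _ h => hpa ?_⟩
          have : a = (a * 1 + b) - b := by ring
          rw [this]; exact dvd_sub h hb
        · exact ⟨0, fun _ _ h => hb (by simpa using h)⟩
      · exact ⟨0, fun _ h => absurd h hpD⟩) j0
  rw [pow_one] at h2
  refine ⟨z, h1, h2, ?_⟩
  exact isCoprime_of_prime fun p hp hd hb => h3 p hp 0 hd hb

/-- **TUNING LEMMA**: in the progression `n₀ - i q` modulo `T` some term with `κ₀ + i P` coprime to
`r₀` is small and positive; `r₀` divides `T` and is coprime to `q` and `P` (not necessarily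
prime). -/
theorem tune {J X : ℕ} (hcap : Cap J X) {T q r0 n0 κ0 P K : ℤ} (hT : 0 < T) (hr0 : 0 < r0)
    (hrX : r0 ≤ X) (hrT : r0 ∣ T) (hq : IsCoprime r0 q) (hP : IsCoprime r0 P)
    (hK : K * J ≤ r0) (hK0 : 0 ≤ K) :
    ∃ i a1 : ℤ, IsCoprime (κ0 + i * P) r0 ∧ 0 < n0 - i * q + a1 * T ∧
      K * (n0 - i * q + a1 * T) ≤ T := by
  obtain ⟨d, hd⟩ : ∃ d : ℤ, d = Int.gcd q T := ⟨_, rfl⟩
  have hd0 : 0 < d := by
    rw [hd]
    exact_mod_cast Int.gcd_pos_of_ne_zero_right q hT.ne'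
  obtain ⟨q', hq'⟩ : d ∣ q := by rw [hd]; exact Int.gcd_dvd_left _ _
  obtain ⟨T', hT'⟩ : d ∣ T := by rw [hd]; exact Int.gcd_dvd_right _ _
  have hT'0 : 0 < T' := by
    rw [hT'] at hT
    exact (mul_pos_iff_of_pos_left hd0).1 hT
  have hcop : IsCoprime q' T' := by
    have h1 : d * 1 = Int.gcd (d * q') (d * T') := by rw [← hq', ← hT', ← hd, mul_one]
    rw [Int.gcd_mul_left, Nat.cast_mul, Int.natCast_natAbs, abs_of_pos hd0] at h1
    have h2 := mul_left_cancel₀ hd0.ne' h1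
    rw [Int.isCoprime_iff_gcd_eq_one]
    exact_mod_cast h2.symm
  have hrd : IsCoprime r0 d := IsCoprime.of_isCoprime_of_dvd_right hq ⟨q', hq'⟩
  have hrT' : r0 ∣ T' := by
    rw [hT'] at hrT
    exact hrd.dvd_of_dvd_mul_left hrT
  obtain ⟨w, w', hw⟩ := hcop
  -- `w q' + w' T' = 1`
  have hwr : IsCoprime w r0 := by
    obtain ⟨c, hc⟩ := hrT'
    exact ⟨q', w' * c, by rw [← hw, hc]; ring⟩
  -- the residue
  obtain ⟨s, r1, h1, h2, h3⟩ : ∃ s r1 : ℤ, n0 = d * s + r1 ∧ 0 < r1 ∧ r1 ≤ d := by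
    refine ⟨(n0 - 1) / d, (n0 - 1) % d + 1, ?_, ?_, ?_⟩
    · have := Int.mul_ediv_add_emod (n0 - 1) d
      linarith
    · have := Int.emod_nonneg (n0 - 1) hd0.ne'
      linarith
    · have := Int.emod_lt_of_pos (n0 - 1) hd0
      linarith
  obtain ⟨j, j1, j2, j3⟩ := ap_cop hcap (a := -(w * P)) (b := κ0 + s * w * P) hr0.ne'
    (by rw [abs_of_pos hr0]; exact hrX) ((hwr.mul_left hP.symm).neg_left) 0
  refine ⟨(s - j) * w, -(s - j) * w' , ?_, ?_, ?_⟩
  · have e : κ0 + (s - j) * w * P = -(w * P) * j + (κ0 + s * w * P) := by ring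
    rw [e]; exact j3
  all_goals
    have e : n0 - (s - j) * w * q + -(s - j) * w' * T = r1 + j * d := by
      rw [hq', hT', h1]
      linear_combination (-(s - j) * d) * hw
  · rw [e]
    have : 0 ≤ j * d := mul_nonneg j1 hd0.le
    linarith
  · rw [e]
    have a1 : r1 + j * d ≤ J * d := by
      have : j * d ≤ (J - 1) * d := mul_le_mul_of_nonneg_right (by linarith) hd0.le
      linarith
    have a2 : K * (r1 + j * d) ≤ K * (J * d) := mul_le_mul_of_nonneg_left a1 hK0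
    have a3 : K * J * d ≤ r0 * d := mul_le_mul_of_nonneg_right hK hd0.le
    have a4 : r0 * d ≤ T' * d := mul_le_mul_of_nonneg_right (Int.le_of_dvd hT'0 hrT') hd0.le
    calc K * (r1 + j * d) ≤ K * (J * d) := a2
      _ = K * J * d := by ring
      _ ≤ r0 * d := a3
      _ ≤ T' * d := a4
      _ = T := by rw [hT']; ring

end Pool.Agent.H4G.Six
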