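import Mathlib

/-! MP_4f7c28, part (i), D2, section 2 of the page of helper26: the tuning lemma.
A rational rotation `V - i S` modulo `F` whose reduced denominator is divisible by a prime `r`
meets every window of length `2 F / r`, and this with `r` not dividing `k1 + i mu`. -/

set_option autoImplicit false

namespace Pool.Agent.H4G.Six.D2

/-- the reduced denominator is divisible by `r` -/
theorem tune_den {F S E G r : ℤ} (hF : 0 < F) (hr : Prime r) (h : S * E = F * G) (hE : r ∣ E)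
    (hG : ¬ r ∣ G) : ∃ g m s : ℤ, 0 < g ∧ 0 < m ∧ F = g * m ∧ S = g * s ∧ IsCoprime s m ∧ r ∣ m := by
  have hg : 0 < (Int.gcd S F : ℤ) := by
    have : Int.gcd S F ≠ 0 := by
      intro h0
      have := (Int.gcd_eq_zero_iff.1 h0).2
      omega
    positivity
  obtain ⟨s, hs⟩ := Int.gcd_dvd_left S F
  obtain ⟨m, hm⟩ := Int.gcd_dvd_right S F
  have hm0 : 0 < m := by
    by_contra hc
    have : (Int.gcd S F : ℤ) * m ≤ 0 := by nlinarith
    omega
  refine ⟨Int.gcd S F, m, s, hg, hm0, hm, hs, ?_, ?_⟩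
  · rw [Int.isCoprime_iff_gcd_eq_one]
    have h1 : Int.gcd S F = Int.gcd ((Int.gcd S F : ℤ) * s) ((Int.gcd S F : ℤ) * m) := by
      rw [← hs, ← hm]
    rw [Int.gcd_mul_left, Int.natAbs_natCast] at h1
    have h2 : 0 < Int.gcd S F := by exact_mod_cast hg
    nlinarith [h1]
  · have h1 : s * E = m * G := by
      have : (Int.gcd S F : ℤ) * (s * E) = (Int.gcd S F : ℤ) * (m * G) := by
        rw [← mul_assoc, ← mul_assoc, ← hs, ← hm, h]
      exact mul_left_cancel₀ hg.ne' this
    have h2 : r ∣ m * G := by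
      rw [← h1]
      exact Dvd.dvd.mul_left hE s
    exact (hr.dvd_or_dvd h2).resolve_right hG

theorem tune {F S V E G r mu k1 lo hi : ℤ} (hF : 0 < F) (hr : Prime r) (h : S * E = F * G)
    (hE : r ∣ E) (hG : ¬ r ∣ G) (hmu : ¬ r ∣ mu) (hr0 : 0 < r) (hlen : 2 * F ≤ r * (hi - lo)) :
    ∃ i t : ℤ, ¬ r ∣ (k1 + i * mu) ∧ lo ≤ V - i * S - t * F ∧ V - i * S - t * F ≤ hi := by
  obtain ⟨g, m, s, hg, hm, rfl, rfl, hc, ⟨m', hm'⟩⟩ := tune_den hF hr h hE hG
  have hm'0 : 0 < m' := by
    by_contra hcon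
    have : r * m' ≤ 0 := by nlinarith
    omega
  -- two consecutive points of the net in the window
  have hg2 : 2 * g ≤ hi - lo := by
    by_contra hcon
    push Not at hcon
    have h1 : r * (hi - lo) < r * (2 * g) := mul_lt_mul_of_pos_left hcon hr0
    have h2 : r * (2 * g) ≤ r * (2 * g) * m' := by nlinarith [mul_pos hr0 hg]
    have h3 : 2 * (g * m) = r * (2 * g) * m' := by rw [hm']; ring
    linarith
  obtain ⟨a, b, hab⟩ := hc
  -- the point number `n` is `V - n g`; `i = n a` realises it modulo `F`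
  have key : ∀ n : ℤ, ∃ t : ℤ, V - (n * a) * (g * s) - t * (g * m) = V - n * g := by
    intro n
    refine ⟨n * b, ?_⟩
    linear_combination (-n * g) * hab
  -- n with `V - n g` in `[lo, lo + g)` after shift
  obtain ⟨n, hn1, hn2⟩ : ∃ n : ℤ, lo ≤ V - n * g ∧ V - n * g < lo + g := by
    refine ⟨(V - lo) / g, ?_, ?_⟩
    · have := Int.ediv_mul_le (V - lo) hg.ne'
      linarith
    · have := Int.lt_ediv_add_one_mul_self (V - lo) hg
      nlinarith
  by_cases hbad : r ∣ (k1 + (n * a) * mu)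
  · -- take n - 1
    obtain ⟨t, ht⟩ := key (n - 1)
    refine ⟨(n - 1) * a, t, ?_, ?_, ?_⟩
    · intro hd
      have h1 : r ∣ a * mu := by
        have h2 := dvd_sub hbad hd
        have h3 : k1 + n * a * mu - (k1 + (n - 1) * a * mu) = a * mu := by ring
        rwa [h3] at h2
      rcases hr.dvd_or_dvd h1 with h2 | h2
      · -- r divides a and m, so it divides 1
        have h3 : r ∣ a * s + b * m := dvd_add (Dvd.dvd.mul_right h2 s) ⟨b * m', by rw [hm']; ring⟩
        rw [hab] at h3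
        exact hr.not_isUnit (isUnit_of_dvd_one h3)
      · exact hmu h2
    · rw [ht]; nlinarith
    · rw [ht]; nlinarith
  · obtain ⟨t, ht⟩ := key n
    refine ⟨n * a, t, hbad, ?_, ?_⟩
    · rw [ht]; exact hn1
    · rw [ht]; nlinarith

theorem tune_cop {r be be1 mu k1 i : ℤ} (hr : Prime r) (hbe : be = r * be1) (hc : IsCoprime k1 be1)
    (hd : be1 ∣ mu) (h : ¬ r ∣ (k1 + i * mu)) : IsCoprime (k1 + i * mu) be := by
  obtain ⟨c, rfl⟩ := hd
  rw [hbe]
  refine IsCoprime.mul_right ?_ ?_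
  · exact ((Prime.coprime_iff_not_dvd hr).2 h).symm
  · have : k1 + i * (be1 * c) = k1 + be1 * (i * c) := by ring
    rw [this]
    exact IsCoprime.add_mul_left_left hc _

end Pool.Agent.H4G.Six.D2
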