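import Pool.Agent.H4G.Six.D2.RichBox

/-!
# Richness over `w₀ = v + m + α u` (D2, the regime `A ≫ F₂`; helper83)

If `L` is rich over the slit `m` of level `F₂ = u × m` and `A = u × v` is much larger than `F₂`, then
`L` is also rich over some `w₀ = v + m + α u`, of level `A + F₂`, which is nearly parallel to `m`.
-/

set_option autoImplicit false

namespace Pool.Agent.H4G.Six

open Pool.Agent.H4G

/-- a primitive bad vector -/
theorem RichL.bad {l p u m : Z2} {K : ℤ} (h : ¬ RichL (lat l p) u m K) :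
    ∃ i j : ℤ, IsCoprime i j ∧ |cr u (i • l + j • p)| ≤ K * cr u m ∧
      |cr (i • l + j • p) m| ≤ K * cr u m := by
  by_contra hn
  push Not at hn
  exact h (RichL.of_rich fun i j hij h1 => hn i j hij h1)

/-- **(W0)** -/
theorem RichL.w0 {l p u v m : Z2} {K K1 K2 : ℤ} (hA : 0 < cr u v) (hm : 0 < cr u m)
    (ha : 0 < cr p l) (hK : 1 ≤ K) (hK2 : 1 ≤ K2) (hK1 : 6 * K * K2 ≤ K1)
    (hA2 : 2 * K2 * cr u m ≤ cr u v) (hbig : 3 * K ^ 2 * (cr u v + cr u m) < cr p l)
    (hr : RichL (lat l p) u m K1) :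
    ∃ α : ℤ, 0 ≤ cr v m + α * cr u m ∧ K2 * (cr v m + α * cr u m) ≤ cr u v + K2 * cr u m ∧
      RichL (lat l p) u (v + m + α • u) K := by
  by_contra hneg
  push Not at hneg
  obtain ⟨A, hAd⟩ : ∃ A, A = cr u v := ⟨_, rfl⟩
  obtain ⟨F, hF⟩ : ∃ F, F = cr u m := ⟨_, rfl⟩
  obtain ⟨D, hD⟩ : ∃ D, D = cr v m := ⟨_, rfl⟩
  have hr' := hr.to_rich ha
  rw [← hAd] at hA hA2 hbig hneg
  rw [← hF] at hm hA2 hbig hneg
  rw [← hD] at hneg
  have hAF : 0 < A + F := by linarith
  have huw : ∀ α : ℤ, cr u (v + m + α • u) = A + F := by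
    intro α
    rw [hAd, hF]
    simp only [cr, Prod.fst_add, Prod.snd_add, Prod.smul_fst, Prod.smul_snd, smul_eq_mul]
    ring
  have hwm : ∀ α : ℤ, cr (v + m + α • u) m = D + α * F := by
    intro α
    rw [hD, hF]
    simp only [cr, Prod.fst_add, Prod.snd_add, Prod.smul_fst, Prod.smul_snd, smul_eq_mul]
    ring
  have hwx : ∀ (α k : ℤ) (x : Z2), cr (v + m + (α + k) • u) x =
      cr (v + m + α • u) x + k * cr u x := by
    intro α k x
    simp only [cr, Prod.fst_add, Prod.snd_add, Prod.smul_fst, Prod.smul_snd, smul_eq_mul]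
    ring
  -- the range of `α`
  obtain ⟨α0, hα0⟩ : ∃ α0, α0 = -(D / F) := ⟨_, rfl⟩
  have d1 := Int.emod_nonneg D hm.ne'
  have d2 := Int.emod_lt_of_pos D hm
  have d3 := Int.emod_add_mul_ediv D F
  have hD0 : D + α0 * F = D % F := by rw [hα0]; linarith
  have hK2F : 0 < K2 * F := by positivity
  obtain ⟨n, hn⟩ : ∃ n, n = A / (K2 * F) := ⟨_, rfl⟩
  have n1 : n * (K2 * F) ≤ A := by rw [hn]; exact Int.ediv_mul_le _ hK2F.ne'
  have n2 : A < (n + 1) * (K2 * F) := by
    rw [hn]; exact Int.lt_ediv_add_one_mul_self _ hK2F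
  have n3 : 1 ≤ n := by
    rw [hn]
    refine (Int.le_ediv_iff_mul_le hK2F).2 ?_
    linarith
  have hbad : ∀ k : ℤ, 0 ≤ k → k ≤ n →
      ¬ RichL (lat l p) u (v + m + (α0 + k) • u) K := by
    intro k k0 k1
    have e : D + (α0 + k) * F = D % F + k * F := by linarith
    refine hneg (α0 + k) ?_ ?_
    · rw [e]; positivity
    · rw [e]
      have e1 : k * (K2 * F) ≤ n * (K2 * F) := mul_le_mul_of_nonneg_right k1 hK2F.le
      have e2 : K2 * (D % F) ≤ K2 * F := mul_le_mul_of_nonneg_left d2.le (by linarith)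
      linarith
  -- one vector for the whole range
  obtain ⟨i, j, hij, hu0, hw0⟩ := RichL.bad (hbad 0 le_rfl (by linarith))
  rw [huw] at hu0 hw0
  obtain ⟨e, he⟩ : ∃ e : Z2, e = i • l + j • p := ⟨_, rfl⟩
  rw [← he] at hu0 hw0
  have key : ∀ k : ℕ, (k : ℤ) ≤ n → |cr e (v + m + (α0 + k) • u)| ≤ K * (A + F) := by
    intro k
    induction k with
    | zero => intro _; simpa using hw0
    | succ k ih =>
      intro hk
      push_cast at hk
      have h1 := ih (by linarith)
      obtain ⟨i', j', hij', hu', hw'⟩ := RichL.bad (hbad (k + 1) (by positivity) hk)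
      rw [huw] at hu' hw'
      have e0 : α0 + ((k : ℤ) + 1) = α0 + k + 1 := by ring
      rw [e0] at hw'
      -- the product of the two vectors is small
      obtain ⟨e', he'⟩ : ∃ e' : Z2, e' = i' • l + j' • p := ⟨_, rfl⟩
      rw [← he'] at hu' hw'
      have hP := cr_plucker u (v + m + (α0 + k) • u) e e'
      rw [huw] at hP
      have s1 : |cr (v + m + (α0 + k) • u) e'| ≤ 2 * (K * (A + F)) := by
        have q1 := hwx (α0 + k) 1 e'
        rw [one_mul] at q1
        have q2 : cr (v + m + (α0 + k) • u) e' =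
            -cr e' (v + m + (α0 + k + 1) • u) - cr u e' := by
          rw [cr_swap' (v + m + (α0 + k + 1) • u) e'] at *
          linarith
        rw [q2]
        calc |-cr e' (v + m + (α0 + k + 1) • u) - cr u e'|
            ≤ |-cr e' (v + m + (α0 + k + 1) • u)| + |cr u e'| := abs_sub _ _
          _ ≤ K * (A + F) + K * (A + F) := by
            rw [abs_neg]; exact add_le_add hw' hu'
          _ = 2 * (K * (A + F)) := by ring
      have s2 : |cr (v + m + (α0 + k) • u) e| ≤ K * (A + F) := by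
        rw [cr_swap' e, abs_neg]; exact h1
      have s3 : (A + F) * |cr e e'| ≤ (A + F) * (3 * K ^ 2 * (A + F)) := by
        have hKA : 0 ≤ K * (A + F) := by positivity
        calc (A + F) * |cr e e'| = |(A + F) * cr e e'| := by rw [abs_mul, abs_of_pos hAF]
          _ = |cr u e * cr (v + m + (α0 + k) • u) e' -
              cr (v + m + (α0 + k) • u) e * cr u e'| := by rw [hP]
          _ ≤ |cr u e * cr (v + m + (α0 + k) • u) e'| +
              |cr (v + m + (α0 + k) • u) e * cr u e'| := abs_sub _ _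
          _ = |cr u e| * |cr (v + m + (α0 + k) • u) e'| +
              |cr (v + m + (α0 + k) • u) e| * |cr u e'| := by rw [abs_mul, abs_mul]
          _ ≤ (K * (A + F)) * (2 * (K * (A + F))) + (K * (A + F)) * (K * (A + F)) :=
            add_le_add (mul_le_mul hu0 s1 (abs_nonneg _) hKA)
              (mul_le_mul s2 hu' (abs_nonneg _) hKA)
          _ = (A + F) * (3 * K ^ 2 * (A + F)) := by ring
      have s4 : |cr e e'| < |cr p l| := by
        rw [abs_of_pos ha]
        exact lt_of_le_of_lt (le_of_mul_le_mul_left s3 hAF) hbig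
      have e5 : α0 + ((k + 1 : ℕ) : ℤ) = α0 + k + 1 := by push_cast; ring
      rw [e5]
      rw [he, he'] at s4
      rcases par_of_small hij hij' s4 with ⟨h2, h3⟩ | ⟨h2, h3⟩
      · have : e' = e := by rw [he, he', h2, h3]
        rw [← this]; exact hw'
      · have : e' = -e := by rw [he, he', h2, h3]; module
        rw [this, cr_neg_left, abs_neg] at hw'
        exact hw'
  have hlast : |cr e (v + m + (α0 + n) • u)| ≤ K * (A + F) := by
    have h1 := key n.toNat (by rw [Int.toNat_of_nonneg (by linarith)])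
    rw [Int.toNat_of_nonneg (by linarith)] at h1
    exact h1
  have hfirst : |cr e (v + m + α0 • u)| ≤ K * (A + F) := by simpa using hw0
  -- the level of `e`
  have t1 : n * |cr u e| ≤ 2 * (K * (A + F)) := by
    have q1 := hwx α0 n e
    rw [cr_swap' e, cr_swap' e (v + m + α0 • u)] at q1
    calc n * |cr u e| = |n * cr u e| := by rw [abs_mul, abs_of_pos (by linarith : (0:ℤ) < n)]
      _ = |cr e (v + m + α0 • u) - cr e (v + m + (α0 + n) • u)| := by
        congr 1; linarith
      _ ≤ |cr e (v + m + α0 • u)| + |cr e (v + m + (α0 + n) • u)| := abs_sub _ _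
      _ ≤ 2 * (K * (A + F)) := by linarith
  have t2 : A ≤ 2 * n * (K2 * F) := by
    have : (n + 1) * (K2 * F) ≤ 2 * n * (K2 * F) :=
      mul_le_mul_of_nonneg_right (by linarith) hK2F.le
    linarith
  have t3 : A * |cr u e| ≤ A * (6 * K * K2 * F) := by
    have q1 : A * |cr u e| ≤ 2 * n * (K2 * F) * |cr u e| :=
      mul_le_mul_of_nonneg_right t2 (abs_nonneg _)
    have q2 : (2 * (K2 * F)) * (n * |cr u e|) ≤ (2 * (K2 * F)) * (2 * (K * (A + F))) :=
      mul_le_mul_of_nonneg_left t1 (by positivity)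
    have q3 : 2 * F ≤ A := by
      have : 2 * F * 1 ≤ 2 * F * K2 := mul_le_mul_of_nonneg_left hK2 (by positivity)
      linarith
    have q4 : (2 * (K2 * F)) * (2 * (K * (A + F))) = 2 * (K * K2 * F) * (2 * (A + F)) := by ring
    have q5 : 2 * (K * K2 * F) * (2 * (A + F)) ≤ 2 * (K * K2 * F) * (3 * A) :=
      mul_le_mul_of_nonneg_left (by linarith) (by positivity)
    linarith
  have t4 : |cr u e| ≤ 6 * K * K2 * F := le_of_mul_le_mul_left t3 hA
  have t5 : (A + F) * |cr e m| ≤ (A + F) * (4 * K * F) := by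
    have hP := cr_plucker u (v + m + α0 • u) e m
    rw [huw, hwm, hD0, ← hF] at hP
    have hKA : 0 ≤ 6 * K * K2 * F := by positivity
    have q0 : |cr (v + m + α0 • u) e| ≤ K * (A + F) := by
      rw [cr_swap' e, abs_neg]; exact hfirst
    calc (A + F) * |cr e m| = |(A + F) * cr e m| := by rw [abs_mul, abs_of_pos hAF]
      _ = |cr u e * (D % F) - cr (v + m + α0 • u) e * F| := by rw [hP]
      _ ≤ |cr u e * (D % F)| + |cr (v + m + α0 • u) e * F| := abs_sub _ _
      _ = |cr u e| * (D % F) + |cr (v + m + α0 • u) e| * F := by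
        rw [abs_mul, abs_mul, abs_of_nonneg d1, abs_of_pos hm]
      _ ≤ (6 * K * K2 * F) * F + K * (A + F) * F :=
        add_le_add (mul_le_mul t4 d2.le d1 hKA) (mul_le_mul_of_nonneg_right q0 hm.le)
      _ ≤ (A + F) * (4 * K * F) := by
        have q1 : 3 * K * F * (2 * K2 * F) ≤ 3 * K * F * A :=
          mul_le_mul_of_nonneg_left hA2 (by positivity)
        have q2 : 0 ≤ 3 * K * F * F := by positivity
        linarith
  have t6 : |cr e m| ≤ 4 * K * F := le_of_mul_le_mul_left t5 hAF
  have t7 : |cr u (i • l + j • p)| ≤ K1 * cr u m := by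
    rw [← he, ← hF]
    exact t4.trans (mul_le_mul_of_nonneg_right hK1 hm.le)
  have t8 := hr' i j hij t7
  rw [← he, ← hF] at t8
  have t9 : 4 * K * F ≤ K1 * F := by
    refine mul_le_mul_of_nonneg_right ?_ hm.le
    have : 6 * K * 1 ≤ 6 * K * K2 := mul_le_mul_of_nonneg_left hK2 (by linarith)
    linarith
  linarith

end Pool.Agent.H4G.Six
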